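import Pool.Agent.P.MP_e05717_an.Wsub

/-!
Row TS-Trans. Transport along matched families.
Hints: `exists_graph`: take `G` = pairs `(x, y)` with `(v x, v y)` in the closure of the vectors of
`adjoin S`. Totality: `kaplansky` of the operator library for the C*-algebra `C` = norm closure of
`adjoin S` in `A × A'` (`StarSubalgebra.topologicalClosure`, closed so a `CStarAlgebra`) and
`π = L ∘ fst`; `L x ∈ (cmt π).commutant` by `comm_L_W`; the second components are Cauchy; `exists_lim`.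
(Use the symmetry `Prod.swap` or prove a symmetric helper.) `compat`: an element of
`adjoin (fst '' S')` is the first component of an element of `adjoin S' ≤ G`.
-/

open scoped ComplexOrder InnerProductSpace ComplexConjugate ENNReal
open Filter Topology Pool.Agent.P.MP_5d580a_an

set_option linter.unusedSectionVars false
set_option linter.unusedVariables false

noncomputable section

namespace Pool.Agent.TS

variable {A H : Type} [CStarAlgebra A] [NormedAddCommGroup H] [InnerProductSpace ℂ H]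
  [CompleteSpace H]
variable {A' H' : Type} [CStarAlgebra A'] [NormedAddCommGroup H'] [InnerProductSpace ℂ H']
  [CompleteSpace H']

/-- the closed graph of a matched family -/
structure Graph (T : TW A H) (T' : TW A' H') (S : Set (A × A')) (G : StarSubalgebra ℂ (A × A')) :
    Prop where
  sub : S ⊆ G
  tr : ∀ g ∈ G, T.τ g.1 = T'.τ g.2
  tot : ∀ x ∈ T.W (Prod.fst '' S), ∃ y, (x, y) ∈ G
  tot' : ∀ y ∈ T'.W (Prod.snd '' S), ∃ x, (x, y) ∈ G
  mem : ∀ g ∈ G, g.1 ∈ T.W (Prod.fst '' S) ∧ g.2 ∈ T'.W (Prod.snd '' S)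

variable {T : TW A H} {T' : TW A' H'}

theorem Match.mono {S S' : Set (A × A')} (h : Match T T' S)
    (hS : S' ⊆ StarAlgebra.adjoin ℂ S) : Match T T' S' :=
  fun g hg => h g (StarAlgebra.adjoin_le hS hg)

theorem match_of_sub (G : StarSubalgebra ℂ (A × A')) (hG : ∀ g ∈ G, T.τ g.1 = T'.τ g.2)
    {S : Set (A × A')} (hS : S ⊆ G) : Match T T' S :=
  fun g hg => hG g (StarAlgebra.adjoin_le hS hg)

theorem match_diag (T : TW A H) {S : Set (A × A)} (h : ∀ p ∈ S, p.1 = p.2) : Match T T S := by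
  refine match_of_sub (StarAlgHom.equalizer (StarAlgHom.fst ℂ A A) (StarAlgHom.snd ℂ A A))
    (fun g hg => ?_) fun p hp => h p hp
  have : g.1 = g.2 := hg
  rw [this]

theorem match_empty : Match T T' ∅ := by
  intro g hg
  have h : ∃ r : ℂ, g = r • (1 : A × A') := by
    induction hg using StarAlgebra.adjoin_induction with
    | mem x hx => exact hx.elim
    | algebraMap r => exact ⟨r, Algebra.algebraMap_eq_smul_one r⟩
    | add x y _ _ hx hy =>
      obtain ⟨r, rfl⟩ := hx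
      obtain ⟨s, rfl⟩ := hy
      exact ⟨r + s, (add_smul _ _ _).symm⟩
    | mul x y _ _ hx hy =>
      obtain ⟨r, rfl⟩ := hx
      obtain ⟨s, rfl⟩ := hy
      exact ⟨r * s, by rw [smul_mul_smul_comm, one_mul]⟩
    | star x _ hx =>
      obtain ⟨r, rfl⟩ := hx
      exact ⟨star r, by rw [star_smul, star_one]⟩
  obtain ⟨r, rfl⟩ := h
  rw [Prod.smul_fst, Prod.smul_snd, Prod.fst_one, Prod.snd_one, map_smul, map_smul, T.τ_one,
    T'.τ_one]

theorem match_iUnion (S : ℕ → Set (A × A')) (hm : Monotone S) (h : ∀ n, Match T T' (S n)) :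
    Match T T' (⋃ n, S n) := by
  intro g hg
  have hmono : ∀ {m n : ℕ}, m ≤ n → StarAlgebra.adjoin ℂ (S m) ≤ StarAlgebra.adjoin ℂ (S n) :=
    fun hmn => StarAlgebra.adjoin_mono (hm hmn)
  have key : ∃ n, g ∈ StarAlgebra.adjoin ℂ (S n) := by
    induction hg using StarAlgebra.adjoin_induction with
    | mem x hx =>
      obtain ⟨n, hn⟩ := Set.mem_iUnion.1 hx
      exact ⟨n, StarAlgebra.subset_adjoin ℂ _ hn⟩
    | algebraMap r => exact ⟨0, StarSubalgebra.algebraMap_mem _ r⟩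
    | add x y _ _ hx hy =>
      obtain ⟨m, hx⟩ := hx
      obtain ⟨n, hy⟩ := hy
      exact ⟨max m n, add_mem (hmono (le_max_left _ _) hx) (hmono (le_max_right _ _) hy)⟩
    | mul x y _ _ hx hy =>
      obtain ⟨m, hx⟩ := hx
      obtain ⟨n, hy⟩ := hy
      exact ⟨max m n, mul_mem (hmono (le_max_left _ _) hx) (hmono (le_max_right _ _) hy)⟩
    | star x _ hx =>
      obtain ⟨n, hx⟩ := hx
      exact ⟨n, star_mem hx⟩
  obtain ⟨n, hn⟩ := key
  exact h n g hn

theorem adjoin_fst {S : Set (A × A')} {x : A} (hx : x ∈ StarAlgebra.adjoin ℂ (Prod.fst '' S)) :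
    ∃ y, (x, y) ∈ StarAlgebra.adjoin ℂ S := by
  have h : StarAlgebra.adjoin ℂ (Prod.fst '' S) ≤
      (StarAlgebra.adjoin ℂ S).map (StarAlgHom.fst ℂ A A') := by
    refine StarAlgebra.adjoin_le ?_
    rintro _ ⟨p, hp, rfl⟩
    exact ⟨p, StarAlgebra.subset_adjoin ℂ _ hp, rfl⟩
  obtain ⟨p, hp, rfl⟩ := h hx
  exact ⟨p.2, hp⟩

theorem adjoin_snd {S : Set (A × A')} {y : A'} (hy : y ∈ StarAlgebra.adjoin ℂ (Prod.snd '' S)) :
    ∃ x, (x, y) ∈ StarAlgebra.adjoin ℂ S := by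
  have h : StarAlgebra.adjoin ℂ (Prod.snd '' S) ≤
      (StarAlgebra.adjoin ℂ S).map (StarAlgHom.snd ℂ A A') := by
    refine StarAlgebra.adjoin_le ?_
    rintro _ ⟨p, hp, rfl⟩
    exact ⟨p, StarAlgebra.subset_adjoin ℂ _ hp, rfl⟩
  obtain ⟨p, hp, rfl⟩ := h hy
  exact ⟨p.1, hp⟩

theorem adjoin_pair_mem {S : Set (A × A')} {D : StarSubalgebra ℂ A} {D' : StarSubalgebra ℂ A'}
    (h : ∀ p ∈ S, p.1 ∈ D ∧ p.2 ∈ D') : ∀ g ∈ StarAlgebra.adjoin ℂ S, g.1 ∈ D ∧ g.2 ∈ D' := by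
  intro g hg
  have h1 : StarAlgebra.adjoin ℂ S ≤ D.comap (StarAlgHom.fst ℂ A A') :=
    StarAlgebra.adjoin_le fun p hp => (h p hp).1
  have h2 : StarAlgebra.adjoin ℂ S ≤ D'.comap (StarAlgHom.snd ℂ A A') :=
    StarAlgebra.adjoin_le fun p hp => (h p hp).2
  exact ⟨h1 hg, h2 hg⟩

theorem Trans_pair {S : Set (A × A')} {g : A × A'} (hg : g ∈ StarAlgebra.adjoin ℂ S) :
    g.1 ∈ StarAlgebra.adjoin ℂ (Prod.fst '' S) ∧ g.2 ∈ StarAlgebra.adjoin ℂ (Prod.snd '' S) :=
  adjoin_pair_mem (fun p hp => ⟨StarAlgebra.subset_adjoin ℂ _ (Set.mem_image_of_mem _ hp),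
    StarAlgebra.subset_adjoin ℂ _ (Set.mem_image_of_mem _ hp)⟩) g hg

/-- bounded approximation through a homomorphism -/
theorem Trans_kap (T : TW A H) {B : Type} [CStarAlgebra B] (φ : B →⋆ₐ[ℂ] A) (S : Set B) {x : A}
    (hx : x ∈ T.W (φ '' S)) :
    ∃ (K : ℝ) (a : ℕ → B), (∀ n, a n ∈ closure (StarAlgebra.adjoin ℂ S : Set B) ∧ ‖a n‖ ≤ K) ∧
      Tendsto (fun n => T.v (φ (a n))) atTop (𝓝 (T.v x)) := by
  let C := (StarAlgebra.adjoin ℂ S).topologicalClosure
  haveI : IsClosed (C : Set B) := StarSubalgebra.isClosed_topologicalClosure _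
  let π : C →⋆ₐ[ℂ] (H →L[ℂ] H) := (T.L.comp φ).comp C.subtype
  have hS : ∀ s ∈ S, s ∈ C := fun s hs =>
    StarSubalgebra.le_topologicalClosure _ (StarAlgebra.subset_adjoin ℂ _ hs)
  have hc : T.L x ∈ (cmt π).commutant := by
    rw [VonNeumannAlgebra.mem_commutant_iff]
    intro g hg
    rw [mem_cmt] at hg
    refine T.comm_L_W ?_ x hx
    rintro _ ⟨s, hs, rfl⟩
    refine ⟨(hg ⟨s, hS s hs⟩).symm, ?_⟩
    rw [← map_star]
    exact (hg ⟨star s, star_mem (hS s hs)⟩).symm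
  obtain ⟨c, d, hd, hcd⟩ := proj_scale (T.L x)
  have key : ∀ n : ℕ, ∃ a : C, ‖a‖ ≤ 1 ∧
      ‖π a T.Ω - ((d : ℂ) • T.L x) T.Ω‖ ≤ 1 / ((n : ℝ) + 1) :=
    fun n => kaplansky π (vn_smul_mem _ hc) hd T.Ω Nat.one_div_pos_of_nat
  choose a ha1 ha2 using key
  have hlim : Tendsto (fun n => π (a n) T.Ω) atTop (𝓝 (((d : ℂ) • T.L x) T.Ω)) := by
    rw [tendsto_iff_norm_sub_tendsto_zero]
    exact squeeze_zero (fun n => norm_nonneg _) ha2 tendsto_one_div_add_atTop_nhds_zero_nat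
  refine ⟨‖(c : ℂ)‖, fun n => (c : ℂ) • (a n : B), fun n => ⟨?_, ?_⟩, ?_⟩
  · exact (C.smul_mem (a n).2 (c : ℂ) : (c : ℂ) • (a n : B) ∈ C)
  · rw [norm_smul]
    exact mul_le_of_le_one_right (norm_nonneg _) (ha1 n)
  · have h2 := hlim.const_smul (c : ℂ)
    have e : (c : ℂ) • (((d : ℂ) • T.L x) T.Ω) = T.v x := by
      rw [T.v_def]
      conv_rhs => rw [hcd]
      rfl
    rw [e] at h2
    refine h2.congr fun n => ?_
    rw [map_smul, map_smul]
    rfl

/-- the pair of vectors of a pair -/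
def Trans_V (T : TW A H) (T' : TW A' H') (g : A × A') : H × H' := (T.v g.1, T'.v g.2)

/-- the closed graph -/
def Trans_G (T : TW A H) (T' : TW A' H') (S : Set (A × A')) : StarSubalgebra ℂ (A × A') where
  carrier := {g | Trans_V T T' g ∈ closure (Trans_V T T' '' (StarAlgebra.adjoin ℂ S : Set _))}
  mul_mem' := by
    intro x y hx hy
    have h1 : ∀ a ∈ StarAlgebra.adjoin ℂ S, Trans_V T T' (a * y) ∈
        closure (Trans_V T T' '' (StarAlgebra.adjoin ℂ S : Set _)) := by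
      intro a ha
      have e : ∀ b, Trans_V T T' (a * b) = Prod.map (T.L a.1) (T'.L a.2) (Trans_V T T' b) :=
        fun b => Prod.ext (T.v_mul _ _) (T'.v_mul _ _)
      rw [e]
      refine map_mem_closure ((T.L a.1).continuous.prodMap (T'.L a.2).continuous) hy ?_
      rintro _ ⟨b, hb, rfl⟩
      exact ⟨a * b, mul_mem ha hb, e b⟩
    have e : ∀ b, Trans_V T T' (b * y) = Prod.map (T.R y.1) (T'.R y.2) (Trans_V T T' b) :=
      fun b => Prod.ext (T.R_v _ _).symm (T'.R_v _ _).symm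
    show Trans_V T T' (x * y) ∈ closure (Trans_V T T' '' (StarAlgebra.adjoin ℂ S : Set _))
    rw [e, ← closure_closure]
    refine map_mem_closure ((T.R y.1).continuous.prodMap (T'.R y.2).continuous) hx ?_
    rintro _ ⟨a, ha, rfl⟩
    rw [← e]; exact h1 a ha
  add_mem' := by
    intro x y hx hy
    have e : ∀ a b, Trans_V T T' (a + b) = Trans_V T T' a + Trans_V T T' b :=
      fun a b => Prod.ext (map_add T.v _ _) (map_add T'.v _ _)
    show Trans_V T T' (x + y) ∈ closure (Trans_V T T' '' (StarAlgebra.adjoin ℂ S : Set _))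
    rw [e]
    refine map_mem_closure₂ continuous_add hx hy ?_
    rintro _ ⟨a, ha, rfl⟩ _ ⟨b, hb, rfl⟩
    exact ⟨a + b, add_mem ha hb, e a b⟩
  algebraMap_mem' r := subset_closure ⟨_, StarSubalgebra.algebraMap_mem _ r, rfl⟩
  star_mem' := by
    intro x hx
    show Trans_V T T' (star x) ∈ closure (Trans_V T T' '' (StarAlgebra.adjoin ℂ S : Set _))
    rw [Metric.mem_closure_iff]
    intro ε hε
    obtain ⟨_, ⟨a, ha, rfl⟩, h⟩ := Metric.mem_closure_iff.1 hx ε hε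
    refine ⟨_, ⟨star a, star_mem ha, rfl⟩, ?_⟩
    rw [Prod.dist_eq] at h ⊢
    simp only [Trans_V, dist_eq_norm, ← map_sub, Prod.fst_star, Prod.snd_star,
      ← star_sub, TW.defs_star] at h ⊢
    exact h

theorem Trans_n2 {G : StarSubalgebra ℂ (A × A')} (h : ∀ g ∈ G, T.τ g.1 = T'.τ g.2) {g : A × A'}
    (hg : g ∈ G) : T.n2 g.1 = T'.n2 g.2 := by
  have h1 := h _ (mul_mem (star_mem hg) hg)
  rw [Prod.fst_mul, Prod.snd_mul, Prod.fst_star, Prod.snd_star, T.τ_star_mul_self,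
    T'.τ_star_mul_self] at h1
  have h2 : T.n2 g.1 ^ 2 = T'.n2 g.2 ^ 2 := by exact_mod_cast h1
  exact (pow_left_inj₀ (T.n2_nonneg _) (T'.n2_nonneg _) two_ne_zero).1 h2

theorem Trans_dist {G : StarSubalgebra ℂ (A × A')} (h : ∀ g ∈ G, T.τ g.1 = T'.τ g.2)
    {g g' : A × A'} (hg : g ∈ G) (hg' : g' ∈ G) :
    dist (T.v g.1) (T.v g'.1) = dist (T'.v g.2) (T'.v g'.2) := by
  rw [dist_eq_norm, dist_eq_norm, ← map_sub, ← map_sub]
  exact Trans_n2 h (sub_mem hg hg')

theorem Trans_closure (S : Set (A × A')) {g : A × A'}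
    (hg : g ∈ closure (StarAlgebra.adjoin ℂ S : Set (A × A'))) : g ∈ Trans_G T T' S := by
  have hV : Continuous (Trans_V T T') :=
    (T.continuous_v.comp continuous_fst).prodMk (T'.continuous_v.comp continuous_snd)
  exact map_mem_closure hV hg fun a ha => ⟨a, ha, rfl⟩

theorem Trans_lim (S : Set (A × A')) {a : ℕ → A × A'} (ha : ∀ n, a n ∈ Trans_G T T' S) {x : A}
    {y : A'} (hx : Tendsto (fun n => T.v (a n).1) atTop (𝓝 (T.v x)))
    (hy : Tendsto (fun n => T'.v (a n).2) atTop (𝓝 (T'.v y))) : (x, y) ∈ Trans_G T T' S :=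
  isClosed_closure.mem_of_tendsto (hx.prodMk_nhds hy) (Eventually.of_forall ha)

theorem exists_graph {S : Set (A × A')} (h : Match T T' S) : ∃ G, Graph T T' S G := by
  have htr : ∀ g ∈ Trans_G T T' S, T.τ g.1 = T'.τ g.2 := by
    intro g hg
    have hc : IsClosed {p : H × H' | ⟪T.Ω, p.1⟫_ℂ = ⟪T'.Ω, p.2⟫_ℂ} :=
      isClosed_eq (continuous_const.inner continuous_fst) (continuous_const.inner continuous_snd)
    refine closure_minimal ?_ hc hg
    rintro _ ⟨a, ha, rfl⟩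
    exact h a ha
  refine ⟨Trans_G T T' S, fun p hp => subset_closure ⟨p, StarAlgebra.subset_adjoin ℂ _ hp, rfl⟩,
    htr, fun x hx => ?_, fun y hy => ?_, fun g hg => ⟨?_, ?_⟩⟩
  · obtain ⟨K, a, ha, hl⟩ := Trans_kap T (StarAlgHom.fst ℂ A A') S hx
    have hG : ∀ n, a n ∈ Trans_G T T' S := fun n => Trans_closure S (ha n).1
    have hc : CauchySeq fun n => T'.v (a n).2 := by
      have := hl.cauchySeq
      rw [Metric.cauchySeq_iff] at this ⊢
      intro ε hε
      obtain ⟨N, hN⟩ := this ε hε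
      exact ⟨N, fun m hm n hn => by rw [← Trans_dist htr (hG m) (hG n)]; exact hN m hm n hn⟩
    obtain ⟨y, -, hy⟩ := T'.exists_lim_cauchy (fun n => (a n).2) K
      (fun n => (norm_snd_le _).trans (ha n).2) hc
    exact ⟨y, Trans_lim S hG hl hy⟩
  · obtain ⟨K, a, ha, hl⟩ := Trans_kap T' (StarAlgHom.snd ℂ A A') S hy
    have hG : ∀ n, a n ∈ Trans_G T T' S := fun n => Trans_closure S (ha n).1
    have hc : CauchySeq fun n => T.v (a n).1 := by
      have := hl.cauchySeq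
      rw [Metric.cauchySeq_iff] at this ⊢
      intro ε hε
      obtain ⟨N, hN⟩ := this ε hε
      exact ⟨N, fun m hm n hn => by rw [Trans_dist htr (hG m) (hG n)]; exact hN m hm n hn⟩
    obtain ⟨x, -, hx⟩ := T.exists_lim_cauchy (fun n => (a n).1) K
      (fun n => (norm_fst_le _).trans (ha n).2) hc
    exact ⟨x, Trans_lim S hG hx hl⟩
  · refine map_mem_closure (f := (Prod.fst : H × H' → H)) (x := Trans_V T T' g) continuous_fst hg ?_
    rintro _ ⟨a, ha, rfl⟩
    exact ⟨a.1, (Trans_pair ha).1, rfl⟩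
  · refine map_mem_closure (f := (Prod.snd : H × H' → H')) (x := Trans_V T T' g) continuous_snd hg ?_
    rintro _ ⟨a, ha, rfl⟩
    exact ⟨a.2, (Trans_pair ha).2, rfl⟩

namespace Graph

variable {S : Set (A × A')} {G : StarSubalgebra ℂ (A × A')}

theorem n2 (h : Graph T T' S G) {g : A × A'} (hg : g ∈ G) : T.n2 g.1 = T'.n2 g.2 :=
  Trans_n2 h.tr hg

theorem compat (h : Graph T T' S G) {S' : Set (A × A')} (hS : S' ⊆ G) {g : A × A'} (hg : g ∈ G) :
    g.1 ∈ T.W (Prod.fst '' S') ↔ g.2 ∈ T'.W (Prod.snd '' S') := by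
  have hle : StarAlgebra.adjoin ℂ S' ≤ G := StarAlgebra.adjoin_le hS
  rw [T.mem_W_iff, T'.mem_W_iff]
  constructor
  · intro H1 ε hε
    obtain ⟨a, ha, h1⟩ := H1 ε hε
    obtain ⟨b, hb⟩ := adjoin_fst ha
    refine ⟨b, (Trans_pair hb).2, ?_⟩
    have := h.n2 (sub_mem hg (hle hb))
    rw [Prod.fst_sub, Prod.snd_sub] at this
    rwa [← this]
  · intro H1 ε hε
    obtain ⟨b, hb, h1⟩ := H1 ε hε
    obtain ⟨a, ha⟩ := adjoin_snd hb
    refine ⟨a, (Trans_pair ha).1, ?_⟩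
    have := h.n2 (sub_mem hg (hle ha))
    rw [Prod.fst_sub, Prod.snd_sub] at this
    rwa [this]

theorem Trans_zero (h : Graph T T' S G) {g : A × A'} (hg : g ∈ G) (h0 : g.1 = 0) : g.2 = 0 := by
  have := h.n2 hg
  rw [h0, T.n2_zero] at this
  exact T'.n2_eq_zero.1 this.symm

theorem Trans_uniq (h : Graph T T' S G) {g g' : A × A'} (hg : g ∈ G) (hg' : g' ∈ G)
    (h0 : g.1 = g'.1) : g.2 = g'.2 :=
  sub_eq_zero.1 (h.Trans_zero (sub_mem hg hg') (sub_eq_zero.2 h0))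

theorem unitary (h : Graph T T' S G) {g : A × A'} (hg : g ∈ G) (hu : g.1 ∈ unitary A) :
    g.2 ∈ unitary A' :=
  ⟨h.Trans_uniq (mul_mem (star_mem hg) hg) (one_mem G) hu.1,
    h.Trans_uniq (mul_mem hg (star_mem hg)) (one_mem G) hu.2⟩

theorem reg (h : Graph T T' S G) {κ : Type} {u : κ → _root_.unitary A}
    {u' : κ → _root_.unitary A'} (hu : ∀ t, ((u t : A), (u' t : A')) ∈ G) (hr : Reg T u) :
    Reg T' u' := by
  intro g hg
  have key : ∀ g : FreeGroup κ, (((FreeGroup.lift u g : _root_.unitary A) : A),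
      ((FreeGroup.lift u' g : _root_.unitary A') : A')) ∈ G := by
    intro g
    induction g using FreeGroup.induction_on with
    | C1 => rw [map_one, map_one]; exact one_mem G
    | of t => rw [FreeGroup.lift_apply_of, FreeGroup.lift_apply_of]; exact hu t
    | inv_of t ht => rw [map_inv, map_inv]; exact star_mem ht
    | mul a b ha hb => rw [map_mul, map_mul]; exact mul_mem ha hb
  rw [← h.tr _ (key g)]
  exact hr g hg

theorem move (h : Graph T T' S G) {κ : Type} (u : κ → _root_.unitary A)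
    (hu : ∀ t, (u t : A) ∈ T.W (Prod.fst '' S)) :
    ∃ u' : κ → _root_.unitary A', ∀ t, ((u t : A), (u' t : A')) ∈ G := by
  choose y hy using fun t => h.tot _ (hu t)
  exact ⟨fun t => ⟨y t, h.unitary (hy t) (u t).2⟩, hy⟩

theorem W_top (h : Graph T T' S G) {S' : Set (A × A')} (hS : S' ⊆ G)
    (hW : T.W (Prod.fst '' S') = T.W (Prod.fst '' S)) :
    T'.W (Prod.snd '' S') = T'.W (Prod.snd '' S) := by
  refine T'.W_eq ?_ ?_
  · rintro _ ⟨p, hp, rfl⟩
    exact (h.mem p (hS hp)).2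
  · rintro _ ⟨p, hp, rfl⟩
    refine (h.compat hS (h.sub hp)).1 ?_
    rw [hW]
    exact (h.mem p (h.sub hp)).1

end Graph

theorem Graph.diag {S : Set (A × A)} {G : StarSubalgebra ℂ (A × A)} (h : Graph T T S G)
    {S₀ : Set A} (h₀ : ∀ x ∈ S₀, (x, x) ∈ G) : ∀ x ∈ T.W S₀, (x, x) ∈ G := by
  intro x hx
  obtain ⟨y, hy⟩ := h.tot x (T.W_le (fun s hs => (h.mem _ (h₀ s hs)).1) hx)
  have hle : StarAlgebra.adjoin ℂ S₀ ≤
      G.comap ((StarAlgHom.id ℂ A).prod (StarAlgHom.id ℂ A)) :=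
    StarAlgebra.adjoin_le fun s hs => h₀ s hs
  have hxy : T.n2 (x - y) ≤ 0 := by
    refine le_of_forall_pos_le_add fun ε hε => ?_
    obtain ⟨a, ha, h1⟩ := T.mem_W_iff.1 hx (ε / 2) (half_pos hε)
    have ha' : (a, a) ∈ G := hle ha
    have h2 : T.n2 (x - a) = T.n2 (y - a) := h.n2 (sub_mem hy ha')
    have h3 := T.n2_triangle x a y
    rw [T.n2_sub_comm a y] at h3
    linarith
  have : x = y := sub_eq_zero.1 (T.n2_eq_zero.1 (le_antisymm hxy (T.n2_nonneg _)))
  rw [← this] at hy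
  exact hy

theorem RG.move {S : Set (A × A')} (h : Match T T' S) (hr : RG T (T.W (Prod.fst '' S))) :
    RG T' (T'.W (Prod.snd '' S)) := by
  obtain ⟨G, hG⟩ := exists_graph h
  obtain ⟨u, hu, hW⟩ := hr
  obtain ⟨u', hu'⟩ := hG.move u fun t => by rw [← hW]; exact T.subset_W _ ⟨t, rfl⟩
  refine ⟨u', hG.reg hu' hu, ?_⟩
  have := hG.W_top (S' := Set.range fun n => ((u n : A), (u' n : A')))
    (by rintro _ ⟨n, rfl⟩; exact hu' n) (by rw [← Set.range_comp, ← hW]; rfl)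
  rw [← Set.range_comp] at this
  exact this

theorem exists_hom {S : Set (A × A')} (h : Match T T' S) (ht : T.W (Prod.fst '' S) = ⊤) :
    ∃ φ : A →⋆ₐ[ℂ] A', TP T T' φ ∧ (∀ p ∈ S, φ p.1 = p.2) ∧
      (∀ x, φ x ∈ T'.W (Prod.snd '' S)) ∧ ∀ y ∈ T'.W (Prod.snd '' S), ∃ x, φ x = y := by
  obtain ⟨G, hG⟩ := exists_graph h
  choose f hf using fun x => hG.tot x (by rw [ht]; exact StarSubalgebra.mem_top)
  have hu : ∀ g ∈ G, f g.1 = g.2 := fun g hg => hG.Trans_uniq (hf g.1) hg rfl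
  let φ : A →⋆ₐ[ℂ] A' :=
    { toFun := f
      map_one' := hu 1 (one_mem G)
      map_mul' := fun x y => hu _ (mul_mem (hf x) (hf y))
      map_zero' := hu 0 (zero_mem G)
      map_add' := fun x y => hu _ (add_mem (hf x) (hf y))
      commutes' := fun r => hu _ (StarSubalgebra.algebraMap_mem G r)
      map_star' := fun x => hu _ (star_mem (hf x)) }
  refine ⟨φ, fun x => (hG.tr _ (hf x)).symm, fun p hp => hu p (hG.sub hp),
    fun x => (hG.mem _ (hf x)).2, fun y hy => ?_⟩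
  obtain ⟨x, hx⟩ := hG.tot' y hy
  exact ⟨x, hu _ hx⟩

theorem exists_equiv {S : Set (A × A')} (h : Match T T' S) (ht : T.W (Prod.fst '' S) = ⊤)
    (ht' : T'.W (Prod.snd '' S) = ⊤) : ∃ φ : A ≃⋆ₐ[ℂ] A', ∀ x, T'.τ (φ x) = T.τ x := by
  obtain ⟨φ, h1, -, -, h2⟩ := exists_hom h ht
  exact ⟨StarAlgEquiv.ofBijective φ
    ⟨h1.inj, fun y => h2 y (by rw [ht']; exact StarSubalgebra.mem_top)⟩, h1⟩

end Pool.Agent.TS
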