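import Pool.Agent.P.MP_e05717_an.MU1
import Pool.Agent.P.MP_e05717_an.Trans

/-!
Row TS-MU2. Matching of matrix units, towers, the expectation onto a matrix algebra.
Hints: `match_mu`: the set of finite sums of pairs `(e i j * g.1, e' i j * g.2)`, `g ∈ adjoin S`, is a
star subalgebra; `MU.τ_mul`. `match_tower`: induction on the level and `match_iUnion`.
`Tower.level`: induction; the product of two commuting systems is a system indexed by the product,
reindex with `finProdFinEquiv` and `Fintype.equivFin`.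
-/

open scoped ComplexOrder InnerProductSpace ComplexConjugate ENNReal
open Filter Topology Pool.Agent.P.MP_5d580a_an

set_option linter.unusedSectionVars false
set_option linter.unusedVariables false

noncomputable section

namespace Pool.Agent.TS

variable {A H : Type} [CStarAlgebra A] [NormedAddCommGroup H] [InnerProductSpace ℂ H]
  [CompleteSpace H]
variable {A' H' : Type} [CStarAlgebra A'] [NormedAddCommGroup H'] [InnerProductSpace ℂ H']
  [CompleteSpace H']
variable {ι : Type} [Fintype ι] [DecidableEq ι]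

variable {T : TW A H} {T' : TW A' H'}

theorem MU2_span {e : ι → ι → A} (he : MU e) {S : Set A} (hS : ∀ s ∈ S, Cm e s) {x : A}
    (hx : x ∈ StarAlgebra.adjoin ℂ (S ∪ mus e)) :
    x ∈ Submodule.span ℂ {y | ∃ g ∈ StarAlgebra.adjoin ℂ S, ∃ i j, y = e i j * g} := by
  set M := Submodule.span ℂ {y | ∃ g ∈ StarAlgebra.adjoin ℂ S, ∃ i j, y = e i j * g} with hM
  have gen : ∀ g ∈ StarAlgebra.adjoin ℂ S, ∀ i j, e i j * g ∈ M := fun g hg i j =>
    Submodule.subset_span ⟨g, hg, i, j, rfl⟩
  have sub : ∀ g ∈ StarAlgebra.adjoin ℂ S, g ∈ M := by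
    intro g hg
    have e1 : g = ∑ i, e i i * g := by rw [← Finset.sum_mul, he.sum, one_mul]
    rw [e1]
    exact Submodule.sum_mem _ fun i _ => gen g hg i i
  have cm := Cm.adjoin he hS
  induction hx using StarAlgebra.adjoin_induction with
  | mem x hx =>
    rcases hx with hx | ⟨i, j, rfl⟩
    · exact sub x (StarAlgebra.subset_adjoin ℂ S hx)
    · simpa using gen 1 (one_mem _) i j
  | algebraMap r => exact sub _ (StarSubalgebra.algebraMap_mem _ r)
  | add x y _ _ hx hy => exact add_mem hx hy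
  | mul x y _ _ hx hy =>
    clear * - hx hy gen cm he hM
    induction hx using Submodule.span_induction with
    | mem x hx =>
      obtain ⟨g, hg, i, j, rfl⟩ := hx
      induction hy using Submodule.span_induction with
      | mem y hy =>
        obtain ⟨g', hg', k, l, rfl⟩ := hy
        have e1 : e i j * g * (e k l * g') = e i j * e k l * (g * g') := by
          rw [mul_assoc, ← mul_assoc g, ← cm g hg k l]
          simp only [mul_assoc]
        rw [e1, he.mul]
        split_ifs
        · exact gen _ (mul_mem hg hg') i l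
        · rw [zero_mul]
          exact zero_mem _
      | zero =>
        rw [mul_zero]
        exact zero_mem _
      | add y z _ _ h1 h2 =>
        rw [mul_add]
        exact add_mem h1 h2
      | smul c y _ h1 =>
        rw [mul_smul_comm]
        exact Submodule.smul_mem _ c h1
    | zero =>
      rw [zero_mul]
      exact zero_mem _
    | add x z _ _ h1 h2 =>
      rw [add_mul]
      exact add_mem h1 h2
    | smul c x _ h1 =>
      rw [smul_mul_assoc]
      exact Submodule.smul_mem _ c h1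
  | star x _ hx =>
    clear * - hx gen cm he hM
    induction hx using Submodule.span_induction with
    | mem x hx =>
      obtain ⟨g, hg, i, j, rfl⟩ := hx
      rw [star_mul, he.star, ← cm _ (star_mem hg) j i]
      exact gen _ (star_mem hg) j i
    | zero =>
      rw [star_zero]
      exact zero_mem _
    | add x z _ _ h1 h2 =>
      rw [star_add]
      exact add_mem h1 h2
    | smul c x _ h1 =>
      rw [star_smul]
      exact Submodule.smul_mem _ _ h1
theorem MU2_pair {e : ι → ι → A} {e' : ι → ι → A'} (he : MU e) (he' : MU e') :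
    MU fun i j => ((e i j, e' i j) : A × A') where
  mul i j k l := by
    rw [Prod.mk_mul_mk, he.mul, he'.mul]
    split_ifs <;> rfl
  star i j := by rw [Prod.star_def, he.star, he'.star]
  sum := by
    refine Prod.ext ?_ ?_
    · rw [Prod.fst_sum]
      exact he.sum
    · rw [Prod.snd_sum]
      exact he'.sum
theorem match_mu {S : Set (A × A')} (h : Match T T' S) {e : ι → ι → A} {e' : ι → ι → A'}
    (he : MU e) (he' : MU e') (hc : ∀ p ∈ S, Cm e p.1 ∧ Cm e' p.2) :
    Match T T' (S ∪ {p | ∃ i j, p = (e i j, e' i j)}) := by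
  intro x hx
  have hS : ∀ s ∈ S, Cm (fun i j => ((e i j, e' i j) : A × A')) s := fun s hs i j =>
    Prod.ext ((hc s hs).1 i j) ((hc s hs).2 i j)
  have h1 := MU2_span (MU2_pair he he') hS hx
  have cm := Cm.adjoin (MU2_pair he he') hS
  clear hx
  induction h1 using Submodule.span_induction with
  | mem x hx =>
    obtain ⟨g, hg, i, j, rfl⟩ := hx
    have c1 : Cm e g.1 := fun a b => congrArg Prod.fst (cm g hg a b)
    have c2 : Cm e' g.2 := fun a b => congrArg Prod.snd (cm g hg a b)
    change T.τ (e i j * g.1) = T'.τ (e' i j * g.2)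
    rw [MU.τ_mul T he c1, MU.τ_mul T' he' c2, h g hg]
  | zero => simp
  | add x y _ _ h1 h2 => rw [Prod.fst_add, Prod.snd_add, map_add, map_add, h1, h2]
  | smul c x _ h1 => rw [Prod.smul_fst, Prod.smul_snd, map_smul, map_smul, h1]
theorem match_tower {e : ℕ → ι → ι → A} {e' : ℕ → ι → ι → A'} (he : Tower e) (he' : Tower e') :
    Match T T' {p | ∃ k i j, p = (e k i j, e' k i j)} := by
  have key : ∀ n : ℕ, Match T T' {p | ∃ k < n, ∃ i j, p = (e k i j, e' k i j)} := by
    intro n
    induction n with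
    | zero =>
      have : {p : A × A' | ∃ k < 0, ∃ i j, p = (e k i j, e' k i j)} = ∅ := by simp
      rw [this]
      exact match_empty
    | succ n ih =>
      refine (match_mu ih (he.mu n) (he'.mu n) ?_).mono fun p hp =>
        StarAlgebra.subset_adjoin ℂ _ ?_
      · rintro _ ⟨k, hk, i, j, rfl⟩
        exact ⟨he.comm n k hk.ne' i j, he'.comm n k hk.ne' i j⟩
      · obtain ⟨k, hk, i, j, rfl⟩ := hp
        rcases Nat.lt_succ_iff_lt_or_eq.1 hk with h | rfl
        · exact Or.inl ⟨k, h, i, j, rfl⟩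
        · exact Or.inr ⟨i, j, rfl⟩
  refine (match_iUnion _ (fun m n hmn p hp => ?_) key).mono fun p hp =>
    StarAlgebra.subset_adjoin ℂ _ ?_
  · obtain ⟨k, hk, r⟩ := hp
    exact ⟨k, hk.trans_le hmn, r⟩
  · obtain ⟨k, r⟩ := hp
    exact Set.mem_iUnion.2 ⟨k + 1, k, Nat.lt_succ_self k, r⟩
theorem Tower.shift {e : ℕ → ι → ι → A} (he : Tower e) : Tower fun k => e (k + 1) := ⟨fun k => he.mu (k + 1),
  fun k l h => he.comm (k + 1) (l + 1) fun h' => h (Nat.succ_injective h')⟩
theorem lev_mono (e : ℕ → ι → ι → A) {k l : ℕ} (h : k ≤ l) : lev e k ⊆ lev e l := by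
  rintro _ ⟨m, hm, r⟩
  exact ⟨m, hm.trans_le h, r⟩
theorem lev_sub (e : ℕ → ι → ι → A) (k : ℕ) : lev e k ⊆ alle e := by
  rintro _ ⟨m, -, r⟩
  exact ⟨m, r⟩
theorem lev_zero (e : ℕ → ι → ι → A) : lev e 0 = ∅ := by
  simp [lev]
theorem lev_succ (e : ℕ → ι → ι → A) (k : ℕ) : lev e (k + 1) = lev e k ∪ mus (e k) := by
  ext x
  constructor
  · rintro ⟨l, hl, r⟩
    rcases Nat.lt_succ_iff_lt_or_eq.1 hl with h | rfl
    · exact Or.inl ⟨l, h, r⟩
    · exact Or.inr r
  · rintro (⟨l, hl, r⟩ | r)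
    · exact ⟨l, hl.trans (Nat.lt_succ_self k), r⟩
    · exact ⟨k, Nat.lt_succ_self k, r⟩
theorem unit_mem_base (e : ℕ → ι → ι → A) (k : ℕ) (i j : ι) : e k i j ∈ base e := StarAlgebra.subset_adjoin ℂ _ ⟨k, i, j, rfl⟩
theorem mem_base {e : ℕ → ι → ι → A} {x : A} (hx : x ∈ base e) :
    ∃ k, ∀ l, k ≤ l → x ∈ StarAlgebra.adjoin ℂ (lev e l) := by
  unfold base at hx
  induction hx using StarAlgebra.adjoin_induction with
  | mem x hx =>
    obtain ⟨k, r⟩ := hx
    exact ⟨k + 1, fun l hl => StarAlgebra.subset_adjoin ℂ _ ⟨k, hl, r⟩⟩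
  | algebraMap r => exact ⟨0, fun l _ => StarSubalgebra.algebraMap_mem _ r⟩
  | add x y _ _ hx hy =>
    obtain ⟨k, hk⟩ := hx
    obtain ⟨m, hm⟩ := hy
    exact ⟨max k m, fun l hl => add_mem (hk l (le_of_max_le_left hl)) (hm l (le_of_max_le_right hl))⟩
  | mul x y _ _ hx hy =>
    obtain ⟨k, hk⟩ := hx
    obtain ⟨m, hm⟩ := hy
    exact ⟨max k m, fun l hl => mul_mem (hk l (le_of_max_le_left hl)) (hm l (le_of_max_le_right hl))⟩
  | star x _ hx =>
    obtain ⟨k, hk⟩ := hx
    exact ⟨k, fun l hl => star_mem (hk l hl)⟩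
theorem MU2_prod {κ : Type} [Fintype κ] [DecidableEq κ] {E : κ → κ → A} {e : ι → ι → A}
    (hE : MU E) (he : MU e) (hc : ∀ i j, Cm E (e i j)) :
    MU fun a b : κ × ι => e a.2 b.2 * E a.1 b.1 where
  mul a b c d := by
    have e1 : e a.2 b.2 * E a.1 b.1 * (e c.2 d.2 * E c.1 d.1) =
        e a.2 b.2 * e c.2 d.2 * (E a.1 b.1 * E c.1 d.1) := by
      rw [mul_assoc, ← mul_assoc (E a.1 b.1), hc c.2 d.2 a.1 b.1]
      simp only [mul_assoc]
    rw [e1, he.mul, hE.mul]
    by_cases h1 : b.2 = c.2 <;> by_cases h2 : b.1 = c.1 <;> simp [h1, h2, Prod.ext_iff]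
  star a b := by rw [star_mul, he.star, hE.star, hc b.2 a.2 b.1 a.1]
  sum := by
    rw [Fintype.sum_prod_type]
    simp only [← Finset.sum_mul, he.sum, one_mul, hE.sum]
theorem MU2_reindex {κ : Type} [Fintype κ] [DecidableEq κ] {e : ι → ι → A} (he : MU e)
    (σ : κ ≃ ι) : MU fun a b => e (σ a) (σ b) where
  mul a b c d := by
    rw [he.mul]
    simp
  star a b := he.star _ _
  sum := by
    rw [Equiv.sum_comp σ fun i => e i i]
    exact he.sum
theorem MU2_level {e : ℕ → ι → ι → A} (he : Tower e) (k : ℕ) :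
    ∃ (κ : Type) (_ : Fintype κ) (_ : DecidableEq κ) (E : κ → κ → A),
      Fintype.card κ = Fintype.card ι ^ k ∧ MU E ∧
      (∀ a b, E a b ∈ StarAlgebra.adjoin ℂ (lev e k)) ∧
      (∀ x ∈ StarAlgebra.adjoin ℂ (lev e k), x ∈ Submodule.span ℂ (mus E)) ∧
      ∀ l, k ≤ l → ∀ i j, Cm E (e l i j) := by
  induction k with
  | zero =>
    refine ⟨Unit, inferInstance, inferInstance, fun _ _ => 1, by simp,
      ⟨by simp, by simp, by simp⟩, fun _ _ => one_mem _, fun x hx => ?_,
      fun l _ i j a b => by simp⟩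
    have h1 : StarAlgebra.adjoin ℂ (lev e 0) ≤ ⊥ :=
      StarAlgebra.adjoin_le (by
        rw [lev_zero]
        exact Set.empty_subset _)
    obtain ⟨r, rfl⟩ := StarSubalgebra.mem_bot.1 (h1 hx)
    rw [Algebra.algebraMap_eq_smul_one]
    exact Submodule.smul_mem _ r (Submodule.subset_span ⟨(), (), rfl⟩)
  | succ k ih =>
    obtain ⟨κ, _, _, E, h0, h1, h2, h3, h4⟩ := ih
    refine ⟨κ × ι, inferInstance, inferInstance, fun a b => e k a.2 b.2 * E a.1 b.1, ?_,
      MU2_prod h1 (he.mu k) (h4 k le_rfl), fun a b => ?_, fun x hx => ?_, fun l hl i j a b => ?_⟩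
    · rw [Fintype.card_prod, h0, pow_succ]
    · refine mul_mem (StarAlgebra.subset_adjoin ℂ _ ⟨k, Nat.lt_succ_self k, _, _, rfl⟩) ?_
      exact StarAlgebra.adjoin_mono (lev_mono e (Nat.le_succ k)) (h2 _ _)
    · rw [lev_succ] at hx
      have h5 := MU2_span (he.mu k) (S := lev e k) (by
        rintro _ ⟨l, hl, i, j, rfl⟩
        exact he.comm k l hl.ne' i j) hx
      refine Submodule.span_le.2 ?_ h5
      rintro _ ⟨g, hg, i, j, rfl⟩
      have h6 := h3 g hg
      clear hg
      induction h6 using Submodule.span_induction with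
      | mem y hy =>
        obtain ⟨a, b, rfl⟩ := hy
        exact Submodule.subset_span ⟨(a, i), (b, j), rfl⟩
      | zero =>
        rw [mul_zero]
        exact zero_mem _
      | add y z _ _ h1 h2 =>
        rw [mul_add]
        exact add_mem h1 h2
      | smul c y _ h1 =>
        rw [mul_smul_comm]
        exact Submodule.smul_mem _ c h1
    · change e k a.2 b.2 * E a.1 b.1 * e l i j = e l i j * (e k a.2 b.2 * E a.1 b.1)
      rw [mul_assoc, h4 l (Nat.le_of_succ_le hl) i j, ← mul_assoc,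
        he.comm k l (Nat.ne_of_lt hl) i j, mul_assoc]
theorem Tower.level {e : ℕ → ι → ι → A} (he : Tower e) (k : ℕ) :
    ∃ E : Fin (Fintype.card ι ^ k) → Fin (Fintype.card ι ^ k) → A, MU E ∧
      (∀ a b, E a b ∈ StarAlgebra.adjoin ℂ (lev e k)) ∧
      (∀ x ∈ StarAlgebra.adjoin ℂ (lev e k), x ∈ Submodule.span ℂ (mus E)) ∧
      ∀ l, k ≤ l → ∀ i j, Cm E (e l i j) := by
  obtain ⟨κ, _, _, E, h0, h1, h2, h3, h4⟩ := MU2_level he k
  let σ : Fin (Fintype.card ι ^ k) ≃ κ := (Fintype.equivFinOfCardEq h0).symm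
  refine ⟨fun a b => E (σ a) (σ b), MU2_reindex h1 σ, fun a b => h2 _ _, fun x hx => ?_,
    fun l hl i j a b => h4 l hl i j _ _⟩
  refine Submodule.span_mono ?_ (h3 x hx)
  rintro _ ⟨a, b, rfl⟩
  exact ⟨σ.symm a, σ.symm b, by simp⟩
theorem cex_sub (τ : A →ₗ[ℂ] ℂ) (e : ι → ι → A) (x y : A) :
    cex τ e (x - y) = cex τ e x - cex τ e y := by
  simp only [cex, mul_sub, map_sub, sub_smul, Finset.sum_sub_distrib, smul_sub]
theorem cex_congr (τ : A →ₗ[ℂ] ℂ) (e : ι → ι → A) {x y : A}
    (h : ∀ b c, τ (e b c * x) = τ (e b c * y)) : cex τ e x = cex τ e y := by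
  simp only [cex, h]
theorem MU2_τ (T : TW A H) {e : ι → ι → A} (he : MU e) (i j k l : ι) :
    T.τ (e i j * e k l) = if j = k ∧ i = l then (Fintype.card ι : ℂ)⁻¹ else 0 := by
  have h1 := MU.τ_mul T he Cm.one i l
  rw [mul_one, T.τ_one, one_div] at h1
  rw [he.mul]
  by_cases h : j = k
  · simp [h, h1]
  · simp [h]
theorem MU2_card (i : ι) : (Fintype.card ι : ℂ) ≠ 0 :=
  Nat.cast_ne_zero.2 (Fintype.card_pos_iff.2 ⟨i⟩).ne'
theorem cex_of_mem (T : TW A H) {e : ι → ι → A} (he : MU e) {x : A}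
    (hx : x ∈ Submodule.span ℂ (mus e)) : cex T.τ e x = x := by
  induction hx using Submodule.span_induction with
  | mem x hx =>
    obtain ⟨i, j, rfl⟩ := hx
    unfold cex
    rw [Finset.sum_eq_single j, Finset.sum_eq_single i, MU2_τ T he, if_pos ⟨rfl, rfl⟩, smul_smul,
      mul_inv_cancel₀ (MU2_card i), one_smul]
    · intro c _ hc
      rw [MU2_τ T he, if_neg fun h => hc h.1, zero_smul]
    · simp
    · intro b _ hb
      refine Finset.sum_eq_zero fun c _ => ?_
      rw [MU2_τ T he, if_neg fun h => hb h.2, zero_smul]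
    · simp
  | zero => simp [cex]
  | add x y _ _ h1 h2 =>
    have : cex T.τ e (x + y) = cex T.τ e x + cex T.τ e y := by
      simp only [cex, mul_add, map_add, add_smul, Finset.sum_add_distrib, smul_add]
    rw [this, h1, h2]
  | smul c x _ h1 =>
    have : cex T.τ e (c • x) = c • cex T.τ e x := by
      simp only [cex, mul_smul_comm, map_smul, smul_eq_mul, mul_smul, ← Finset.smul_sum]
      rw [smul_comm]
    rw [this, h1]
theorem MU2_cex_τ (T : TW A H) {e : ι → ι → A} (he : MU e) (x : A) (i j : ι) :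
    T.τ (e i j * cex T.τ e x) = T.τ (e i j * x) := by
  unfold cex
  simp only [mul_smul_comm, Finset.mul_sum, map_smul, map_sum, smul_eq_mul]
  rw [Finset.sum_eq_single i, Finset.sum_eq_single j, MU2_τ T he, if_pos ⟨rfl, rfl⟩]
  · have := MU2_card i
    field_simp
  · intro c _ hc
    rw [MU2_τ T he, if_neg fun h => hc h.1.symm, mul_zero, mul_zero]
  · simp
  · intro b _ hb
    refine Finset.sum_eq_zero fun c _ => ?_
    rw [MU2_τ T he, if_neg fun h => hb h.2.symm, mul_zero, mul_zero]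
  · simp
theorem n2_cex_le (T : TW A H) {e : ι → ι → A} (he : MU e) (x : A) :
    T.n2 (cex T.τ e x) ≤ T.n2 x := by
  have h1 : ∀ y, T.τ (star (cex T.τ e x) * y) =
      star (Fintype.card ι : ℂ) * ∑ b, ∑ c, star (T.τ (e b c * x)) * T.τ (e b c * y) := by
    intro y
    unfold cex
    simp only [star_smul, star_sum, he.star, smul_mul_assoc, Finset.sum_mul, map_smul, map_sum,
      smul_eq_mul]
  have h2 : T.τ (star (cex T.τ e x) * cex T.τ e x) = T.τ (star (cex T.τ e x) * x) := by
    rw [h1, h1]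
    simp only [MU2_cex_τ T he]
  have h3 := T.norm_τ_mul_le (star (cex T.τ e x)) x
  rw [← h2, T.τ_star_mul_self, T.n2_star, Complex.norm_real, Real.norm_eq_abs,
    abs_of_nonneg (sq_nonneg _), sq] at h3
  rcases (T.n2_nonneg (cex T.τ e x)).eq_or_lt with h | h
  · rw [← h]
    exact T.n2_nonneg x
  · exact le_of_mul_le_mul_left h3 h
/-- an element commuting with the first `k` levels is in the range of the `k`-th iterate -/
theorem range_iterate {e : ℕ → ι → ι → A} {ρ : A →⋆ₐ[ℂ] A} (hi : Function.Injective ρ)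
    (hρ : ∀ k i j, ρ (e k i j) = e (k + 1) i j) (hr : ∀ x, Cm (e 0) x ↔ ∃ y, ρ y = x) (k : ℕ)
    (x : A) : (∀ l < k, Cm (e l) x) ↔ ∃ y, ρ^[k] y = x := by
  induction k generalizing x with
  | zero => exact ⟨fun _ => ⟨x, rfl⟩, fun _ l hl => absurd hl (Nat.not_lt_zero l)⟩
  | succ k ih =>
    have key : ∀ l y, Cm (e (l + 1)) (ρ y) ↔ Cm (e l) y := fun l y =>
      forall_congr' fun i => forall_congr' fun j => by
        rw [← hρ, ← map_mul, ← map_mul]
        exact hi.eq_iff
    constructor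
    · intro h
      obtain ⟨y, rfl⟩ := (hr x).1 (h 0 (Nat.succ_pos k))
      obtain ⟨z, rfl⟩ := (ih y).1 fun l hl => (key l y).1 (h (l + 1) (Nat.succ_lt_succ hl))
      exact ⟨z, Function.iterate_succ_apply' ρ k z⟩
    · rintro ⟨z, rfl⟩ l hl
      rw [Function.iterate_succ_apply']
      rcases l with _ | l
      · exact (hr _).2 ⟨_, rfl⟩
      · exact (key l _).2 ((ih _).2 ⟨z, rfl⟩ l (Nat.lt_of_succ_lt_succ hl))

end Pool.Agent.TS
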