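import Pool.Agent.P.MP_e05717_an.Defs

/-!
Definitions for the spectral gap and rigidity parts (paper sections 2, 5, 6). No proofs.
-/

open scoped ComplexOrder InnerProductSpace ComplexConjugate ENNReal
open Filter Topology Pool.Agent.P.MP_5d580a_an

set_option linter.unusedSectionVars false
set_option linter.unusedVariables false

noncomputable section

namespace Pool.Agent.TS

variable {A H : Type} [CStarAlgebra A] [NormedAddCommGroup H] [InnerProductSpace ℂ H]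
  [CompleteSpace H]
variable {A' H' : Type} [CStarAlgebra A'] [NormedAddCommGroup H'] [InnerProductSpace ℂ H']
  [CompleteSpace H']
variable {ι : Type} [Fintype ι] [DecidableEq ι]

/-- creation operators over the image of `A`, commuting with its right action -/
structure Coarse (T : TW A H) (T' : TW A' H') (ι' : A →⋆ₐ[ℂ] A') {I : Type}
    (lt : I → (H' →L[ℂ] H')) : Prop where
  same : ∀ i x, star (lt i) * T'.L (ι' x) * lt i = T.τ x • (1 : H' →L[ℂ] H')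
  diff : ∀ i j, i ≠ j → ∀ x, star (lt i) * T'.L (ι' x) * lt j = 0
  vac : ∀ i x, (star (lt i)) (T'.v (ι' x)) = 0
  comm : ∀ i x, lt i * T'.R (ι' x) = T'.R (ι' x) * lt i

/-- generators of the coarse part -/
def Kg (T' : TW A' H') (ι' : A →⋆ₐ[ℂ] A') {I : Type} (lt : I → (H' →L[ℂ] H')) : Set H' :=
  {ξ | ∃ x i η, ξ = T'.L (ι' x) (lt i η)}

/-- the coarse part -/
def Kc (T' : TW A' H') (ι' : A →⋆ₐ[ℂ] A') {I : Type} (lt : I → (H' →L[ℂ] H')) : Set H' :=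
  closure (Submodule.span ℂ (Kg T' ι' lt) : Set H')

/-- the space is spanned by the trivial part and the coarse part -/
def SplitD (T' : TW A' H') (ι' : A →⋆ₐ[ℂ] A') {I : Type} (lt : I → (H' →L[ℂ] H')) : Prop :=
  Dense (Submodule.span ℂ ({ξ | ∃ x, ξ = T'.v (ι' x)} ∪ Kg T' ι' lt) : Set H')

/-- the two copies are free over an approximately finite dimensional algebra -/
def Amen (T : TW A H) (T' : TW A' H') (ι' κ : A →⋆ₐ[ℂ] A') : Prop :=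
  ∃ Z : Set A', (∀ z ∈ Z, ∀ x, z * ι' x ∈ Z) ∧
    Dense (Submodule.span ℂ {ξ : H' | ∃ x, ∃ z ∈ Z, ξ = T'.v (κ x * z)} : Set H') ∧
    ∃ (N : ℕ → ℕ) (E : ∀ k, Fin (N k) → Fin (N k) → A), (∀ k, MU (E k)) ∧
      ∀ y, ∀ z ∈ Z, ∀ z' ∈ Z,
        Tendsto (fun k => T'.τ (star z' * ι' (cex T.τ (E k) y) * z)) atTop
          (𝓝 (T'.τ (star z' * κ y * z)))

/-- the shift of the model -/
structure IsRho (T : TW A H) (e : ℕ → ι → ι → A) {Λ : Type} (c : Λ → A) (par : Λ ≃ Λ × ι × ι)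
    (ρ : A →⋆ₐ[ℂ] A) : Prop where
  tp : TP T T ρ
  unit : ∀ k i j, ρ (e k i j) = e (k + 1) i j
  letter : ∀ l, ρ (c l) = ent (e 0) (par l).2.1 (par l).2.2 (c (par l).1)
  range : ∀ x, Cm (e 0) x ↔ ∃ y, ρ y = x

/-- the combinatorics of the letters -/
structure LamD {Λ : Type} (par : Λ ≃ Λ × ι × ι) (La : Set Λ) (fa : Fin 144 → Λ) (zl : ℕ → Λ) :
    Prop where
  par_mem : ∀ l ∈ La, (par l).1 ∈ La
  fa_inj : Function.Injective fa
  fa_mem : ∀ j, fa j ∈ La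
  zl_inj : Function.Injective zl
  zl_not : ∀ j, zl j ∉ La
  zl_par : ∀ j, (par (zl j)).1 = zl (j + 1)

/-- the double of the model with its shift and its rotation -/
structure Dbl (T : TW A H) (T' : TW A' H') (e : ℕ → ι → ι → A) (e' : ℕ → ι → ι → A') {Λ : Type}
    (c : Λ → A) (c' : Λ × Bool → A') (ρ₁ : A →⋆ₐ[ℂ] A) (ρ' : A' →⋆ₐ[ℂ] A') (ι' : A →⋆ₐ[ℂ] A')
    (α : ℝ → (A' →⋆ₐ[ℂ] A')) : Prop where
  ρ_tp : TP T' T' ρ'
  ρ_cm : ∀ x, Cm (e' 0) (ρ' x)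
  ι_tp : TP T T' ι'
  ι_unit : ∀ k i j, ι' (e k i j) = e' k i j
  ι_letter : ∀ l, ι' (c l) = c' (l, false)
  ρ_ι : ∀ x, ρ' (ι' x) = ι' (ρ₁ x)
  α_tp : ∀ t, TP T' T' (α t)
  α_unit : ∀ t k i j, α t (e' k i j) = e' k i j
  α_ρ : ∀ t x, α t (ρ' x) = ρ' (α t x)
  α_zero : ∀ x, α 0 x = x
  α_add : ∀ s t x, α s (α t x) = α (s + t) x
  α_cont : ∀ x, Continuous fun t => T'.v (α t x)
  α_half : ∀ l, α (Real.pi / 2) (c' (l, false)) = c' (l, true)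

/-- the diagonal signs -/
def dgn {Δ : Type} (e : ι → ι → A) (sgn : ι → Δ → ℝ) (δ : Δ) : A := ∑ i, (sgn i δ : ℂ) • e i i

/-- the diagonal matrix of all words -/
def Phi {Δ : Type} {N : ℕ} (e : ι → ι → A) (ρ : A →⋆ₐ[ℂ] A) (a : Fin 144 → A) (sgn : ι → Δ → ℝ)
    (wi : ι → Fin N → Tag × Δ) (y : A) : A :=
  ∑ i, e i i * ρ (wd a (fun j => ρ (a j)) (dgn e sgn) y (wi i))

/-- defect of intertwining -/
def Del (T : TW A H) (α : A →⋆ₐ[ℂ] A) (g x : A) : ℝ := T.n2 (α g * x - x * g)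

/-- the map `Θ` -/
def Th (α ρ : A →⋆ₐ[ℂ] A) (V : ι → A) (x : A) : A := ∑ i, α (V i) * ρ x * star (V i)

/-- block diagonal element -/
def Gm (ρ : A →⋆ₐ[ℂ] A) (V : ι → A) (g : ι → A) : A := ∑ i, V i * ρ (g i) * star (V i)

/-- the shifted letters -/
def bb (ρ : A →⋆ₐ[ℂ] A) (V : ι → A) (q : A) (a : Fin 144 → A) (j : Fin 144) : A :=
  Gm ρ V (fun _ => a j) + (1 - q)

/-- diagonal element -/
def dia (V : ι → A) (lam : ι → ℂ) : A := ∑ i, lam i • (V i * star (V i))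

/-- the sign letters -/
def dd {Δ : Type} (V : ι → A) (q : A) (sgn : ι → Δ → ℝ) (δ : Δ) : A :=
  dia V (fun i => (sgn i δ : ℂ)) + (1 - q)

/-- contraction in the corner `α(q) A q` -/
def InX (α : A →⋆ₐ[ℂ] A) (q x : A) : Prop := α q * x = x ∧ x * q = x ∧ ‖x‖ ≤ 1

/-- unitary commuting with `q` -/
def UQ (q u : A) : Prop := u ∈ unitary A ∧ u * q = q * u

/-- small defect on a family -/
def SA (T : TW A H) (α : A →⋆ₐ[ℂ] A) (a : Fin 144 → A) (x : A) (η : ℝ) : Prop :=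
  ∀ j, Del T α (a j) x ≤ η

/-- large 2-norm -/
def Big (T : TW A H) (q x : A) : Prop := T.n2 q ≤ 2 * T.n2 x

/-- `Θ x` is close to `x` times a diagonal element -/
def Vd (T : TW A H) (α ρ : A →⋆ₐ[ℂ] A) (V : ι → A) (x : A) (η : ℝ) : Prop :=
  ∃ lam : ι → ℂ, (∀ i, ‖lam i‖ ≤ 4) ∧ T.n2 (Th α ρ V x - x * dia V lam) ≤ η

/-- the state of the iteration -/
def St (T : TW A H) (α ρ : A →⋆ₐ[ℂ] A) (V : ι → A) (q : A) (a : Fin 144 → A) (Z : ℕ → A) (x : A)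
    (K : ℕ) (D : ℝ) : Prop :=
  InX α q x ∧ SA T α a x D ∧ Del T α (Z K) x ≤ D ∧ Vd T α ρ V x D

/-- the data defining `Θ` -/
structure Frame (T : TW A H) (ρ : A →⋆ₐ[ℂ] A) (q e₀ : A) (V : ι → A) : Prop where
  tp : TP T T ρ
  q_proj : IsStarProjection q
  e_proj : IsStarProjection e₀
  e_comm : ∀ y, e₀ * ρ y = ρ y * e₀
  e_tr : ∀ y, T.τ (ρ y * e₀) = T.τ y / (Fintype.card ι : ℂ)
  same : ∀ i, star (V i) * V i = ρ q * e₀
  diff : ∀ i j, i ≠ j → star (V i) * V j = 0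
  sum : ∑ i, V i * star (V i) = q

/-- a deformation compatible with the shift -/
structure Defo (T : TW A H) (ρ : A →⋆ₐ[ℂ] A) (e₀ : A) (α : A →⋆ₐ[ℂ] A) : Prop where
  tp : TP T T α
  comm : ∀ x, α (ρ x) = ρ (α x)
  fix : α e₀ = e₀

/-- all the data of the rigidity theorem -/
structure Rig (T : TW A H) (ρ : A →⋆ₐ[ℂ] A) (q e₀ : A) (V : ι → A) (a : Fin 144 → A) (Z : ℕ → A)
    {Δ : Type} [Fintype Δ] (sgn : ι → Δ → ℝ) {n : ℕ} (wi : ι ≃ (Fin (2 * n) → Tag × Δ)) :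
    Prop where
  fr : Frame T ρ q e₀ V
  q_ne : q ≠ 0
  ne : Nonempty Δ
  ha : ∀ j, UQ q (a j)
  hZ : ∀ K, UQ q (Z K)
  code : Code sgn
  rel : ∀ K, Z K * q =
    Z (K + 1) * Gm ρ V fun i => wd a (bb ρ V q a) (dd V q sgn) (Z (K + 1)) (wi i)
  ga : ∀ y, q * y = y → y * q = y → T.τ y = 0 →
    T.n2 y ^ 2 ≤ ∑ j, T.n2 (a j * y - y * a j) ^ 2
  gb : ∀ y, q * y = y → y * q = y → (∀ i k, T.τ (star (V i * star (V k)) * y) = 0) →
    T.n2 y ^ 2 ≤ ∑ j, T.n2 (bb ρ V q a j * y - y * bb ρ V q a j) ^ 2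
  big : (582 * 300000) ^ 2 ≤ n

end Pool.Agent.TS
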