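import Pool.Agent.P.MP_e05717_an.Ops
import Pool.Agent.P.MP_e05717_an.MU2
import Pool.Agent.P.MP_e05717_an.RDefs

/-!
Row TS-Dbl. The double of the model: coarseness, splitting, amenability of the amalgam.
Hints: `lt p = ℓ' ((p.1, true), p.2)`. `dbl_coarse`: `CC.enlarge` along `p ↦ ((p.1, true), p.2)`,
`TP.map_W_le` with `hP.gen`; `comm_R_W` with `lR`, `lr`, `rl_diff`, `rsplit`. `dbl_split`, `dbl_amen`:
`CC.split_dense` with `J` = original letters, copy letters. `Z = {z | Vac T' (base e') lt (v z)}`;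
`E` from `Tower.level`; for polynomial `y` use `CC.vac_inner` for the copy letters, `cex_congr`,
`cex_of_mem`, `mem_base` (eventually constant); then `n2_cex_le`, `cex_sub`, `norm_τ_mul_le`.
-/

open scoped ComplexOrder InnerProductSpace ComplexConjugate ENNReal
open Filter Topology Pool.Agent.P.MP_5d580a_an

set_option linter.unusedSectionVars false
set_option linter.unusedVariables false

noncomputable section

namespace Pool.Agent.TS

variable {A H : Type} [CStarAlgebra A] [NormedAddCommGroup H] [InnerProductSpace ℂ H]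
  [CompleteSpace H]
variable {A' H' : Type} [CStarAlgebra A'] [NormedAddCommGroup H'] [InnerProductSpace ℂ H']
  [CompleteSpace H']
variable {ι : Type} [Fintype ι] [DecidableEq ι]

variable {T : TW A H} {T' : TW A' H'} {e : ℕ → ι → ι → A} {e' : ℕ → ι → ι → A'} {Λ : Type}
  {c : Λ → A} {c' : Λ × Bool → A'} {ℓ r : Λ × Bool → (H →L[ℂ] H)}
  {ℓ' r' : (Λ × Bool) × Bool → (H' →L[ℂ] H')} {ι' κ : A →⋆ₐ[ℂ] A'}

/-- the index of a copy letter -/
def Dbl_f {Λ : Type} (p : Λ × Bool) : (Λ × Bool) × Bool := ((p.1, true), p.2)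

theorem Dbl_inj : Function.Injective (Dbl_f : Λ × Bool → (Λ × Bool) × Bool) := by
  rintro ⟨a, b⟩ ⟨a', b'⟩ h
  simp only [Dbl_f, Prod.mk.injEq, and_true] at h
  exact Prod.ext h.1 h.2

theorem Dbl_cb {φ : A →⋆ₐ[ℂ] A'} {b : Bool} (h2 : ∀ l, φ (c l) = c' (l, b)) (l : Λ) (s : Bool) :
    φ (cb c (l, s)) = cb c' ((l, b), s) := by
  cases s
  · exact h2 l
  · simp only [cb, cond_true, map_star, h2]

theorem Dbl_base {φ : A →⋆ₐ[ℂ] A'} (h1 : ∀ k i j, φ (e k i j) = e' k i j) {d : A}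
    (hd : d ∈ base e) : φ d ∈ base e' := by
  have : base e ≤ (base e').comap φ := StarAlgebra.adjoin_le (by
    rintro _ ⟨k, i, j, rfl⟩
    show φ (e k i j) ∈ base e'
    rw [h1]
    exact unit_mem_base e' k i j)
  exact this hd

theorem Dbl_base' {φ : A →⋆ₐ[ℂ] A'} (h1 : ∀ k i j, φ (e k i j) = e' k i j) {d' : A'}
    (hd : d' ∈ base e') : ∃ d ∈ base e, φ d = d' := by
  have : base e' ≤ (base e).map φ := StarAlgebra.adjoin_le (by
    rintro _ ⟨k, i, j, rfl⟩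
    exact StarSubalgebra.mem_map.2 ⟨e k i j, unit_mem_base e k i j, h1 k i j⟩)
  exact StarSubalgebra.mem_map.1 (this hd)

theorem Dbl_agree {φ ψ : A →⋆ₐ[ℂ] A'} (h1 : ∀ k i j, φ (e k i j) = e' k i j)
    (h3 : ∀ k i j, ψ (e k i j) = e' k i j) {d : A} (hd : d ∈ base e) : φ d = ψ d :=
  (StarAlgHom.mem_equalizer φ ψ d).1 (StarAlgHom.adjoin_le_equalizer φ ψ (by
    rintro _ ⟨k, i, j, rfl⟩
    rw [h1, h3]) hd)

theorem Dbl_pull {φ : A →⋆ₐ[ℂ] A'} {b : Bool} (h1 : ∀ k i j, φ (e k i j) = e' k i j)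
    (h2 : ∀ l, φ (c l) = c' (l, b)) {y : A'}
    (hy : y ∈ StarAlgebra.adjoin ℂ ((base e' : Set A') ∪ cb c' '' {i | i.1.2 = b})) :
    ∃ x, φ x = y := by
  have : StarAlgebra.adjoin ℂ ((base e' : Set A') ∪ cb c' '' {i | i.1.2 = b}) ≤
      (⊤ : StarSubalgebra ℂ A).map φ := StarAlgebra.adjoin_le (by
    rintro y (hy | ⟨⟨⟨l, b'⟩, s⟩, hb, rfl⟩)
    · obtain ⟨d, -, hd⟩ := Dbl_base' h1 hy
      exact StarSubalgebra.mem_map.2 ⟨d, StarSubalgebra.mem_top, hd⟩
    · obtain rfl : b' = b := hb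
      exact StarSubalgebra.mem_map.2 ⟨cb c (l, s), StarSubalgebra.mem_top, Dbl_cb h2 l s⟩)
  obtain ⟨x, -, hx⟩ := StarSubalgebra.mem_map.1 (this hy)
  exact ⟨x, hx⟩

theorem Dbl_push (h3 : ∀ k i j, κ (e k i j) = e' k i j) (h4 : ∀ l, κ (c l) = c' (l, true)) {x : A}
    (hx : x ∈ StarAlgebra.adjoin ℂ (alle e ∪ Set.range c)) :
    κ x ∈ StarAlgebra.adjoin ℂ ((base e' : Set A') ∪ Set.range fun p => cb c' (Dbl_f p)) := by
  have : StarAlgebra.adjoin ℂ (alle e ∪ Set.range c) ≤ (StarAlgebra.adjoin ℂ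
      ((base e' : Set A') ∪ Set.range fun p => cb c' (Dbl_f p))).comap κ :=
    StarAlgebra.adjoin_le (by
      rintro _ (⟨k, i, j, rfl⟩ | ⟨l, rfl⟩)
      · exact StarAlgebra.subset_adjoin ℂ _ (Or.inl (Dbl_base h3 (unit_mem_base e k i j)))
      · exact StarAlgebra.subset_adjoin ℂ _ (Or.inr ⟨(l, false), (h4 l).symm⟩))
  exact this hx

theorem Dbl_gen (hQ : IsModel T' e' c' ℓ' r') :
    T'.W ((base e' : Set A') ∪ Set.range (cb c')) = ⊤ := by
  rw [W_cb, eq_top_iff, ← hQ.gen]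
  exact T'.W_mono (Set.union_subset_union_left _ (StarAlgebra.subset_adjoin ℂ _))

theorem Dbl_comm (hQ : IsModel T' e' c' ℓ' r') {i j : (Λ × Bool) × Bool} (h : flip j ≠ i) :
    ℓ' i * T'.R (cb c' j) = T'.R (cb c' j) * ℓ' i := by
  rw [hQ.rsplit, mul_add, add_mul, hQ.lr, hQ.rl_diff _ _ h]

theorem dbl_coarse (hP : IsModel T e c ℓ r) (hQ : IsModel T' e' c' ℓ' r') (hι : TP T T' ι')
    (h1 : ∀ k i j, ι' (e k i j) = e' k i j) (h2 : ∀ l, ι' (c l) = c' (l, false)) :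
    Coarse T T' ι' fun p : Λ × Bool => ℓ' ((p.1, true), p.2) := by
  have h := hQ.cc.enlarge (bar' := flip) Dbl_f Dbl_inj fun _ => rfl
  have top : ∀ x, x ∈ T.W (alle e ∪ Set.range c) := fun x => hP.gen ▸ StarSubalgebra.mem_top
  have m : ∀ x, ι' x ∈ T'.W ((base e' : Set A') ∪
      {x | ∃ i, i ∉ Set.range Dbl_f ∧ x = cb c' i}) := fun x =>
    hι.map_W_le (by
      rintro _ (⟨k, i, j, rfl⟩ | ⟨l, rfl⟩)
      · exact T'.subset_W _ (Or.inl (Dbl_base h1 (unit_mem_base e k i j)))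
      · refine T'.subset_W _ (Or.inr ⟨((l, false), false), ?_, h2 l⟩)
        rintro ⟨p, hp⟩
        simp [Dbl_f] at hp) (top x)
  refine ⟨fun i x => ?_, fun i j hij x => h.diff i j hij _ (m x), fun i x => h.vac i _ (m x),
    fun i x => T'.comm_R_W ?_ _ (hι.map_W (top x))⟩
  · rw [← hι x]
    exact h.same i _ (m x)
  · rintro _ ⟨_, ⟨k, a, b, rfl⟩ | ⟨l, rfl⟩, rfl⟩
    · have d := Dbl_base h1 (unit_mem_base e k a b)
      exact ⟨hQ.lR _ _ d, hQ.lR _ _ (star_mem d)⟩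
    · rw [h2]
      exact ⟨Dbl_comm hQ (j := ((l, false), false)) (by simp [flip]),
        Dbl_comm hQ (j := ((l, false), true)) (by simp [flip])⟩

theorem dbl_split (hP : IsModel T e c ℓ r) (hQ : IsModel T' e' c' ℓ' r')
    (h1 : ∀ k i j, ι' (e k i j) = e' k i j) (h2 : ∀ l, ι' (c l) = c' (l, false)) :
    SplitD T' ι' fun p : Λ × Bool => ℓ' ((p.1, true), p.2) := by
  refine (hQ.cc.split_dense (Dbl_gen hQ) {i | i.1.2 = false} fun _ => Iff.rfl).mono
    (SetLike.coe_subset_coe.2 (Submodule.span_mono ?_))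
  rintro ξ ⟨y, hy, h⟩
  obtain ⟨x, rfl⟩ := Dbl_pull h1 h2 hy
  rcases h with rfl | ⟨⟨⟨l, b⟩, s⟩, hi, η, z, hz, rfl⟩
  · exact Or.inl ⟨x, rfl⟩
  · obtain rfl : b = true := by simpa using hi
    exact Or.inr ⟨x, (l, s), η, by rw [T'.v_mul, ← hz]⟩

theorem Dbl_est (φ : A →⋆ₐ[ℂ] A') (hφ : TP T T' φ) (z z' : A') (x y : A) :
    ‖T'.τ (star z' * φ x * z) - T'.τ (star z' * φ y * z)‖ ≤
      T.n2 (x - y) * T'.n2 (z * star z') := by
  rw [← map_sub, ← sub_mul, ← mul_sub, ← map_sub, mul_assoc, T'.τ_comm, mul_assoc, ← hφ.n2]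
  exact T'.norm_τ_mul_le _ _

theorem dbl_amen (hP : IsModel T e c ℓ r) (hQ : IsModel T' e' c' ℓ' r') (hι : TP T T' ι')
    (h1 : ∀ k i j, ι' (e k i j) = e' k i j) (h2 : ∀ l, ι' (c l) = c' (l, false))
    (hκ : TP T T' κ) (h3 : ∀ k i j, κ (e k i j) = e' k i j) (h4 : ∀ l, κ (c l) = c' (l, true)) :
    Amen T T' ι' κ := by
  have hC := dbl_coarse hP hQ hι h1 h2
  have h := hQ.cc.sub (bar' := flip) Dbl_f Dbl_inj fun _ => rfl
  choose E hE hm hs hc using hP.tower.level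
  refine ⟨{z | Vac T' (base e') (fun p => ℓ' (Dbl_f p)) (T'.v z)}, fun z hz x i d hd => ?_, ?_,
    fun k => Fintype.card ι ^ k, E, hE, fun y z hz z' hz' => ?_⟩
  · have a := congrArg star (hC.comm i (star x))
    rw [star_mul, star_mul, map_star, T'.R_star, star_star] at a
    have b := congrArg (fun S : H' →L[ℂ] H' => S (T'.L d (T'.v z))) a
    simp only [mul_apply_eq_comp] at b
    rw [← T'.R_v, T'.L_R_apply]
    exact b.symm.trans (by rw [show star (ℓ' ((i.1, true), i.2)) (T'.L d (T'.v z)) = 0 from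
      hz i d hd, map_zero])
  · refine (hQ.cc.split_dense (Dbl_gen hQ) {i | i.1.2 = true} fun _ => Iff.rfl).mono
      (SetLike.coe_subset_coe.2 (Submodule.span_mono ?_))
    rintro ξ ⟨y, hy, h'⟩
    obtain ⟨x, rfl⟩ := Dbl_pull h3 h4 hy
    rcases h' with rfl | ⟨j, hj, η, z, hz, rfl⟩
    · refine ⟨x, 1, ?_, by rw [mul_one]⟩
      show Vac T' _ _ (T'.v 1)
      rw [T'.v_one]
      exact h.vac_Ω
    · refine ⟨x, z, fun i d hd => ?_, rfl⟩
      have := congrArg (fun S : H' →L[ℂ] H' => S η)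
        (hQ.cc.diff (Dbl_f i) j (fun h' => hj (h' ▸ rfl)) d hd)
      rw [← hz]
      exact this
  · have pol : ∀ a ∈ StarAlgebra.adjoin ℂ (alle e ∪ Set.range c), ∀ᶠ k in atTop,
        T'.τ (star z' * ι' (cex T.τ (E k) a) * z) = T'.τ (star z' * κ a * z) := fun a ha => by
      obtain ⟨d', hd', t1, t2⟩ := h.vac_inner (Dbl_push h3 h4 ha)
      obtain ⟨d, hd, rfl⟩ := Dbl_base' h3 hd'
      obtain ⟨k₀, hk⟩ := mem_base hd
      filter_upwards [eventually_ge_atTop k₀] with k hkk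
      have e1 : cex T.τ (E k) a = d := by
        rw [← cex_of_mem T (hE k) (hs k d (hk k hkk))]
        refine cex_congr _ _ fun b b' => ?_
        rw [← hκ, ← hκ, map_mul κ, map_mul κ]
        exact t1 _ (Dbl_base h3 (StarAlgebra.adjoin_mono (lev_sub e k) (hm k b b')))
      rw [e1, Dbl_agree h1 h3 hd, mul_assoc, mul_assoc, ← T'.inner_v, ← T'.inner_v, T'.v_mul,
        T'.v_mul]
      exact (t2 _ _ hz hz').symm
    refine Metric.tendsto_nhds.2 fun ε hε => ?_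
    have C0 := T'.n2_nonneg (z * star z')
    obtain ⟨a, ha, hn⟩ := T.mem_W_iff.1 (show y ∈ T.W (alle e ∪ Set.range c) from
      hP.gen ▸ StarSubalgebra.mem_top) (ε / (2 * T'.n2 (z * star z') + 1)) (by positivity)
    filter_upwards [pol a ha] with k hk
    have b1 := Dbl_est ι' hι z z' (cex T.τ (E k) y) (cex T.τ (E k) a)
    have b2 := Dbl_est κ hκ z z' a y
    have b3 := n2_cex_le T (hE k) (y - a)
    rw [← cex_sub, hk] at b1
    rw [T.n2_sub_comm] at b2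
    rw [lt_div_iff₀ (by positivity)] at hn
    have b4 := mul_le_mul_of_nonneg_right b3 C0
    rw [dist_eq_norm]
    refine (norm_sub_le_norm_sub_add_norm_sub _ (T'.τ (star z' * κ a * z)) _).trans_lt ?_
    linarith [T.n2_nonneg (y - a)]

end Pool.Agent.TS
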