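import Pool.Agent.P.MP_e05717_an.MU2

/-!
Row TS-Cmp. Comparison of projections and uniqueness of the trace.
Hints: `compare`: `brezis_browder` on the part isometries `v ∈ M` with `p v = v = v f`, ordered by
`w * (star v * v) = v`, measured by `‖star v Ω‖²`; chains by `exists_piso_lim`. At a maximal `v`, if both
`p - v v*` and `f - v* v` are nonzero, `IsFactor.exists_ne` and `exists_cutdown` give a nonzero part
isometry `w` between them and `v + w` has larger measure. `unique_trace`: for a projection `f` compare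
with `∑ i < r, E i i` for the system of `Tower.level` (size `N` large): both traces of `f` lie in
`[r / N, (r + 1) / N]` up to the factor `φ 1`; `approx_by_proj` and `T.full` for selfadjoint elements.
-/

open scoped ComplexOrder InnerProductSpace ComplexConjugate ENNReal
open Filter Topology Pool.Agent.P.MP_5d580a_an

set_option linter.unusedSectionVars false
set_option linter.unusedVariables false

noncomputable section

namespace Pool.Agent.TS

variable {A H : Type} [CStarAlgebra A] [NormedAddCommGroup H] [InnerProductSpace ℂ H]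
  [CompleteSpace H]
variable {ι : Type} [Fintype ι] [DecidableEq ι]

theorem Cmp_step {K : Type} [NormedAddCommGroup K] [InnerProductSpace ℂ K] [CompleteSpace K]
    {M : VonNeumannAlgebra K} (hM : IsFactor M) {p f : K →L[ℂ] K} (hp : p ∈ M)
    (hpp : p * p = p) (hp0 : p ≠ 0) (hf : f ∈ M) (hf' : IsStarProjection f) (hf0 : f ≠ 0) :
    ∃ w ∈ M, w ≠ 0 ∧ w * star w * w = w ∧ p * w = w ∧ w * f = w := by
  obtain ⟨a, ma, -, hx⟩ := hM.exists_ne hp hf hp0 hf0
  obtain ⟨x, hxd⟩ : ∃ x, x = p * a * f := ⟨_, rfl⟩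
  rw [← hxd] at hx
  have mx : x ∈ M := hxd ▸ mul_mem (mul_mem hp ma) hf
  have px : p * x = x := by rw [hxd, ← mul_assoc, ← mul_assoc, hpp]
  have xf : x * f = x := by rw [hxd, mul_assoc, hf'.isIdempotentElem.eq]
  have fx : f * star x = star x := by
    simpa only [star_mul, hf'.isSelfAdjoint.star_eq] using congrArg star xf
  have hn : 0 < ‖x‖ := norm_pos_iff.2 hx
  obtain ⟨g, b, -, -, -, hc, hw, h1, -⟩ := exists_cutdown x (half_pos hn)
  have mg : g ∈ M := mem_of_commute fun y hy =>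
    (hc y (commute_of_mem (mul_mem (star_mem mx) mx) hy).symm).1
  have fg : f * g = g * f := (hc f (by rw [← mul_assoc, fx, mul_assoc, xf])).1
  refine ⟨x * g, mul_mem mx mg, ?_, hw, by rw [← mul_assoc, px], ?_⟩
  · intro h
    rw [h, zero_mul, sub_zero] at h1
    linarith
  · rw [mul_assoc, ← fg, ← mul_assoc, xf]

theorem compare {K : Type} [NormedAddCommGroup K] [InnerProductSpace ℂ K] [CompleteSpace K]
    {M : VonNeumannAlgebra K} (hM : IsFactor M) {p f : K →L[ℂ] K} (hp : p ∈ M)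
    (hp' : IsStarProjection p) (hf : f ∈ M) (hf' : IsStarProjection f) (Ω : K)
    (hΩ : ∀ x ∈ M, x * p = x → x Ω = 0 → x = 0) :
    ∃ v ∈ M, p * v = v ∧ v * f = v ∧ (v * star v = p ∨ star v * v = f) := by
  obtain ⟨⟨v, mv, hv, pv, vf⟩, -, hmax⟩ := brezis_browder
    (S := {v : K →L[ℂ] K // v ∈ M ∧ v * star v * v = v ∧ p * v = v ∧ v * f = v})
    (fun v w => w.1 * (star v.1 * v.1) = v.1) (fun v => by rw [← mul_assoc, v.2.2.1])
    (fun s t u h1 h2 => by
      rw [← (piso_le s.2.2.1 t.2.2.1 h1).1, ← mul_assoc, h2, h1])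
    (fun v => ‖(star v.1) Ω‖ ^ 2)
    (fun s t h => by
      refine pow_le_pow_left₀ (norm_nonneg _) ?_ 2
      have h1 : star s.1 = star s.1 * s.1 * star t.1 := by
        simpa only [star_mul, star_star] using (congrArg star h).symm
      rw [h1]
      exact proj_norm_le (piso_init s.2.2.1) _)
    (‖Ω‖ ^ 2)
    (fun s => pow_le_pow_left₀ (norm_nonneg _) (((star s.1).le_opNorm _).trans
      (mul_le_of_le_one_left (norm_nonneg _)
        (by rw [norm_star]; exact piso_norm_le s.2.2.1))) 2)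
    (fun s hs => by
      obtain ⟨w, hw, h1, h2, h3⟩ := exists_piso_lim (fun n => (s n).1) (fun n => (s n).2.2.1) hs
      have h4 := wot_of_sot h2
      refine ⟨⟨w, mem_of_wot h4 (.of_forall fun n => (s n).2.1), hw, ?_, ?_⟩, h1⟩
      · simpa using mul_eq_of_wot h4 (a := p) (b := 1) (c := 1) (d := 1)
          (.of_forall fun n => by simpa using (s n).2.2.2.1)
      · simpa using mul_eq_of_wot h4 (a := 1) (b := f) (c := 1) (d := 1)
          (.of_forall fun n => by simpa using (s n).2.2.2.2))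
    ⟨0, zero_mem M, by simp, by simp, by simp⟩
  refine ⟨v, mv, pv, vf, ?_⟩
  by_contra hc
  rw [not_or] at hc
  have pe := piso_init hv
  have pf := piso_fin hv
  have me : star v * v ∈ M := mul_mem (star_mem mv) mv
  have mf : v * star v ∈ M := mul_mem mv (star_mem mv)
  have ee0 : star v * v * f = star v * v := by rw [mul_assoc, vf]
  have e0e : f * (star v * v) = star v * v := by
    simpa only [star_mul, star_star, hf'.isSelfAdjoint.star_eq] using congrArg star ee0
  have f0f : p * (v * star v) = v * star v := by rw [← mul_assoc, pv]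
  have ff0 : v * star v * p = v * star v := by
    simpa only [star_mul, star_star, hp'.isSelfAdjoint.star_eq] using congrArg star f0f
  obtain ⟨w, mw, w0, hw, fw, we⟩ := Cmp_step hM (sub_mem hp mf)
    (pf.sub_of_mul_eq_left hp' ff0).isIdempotentElem.eq (fun h => hc.1 (sub_eq_zero.1 h).symm)
    (sub_mem hf me) (pe.sub_of_mul_eq_left hf' ee0) (fun h => hc.2 (sub_eq_zero.1 h).symm)
  have b1 : v * star v * w = 0 := by
    rw [← fw, ← mul_assoc, mul_sub, ff0, pf.isIdempotentElem.eq, sub_self, zero_mul]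
  have b2 : w * (star v * v) = 0 := by
    rw [← we, mul_assoc, sub_mul, e0e, pe.isIdempotentElem.eq, sub_self, mul_zero]
  have hs : star v * v * star v = star v := by
    simpa only [star_mul, star_star, mul_assoc] using congrArg star hv
  have hvw : star v * w = 0 := by rw [← hs, mul_assoc, mul_assoc, ← mul_assoc v, b1, mul_zero]
  have hwv : w * star v = 0 := by rw [← hs, ← mul_assoc, b2, zero_mul]
  have hwv' : star w * v = 0 := by simpa using congrArg star hvw
  have hvw' : v * star w = 0 := by simpa using congrArg star hwv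
  have b3 : p * w = w := by rw [sub_mul, b1, sub_zero] at fw; exact fw
  have b4 : w * f = w := by rw [mul_sub, b2, sub_zero] at we; exact we
  have b5 : ‖(star (v + w)) Ω‖ ^ 2 = ‖(star v) Ω‖ ^ 2 + ‖(star w) Ω‖ ^ 2 := by
    have h0 : ⟪(star v) Ω, (star w) Ω⟫_ℂ = 0 := by
      rw [inner_star_left, ← mul_apply_eq_comp, hvw']
      simp
    rw [star_add, _root_.add_apply, sq, sq, sq]
    exact norm_add_sq_eq_norm_sq_add_norm_sq_of_inner_eq_zero _ _ h0
  have b9 : 0 < ‖(star w) Ω‖ ^ 2 := by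
    refine pow_pos (norm_pos_iff.2 fun h => w0 ?_) 2
    have h1 := hΩ (star w) (star_mem mw)
      (by simpa only [star_mul, hp'.isSelfAdjoint.star_eq] using congrArg star b3) h
    simpa using h1
  have := hmax ⟨v + w, add_mem mv mw, ?_, by rw [mul_add, pv, b3], by rw [add_mul, vf, b4]⟩
    (by change (v + w) * (star v * v) = v; rw [add_mul, b2, ← mul_assoc, hv, add_zero])
  · change ‖(star (v + w)) Ω‖ ^ 2 ≤ ‖(star v) Ω‖ ^ 2 at this
    linarith
  · simp only [star_add, add_mul, mul_add, hvw', hwv, add_zero, zero_add, hv, hw, b1,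
      mul_assoc w (star w) v, hwv', mul_zero]

/-- trivial centre -/
def Cen (A : Type) [CStarAlgebra A] : Prop :=
  ∀ x : A, (∀ y, x * y = y * x) → ∃ c : ℂ, x = c • (1 : A)

theorem Cen.of_equiv {A' : Type} [CStarAlgebra A'] (h : Cen A) (φ : A ≃⋆ₐ[ℂ] A') : Cen A' := by
  intro x hx
  obtain ⟨c, hc⟩ := h (φ.symm x) fun y => by
    apply EquivLike.injective φ
    rw [map_mul, map_mul, StarAlgEquiv.apply_symm_apply, hx]
  refine ⟨c, ?_⟩
  have h1 := congrArg φ hc
  rwa [StarAlgEquiv.apply_symm_apply, map_smul, map_one] at h1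

theorem factor_vn (T : TW A H) (hc : Cen A) : IsFactor T.vn := by
  refine isFactor_of_center fun z hz hz' hp => ?_
  obtain ⟨x, rfl⟩ := T.mem_vn.1 hz
  obtain ⟨c, rfl⟩ := hc x fun y => T.L_inj (by
    rw [map_mul, map_mul]
    exact (commute_of_mem (T.mem_vn.2 ⟨y, rfl⟩) hz').symm)
  have h1 : (c • (1 : A)) * (c • (1 : A)) = c • (1 : A) :=
    T.L_inj (by rw [map_mul]; exact hp.isIdempotentElem.eq)
  have h2 := congrArg T.τ h1
  rw [smul_mul_smul_comm, mul_one, map_smul, map_smul, T.τ_one, smul_eq_mul, smul_eq_mul, mul_one,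
    mul_one] at h2
  rcases mul_eq_zero.1 (show c * (c - 1) = 0 by linear_combination h2) with h | h
  · left
    rw [h, zero_smul, map_zero]
  · right
    rw [sub_eq_zero.1 h, one_smul, map_one]

theorem Cmp_proj_L (T : TW A H) {p : A} : IsStarProjection (T.L p) ↔ IsStarProjection p := by
  constructor
  · intro h
    refine ⟨T.L_inj ?_, T.L_inj ?_⟩
    · rw [map_mul]
      exact h.isIdempotentElem.eq
    · rw [map_star]
      exact h.isSelfAdjoint.star_eq
  · intro h
    refine ⟨?_, ?_⟩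
    · show T.L p * T.L p = T.L p
      rw [← map_mul, h.isIdempotentElem.eq]
    · show star (T.L p) = T.L p
      rw [← map_star, h.isSelfAdjoint.star_eq]

theorem compare_A (T : TW A H) (hc : Cen A) {p f : A} (hp : IsStarProjection p)
    (hf : IsStarProjection f) :
    ∃ v, p * v = v ∧ v * f = v ∧ (v * star v = p ∨ star v * v = f) := by
  obtain ⟨v, mv, h1, h2, h3⟩ := compare (factor_vn T hc) (T.mem_vn.2 ⟨p, rfl⟩)
    ((Cmp_proj_L T).2 hp) (T.mem_vn.2 ⟨f, rfl⟩) ((Cmp_proj_L T).2 hf) T.Ω (by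
      intro x hx _ h0
      obtain ⟨y, rfl⟩ := T.mem_vn.1 hx
      rw [T.sep y h0, map_zero])
  obtain ⟨y, rfl⟩ := T.mem_vn.1 mv
  refine ⟨y, T.L_inj (by rw [map_mul, h1]), T.L_inj (by rw [map_mul, h2]), ?_⟩
  rcases h3 with h | h
  · exact Or.inl (T.L_inj (by rw [map_mul, map_star, h]))
  · exact Or.inr (T.L_inj (by rw [map_mul, map_star, h]))

theorem Cmp_pos {ψ : A →ₗ[ℂ] ℂ} (hpos : ∀ x, 0 ≤ ψ (star x * x)) {p : A}
    (hp : IsStarProjection p) : 0 ≤ (ψ p).re ∧ ψ p = ((ψ p).re : ℂ) := by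
  have h := hpos p
  rw [hp.isSelfAdjoint.star_eq, hp.isIdempotentElem.eq] at h
  obtain ⟨h1, h2⟩ := Complex.nonneg_iff.1 h
  exact ⟨h1, Complex.ext rfl h2.symm⟩

theorem Cmp_le {ψ : A →ₗ[ℂ] ℂ} (hpos : ∀ x, 0 ≤ ψ (star x * x))
    (htr : ∀ x y, ψ (x * y) = ψ (y * x)) {p f v : A} (hf : IsStarProjection f) (h1 : p * v = v)
    (h2 : v * f = v) (h3 : v * star v = p) : (ψ p).re ≤ (ψ f).re := by
  have hq : IsStarProjection (star v * v) := by
    refine ⟨?_, IsSelfAdjoint.star_mul_self v⟩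
    show star v * v * (star v * v) = star v * v
    rw [mul_assoc, ← mul_assoc v, h3, h1]
  have h4 := (Cmp_pos hpos (hq.sub_of_mul_eq_left hf (by rw [mul_assoc, h2]))).1
  rw [map_sub, htr, h3, Complex.sub_re] at h4
  linarith

theorem Cmp_unit {ψ : A →ₗ[ℂ] ℂ} (htr : ∀ x y, ψ (x * y) = ψ (y * x)) {N : ℕ}
    {E : Fin N → Fin N → A} (hE : MU E) (i : Fin N) : ψ (E i i) = ψ 1 / N := by
  have hN : (N : ℂ) ≠ 0 := Nat.cast_ne_zero.2 (Nat.pos_iff_ne_zero.1 i.pos)
  have h1 : ∀ j, ψ (E j j) = ψ (E i i) := by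
    intro j
    have h2 := htr (E j i) (E i j)
    rwa [hE.mul, hE.mul, if_pos rfl, if_pos rfl] at h2
  rw [← hE.sum, map_sum]
  simp only [h1]
  rw [Finset.sum_const, Finset.card_univ, Fintype.card_fin, nsmul_eq_mul]
  field_simp

theorem Cmp_sum_proj {N : ℕ} {E : Fin N → Fin N → A} (hE : MU E) (s : Finset (Fin N)) :
    IsStarProjection (∑ i ∈ s, E i i) := by
  refine ⟨?_, ?_⟩
  · show (∑ i ∈ s, E i i) * (∑ i ∈ s, E i i) = ∑ i ∈ s, E i i
    rw [Finset.sum_mul_sum]
    refine Finset.sum_congr rfl fun i hi => ?_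
    rw [Finset.sum_eq_single i]
    · rw [hE.mul, if_pos rfl]
    · intro j _ hj
      rw [hE.mul, if_neg hj.symm]
    · exact fun h => absurd hi h
  · show star (∑ i ∈ s, E i i) = ∑ i ∈ s, E i i
    rw [star_sum]
    exact Finset.sum_congr rfl fun i _ => hE.star i i

theorem Cmp_grid {c : ℕ} (hc : 2 ≤ c) {x y : ℝ} (h0 : 0 ≤ x) (hxy : x < y) (h1 : y ≤ 1) :
    ∃ k r : ℕ, r ≤ c ^ k ∧ x < (r : ℝ) / (c ^ k : ℕ) ∧ (r : ℝ) / (c ^ k : ℕ) < y := by
  have hc' : (1 : ℝ) < c := by exact_mod_cast hc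
  obtain ⟨k, hk⟩ := pow_unbounded_of_one_lt (y - x)⁻¹ hc'
  have hN : (0 : ℝ) < (c ^ k : ℕ) := by
    push_cast
    exact pow_pos (by linarith) k
  have hk' : 1 < (y - x) * ((c ^ k : ℕ) : ℝ) := by
    push_cast
    rwa [inv_lt_iff_one_lt_mul₀' (sub_pos.2 hxy)] at hk
  generalize hN' : ((c ^ k : ℕ) : ℝ) = N at hN hk'
  have h2 : x * N < (⌊x * N⌋₊ + 1 : ℕ) := by
    push_cast
    exact Nat.lt_floor_add_one _
  have h3 : ((⌊x * N⌋₊ + 1 : ℕ) : ℝ) < y * N := by
    push_cast
    have := Nat.floor_le (mul_nonneg h0 hN.le)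
    linarith
  refine ⟨k, ⌊x * N⌋₊ + 1, ?_, ?_, ?_⟩
  · have h4 : ((⌊x * N⌋₊ + 1 : ℕ) : ℝ) ≤ ((c ^ k : ℕ) : ℝ) := by
      rw [hN']
      have := mul_le_mul_of_nonneg_right h1 hN.le
      linarith
    exact_mod_cast h4
  · rw [hN', lt_div_iff₀ hN]
    exact h2
  · rw [hN', div_lt_iff₀ hN]
    exact h3

theorem Cmp_trace_proj (T : TW A H) (hc : Cen A) {e : ℕ → ι → ι → A} (he : Tower e)
    (h2 : 2 ≤ Fintype.card ι) (φ : A →ₗ[ℂ] ℂ) (hpos : ∀ x, 0 ≤ φ (star x * x))
    (htr : ∀ x y, φ (x * y) = φ (y * x)) {f : A} (hf : IsStarProjection f) :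
    φ f = φ 1 * T.τ f := by
  have hpos' : ∀ x, 0 ≤ T.τ (star x * x) := fun x => by
    rw [T.τ_star_mul_self]
    exact Complex.zero_le_real.2 (sq_nonneg _)
  have one : IsStarProjection (1 : A) := IsStarProjection.one A
  obtain ⟨a0, ha⟩ := Cmp_pos hpos one
  obtain ⟨s0, hs⟩ := Cmp_pos hpos hf
  obtain ⟨t0, ht⟩ := Cmp_pos hpos' hf
  have sa : (φ f).re ≤ (φ 1).re := by
    have := (Cmp_pos hpos hf.one_sub).1
    rw [map_sub, Complex.sub_re] at this
    linarith
  have t1 : (T.τ f).re ≤ 1 := by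
    have := (Cmp_pos hpos' hf.one_sub).1
    rw [map_sub, Complex.sub_re, T.τ_one, Complex.one_re] at this
    linarith
  have key : ∀ k r : ℕ, r ≤ Fintype.card ι ^ k →
      ((r : ℝ) / (Fintype.card ι ^ k : ℕ) * (φ 1).re ≤ (φ f).re ∧
        (r : ℝ) / (Fintype.card ι ^ k : ℕ) ≤ (T.τ f).re) ∨
      ((φ f).re ≤ (r : ℝ) / (Fintype.card ι ^ k : ℕ) * (φ 1).re ∧
        (T.τ f).re ≤ (r : ℝ) / (Fintype.card ι ^ k : ℕ)) := by
    intro k r hr
    obtain ⟨E, hE, -⟩ := he.level k
    generalize Fintype.card ι ^ k = N at E hE hr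
    obtain ⟨s, -, hs⟩ := Finset.exists_subset_card_eq (s := (Finset.univ : Finset (Fin N)))
      (n := r) (by rwa [Finset.card_univ, Fintype.card_fin])
    have hp := Cmp_sum_proj hE s
    have hv : ∀ ψ : A →ₗ[ℂ] ℂ, (∀ x y, ψ (x * y) = ψ (y * x)) →
        (ψ (∑ i ∈ s, E i i)).re = (r : ℝ) / N * (ψ 1).re := by
      intro ψ hψ
      rw [map_sum]
      simp only [Cmp_unit hψ hE]
      rw [Finset.sum_const, hs, nsmul_eq_mul, ← Complex.ofReal_natCast, ← Complex.ofReal_natCast,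
        Complex.re_ofReal_mul, Complex.div_ofReal_re]
      ring
    have hφ := hv φ htr
    have hτ := hv T.τ T.τ_comm
    rw [T.τ_one, Complex.one_re, mul_one] at hτ
    obtain ⟨v, h1, h3, h4 | h4⟩ := compare_A T hc hp hf
    · left
      exact ⟨hφ ▸ Cmp_le hpos htr hf h1 h3 h4, hτ ▸ Cmp_le hpos' T.τ_comm hf h1 h3 h4⟩
    · right
      have h1' : star v * ∑ i ∈ s, E i i = star v := by
        simpa only [star_mul, hp.isSelfAdjoint.star_eq] using congrArg star h1
      have h3' : f * star v = star v := by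
        simpa only [star_mul, hf.isSelfAdjoint.star_eq] using congrArg star h3
      have h4' : star v * star (star v) = f := by rwa [star_star]
      exact ⟨hφ ▸ Cmp_le hpos htr hp h3' h1' h4', hτ ▸ Cmp_le hpos' T.τ_comm hp h3' h1' h4'⟩
  rw [ha, hs, ht, ← Complex.ofReal_mul, Complex.ofReal_inj]
  generalize (φ 1).re = a at *
  generalize (φ f).re = s at *
  generalize (T.τ f).re = t at *
  rcases a0.eq_or_lt with h | a0
  · subst h
    rw [zero_mul]
    exact le_antisymm sa s0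
  rcases lt_trichotomy (s / a) t with h | h | h
  · obtain ⟨k, r, hr, h3, h4⟩ := Cmp_grid h2 (div_nonneg s0 a0.le) h t1
    rw [div_lt_iff₀ a0] at h3
    rcases key k r hr with h5 | h5
    · exact absurd h5.1 h3.not_ge
    · exact absurd h5.2 h4.not_ge
  · rw [← h]
    field_simp
  · obtain ⟨k, r, hr, h3, h4⟩ := Cmp_grid h2 t0 h ((div_le_one a0).2 sa)
    rw [lt_div_iff₀ a0] at h4
    rcases key k r hr with h5 | h5
    · exact absurd h5.2 h3.not_ge
    · exact absurd h5.1 h4.not_ge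

theorem Cmp_zero (T : TW A H) (D : A →L[ℂ] ℂ) (hD : ∀ p, IsStarProjection p → D p = 0) (x : A) :
    D x = 0 := by
  have hsa : ∀ y : A, IsSelfAdjoint y → D y = 0 := by
    intro y hy
    have hy' : IsSelfAdjoint (T.L y) := by
      show star (T.L y) = T.L y
      rw [← map_star, hy.star_eq]
    have h1 : ∀ ε : ℝ, 0 < ε → ‖D y‖ ≤ ‖D‖ * ε := by
      intro ε hε
      obtain ⟨n, t, P, hP, hn⟩ := approx_by_proj hy' hε
      choose q hq using fun k => T.full (P k) fun b => ((hP k).2 _ (T.L_R y b).symm).symm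
      have h2 : D (y - ∑ k, (t k : ℂ) • q k) = D y := by
        rw [map_sub, map_sum, Finset.sum_eq_zero, sub_zero]
        intro k _
        rw [map_smul, hD _ ((Cmp_proj_L T).1 (hq k ▸ (hP k).1)), smul_zero]
      have h3 : ‖y - ∑ k, (t k : ℂ) • q k‖ ≤ ε := by
        rw [← T.norm_L, map_sub, map_sum]
        simpa only [map_smul, hq] using hn
      rw [← h2]
      exact (D.le_opNorm _).trans (mul_le_mul_of_nonneg_left h3 (norm_nonneg _))
    rw [← norm_le_zero_iff]
    refine le_of_forall_pos_le_add fun ε hε => ?_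
    have h2 := h1 (ε / (‖D‖ + 1)) (by positivity)
    have h3 : ‖D‖ * (ε / (‖D‖ + 1)) ≤ ε := by
      rw [← mul_div_assoc, div_le_iff₀ (by positivity)]
      nlinarith [norm_nonneg D]
    linarith
  rw [← realPart_add_I_smul_imaginaryPart x, map_add, map_smul, hsa _ (realPart x).2,
    hsa _ (imaginaryPart x).2, smul_zero, add_zero]

theorem unique_trace (T : TW A H) (hc : Cen A) {e : ℕ → ι → ι → A} (he : Tower e)
    (h2 : 2 ≤ Fintype.card ι) (φ : A →L[ℂ] ℂ) (hpos : ∀ x, 0 ≤ φ (star x * x))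
    (htr : ∀ x y, φ (x * y) = φ (y * x)) (x : A) : φ x = φ 1 * T.τ x := by
  have h := Cmp_zero T (φ - φ 1 • (⟨T.τ, T.continuous_τ⟩ : A →L[ℂ] ℂ)) (fun p hp => by
    have := Cmp_trace_proj T hc he h2 (φ : A →ₗ[ℂ] ℂ) hpos htr hp
    exact sub_eq_zero.2 this) x
  exact sub_eq_zero.1 h

theorem trace_scale (T : TW A H) (hc : Cen A) {e : ℕ → ι → ι → A} (he : Tower e)
    (h2 : 2 ≤ Fintype.card ι) (π : A →⋆ₙₐ[ℂ] A) (x : A) : T.τ (π x) = T.τ (π 1) * T.τ x := by
  let ψ : A →ₗ[ℂ] ℂ :=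
    { toFun := fun y => T.τ (π y)
      map_add' := fun y z => by rw [map_add, map_add]
      map_smul' := fun c y => by rw [map_smul, map_smul, RingHom.id_apply] }
  have hb : ∀ y, ‖ψ y‖ ≤ 1 * ‖y‖ := fun y => by
    rw [one_mul]
    exact ((T.norm_τ_le _).trans (T.n2_le_norm _)).trans (nhom_norm_le π y)
  refine unique_trace T hc he h2 (ψ.mkContinuous 1 hb) (fun y => ?_) (fun y z => ?_) x
  · show 0 ≤ T.τ (π (star y * y))
    rw [map_mul, map_star, T.τ_star_mul_self]
    exact Complex.zero_le_real.2 (sq_nonneg _)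
  · show T.τ (π (y * z)) = T.τ (π (z * y))
    rw [map_mul π, map_mul π, T.τ_comm]

end Pool.Agent.TS
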