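import Pool.Agent.P.MP_e05717_an.Ops
import Pool.Agent.P.MP_e05717_an.Cmp
import Pool.Agent.P.MP_e05717_an.RDefs

/-!
Row TS-Gap0. The spectral gap inside the model (paper G0).
Hints: `IsModel.gap`: `l j = (ℓ (f j, false) + ℓ (f j, true)) / √2`, the same for `r`; take
`f = τ y • 1`, `ξ = v (y - f) ⊥ Ω`; `∑ ‖(l j - r j) ξ‖² ≥ 286 ‖ξ‖²`,
`∑ ‖(star (l j) - star (r j)) ξ‖² ≤ 4 ‖ξ‖²` (Bessel type helper: `∑ ‖star (l j) ξ‖² ≤ ‖ξ‖²` for
orthogonal isometries), `‖a + b‖² ≥ ‖a‖² / 2 - ‖b‖²`. `SF.lower`: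
`‖a + b‖² ≥ (11/12) ‖a‖² - 11 ‖b‖²`, `T.pos_iff`. `GapIn.amp`: `decomp`, `n2_decomp`.
-/

open scoped ComplexOrder InnerProductSpace ComplexConjugate ENNReal
open Filter Topology Pool.Agent.P.MP_5d580a_an

set_option linter.unusedSectionVars false
set_option linter.unusedVariables false

noncomputable section

namespace Pool.Agent.TS

variable {A H : Type} [CStarAlgebra A] [NormedAddCommGroup H] [InnerProductSpace ℂ H]
  [CompleteSpace H]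
variable {A' H' : Type} [CStarAlgebra A'] [NormedAddCommGroup H'] [InnerProductSpace ℂ H']
  [CompleteSpace H']
variable {ι : Type} [Fintype ι] [DecidableEq ι]

variable {T : TW A H}

theorem Gap0_adj (X : H →L[ℂ] H) (a b : H) : ⟪a, (star X) b⟫_ℂ = ⟪X a, b⟫_ℂ := by
  rw [ContinuousLinearMap.star_eq_adjoint, ContinuousLinearMap.adjoint_inner_right]

theorem Gap0_adj' (X : H →L[ℂ] H) (a b : H) : ⟪(star X) a, b⟫_ℂ = ⟪a, X b⟫_ℂ := by
  rw [ContinuousLinearMap.star_eq_adjoint, ContinuousLinearMap.adjoint_inner_left]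

theorem Gap0_inner (X Y : H →L[ℂ] H) (a b : H) : ⟪X a, Y b⟫_ℂ = ⟪a, (star X * Y) b⟫_ℂ := by
  rw [mul_apply_eq_comp, Gap0_adj]

theorem Gap0_norm {X : H →L[ℂ] H} (h : star X * X = 1) (a : H) : ‖X a‖ ^ 2 = ‖a‖ ^ 2 := by
  rw [@norm_sq_eq_re_inner ℂ, @norm_sq_eq_re_inner ℂ, Gap0_inner, h,
    one_apply_eq_self]

theorem Gap0_par (a b : H) : ‖a - b‖ ^ 2 ≤ 2 * ‖a‖ ^ 2 + 2 * ‖b‖ ^ 2 := by
  have h1 := norm_sub_le a b
  have h2 : ‖a - b‖ ^ 2 ≤ (‖a‖ + ‖b‖) ^ 2 := pow_le_pow_left₀ (norm_nonneg _) h1 2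
  nlinarith [sq_nonneg (‖a‖ - ‖b‖)]

theorem Gap0_low (a b : H) : ‖a‖ ^ 2 - 2 * (‖a‖ * ‖b‖) + ‖b‖ ^ 2 ≤ ‖a + b‖ ^ 2 := by
  rw [@norm_add_sq ℂ]
  have h1 : |RCLike.re ⟪a, b⟫_ℂ| ≤ ‖a‖ * ‖b‖ :=
    (RCLike.abs_re_le_norm _).trans (norm_inner_le_norm a b)
  linarith [(abs_le.1 h1).1]

theorem bessel_iso {κ : Type} [Fintype κ] (l : κ → (H →L[ℂ] H)) (h1 : ∀ j, star (l j) * l j = 1)
    (h0 : ∀ i j, i ≠ j → star (l i) * l j = 0) (ξ : H) :
    ∑ j, ‖(star (l j)) ξ‖ ^ 2 ≤ ‖ξ‖ ^ 2 := by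
  classical
  have h2 : ⟪ξ, ∑ j, l j ((star (l j)) ξ)⟫_ℂ = ∑ j, ⟪(star (l j)) ξ, (star (l j)) ξ⟫_ℂ := by
    rw [inner_sum]
    exact Finset.sum_congr rfl fun j _ => (Gap0_adj' _ _ _).symm
  have h3 : ⟪∑ j, l j ((star (l j)) ξ), ∑ j, l j ((star (l j)) ξ)⟫_ℂ =
      ∑ j, ⟪(star (l j)) ξ, (star (l j)) ξ⟫_ℂ := by
    rw [sum_inner]
    refine Finset.sum_congr rfl fun i _ => ?_
    rw [inner_sum, Finset.sum_eq_single i]
    · rw [Gap0_inner (l i) (l i), h1, one_apply_eq_self]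
    · intro j _ hj
      rw [Gap0_inner (l i) (l j), h0 i j hj.symm, _root_.zero_apply, inner_zero_right]
    · intro h
      exact absurd (Finset.mem_univ i) h
  have h4 : RCLike.re (∑ j, ⟪(star (l j)) ξ, (star (l j)) ξ⟫_ℂ) = ∑ j, ‖(star (l j)) ξ‖ ^ 2 := by
    rw [map_sum]
    exact Finset.sum_congr rfl fun j _ => (@norm_sq_eq_re_inner ℂ _ _ _ _ _).symm
  have h5 := @norm_sub_sq ℂ _ _ _ _ ξ (∑ j, l j ((star (l j)) ξ))
  rw [@norm_sq_eq_re_inner ℂ _ _ _ _ (∑ j, l j ((star (l j)) ξ)), h2, h3, h4] at h5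
  linarith [sq_nonneg ‖ξ - ∑ j, l j ((star (l j)) ξ)‖]


theorem IsModel.circ {e : ℕ → ι → ι → A} {Λ : Type} {c : Λ → A} {ℓ r : Λ × Bool → (H →L[ℂ] H)}
    (h : IsModel T e c ℓ r) : Circ T (base e) c := ⟨ℓ, h.cc⟩


theorem Gap0_core (l r : Fin 144 → (H →L[ℂ] H)) (l1 : ∀ j, star (l j) * l j = 1)
    (l0 : ∀ i j, i ≠ j → star (l i) * l j = 0) (r1 : ∀ j, star (r j) * r j = 1)
    (r0 : ∀ i j, i ≠ j → star (r i) * r j = 0) (ξ : H)
    (h : ∀ j, (star (r j)) (l j ξ) = l j ((star (r j)) ξ)) :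
    25 * ‖ξ‖ ^ 2 ≤ ∑ j, ‖(l j + star (l j)) ξ - (r j + star (r j)) ξ‖ ^ 2 := by
  have hl := bessel_iso l l1 l0 ξ
  have hr := bessel_iso r r1 r0 ξ
  have key : ∀ j, ‖ξ‖ ^ 2 - 5 / 2 * ‖(star (l j)) ξ‖ ^ 2 - 5 / 2 * ‖(star (r j)) ξ‖ ^ 2 ≤
      ‖(l j + star (l j)) ξ - (r j + star (r j)) ξ‖ ^ 2 := by
    intro j
    have e : (l j + star (l j)) ξ - (r j + star (r j)) ξ =
        (l j ξ - r j ξ) + ((star (l j)) ξ - (star (r j)) ξ) := by
      simp only [_root_.add_apply]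
      abel
    have e1 : ⟪r j ξ, l j ξ⟫_ℂ = ⟪(star (l j)) ξ, (star (r j)) ξ⟫_ℂ := by
      rw [← Gap0_adj, h j, Gap0_adj']
    have e2 : RCLike.re ⟪r j ξ, l j ξ⟫_ℂ ≤ ‖(star (l j)) ξ‖ * ‖(star (r j)) ξ‖ := by
      rw [e1]
      exact (RCLike.re_le_norm _).trans (norm_inner_le_norm _ _)
    have e3 := @norm_sub_sq ℂ _ _ _ _ (r j ξ) (l j ξ)
    rw [Gap0_norm (l1 j), Gap0_norm (r1 j), norm_sub_rev] at e3
    have e4 := Gap0_par ((star (l j)) ξ) ((star (r j)) ξ)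
    have e5 := Gap0_low (l j ξ - r j ξ) ((star (l j)) ξ - (star (r j)) ξ)
    rw [e]
    nlinarith [sq_nonneg (‖(star (l j)) ξ‖ - ‖(star (r j)) ξ‖),
      sq_nonneg (‖l j ξ - r j ξ‖ - 2 * ‖(star (l j)) ξ - (star (r j)) ξ‖)]
  have h2 := Finset.sum_le_sum fun j (_ : j ∈ Finset.univ) => key j
  rw [Finset.sum_sub_distrib, Finset.sum_sub_distrib, ← Finset.mul_sum, ← Finset.mul_sum,
    Finset.sum_const, Finset.card_univ, Fintype.card_fin, nsmul_eq_mul, Nat.cast_ofNat] at h2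
  nlinarith [sq_nonneg ‖ξ‖]

/-- the normalised sum of the two members of a pair -/
def Gap0_mx {Λ : Type} (m : Λ × Bool → (H →L[ℂ] H)) (x : Λ) : H →L[ℂ] H :=
  (((√2)⁻¹ : ℝ) : ℂ) • (m (x, false) + m (x, true))

theorem Gap0_star {Λ : Type} (m : Λ × Bool → (H →L[ℂ] H)) (x : Λ) :
    star (Gap0_mx m x) = (((√2)⁻¹ : ℝ) : ℂ) • (star (m (x, false)) + star (m (x, true))) := by
  rw [Gap0_mx, star_smul, star_add, Complex.star_def, Complex.conj_ofReal]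

theorem Gap0_mul {Λ : Type} (m m' : Λ × Bool → (H →L[ℂ] H)) (x y : Λ) :
    star (Gap0_mx m x) * Gap0_mx m' y = (1 / 2 : ℂ) • (star (m (x, false)) * m' (y, false) +
      star (m (x, false)) * m' (y, true) + star (m (x, true)) * m' (y, false) +
      star (m (x, true)) * m' (y, true)) := by
  rw [Gap0_star, Gap0_mx, smul_mul_smul_comm, Ops_sq, add_mul, mul_add, mul_add, ← add_assoc]

theorem Gap0_one {Λ : Type} {m : Λ × Bool → (H →L[ℂ] H)} (m1 : ∀ j, star (m j) * m j = 1)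
    (m0 : ∀ i j, i ≠ j → star (m i) * m j = 0) (x : Λ) :
    star (Gap0_mx m x) * Gap0_mx m x = 1 := by
  rw [Gap0_mul, m1, m1, m0 _ _ (by simp), m0 _ _ (by simp), add_zero, add_zero, ← two_smul ℂ,
    smul_smul]
  norm_num

theorem Gap0_zero {Λ : Type} {m : Λ × Bool → (H →L[ℂ] H)}
    (m0 : ∀ i j, i ≠ j → star (m i) * m j = 0) {x y : Λ} (h : x ≠ y) :
    star (Gap0_mx m x) * Gap0_mx m y = 0 := by
  rw [Gap0_mul, m0 _ _ (by simp [h]), m0 _ _ (by simp [h]), m0 _ _ (by simp [h]),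
    m0 _ _ (by simp [h])]
  simp

theorem Gap0_split {Λ : Type} {c : Λ → A} {m : Λ × Bool → (H →L[ℂ] H)} (φ : A →ₗ[ℂ] (H →L[ℂ] H))
    (h : ∀ i, φ (cb c i) = m i + star (m (flip i))) (x : Λ) :
    φ (reP (c x)) = Gap0_mx m x + star (Gap0_mx m x) := by
  have h1 : φ (c x) = m (x, false) + star (m (x, true)) := h (x, false)
  have h2 : φ (star (c x)) = m (x, true) + star (m (x, false)) := h (x, true)
  rw [Gap0_star, Gap0_mx, reP, map_smul, map_add, h1, h2, ← smul_add]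
  congr 1
  abel

theorem IsModel.gap {e : ℕ → ι → ι → A} {Λ : Type} {c : Λ → A} {ℓ r : Λ × Bool → (H →L[ℂ] H)}
    (h : IsModel T e c ℓ r) (f : Fin 144 → Λ) (hf : Function.Injective f) :
    GapIn T (fun j => reP (c (f j))) {1} := by
  intro y
  refine ⟨T.τ y • (1 : A), Submodule.smul_mem _ _ (Submodule.subset_span rfl), ?_⟩
  have hξ : ⟪T.Ω, T.v (y - T.τ y • (1 : A))⟫_ℂ = 0 := by
    rw [← T.τ_def, map_sub, map_smul, T.τ_one, smul_eq_mul, mul_one, sub_self]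
  have hL : ∀ x, T.L (reP (c x)) = Gap0_mx ℓ x + star (Gap0_mx ℓ x) := fun x =>
    Gap0_split (T.L : A →ₗ[ℂ] (H →L[ℂ] H)) h.cc.split x
  have hR : ∀ x, T.R (reP (c x)) = Gap0_mx r x + star (Gap0_mx r x) := fun x =>
    Gap0_split T.R h.rsplit x
  have key := Gap0_core (fun j => Gap0_mx ℓ (f j)) (fun j => Gap0_mx r (f j))
    (fun j => Gap0_one h.cc.iso (fun _ _ => h.cc.orth) _)
    (fun i j hij => Gap0_zero (fun _ _ => h.cc.orth) (hf.ne hij))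
    (fun j => Gap0_one h.r_same h.r_diff _)
    (fun i j hij => Gap0_zero h.r_diff (hf.ne hij)) (T.v (y - T.τ y • (1 : A))) fun j => by
      have e1 := h.rl_same (f j, false) (T.v (y - T.τ y • (1 : A)))
      have e2 := h.rl_same (f j, true) (T.v (y - T.τ y • (1 : A)))
      have e3 := congrArg (fun X : H →L[ℂ] H => X (T.v (y - T.τ y • (1 : A))))
        (h.rl_diff (f j, false) (f j, true) (by simp))
      have e4 := congrArg (fun X : H →L[ℂ] H => X (T.v (y - T.τ y • (1 : A))))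
        (h.rl_diff (f j, true) (f j, false) (by simp))
      rw [hξ, zero_smul, add_zero] at e1 e2
      simp only [mul_apply_eq_comp] at e3 e4
      rw [Gap0_star]
      simp only [Gap0_mx, _root_.smul_apply, _root_.add_apply, map_smul,
        map_add, e1, e2, e3, e4, smul_add]
      abel
  refine key.trans (le_of_eq (Finset.sum_congr rfl fun j _ => ?_))
  rw [← hL, ← hR, ← T.v_mul, T.R_v, ← map_sub, T.n2_def]
  congr 3
  rw [mul_sub, sub_mul, mul_smul_comm, smul_mul_assoc, mul_one, one_mul]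
  abel


theorem IsModel.sf {e : ℕ → ι → ι → A} {Λ : Type} {c : Λ → A} {ℓ r : Λ × Bool → (H →L[ℂ] H)}
    (h : IsModel T e c ℓ r) (f : Fin 144 → Λ) (hf : Function.Injective f) :
    SF T fun j => reP (c (f j)) := 
  (h.circ.semi.sub (fun j => (f j, false)) fun _ _ e => hf (congrArg Prod.fst e)).sf


theorem GapIn.cen {s : Fin 144 → A} (h : GapIn T s {1}) : Cen A := by
  intro x hx
  obtain ⟨g, hg, h1⟩ := h x
  obtain ⟨a, rfl⟩ := Submodule.mem_span_singleton.1 hg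
  refine ⟨a, sub_eq_zero.1 (T.n2_eq_zero.1 ?_)⟩
  simp only [hx, sub_self, T.n2_zero, ne_eq, OfNat.ofNat_ne_zero, not_false_eq_true, zero_pow,
    Finset.sum_const_zero] at h1
  have h2 : T.n2 (x - a • (1 : A)) ^ 2 = 0 := le_antisymm (by linarith) (sq_nonneg _)
  exact pow_eq_zero_iff two_ne_zero |>.1 h2


theorem GapIn.amp {s : Fin 144 → A} (h : GapIn T s {1}) {e : ι → ι → A} (he : MU e)
    {ρ : A →⋆ₐ[ℂ] A} (hρ : TP T T ρ) (hr : ∀ x, Cm e x ↔ ∃ y, ρ y = x) :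
    GapIn T (fun j => ρ (s j)) (mus e) := by
  intro y
  obtain ⟨w, hw, rfl⟩ := decomp he y
  choose z hz using fun i k => (hr (w i k)).1 (hw i k)
  choose g hg hle using fun i k => h (z i k)
  choose a ha using fun i k => Submodule.mem_span_singleton.1 (hg i k)
  have hc : ∀ x, Cm e (ρ x) := fun x => (hr _).2 ⟨x, rfl⟩
  refine ⟨∑ i, ∑ k, a i k • e i k, Submodule.sum_mem _ fun i _ => Submodule.sum_mem _ fun k _ =>
    Submodule.smul_mem _ _ (Submodule.subset_span (mem_mus i k)), ?_⟩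
  have e1 : ∑ i, ∑ k, e i k * w i k - ∑ i, ∑ k, a i k • e i k =
      ∑ i, ∑ k, e i k * ρ (z i k - g i k) := by
    rw [← Finset.sum_sub_distrib]
    refine Finset.sum_congr rfl fun i _ => ?_
    rw [← Finset.sum_sub_distrib]
    refine Finset.sum_congr rfl fun k _ => ?_
    rw [map_sub, hz, ← ha, map_smul, map_one, mul_sub, mul_smul_comm, mul_one]
  have e2 : ∀ j, ρ (s j) * ∑ i, ∑ k, e i k * w i k - (∑ i, ∑ k, e i k * w i k) * ρ (s j) =
      ∑ i, ∑ k, e i k * ρ (s j * z i k - z i k * s j) := by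
    intro j
    rw [Finset.mul_sum, Finset.sum_mul, ← Finset.sum_sub_distrib]
    refine Finset.sum_congr rfl fun i _ => ?_
    rw [Finset.mul_sum, Finset.sum_mul, ← Finset.sum_sub_distrib]
    refine Finset.sum_congr rfl fun k _ => ?_
    rw [map_sub, map_mul, map_mul, hz, mul_sub, ← mul_assoc, ← hc (s j) i k, mul_assoc, mul_assoc]
  simp only [e1, e2, n2_decomp T he fun _ _ => hc _, hρ.n2]
  rw [← Finset.sum_div, ← mul_div_assoc]
  refine div_le_div_of_nonneg_right ?_ (Nat.cast_nonneg _)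
  rw [Finset.mul_sum, Finset.sum_comm (s := (Finset.univ : Finset (Fin 144)))]
  refine Finset.sum_le_sum fun i _ => ?_
  rw [Finset.mul_sum, Finset.sum_comm (s := (Finset.univ : Finset (Fin 144)))]
  exact Finset.sum_le_sum fun k _ => hle i k


theorem SF.sa {s : Fin 144 → A} (h : SF T s) (j : Fin 144) : IsSelfAdjoint (s j) := by
  obtain ⟨l, h1, -, -⟩ := h
  refine T.L_inj ?_
  rw [map_star, h1, star_add, star_star, add_comm]


theorem SF.norm_le {s : Fin 144 → A} (h : SF T s) (j : Fin 144) : ‖s j‖ ≤ 2 := by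
  obtain ⟨l, h1, h2, -⟩ := h
  have h3 : ‖l j‖ ≤ 1 := by
    refine ContinuousLinearMap.opNorm_le_bound _ zero_le_one fun a => ?_
    rw [one_mul]
    exact ((pow_left_inj₀ (norm_nonneg _) (norm_nonneg _) two_ne_zero).1 (Gap0_norm (h2 j) a)).le
  rw [← T.norm_L, h1]
  refine (norm_add_le _ _).trans ?_
  rw [norm_star]
  linarith


theorem Gap0_form (a : Fin 144 → (H →L[ℂ] H)) (ha : ∀ j, IsSelfAdjoint (a j)) (ξ : H) :
    RCLike.re ⟪ξ, (∑ j, a j * a j) ξ⟫_ℂ = ∑ j, ‖a j ξ‖ ^ 2 := by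
  rw [_root_.sum_apply, inner_sum, map_sum]
  refine Finset.sum_congr rfl fun j _ => ?_
  rw [@norm_sq_eq_re_inner ℂ, Gap0_inner, (ha j).star_eq]

theorem SF.lower {s : Fin 144 → A} (h : SF T s) :
    Pos (∑ j, s j * s j - (121 : ℂ) • (1 : A)) := by
  have hs : ∀ j, IsSelfAdjoint (T.L (s j)) := fun j => by
    rw [IsSelfAdjoint, ← map_star, (h.sa j).star_eq]
  obtain ⟨l, h1, h2, h3⟩ := h
  rw [T.pos_iff, ContinuousLinearMap.nonneg_iff_isPositive, ContinuousLinearMap.isPositive_def']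
  have e : T.L (∑ j, s j * s j - (121 : ℂ) • (1 : A)) =
      ∑ j, T.L (s j) * T.L (s j) - (121 : ℂ) • 1 := by
    simp only [map_sub, map_sum, map_mul, map_smul, map_one]
  rw [e]
  constructor
  · rw [IsSelfAdjoint, star_sub, star_sum, star_smul, star_one]
    simp only [star_mul, (hs _).star_eq, star_ofNat]
  · intro ξ
    rw [ContinuousLinearMap.reApplyInnerSelf_apply, inner_re_symm, _root_.sub_apply,
      inner_sub_right, map_sub, Gap0_form _ hs, _root_.smul_apply,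
      one_apply_eq_self, inner_smul_right]
    have e1 : RCLike.re ((121 : ℂ) * ⟪ξ, ξ⟫_ℂ) = 121 * ‖ξ‖ ^ 2 := by
      rw [@norm_sq_eq_re_inner ℂ]
      simp
    rw [e1]
    have hb := bessel_iso l h2 h3 ξ
    have key : ∀ j, 11 / 12 * ‖ξ‖ ^ 2 - 11 * ‖(star (l j)) ξ‖ ^ 2 ≤ ‖T.L (s j) ξ‖ ^ 2 := by
      intro j
      rw [h1, _root_.add_apply, ← Gap0_norm (h2 j) ξ]
      have e5 := Gap0_low (l j ξ) ((star (l j)) ξ)
      nlinarith [sq_nonneg (‖l j ξ‖ - 12 * ‖(star (l j)) ξ‖)]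
    have h4 := Finset.sum_le_sum fun j (_ : j ∈ Finset.univ) => key j
    rw [Finset.sum_sub_distrib, ← Finset.mul_sum _ _ (11 : ℝ), Finset.sum_const, Finset.card_univ,
      Fintype.card_fin, nsmul_eq_mul, Nat.cast_ofNat] at h4
    linarith


theorem SF.lower_hom {T' : TW A' H'} {s : Fin 144 → A} (h : SF T s) (κ : A →⋆ₙₐ[ℂ] A') {ξ : H'}
    (hξ : T'.L (κ 1) ξ = ξ) : 121 * ‖ξ‖ ^ 2 ≤ ∑ j, ‖T'.L (κ (s j)) ξ‖ ^ 2 := by
  obtain ⟨y, hy⟩ := h.lower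
  have hs : ∀ j, IsSelfAdjoint (T'.L (κ (s j))) := fun j => by
    rw [IsSelfAdjoint, ← map_star, ← map_star, (h.sa j).star_eq]
  have e : ∑ j, T'.L (κ (s j)) * T'.L (κ (s j)) - (121 : ℂ) • T'.L (κ 1) =
      star (T'.L (κ y)) * T'.L (κ y) := by
    have e0 := congrArg (fun x => T'.L (κ x)) hy
    simpa only [map_sub, map_sum, map_mul, map_smul, map_star] using e0
  have e2 := congrArg (fun X : H' →L[ℂ] H' => RCLike.re ⟪ξ, X ξ⟫_ℂ) e
  rw [_root_.sub_apply, inner_sub_right, map_sub, Gap0_form _ hs,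
    _root_.smul_apply, hξ, inner_smul_right, ← Gap0_inner,
    ← @norm_sq_eq_re_inner ℂ] at e2
  have e1 : RCLike.re ((121 : ℂ) * ⟪ξ, ξ⟫_ℂ) = 121 * ‖ξ‖ ^ 2 := by
    rw [@norm_sq_eq_re_inner ℂ]
    simp
  rw [e1] at e2
  linarith [sq_nonneg ‖T'.L (κ y) ξ‖]


theorem gap_of_form (a b : Fin 144 → (H →L[ℂ] H)) (ha : ∀ j, IsSelfAdjoint (a j)) (ξ : H)
    (h1 : 121 * ‖ξ‖ ^ 2 ≤ ∑ j, ‖a j ξ‖ ^ 2) (h2 : ‖⟪ξ, ∑ j, a j (b j ξ)⟫_ℂ‖ ≤ 48 * ‖ξ‖ ^ 2) :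
    25 * ‖ξ‖ ^ 2 ≤ ∑ j, ‖a j ξ - b j ξ‖ ^ 2 := by
  have key : ∀ j, ‖a j ξ‖ ^ 2 - 2 * RCLike.re ⟪ξ, a j (b j ξ)⟫_ℂ ≤ ‖a j ξ - b j ξ‖ ^ 2 := by
    intro j
    rw [@norm_sub_sq ℂ, ← Gap0_adj (a j), (ha j).star_eq]
    linarith [sq_nonneg ‖b j ξ‖]
  have h3 := Finset.sum_le_sum fun j (_ : j ∈ Finset.univ) => key j
  rw [Finset.sum_sub_distrib, ← Finset.mul_sum, ← map_sum, ← inner_sum] at h3
  have h4 := (RCLike.re_le_norm _).trans h2
  linarith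



end Pool.Agent.TS
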