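import Pool.Agent.P.MP_e05717_an.T1
import Pool.Agent.P.MP_e05717_an.Gap0

/-!
Row TS-Gap. The spectral gap in a corner of the double (paper GAP).
Hints: `E` = projection of `T'.exists_proj` for the range of `ι'` (`StarAlgHom.range` or the image of
`⊤`); `ξ₁ = E (v y)`, `ξ₂ = v y - ξ₁ ∈ Kc` (`SplitD`, the two generating sets are orthogonal by
`Coarse.vac`). The commutators split orthogonally. For `ξ₂`: `t1` for the homomorphism `π ∘ σ`,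
`SF.lower_hom`, `gap_of_form`. For `ξ₁`: approximate by `v (ι' (π y₀))` (cut by `ι' (π 1)` on both sides,
`hsur`), `n2 (ι' (π x))² = re τ (π 1) * n2 x²` with `re τ (π 1) ≤ 1` and nonnegative, `hg`, and
`‖ξ₁‖ ≤ ‖ξ₁ - v (ι' (π f))‖` by orthogonality.
-/

open scoped ComplexOrder InnerProductSpace ComplexConjugate ENNReal
open Filter Topology Pool.Agent.P.MP_5d580a_an

set_option linter.unusedSectionVars false
set_option linter.unusedVariables false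

noncomputable section

namespace Pool.Agent.TS

variable {A H : Type} [CStarAlgebra A] [NormedAddCommGroup H] [InnerProductSpace ℂ H]
  [CompleteSpace H]
variable {A' H' : Type} [CStarAlgebra A'] [NormedAddCommGroup H'] [InnerProductSpace ℂ H']
  [CompleteSpace H']

theorem Gap_pyth {E : H →L[ℂ] H} (hE : IsStarProjection E) (ξ : H) :
    ‖ξ‖ ^ 2 = ‖E ξ‖ ^ 2 + ‖ξ - E ξ‖ ^ 2 := by
  have h : ⟪E ξ, ξ - E ξ⟫_ℂ = 0 := by
    rw [hE.isSelfAdjoint.isSymmetric.apply_clm, map_sub, ← mul_apply_eq_comp E E,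
      hE.isIdempotentElem.eq, sub_self, inner_zero_right]
  have h2 := norm_add_sq_eq_norm_sq_add_norm_sq_of_inner_eq_zero (𝕜 := ℂ) _ _ h
  rw [add_sub_cancel] at h2
  simpa only [sq] using h2

theorem Gap_n2 {T : TW A H} (π : A →⋆ₙₐ[ℂ] A) (hπ : ∀ x, T.τ (π x) = T.τ (π 1) * T.τ x) (x : A) :
    T.n2 (π x) ^ 2 = T.n2 (π 1) ^ 2 * T.n2 x ^ 2 := by
  have e2 : T.τ (π 1) = ((T.n2 (π 1) ^ 2 : ℝ) : ℂ) := by
    rw [← T.τ_star_mul_self, ← map_star, ← map_mul, star_one, mul_one]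
  have e1 := hπ (star x * x)
  rw [map_mul, map_star, T.τ_star_mul_self, T.τ_star_mul_self, e2] at e1
  exact_mod_cast e1

theorem Gap_coarse {T : TW A H} {T' : TW A' H'} {ι' : A →⋆ₐ[ℂ] A'} {I : Type}
    {lt : I → (H' →L[ℂ] H')} (hC : Coarse T T' ι' lt) (hD : SplitD T' ι' lt) {E : H' →L[ℂ] H'}
    (hE : IsStarProjection E) (h1 : ∀ x, E (T'.v (ι' x)) = T'.v (ι' x))
    (h2 : ∀ ξ, E ξ ∈ closure (Set.range fun x => T'.v (ι' x))) (ξ : H') :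
    ξ - E ξ ∈ Kc T' ι' lt := by
  have hk : ∀ k ∈ Kg T' ι' lt, E k = 0 := by
    rintro _ ⟨x, i, η, rfl⟩
    have h3 : ∀ ζ ∈ closure (Set.range fun x => T'.v (ι' x)),
        ⟪ζ, T'.L (ι' x) (lt i η)⟫_ℂ = 0 := by
      refine closure_minimal ?_ (isClosed_eq (by fun_prop) continuous_const)
      rintro _ ⟨z, rfl⟩
      show ⟪T'.v (ι' z), T'.L (ι' x) (lt i η)⟫_ℂ = 0
      have h4 := hC.vac i (star x * z)
      rw [map_mul, T'.v_mul, map_star, map_star] at h4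
      rw [← ContinuousLinearMap.adjoint_inner_left, ← ContinuousLinearMap.adjoint_inner_left,
        ← ContinuousLinearMap.star_eq_adjoint, ← ContinuousLinearMap.star_eq_adjoint, h4,
        inner_zero_left]
    have h5 := h3 _ (h2 (T'.L (ι' x) (lt i η)))
    rw [← inner_self_eq_zero (𝕜 := ℂ), hE.isSelfAdjoint.isSymmetric.apply_clm,
      ← mul_apply_eq_comp E E, hE.isIdempotentElem.eq,
      ← hE.isSelfAdjoint.isSymmetric.apply_clm, h5]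
  refine map_mem_closure (f := fun ξ => ξ - E ξ) (by fun_prop) (hD ξ) fun η hη => ?_
  show η - E η ∈ Submodule.span ℂ (Kg T' ι' lt)
  induction hη using Submodule.span_induction with
  | mem k hk' =>
    rcases hk' with ⟨x, rfl⟩ | hk'
    · simp [h1]
    · rw [hk k hk', sub_zero]
      exact Submodule.subset_span hk'
  | zero => simp
  | add a b _ _ ha hb =>
    rw [map_add, add_sub_add_comm]
    exact Submodule.add_mem _ ha hb
  | smul c a _ ha =>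
    rw [map_smul, ← smul_sub]
    exact Submodule.smul_mem _ c ha

theorem gap_tilde {T : TW A H} {T' : TW A' H'} {ι' : A →⋆ₐ[ℂ] A'} {I : Type}
    {lt : I → (H' →L[ℂ] H')} (hC : Coarse T T' ι' lt) (hι : TP T T' ι') (hD : SplitD T' ι' lt)
    (π : A →⋆ₙₐ[ℂ] A) (hπ : ∀ x, T.τ (π x) = T.τ (π 1) * T.τ x)
    (hsur : ∀ x, ∃ y, π y = π 1 * x * π 1) {σ : A →⋆ₐ[ℂ] A} (hσ : TP T T σ) {s : Fin 144 → A}
    (hs : SF T s) {F : Set A} (hg : GapIn T (fun j => σ (s j)) F) {y : A'}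
    (h1 : ι' (π 1) * y = y) (h2 : y * ι' (π 1) = y)
    (ho : ∀ f ∈ F, T'.τ (star (ι' (π f)) * y) = 0) :
    25 * T'.n2 y ^ 2 ≤ ∑ j, T'.n2 (ι' (π (σ (s j))) * y - y * ι' (π (σ (s j)))) ^ 2 := by
  obtain ⟨E, hE, hE1, hE2, hE3⟩ := T'.exists_proj (StarSubalgebra.map ι' ⊤)
  have hm : ∀ x, ι' x ∈ StarSubalgebra.map ι' ⊤ := fun x => ⟨x, trivial, rfl⟩
  have hE2' : ∀ ξ, E ξ ∈ closure (Set.range fun x => T'.v (ι' x)) := fun ξ =>
    closure_mono (by rintro _ ⟨_, ⟨x, -, rfl⟩, rfl⟩; exact ⟨x, rfl⟩) (hE2 ξ)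
  have hL : ∀ x ξ, E (T'.L (ι' x) ξ) = T'.L (ι' x) (E ξ) := fun x ξ =>
    congrArg (fun X : H' →L[ℂ] H' => X ξ) (hE3 _ (hm x)).1
  have hR : ∀ x ξ, E (T'.R (ι' x) ξ) = T'.R (ι' x) (E ξ) := fun x ξ =>
    congrArg (fun X : H' →L[ℂ] H' => X ξ) (hE3 _ (hm x)).2
  obtain ⟨D, hDd⟩ : ∃ D : Fin 144 → (H' →L[ℂ] H'),
      ∀ j ξ, D j ξ = T'.L (ι' (π (σ (s j)))) ξ - T'.R (ι' (π (σ (s j)))) ξ :=
    ⟨fun j => T'.L (ι' (π (σ (s j)))) - T'.R (ι' (π (σ (s j)))), fun _ _ => rfl⟩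
  have hDv : ∀ j z, D j (T'.v z) = T'.v (ι' (π (σ (s j))) * z - z * ι' (π (σ (s j)))) :=
    fun j z => by rw [hDd, map_sub, T'.v_mul, T'.R_v]
  have hDE : ∀ j ξ, E (D j ξ) = D j (E ξ) := fun j ξ => by rw [hDd, hDd, map_sub, hL, hR]
  have hq : T'.L (ι' (π 1)) (T'.v y) = T'.v y := by rw [← T'.v_mul, h1]
  have hq' : T'.R (ι' (π 1)) (T'.v y) = T'.v y := by rw [T'.R_v, h2]
  have part2 : 25 * ‖T'.v y - E (T'.v y)‖ ^ 2 ≤ ∑ j, ‖D j (T'.v y - E (T'.v y))‖ ^ 2 := by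
    let π' : A →⋆ₙₐ[ℂ] A := π.comp (σ : A →⋆ₙₐ[ℂ] A)
    have hπ' : ∀ x, π' x = π (σ x) := fun _ => rfl
    have hsa : ∀ j, IsSelfAdjoint (π (σ (s j))) := fun j => by
      rw [IsSelfAdjoint, ← map_star, ← map_star, (hs.sa j).star_eq]
    have h3 := t1 hC π' (fun x => by rw [hπ', hπ', map_one, hπ, hσ]) hs (fun j => π (σ (s j)))
      (fun j => ⟨hsa j, (nhom_norm_le π _).trans ((hom_norm_le σ _).trans (hs.norm_le j))⟩)
      (Gap_coarse hC hD hE (fun x => hE1 _ (hm x)) hE2' (T'.v y))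
    have h4 := hs.lower_hom (T' := T') ((ι' : A →⋆ₙₐ[ℂ] A').comp π') (ξ := T'.v y - E (T'.v y)) (by
      show T'.L (ι' (π (σ 1))) _ = _
      rw [map_one, map_sub, ← hL, hq])
    simp only [hDd]
    refine gap_of_form (fun j => T'.L (ι' (π (σ (s j))))) (fun j => T'.R (ι' (π (σ (s j)))))
      (fun j => ?_) _ h4 ?_
    · rw [IsSelfAdjoint, ← map_star, ← map_star, (hsa j).star_eq]
    · refine (norm_inner_le_norm _ _).trans ?_
      refine (mul_le_mul_of_nonneg_left h3 (norm_nonneg _)).trans (le_of_eq ?_)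
      ring
  have part1 : 25 * ‖E (T'.v y)‖ ^ 2 ≤ ∑ j, ‖D j (E (T'.v y))‖ ^ 2 := by
    obtain ⟨ξ, hξ⟩ : ∃ ξ, ξ = E (T'.v y) := ⟨_, rfl⟩
    have hQ : T'.L (ι' (π 1)) (T'.R (ι' (π 1)) ξ) = ξ := by rw [hξ, ← hR, ← hL, hq', hq]
    have horth : ∀ f ∈ Submodule.span ℂ F, ⟪T'.v (ι' (π f)), ξ⟫_ℂ = 0 := by
      intro f hf
      rw [hξ, ← hE.isSelfAdjoint.isSymmetric.apply_clm, hE1 _ (hm _)]
      induction hf using Submodule.span_induction with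
      | mem f hf => rw [T'.inner_v, ho f hf]
      | zero => simp
      | add a b _ _ ha hb => rw [map_add, map_add, map_add, inner_add_left, ha, hb, add_zero]
      | smul c a _ ha => rw [map_smul, map_smul, map_smul, inner_smul_left, ha, mul_zero]
    have hcl : ∀ η ∈ closure (Set.range fun x => T'.v (ι' (π x))),
        25 * ‖⟪η, ξ⟫_ℂ‖ ^ 2 ≤ (∑ j, ‖D j η‖ ^ 2) * ‖ξ‖ ^ 2 := by
      have hc : IsClosed {η : H' | 25 * ‖⟪η, ξ⟫_ℂ‖ ^ 2 ≤ (∑ j, ‖D j η‖ ^ 2) * ‖ξ‖ ^ 2} :=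
        isClosed_le (by fun_prop) (by fun_prop)
      refine closure_minimal ?_ hc
      rintro _ ⟨x, rfl⟩
      obtain ⟨f, hf, hx⟩ := hg x
      have e1 : ⟪T'.v (ι' (π x)), ξ⟫_ℂ = ⟪T'.v (ι' (π (x - f))), ξ⟫_ℂ := by
        rw [map_sub, map_sub, map_sub, inner_sub_left, horth f hf, sub_zero]
      have e2 : ∀ j, ‖D j (T'.v (ι' (π x)))‖ ^ 2 =
          T.n2 (π 1) ^ 2 * T.n2 (σ (s j) * x - x * σ (s j)) ^ 2 := fun j => by
        rw [hDv, ← Gap_n2 π hπ, ← hι.n2]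
        simp only [map_sub, map_mul, T'.n2_def]
      have e3 : ‖⟪T'.v (ι' (π (x - f))), ξ⟫_ℂ‖ ^ 2 ≤
          T.n2 (π 1) ^ 2 * T.n2 (x - f) ^ 2 * ‖ξ‖ ^ 2 := by
        rw [← Gap_n2 π hπ, ← hι.n2, ← mul_pow]
        exact pow_le_pow_left₀ (norm_nonneg _) (norm_inner_le_norm _ _) 2
      show 25 * ‖⟪T'.v (ι' (π x)), ξ⟫_ℂ‖ ^ 2 ≤ (∑ j, ‖D j (T'.v (ι' (π x)))‖ ^ 2) * ‖ξ‖ ^ 2
      simp only [e1, e2, ← Finset.mul_sum]
      have e4 := mul_le_mul_of_nonneg_left hx (mul_nonneg (sq_nonneg (T.n2 (π 1))) (sq_nonneg ‖ξ‖))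
      linarith
    have hmem : ξ ∈ closure (Set.range fun x => T'.v (ι' (π x))) := by
      rw [← hQ]
      refine map_mem_closure (f := fun η => T'.L (ι' (π 1)) (T'.R (ι' (π 1)) η)) (by fun_prop)
        (hξ ▸ hE2' (T'.v y)) ?_
      rintro _ ⟨x, rfl⟩
      obtain ⟨z, hz⟩ := hsur x
      refine ⟨z, ?_⟩
      show T'.v (ι' (π z)) = T'.L (ι' (π 1)) (T'.R (ι' (π 1)) (T'.v (ι' x)))
      rw [hz, T'.R_v, ← T'.v_mul, map_mul ι', map_mul ι', mul_assoc]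
    have h5 := hcl ξ hmem
    rw [inner_self_eq_norm_sq_to_K, norm_pow, RCLike.norm_ofReal, abs_norm] at h5
    rw [← hξ]
    rcases (sq_nonneg ‖ξ‖).eq_or_lt with h6 | h6
    · rw [← h6, mul_zero]
      exact Finset.sum_nonneg fun j _ => sq_nonneg _
    · refine le_of_mul_le_mul_right ?_ h6
      linarith
  have e5 : ∀ j, T'.n2 (ι' (π (σ (s j))) * y - y * ι' (π (σ (s j)))) ^ 2 =
      ‖D j (E (T'.v y))‖ ^ 2 + ‖D j (T'.v y - E (T'.v y))‖ ^ 2 := fun j => by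
    rw [T'.n2_def, ← hDv, Gap_pyth hE (D j (T'.v y)), hDE, map_sub]
  simp only [e5, Finset.sum_add_distrib]
  rw [T'.n2_def, Gap_pyth hE (T'.v y)]
  linarith

end Pool.Agent.TS
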