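import Pool.Agent.P.MP_e05717_an.T1
import Pool.Agent.P.MP_e05717_an.Gap0

/-!
Row TS-T2. No intertwiner between the two free copies (paper T2).
Hints: an element of the span is a finite sum `ξ = ∑ r, v (κ (x r) * z r)` with `z r ∈ Z` (absorb the
scalars in `x r`; `Submodule.mem_span_set'` or `Finsupp.mem_span_range_iff_exists_finsupp`).
`ζ k = √N ∑ r b, L' (ι' (x r * E b 0)) (lt i₀ (v (ι' (E 0 b) * z r))) ∈ Kc` (`N k > 0` because `A` is
nontrivial). `⟪ζ k, L' (ι' y) (R' (ι' w) (ζ k))⟫ = ∑ r' r, τ' (star (z r') * ι' (cex (star (x r') * y * x r))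
* (z r * ι' w))` tends to `⟪ξ, L' (κ y) (R' (ι' w) ξ)⟫`. Use `y = w = 1` and `y = w = π (s j)`, `t1`,
density, `SF.lower_hom` for `κ ∘ π`, `gap_of_form`.
-/

open scoped ComplexOrder InnerProductSpace ComplexConjugate ENNReal
open Filter Topology Pool.Agent.P.MP_5d580a_an

set_option linter.unusedSectionVars false
set_option linter.unusedVariables false

noncomputable section

namespace Pool.Agent.TS

variable {A H : Type} [CStarAlgebra A] [NormedAddCommGroup H] [InnerProductSpace ℂ H]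
  [CompleteSpace H]
variable {A' H' : Type} [CStarAlgebra A'] [NormedAddCommGroup H'] [InnerProductSpace ℂ H']
  [CompleteSpace H']

theorem T2_inner {T : TW A H} {T' : TW A' H'} {ι' : A →⋆ₐ[ℂ] A'} {I : Type}
    {lt : I → (H' →L[ℂ] H')} (hC : Coarse T T' ι' lt) (i : I) (a b : A) (η η' : H') :
    ⟪T'.L (ι' a) (lt i η), T'.L (ι' b) (lt i η')⟫_ℂ = T.τ (star a * b) * ⟪η, η'⟫_ℂ := by
  have h := congrArg (fun S : H' →L[ℂ] H' => ⟪η, S η'⟫_ℂ) (hC.same i (star a * b))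
  simp only [mul_apply_eq_comp, map_mul, map_star, smul_apply,
    one_apply_eq_self, inner_smul_right, inner_star_right] at h
  exact h

/-- the approximating vector of a generator -/
def T2_zeta (T' : TW A' H') (ι' : A →⋆ₐ[ℂ] A') (l : H' →L[ℂ] H') {n : ℕ} (E : Fin n → Fin n → A)
    (o : Fin n) (x : A) (z : A') : H' :=
  ∑ b, T'.L (ι' (x * E b o)) (l (T'.v (ι' (E o b) * z)))

theorem T2_gen {T : TW A H} {T' : TW A' H'} {ι' : A →⋆ₐ[ℂ] A'} {I : Type}
    {lt : I → (H' →L[ℂ] H')} (hC : Coarse T T' ι' lt) (i : I) {n : ℕ} {E : Fin n → Fin n → A}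
    (hE : MU E) (o : Fin n) (x x' y w : A) (z z' : A') :
    (n : ℂ) * ⟪T2_zeta T' ι' (lt i) E o x' z',
        T'.L (ι' y) (T'.R (ι' w) (T2_zeta T' ι' (lt i) E o x z))⟫_ℂ =
      T'.τ (star z' * ι' (cex T.τ E (star x' * y * x)) * (z * ι' w)) := by
  have hm : ∀ b c, E b o * E o c = E b c := fun b c => (hE.mul b o o c).trans (if_pos rfl)
  have e1 : T'.L (ι' y) (T'.R (ι' w) (T2_zeta T' ι' (lt i) E o x z)) =
      ∑ b, T'.L (ι' (y * (x * E b o))) (lt i (T'.v (ι' (E o b) * (z * ι' w)))) := by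
    rw [T2_zeta, map_sum, map_sum]
    refine Finset.sum_congr rfl fun b _ => ?_
    have h := congrArg (fun S : H' →L[ℂ] H' => S (T'.v (ι' (E o b) * z))) (hC.comm i w)
    simp only [mul_apply_eq_comp] at h
    rw [← T'.L_R_apply, ← h, T'.R_v, map_mul ι' y, map_mul T'.L, mul_apply_eq_comp, mul_assoc]
  rw [e1, T2_zeta, inner_sum, cex, map_smul, mul_smul_comm, smul_mul_assoc, map_smul,
    Fintype.card_fin, smul_eq_mul, map_sum, Finset.mul_sum _ _ (star z'), Finset.sum_mul, map_sum]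
  congr 1
  refine Finset.sum_congr rfl fun b _ => ?_
  rw [sum_inner, map_sum, Finset.mul_sum, Finset.sum_mul, map_sum]
  refine Finset.sum_congr rfl fun c _ => ?_
  rw [T2_inner hC, T'.inner_v, map_smul, mul_smul_comm, smul_mul_assoc, map_smul, smul_eq_mul]
  congr 1
  · rw [star_mul, hE.star, ← hm b c, mul_assoc (E b o), T.τ_comm (E b o)]
    simp only [mul_assoc]
  · rw [star_mul, ← map_star, hE.star, ← hm c b, map_mul ι']
    simp only [mul_assoc]

theorem T2_form {T : TW A H} {T' : TW A' H'} {ι' κ : A →⋆ₐ[ℂ] A'} {I : Type} [Nonempty I]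
    {lt : I → (H' →L[ℂ] H')} (hC : Coarse T T' ι' lt) (hA : Amen T T' ι' κ) {m : ℕ}
    (y w : Fin m → A) {c : ℝ}
    (h : ∀ ζ ∈ Kc T' ι' lt, ‖∑ j, T'.L (ι' (y j)) (T'.R (ι' (w j)) ζ)‖ ≤ c * ‖ζ‖) (ξ : H') :
    ‖⟪ξ, ∑ j, T'.L (κ (y j)) (T'.R (ι' (w j)) ξ)⟫_ℂ‖ ≤ c * ‖ξ‖ ^ 2 := by
  obtain ⟨Z, hZ, hd, N, E, hE, hl⟩ := hA
  obtain ⟨i⟩ := ‹Nonempty I›
  have ho : ∀ k, Nonempty (Fin (N k)) := fun k => by
    by_contra hn
    rw [not_nonempty_iff] at hn
    have h1 := (hE k).sum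
    have h2 := T.norm_one
    rw [← h1, Finset.univ_eq_empty, Finset.sum_empty, norm_zero] at h2
    exact zero_ne_one h2
  let o : ∀ k, Fin (N k) := fun k => (ho k).some
  let G : Set (H' × (ℕ → H')) := {p | ∃ x, ∃ z ∈ Z,
    p = (T'.v (κ x * z), fun k => T2_zeta T' ι' (lt i) (E k) (o k) x z)}
  have k1 : ∀ p ∈ Submodule.span ℂ G, ∀ k, p.2 k ∈ Submodule.span ℂ (Kg T' ι' lt) := by
    intro p hp k
    induction hp using Submodule.span_induction with
    | mem p hp =>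
      obtain ⟨x, z, -, rfl⟩ := hp
      change T2_zeta T' ι' (lt i) (E k) (o k) x z ∈ _
      rw [T2_zeta]
      exact Submodule.sum_mem _ fun b _ => Submodule.subset_span ⟨_, _, _, rfl⟩
    | zero => exact zero_mem _
    | add p q _ _ h1 h2 => exact add_mem h1 h2
    | smul a p _ h1 => exact Submodule.smul_mem _ a h1
  have k2 : ∀ y w : A, ∀ p ∈ Submodule.span ℂ G, ∀ q ∈ Submodule.span ℂ G,
      Tendsto (fun k => (N k : ℂ) * ⟪q.2 k, T'.L (ι' y) (T'.R (ι' w) (p.2 k))⟫_ℂ) atTop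
        (𝓝 ⟪q.1, T'.L (κ y) (T'.R (ι' w) p.1)⟫_ℂ) := by
    intro y w p hp q hq
    induction hp using Submodule.span_induction with
    | mem p hp =>
      induction hq using Submodule.span_induction with
      | mem q hq =>
        obtain ⟨x, z, hz, rfl⟩ := hp
        obtain ⟨x', z', hz', rfl⟩ := hq
        simp only [T2_gen hC i (hE _)]
        convert hl (star x' * y * x) _ (hZ z hz w) _ hz' using 2
        rw [T'.R_v, ← T'.v_mul, T'.inner_v, star_mul, map_mul κ, map_mul κ, map_star κ]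
        simp only [mul_assoc]
      | zero => simp
      | add q r _ _ h1 h2 =>
        simpa only [Prod.snd_add, Prod.fst_add, Pi.add_apply, inner_add_left, mul_add]
          using h1.add h2
      | smul a q _ h1 =>
        simpa only [Prod.smul_snd, Prod.smul_fst, Pi.smul_apply, inner_smul_left,
          mul_left_comm _ (conj a)] using h1.const_mul (conj a)
    | zero => simp
    | add p r _ _ h1 h2 =>
      simpa only [Prod.snd_add, Prod.fst_add, Pi.add_apply, map_add, inner_add_right, mul_add]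
        using h1.add h2
    | smul a p _ h1 =>
      simpa only [Prod.smul_snd, Prod.smul_fst, Pi.smul_apply, map_smul, inner_smul_right,
        mul_left_comm _ a] using h1.const_mul a
  have k3 : ∀ ξ ∈ Submodule.span ℂ {ξ : H' | ∃ x, ∃ z ∈ Z, ξ = T'.v (κ x * z)},
      ∃ p ∈ Submodule.span ℂ G, p.1 = ξ := by
    intro ξ hξ
    induction hξ using Submodule.span_induction with
    | mem ξ hξ =>
      obtain ⟨x, z, hz, rfl⟩ := hξ
      exact ⟨_, Submodule.subset_span ⟨x, z, hz, rfl⟩, rfl⟩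
    | zero => exact ⟨0, zero_mem _, rfl⟩
    | add _ _ _ _ h1 h2 =>
      obtain ⟨p, hp, rfl⟩ := h1
      obtain ⟨q, hq, rfl⟩ := h2
      exact ⟨p + q, add_mem hp hq, rfl⟩
    | smul a _ _ h1 =>
      obtain ⟨p, hp, rfl⟩ := h1
      exact ⟨a • p, Submodule.smul_mem _ a hp, rfl⟩
  refine hd.induction (P := fun ξ =>
    ‖⟪ξ, ∑ j, T'.L (κ (y j)) (T'.R (ι' (w j)) ξ)⟫_ℂ‖ ≤ c * ‖ξ‖ ^ 2) (fun ξ hξ => ?_)
    (isClosed_le (by fun_prop) (by fun_prop)) ξ
  obtain ⟨p, hp, rfl⟩ := k3 ξ hξ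
  have l1 := (tendsto_finsetSum Finset.univ fun j _ => k2 (y j) (w j) p hp p hp).norm
  have l2 := ((k2 1 1 p hp p hp).norm).const_mul c
  simp only [map_one, T'.R_one, one_apply_eq_self, inner_self_eq_norm_sq_to_K,
    norm_mul, norm_pow, RCLike.norm_ofReal, abs_norm, Complex.norm_natCast] at l2
  rw [inner_sum]
  refine le_of_tendsto_of_tendsto' l1 l2 fun k => ?_
  rw [← Finset.mul_sum, ← inner_sum, norm_mul, Complex.norm_natCast, mul_left_comm]
  refine mul_le_mul_of_nonneg_left ((norm_inner_le_norm _ _).trans ?_) (Nat.cast_nonneg _)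
  rw [sq, mul_left_comm]
  exact mul_le_mul_of_nonneg_left (h _ (subset_closure (k1 p hp k))) (norm_nonneg _)

theorem t2 {T : TW A H} {T' : TW A' H'} {ι' κ : A →⋆ₐ[ℂ] A'} {I : Type} [Nonempty I]
    {lt : I → (H' →L[ℂ] H')} (hC : Coarse T T' ι' lt) (hA : Amen T T' ι' κ) (π : A →⋆ₙₐ[ℂ] A)
    (hπ : ∀ x, T.τ (π x) = T.τ (π 1) * T.τ x) {s : Fin 144 → A} (hs : SF T s) {X : A'}
    (hX : κ (π 1) * X = X) (hi : ∀ j, κ (π (s j)) * X = X * ι' (π (s j))) : X = 0 := by
  have hw : ∀ j, IsSelfAdjoint (π (s j)) ∧ ‖π (s j)‖ ≤ 2 := fun j =>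
    ⟨(hs.sa j).map π, (nhom_norm_le π _).trans (hs.norm_le j)⟩
  have h2 := T2_form hC hA (fun j => π (s j)) (fun j => π (s j))
    (fun ζ hζ => t1 hC π hπ hs (fun j => π (s j)) hw hζ) (T'.v X)
  have h1 := hs.lower_hom (T' := T') ((κ : A →⋆ₙₐ[ℂ] A').comp π) (ξ := T'.v X) (by
    rw [← T'.v_mul]
    exact congrArg T'.v hX)
  have h3 := gap_of_form (fun j => T'.L (κ (π (s j)))) (fun j => T'.R (ι' (π (s j))))
    (fun j => (((hw j).1.map κ).map T'.L)) (T'.v X) h1 h2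
  have h4 : ∀ j, T'.L (κ (π (s j))) (T'.v X) - T'.R (ι' (π (s j))) (T'.v X) = 0 := fun j => by
    rw [← T'.v_mul, T'.R_v, hi, sub_self]
  simp only [h4, norm_zero, ne_eq, OfNat.ofNat_ne_zero, not_false_eq_true, zero_pow,
    Finset.sum_const_zero] at h3
  refine T'.n2_eq_zero.1 (pow_eq_zero_iff two_ne_zero |>.1 (le_antisymm ?_ (sq_nonneg _)))
  rw [T'.n2_def]
  linarith

end Pool.Agent.TS
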