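import Pool.Agent.P.MP_e05717_an.Rigid
import Pool.Agent.P.MP_e05717_an.Gap
import Pool.Agent.P.MP_e05717_an.T2
import Pool.Agent.P.MP_e05717_an.Dbl

/-!
Row TS-Asm. The corner data contradict rigidity.
Hints: `q = ι' (π 1)`, `e₀ = e' 0 i₀ i₀`, `V i = ι' (π (e 0 i i₀) * b)`, `up x = ι' (π x) + (1 - q)` is a
monoid homomorphism preserving the star (`wd_map`). `b * star b = π (e 0 i₀ i₀)` (take `x = 1`, note
`b * (ρ₁ (π 1) * e₀) = b`), `V i * star (V k) = ι' (π (e 0 i k))`,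
`V i * ρ' (up x) * star (V i) = ι' (π (e 0 i i * ρ₂ x))`, so `bb = up (ρ₂ (a j))`, `dd = up (dgn ..)`.
`ga`, `gb` from `gap_tilde` with `σ = id`, `F = {1}` and `σ = ρ₂`, `F = mus (e 0)` (`IsModel.gap`,
`GapIn.amp`), `‖[s, y]‖ ≤ 2 ‖[a, y]‖`. Then `rigid` and `t2` with `κ = (α (π/2)).comp ι'`.
-/

open scoped ComplexOrder InnerProductSpace ComplexConjugate ENNReal
open Filter Topology Pool.Agent.P.MP_5d580a_an

set_option linter.unusedSectionVars false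
set_option linter.unusedVariables false

noncomputable section

namespace Pool.Agent.TS

variable {A H : Type} [CStarAlgebra A] [NormedAddCommGroup H] [InnerProductSpace ℂ H]
  [CompleteSpace H]
variable {A' H' : Type} [CStarAlgebra A'] [NormedAddCommGroup H'] [InnerProductSpace ℂ H']
  [CompleteSpace H']
variable {ι : Type} [Fintype ι] [DecidableEq ι]

/-- a homomorphism into a corner, completed to a unital map -/
def Asm_up (φ : A →⋆ₙₐ[ℂ] A') : A →* A' where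
  toFun x := φ x + (1 - φ 1)
  map_one' := by abel
  map_mul' x y := by
    simp only [add_mul, mul_add, mul_sub, sub_mul, mul_one, one_mul, ← map_mul]
    abel

theorem Asm_up_def (φ : A →⋆ₙₐ[ℂ] A') (x : A) : Asm_up φ x = φ x + (1 - φ 1) := rfl

theorem Asm_up_star (φ : A →⋆ₙₐ[ℂ] A') (x : A) : Asm_up φ (star x) = star (Asm_up φ x) := by
  rw [Asm_up_def, Asm_up_def, star_add, star_sub, star_one, ← map_star, ← map_star, star_one]

theorem Asm_proj (φ : A →⋆ₙₐ[ℂ] A') : IsStarProjection (φ 1) :=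
  ⟨by rw [IsIdempotentElem, ← map_mul, mul_one], by rw [IsSelfAdjoint, ← map_star, star_one]⟩

theorem Asm_up_left (φ : A →⋆ₙₐ[ℂ] A') (x : A) {y : A'} (h : φ 1 * y = y) :
    Asm_up φ x * y = φ x * y := by
  rw [Asm_up_def, add_mul, sub_mul, one_mul, h, sub_self, add_zero]

theorem Asm_up_right (φ : A →⋆ₙₐ[ℂ] A') (x : A) {y : A'} (h : y * φ 1 = y) :
    y * Asm_up φ x = y * φ x := by
  rw [Asm_up_def, mul_add, mul_sub, mul_one, h, sub_self, add_zero]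

theorem Asm_up_mul (φ : A →⋆ₙₐ[ℂ] A') (x y : A) : Asm_up φ x * φ y = φ (x * y) := by
  rw [Asm_up_left φ x (by rw [← map_mul, one_mul]), map_mul]

theorem Asm_UQ (φ : A →⋆ₙₐ[ℂ] A') {u : A} (hu : u ∈ unitary A) : UQ (φ 1) (Asm_up φ u) := by
  refine ⟨Unitary.mem_iff.2 ⟨?_, ?_⟩, ?_⟩
  · rw [← Asm_up_star, ← map_mul, Unitary.star_mul_self_of_mem hu, map_one]
  · rw [← Asm_up_star, ← map_mul, Unitary.mul_star_self_of_mem hu, map_one]
  · rw [Asm_up_mul, Asm_up_right φ u (by rw [← map_mul, one_mul]), ← map_mul, mul_one, one_mul]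

/-- from the real parts to the unitaries -/
theorem Asm_gap (T' : TW A' H') (φ : A →⋆ₙₐ[ℂ] A') {u : Fin 144 → A} (hu : ∀ j, u j ∈ unitary A)
    {y : A'} (h1 : φ 1 * y = y) (h2 : y * φ 1 = y)
    (h : 25 * T'.n2 y ^ 2 ≤
      ∑ j, T'.n2 (φ (u j + star (u j)) * y - y * φ (u j + star (u j))) ^ 2) :
    T'.n2 y ^ 2 ≤ ∑ j, T'.n2 (Asm_up φ (u j) * y - y * Asm_up φ (u j)) ^ 2 := by
  have key : ∀ j, T'.n2 (φ (u j + star (u j)) * y - y * φ (u j + star (u j))) ^ 2 ≤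
      4 * T'.n2 (Asm_up φ (u j) * y - y * Asm_up φ (u j)) ^ 2 := fun j => by
    have hU := (Asm_UQ φ (hu j)).1
    have e1 : φ (u j + star (u j)) * y - y * φ (u j + star (u j)) =
        (Asm_up φ (u j) * y - y * Asm_up φ (u j)) -
          star (Asm_up φ (u j)) * (Asm_up φ (u j) * y - y * Asm_up φ (u j)) *
            star (Asm_up φ (u j)) := by
      rw [mul_sub, ← mul_assoc (star _), Unitary.star_mul_self_of_mem hU, one_mul, sub_mul,
        mul_assoc (star _), mul_assoc y, Unitary.mul_star_self_of_mem hU, mul_one, ← Asm_up_star,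
        Asm_up_left φ _ h1, Asm_up_left φ _ h1, Asm_up_right φ _ h2, Asm_up_right φ _ h2, map_add,
        add_mul, mul_add]
      abel
    have e2 := T'.n2_sub_le (Asm_up φ (u j) * y - y * Asm_up φ (u j))
      (star (Asm_up φ (u j)) * (Asm_up φ (u j) * y - y * Asm_up φ (u j)) * star (Asm_up φ (u j)))
    rw [T'.n2_mul_unitary (Unitary.star_mem hU), T'.n2_unitary_mul (Unitary.star_mem hU),
      ← e1] at e2
    have e3 := pow_le_pow_left₀ (T'.n2_nonneg _) e2 2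
    linarith
  have h3 := h.trans (Finset.sum_le_sum fun j _ => key j)
  rw [← Finset.mul_sum] at h3
  nlinarith [sq_nonneg (T'.n2 y)]

/-- the algebra of the partial isometries `π (E i i₀) * b` -/
theorem Asm_alg {E : ι → ι → A} (hE : MU E) {ρ₁ ρ₂ : A →⋆ₐ[ℂ] A} (h₁ : ∀ x, Cm E (ρ₁ x))
    (h₂ : ∀ x, Cm E (ρ₂ x)) (i₀ : ι) (π : A →⋆ₙₐ[ℂ] A) (b : A)
    (hb : star b * b = ρ₁ (π 1) * E i₀ i₀)
    (hbb : ∀ x, b * ρ₁ (π x) * star b = π (ρ₂ x * E i₀ i₀)) :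
    ∃ v : ι → A, (∀ i, star (v i) * v i = ρ₁ (π 1) * E i₀ i₀) ∧
      (∀ i j, i ≠ j → star (v i) * v j = 0) ∧ (∀ i k, v i * star (v k) = π (E i k)) ∧
      (∀ i, v i * ρ₁ (π 1) = v i) ∧
      ∀ i x, v i * ρ₁ (π x) * star (v i) = π (E i i * ρ₂ x) := by
  have hP : ρ₁ (π 1) * ρ₁ (π 1) = ρ₁ (π 1) := by rw [← map_mul, ← map_mul, mul_one]
  have hf : star b * b * (star b * b) = star b * b := by
    rw [hb, mul_assoc, ← mul_assoc (E i₀ i₀), h₁ _ i₀ i₀, mul_assoc, hE.mul_same, ← mul_assoc, hP]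
  have b1 : b * (star b * b) = b := by
    refine (sub_eq_zero.1 ((CStarRing.star_mul_self_eq_zero_iff _).1 ?_)).symm
    rw [star_sub, star_mul, star_mul, star_star, sub_mul, mul_sub, mul_sub, ← mul_assoc (star b) b,
      hf, mul_assoc _ (star b) b, hf, mul_assoc _ (star b), ← mul_assoc (star b) b, hf, hf,
      sub_self]
  have b2 : b * ρ₁ (π 1) = b := by
    conv_lhs => rw [← b1, hb, mul_assoc, mul_assoc, h₁ _ i₀ i₀, ← mul_assoc (ρ₁ _), hP, ← hb, b1]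
  have b3 : b * star b = π (E i₀ i₀) := by
    have h := hbb 1
    rwa [b2, map_one, one_mul] at h
  have b4 : π (E i₀ i₀) * b = b := by rw [← b3, mul_assoc, b1]
  have hs : ∀ i, star (π (E i i₀) * b) = star b * π (E i₀ i) := fun i => by
    rw [star_mul, ← map_star, hE.star]
  refine ⟨fun i => π (E i i₀) * b, fun i => ?_, fun i j hij => ?_, fun i k => ?_, fun i => ?_,
    fun i x => ?_⟩
  · rw [hs, mul_assoc, ← mul_assoc (π _), ← map_mul, hE.mul_same, b4, hb]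
  · rw [hs, mul_assoc, ← mul_assoc (π _), ← map_mul, hE.mul_diff hij, map_zero, zero_mul, mul_zero]
  · rw [hs, mul_assoc, ← mul_assoc b, b3, ← map_mul, ← map_mul, hE.mul_same, hE.mul_same]
  · rw [mul_assoc, b2]
  · rw [hs, mul_assoc (π _), mul_assoc (π _), ← mul_assoc _ (star b), hbb, ← map_mul, ← map_mul,
      mul_assoc, hE.mul_same, ← h₂ x, ← mul_assoc, hE.mul_same]

theorem no_data {T : TW A H} {T' : TW A' H'} {e : ℕ → ι → ι → A} {e' : ℕ → ι → ι → A'} {Λ : Type}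
    {c : Λ → A} {c' : Λ × Bool → A'} {ℓ r : Λ × Bool → (H →L[ℂ] H)}
    {ℓ' r' : (Λ × Bool) × Bool → (H' →L[ℂ] H')} (hP : IsModel T e c ℓ r)
    (hQ : IsModel T' e' c' ℓ' r') {ρ₁ ρ₂ : A →⋆ₐ[ℂ] A} {ρ' : A' →⋆ₐ[ℂ] A'} {ι' : A →⋆ₐ[ℂ] A'}
    {α : ℝ → (A' →⋆ₐ[ℂ] A')} (hD : Dbl T T' e e' c c' ρ₁ ρ' ι' α) {fa : Fin 144 → Λ}
    (hfa : Function.Injective fa) {a : Fin 144 → A}
    (ha : ∀ j, a j ∈ unitary A ∧ a j + star (a j) = reP (c (fa j))) {Δ : Type} [Fintype Δ]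
    [Nonempty Δ] {sgn : ι → Δ → ℝ} (hs : Code sgn) {n : ℕ} (hn : (582 * 300000) ^ 2 ≤ n)
    (wi : ι ≃ (Fin (2 * n) → Tag × Δ)) (hρ₂ : TP T T ρ₂)
    (hr₂ : ∀ x, Cm (e 0) x ↔ ∃ y, ρ₂ y = x) {z : ℕ → A} (hz : ∀ K, z K ∈ unitary A)
    (hrel : ∀ K, z K = z (K + 1) * Phi (e 0) ρ₂ a sgn wi (z (K + 1))) (i₀ : ι)
    (π : A →⋆ₙₐ[ℂ] A) (b : A) (hπ0 : π 1 ≠ 0) (hsur : ∀ x, ∃ y, π y = π 1 * x * π 1)
    (hπ : ∀ x, T.τ (π x) = T.τ (π 1) * T.τ x) (hb : star b * b = ρ₁ (π 1) * e 0 i₀ i₀)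
    (hbb : ∀ x, b * ρ₁ (π x) * star b = π (ρ₂ x * e 0 i₀ i₀)) : False := by
  have hE := hP.tower.mu 0
  have hE' := hQ.tower.mu 0
  have hc₁ : ∀ x, Cm (e 0) (ρ₁ x) := fun x i j => hD.ι_tp.inj (by
    rw [map_mul, map_mul, ← hD.ρ_ι, hD.ι_unit]
    exact hD.ρ_cm _ i j)
  obtain ⟨v, v1, v2, v3, v4, v5⟩ := Asm_alg hE hc₁ (fun x => (hr₂ _).2 ⟨x, rfl⟩) i₀ π b hb hbb
  obtain ⟨φ, hφ⟩ : ∃ φ : A →⋆ₙₐ[ℂ] A', ∀ x, φ x = ι' (π x) :=
    ⟨(ι' : A →⋆ₙₐ[ℂ] A').comp π, fun _ => rfl⟩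
  have V3 : ∀ i k, ι' (v i) * star (ι' (v k)) = φ (e 0 i k) := fun i k => by
    rw [← map_star, ← map_mul, v3, hφ]
  have hG : ∀ g : ι → A, Gm ρ' (fun i => ι' (v i)) (fun i => Asm_up φ (g i)) =
      φ (∑ i, e 0 i i * ρ₂ (g i)) := fun g => by
    rw [Gm, map_sum]
    refine Finset.sum_congr rfl fun i _ => ?_
    rw [Asm_up_def, map_add, map_sub, map_one, hφ, hφ, hφ, hD.ρ_ι, hD.ρ_ι, mul_add, mul_sub,
      mul_one, ← map_mul, ← map_mul, v4, sub_self, add_zero, ← map_star, ← map_mul, v5]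
  have hB : bb ρ' (fun i => ι' (v i)) (φ 1) (fun j => Asm_up φ (a j)) =
      fun j => Asm_up φ (ρ₂ (a j)) := funext fun j => by
    rw [bb, hG, ← Finset.sum_mul, hE.sum, one_mul, Asm_up_def]
  have hd : dd (fun i => ι' (v i)) (φ 1) sgn = fun δ => Asm_up φ (dgn (e 0) sgn δ) :=
    funext fun δ => by
      simp only [dd, dia, V3, Asm_up_def, dgn, map_sum, map_smul]
  have hC := dbl_coarse hP hQ hD.ι_tp hD.ι_unit hD.ι_letter
  have hS := dbl_split hP hQ hD.ι_unit hD.ι_letter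
  have hsf := hP.sf fa hfa
  have hgap := hP.gap fa hfa
  have hR : Rig T' ρ' (φ 1) (e' 0 i₀ i₀) (fun i => ι' (v i)) (fun j => Asm_up φ (a j))
      (fun K => Asm_up φ (z K)) sgn wi := by
    refine ⟨⟨hD.ρ_tp, Asm_proj φ, hE'.proj i₀, fun y => hD.ρ_cm y i₀ i₀, fun y => ?_, fun i => ?_,
      fun i j hij => ?_, ?_⟩, fun h => hπ0 (hD.ι_tp.inj (by rw [← hφ, h, map_zero])),
      inferInstance, fun j => Asm_UQ φ (ha j).1, fun K => Asm_UQ φ (hz K), hs, fun K => ?_,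
      fun y h1 h2 h3 => ?_, fun y h1 h2 h3 => ?_, hn⟩
    · rw [T'.τ_comm, hE'.τ_mul T' (hD.ρ_cm y), if_pos rfl, hD.ρ_tp]
    · rw [← map_star, ← map_mul, v1, map_mul, hφ, hD.ρ_ι, hD.ι_unit]
    · rw [← map_star, ← map_mul, v2 i j hij, map_zero]
    · simp only [V3]
      rw [← map_sum, hE.sum]
    · rw [hB, hd]
      simp only [← wd_map (Asm_up φ) (Asm_up_star φ)]
      rw [hG, Asm_up_mul, Asm_up_mul, mul_one]
      exact congrArg φ (hrel K)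
    · refine Asm_gap T' φ (fun j => (ha j).1) h1 h2 ?_
      simp only [(ha _).2, hφ] at h1 h2 ⊢
      refine gap_tilde hC hD.ι_tp hS π hπ hsur (TP.id T) hsf hgap h1 h2 fun f hf => ?_
      rw [Set.mem_singleton_iff.1 hf, ← map_star, ← map_star, star_one, h1, h3]
    · rw [hB]
      refine Asm_gap T' φ (fun j => hom_unitary ρ₂ (ha j).1) h1 h2 ?_
      simp only [← map_star ρ₂, ← map_add ρ₂, (ha _).2, V3, hφ] at h1 h2 h3 ⊢
      refine gap_tilde hC hD.ι_tp hS π hπ hsur hρ₂ hsf (hgap.amp hE hρ₂ hr₂) h1 h2 ?_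
      rintro _ ⟨i, k, rfl⟩
      exact h3 i k
  obtain ⟨X, X0, X1, X2, X3⟩ := rigid hR α
    (fun t => ⟨hD.α_tp t, hD.α_ρ t, hD.α_unit t 0 i₀ i₀⟩) hD.α_zero hD.α_add hD.α_cont
  have hl : ∀ x, α (Real.pi / 2) (Asm_up φ x) * X = α (Real.pi / 2) (φ x) * X := fun x => by
    rw [Asm_up_def, map_add, map_sub, map_one, add_mul, sub_mul, one_mul, X1, sub_self, add_zero]
  have : Nonempty (Λ × Bool) := ⟨(fa 0, false)⟩
  refine X0 (t2 (κ := (α (Real.pi / 2)).comp ι') hC (dbl_amen hP hQ hD.ι_tp hD.ι_unit hD.ι_letter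
    ((hD.α_tp _).comp hD.ι_tp) (fun k i j => ?_) fun l => ?_) π hπ hsf ?_ fun j => ?_)
  · rw [StarAlgHom.comp_apply, hD.ι_unit, hD.α_unit]
  · rw [StarAlgHom.comp_apply, hD.ι_letter, hD.α_half]
  · rw [StarAlgHom.comp_apply, ← hφ, X1]
  · have hU := (Asm_UQ φ (ha j).1).1
    have h1 : α (Real.pi / 2) (Asm_up φ (star (a j))) * X = X * Asm_up φ (star (a j)) := by
      rw [Asm_up_star]
      conv_lhs => rw [← mul_one X, ← Unitary.mul_star_self_of_mem hU, ← mul_assoc X, ← X3 j,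
        ← mul_assoc, ← mul_assoc, ← map_mul, Unitary.star_mul_self_of_mem hU, map_one, one_mul]
    have h2 := X3 j
    rw [hl, Asm_up_right φ _ X2] at h1 h2
    rw [StarAlgHom.comp_apply, ← hφ, ← (ha j).2, map_add, map_add, add_mul, mul_add, h1, h2]

end Pool.Agent.TS
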