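import Pool.Agent.P.MP_e05717_an.Defs

/-!
Row TS-Avg. The averaging lemma (paper AVG).
Hints: `S` is a selfadjoint contraction; `S ^ k = (card ^ k)⁻¹ ∑ words` (induction with `Fin.consEquiv`
or `Fin.insertNthEquiv`, `List.ofFn_succ`); the average of `‖U_w x - x‖²` is
`2 (‖x‖² - ‖S ^ n x‖²)`; `d k = ‖S ^ k x‖² - ‖S ^ (k+1) x‖²` is antitone because
`d k - d (k+1) = ‖(1 - S²) S ^ k x‖²`; `∑ l l', ‖U l ξ - U l' ξ‖² = 2 card² (‖ξ‖² - ‖S ξ‖²)`.
-/

open scoped ComplexOrder InnerProductSpace ComplexConjugate ENNReal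
open Filter Topology Pool.Agent.P.MP_5d580a_an

set_option linter.unusedSectionVars false
set_option linter.unusedVariables false

noncomputable section

namespace Pool.Agent.TS


variable {H : Type} [NormedAddCommGroup H] [InnerProductSpace ℂ H] [CompleteSpace H]

theorem Avg_iso {u : H →L[ℂ] H} (h : star u * u = 1) (y : H) : ‖u y‖ = ‖y‖ := by
  have h1 : ⟪u y, u y⟫_ℂ = ⟪y, y⟫_ℂ := by
    rw [← ContinuousLinearMap.adjoint_inner_right, ← ContinuousLinearMap.star_eq_adjoint,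
      ← mul_apply_eq_comp, h, one_apply_eq_self]
  rw [inner_self_eq_norm_sq_to_K, inner_self_eq_norm_sq_to_K] at h1
  have h2 : ‖u y‖ ^ 2 = ‖y‖ ^ 2 := by exact_mod_cast h1
  exact (pow_left_inj₀ (norm_nonneg _) (norm_nonneg _) two_ne_zero).1 h2

theorem Avg_word_iso {L : Type} {U : L → (H →L[ℂ] H)} (hU : ∀ l y, ‖U l y‖ = ‖y‖) :
    ∀ (k : ℕ) (i : Fin k → L) (y : H), ‖(List.ofFn fun j => U (i j)).prod y‖ = ‖y‖
  | 0, i, y => by simp
  | k + 1, i, y => by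
    rw [List.ofFn_succ, List.prod_cons, mul_apply_eq_comp, hU]
    exact Avg_word_iso hU k (fun j => i j.succ) y

theorem Avg_pow {L R : Type} [Fintype L] [Semiring R] (U : L → R) :
    ∀ k : ℕ, (∑ l, U l) ^ k = ∑ i : Fin k → L, (List.ofFn fun j => U (i j)).prod
  | 0 => by simp
  | k + 1 => by
    rw [pow_succ', Avg_pow U k, Finset.sum_mul_sum, ← Fintype.sum_prod_type',
      ← (Fin.consEquiv fun _ : Fin (k + 1) => L).sum_comp]
    refine Finset.sum_congr rfl fun p _ => ?_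
    rw [List.ofFn_succ, List.prod_cons]
    rfl

theorem Avg_inner {S : H →L[ℂ] H} (hS : star S = S) (y z : H) : ⟪S y, z⟫_ℂ = ⟪y, S z⟫_ℂ := by
  rw [← ContinuousLinearMap.adjoint_inner_right, ← ContinuousLinearMap.star_eq_adjoint, hS]

theorem Avg_convex {S : H →L[ℂ] H} (hS : star S = S) (y : H) :
    ‖S y‖ ^ 2 - ‖S (S y)‖ ^ 2 ≤ ‖y‖ ^ 2 - ‖S y‖ ^ 2 := by
  have h := norm_sub_sq (𝕜 := ℂ) y (S (S y))
  rw [← Avg_inner hS, inner_self_eq_norm_sq (𝕜 := ℂ)] at h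
  nlinarith [sq_nonneg ‖y - S (S y)‖]

theorem Avg_tel {S : H →L[ℂ] H} (hS : star S = S) (x : H) (n : ℕ) :
    n * (‖(S ^ (2 * n)) x‖ ^ 2 - ‖S ((S ^ (2 * n)) x)‖ ^ 2) ≤ ‖x‖ ^ 2 - ‖(S ^ n) x‖ ^ 2 := by
  let a : ℕ → ℝ := fun k => ‖(S ^ k) x‖ ^ 2
  have hs : ∀ k, (S ^ (k + 1)) x = S ((S ^ k) x) := fun k => by
    rw [pow_succ', mul_apply_eq_comp]
  have hd : Antitone fun k => a k - a (k + 1) := antitone_nat_of_succ_le fun k => by
    simp only [a, hs]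
    exact Avg_convex hS _
  have h1 : ∑ k ∈ Finset.range n, (a k - a (k + 1)) = a 0 - a n := Finset.sum_range_sub' a n
  have h2 : ∑ _k ∈ Finset.range n, (a (2 * n) - a (2 * n + 1)) ≤
      ∑ k ∈ Finset.range n, (a k - a (k + 1)) :=
    Finset.sum_le_sum fun k hk => hd (by have := Finset.mem_range.1 hk; omega)
  rw [h1, Finset.sum_const, Finset.card_range, nsmul_eq_mul] at h2
  simpa only [a, hs, pow_zero, one_apply_eq_self] using h2

theorem Avg_sum_sub {I : Type} [Fintype I] (v : I → H) (x : H) (hv : ∀ i, ‖v i‖ = ‖x‖) :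
    ∑ i, ‖v i - x‖ ^ 2 = 2 * Fintype.card I * ‖x‖ ^ 2 - 2 * RCLike.re ⟪∑ i, v i, x⟫_ℂ := by
  simp only [norm_sub_sq (𝕜 := ℂ), hv, sum_inner, map_sum, Finset.sum_add_distrib,
    Finset.sum_sub_distrib, Finset.sum_const, Finset.card_univ, nsmul_eq_mul, ← Finset.mul_sum]
  ring

theorem avg {L : Type} [Fintype L] [Nonempty L] (inv : L → L) (hinv : Function.Involutive inv)
    (U : L → (H →L[ℂ] H)) (hU : ∀ l, star (U l) = U (inv l) ∧ star (U l) * U l = 1) {n : ℕ}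
    (hn : 1 ≤ n) (x : H) {ε : ℝ} (hε : 0 ≤ ε)
    (h : ∑ i : Fin (2 * n) → L, ‖(List.ofFn fun k => U (i k)).prod x - x‖ ^ 2 ≤
      Fintype.card (Fin (2 * n) → L) * ε ^ 2) :
    ‖(((Fintype.card L : ℂ)⁻¹ • ∑ l, U l) ^ (2 * n)) x - x‖ ≤ ε ∧
      ∑ l, ∑ l', ‖U l ((((Fintype.card L : ℂ)⁻¹ • ∑ l, U l) ^ (2 * n)) x) -
        U l' ((((Fintype.card L : ℂ)⁻¹ • ∑ l, U l) ^ (2 * n)) x)‖ ^ 2 ≤
          (Fintype.card L : ℝ) ^ 2 * ε ^ 2 / n := by
  have hc : (0 : ℝ) < Fintype.card L := by exact_mod_cast Fintype.card_pos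
  have hn' : (0 : ℝ) < n := by exact_mod_cast hn
  have hiso : ∀ l y, ‖U l y‖ = ‖y‖ := fun l => Avg_iso (hU l).2
  set S : H →L[ℂ] H := (Fintype.card L : ℂ)⁻¹ • ∑ l, U l with hSdef
  have hS : star S = S := by
    rw [hSdef, star_smul, star_sum]
    simp only [fun l => (hU l).1]
    rw [show ∑ l, U (inv l) = ∑ l, U l from Equiv.sum_comp hinv.toPerm U]
    simp
  obtain ⟨N, hN⟩ : ∃ N : ℕ, N = Fintype.card (Fin (2 * n) → L) := ⟨_, rfl⟩
  have hN0 : (0 : ℝ) < N := by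
    rw [hN]
    exact_mod_cast Fintype.card_pos
  have hNc : (N : ℂ) ≠ 0 := by exact_mod_cast hN0.ne'
  have hsum : ∑ i : Fin (2 * n) → L, (List.ofFn fun k => U (i k)).prod x =
      (N : ℂ) • (S ^ (2 * n)) x := by
    have hc' : (Fintype.card L : ℂ) ≠ 0 := by exact_mod_cast hc.ne'
    rw [hSdef, smul_pow, Avg_pow, smul_apply, smul_smul, hN,
      Fintype.card_fun, Fintype.card_fin, Nat.cast_pow, ← mul_pow, mul_inv_cancel₀ hc', one_pow,
      one_smul, sum_apply]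
  constructor
  · have h1 : (N : ℂ) • ((S ^ (2 * n)) x - x) =
        ∑ i : Fin (2 * n) → L, ((List.ofFn fun k => U (i k)).prod x - x) := by
      rw [Finset.sum_sub_distrib, hsum, Finset.sum_const, Finset.card_univ, ← hN, smul_sub,
        Nat.cast_smul_eq_nsmul ℂ N x]
    have h2 : (N : ℝ) * ‖(S ^ (2 * n)) x - x‖ ≤
        ∑ i : Fin (2 * n) → L, ‖(List.ofFn fun k => U (i k)).prod x - x‖ := by
      refine le_trans (le_of_eq ?_) ((congrArg norm h1).le.trans (norm_sum_le _ _))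
      rw [norm_smul, Complex.norm_natCast]
    have h3 := sq_sum_le_card_mul_sum_sq (s := Finset.univ)
      (f := fun i : Fin (2 * n) → L => ‖(List.ofFn fun k => U (i k)).prod x - x‖)
    rw [Finset.card_univ] at h3
    rw [← hN] at h h3
    have h4 : ((N : ℝ) * ‖(S ^ (2 * n)) x - x‖) ^ 2 ≤ (N * ε) ^ 2 := by
      refine (pow_le_pow_left₀ (by positivity) h2 2).trans (h3.trans ?_)
      nlinarith [mul_le_mul_of_nonneg_left h hN0.le]
    exact le_of_mul_le_mul_left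
      ((pow_le_pow_iff_left₀ (by positivity) (by positivity) two_ne_zero).1 h4) hN0
  · have h1 := Avg_sum_sub (fun i : Fin (2 * n) → L => (List.ofFn fun k => U (i k)).prod x) x
      fun i => Avg_word_iso hiso _ i x
    have hSn : star (S ^ n) = S ^ n := by rw [star_pow, hS]
    have h2 : ⟪(S ^ (2 * n)) x, x⟫_ℂ = ⟪(S ^ n) x, (S ^ n) x⟫_ℂ := by
      rw [two_mul, pow_add, mul_apply_eq_comp, Avg_inner hSn]
    rw [hsum, inner_smul_left, h2, ← hN, map_natCast, ← nsmul_eq_mul, map_nsmul,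
      inner_self_eq_norm_sq (𝕜 := ℂ), nsmul_eq_mul] at h1
    rw [h1, ← hN] at h
    have h3 : 2 * (‖x‖ ^ 2 - ‖(S ^ n) x‖ ^ 2) ≤ ε ^ 2 :=
      le_of_mul_le_mul_left (by linarith) hN0
    have h4 := Avg_tel hS x n
    generalize (S ^ (2 * n)) x = ξ at h4 ⊢
    have h5 : ∑ l, U l ξ = (Fintype.card L : ℂ) • S ξ := by
      have hc' : (Fintype.card L : ℂ) ≠ 0 := by exact_mod_cast hc.ne'
      rw [hSdef, smul_apply, smul_smul, mul_inv_cancel₀ hc', one_smul,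
        sum_apply]
    have h6 : ∑ l, ∑ l', ‖U l ξ - U l' ξ‖ ^ 2 =
        2 * (Fintype.card L : ℝ) ^ 2 * (‖ξ‖ ^ 2 - ‖S ξ‖ ^ 2) := by
      rw [Finset.sum_comm]
      have e : ∀ l', ∑ l, ‖U l ξ - U l' ξ‖ ^ 2 =
          2 * Fintype.card L * ‖ξ‖ ^ 2 - 2 * RCLike.re ⟪∑ l, U l ξ, U l' ξ⟫_ℂ := fun l' => by
        rw [Avg_sum_sub (fun l => U l ξ) (U l' ξ) fun l => by rw [hiso, hiso], hiso]
      simp only [e]
      rw [Finset.sum_sub_distrib, ← Finset.mul_sum, ← Finset.mul_sum, ← map_sum, ← inner_sum,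
        inner_self_eq_norm_sq (𝕜 := ℂ), h5, norm_smul, Complex.norm_natCast, Finset.sum_const,
        Finset.card_univ, nsmul_eq_mul]
      ring
    rw [h6, le_div_iff₀ hn']
    nlinarith [mul_le_mul_of_nonneg_left (h4.trans (show _ ≤ ε ^ 2 / 2 by linarith))
      (sq_nonneg (Fintype.card L : ℝ))]

end Pool.Agent.TS
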