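import Pool.Agent.P.MP_e05717_an.Defs

/-!
Row TS-Basic. Elementary facts on a tracial algebra in standard form.
Hints: `T.defs_inner`, `T.defs_star`, `T.cyc`; `norm_L` from injectivity
(`NonUnitalStarAlgHom.norm_map`); `closed_L`: test against `T.v b`, use
`⟪L (x n) ζ, v b⟫ = ⟪ζ, R b (v (star (x n)))⟫`; `full_R`: for `η = S Ω` the map `v x ↦ R x η` is
bounded by `‖S‖` (pair with `v z`), extend by `exists_extend`, it commutes with `R`, so it is `L y`;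
`exists_lim`: `exists_wot_ultra` along `hyperfilter ℕ`, `commute_of_wot`, `T.full`, `apply_eq_of_wot`.
-/

open scoped ComplexOrder InnerProductSpace ComplexConjugate ENNReal
open Filter Topology Pool.Agent.P.MP_5d580a_an

set_option linter.unusedSectionVars false
set_option linter.unusedVariables false

noncomputable section

namespace Pool.Agent.TS

variable {A H : Type} [CStarAlgebra A] [NormedAddCommGroup H] [InnerProductSpace ℂ H]
  [CompleteSpace H]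
variable {A' H' : Type} [CStarAlgebra A'] [NormedAddCommGroup H'] [InnerProductSpace ℂ H']
  [CompleteSpace H']

namespace TW

variable (T : TW A H)

theorem v_one : T.v 1 = T.Ω := by
  rw [T.v_def, map_one]
  rfl
theorem v_mul (x y : A) : T.v (x * y) = T.L x (T.v y) := by
  rw [T.v_def, T.v_def, map_mul]
  rfl
theorem R_v (x y : A) : T.R y (T.v x) = T.v (x * y) :=
  T.R_apply x y
theorem R_Ω (y : A) : T.R y T.Ω = T.v y := by
  rw [← T.v_one, T.R_v, one_mul]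
theorem inner_v (x y : A) : ⟪T.v x, T.v y⟫_ℂ = T.τ (star x * y) :=
  T.defs_inner x y
theorem τ_one : T.τ 1 = 1 := by
  rw [T.τ_def, T.v_one, inner_self_eq_norm_sq_to_K, T.norm_Ω]
  simp
theorem τ_comm (x y : A) : T.τ (x * y) = T.τ (y * x) :=
  T.trace x y
theorem τ_star (x : A) : T.τ (star x) = conj (T.τ x) := by
  rw [T.τ_def x, inner_conj_symm, ← T.v_one, T.inner_v, mul_one]
theorem τ_star_mul_self (x : A) : T.τ (star x * x) = ((T.n2 x ^ 2 : ℝ) : ℂ) := by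
  rw [← T.inner_v, inner_self_eq_norm_sq_to_K, T.n2_def]
  simp
theorem τ_proj {p : A} (hp : IsStarProjection p) : T.τ p = ((T.n2 p ^ 2 : ℝ) : ℂ) := by
  rw [← T.τ_star_mul_self, hp.isSelfAdjoint.star_eq, hp.isIdempotentElem.eq]
theorem dense_v : DenseRange T.v :=
  T.cyc
theorem v_inj : Function.Injective T.v :=
  (injective_iff_map_eq_zero T.v).2 T.sep
theorem L_inj : Function.Injective T.L :=
  fun x y h => T.v_inj (by rw [T.v_def, T.v_def, h])
theorem norm_L (x : A) : ‖T.L x‖ = ‖x‖ :=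
  NonUnitalStarAlgHom.norm_map T.L T.L_inj x
include T in
theorem norm_one : ‖(1 : A)‖ = 1 := by
  have : Nontrivial A := ⟨1, 0, fun h => by
    have h1 := T.τ_one
    rw [h, map_zero] at h1
    exact zero_ne_one h1⟩
  exact CStarRing.norm_one
theorem ext_v {K : Type} [NormedAddCommGroup K] [NormedSpace ℂ K] {S S' : H →L[ℂ] K}
    (h : ∀ x, S (T.v x) = S' (T.v x)) : S = S' := by
  refine ContinuousLinearMap.ext fun ξ => ?_
  exact T.dense_v.induction_on ξ (isClosed_eq S.continuous S'.continuous) h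
theorem eq_of_inner {ξ η : H} (h : ∀ x, ⟪T.v x, ξ⟫_ℂ = ⟪T.v x, η⟫_ℂ) : ξ = η := by
  refine ext_inner_left ℂ fun ζ => ?_
  exact T.dense_v.induction_on ζ (isClosed_eq (by fun_prop) (by fun_prop)) h
theorem R_one : T.R 1 = 1 :=
  T.ext_v fun x => by
    rw [T.R_v, mul_one]
    rfl
theorem R_mul (x y : A) : T.R (x * y) = T.R y * T.R x :=
  T.ext_v fun a => by
    rw [mul_apply_eq_comp, T.R_v, T.R_v, T.R_v, mul_assoc]
theorem R_star (x : A) : T.R (star x) = star (T.R x) :=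
  T.ext_v fun b => T.eq_of_inner fun a => by
    rw [inner_star_right, T.R_v, T.R_v, T.inner_v, T.inner_v, star_mul, ← mul_assoc,
      T.τ_comm (star a * b), mul_assoc]
theorem norm_R_le (x : A) : ‖T.R x‖ ≤ ‖x‖ := by
  refine ContinuousLinearMap.opNorm_le_bound _ (norm_nonneg x) fun ξ => ?_
  refine T.dense_v.induction_on ξ (isClosed_le (by fun_prop) (by fun_prop)) fun a => ?_
  rw [T.R_v, ← T.defs_star, star_mul, T.v_mul, ← T.defs_star a, ← norm_star x, ← T.norm_L]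
  exact ContinuousLinearMap.le_opNorm _ _
theorem L_R (x y : A) : T.L x * T.R y = T.R y * T.L x :=
  T.ext_v fun a => by
    rw [mul_apply_eq_comp, mul_apply_eq_comp, T.R_v, ← T.v_mul, ← T.v_mul, T.R_v, mul_assoc]
theorem L_R_apply (x y : A) (ξ : H) : T.L x (T.R y ξ) = T.R y (T.L x ξ) :=
  congrArg (fun S : H →L[ℂ] H => S ξ) (T.L_R x y)
theorem n2_nonneg (x : A) : 0 ≤ T.n2 x :=
  norm_nonneg _
theorem n2_zero : T.n2 0 = 0 := by
  rw [T.n2_def, map_zero, norm_zero]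
theorem n2_one : T.n2 1 = 1 := by
  rw [T.n2_def, T.v_one, T.norm_Ω]
theorem n2_eq_zero {x : A} : T.n2 x = 0 ↔ x = 0 := by
  rw [T.n2_def, norm_eq_zero, map_eq_zero_iff _ T.v_inj]
theorem n2_star (x : A) : T.n2 (star x) = T.n2 x :=
  T.defs_star x
theorem n2_neg (x : A) : T.n2 (-x) = T.n2 x := by
  rw [T.n2_def, map_neg, norm_neg, T.n2_def]
theorem n2_add_le (x y : A) : T.n2 (x + y) ≤ T.n2 x + T.n2 y := by
  rw [T.n2_def, map_add]
  exact norm_add_le _ _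
theorem n2_sub_le (x y : A) : T.n2 (x - y) ≤ T.n2 x + T.n2 y := by
  rw [T.n2_def, map_sub]
  exact norm_sub_le _ _
theorem n2_sub_comm (x y : A) : T.n2 (x - y) = T.n2 (y - x) := by
  rw [← T.n2_neg, neg_sub]
theorem n2_triangle (x y z : A) : T.n2 (x - z) ≤ T.n2 (x - y) + T.n2 (y - z) := by
  have h := T.n2_add_le (x - y) (y - z)
  rwa [sub_add_sub_cancel] at h
theorem n2_le_add_sub (x y : A) : T.n2 x ≤ T.n2 y + T.n2 (x - y) := by
  have h := T.n2_add_le y (x - y)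
  rwa [add_sub_cancel] at h
theorem n2_smul (c : ℂ) (x : A) : T.n2 (c • x) = ‖c‖ * T.n2 x := by
  rw [T.n2_def, map_smul, norm_smul, T.n2_def]
theorem n2_sum_le {κ : Type*} (s : Finset κ) (x : κ → A) :
    T.n2 (∑ i ∈ s, x i) ≤ ∑ i ∈ s, T.n2 (x i) := by
  rw [T.n2_def, map_sum]
  exact norm_sum_le _ _
theorem n2_mul_left (x y : A) : T.n2 (x * y) ≤ ‖x‖ * T.n2 y := by
  rw [T.n2_def, T.v_mul, ← T.norm_L]
  exact ContinuousLinearMap.le_opNorm _ _
theorem n2_mul_right (x y : A) : T.n2 (x * y) ≤ T.n2 x * ‖y‖ := by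
  rw [← T.n2_star, star_mul, mul_comm (T.n2 x), ← T.n2_star x, ← norm_star y]
  exact T.n2_mul_left _ _
theorem n2_le_norm (x : A) : T.n2 x ≤ ‖x‖ := by
  have h := T.n2_mul_left x 1
  rwa [mul_one, T.n2_one, mul_one] at h
theorem norm_τ_le (x : A) : ‖T.τ x‖ ≤ T.n2 x := by
  have h := norm_inner_le_norm (𝕜 := ℂ) T.Ω (T.v x)
  rwa [T.norm_Ω, one_mul] at h
theorem norm_τ_mul_le (x y : A) : ‖T.τ (x * y)‖ ≤ T.n2 x * T.n2 y := by
  have h := norm_inner_le_norm (𝕜 := ℂ) (T.v (star x)) (T.v y)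
  rwa [T.inner_v, star_star, T.defs_star] at h
theorem n2_unitary_mul {u : A} (hu : u ∈ unitary A) (x : A) : T.n2 (u * x) = T.n2 x := by
  have h : T.τ (star (u * x) * (u * x)) = T.τ (star x * x) := by
    rw [star_mul, mul_assoc, ← mul_assoc (star u), Unitary.star_mul_self_of_mem hu, one_mul]
  rw [T.τ_star_mul_self, T.τ_star_mul_self, Complex.ofReal_inj] at h
  exact (pow_left_inj₀ (T.n2_nonneg _) (T.n2_nonneg _) two_ne_zero).1 h
theorem n2_mul_unitary {u : A} (hu : u ∈ unitary A) (x : A) : T.n2 (x * u) = T.n2 x := by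
  rw [← T.n2_star, star_mul, T.n2_unitary_mul (Unitary.star_mem hu), T.n2_star]
include T in
theorem norm_unitary {u : A} (hu : u ∈ unitary A) : ‖u‖ = 1 := by
  have h := CStarRing.norm_star_mul_self (x := u)
  rw [Unitary.star_mul_self_of_mem hu, T.norm_one] at h
  nlinarith [norm_nonneg u]
theorem n2_add_sq (x y : A) :
    T.n2 (x + y) ^ 2 = T.n2 x ^ 2 + 2 * (T.τ (star x * y)).re + T.n2 y ^ 2 := by
  rw [T.n2_def, map_add, @norm_add_sq ℂ, T.inner_v]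
  rfl
theorem n2_sub_sq (x y : A) :
    T.n2 (x - y) ^ 2 = T.n2 x ^ 2 - 2 * (T.τ (star x * y)).re + T.n2 y ^ 2 := by
  rw [T.n2_def, map_sub, @norm_sub_sq ℂ, T.inner_v]
  rfl
theorem n2_sum_orth {κ : Type*} (s : Finset κ) (x : κ → A)
    (h : ∀ i ∈ s, ∀ j ∈ s, i ≠ j → T.τ (star (x i) * x j) = 0) :
    T.n2 (∑ i ∈ s, x i) ^ 2 = ∑ i ∈ s, T.n2 (x i) ^ 2 := by
  have h1 : T.τ (star (∑ i ∈ s, x i) * ∑ i ∈ s, x i) = ∑ i ∈ s, T.τ (star (x i) * x i) := by
    rw [star_sum, Finset.sum_mul, map_sum]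
    refine Finset.sum_congr rfl fun i hi => ?_
    rw [Finset.mul_sum, map_sum]
    exact Finset.sum_eq_single_of_mem i hi fun j hj hji => h i hi j hj hji.symm
  simp only [T.τ_star_mul_self] at h1
  exact_mod_cast h1
theorem continuous_v : Continuous T.v :=
  AddMonoidHomClass.continuous_of_bound T.v 1 fun x => by
    rw [one_mul]
    exact T.n2_le_norm x
theorem continuous_τ : Continuous T.τ :=
  AddMonoidHomClass.continuous_of_bound T.τ 1 fun x => by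
    rw [one_mul]
    exact (T.norm_τ_le x).trans (T.n2_le_norm x)
theorem Basic_star {x : ℕ → A} {y : A} (hx : Tendsto (fun n => T.v (x n)) atTop (𝓝 (T.v y))) :
    Tendsto (fun n => T.v (star (x n))) atTop (𝓝 (T.v (star y))) := by
  rw [tendsto_iff_norm_sub_tendsto_zero] at hx ⊢
  refine hx.congr fun n => ?_
  rw [← map_sub, ← map_sub, ← star_sub, T.defs_star]
theorem Basic_norm_le {ξ : H} {K : ℝ} (hK : 0 ≤ K) (h : ∀ z, ‖⟪T.v z, ξ⟫_ℂ‖ ≤ K * ‖T.v z‖) :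
    ‖ξ‖ ≤ K := by
  have h1 : ∀ ζ : H, ‖⟪ζ, ξ⟫_ℂ‖ ≤ K * ‖ζ‖ := fun ζ =>
    T.dense_v.induction_on ζ (isClosed_le (by fun_prop) (by fun_prop)) h
  have h2 := h1 ξ
  rw [inner_self_eq_norm_sq_to_K, norm_pow, RCLike.norm_ofReal, abs_norm] at h2
  rcases (norm_nonneg ξ).eq_or_lt with h0 | h0
  · rwa [← h0]
  · exact le_of_mul_le_mul_right (by rwa [← sq]) h0
theorem closed_L {x : ℕ → A} {y : A} {ζ ζ' : H}
    (hx : Tendsto (fun n => T.v (x n)) atTop (𝓝 (T.v y)))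
    (h : Tendsto (fun n => T.L (x n) ζ) atTop (𝓝 ζ')) : T.L y ζ = ζ' := by
  have e : ∀ a b : A, ⟪T.v b, T.L a ζ⟫_ℂ = ⟪T.R b (T.v (star a)), ζ⟫_ℂ := fun a b => by
    rw [T.R_v, T.v_mul, map_star, inner_star_left]
  refine T.eq_of_inner fun b => ?_
  have h1 : Tendsto (fun n => ⟪T.v b, T.L (x n) ζ⟫_ℂ) atTop (𝓝 ⟪T.v b, ζ'⟫_ℂ) :=
    tendsto_const_nhds.inner h
  have h2 : Tendsto (fun n => ⟪T.v b, T.L (x n) ζ⟫_ℂ) atTop (𝓝 ⟪T.v b, T.L y ζ⟫_ℂ) := by
    simp only [e]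
    exact (((T.R b).continuous.tendsto _).comp (T.Basic_star hx)).inner tendsto_const_nhds
  exact tendsto_nhds_unique h2 h1
theorem closed_R {x : ℕ → A} {y : A} {ζ ζ' : H}
    (hx : Tendsto (fun n => T.v (x n)) atTop (𝓝 (T.v y)))
    (h : Tendsto (fun n => T.R (x n) ζ) atTop (𝓝 ζ')) : T.R y ζ = ζ' := by
  have e : ∀ a b : A, ⟪T.v b, T.R a ζ⟫_ℂ = ⟪T.L b (T.v (star a)), ζ⟫_ℂ := fun a b => by
    rw [← T.v_mul, ← T.R_v, T.R_star, inner_star_left]
  refine T.eq_of_inner fun b => ?_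
  have h1 : Tendsto (fun n => ⟪T.v b, T.R (x n) ζ⟫_ℂ) atTop (𝓝 ⟪T.v b, ζ'⟫_ℂ) :=
    tendsto_const_nhds.inner h
  have h2 : Tendsto (fun n => ⟪T.v b, T.R (x n) ζ⟫_ℂ) atTop (𝓝 ⟪T.v b, T.R y ζ⟫_ℂ) := by
    simp only [e]
    exact (((T.L b).continuous.tendsto _).comp (T.Basic_star hx)).inner tendsto_const_nhds
  exact tendsto_nhds_unique h2 h1
theorem full_R (S : H →L[ℂ] H) (h : ∀ x, S * T.L x = T.L x * S) : ∃ y, T.R y = S := by
  have h' : ∀ x ξ, S (T.L x ξ) = T.L x (S ξ) := fun x ξ =>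
    congrArg (fun X : H →L[ℂ] H => X ξ) (h x)
  let g : A →ₗ[ℂ] H :=
    { toFun := fun x => T.R x (S T.Ω)
      map_add' := fun x y => by simp
      map_smul' := fun c x => by simp }
  have hg : ∀ x, ‖g x‖ ≤ ‖S‖ * ‖T.v x‖ := fun x => by
    refine T.Basic_norm_le (by positivity) fun z => ?_
    have e : ⟪T.v z, g x⟫_ℂ = ⟪T.v (star x), S (T.v (star z))⟫_ℂ := by
      change ⟪T.v z, T.R x (S T.Ω)⟫_ℂ = _
      rw [← inner_star_left, ← T.R_star, T.R_v, T.v_mul, T.v_def (star z), h', map_star T.L,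
        inner_star_right]
    rw [e]
    refine (norm_inner_le_norm _ _).trans ?_
    have h1 := S.le_opNorm (T.v (star z))
    rw [T.defs_star] at h1 ⊢
    calc ‖T.v x‖ * ‖S (T.v (star z))‖ ≤ ‖T.v x‖ * (‖S‖ * ‖T.v z‖) :=
          mul_le_mul_of_nonneg_left h1 (norm_nonneg _)
      _ = ‖S‖ * ‖T.v x‖ * ‖T.v z‖ := by ring
  obtain ⟨W, -, hW, -⟩ := exists_extend T.v g ‖S‖ (norm_nonneg S) hg
  obtain ⟨y, hy⟩ := T.full W fun b => T.ext_v fun x => by
    rw [mul_apply_eq_comp, mul_apply_eq_comp, T.R_v, hW, hW]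
    change T.R (x * b) (S T.Ω) = T.R b (T.R x (S T.Ω))
    rw [T.R_mul, mul_apply_eq_comp]
  have hv : T.v y = S T.Ω := by
    rw [T.v_def, hy, ← T.v_one, hW]
    change T.R 1 (S T.Ω) = _
    rw [T.R_one, T.v_one]
    rfl
  refine ⟨y, T.ext_v fun x => ?_⟩
  rw [T.R_v, T.v_mul, hv, T.v_def, h']
theorem exists_lim (x : ℕ → A) (K : ℝ) (hK : ∀ n, ‖x n‖ ≤ K) {η : H}
    (h : Tendsto (fun n => T.v (x n)) atTop (𝓝 η)) : ∃ y, ‖y‖ ≤ K ∧ T.v y = η := by
  obtain ⟨S, hS, hw⟩ := exists_wot_ultra (hyperfilter ℕ) (fun n => T.L (x n)) K fun n => by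
    rw [T.norm_L]
    exact hK n
  obtain ⟨y, rfl⟩ := T.full S fun b =>
    commute_of_wot hw (Eventually.of_forall fun n => T.L_R _ _)
  refine ⟨y, by rwa [T.norm_L] at hS, apply_eq_of_wot hw ?_⟩
  exact h.mono_left Nat.hyperfilter_le_atTop
theorem exists_lim_cauchy (x : ℕ → A) (K : ℝ) (hK : ∀ n, ‖x n‖ ≤ K)
    (h : CauchySeq fun n => T.v (x n)) :
    ∃ y, ‖y‖ ≤ K ∧ Tendsto (fun n => T.v (x n)) atTop (𝓝 (T.v y)) := by
  obtain ⟨η, hη⟩ := cauchySeq_tendsto_of_complete h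
  obtain ⟨y, hy, rfl⟩ := T.exists_lim x K hK hη
  exact ⟨y, hy, hη⟩
include T in
theorem mul_star_of_star_mul {u : A} (h : star u * u = 1) : u * star u = 1 := by
  have h1 : star (1 - u * star u) * (1 - u * star u) = 1 - u * star u := by
    have h2 : u * star u * (u * star u) = u * star u := by
      rw [mul_assoc, ← mul_assoc (star u), h, one_mul]
    rw [star_sub, star_one, star_mul, star_star, sub_mul, one_mul, mul_sub, mul_one, h2, sub_self,
      sub_zero]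
  have h3 := T.τ_star_mul_self (1 - u * star u)
  rw [h1, map_sub, T.τ_comm, h, sub_self, eq_comm, Complex.ofReal_eq_zero,
    pow_eq_zero_iff two_ne_zero, T.n2_eq_zero, sub_eq_zero] at h3
  exact h3.symm
theorem pos_iff {x : A} : Pos x ↔ 0 ≤ T.L x := by
  constructor
  · rintro ⟨y, rfl⟩
    rw [map_mul, map_star]
    exact star_mul_self_nonneg _
  · intro hx
    obtain ⟨y, h0, h1, -, h2⟩ := exists_sqrt hx
    obtain ⟨z, rfl⟩ := T.full y fun b => (h2 _ (T.L_R x b).symm).symm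
    refine ⟨z, T.L_inj ?_⟩
    rw [map_mul, map_star, (IsSelfAdjoint.of_nonneg h0).star_eq, h1]

/-- the algebra as a von Neumann algebra of operators -/
def vn : VonNeumannAlgebra H := vnOf (Set.range T.R)

theorem mem_vn {S : H →L[ℂ] H} : S ∈ T.vn ↔ ∃ x, T.L x = S := by
  unfold vn
  rw [mem_vnOf]
  constructor
  · exact fun h => T.full S fun y => (h _ ⟨y, rfl⟩).1.symm
  · rintro ⟨x, rfl⟩ _ ⟨y, rfl⟩
    exact ⟨(T.L_R x y).symm, by rw [← T.R_star, T.L_R]⟩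

end TW

variable {T : TW A H} {T' : TW A' H'}

theorem TP.n2 {φ : A →⋆ₐ[ℂ] A'} (h : TP T T' φ) (x : A) : T'.n2 (φ x) = T.n2 x := by
  have h1 := h (star x * x)
  rw [map_mul, map_star, T.τ_star_mul_self, T'.τ_star_mul_self, Complex.ofReal_inj] at h1
  exact (pow_left_inj₀ (T'.n2_nonneg _) (T.n2_nonneg _) two_ne_zero).1 h1
theorem TP.inj {φ : A →⋆ₐ[ℂ] A'} (h : TP T T' φ) : Function.Injective φ :=
  (injective_iff_map_eq_zero φ).2 fun x hx => by
    rw [← T.n2_eq_zero, ← h.n2, hx, T'.n2_zero]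
theorem TP.id (T : TW A H) : TP T T (StarAlgHom.id ℂ A) :=
  fun _ => rfl
theorem TP.comp {A'' H'' : Type} [CStarAlgebra A''] [NormedAddCommGroup H'']
    [InnerProductSpace ℂ H''] [CompleteSpace H''] {T'' : TW A'' H''} {φ : A →⋆ₐ[ℂ] A'}
    {ψ : A' →⋆ₐ[ℂ] A''} (hψ : TP T' T'' ψ) (hφ : TP T T' φ) : TP T T'' (ψ.comp φ) :=
  fun x => (hψ (φ x)).trans (hφ x)
theorem hom_norm_le (φ : A →⋆ₐ[ℂ] A') (x : A) : ‖φ x‖ ≤ ‖x‖ :=
  NonUnitalStarAlgHom.norm_apply_le φ x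
theorem nhom_norm_le (φ : A →⋆ₙₐ[ℂ] A') (x : A) : ‖φ x‖ ≤ ‖x‖ :=
  NonUnitalStarAlgHom.norm_apply_le φ x
theorem hom_unitary (φ : A →⋆ₐ[ℂ] A') {u : A} (hu : u ∈ unitary A) : φ u ∈ unitary A' := by
  rw [Unitary.mem_iff, ← map_star, ← map_mul, ← map_mul, Unitary.star_mul_self_of_mem hu,
    Unitary.mul_star_self_of_mem hu, map_one]
  exact ⟨rfl, rfl⟩
/-- the isometry of the `L²` spaces induced by a trace preserving homomorphism -/
theorem TP.exists_iso {φ : A →⋆ₐ[ℂ] A'} (h : TP T T' φ) :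
    ∃ V : H →L[ℂ] H', (∀ x, V (T.v x) = T'.v (φ x)) ∧ ∀ ξ η, ⟪V ξ, V η⟫_ℂ = ⟪ξ, η⟫_ℂ := by
  obtain ⟨V, -, hV, -⟩ := exists_extend T.v (T'.v ∘ₗ φ.toAlgHom.toLinearMap) 1 zero_le_one
    fun x => by
      rw [one_mul]
      exact (h.n2 x).le
  have hV' : ∀ x, V (T.v x) = T'.v (φ x) := hV
  refine ⟨V, hV', fun ξ η => ?_⟩
  refine T.dense_v.induction_on₂ (p := fun ξ η => ⟪V ξ, V η⟫_ℂ = ⟪ξ, η⟫_ℂ)
    (isClosed_eq (by fun_prop) (by fun_prop)) (fun a b => ?_) ξ η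
  rw [hV', hV', T.inner_v, T'.inner_v, ← map_star, ← map_mul, h]

end Pool.Agent.TS
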