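import Pool.Agent.P.MP_e05717_an.RDefs

/-!
Row TS-Code. Words, the separating signs, the combinatorics of the letters.
Hints: `exists_code`: `s = 8 n`, `Δ = (Fin s → ZMod 2) × (Fin s → ZMod 2)`, an embedding of the words
into `Matrix (Fin s) (Fin s) (ZMod 2)` from `(582 * 4 ^ s) ^ (2 n) ≤ 2 ^ (s * s)` (`582 ≤ 2 ^ 10`;
`Function.Embedding.nonempty_of_card_le`; never evaluate a cardinality), `sgn i (x, x') = 1` or `-1`
according to `x ⬝ᵥ (M i *ᵥ x') = 0`. For a nonzero matrix at least half of the `x'` have `M *ᵥ x' ≠ 0`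
and then exactly half of the `x` give `1` (translation by a basis vector is an involution).
`exists_lam`: `Λ = Bool × ℤ × ℕ`, `ψ : ℕ ≃ ℕ × ι × ι` with `(ψ 0).1 = 0` (compose with a swap).
-/

open scoped ComplexOrder InnerProductSpace ComplexConjugate ENNReal
open Filter Topology Pool.Agent.P.MP_5d580a_an

set_option linter.unusedSectionVars false
set_option linter.unusedVariables false

noncomputable section

namespace Pool.Agent.TS


section Words

variable {M M' : Type} [Monoid M] [Monoid M'] {Δ : Type}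

theorem letter_map [Star M] [Star M'] (φ : M →* M') (hφ : ∀ x, φ (star x) = star (φ x))
    (a b : Fin 144 → M) (d : Δ → M) (y : M) (l : Tag × Δ) :
    φ (letter a b d y l) =
      letter (fun j => φ (a j)) (fun j => φ (b j)) (fun δ => φ (d δ)) (φ y) l := by
  obtain ⟨⟨t, s⟩, δ⟩ := l
  have h0 : φ (let0 a b d y δ t) =
      let0 (fun j => φ (a j)) (fun j => φ (b j)) (fun δ => φ (d δ)) (φ y) δ t := by
    rcases t with j | j | k
    · rfl
    · rfl
    · simp only [let0]
      split_ifs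
      · exact map_one φ
      · rfl
      · rfl
  cases s
  · exact h0
  · show φ (star (let0 a b d y δ t)) = star _
    rw [hφ, h0]

theorem wd_map [Star M] [Star M'] (φ : M →* M') (hφ : ∀ x, φ (star x) = star (φ x))
    (a b : Fin 144 → M) (d : Δ → M) (y : M) {N : ℕ} (i : Fin N → Tag × Δ) :
    φ (wd a b d y i) = wd (fun j => φ (a j)) (fun j => φ (b j)) (fun δ => φ (d δ)) (φ y) i := by
  unfold wd
  rw [map_list_prod, List.map_ofFn]
  congr 2
  funext k
  exact letter_map φ hφ a b d y (i k)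

theorem letter_ind [Star M] (P : M → Prop) (h1 : P 1) (hs : ∀ x, P x → P (star x))
    {a b : Fin 144 → M} {d : Δ → M} {y : M} (ha : ∀ j, P (a j)) (hb : ∀ j, P (b j))
    (hd : ∀ δ, P (d δ)) (hy : P y) (l : Tag × Δ) : P (letter a b d y l) := by
  obtain ⟨⟨t, s⟩, δ⟩ := l
  have h0 : P (let0 a b d y δ t) := by
    rcases t with j | j | k
    · exact ha j
    · exact hb j
    · simp only [let0]
      split_ifs
      · exact h1
      · exact hy
      · exact hd δ
  cases s
  · exact h0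
  · exact hs _ h0

theorem wd_ind [Star M] (P : M → Prop) (h1 : P 1) (hm : ∀ x y, P x → P y → P (x * y))
    (hs : ∀ x, P x → P (star x)) {a b : Fin 144 → M} {d : Δ → M} {y : M} (ha : ∀ j, P (a j))
    (hb : ∀ j, P (b j)) (hd : ∀ δ, P (d δ)) (hy : P y) {N : ℕ} (i : Fin N → Tag × Δ) :
    P (wd a b d y i) := by
  unfold wd
  refine List.prod_induction P hm h1 ?_
  intro x hx
  obtain ⟨k, rfl⟩ := List.mem_ofFn.1 hx
  exact letter_ind P h1 hs ha hb hd hy (i k)

theorem letter_flip [InvolutiveStar M] (a b : Fin 144 → M) (d : Δ → M) (y : M) (l : Tag × Δ) :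
    letter a b d y ((l.1.1, !l.1.2), l.2) = star (letter a b d y l) := by
  obtain ⟨⟨t, s⟩, δ⟩ := l
  cases s
  · rfl
  · exact (star_star _).symm

end Words

theorem wd_hom {A A' : Type} [CStarAlgebra A] [CStarAlgebra A'] {Δ : Type} (φ : A →⋆ₐ[ℂ] A')
    (a b : Fin 144 → A) (d : Δ → A) (y : A) {N : ℕ} (i : Fin N → Tag × Δ) :
    φ (wd a b d y i) = wd (fun j => φ (a j)) (fun j => φ (b j)) (fun δ => φ (d δ)) (φ y) i :=
  wd_map (φ : A →* A') (fun x => map_star φ x) a b d y i

theorem card_tag : Fintype.card Tag = 582 := by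
  simp only [Tag, Fintype.card_prod, Fintype.card_sum, Fintype.card_fin, Fintype.card_bool]

/-- the sign of an element of the field with two elements -/
def Code_chi (a : ZMod 2) : ℝ := if a = 0 then 1 else -1

theorem Code_cases (a : ZMod 2) : a = 0 ∨ a = 1 := by
  revert a
  decide

theorem Code_chi_zero : Code_chi 0 = 1 := by simp [Code_chi]

theorem Code_chi_one : Code_chi 1 = -1 := by simp [Code_chi]

theorem Code_chi_sign (a : ZMod 2) : Code_chi a = 1 ∨ Code_chi a = -1 := by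
  rcases Code_cases a with rfl | rfl
  · exact Or.inl Code_chi_zero
  · exact Or.inr Code_chi_one

theorem Code_chi_succ (a : ZMod 2) : Code_chi (a + 1) = -Code_chi a := by
  rcases Code_cases a with rfl | rfl
  · rw [zero_add, Code_chi_zero, Code_chi_one]
  · rw [show (1 + 1 : ZMod 2) = 0 by decide, Code_chi_zero, Code_chi_one, neg_neg]

theorem Code_chi_sq (a b : ZMod 2) :
    (Code_chi a - Code_chi b) ^ 2 = 2 - 2 * Code_chi (a - b) := by
  rcases Code_cases a with rfl | rfl <;> rcases Code_cases b with rfl | rfl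
  · rw [sub_self (0 : ZMod 2), Code_chi_zero]; norm_num
  · rw [show (0 - 1 : ZMod 2) = 1 by decide, Code_chi_zero, Code_chi_one]; norm_num
  · rw [sub_zero, Code_chi_zero, Code_chi_one]; norm_num
  · rw [sub_self (1 : ZMod 2), Code_chi_zero, Code_chi_one]; norm_num

theorem Code_sum_zero {s : Type} [Fintype s] [DecidableEq s] {w : s → ZMod 2} (hw : w ≠ 0) :
    ∑ x : s → ZMod 2, Code_chi (x ⬝ᵥ w) = 0 := by
  obtain ⟨j, hj⟩ := Function.ne_iff.1 hw
  have h1 : w j = 1 := (Code_cases (w j)).resolve_left hj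
  have h2 := Equiv.sum_comp (Equiv.addRight (Pi.single j 1 : s → ZMod 2))
    fun x => Code_chi (x ⬝ᵥ w)
  have h3 : ∀ x : s → ZMod 2,
      Code_chi ((Equiv.addRight (Pi.single j 1 : s → ZMod 2) x) ⬝ᵥ w) = -Code_chi (x ⬝ᵥ w) := by
    intro x
    rw [Equiv.coe_addRight, add_dotProduct, single_dotProduct, one_mul, h1, Code_chi_succ]
  simp only [h3, Finset.sum_neg_distrib] at h2
  linarith

theorem Code_sum_le {s : Type} [Fintype s] [DecidableEq s] (w : s → ZMod 2) :
    ∑ x : s → ZMod 2, Code_chi (x ⬝ᵥ w) ≤ Fintype.card (s → ZMod 2) := by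
  calc ∑ x : s → ZMod 2, Code_chi (x ⬝ᵥ w) ≤ ∑ x : s → ZMod 2, (1 : ℝ) := by
        refine Finset.sum_le_sum fun x _ => ?_
        rcases Code_chi_sign (x ⬝ᵥ w) with h | h <;> rw [h] <;> norm_num
    _ = _ := by rw [Finset.sum_const, Finset.card_univ, nsmul_eq_mul, mul_one]

theorem Code_bil {s : Type} [Fintype s] [DecidableEq s] {N : Matrix s s (ZMod 2)} (hN : N ≠ 0) :
    2 * ∑ y : s → ZMod 2, ∑ x : s → ZMod 2, Code_chi (x ⬝ᵥ N.mulVec y) ≤
      (Fintype.card (s → ZMod 2) : ℝ) * Fintype.card (s → ZMod 2) := by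
  obtain ⟨z, hz⟩ : ∃ z, N.mulVec z ≠ 0 := by
    by_contra h
    push Not at h
    apply hN
    ext i j
    have := congrFun (h (Pi.single j 1)) i
    simpa using this
  have h2 := Equiv.sum_comp (Equiv.addRight z)
    fun y => ∑ x : s → ZMod 2, Code_chi (x ⬝ᵥ N.mulVec y)
  have h3 : ∀ y : s → ZMod 2, ∑ x : s → ZMod 2, Code_chi (x ⬝ᵥ N.mulVec y) +
      ∑ x : s → ZMod 2, Code_chi (x ⬝ᵥ N.mulVec (Equiv.addRight z y)) ≤
        Fintype.card (s → ZMod 2) := by
    intro y
    by_cases hy : N.mulVec y = 0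
    · have h4 : N.mulVec (Equiv.addRight z y) ≠ 0 := by
        rw [Equiv.coe_addRight, Matrix.mulVec_add, hy, zero_add]
        exact hz
      rw [Code_sum_zero h4, add_zero]
      exact Code_sum_le _
    · rw [Code_sum_zero hy, zero_add]
      exact Code_sum_le _
  have h5 := Finset.sum_le_sum fun y (_ : y ∈ Finset.univ) => h3 y
  rw [Finset.sum_add_distrib, h2, Finset.sum_const, Finset.card_univ, nsmul_eq_mul] at h5
  linarith

theorem Code_code {s κ : Type} [Fintype s] [DecidableEq s] (Mx : κ → Matrix s s (ZMod 2))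
    (hM : Function.Injective Mx) :
    Code fun (i : κ) (δ : (s → ZMod 2) × (s → ZMod 2)) =>
      Code_chi (δ.2 ⬝ᵥ (Mx i).mulVec δ.1) := by
  refine ⟨fun i δ => Code_chi_sign _, fun i k hik => ?_⟩
  have hN : Mx i - Mx k ≠ 0 := sub_ne_zero.2 fun h => hik (hM h)
  have h1 := Code_bil hN
  simp only [Code_chi_sq, ← dotProduct_sub, ← Matrix.sub_mulVec]
  rw [Finset.sum_sub_distrib, Finset.sum_const, Finset.card_univ, nsmul_eq_mul, ← Finset.mul_sum,
    Fintype.sum_prod_type, Fintype.card_prod, Nat.cast_mul]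
  linarith

theorem Code_card (n : ℕ) (hn : 1 ≤ n) :
    (582 * (2 ^ (8 * n) * 2 ^ (8 * n))) ^ (2 * n) ≤ 2 ^ (8 * n * (8 * n)) := by
  have h1 : 582 * (2 ^ (8 * n) * 2 ^ (8 * n)) ≤ 2 ^ (10 + (8 * n + 8 * n)) := by
    rw [pow_add, pow_add]
    exact Nat.mul_le_mul_right _ (by norm_num)
  refine (Nat.pow_le_pow_left h1 _).trans ?_
  rw [← pow_mul]
  refine Nat.pow_le_pow_right (by norm_num) ?_
  nlinarith

theorem exists_code (n : ℕ) (hn : 1 ≤ n) :
    ∃ (Δ : Type) (_ : Fintype Δ) (_ : DecidableEq Δ) (_ : Nonempty Δ)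
      (sgn : (Fin (2 * n) → Tag × Δ) → Δ → ℝ), Code sgn := by
  have hc : Fintype.card
      (Fin (2 * n) → Tag × ((Fin (8 * n) → ZMod 2) × (Fin (8 * n) → ZMod 2))) ≤
      Fintype.card (Fin (8 * n) → Fin (8 * n) → ZMod 2) := by
    rw [Fintype.card_fun, Fintype.card_prod, card_tag, Fintype.card_prod, Fintype.card_fun,
      Fintype.card_fun, Fintype.card_fun, ZMod.card, Fintype.card_fin, Fintype.card_fin,
      ← pow_mul]
    exact Code_card n hn
  obtain ⟨f⟩ := Function.Embedding.nonempty_of_card_le hc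
  exact ⟨(Fin (8 * n) → ZMod 2) × (Fin (8 * n) → ZMod 2), inferInstance, inferInstance,
    inferInstance, _, Code_code (fun i => Matrix.of (f i))
      (Matrix.of.injective.comp f.injective)⟩

theorem exists_lam (ι : Type) [Fintype ι] [DecidableEq ι] [Nonempty ι] :
    ∃ (Λ : Type) (_ : Countable Λ) (_ : Infinite Λ) (par : Λ ≃ Λ × ι × ι) (La : Set Λ)
      (fa : Fin 144 → Λ) (zl : ℕ → Λ), LamD par La fa zl := by
  obtain ⟨ψ₀⟩ : Nonempty (ℕ ≃ ℕ × ι × ι) := nonempty_equiv_of_countable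
  obtain ⟨i₀⟩ := ‹Nonempty ι›
  let ψ : ℕ ≃ ℕ × ι × ι := (Equiv.swap 0 (ψ₀.symm (0, i₀, i₀))).trans ψ₀
  have hψ : (ψ 0).1 = 0 := by
    simp only [ψ, Equiv.trans_apply, Equiv.swap_apply_left, Equiv.apply_symm_apply]
  let par : Bool × ℤ × ℕ ≃ (Bool × ℤ × ℕ) × ι × ι :=
    { toFun := fun l => ((l.1, l.2.1 + 1, (ψ l.2.2).1), (ψ l.2.2).2)
      invFun := fun p => (p.1.1, p.1.2.1 - 1, ψ.symm (p.1.2.2, p.2))
      left_inv := fun l => by simp
      right_inv := fun p => by simp }
  refine ⟨Bool × ℤ × ℕ, inferInstance, inferInstance, par, {l | l.1 = true},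
    fun j => (true, 0, (j : ℕ)), fun j => (false, (j : ℤ), 0), ?_, ?_, ?_, ?_, ?_, ?_⟩
  · intro l hl
    exact hl
  · intro j k h
    exact Fin.ext (congrArg (fun l : Bool × ℤ × ℕ => l.2.2) h)
  · intro j
    rfl
  · intro j k h
    exact Nat.cast_injective (R := ℤ) (congrArg (fun l : Bool × ℤ × ℕ => l.2.1) h)
  · intro j h
    exact Bool.false_ne_true h
  · intro j
    show ((false, (j : ℤ) + 1, (ψ 0).1) : Bool × ℤ × ℕ) = (false, ((j + 1 : ℕ) : ℤ), 0)
    rw [hψ, Nat.cast_succ]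

end Pool.Agent.TS
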