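import Pool.Agent.P.MP_e05717_an.Wick1

/-!
Row TS-Diff. Semicircular elements and `c c*` have no eigenvector (paper DF).
Hints: `rec_zero`: the form `‖ξ (k+1)‖² + ‖ξ k‖² - t re ⟪ξ (k+1), ξ k⟫` is constant, so zero; for
`|t| < 2` it dominates the norms, for `|t| = 2` it is `‖ξ (k+1) ∓ ξ k‖²`. If `s y = t y` put
`z = y * star y`, project `v z` with `exists_proj_span` onto the closed span of the words in the
creation operators applied to `Ω` (stable under them and their adjoints); long products of adjoints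
tend to zero there; `τ z = 0`. For `c c*` with eigenvalue `r²` use pairs in `WithLp 2 (H × H)`:
`(a, b) ↦ (star M b, star L a)`, start `(ξ, r⁻¹ c* ξ)` (or `(ξ, 0)` if `r = 0`); a negative or too
large eigenvalue is impossible.
-/

open scoped ComplexOrder InnerProductSpace ComplexConjugate ENNReal
open Filter Topology Pool.Agent.P.MP_5d580a_an

set_option linter.unusedSectionVars false
set_option linter.unusedVariables false

noncomputable section

namespace Pool.Agent.TS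

variable {A H : Type} [CStarAlgebra A] [NormedAddCommGroup H] [InnerProductSpace ℂ H]
  [CompleteSpace H]

variable {T : TW A H} {D : StarSubalgebra ℂ A}

theorem rec_zero {E : Type} [NormedAddCommGroup E] [InnerProductSpace ℂ E] (ξ : ℕ → E) {t : ℝ}
    (ht : |t| ≤ 2) (h : ∀ k, ξ (k + 2) = (t : ℂ) • ξ (k + 1) - ξ k)
    (h0 : Tendsto ξ atTop (𝓝 0)) : ξ 0 = 0 := by
  let Q : ℕ → ℝ := fun k => ‖ξ (k + 1)‖ ^ 2 + ‖ξ k‖ ^ 2 - t * (⟪ξ (k + 1), ξ k⟫_ℂ).re
  have hQ : ∀ k, Q (k + 1) = Q k := fun k => by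
    have e1 : ‖ξ (k + 2)‖ ^ 2 =
        t ^ 2 * ‖ξ (k + 1)‖ ^ 2 - 2 * (t * (⟪ξ (k + 1), ξ k⟫_ℂ).re) + ‖ξ k‖ ^ 2 := by
      rw [h, @norm_sub_sq ℂ, norm_smul, inner_smul_left, mul_pow, Complex.norm_real,
        Real.norm_eq_abs, sq_abs]
      simp
    have e2 : (⟪ξ (k + 2), ξ (k + 1)⟫_ℂ).re = t * ‖ξ (k + 1)‖ ^ 2 - (⟪ξ (k + 1), ξ k⟫_ℂ).re := by
      rw [h, inner_sub_left, inner_smul_left, inner_self_eq_norm_sq_to_K, ← inner_conj_symm (ξ k),
        Complex.sub_re, Complex.conj_re, Complex.conj_ofReal, Complex.re_ofReal_mul]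
      congr 2
      norm_cast
    show ‖ξ (k + 2)‖ ^ 2 + ‖ξ (k + 1)‖ ^ 2 - t * (⟪ξ (k + 2), ξ (k + 1)⟫_ℂ).re =
      ‖ξ (k + 1)‖ ^ 2 + ‖ξ k‖ ^ 2 - t * (⟪ξ (k + 1), ξ k⟫_ℂ).re
    rw [e1, e2]
    ring
  have h1 : Tendsto (fun k => ξ (k + 1)) atTop (𝓝 0) := h0.comp (tendsto_add_atTop_nat 1)
  have hQ0 : Tendsto Q atTop (𝓝 0) := by
    have := ((h1.norm.pow 2).add (h0.norm.pow 2)).sub
      (((Complex.continuous_re.tendsto _).comp (h1.inner (𝕜 := ℂ) h0)).const_mul t)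
    simpa using this
  have hc : ∀ k, Q k = Q 0 := fun k => by
    induction k with
    | zero => rfl
    | succ k ih => rw [hQ, ih]
  have hz : Q 0 = 0 := tendsto_nhds_unique (tendsto_const_nhds.congr fun k => (hc k).symm) hQ0
  have hn : ∀ k, ‖ξ (k + 1)‖ = ‖ξ k‖ := fun k => by
    have e : ‖ξ (k + 1)‖ ^ 2 + ‖ξ k‖ ^ 2 - t * (⟪ξ (k + 1), ξ k⟫_ℂ).re = 0 := (hc k).trans hz
    have b1 : |(⟪ξ (k + 1), ξ k⟫_ℂ).re| ≤ ‖ξ (k + 1)‖ * ‖ξ k‖ :=
      (Complex.abs_re_le_norm _).trans (norm_inner_le_norm _ _)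
    have b2 : t * (⟪ξ (k + 1), ξ k⟫_ℂ).re ≤ 2 * (‖ξ (k + 1)‖ * ‖ξ k‖) := by
      refine (le_abs_self _).trans ?_
      rw [abs_mul]
      exact mul_le_mul ht b1 (abs_nonneg _) zero_le_two
    have b3 : (‖ξ (k + 1)‖ - ‖ξ k‖) ^ 2 ≤ 0 := by nlinarith
    exact sub_eq_zero.1 (pow_eq_zero_iff two_ne_zero |>.1 (le_antisymm b3 (sq_nonneg _)))
  have hm : ∀ k, ‖ξ k‖ = ‖ξ 0‖ := fun k => by
    induction k with
    | zero => rfl
    | succ k ih => rw [hn, ih]
  have := tendsto_nhds_unique (tendsto_const_nhds.congr fun k => (hm k).symm) h0.norm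
  simpa using this

/-- vectors obtained from the vacuum by creation operators -/
inductive Diff_Wd {I : Type} (ℓ : I → (H →L[ℂ] H)) (Ω : H) : H → Prop
  | base : Diff_Wd ℓ Ω Ω
  | step (i : I) (ξ : H) : Diff_Wd ℓ Ω ξ → Diff_Wd ℓ Ω (ℓ i ξ)

theorem Diff_ann {I : Type} {bar : I → I} {ℓ : I → (H →L[ℂ] H)} {c : I → A}
    (h : CC T D bar ℓ c) (i : I) :
    (star (ℓ i)) T.Ω = 0 ∧ ∀ j ξ, (star (ℓ i)) (ℓ j ξ) = ξ ∨ (star (ℓ i)) (ℓ j ξ) = 0 := by
  refine ⟨by simpa [T.v_one] using h.vac i 1 (one_mem D), fun j ξ => ?_⟩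
  by_cases e : i = j
  · subst e
    exact Or.inl (congrArg (fun S : H →L[ℂ] H => S ξ) (h.iso i))
  · exact Or.inr (congrArg (fun S : H →L[ℂ] H => S ξ) (h.orth e))

/-- the vectors whose orbit under a contraction tends to zero -/
def Diff_Z {E : Type} [NormedAddCommGroup E] [NormedSpace ℂ E] (V : E →L[ℂ] E) :
    Submodule ℂ E where
  carrier := {ζ | Tendsto (fun k => (V ^ k) ζ) atTop (𝓝 0)}
  add_mem' := fun {a b} ha hb => by
    simpa using Tendsto.add ha hb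
  zero_mem' := by simp
  smul_mem' := fun c a ha => by
    have := Tendsto.const_smul ha c
    rw [smul_zero] at this
    exact this.congr fun k => (map_smul _ _ _).symm

theorem Diff_Z_step {E : Type} [NormedAddCommGroup E] [NormedSpace ℂ E] {V : E →L[ℂ] E} {ζ : E}
    (h : V ζ ∈ Diff_Z V) : ζ ∈ Diff_Z V := by
  refine (tendsto_add_atTop_iff_nat 1).1 (Tendsto.congr (fun k => ?_) h)
  rw [pow_succ]
  rfl

theorem Diff_Z_closed {E : Type} [NormedAddCommGroup E] [NormedSpace ℂ E] {V : E →L[ℂ] E}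
    (hV : ∀ ζ, ‖V ζ‖ ≤ ‖ζ‖) : IsClosed (Diff_Z V : Set E) := by
  have hk : ∀ k ζ, ‖(V ^ k) ζ‖ ≤ ‖ζ‖ := fun k => by
    induction k with
    | zero => exact fun ζ => le_rfl
    | succ k ih =>
      intro ζ
      rw [pow_succ]
      exact (ih (V ζ)).trans (hV ζ)
  refine isClosed_of_closure_subset fun ζ hζ => ?_
  refine Metric.tendsto_atTop.2 fun ε hε => ?_
  obtain ⟨η, hη, hd⟩ := Metric.mem_closure_iff.1 hζ (ε / 2) (half_pos hε)
  obtain ⟨N, hN⟩ := Metric.tendsto_atTop.1 hη (ε / 2) (half_pos hε)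
  refine ⟨N, fun k hk' => ?_⟩
  have h1 := hN k hk'
  have h2 := hk k (ζ - η)
  rw [dist_zero_right] at h1 ⊢
  rw [dist_eq_norm] at hd
  rw [map_sub] at h2
  have h3 := norm_le_norm_add_norm_sub' ((V ^ k) ζ) ((V ^ k) η)
  linarith

theorem Diff_core {I : Type} {bar : I → I} {ℓ : I → (H →L[ℂ] H)} {c : I → A}
    (h : CC T D bar ℓ c) (i : I) {r : ℝ} {a b : H} (h1 : T.L (c i) b = (r : ℂ) • a)
    (h2 : T.L (c (bar i)) a = (r : ℂ) • b) : ⟪T.Ω, a⟫_ℂ = 0 := by
  by_cases hr : 2 < |r|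
  · have n : ∀ j ξ, ‖T.L (c j) ξ‖ ≤ 2 * ‖ξ‖ := fun j ξ =>
      ((T.L (c j)).le_opNorm ξ).trans (mul_le_mul_of_nonneg_right
        ((T.norm_L _).trans_le (h.norm_c_le j)) (norm_nonneg _))
    have n1 := n i b
    have n2 := n (bar i) a
    rw [h1, norm_smul, Complex.norm_real, Real.norm_eq_abs] at n1
    rw [h2, norm_smul, Complex.norm_real, Real.norm_eq_abs] at n2
    have a0 := norm_nonneg a
    have b0 := norm_nonneg b
    have : ‖a‖ = 0 := by
      by_contra hne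
      have a1 : 0 < ‖a‖ := lt_of_le_of_ne a0 (Ne.symm hne)
      nlinarith [mul_pos (sub_pos.2 hr) a1, mul_nonneg (sub_pos.2 hr).le b0]
    rw [norm_eq_zero.1 this, inner_zero_right]
  obtain ⟨p, hp, p1, -, p3, -, p5⟩ := exists_proj_span {ξ : H | Diff_Wd ℓ T.Ω ξ}
  have q1 : ∀ j, ∀ η ∈ {ξ : H | Diff_Wd ℓ T.Ω ξ}, p (ℓ j η) = ℓ j η := fun j η hη =>
    p1 _ (Diff_Wd.step j η hη)
  have q2 : ∀ j, ∀ η ∈ {ξ : H | Diff_Wd ℓ T.Ω ξ}, p ((star (ℓ j)) η) = (star (ℓ j)) η := by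
    intro j η hη
    rcases hη with _ | ⟨m, ξ, hξ⟩
    · rw [(Diff_ann h j).1, map_zero]
    · rcases (Diff_ann h j).2 m ξ with e | e
      · rw [e]
        exact p1 ξ hξ
      · rw [e, map_zero]
  have q3 : ∀ j ξ, T.L (c j) (p ξ) = p (T.L (c j) ξ) := fun j ξ => by
    have e : T.L (c j) * p = p * T.L (c j) := by
      rw [h.split, add_mul, mul_add, p5 _ (q1 j) (q2 j),
        p5 _ (q2 (bar j)) (by rw [star_star]; exact q1 (bar j))]
    exact congrArg (fun S : H →L[ℂ] H => S ξ) e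
  let V : H × H →L[ℂ] H × H :=
    ((star (ℓ (bar i))).comp (ContinuousLinearMap.snd ℂ H H)).prod
      ((star (ℓ i)).comp (ContinuousLinearMap.fst ℂ H H))
  have hV : ∀ x y, V (x, y) = ((star (ℓ (bar i))) y, (star (ℓ i)) x) := fun x y => rfl
  have nV : ∀ ζ, ‖V ζ‖ ≤ ‖ζ‖ := by
    rintro ⟨x, y⟩
    have n : ∀ j ξ, ‖(star (ℓ j)) ξ‖ ≤ ‖ξ‖ := fun j ξ =>
      ((star (ℓ j)).le_opNorm ξ).trans (mul_le_of_le_one_left (norm_nonneg _)
        ((norm_star _).trans_le (h.norm_le j)))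
    rw [hV, Prod.norm_mk, Prod.norm_mk, max_comm]
    exact max_le_max (n _ _) (n _ _)
  have w : ∀ ξ, Diff_Wd ℓ T.Ω ξ → (ξ, (0 : H)) ∈ Diff_Z V ∧ ((0 : H), ξ) ∈ Diff_Z V := by
    intro ξ hξ
    induction hξ with
    | base =>
      constructor <;> apply Diff_Z_step <;> rw [hV, (Diff_ann h _).1, map_zero] <;>
        exact zero_mem _
    | step m ξ _ ih =>
      constructor <;> apply Diff_Z_step <;> rw [hV, map_zero]
      · rcases (Diff_ann h i).2 m ξ with e | e <;> rw [e]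
        · exact ih.2
        · exact zero_mem _
      · rcases (Diff_ann h (bar i)).2 m ξ with e | e <;> rw [e]
        · exact ih.1
        · exact zero_mem _
  have cl : ∀ (F : H →L[ℂ] H × H), (∀ ξ, Diff_Wd ℓ T.Ω ξ → F ξ ∈ Diff_Z V) →
      ∀ γ, F (p γ) ∈ Diff_Z V := by
    intro F hF γ
    have s1 : Submodule.span ℂ {ξ : H | Diff_Wd ℓ T.Ω ξ} ≤ (Diff_Z V).comap (F : H →ₗ[ℂ] H × H) :=
      Submodule.span_le.2 hF
    exact closure_minimal (t := F ⁻¹' (Diff_Z V : Set (H × H))) s1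
      ((Diff_Z_closed nV).preimage F.continuous) (p3 γ)
  have z : (p a, p b) ∈ Diff_Z V := by
    have := add_mem (cl (ContinuousLinearMap.inl ℂ H H) (fun ξ hξ => (w ξ hξ).1) a)
      (cl (ContinuousLinearMap.inr ℂ H H) (fun ξ hξ => (w ξ hξ).2) b)
    simpa using this
  have e1 : ℓ i (p b) + (star (ℓ (bar i))) (p b) = (r : ℂ) • p a := by
    have := q3 i b
    rwa [h1, map_smul, h.split] at this
  have e2 : ℓ (bar i) (p a) + (star (ℓ i)) (p a) = (r : ℂ) • p b := by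
    have := q3 (bar i) a
    rwa [h2, map_smul, h.split, h.invol] at this
  have iso : ∀ j ξ, (star (ℓ j)) (ℓ j ξ) = ξ := fun j ξ =>
    congrArg (fun S : H →L[ℂ] H => S ξ) (h.iso j)
  have e3 : V (V (p a, p b)) = (r : ℂ) • V (p a, p b) - (p a, p b) := by
    have f1 := congrArg (star (ℓ i) : H →L[ℂ] H) e1
    have f2 := congrArg (star (ℓ (bar i)) : H →L[ℂ] H) e2
    rw [map_add, iso, map_smul] at f1 f2
    rw [hV, hV]
    exact Prod.ext (eq_sub_of_add_eq' f2) (eq_sub_of_add_eq' f1)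
  have z0 := rec_zero (fun k => ((V ^ k) (p a, p b)).1) (not_lt.1 hr) (fun k => by
    have : (V ^ (k + 2)) (p a, p b) = (r : ℂ) • (V ^ (k + 1)) (p a, p b) - (V ^ k) (p a, p b) := by
      have e4 : (V ^ (k + 2)) (p a, p b) = (V ^ k) (V (V (p a, p b))) := by
        rw [pow_succ, pow_succ]
        rfl
      have e5 : (V ^ (k + 1)) (p a, p b) = (V ^ k) (V (p a, p b)) := by
        rw [pow_succ]
        rfl
      rw [e4, e5, e3, map_sub, map_smul]
    simp only [this, Prod.fst_sub, Prod.smul_fst])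
    ((continuous_fst.tendsto _).comp z)
  have z1 : p a = 0 := z0
  rw [← p1 T.Ω Diff_Wd.base, ← inner_star_right, hp.isSelfAdjoint.star_eq, z1, inner_zero_right]

theorem Diff_fin {y : A} (h : ⟪T.Ω, T.v (y * star y)⟫_ℂ = 0) : y = 0 := by
  have h1 := T.τ_star_mul_self (star y)
  rw [star_star, T.τ_def, h, T.n2_star, eq_comm, Complex.ofReal_eq_zero,
    pow_eq_zero_iff two_ne_zero] at h1
  exact T.n2_eq_zero.1 h1

theorem Semi.noEig {I : Type} {s : I → A} (h : Semi T D s) (i : I) : NoEig (s i) := by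
  obtain ⟨ℓ, h⟩ := h
  intro t y hy
  have e : T.L (s i) (T.v (y * star y)) = (t : ℂ) • T.v (y * star y) := by
    rw [← T.v_mul, ← mul_assoc, hy, smul_mul_assoc, map_smul]
  exact Diff_fin (Diff_core h i e e)

theorem Circ.noEig {Λ : Type} {c : Λ → A} (h : Circ T D c) (l : Λ) :
    NoEig (c l * star (c l)) := by
  obtain ⟨ℓ, h⟩ := h
  intro t y hy
  have e0 : T.n2 (star (c l) * y) ^ 2 = t * T.n2 y ^ 2 := by
    have h1 := T.τ_star_mul_self (star (c l) * y)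
    rw [star_mul, star_star, mul_assoc, ← mul_assoc (c l), hy, mul_smul_comm, map_smul,
      T.τ_star_mul_self, smul_eq_mul] at h1
    exact_mod_cast h1.symm
  rcases lt_trichotomy t 0 with ht | rfl | ht
  · have h1 : T.n2 y ^ 2 = 0 := by
      refine le_antisymm ?_ (sq_nonneg _)
      by_contra hn
      nlinarith [mul_neg_of_neg_of_pos ht (not_le.1 hn), sq_nonneg (T.n2 (star (c l) * y))]
    exact T.n2_eq_zero.1 ((pow_eq_zero_iff two_ne_zero).1 h1)
  · rw [zero_mul, pow_eq_zero_iff two_ne_zero, T.n2_eq_zero] at e0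
    refine Diff_fin (Diff_core h (l, false) (r := 0) (b := 0) (by simp) ?_)
    show T.L (star (c l)) _ = _
    rw [← T.v_mul, ← mul_assoc, e0]
    simp
  · have r0 : ((√t : ℝ) : ℂ) ≠ 0 := by exact_mod_cast (Real.sqrt_pos.2 ht).ne'
    have r1 : (t : ℂ) = ((√t : ℝ) : ℂ) * ((√t : ℝ) : ℂ) := by
      exact_mod_cast (Real.mul_self_sqrt ht.le).symm
    refine Diff_fin (Diff_core h (l, false) (r := √t)
      (b := ((√t : ℝ) : ℂ)⁻¹ • T.v (star (c l) * (y * star y))) ?_ ?_)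
    · show T.L (c l) _ = _
      rw [map_smul, ← T.v_mul, ← mul_assoc, ← mul_assoc, hy, smul_mul_assoc, map_smul, smul_smul,
        r1, inv_mul_cancel_left₀ r0]
    · show T.L (star (c l)) _ = _
      rw [← T.v_mul, smul_smul, mul_inv_cancel₀ r0, one_smul]

theorem Circ.inj {Λ : Type} {c : Λ → A} (h : Circ T D c) (l : Λ) : Inj (star (c l)) := by
  intro y hy
  refine h.noEig l 0 y ?_
  rw [mul_assoc, hy]
  simp

theorem NoEig.of_sq {p : A} (h : NoEig (p * p)) : NoEig p := by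
  intro t y hy
  refine h (t * t) y ?_
  rw [mul_assoc, hy, mul_smul_comm, hy, smul_smul]
  simp

end Pool.Agent.TS
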