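import Pool.Agent.P.MP_e05717_an.Wsub

/-!
Row TS-Pol. Square roots, polar decomposition, spectral projections.
Hints: `exists_sqrt`, `sqrt_unique`, `exists_unitary_corner` (with `e = 1`) of the operator library
together with `T.bic`. `inj_L`, `inj_R`: the projection onto the kernel of `L p` commutes with `R`.
`Inj.map`: `Ω` is in the closure of the `v (x * p)`. `pm0`: the projection of `exists_projW` commutes
with `L p`. `polar`: `L p ξ ↦ L (star c) ξ` is isometric with dense domain (`exists_extend`),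
commutes with `R`. `spec_mem`: Borel calculus `E` of `L x`, `E'` of `L (s k + t k)`,
`IsCalcOf.intertwine` with `S = L (f k)`, `null_Iio`, `null_Ioi`, then `T.bic`.
-/

open scoped ComplexOrder InnerProductSpace ComplexConjugate ENNReal
open Filter Topology Pool.Agent.P.MP_5d580a_an

set_option linter.unusedSectionVars false
set_option linter.unusedVariables false

noncomputable section

namespace Pool.Agent.TS

variable {A H : Type} [CStarAlgebra A] [NormedAddCommGroup H] [InnerProductSpace ℂ H]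
  [CompleteSpace H]
variable {A' H' : Type} [CStarAlgebra A'] [NormedAddCommGroup H'] [InnerProductSpace ℂ H']
  [CompleteSpace H']

theorem Pos.sa {x : A} (h : Pos x) : IsSelfAdjoint x := by
  obtain ⟨y, rfl⟩ := h
  exact IsSelfAdjoint.star_mul_self y

theorem Pos.map (φ : A →⋆ₐ[ℂ] A') {x : A} (h : Pos x) : Pos (φ x) := by
  obtain ⟨y, rfl⟩ := h
  exact ⟨φ y, by rw [map_mul, map_star]⟩

theorem Pos.conj {x : A} (h : Pos x) (y : A) : Pos (star y * x * y) := by
  obtain ⟨z, rfl⟩ := h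
  exact ⟨z * y, by rw [star_mul]; simp only [mul_assoc]⟩

/-- the projection onto the kernel of an operator -/
theorem Pol_ker (X : H →L[ℂ] H) :
    ∃ P : H →L[ℂ] H, (∀ ξ, X ξ = 0 → P ξ = ξ) ∧ X * P = 0 ∧
      ∀ Y : H →L[ℂ] H, X * Y = Y * X → X * star Y = star Y * X → P * Y = Y * P := by
  obtain ⟨P, -, h1, -, -, h2, h3⟩ := exists_proj_span {η : H | X η = 0}
  have key : ∀ Y : H →L[ℂ] H, X * Y = Y * X → ∀ η ∈ {η : H | X η = 0}, P (Y η) = Y η := by
    intro Y hY η hη
    refine h1 _ ?_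
    have hη' : X η = 0 := hη
    show X (Y η) = 0
    rw [← mul_apply_eq_comp, hY, mul_apply_eq_comp, hη', map_zero]
  refine ⟨P, h1, ?_, fun Y hY hY' => (h3 Y (key Y hY) (key _ hY')).symm⟩
  rw [h2 X 0 fun η hη => hη, zero_mul]

namespace TW

variable (T : TW A H)

theorem exists_sqrt {x : A} (hx : Pos x) : ∃ p ∈ T.W {x}, Pos p ∧ p * p = x := by
  obtain ⟨Y, h0, h1, -, h2⟩ := Pool.Agent.P.MP_5d580a_an.exists_sqrt (T.pos_iff.1 hx)
  obtain ⟨p, hp, hpY⟩ := T.bic (S := {x}) (X := Y) fun Z hZ => h2 Z (hZ x rfl).1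
  refine ⟨p, hp, T.pos_iff.2 (by rw [hpY]; exact h0), T.L_inj ?_⟩
  rw [map_mul, hpY, h1]

include T in
theorem sqrt_unique {p p' : A} (hp : Pos p) (hp' : Pos p') (h : p * p = p' * p') : p = p' :=
  T.L_inj (Pool.Agent.P.MP_5d580a_an.sqrt_unique (T.pos_iff.1 hp) (T.pos_iff.1 hp')
    (by rw [← map_mul, ← map_mul, h]))

theorem inj_L {p : A} (hp : Inj p) {ξ : H} (h : T.L p ξ = 0) : ξ = 0 := by
  obtain ⟨P, h1, h2, h3⟩ := Pol_ker (T.L p)
  obtain ⟨q, hq⟩ := T.full P fun y => h3 _ (T.L_R p y) (by rw [← T.R_star]; exact T.L_R p _)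
  have h4 : q = 0 := hp q (T.L_inj (by rw [map_mul, hq, h2, map_zero]))
  rw [← h1 ξ h, ← hq, h4, map_zero]
  rfl

theorem inj_R {p : A} (hp : Inj (star p)) {ξ : H} (h : T.R p ξ = 0) : ξ = 0 := by
  obtain ⟨P, h1, h2, h3⟩ := Pol_ker (T.R p)
  obtain ⟨q, hq⟩ := T.full_R P fun y =>
    h3 _ (T.L_R y p).symm (by rw [← map_star]; exact (T.L_R _ p).symm)
  have h4 : q * p = 0 := by
    apply T.v_inj
    rw [← T.R_Ω, T.R_mul, hq, h2, map_zero]
    rfl
  have h5 : star q = 0 := hp _ (by rw [← star_mul, h4, star_zero])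
  rw [← h1 ξ h, ← hq, star_eq_zero.1 h5, map_zero]
  rfl

theorem pm0 {S : Set A} {p w : A} (hp : p ∈ T.W S) (hi : Inj p) (hw : p * w ∈ T.W S) :
    w ∈ T.W S := by
  obtain ⟨P, -, h1, -, h2, h3⟩ := T.exists_projW S
  refine h3 w (sub_eq_zero.1 (T.inj_L hi ?_))
  rw [map_sub, ← mul_apply_eq_comp, ← (h2 p hp).1, mul_apply_eq_comp, ← T.v_mul, h1 _ hw, sub_self]

include T in
theorem Pol_zero {y : A} (h : star y * y = 0) : y = 0 := by
  have h1 := T.τ_star_mul_self y
  rw [h, map_zero] at h1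
  have h2 : T.n2 y ^ 2 = 0 := by exact_mod_cast h1.symm
  exact T.n2_eq_zero.1 (pow_eq_zero_iff two_ne_zero |>.1 h2)

theorem polar {c : A} (hc : Inj (star c)) :
    ∃ p u : A, Pos p ∧ p * p = c * star c ∧ Inj p ∧ u ∈ unitary A ∧ c = p * u ∧
      p ∈ T.W {c} ∧ u ∈ T.W {c} := by
  have hcW : c ∈ T.W {c} := T.subset_W _ rfl
  obtain ⟨p, hpW, hp, hpp⟩ := T.exists_sqrt (x := c * star c) ⟨star c, by rw [star_star]⟩
  have hpW' : p ∈ T.W {c} :=
    T.W_le (Set.singleton_subset_iff.2 (mul_mem hcW (star_mem hcW))) hpW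
  have hps : star p = p := hp.sa.star_eq
  have hi : Inj p := by
    intro y hy
    refine hc y (T.Pol_zero ?_)
    rw [star_mul, star_star, mul_assoc, ← mul_assoc c, ← hpp, mul_assoc p, hy, mul_zero, mul_zero]
  have hnorm : ∀ ξ : H, ‖(T.L (star c) : H →ₗ[ℂ] H) ξ‖ ≤ 1 * ‖(T.L p : H →ₗ[ℂ] H) ξ‖ := by
    intro ξ
    have h1 : ‖T.L (star c) ξ‖ ^ 2 = ‖T.L p ξ‖ ^ 2 := by
      rw [norm_sq_apply, norm_sq_apply, ← map_star, ← map_star, ← map_mul, ← map_mul, star_star,
        hps, hpp]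
    rw [one_mul]
    exact ((pow_left_inj₀ (norm_nonneg _) (norm_nonneg _) two_ne_zero).1 h1).le
  obtain ⟨V, -, hV, -⟩ := exists_extend (T.L p : H →ₗ[ℂ] H) (T.L (star c) : H →ₗ[ℂ] H) 1
    zero_le_one hnorm
  have hV' : ∀ ξ, V (T.L p ξ) = T.L (star c) ξ := hV
  obtain ⟨w, hw⟩ := T.full V fun y => by
    refine ext_range_orth (T.L p : H →ₗ[ℂ] H) (fun ξ => ?_) fun γ hγ => ?_
    · show V (T.R y (T.L p ξ)) = T.R y (V (T.L p ξ))
      rw [← T.L_R_apply, hV', hV', T.L_R_apply]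
    · have h0 : γ = 0 := by
        refine T.inj_L hi ?_
        have h1 : ⟪T.L p (T.L p γ), γ⟫_ℂ = 0 := hγ _
        rw [← inner_star_right, ← map_star, hps] at h1
        exact inner_self_eq_zero.1 h1
      rw [h0, map_zero, map_zero]
  have hwp : w * p = star c := by
    apply T.L_inj
    ext ξ
    rw [map_mul, mul_apply_eq_comp, hw, hV']
  have hcp : c = p * star w := by
    rw [← star_star c, ← hwp, star_mul, hps]
  have h1 : star w * w = 1 := by
    have e1 : p * ((star w * w - 1) * p) = 0 := by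
      rw [sub_mul, one_mul, mul_sub, mul_assoc, hwp, ← mul_assoc, ← hcp, hpp, sub_self]
    have e2 := congrArg star (hi _ e1)
    rw [star_mul, hps, star_zero, star_sub, star_mul, star_star, star_one] at e2
    exact sub_eq_zero.1 (hi _ e2)
  have h2 := T.mul_star_of_star_mul h1
  refine ⟨p, star w, hp, hpp, hi, ⟨by rw [star_star, h2], by rw [star_star, h1]⟩, hcp, hpW', ?_⟩
  exact T.pm0 hpW' hi (by rw [← hcp]; exact hcW)

theorem exists_unitary_re {s : A} (hs : IsSelfAdjoint s) (hn : ‖s‖ ≤ 2) :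
    ∃ a ∈ unitary A, a + star a = s ∧ a ∈ T.W {s} := by
  have hsa : IsSelfAdjoint (T.L ((1 / 2 : ℂ) • s)) := by
    refine IsSelfAdjoint.map ?_ T.L
    rw [IsSelfAdjoint, star_smul, hs.star_eq]
    congr 1
    simp
  have hn' : ‖T.L ((1 / 2 : ℂ) • s)‖ ≤ 1 := by
    rw [T.norm_L, norm_smul]
    have : ‖(1 / 2 : ℂ)‖ = 1 / 2 := by simp
    rw [this]; linarith
  obtain ⟨U, -, hU, -, -, h1, h2⟩ := exists_unitary_corner T.vn (e := 1) (one_mem _)
    (IsStarProjection.one _) (T.mem_vn.2 ⟨_, rfl⟩) hsa (one_mul _) hn'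
  obtain ⟨a, ha, haU⟩ := T.bic (S := {s}) (X := U) fun Z hZ => h2 Z
    (by rw [map_smul, mul_smul_comm, smul_mul_assoc, (hZ s rfl).1]) (by rw [mul_one, one_mul])
  refine ⟨a, ⟨T.L_inj ?_, T.L_inj ?_⟩, T.L_inj ?_, ha⟩
  · rw [map_mul, map_star, haU, map_one, hU.1]
  · rw [map_mul, map_star, haU, map_one, hU.2]
  · rw [map_add, map_star, haU, ← h1, sub_self, add_zero, map_smul, smul_smul]
    norm_num

include T in
theorem Pol_span_sa {s : A} (hs : IsSelfAdjoint s) : s ∈ Submodule.span ℂ (unitary A : Set A) := by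
  have hp : 0 < ‖s‖ + 1 := by positivity
  have h1 : IsSelfAdjoint ((((‖s‖ + 1)⁻¹ : ℝ) : ℂ) • s) := by
    rw [IsSelfAdjoint, star_smul, hs.star_eq, Complex.star_def, Complex.conj_ofReal]
  have h2 : ‖(((‖s‖ + 1)⁻¹ : ℝ) : ℂ) • s‖ ≤ 2 := by
    rw [norm_smul, Complex.norm_real, Real.norm_of_nonneg (inv_nonneg.2 hp.le),
      inv_mul_le_iff₀ hp]
    linarith [norm_nonneg s]
  obtain ⟨a, ha, h3, -⟩ := T.exists_unitary_re h1 h2
  have h4 : s = ((‖s‖ + 1 : ℝ) : ℂ) • (a + star a) := by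
    rw [h3, smul_smul, ← Complex.ofReal_mul, mul_inv_cancel₀ hp.ne', Complex.ofReal_one, one_smul]
  rw [h4]
  exact Submodule.smul_mem _ _
    (add_mem (Submodule.subset_span ha) (Submodule.subset_span (Unitary.star_mem ha)))

include T in
theorem span_unitary (x : A) : x ∈ Submodule.span ℂ (unitary A : Set A) := by
  have h1 : IsSelfAdjoint (x + star x) := IsSelfAdjoint.add_star_self x
  have h2 : IsSelfAdjoint (Complex.I • (x - star x)) := by
    rw [IsSelfAdjoint, star_smul, star_sub, star_star, Complex.star_def, Complex.conj_I, neg_smul,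
      ← smul_neg, neg_sub]
  have e : x = (1 / 2 : ℂ) • (x + star x) + (-Complex.I / 2 : ℂ) • (Complex.I • (x - star x)) := by
    have : (-Complex.I / 2 : ℂ) * Complex.I = 1 / 2 := by
      linear_combination (-1 / 2 : ℂ) * Complex.I_mul_I
    rw [smul_smul, this]
    module
  rw [e]
  exact add_mem (Submodule.smul_mem _ _ (T.Pol_span_sa h1))
    (Submodule.smul_mem _ _ (T.Pol_span_sa h2))

theorem spec_mem {κ : Type} [Fintype κ] (f s : κ → A) (t : κ → ℝ)
    (hf : ∀ i, IsStarProjection (f i)) (hsum : ∑ i, f i = 1) (ho : ∀ i j, i ≠ j → f i * f j = 0)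
    (hs : ∀ i, IsSelfAdjoint (s i) ∧ ‖s i‖ ≤ 2) (hc : ∀ i j, f i * s j = s j * f i)
    (ht : ∀ i j, i ≠ j → 10 ≤ |t i - t j|) (i : κ) :
    f i ∈ T.W {∑ k, f k * (s k + (t k : ℂ) • (1 : A))} := by
  classical
  set x := ∑ k, f k * (s k + (t k : ℂ) • (1 : A)) with hx
  have hcm : ∀ k, f k * (s k + (t k : ℂ) • (1 : A)) = (s k + (t k : ℂ) • (1 : A)) * f k := by
    intro k
    rw [mul_add, add_mul, hc, mul_smul_comm, smul_mul_assoc, mul_one, one_mul]
  have hxs : IsSelfAdjoint x := by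
    rw [IsSelfAdjoint, hx, star_sum]
    refine Finset.sum_congr rfl fun k _ => ?_
    rw [star_mul, star_add, star_smul, star_one, (hs k).1.star_eq, (hf k).isSelfAdjoint.star_eq,
      Complex.star_def, Complex.conj_ofReal, hcm]
  have hfx : ∀ k, f k * x = (s k + (t k : ℂ) • (1 : A)) * f k := by
    intro k
    rw [hx, Finset.mul_sum, Finset.sum_eq_single k]
    · rw [← mul_assoc, (hf k).isIdempotentElem.eq, hcm]
    · intro j _ hj
      rw [← mul_assoc, ho k j (Ne.symm hj), zero_mul]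
    · intro h; exact absurd (Finset.mem_univ k) h
  obtain ⟨E, hE⟩ := exists_calc_sa (hxs.map T.L)
  have hJ : MeasurableSet (Set.Icc (t i - 3) (t i + 3)) := measurableSet_Icc
  have hb := BM.indicator_one hJ
  have key : ∀ k, T.L (f k) * E.Pr (Set.Icc (t i - 3) (t i + 3)) =
      if k = i then T.L (f k) else 0 := by
    intro k
    obtain ⟨E₀, hE₀⟩ := exists_calc_sa ((hs k).1.map T.L)
    obtain ⟨E', hE', hΦ⟩ := hE₀.affine (t k) 1
    have h1 := hE.intertwine hE' (T.L (f k)) (fun ξ => by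
      rw [← mul_apply_eq_comp, ← map_mul, hfx, map_mul, mul_apply_eq_comp, map_add, map_smul,
        map_one, Complex.ofReal_one, one_smul, add_comm]) _ hb
    have hb' := hb.comp (g := fun u : ℝ => t k + 1 * u) (by fun_prop)
    have hn : ∀ u ∈ Set.Icc (-‖T.L (s k)‖) ‖T.L (s k)‖, -2 ≤ u ∧ u ≤ 2 := by
      intro u hu
      rw [T.norm_L] at hu
      have := (hs k).2
      exact ⟨by linarith [hu.1], by linarith [hu.2]⟩
    ext ξ
    rw [mul_apply_eq_comp, SpecCalc.Pr, h1, hΦ]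
    split_ifs with hk
    · rw [hE₀.congr hb' (BM.const 1) fun u hu => ?_, E₀.one]
      · rfl
      · have := hn u hu
        refine Set.indicator_of_mem (show t k + 1 * u ∈ Set.Icc (t i - 3) (t i + 3) from ?_) _
        rw [hk]
        exact ⟨by linarith [this.1], by linarith [this.2]⟩
    · rw [hE₀.congr hb' (BM.const 0) fun u hu => ?_, E₀.map_zero]
      · rfl
      · have h2 := hn u hu
        refine Set.indicator_of_notMem (fun hm => ?_) _
        have h3 := ht k i hk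
        have h4 : |t k - t i| ≤ 5 := abs_le.2 ⟨by linarith [hm.1, h2.2], by linarith [hm.2, h2.1]⟩
        linarith
  have hP : E.Pr (Set.Icc (t i - 3) (t i + 3)) = T.L (f i) := by
    rw [← one_mul (E.Pr _), ← map_one T.L, ← hsum, map_sum, Finset.sum_mul]
    simp only [key, Finset.sum_ite_eq', Finset.mem_univ, if_true]
  obtain ⟨y, hy, hyL⟩ := T.bic (S := {x}) (X := E.Pr (Set.Icc (t i - 3) (t i + 3)))
    fun Y hY => hE.commute (hY x rfl).1 hb
  rw [hP] at hyL
  rwa [← T.L_inj hyL]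

end TW

theorem Inj.map {T : TW A H} {T' : TW A' H'} {φ : A →⋆ₐ[ℂ] A'} (h : TP T T' φ) {p : A}
    (hs : IsSelfAdjoint p) (hp : Inj p) : Inj (φ p) := by
  intro y hy
  have hd : DenseRange fun x => T.v (x * p) := by
    have h1 : DenseRange (T.R p) := by
      have h2 : (LinearMap.range (T.R p : H →ₗ[ℂ] H))ᗮ = ⊥ := by
        rw [Submodule.eq_bot_iff]
        intro γ hγ
        refine T.inj_R (p := p) (by rw [hs.star_eq]; exact hp) ?_
        have h3 : ⟪T.R p (T.R p γ), γ⟫_ℂ = 0 := hγ _ ⟨_, rfl⟩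
        rw [← inner_star_right, ← T.R_star, hs.star_eq] at h3
        exact inner_self_eq_zero.1 h3
      have h4 := Submodule.topologicalClosure_eq_top_iff.2 h2
      exact (Submodule.dense_iff_topologicalClosure_eq_top).2 h4
    have := h1.comp T.dense_v (T.R p).continuous
    refine this.mono ?_
    rintro _ ⟨x, rfl⟩
    exact ⟨x, (T.R_v x p).symm⟩
  obtain ⟨V, hV, -⟩ := h.exists_iso
  have h0 : ∀ ξ, T'.R y (V ξ) = 0 := by
    intro ξ
    refine hd.induction_on ξ
      (isClosed_eq ((T'.R y).continuous.comp V.continuous) continuous_const) fun x => ?_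
    rw [hV, T'.R_v, map_mul φ, mul_assoc, hy, mul_zero, map_zero]
  have h1 := h0 (T.v 1)
  rw [hV, map_one, T'.R_v, one_mul] at h1
  exact T'.v_inj (by rw [h1, map_zero])

end Pool.Agent.TS
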