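import Pool.Agent.P.MP_e05717_an.Gap0
import Pool.Agent.P.MP_e05717_an.Pol
import Pool.Agent.P.MP_e05717_an.Diff
import Pool.Agent.P.MP_e05717_an.Code

/-!
Row TS-Beta. The twisting automorphism `β` (paper section 2).
Hints: `c (zl 0) = p * h₀` (`Circ.inj`, `T.polar`). `iter_a`, `iter_z`: induction, `TP.map_W_le`,
`ent_mem`. `Φ K = ρ₁^[2K] (Phi ..)` is unitary (`diag_unitary`, `sign_unitary`, `wd_ind`), commutes with
`e l`, `l < 2K` (`range_iterate`), lies in `D' = W (base e ∪ other letters)` (`wd_hom`, `wd_ind`).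
`Circ.enlarge` along `K ↦ zl (2K)`, `Circ.twist`, `match_diag` on `D'`, `Circ.match`, `exists_hom`.
Then by induction on `j`, for `i + j = 2K`: `β (ρ₁^[j] (c (zl i))) = ρ₁^[j] (c (zl i)) * Φ K`
(`ent_map`, `ent_mul_right`); `sqrt_unique`, `Pos.map`, `Inj.map`.
-/

open scoped ComplexOrder InnerProductSpace ComplexConjugate ENNReal
open Filter Topology Pool.Agent.P.MP_5d580a_an

set_option linter.unusedSectionVars false
set_option linter.unusedVariables false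

noncomputable section

namespace Pool.Agent.TS

variable {A H : Type} [CStarAlgebra A] [NormedAddCommGroup H] [InnerProductSpace ℂ H]
  [CompleteSpace H]
variable {ι : Type} [Fintype ι] [DecidableEq ι]

variable {T : TW A H} {e : ℕ → ι → ι → A} {Λ : Type} {c : Λ → A} {ℓ r : Λ × Bool → (H →L[ℂ] H)}
  {par : Λ ≃ Λ × ι × ι} {ρ₁ : A →⋆ₐ[ℂ] A} {La : Set Λ} {fa : Fin 144 → Λ} {zl : ℕ → Λ}
  {a : Fin 144 → A} {Δ : Type} {sgn : ι → Δ → ℝ} {N : ℕ}

theorem Beta_unit (T : TW A H) (e : ℕ → ι → ι → A) (S : Set A) (k : ℕ) (i j : ι) :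
    e k i j ∈ T.W (alle e ∪ S) := T.subset_W _ (Or.inl ⟨k, i, j, rfl⟩)

theorem Beta_it (hρ : IsRho T e c par ρ₁) (n : ℕ) : ∃ σ : A →⋆ₐ[ℂ] A, TP T T σ ∧
    (∀ x, σ x = ρ₁^[n] x) ∧ ∀ k i j, σ (e k i j) = e (k + n) i j := by
  induction n with
  | zero => exact ⟨StarAlgHom.id ℂ A, TP.id T, fun _ => rfl, fun _ _ _ => rfl⟩
  | succ n ih =>
    obtain ⟨σ, h1, h2, h3⟩ := ih
    refine ⟨ρ₁.comp σ, hρ.tp.comp h1, fun x => ?_, fun k i j => ?_⟩
    · rw [Function.iterate_succ_apply', ← h2]; rfl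
    · rw [StarAlgHom.comp_apply, h3, hρ.unit, add_assoc]

theorem iter_a (hρ : IsRho T e c par ρ₁) (hL : LamD par La fa zl) {x : A}
    (hx : x ∈ T.W (alle e ∪ c '' La)) : ρ₁ x ∈ T.W (alle e ∪ c '' La) := by
  refine hρ.tp.map_W_le ?_ hx
  rintro _ (⟨k, i, j, rfl⟩ | ⟨l, hl, rfl⟩)
  · rw [hρ.unit]; exact Beta_unit T e _ _ _ _
  · rw [hρ.letter]
    have h1 : c (par l).1 ∈ alle e ∪ c '' La := Or.inr ⟨_, hL.par_mem l hl, rfl⟩
    exact ent_mem _ (Beta_unit T e _ 0) (T.subset_W _ h1) _ _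

theorem iter_z (hρ : IsRho T e c par ρ₁) (hL : LamD par La fa zl) (j : ℕ) {x : A}
    (hx : x ∈ T.W {c (zl 0)}) : ρ₁^[j] x ∈ T.W (alle e ∪ {c (zl j)}) := by
  induction j with
  | zero => exact T.W_mono Set.subset_union_right hx
  | succ j ih =>
    rw [Function.iterate_succ_apply']
    refine hρ.tp.map_W_le ?_ ih
    rintro _ (⟨k, i, j', rfl⟩ | rfl)
    · rw [hρ.unit]; exact Beta_unit T e _ _ _ _
    · rw [hρ.letter, hL.zl_par]
      have h1 : c (zl (j + 1)) ∈ alle e ∪ {c (zl (j + 1))} := Or.inr rfl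
      exact ent_mem _ (Beta_unit T e _ 0) (T.subset_W _ h1) _ _

theorem Beta_iter_a (hρ : IsRho T e c par ρ₁) (hL : LamD par La fa zl) (n : ℕ) {x : A}
    (hx : x ∈ T.W (alle e ∪ c '' La)) : ρ₁^[n] x ∈ T.W (alle e ∪ c '' La) := by
  induction n with
  | zero => exact hx
  | succ n ih => rw [Function.iterate_succ_apply']; exact iter_a hρ hL ih

theorem Beta_phi_unitary (he : MU (e 0)) (hρ : IsRho T e c par ρ₁) (ha : ∀ j, a j ∈ unitary A)
    (hs : ∀ i δ, sgn i δ = 1 ∨ sgn i δ = -1) (wi : ι → Fin N → Tag × Δ) {y : A}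
    (hy : y ∈ unitary A) : Phi (e 0) ρ₁ a sgn wi y ∈ unitary A :=
  diag_unitary he fun i => ⟨hom_unitary ρ₁ (wd_ind (fun x => x ∈ unitary A) (one_mem _)
    (fun _ _ => mul_mem) (fun _ h => Unitary.star_mem h) ha (fun j => hom_unitary ρ₁ (ha j))
    (fun δ => sign_unitary he fun i => hs i δ) hy _), (hρ.range _).2 ⟨_, rfl⟩⟩

theorem Beta_phi_mem (hρ : IsRho T e c par ρ₁) (hL : LamD par La fa zl)
    (ha : ∀ j, a j ∈ T.W {c (fa j)}) (wi : ι → Fin N → Tag × Δ) {y : A} (n : ℕ)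
    (Q : StarSubalgebra ℂ A) (hQ : T.W (alle e ∪ c '' La) ≤ Q) (hy : ρ₁^[n + 1] y ∈ Q) :
    ρ₁^[n] (Phi (e 0) ρ₁ a sgn wi y) ∈ Q := by
  obtain ⟨σ, -, h2, h3⟩ := Beta_it hρ n
  have ha' : ∀ j, a j ∈ T.W (alle e ∪ c '' La) := fun j =>
    T.W_mono (Set.singleton_subset_iff.2 (Or.inr ⟨_, hL.fa_mem j, rfl⟩)) (ha j)
  have key : ∀ x ∈ T.W (alle e ∪ c '' La), σ (ρ₁ x) ∈ Q := fun x hx => by
    rw [h2]; exact hQ (Beta_iter_a hρ hL n (iter_a hρ hL hx))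
  rw [← h2, Phi, map_sum]
  refine sum_mem fun i _ => ?_
  rw [map_mul, h3]
  refine mul_mem (hQ (Beta_unit T e _ _ _ _)) ?_
  refine wd_ind (fun x => σ (ρ₁ x) ∈ Q) ?_ (fun x y hx hy => ?_) (fun x hx => ?_)
    (fun j => key _ (ha' j)) (fun j => key _ (iter_a hρ hL (ha' j))) (fun δ => key _ ?_) ?_ _
  · rw [map_one, map_one]; exact one_mem _
  · rw [map_mul, map_mul]; exact mul_mem hx hy
  · rw [map_star, map_star]; exact star_mem hx
  · exact sum_mem fun i _ => SMulMemClass.smul_mem _ (Beta_unit T e _ _ _ _)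
  · rw [h2]; exact hy

theorem Beta_polar {β : A →⋆ₐ[ℂ] A} {p u Φ : A} (T : TW A H) (hp : Pos p) (hi : Inj p)
    (hu : u ∈ unitary A) (hΦ : Φ ∈ unitary A) (h : β (p * u) = p * u * Φ) : β u = u * Φ := by
  have h1 : p * p = p * u * star (p * u) := by
    rw [star_mul, hp.sa.star_eq, mul_assoc, ← mul_assoc u, Unitary.mul_star_self_of_mem hu, one_mul]
  have h2 : β p * β p = p * p := by
    rw [← map_mul, h1, map_mul, map_star, h, star_mul (p * u), mul_assoc, ← mul_assoc Φ,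
      Unitary.mul_star_self_of_mem hΦ, one_mul]
  have h3 : β p = p := T.sqrt_unique (hp.map β) hp h2
  rw [map_mul, h3, mul_assoc] at h
  exact sub_eq_zero.1 (hi _ (by rw [mul_sub, h, sub_self]))

theorem exists_beta (h : IsModel T e c ℓ r) (hρ : IsRho T e c par ρ₁) (hL : LamD par La fa zl)
    (ha : ∀ j, a j ∈ unitary A ∧ a j ∈ T.W {c (fa j)}) (hs : ∀ i δ, sgn i δ = 1 ∨ sgn i δ = -1)
    (wi : ι → Fin N → Tag × Δ) :
    ∃ (β : A →⋆ₐ[ℂ] A) (h₀ : A), TP T T β ∧ Function.Surjective β ∧ h₀ ∈ unitary A ∧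
      (∀ x ∈ T.W (alle e ∪ c '' La), β x = x) ∧
      (∀ K, β (ρ₁^[2 * K + 1] h₀) = ρ₁^[2 * K + 1] h₀) ∧
      ∀ K, β (ρ₁^[2 * K] h₀) = ρ₁^[2 * K] h₀ * ρ₁^[2 * K] (Phi (e 0) ρ₁ a sgn wi h₀) := by
  have circ := h.circ
  obtain ⟨p, h₀, hp, -, hinj, hu, hc, -, um⟩ := T.polar (circ.inj (zl 0))
  set f : ℕ → Λ := fun K => zl (2 * K) with hf
  have hfi : Function.Injective f := fun K K' hK => by
    have := hL.zl_inj hK
    omega
  set D : StarSubalgebra ℂ A :=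
    T.W ((base e : Set A) ∪ {x | ∃ l, l ∉ Set.range f ∧ x = c l}) with hD
  have De : ∀ k i j, e k i j ∈ D := fun k i j =>
    T.subset_W _ (Or.inl (StarAlgebra.subset_adjoin ℂ _ ⟨k, i, j, rfl⟩))
  have Dc : ∀ l, l ∉ Set.range f → c l ∈ D := fun l hl => T.subset_W _ (Or.inr ⟨l, hl, rfl⟩)
  have Da : T.W (alle e ∪ c '' La) ≤ D := by
    refine T.W_le ?_
    rintro _ (⟨k, i, j, rfl⟩ | ⟨l, hl, rfl⟩)
    · exact De k i j
    · refine Dc l ?_
      rintro ⟨K, rfl⟩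
      exact hL.zl_not _ hl
  have Dh : ∀ K, ρ₁^[2 * K + 1] h₀ ∈ D := fun K => by
    refine T.W_le ?_ (iter_z hρ hL (2 * K + 1) um)
    rintro _ (⟨k, i, j, rfl⟩ | rfl)
    · exact De k i j
    · refine Dc _ ?_
      rintro ⟨K', hK⟩
      have := hL.zl_inj hK
      omega
  set Φ : ℕ → A := fun K => ρ₁^[2 * K] (Phi (e 0) ρ₁ a sgn wi h₀) with hΦ
  have Φu : ∀ K, Φ K ∈ unitary A := fun K => by
    obtain ⟨σ, -, h2, -⟩ := Beta_it hρ (2 * K)
    simp only [hΦ, ← h2]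
    exact hom_unitary σ (Beta_phi_unitary (h.tower.mu 0) hρ (fun j => (ha j).1) hs wi hu)
  have ΦD : ∀ K, Φ K ∈ D := fun K =>
    Beta_phi_mem hρ hL (fun j => (ha j).2) wi (2 * K) D Da (Dh K)
  have Φc : ∀ K, ∀ l < 2 * K, Cm (e l) (Φ K) := fun K =>
    (range_iterate hρ.tp.inj hρ.unit hρ.range (2 * K) _).2 ⟨_, rfl⟩
  have C1 : Circ T D fun K => c (f K) := circ.enlarge f hfi
  have C2 := C1.twist (fun _ => 1) Φ (fun _ => ⟨one_mem _, one_mem _⟩) fun K => ⟨ΦD K, Φu K⟩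
  have M := C1.match C2 (S := {q | q.1 = q.2 ∧ q.1 ∈ D}) (match_diag T fun q hq => hq.1)
    fun q hq => ⟨hq.2, hq.1 ▸ hq.2⟩
  obtain ⟨β, b1, b2, -, b4⟩ := exists_hom M (by
    refine top_le_iff.1 (h.gen.ge.trans (T.W_mono ?_))
    rintro _ (⟨k, i, j, rfl⟩ | ⟨l, rfl⟩)
    · exact ⟨(e k i j, e k i j), Or.inl ⟨rfl, De k i j⟩, rfl⟩
    · by_cases hl : l ∈ Set.range f
      · obtain ⟨K, rfl⟩ := hl
        exact ⟨_, Or.inr ⟨K, rfl⟩, rfl⟩
      · exact ⟨(c l, c l), Or.inl ⟨rfl, Dc l hl⟩, rfl⟩)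
  have bD : ∀ x ∈ D, β x = x := fun x hx => b2 (x, x) (Or.inl ⟨rfl, hx⟩)
  have bz : ∀ K, β (c (zl (2 * K))) = c (zl (2 * K)) * Φ K := fun K => by
    have := b2 _ (Or.inr ⟨K, rfl⟩)
    simpa only [one_mul] using this
  have key : ∀ K j i, i + j = 2 * K →
      β (ρ₁^[j] (c (zl i))) = ρ₁^[j] (c (zl i)) * Φ K := by
    intro K j
    induction j with
    | zero =>
      rintro i hi
      obtain rfl : i = 2 * K := hi
      exact bz K
    | succ j ih =>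
      intro i hi
      obtain ⟨σ, -, h2, h3⟩ := Beta_it hρ j
      have e1 : (fun s t => σ (e 0 s t)) = e j := by
        funext s t
        rw [h3, zero_add]
      have e2 : (fun s t => β (e j s t)) = e j := by
        funext s t
        exact bD _ (De j s t)
      rw [Function.iterate_succ_apply, hρ.letter, hL.zl_par, ← h2, ent_map, e1, ent_map, e2, h2,
        ih (i + 1) (by omega), ent_mul_right (Φc K j (by omega))]
  refine ⟨β, h₀, b1, fun y => b4 y ?_, hu, fun x hx => bD x (Da hx), fun K => bD _ (Dh K),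
    fun K => ?_⟩
  · have hy : y ∈ T.W (alle e ∪ Set.range c) := by rw [h.gen]; trivial
    refine T.W_le ?_ hy
    have hS : ∀ x ∈ D, x ∈ T.W (Prod.snd '' ({q : A × A | q.1 = q.2 ∧ q.1 ∈ D} ∪
        Set.range fun K => (c (f K), 1 * c (f K) * Φ K))) := fun x hx =>
      T.subset_W _ ⟨(x, x), Or.inl ⟨rfl, hx⟩, rfl⟩
    rintro _ (⟨k, i, j, rfl⟩ | ⟨l, rfl⟩)
    · exact hS _ (De k i j)
    · by_cases hl : l ∈ Set.range f
      · obtain ⟨K, rfl⟩ := hl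
        have e1 : c (f K) = 1 * c (f K) * Φ K * star (Φ K) := by
          rw [mul_assoc, Unitary.mul_star_self_of_mem (Φu K), mul_one, one_mul]
        rw [e1]
        exact mul_mem (T.subset_W _ ⟨_, Or.inr ⟨K, rfl⟩, rfl⟩) (star_mem (hS _ (ΦD K)))
      · exact hS _ (Dc l hl)
  · obtain ⟨σ, h1, h2, -⟩ := Beta_it hρ (2 * K)
    have k := key K (2 * K) 0 (zero_add _)
    rw [← h2, hc, map_mul] at k
    rw [← h2 h₀]
    exact Beta_polar T (hp.map σ) (Inj.map h1 hp.sa hinj) (hom_unitary σ hu) (Φu K) k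

end Pool.Agent.TS
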