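import Pool.Agent.P.MP_e05717_an.Th

/-!
Row TS-Cl. The comparison lemmas C1 to C4 (paper section 6).
Hints: `c1`: `μ = τ (star x' * x) / τ q`, `h.ga` for `y - μ • q`, `comm_le_Del`; `‖μ‖ ≤ 1` from
`n2 x ≤ n2 q`. `c2`: `n2 (x' * star x' - γ • α q) = n2 (star x' * x' - γ • q)` by expanding the squares
(`hα.tp`). `c4`: `y = star ξ * Th ξ`, `μ i k = m τ (star (V i V k*) y) / τ q`, `yM = ∑ μ i k • V i V k*`,
`h.gb` for `y - yM` (the `bb` commute with the `V i V k*`), Bessel for the commutator with `dd`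
(`dd_VV`, `τ_VV`, `n2_sum_orth`), `h.code`; `‖μ i i‖ ≤ 1`; `576 + 1 ≤ 625`.
-/

open scoped ComplexOrder InnerProductSpace ComplexConjugate ENNReal
open Filter Topology Pool.Agent.P.MP_5d580a_an

set_option linter.unusedSectionVars false
set_option linter.unusedVariables false

noncomputable section

namespace Pool.Agent.TS

variable {A H : Type} [CStarAlgebra A] [NormedAddCommGroup H] [InnerProductSpace ℂ H]
  [CompleteSpace H]
variable {ι : Type} [Fintype ι] [DecidableEq ι]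

variable {T : TW A H} {α ρ : A →⋆ₐ[ℂ] A} {q e₀ : A} {V : ι → A} {a : Fin 144 → A} {Z : ℕ → A}
  {Δ : Type} [Fintype Δ] {sgn : ι → Δ → ℝ} {n : ℕ} {wi : ι ≃ (Fin (2 * n) → Tag × Δ)}

theorem Cl_left (hq : IsStarProjection q) {x : A} (hx : x * q = x) : q * star x = star x := by
  have := congrArg star hx
  rwa [star_mul, hq.isSelfAdjoint.star_eq] at this

theorem Cl_right {p : A} (hp : IsStarProjection p) {x : A} (hx : p * x = x) :
    star x * p = star x := by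
  have := congrArg star hx
  rwa [star_mul, hp.isSelfAdjoint.star_eq] at this

theorem Cl_n2_le (T : TW A H) {x : A} (hx : InX α q x) : T.n2 x ≤ T.n2 q := by
  have := T.n2_mul_left x q
  rw [hx.2.1] at this
  exact this.trans (mul_le_of_le_one_left (T.n2_nonneg q) hx.2.2)

theorem Cl_gap (T : TW A H) {z : A} {f : Fin 144 → ℝ} {c : ℝ} (h0 : ∀ j, 0 ≤ f j)
    (hf : ∀ j, f j ≤ c) (h : T.n2 z ^ 2 ≤ ∑ j, f j ^ 2) : T.n2 z ≤ 12 * c := by
  have hc : 0 ≤ c := (h0 0).trans (hf 0)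
  refine (pow_le_pow_iff_left₀ (T.n2_nonneg z) (by positivity) two_ne_zero).1 (h.trans ?_)
  calc ∑ j, f j ^ 2 ≤ ∑ _j : Fin 144, c ^ 2 :=
        Finset.sum_le_sum fun j _ => pow_le_pow_left₀ (h0 j) (hf j) 2
    _ = (12 * c) ^ 2 := by simp; ring

theorem Cl_q_pos (h : Rig T ρ q e₀ V a Z sgn wi) : 0 < T.n2 q :=
  lt_of_le_of_ne (T.n2_nonneg q) fun h0 => h.q_ne (T.n2_eq_zero.1 h0.symm)

section Orth

variable {κ : Type} [Fintype κ] [DecidableEq κ] {E : κ → A} {s : ℝ}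

theorem Cl_n2_E (T : TW A H)
    (hE : ∀ p p', T.τ (star (E p) * E p') = if p = p' then (s : ℂ) else 0) (p : κ) :
    T.n2 (E p) ^ 2 = s := by
  have := hE p p
  rw [if_pos rfl, T.τ_star_mul_self] at this
  exact_mod_cast this

theorem Cl_n2_sum (T : TW A H)
    (hE : ∀ p p', T.τ (star (E p) * E p') = if p = p' then (s : ℂ) else 0) (c : κ → ℂ) :
    T.n2 (∑ p, c p • E p) ^ 2 = ∑ p, ‖c p‖ ^ 2 * s := by
  rw [T.n2_sum_orth]
  · refine Finset.sum_congr rfl fun p _ => ?_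
    rw [T.n2_smul, mul_pow, Cl_n2_E T hE]
  · intro i _ j _ hij
    rw [star_smul, smul_mul_assoc, mul_smul_comm, map_smul, map_smul, hE, if_neg hij]; simp

theorem Cl_orth (T : TW A H) (hs : s ≠ 0)
    (hE : ∀ p p', T.τ (star (E p) * E p') = if p = p' then (s : ℂ) else 0) (w : A) (p : κ) :
    T.τ (star (E p) * (w - ∑ p', (T.τ (star (E p') * w) / s) • E p')) = 0 := by
  have hs' : (s : ℂ) ≠ 0 := by exact_mod_cast hs
  rw [mul_sub, map_sub, Finset.mul_sum, map_sum, Finset.sum_eq_single p]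
  · rw [mul_smul_comm, map_smul, hE, if_pos rfl, smul_eq_mul, div_mul_cancel₀ _ hs', sub_self]
  · intro j _ hj
    rw [mul_smul_comm, map_smul, hE, if_neg (Ne.symm hj), smul_zero]
  · simp

theorem Cl_bessel (T : TW A H) (hs : s ≠ 0)
    (hE : ∀ p p', T.τ (star (E p) * E p') = if p = p' then (s : ℂ) else 0) (w : A) :
    ∑ p, ‖T.τ (star (E p) * w) / s‖ ^ 2 * s ≤ T.n2 w ^ 2 := by
  rw [← Cl_n2_sum T hE]
  have h1 := T.n2_add_sq (∑ p', (T.τ (star (E p') * w) / s) • E p')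
    (w - ∑ p', (T.τ (star (E p') * w) / s) • E p')
  have h2 : T.τ (star (∑ p', (T.τ (star (E p') * w) / s) • E p') *
      (w - ∑ p', (T.τ (star (E p') * w) / s) • E p')) = 0 := by
    rw [star_sum, Finset.sum_mul, map_sum]
    refine Finset.sum_eq_zero fun p _ => ?_
    rw [star_smul, smul_mul_assoc, map_smul, Cl_orth T hs hE, smul_zero]
  rw [add_sub_cancel, h2] at h1
  rw [h1]
  simp only [Complex.zero_re, mul_zero, add_zero]
  exact le_add_of_nonneg_right (sq_nonneg _)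

end Orth

theorem c1 (h : Rig T ρ q e₀ V a Z sgn wi) {x x' : A} (hx : InX α q x) (hx' : InX α q x')
    {η η' : ℝ} (h1 : SA T α a x η) (h2 : SA T α a x' η') :
    ∃ μ : ℂ, ‖μ‖ ≤ 1 ∧ μ * T.τ q = T.τ (star x' * x) ∧
      T.n2 (star x' * x - μ • q) ≤ 12 * (η + η') := by
  have hq := h.fr.q_proj
  have hpos := Cl_q_pos h
  have hτ : T.τ q = ((T.n2 q ^ 2 : ℝ) : ℂ) := T.τ_proj hq
  have hne : T.τ q ≠ 0 := by rw [hτ]; exact_mod_cast (pow_pos hpos 2).ne'
  have hqq : q * q = q := hq.isIdempotentElem.eq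
  refine ⟨T.τ (star x' * x) / T.τ q, ?_, div_mul_cancel₀ _ hne, ?_⟩
  · rw [norm_div, hτ, Complex.norm_real, Real.norm_of_nonneg (sq_nonneg _),
      div_le_one (pow_pos hpos 2), sq]
    refine (T.norm_τ_mul_le _ _).trans ?_
    rw [T.n2_star]
    exact mul_le_mul (Cl_n2_le T hx') (Cl_n2_le T hx) (T.n2_nonneg _) hpos.le
  · generalize hμ : T.τ (star x' * x) / T.τ q = μ
    refine Cl_gap T (fun j => T.n2_nonneg _) (fun j => ?_) (h.ga _ ?_ ?_ ?_)
    · have e : a j * (star x' * x - μ • q) - (star x' * x - μ • q) * a j =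
          a j * (star x' * x) - star x' * x * a j := by
        rw [mul_sub, sub_mul, mul_smul_comm, smul_mul_assoc, (h.ha j).2]; abel
      rw [e]
      exact (comm_le_Del (α := α) T (h.ha j).1 hx.2.2 hx'.2.2).trans (add_le_add (h1 j) (h2 j))
    · rw [mul_sub, ← mul_assoc, Cl_left hq hx'.2.1, mul_smul_comm, hqq]
    · rw [sub_mul, mul_assoc, hx.2.1, smul_mul_assoc, hqq]
    · rw [map_sub, map_smul, ← hμ, smul_eq_mul, div_mul_cancel₀ _ hne, sub_self]

theorem c2 (hq : IsStarProjection q) (hα : TP T T α) {x x' y : A} (hx : InX α q x)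
    (hx' : InX α q x') {γ e₁ e₂ : ℝ} (hγ : 1 / 4 ≤ γ) (h1 : T.n2 (star x' * x - y) ≤ e₁)
    (h2 : T.n2 (star x' * x' - (γ : ℂ) • q) ≤ e₂) :
    T.n2 (x - x' * ((γ : ℂ)⁻¹ • y)) ≤ 4 * (e₁ + e₂) := by
  have hp : IsStarProjection (α q) := hq.map α
  have hγ0 : 0 < γ := by linarith
  have hγc : (γ : ℂ) ≠ 0 := by exact_mod_cast hγ0.ne'
  have k1 : T.n2 (x' * star x') ^ 2 = T.n2 (star x' * x') ^ 2 := by
    have e1 := T.τ_star_mul_self (x' * star x')
    have e2 := T.τ_star_mul_self (star x' * x')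
    rw [star_mul, star_star] at e1 e2
    rw [mul_assoc, T.τ_comm, mul_assoc, mul_assoc, ← mul_assoc (star x') x', e2] at e1
    exact_mod_cast e1.symm
  have k2 : T.τ (star (x' * star x') * (γ : ℂ) • α q) = T.τ (star (star x' * x') * (γ : ℂ) • q) := by
    rw [star_mul, star_star, star_mul, star_star, mul_smul_comm, mul_smul_comm, mul_assoc,
      mul_assoc, Cl_right hp hx'.1, hx'.2.1, map_smul, map_smul, T.τ_comm]
  have k3 : T.n2 (x' * star x' - (γ : ℂ) • α q) = T.n2 (star x' * x' - (γ : ℂ) • q) := by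
    rw [← sq_eq_sq₀ (T.n2_nonneg _) (T.n2_nonneg _), T.n2_sub_sq, T.n2_sub_sq, k1, k2, T.n2_smul,
      T.n2_smul, hα.n2]
  have e : x - x' * ((γ : ℂ)⁻¹ • y) =
      (γ : ℂ)⁻¹ • (x' * (star x' * x - y) - (x' * star x' - (γ : ℂ) • α q) * x) := by
    rw [mul_sub, sub_mul, smul_mul_assoc, hx.1, mul_assoc, mul_smul_comm, smul_sub, smul_sub,
      smul_sub, smul_smul, inv_mul_cancel₀ hγc, one_smul]
    abel
  have b1 : T.n2 (x' * (star x' * x - y)) ≤ e₁ :=
    (T.n2_mul_left _ _).trans ((mul_le_of_le_one_left (T.n2_nonneg _) hx'.2.2).trans h1)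
  have b2 : T.n2 ((x' * star x' - (γ : ℂ) • α q) * x) ≤ e₂ :=
    (T.n2_mul_right _ _).trans ((mul_le_of_le_one_right (T.n2_nonneg _) hx.2.2).trans
      (k3.trans_le h2))
  rw [e, T.n2_smul]
  refine mul_le_mul ?_ ((T.n2_sub_le _ _).trans (add_le_add b1 b2)) (T.n2_nonneg _) (by norm_num)
  rw [norm_inv, Complex.norm_real, Real.norm_of_nonneg hγ0.le, inv_le_comm₀ hγ0 (by norm_num)]
  linarith

theorem c1_self (h : Rig T ρ q e₀ V a Z sgn wi) {x : A} (hx : InX α q x) (hb : Big T q x) {η : ℝ}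
    (h1 : SA T α a x η) :
    ∃ γ : ℝ, 1 / 4 ≤ γ ∧ T.n2 (star x * x - (γ : ℂ) • q) ≤ 24 * η := by
  obtain ⟨μ, -, hμ, hb2⟩ := c1 h hx hx h1 h1
  have hpos := Cl_q_pos h
  have hp2 : 0 < T.n2 q ^ 2 := pow_pos hpos 2
  rw [T.τ_proj h.fr.q_proj, T.τ_star_mul_self] at hμ
  have hne : ((T.n2 q ^ 2 : ℝ) : ℂ) ≠ 0 := by exact_mod_cast hp2.ne'
  refine ⟨T.n2 x ^ 2 / T.n2 q ^ 2, ?_, ?_⟩
  · rw [le_div_iff₀ hp2]
    have : T.n2 q ≤ 2 * T.n2 x := hb
    nlinarith
  · rw [Complex.ofReal_div, ← hμ, mul_div_cancel_right₀ _ hne]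
    linarith

theorem Cl_inv {γ : ℝ} (hγ : 1 / 4 ≤ γ) {μ : ℂ} (hμ : ‖μ‖ ≤ 1) : ‖(γ : ℂ)⁻¹ * μ‖ ≤ 4 := by
  have hγ0 : 0 < γ := by linarith
  rw [norm_mul, norm_inv, Complex.norm_real, Real.norm_of_nonneg hγ0.le]
  refine (mul_le_of_le_one_right (by positivity) hμ).trans ?_
  rw [inv_le_comm₀ hγ0 (by norm_num)]
  linarith

theorem c3 (h : Rig T ρ q e₀ V a Z sgn wi) (hα : Defo T ρ e₀ α) {x ξ : A} (hx : InX α q x)
    (hξ : InX α q ξ) (hb : Big T q ξ) {η η' : ℝ} (h1 : SA T α a x η) (h2 : SA T α a ξ η') :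
    ∃ μ : ℂ, ‖μ‖ ≤ 4 ∧ T.n2 (x - μ • ξ) ≤ 48 * η + 144 * η' := by
  obtain ⟨μ, hμ, -, b1⟩ := c1 h hx hξ h1 h2
  obtain ⟨γ, hγ, b2⟩ := c1_self h hξ hb h2
  refine ⟨(γ : ℂ)⁻¹ * μ, Cl_inv hγ hμ, ?_⟩
  have := c2 h.fr.q_proj hα.tp hx hξ hγ b1 b2
  rw [smul_smul, mul_smul_comm, hξ.2.1] at this
  linarith

theorem Cl_bb_comm (h : Frame T ρ q e₀ V) (ha : ∀ j, UQ q (a j)) (j : Fin 144) (i k : ι) :
    bb ρ V q a j * (V i * star (V k)) = V i * star (V k) * bb ρ V q a j := by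
  have e1 : Gm ρ V (fun _ => a j) * (V i * star (V k)) =
      V i * (ρ (a j) * (ρ q * e₀)) * star (V k) := by
    rw [Gm, Finset.sum_mul, Finset.sum_eq_single i]
    · rw [← h.same i]; simp only [mul_assoc]
    · intro l _ hl
      rw [mul_assoc, ← mul_assoc (star (V l)), h.diff l i hl, zero_mul, mul_zero]
    · simp
  have e2 : V i * star (V k) * Gm ρ V (fun _ => a j) =
      V i * (ρ q * e₀ * ρ (a j)) * star (V k) := by
    rw [Gm, Finset.mul_sum, Finset.sum_eq_single k]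
    · rw [← h.same k]; simp only [mul_assoc]
    · intro l _ hl
      rw [mul_assoc, mul_assoc, ← mul_assoc (star (V k)), h.diff k l (Ne.symm hl), zero_mul,
        mul_zero]
    · simp
  have e3 : ρ (a j) * (ρ q * e₀) = ρ q * e₀ * ρ (a j) := by
    rw [mul_assoc, h.e_comm, ← mul_assoc, ← mul_assoc, ← map_mul, ← map_mul, (ha j).2]
  rw [bb, add_mul, mul_add, e1, e2, e3, sub_mul, mul_sub, one_mul, mul_one, ← mul_assoc q,
    h.q_V, mul_assoc (V i) (star (V k)) q, Cl_right h.q_proj (h.q_V k)]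

theorem c4 (h : Rig T ρ q e₀ V a Z sgn wi) (hα : Defo T ρ e₀ α) {ξ : A} (hξ : InX α q ξ)
    (hb : Big T q ξ) {η : ℝ} (h1 : SA T α a ξ η) (h2 : SA T α (bb ρ V q a) ξ η)
    (h3 : ∑ δ, Del T α (dd V q sgn δ) ξ ^ 2 ≤ Fintype.card Δ * η ^ 2) :
    Vd T α ρ V ξ (196 * η) := by
  have fr := h.fr
  have hq := fr.q_proj
  have hpos := Cl_q_pos h
  have hι : Nonempty ι := by
    by_contra hn
    rw [not_nonempty_iff] at hn
    exact h.q_ne (by rw [← fr.sum]; simp)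
  have hΔ : Nonempty Δ := h.ne
  have hm : (0 : ℝ) < Fintype.card ι := by exact_mod_cast Fintype.card_pos
  have hd : (0 : ℝ) < Fintype.card Δ := by exact_mod_cast Fintype.card_pos
  have hη : 0 ≤ η := (Del_nonneg T α _ _).trans (h1 0)
  have hx := fr.Th_inX hα hξ
  obtain ⟨s, hs0, hE⟩ : ∃ s : ℝ, 0 < s ∧ ∀ p p' : ι × ι, T.τ (star (V p.1 * star (V p.2)) *
      (V p'.1 * star (V p'.2))) = if p = p' then (s : ℂ) else 0 := by
    refine ⟨T.n2 q ^ 2 / Fintype.card ι, by positivity, fun p p' => ?_⟩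
    rw [fr.τ_VV, T.τ_proj hq]
    simp only [Prod.ext_iff]
    push_cast; rfl
  have hdb : ∀ j, Del T α (bb ρ V q a j) (Th α ρ V ξ) ≤ η := fun j =>
    (fr.Del_bb hα h.ha hξ j).trans (h1 j)
  have hdd : ∀ δ, Del T α (dd V q sgn δ) (Th α ρ V ξ) = 0 := fun δ => fr.Del_dd hα sgn δ hξ
  unfold Vd
  generalize Th α ρ V ξ = x at hx hdb hdd ⊢
  have hy : ‖star ξ * x‖ ≤ 1 := (norm_mul_le _ _).trans
    (mul_le_one₀ (by rw [norm_star]; exact hξ.2.2) (norm_nonneg _) hx.2.2)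
  obtain ⟨μ, hμ⟩ : ∃ μ : ι × ι → ℂ,
      ∀ p, μ p = T.τ (star (V p.1 * star (V p.2)) * (star ξ * x)) / s := ⟨_, fun _ => rfl⟩
  have b1 : T.n2 (star ξ * x - ∑ p, μ p • (V p.1 * star (V p.2))) ≤ 12 * (η + η) := by
    refine Cl_gap T (fun j => T.n2_nonneg _) (fun j => ?_) (h.gb _ ?_ ?_ ?_)
    · have e0 : bb ρ V q a j * ∑ p, μ p • (V p.1 * star (V p.2)) =
          (∑ p, μ p • (V p.1 * star (V p.2))) * bb ρ V q a j := by
        rw [Finset.mul_sum, Finset.sum_mul]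
        refine Finset.sum_congr rfl fun p _ => ?_
        rw [mul_smul_comm, smul_mul_assoc, Cl_bb_comm fr h.ha]
      have e : bb ρ V q a j * (star ξ * x - ∑ p, μ p • (V p.1 * star (V p.2))) -
          (star ξ * x - ∑ p, μ p • (V p.1 * star (V p.2))) * bb ρ V q a j =
          bb ρ V q a j * (star ξ * x) - star ξ * x * bb ρ V q a j := by
        rw [mul_sub, sub_mul, e0]; abel
      rw [e]
      exact (comm_le_Del (α := α) T (fr.bb_UQ h.ha j).1 hx.2.2 hξ.2.2).trans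
        (add_le_add (hdb j) (h2 j))
    · rw [mul_sub, ← mul_assoc, Cl_left hq hξ.2.1, Finset.mul_sum]
      congr 1
      refine Finset.sum_congr rfl fun p _ => ?_
      rw [mul_smul_comm, ← mul_assoc, fr.q_V]
    · rw [sub_mul, mul_assoc, hx.2.1, Finset.sum_mul]
      congr 1
      refine Finset.sum_congr rfl fun p _ => ?_
      rw [smul_mul_assoc, mul_assoc, Cl_right hq (fr.q_V _)]
    · intro i k
      simp only [hμ]
      exact Cl_orth T (E := fun p : ι × ι => V p.1 * star (V p.2)) hs0.ne' hE _ (i, k)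
  have b2 : ∀ δ, ∑ p : ι × ι, (sgn p.1 δ - sgn p.2 δ) ^ 2 * (‖μ p‖ ^ 2 * s) ≤
      Del T α (dd V q sgn δ) ξ ^ 2 := by
    intro δ
    have c0 := comm_le_Del (α := α) T (fr.dd_UQ h.code.1 δ).1 hx.2.2 hξ.2.2
    rw [hdd, zero_add] at c0
    refine le_trans (le_of_eq ?_) ((Cl_bessel T (E := fun p : ι × ι => V p.1 * star (V p.2))
      hs0.ne' hE _).trans (pow_le_pow_left₀ (T.n2_nonneg _) c0 2))
    refine Finset.sum_congr rfl fun p _ => ?_
    have e : T.τ (star (V p.1 * star (V p.2)) * (dd V q sgn δ * (star ξ * x) -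
        star ξ * x * dd V q sgn δ)) / s = ((sgn p.1 δ - sgn p.2 δ : ℝ) : ℂ) * μ p := by
      rw [hμ, star_mul, star_star, mul_sub, map_sub, ← mul_assoc _ (dd V q sgn δ),
        (fr.dd_VV sgn δ p.2 p.1).2, ← mul_assoc _ (star ξ * x), T.τ_comm _ (dd V q sgn δ),
        ← mul_assoc (dd V q sgn δ), (fr.dd_VV sgn δ p.2 p.1).1, smul_mul_assoc, smul_mul_assoc,
        map_smul, map_smul, smul_eq_mul, smul_eq_mul]
      push_cast; ring
    rw [e, norm_mul, mul_pow, Complex.norm_real, Real.norm_eq_abs, sq_abs, mul_assoc]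
  have b3 : T.n2 (∑ p : ι × ι, (if p.1 = p.2 then 0 else μ p) • (V p.1 * star (V p.2))) ≤ η := by
    refine (pow_le_pow_iff_left₀ (T.n2_nonneg _) hη two_ne_zero).1 ?_
    rw [Cl_n2_sum T (E := fun p : ι × ι => V p.1 * star (V p.2)) hE]
    refine le_of_mul_le_mul_left (le_trans ?_ ((Finset.sum_le_sum fun δ _ => b2 δ).trans h3)) hd
    rw [Finset.sum_comm, Finset.mul_sum]
    refine Finset.sum_le_sum fun p _ => ?_
    rw [← Finset.sum_mul]
    split_ifs with hp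
    · simp only [norm_zero, ne_eq, OfNat.ofNat_ne_zero, not_false_eq_true, zero_pow, zero_mul,
        mul_zero]
      positivity
    · exact mul_le_mul_of_nonneg_right (h.code.2 _ _ hp) (by positivity)
  have b4 : T.n2 (star ξ * x - dia V fun i => μ (i, i)) ≤ 25 * η := by
    have e : ∑ p : ι × ι, μ p • (V p.1 * star (V p.2)) - dia V (fun i => μ (i, i)) =
        ∑ p : ι × ι, (if p.1 = p.2 then 0 else μ p) • (V p.1 * star (V p.2)) := by
      rw [sub_eq_iff_eq_add, dia, Fintype.sum_prod_type, Fintype.sum_prod_type,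
        ← Finset.sum_add_distrib]
      refine Finset.sum_congr rfl fun i _ => ?_
      rw [← Finset.add_sum_erase _ _ (Finset.mem_univ i),
        ← Finset.add_sum_erase _ _ (Finset.mem_univ i), if_pos rfl, zero_smul, zero_add, add_comm]
      congr 1
      refine Finset.sum_congr rfl fun k hk => ?_
      rw [if_neg (Finset.ne_of_mem_erase hk).symm]
    have := T.n2_triangle (star ξ * x) (∑ p : ι × ι, μ p • (V p.1 * star (V p.2)))
      (dia V fun i => μ (i, i))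
    rw [e] at this
    linarith
  have b5 : ∀ i, ‖μ (i, i)‖ ≤ 1 := by
    intro i
    have n1 := Cl_n2_E T (E := fun p : ι × ι => V p.1 * star (V p.2)) hE (i, i)
    have e1 : V i * star (V i) * (V i * star (V i)) = V i * star (V i) := by
      rw [mul_assoc, ← mul_assoc (star (V i)), fr.same, ← mul_assoc, ← mul_assoc, fr.V_ρq, fr.V_e]
    rw [hμ, norm_div, Complex.norm_real, Real.norm_of_nonneg hs0.le, div_le_one hs0, star_mul,
      star_star, ← e1, mul_assoc, ← n1, sq]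
    refine (T.norm_τ_mul_le _ _).trans (mul_le_mul_of_nonneg_left ?_ (T.n2_nonneg _))
    exact (T.n2_mul_right _ _).trans (mul_le_of_le_one_right (T.n2_nonneg _) hy)
  obtain ⟨γ, hγ, b6⟩ := c1_self h hξ hb h1
  refine ⟨fun i => (γ : ℂ)⁻¹ * μ (i, i), fun i => Cl_inv hγ (b5 i), ?_⟩
  have := c2 hq hα.tp hx hξ hγ b4 b6
  have e : (γ : ℂ)⁻¹ • dia V (fun i => μ (i, i)) = dia V fun i => (γ : ℂ)⁻¹ * μ (i, i) := by
    rw [dia, dia, Finset.smul_sum]
    exact Finset.sum_congr rfl fun i _ => smul_smul _ _ _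
  rw [e] at this
  linarith


end Pool.Agent.TS
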