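import Pool.Agent.P.MP_e05717_an.Wick2

/-!
Row TS-Free. Regular families and freeness (paper F1).
Hints: `CC.free`: groups `G none = FreeGroup κ`, `G (some k) = Multiplicative ℤ` (or `FreeGroup Unit`),
the homomorphism `FreeGroup (κ ⊕ K) →* Monoid.CoprodI G` has a left inverse, so `g ≠ 1` gives a nonempty
`Monoid.CoprodI.Word`; ping-pong by induction on the list of the word with the sets
`{ζ | ∀ i, blk i = k → star (ℓ i) ζ = 0}` and `ℂ Ω + closure (span (ranges of the ℓ i))`,
`CC.center_mem`. `reg_match`: the span of the pairs `(lift u g, lift u' g)` is a star subalgebra.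
`reg_of_levels`: an element of the free group uses finitely many letters
(`FreeGroup.map`, induction, or `FreeGroup.toWord`).
-/

open scoped ComplexOrder InnerProductSpace ComplexConjugate ENNReal
open Filter Topology Pool.Agent.P.MP_5d580a_an

set_option linter.unusedSectionVars false
set_option linter.unusedVariables false

noncomputable section

namespace Pool.Agent.TS

variable {A H : Type} [CStarAlgebra A] [NormedAddCommGroup H] [InnerProductSpace ℂ H]
  [CompleteSpace H]
variable {A' H' : Type} [CStarAlgebra A'] [NormedAddCommGroup H'] [InnerProductSpace ℂ H']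
  [CompleteSpace H']

variable {T : TW A H} {T' : TW A' H'}

theorem Free_coe_inv (x : unitary A) : ((x⁻¹ : unitary A) : A) = star (x : A) := rfl

theorem Free_lift_map {κ κ' G : Type} [Group G] (u : κ → G) (f : κ' → κ) (g : FreeGroup κ') :
    FreeGroup.lift u (FreeGroup.map f g) = FreeGroup.lift (fun t => u (f t)) g :=
  DFunLike.congr_fun (FreeGroup.ext_hom ((FreeGroup.lift u).comp (FreeGroup.map f))
    (FreeGroup.lift fun t => u (f t)) fun a => by simp) g

theorem Free_lift_mem {κ : Type} (u : κ → unitary A) (B : StarSubalgebra ℂ A)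
    (h : ∀ t, (u t : A) ∈ B) (g : FreeGroup κ) : ((FreeGroup.lift u g : unitary A) : A) ∈ B := by
  induction g using FreeGroup.induction_on with
  | C1 =>
    rw [map_one]
    exact one_mem B
  | of x =>
    rw [FreeGroup.lift_apply_of]
    exact h x
  | inv_of x hx =>
    rw [map_inv, Free_coe_inv]
    exact star_mem hx
  | mul x y hx hy =>
    rw [map_mul, Submonoid.coe_mul]
    exact mul_mem hx hy

theorem Free_kill {E : Type} [NormedAddCommGroup E] [NormedSpace ℂ E] (X : H →L[ℂ] E) {s : Set H}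
    (h : ∀ ξ ∈ s, X ξ = 0) : ∀ ξ ∈ closure (Submodule.span ℂ s : Set H), X ξ = 0 := by
  have h1 : Submodule.span ℂ s ≤ LinearMap.ker (X : H →ₗ[ℂ] E) := Submodule.span_le.2 h
  exact fun ξ hξ => closure_minimal (t := {ξ | X ξ = 0}) (fun η hη => h1 hη)
    (isClosed_eq X.continuous continuous_const) hξ

/-- ping-pong for a family that is regular on each block -/
theorem Free_alt {X J : Type} (lab : X → J) (w : X → unitary A) (B : J → StarSubalgebra ℂ A)
    (S O : J → Set H) (h1 : ∀ j, Reg T fun x : {x // lab x = j} => w x.1)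
    (h2 : ∀ x, (w x : A) ∈ B (lab x))
    (h3 : ∀ j, ∀ d ∈ B j, T.τ d = 0 → ∀ ζ ∈ S j, T.L d ζ ∈ O j)
    (h4 : ∀ j j', j ≠ j' → ∀ ζ ∈ O j, ζ ∈ S j') (h5 : ∀ j, T.Ω ∈ S j)
    (h6 : ∀ j, ∀ ζ ∈ O j, ⟪T.Ω, ζ⟫_ℂ = 0) : Reg T w := by
  classical
  let G : J → Type := fun j => FreeGroup {x // lab x = j}
  let φ : FreeGroup X →* Monoid.CoprodI G := FreeGroup.lift fun x =>
    Monoid.CoprodI.of (M := G) (i := lab x) (FreeGroup.of ⟨x, rfl⟩)
  let ψ : Monoid.CoprodI G →* FreeGroup X :=
    Monoid.CoprodI.lift fun j => FreeGroup.map (Subtype.val : {x // lab x = j} → X)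
  have e : ∀ g, ψ (φ g) = g := fun g =>
    DFunLike.congr_fun (FreeGroup.ext_hom (ψ.comp φ) (MonoidHom.id _) fun a => by
      simp only [φ, ψ, MonoidHom.comp_apply, FreeGroup.lift_apply_of, Monoid.CoprodI.lift_of,
        MonoidHom.id_apply]
      rfl) g
  have key : ∀ W : Monoid.CoprodI.Word G,
      (∀ j, W.fstIdx ≠ some j → T.v (FreeGroup.lift w (ψ W.prod) : unitary A) ∈ S j) ∧
      (W.prod ≠ 1 → T.τ (FreeGroup.lift w (ψ W.prod) : unitary A) = 0) := by
    intro W
    refine Monoid.CoprodI.Word.consRecOn W ⟨fun j _ => ?_, fun h => absurd rfl h⟩ ?_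
    · rw [Monoid.CoprodI.Word.prod_empty, map_one, map_one, OneMemClass.coe_one, T.v_one]
      exact h5 j
    · intro i m W a1 a2 ih
      have b1 : T.v (FreeGroup.lift w (ψ (Monoid.CoprodI.Word.cons m W a1 a2).prod) : unitary A)
          ∈ O i := by
        rw [Monoid.CoprodI.Word.prod_cons, map_mul, map_mul, Submonoid.coe_mul, T.v_mul]
        have b2 : ψ (Monoid.CoprodI.of m) = FreeGroup.map Subtype.val m :=
          Monoid.CoprodI.lift_of _ m
        rw [b2, Free_lift_map]
        refine h3 i _ (Free_lift_mem _ _ (fun t => ?_) m) (h1 i m a2) _ (ih.1 i a1)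
        obtain ⟨x, rfl⟩ := t
        exact h2 x
      refine ⟨fun j hj => h4 i j (fun e => hj ?_) _ b1, fun _ => h6 i _ b1⟩
      rw [Monoid.CoprodI.Word.fstIdx_cons, e]
  intro g hg
  have e2 : (Monoid.CoprodI.Word.equiv (φ g)).prod = φ g := Monoid.CoprodI.Word.equiv.left_inv _
  have h7 := (key (Monoid.CoprodI.Word.equiv (φ g))).2
  rw [e2, e] at h7
  exact h7 fun e' => hg (by rw [← e g, e', map_one])

theorem Reg.comp {κ κ' : Type} {u : κ → unitary A} (h : Reg T u) (f : κ' → κ)
    (hf : Function.Injective f) : Reg T fun t => u (f t) := by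
  intro g hg
  rw [← Free_lift_map u f g]
  exact h _ fun e => hg (FreeGroup.map_injective hf (by rw [e, map_one]))
theorem Reg.map {κ : Type} {u : κ → unitary A} (h : Reg T u) {φ : A →⋆ₐ[ℂ] A'} (hφ : TP T T' φ)
    {u' : κ → unitary A'} (hu : ∀ t, (u' t : A') = φ (u t)) : Reg T' u' := by
  intro g hg
  have e : ((FreeGroup.lift u' g : unitary A') : A') = φ (FreeGroup.lift u g : unitary A) := by
    clear hg
    induction g using FreeGroup.induction_on with
    | C1 => simp
    | of x => simp [hu]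
    | inv_of x hx => rw [map_inv, map_inv, Free_coe_inv, Free_coe_inv, hx, map_star]
    | mul x y hx hy => rw [map_mul, map_mul, Submonoid.coe_mul, Submonoid.coe_mul, hx, hy, map_mul]
  rw [e, hφ]
  exact h g hg
theorem reg_empty {κ : Type} [IsEmpty κ] (u : κ → unitary A) : Reg T u :=
  fun g hg => absurd (Subsingleton.elim g 1) hg
theorem Haar.reg {h : unitary A} (hh : Haar T h) : Reg T fun _ : Unit => h := by
  intro g hg
  obtain ⟨n, rfl⟩ : ∃ n : ℤ, FreeGroup.of () ^ n = g :=
    ⟨_, FreeGroup.freeGroupUnitEquivInt.left_inv g⟩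
  rw [map_zpow, FreeGroup.lift_apply_of]
  exact hh n fun e => hg (by rw [e, zpow_zero])
theorem reg_match {κ : Type} {u : κ → unitary A} {u' : κ → unitary A'} (h : Reg T u)
    (h' : Reg T' u') : Match T T' (Set.range fun t => ((u t : A), (u' t : A'))) := by
  let P : FreeGroup κ →* A × A' :=
    ((unitary A).subtype.comp (FreeGroup.lift u)).prod
      ((unitary A').subtype.comp (FreeGroup.lift u'))
  have hP : ∀ g, P g = (((FreeGroup.lift u g : unitary A) : A),
      ((FreeGroup.lift u' g : unitary A') : A')) := fun g => rfl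
  intro g hg
  have h1 : g ∈ Submodule.span ℂ (Submonoid.closure
      ((Set.range fun t => ((u t : A), (u' t : A'))) ∪
        star (Set.range fun t => ((u t : A), (u' t : A')))) : Set (A × A')) := by
    rw [← Algebra.adjoin_eq_span, Subalgebra.mem_toSubmodule, ← StarAlgebra.adjoin_toSubalgebra]
    exact hg
  have h2 : Submonoid.closure ((Set.range fun t => ((u t : A), (u' t : A'))) ∪
      star (Set.range fun t => ((u t : A), (u' t : A')))) ≤ MonoidHom.mrange P := by
    refine Submonoid.closure_le.2 ?_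
    rintro x (⟨t, rfl⟩ | hx)
    · exact ⟨FreeGroup.of t, by simp [hP]⟩
    · obtain ⟨t, ht⟩ := Set.mem_star.1 hx
      refine ⟨(FreeGroup.of t)⁻¹, ?_⟩
      rw [← star_star x, ← ht, hP, map_inv, map_inv, Free_coe_inv, Free_coe_inv,
        FreeGroup.lift_apply_of, FreeGroup.lift_apply_of]
      rfl
  clear hg
  induction h1 using Submodule.span_induction with
  | mem x hx =>
    obtain ⟨γ, rfl⟩ := h2 hx
    by_cases e : γ = 1
    · rw [e, map_one, Prod.fst_one, Prod.snd_one, T.τ_one, T'.τ_one]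
    · exact (h γ e).trans (h' γ e).symm
  | zero => simp
  | add x y _ _ hx hy => rw [Prod.fst_add, Prod.snd_add, map_add, map_add, hx, hy]
  | smul a x _ hx => rw [Prod.smul_fst, Prod.smul_snd, map_smul, map_smul, hx]
theorem rg_of_countable {κ : Type} [Countable κ] [Infinite κ] {u : κ → unitary A} (h : Reg T u) :
    RG T (T.W (Set.range fun t => (u t : A))) := by
  obtain ⟨e⟩ : Nonempty (ℕ ≃ κ) := inferInstance
  refine ⟨fun n => u (e n), h.comp e e.injective, ?_⟩
  exact congrArg T.W (e.surjective.range_comp fun t => (u t : A))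
theorem reg_of_levels {κ : Type} (u : ℕ × κ → unitary A)
    (h : ∀ k, Reg T fun p : {p : ℕ × κ // p.1 < k} => u p.1) : Reg T u := by
  have key : ∀ g : FreeGroup (ℕ × κ), ∃ k, ∀ k', k ≤ k' →
      g ∈ (FreeGroup.map (Subtype.val : {p : ℕ × κ // p.1 < k'} → ℕ × κ)).range := by
    intro g
    induction g using FreeGroup.induction_on with
    | C1 => exact ⟨0, fun _ _ => one_mem _⟩
    | of x => exact ⟨x.1 + 1, fun k' hk => ⟨FreeGroup.of ⟨x, hk⟩, rfl⟩⟩
    | inv_of x hx => exact hx.imp fun k hk k' h' => inv_mem (hk k' h')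
    | mul x y hx hy =>
      obtain ⟨k, hk⟩ := hx
      obtain ⟨l, hl⟩ := hy
      exact ⟨max k l, fun k' h' => mul_mem (hk k' (le_of_max_le_left h'))
        (hl k' (le_of_max_le_right h'))⟩
  intro g hg
  obtain ⟨k, hk⟩ := key g
  obtain ⟨γ, rfl⟩ := hk k le_rfl
  rw [Free_lift_map]
  exact h k γ fun e => hg (by rw [e, map_one])
theorem CC.free {D : StarSubalgebra ℂ A} {I : Type} {bar : I → I} {ℓ : I → (H →L[ℂ] H)}
    {c : I → A} (h : CC T D bar ℓ c) {K : Type} (blk : I → K) (hb : ∀ i, blk (bar i) = blk i)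
    {κ : Type} {u : κ → unitary A} (hu : Reg T u) (huD : ∀ t, (u t : A) ∈ D) (g : K → unitary A)
    (hg : ∀ k, Haar T (g k) ∧ (g k : A) ∈ T.W (c '' {i | blk i = k})) :
    Reg T (Sum.elim u g) := by
  have hΩ : ∀ i, (star (ℓ i)) T.Ω = 0 := fun i => T.v_one ▸ h.vac i 1 (one_mem D)
  let R : Set I → Set H := fun J =>
    closure (Submodule.span ℂ {ξ : H | ∃ i ∈ J, ∃ η, ξ = ℓ i η} : Set H)
  have hR : ∀ {E : Type} [NormedAddCommGroup E] [NormedSpace ℂ E] (X : H →L[ℂ] E) (J : Set I),
      (∀ i ∈ J, ∀ η, X (ℓ i η) = 0) → ∀ ξ ∈ R J, X ξ = 0 := by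
    intro E _ _ X J hX
    refine Free_kill X ?_
    rintro _ ⟨i, hi, η, rfl⟩
    exact hX i hi η
  refine Free_alt (J := Option K) (Sum.elim (fun _ => none) some) (Sum.elim u g)
    (fun o => o.elim D fun k => T.W (c '' {i | blk i = k}))
    (fun o => o.elim {ζ | ∃ a : ℂ, ∃ η ∈ R Set.univ, ζ = a • T.Ω + η}
      fun k => {ζ | ∀ i, blk i = k → (star (ℓ i)) ζ = 0})
    (fun o => o.elim {ζ | (∀ i, (star (ℓ i)) ζ = 0) ∧ ⟪T.Ω, ζ⟫_ℂ = 0} fun k => R {i | blk i = k})
    ?_ ?_ ?_ ?_ ?_ ?_
  · rintro (_ | k)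
    · have h1 : ∀ x : {x : κ ⊕ K // Sum.elim (fun _ => none) some x = none},
          ∃ t, x.1 = Sum.inl t := by
        rintro ⟨t | k, hx⟩
        · exact ⟨t, rfl⟩
        · cases hx
      choose f hf using h1
      have h2 := hu.comp f fun x y e => Subtype.ext (by rw [hf, hf, e])
      convert h2 using 2 with x
      rw [hf]
      rfl
    · have h1 : ∀ x : {x : κ ⊕ K // Sum.elim (fun _ => none) some x = some k},
          x.1 = Sum.inr k := by
        rintro ⟨t | l, hx⟩
        · cases hx
        · exact congrArg Sum.inr (Option.some.inj hx)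
      have h2 := (hg k).1.reg.comp
        (fun _ : {x : κ ⊕ K // Sum.elim (fun _ => none) some x = some k} => ())
        fun x y _ => Subtype.ext (by rw [h1, h1])
      convert h2 using 2 with x
      rw [h1]
      rfl
  · rintro (t | k)
    · exact huD t
    · exact (hg k).2
  · rintro (_ | k) d hd h0 ζ hζ
    · obtain ⟨a, η, hη, rfl⟩ := hζ
      refine ⟨fun i => ?_, ?_⟩
      · have h1 := hR (star (ℓ i) * T.L d) Set.univ (fun j _ η' => by
          change (star (ℓ i) * T.L d * ℓ j) η' = 0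
          by_cases e : i = j
          · rw [← e, h.same i d hd, h0, zero_smul]
            rfl
          · rw [h.diff i j e d hd]
            rfl) η hη
        rw [mul_apply_eq_comp] at h1
        rw [map_add, map_add, h1, map_smul, map_smul, ← T.v_def, h.vac i d hd, smul_zero, add_zero]
      · have h1 := hR ((innerSL ℂ T.Ω).comp (T.L d)) Set.univ (fun j _ η' => by
          change ⟪T.Ω, T.L d (ℓ j η')⟫_ℂ = 0
          rw [← inner_star_left, ← map_star T.L, ← inner_star_left, ← T.v_def,
            h.vac j _ (star_mem hd), inner_zero_left]) η hη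
        change ⟪T.Ω, T.L d η⟫_ℂ = 0 at h1
        rw [map_add, inner_add_right, h1, map_smul, inner_smul_right, ← T.v_def, ← T.τ_def, h0,
          mul_zero, add_zero]
    · exact h.center_mem {i | blk i = k} (fun i hi => (hb i).trans hi) hd h0 hζ
  · rintro (_ | k) (_ | l) hne ζ hζ
    · exact absurd rfl hne
    · exact fun i _ => hζ.1 i
    · refine ⟨0, ζ, closure_mono (Submodule.span_mono ?_) hζ, by rw [zero_smul, zero_add]⟩
      rintro _ ⟨i, -, η, rfl⟩
      exact ⟨i, Set.mem_univ _, η, rfl⟩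
    · intro i hi
      refine hR (star (ℓ i)) _ (fun j hj η => ?_) ζ hζ
      change (star (ℓ i) * ℓ j) η = 0
      rw [h.orth fun e => hne (by rw [← hi, e]; exact congrArg some hj.symm)]
      rfl
  · rintro (_ | k)
    · exact ⟨1, 0, subset_closure (zero_mem _), by rw [one_smul, add_zero]⟩
    · exact fun i _ => hΩ i
  · rintro (_ | k) ζ hζ
    · exact hζ.2
    · refine hR (innerSL ℂ T.Ω) _ (fun j _ η => ?_) ζ hζ
      change ⟪T.Ω, ℓ j η⟫_ℂ = 0
      rw [← inner_star_left, hΩ, inner_zero_left]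

end Pool.Agent.TS
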