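import Pool.Agent.P.MP_e05717_an.Wsub

/-!
Row TS-Haar. A selfadjoint element without eigenvector is a function of a Haar unitary (paper HG).
`E` is the calculus of `L x`, `μ = E.μ Ω` is a probability measure without atoms, its distribution
function `F` is continuous and maps `μ` to Lebesgue measure on `[0,1]`, and `h = exp (2 π i F(x))`.
Conversely `F` is recovered from `cos (2 π F)` and `sin (2 π F)` off a null set, and `t` from `F t`
by the quantile function.
-/

open scoped ComplexOrder InnerProductSpace ComplexConjugate ENNReal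
open Filter Topology Pool.Agent.P.MP_5d580a_an

set_option linter.unusedSectionVars false
set_option linter.unusedVariables false

noncomputable section

namespace Pool.Agent.TS

open MeasureTheory ProbabilityTheory Set

section Meas

variable {μ : Measure ℝ} [IsProbabilityMeasure μ]

theorem Haar_cont (hμ : ∀ t, μ {t} = 0) : Continuous (cdf μ) := by
  rw [continuous_iff_continuousAt]
  intro a
  have h1 : (cdf μ).measure {a} = 0 := by rw [measure_cdf]; exact hμ a
  rw [StieltjesFunction.measure_singleton, ENNReal.ofReal_eq_zero] at h1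
  have h2 : Function.leftLim (cdf μ) a = cdf μ a :=
    le_antisymm ((cdf μ).mono.leftLim_le le_rfl) (by linarith)
  rw [continuousAt_iff_continuous_left'_right']
  refine ⟨((cdf μ).mono.continuousWithinAt_Iio_iff_leftLim_eq).2 h2, ?_⟩
  exact ((cdf μ).right_continuous a).mono Ioi_subset_Ici_self

theorem Haar_level (hμ : ∀ t, μ {t} = 0) {u : ℝ} (h0 : 0 ≤ u) (h1 : u < 1) :
    μ {t | cdf μ t ≤ u} = ENNReal.ofReal u := by
  have hc := Haar_cont hμ
  by_cases hne : {t | cdf μ t ≤ u}.Nonempty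
  · have hb : BddAbove {t | cdf μ t ≤ u} := by
      obtain ⟨b, hb⟩ := ((tendsto_cdf_atTop μ).eventually (lt_mem_nhds h1)).exists
      refine ⟨b, fun t ht => ?_⟩
      by_contra hlt
      have := monotone_cdf μ (not_le.1 hlt).le
      have ht' : cdf μ t ≤ u := ht
      linarith
    have hcl : IsClosed {t | cdf μ t ≤ u} := isClosed_le hc continuous_const
    have hs := hcl.csSup_mem hne hb
    set s := sSup {t | cdf μ t ≤ u} with hs_def
    have hset : {t | cdf μ t ≤ u} = Iic s := by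
      ext t
      exact ⟨fun ht => le_csSup hb ht, fun ht => (monotone_cdf μ ht).trans hs⟩
    have hge : u ≤ cdf μ s := by
      have ht : Tendsto (cdf μ) (𝓝[>] s) (𝓝 (cdf μ s)) :=
        hc.continuousAt.tendsto.mono_left nhdsWithin_le_nhds
      refine ge_of_tendsto ht ?_
      filter_upwards [self_mem_nhdsWithin] with t ht
      by_contra hlt
      have : t ∈ {t | cdf μ t ≤ u} := (not_le.1 hlt).le
      rw [hset] at this
      exact not_lt.2 (mem_Iic.1 this) (mem_Ioi.1 ht)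
    rw [hset, ← ofReal_cdf, le_antisymm hs hge]
  · have he : {t | cdf μ t ≤ u} = ∅ := not_nonempty_iff_eq_empty.1 hne
    have hu : u ≤ 0 := by
      refine ge_of_tendsto (tendsto_cdf_atBot μ) (Eventually.of_forall fun t => ?_)
      by_contra hlt
      exact hne ⟨t, (not_le.1 hlt).le⟩
    rw [he, le_antisymm hu h0]; simp

theorem Haar_map (hμ : ∀ t, μ {t} = 0) :
    μ.map (cdf μ) = (volume : Measure ℝ).restrict (Icc 0 1) := by
  have hm : Measurable (cdf μ) := (Haar_cont hμ).measurable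
  refine Measure.ext_of_Iic _ _ fun u => ?_
  rw [Measure.map_apply hm measurableSet_Iic, Measure.restrict_apply measurableSet_Iic]
  rcases lt_or_ge u 0 with h0 | h0
  · have e1 : cdf μ ⁻¹' Iic u = ∅ := by
      ext t
      simp only [mem_preimage, mem_Iic, mem_empty_iff_false, iff_false, not_le]
      exact h0.trans_le (cdf_nonneg μ t)
    have e2 : Iic u ∩ Icc (0 : ℝ) 1 = ∅ := by
      ext t
      simp only [mem_inter_iff, mem_Iic, mem_Icc, mem_empty_iff_false, iff_false]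
      rintro ⟨a, b, _⟩
      linarith
    rw [e1, e2]; simp
  rcases lt_or_ge u 1 with h1 | h1
  · have e2 : Iic u ∩ Icc (0 : ℝ) 1 = Icc 0 u := by
      ext t
      simp only [mem_inter_iff, mem_Iic, mem_Icc]
      exact ⟨fun h => ⟨h.2.1, h.1⟩, fun h => ⟨h.2, h.1, h.2.trans h1.le⟩⟩
    rw [e2, Real.volume_Icc, sub_zero]
    exact Haar_level hμ h0 h1
  · have e1 : cdf μ ⁻¹' Iic u = univ := by
      ext t
      simp only [mem_preimage, mem_Iic, mem_univ, iff_true]
      exact (cdf_le_one μ t).trans h1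
    have e2 : Iic u ∩ Icc (0 : ℝ) 1 = Icc 0 1 := by
      ext t
      simp only [mem_inter_iff, mem_Iic, mem_Icc]
      exact ⟨fun h => h.2, fun h => ⟨h.2.trans h1, h⟩⟩
    rw [e1, e2, Real.volume_Icc]; simp

theorem Haar_ae_ne (hμ : ∀ t, μ {t} = 0) (c : ℝ) : ∀ᵐ t ∂μ, cdf μ t ≠ c := by
  have hm : Measurable (cdf μ) := (Haar_cont hμ).measurable
  have h : (μ.map (cdf μ)) {c} = 0 := by
    rw [Haar_map hμ, Measure.restrict_apply (measurableSet_singleton c)]
    exact measure_mono_null inter_subset_left Real.volume_singleton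
  rw [Measure.map_apply hm (measurableSet_singleton c)] at h
  rw [ae_iff]
  simp only [ne_eq, not_not]
  exact h

theorem Haar_int (hμ : ∀ t, μ {t} = 0) {n : ℤ} (hn : n ≠ 0) :
    ∫ l, Complex.exp (Complex.I * ((n : ℝ) : ℂ) * (l : ℝ))
      ∂(μ.map fun t => 2 * Real.pi * cdf μ t) = 0 := by
  have hm : Measurable (cdf μ) := (Haar_cont hμ).measurable
  have hc : Continuous fun l : ℝ => Complex.exp (Complex.I * ((n : ℝ) : ℂ) * (l : ℝ)) := by
    fun_prop
  have e : (μ.map fun t => 2 * Real.pi * cdf μ t) =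
      (μ.map (cdf μ)).map fun u => 2 * Real.pi * u := by
    rw [Measure.map_map (by fun_prop) hm]; rfl
  rw [e, Haar_map hμ, integral_map (by fun_prop) hc.aestronglyMeasurable,
    integral_Icc_eq_integral_Ioc, ← intervalIntegral.integral_of_le zero_le_one]
  have hne : (n : ℂ) * (2 * Real.pi * Complex.I) ≠ 0 :=
    mul_ne_zero (Int.cast_ne_zero.2 hn) Complex.two_pi_I_ne_zero
  have e2 : ∀ u : ℝ, Complex.exp (Complex.I * ((n : ℝ) : ℂ) * ((2 * Real.pi * u : ℝ) : ℂ)) =
      Complex.exp ((n : ℂ) * (2 * Real.pi * Complex.I) * u) := by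
    intro u; congr 1; push_cast; ring
  simp only [e2]
  rw [integral_exp_mul_complex hne]
  simp [Complex.exp_int_mul_two_pi_mul_I]

/-- quantile function cut to `[-K, K]` -/
def Haar_G (F : ℝ → ℝ) (K u : ℝ) : ℝ := sInf ({K} ∪ {t | -K ≤ t ∧ u ≤ F t})

theorem Haar_G_bdd (F : ℝ → ℝ) {K : ℝ} (hK : 0 ≤ K) (u : ℝ) :
    -K ∈ lowerBounds ({K} ∪ {t | -K ≤ t ∧ u ≤ F t}) := by
  rintro t (ht | ht)
  · rw [mem_singleton_iff.1 ht]; linarith
  · exact ht.1

theorem Haar_G_mono (F : ℝ → ℝ) {K : ℝ} (hK : 0 ≤ K) : Monotone (Haar_G F K) := by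
  intro u v huv
  refine csInf_le_csInf ⟨_, Haar_G_bdd F hK u⟩ ⟨K, Or.inl rfl⟩ ?_
  rintro t (ht | ht)
  · exact Or.inl ht
  · exact Or.inr ⟨ht.1, huv.trans ht.2⟩

theorem Haar_G_abs (F : ℝ → ℝ) {K : ℝ} (hK : 0 ≤ K) (u : ℝ) : |Haar_G F K u| ≤ K :=
  abs_le.2 ⟨le_csInf ⟨K, Or.inl rfl⟩ (Haar_G_bdd F hK u),
    csInf_le ⟨_, Haar_G_bdd F hK u⟩ (Or.inl rfl)⟩

theorem Haar_G_eq {F : ℝ → ℝ} (hF : Monotone F) {K : ℝ} (hK : 0 ≤ K) {t : ℝ}
    (ht : t ∈ Icc (-K) K) (hq : ∀ q : ℚ, F t ≠ F q) : Haar_G F K (F t) = t := by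
  refine le_antisymm (csInf_le ⟨_, Haar_G_bdd F hK _⟩ (Or.inr ⟨ht.1, le_rfl⟩)) ?_
  refine le_csInf ⟨K, Or.inl rfl⟩ ?_
  rintro s (hs | hs)
  · rw [mem_singleton_iff.1 hs]; exact ht.2
  · by_contra hlt
    obtain ⟨q, h1, h2⟩ := exists_rat_btwn (not_le.1 hlt)
    exact hq q (le_antisymm (hs.2.trans (hF h1.le)) (hF h2.le))

/-- the angle recovered from its cosine and the sign of its sine -/
theorem Haar_angle {u : ℝ} (h0 : 0 ≤ u) (h1 : u < 1) :
    (Real.arccos (Real.cos (2 * Real.pi * u)) +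
      (if Real.sin (2 * Real.pi * u) < 0 then 1 else 0) *
        (2 * Real.pi - 2 * Real.arccos (Real.cos (2 * Real.pi * u)))) / (2 * Real.pi) = u := by
  have hp := Real.pi_pos
  rw [div_eq_iff (by positivity)]
  rcases le_or_gt u (1 / 2) with h | h
  · have a0 : 0 ≤ 2 * Real.pi * u := by positivity
    have a1 : 2 * Real.pi * u ≤ Real.pi := by nlinarith
    rw [Real.arccos_cos a0 a1, if_neg (not_lt.2 (Real.sin_nonneg_of_nonneg_of_le_pi a0 a1))]
    ring
  · have a0 : 0 < 2 * Real.pi - 2 * Real.pi * u := by nlinarith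
    have a1 : 2 * Real.pi - 2 * Real.pi * u < Real.pi := by nlinarith
    have hs : Real.sin (2 * Real.pi * u) < 0 := by
      have := Real.sin_pos_of_pos_of_lt_pi a0 a1
      rw [Real.sin_two_pi_sub] at this
      linarith
    rw [if_pos hs, ← Real.cos_two_pi_sub, Real.arccos_cos a0.le a1.le]
    ring

end Meas

variable {A H : Type} [CStarAlgebra A] [NormedAddCommGroup H] [InnerProductSpace ℂ H]
  [CompleteSpace H]

/-- bounded real functions whose calculus commutes with `S` -/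
def Haar_C (E : SpecCalc ℝ H) (S : H →L[ℂ] H) (f : ℝ → ℝ) : Prop :=
  BM (fun t => (f t : ℂ)) ∧ S * E.Φ (fun t => (f t : ℂ)) = E.Φ (fun t => (f t : ℂ)) * S

theorem Haar_push {E : SpecCalc ℝ H} {S : H →L[ℂ] H} {f : ℝ → ℝ} (hf : Haar_C E S f)
    {g : ℝ → ℝ} (hg : Measurable g) (K : ℝ) (hK : ∀ u, |g u| ≤ K) :
    Haar_C E S fun t => g (f t) := by
  have hm := CalcSaAux.meas_real hf.1
  obtain ⟨E', hE', hΦ⟩ := CalcSaAux.isCalcOf_map E hm hf.1 fun ξ => ae_of_all _ fun _ => rfl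
  have hb := CalcSaAux.bm_real hg K hK
  refine ⟨hb.comp hm, ?_⟩
  have := hE'.commute hf.2 hb
  rwa [hΦ] at this

theorem Haar_C.add {E : SpecCalc ℝ H} {S : H →L[ℂ] H} {f g : ℝ → ℝ} (hf : Haar_C E S f)
    (hg : Haar_C E S g) : Haar_C E S fun t => f t + g t := by
  have e : (fun t => ((f t + g t : ℝ) : ℂ)) = fun t => (f t : ℂ) + (g t : ℂ) := by
    funext t; push_cast; rfl
  refine ⟨by rw [e]; exact hf.1.add hg.1, ?_⟩
  rw [e, E.map_add hf.1 hg.1, mul_add, add_mul, hf.2, hg.2]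

theorem Haar_C.mul {E : SpecCalc ℝ H} {S : H →L[ℂ] H} {f g : ℝ → ℝ} (hf : Haar_C E S f)
    (hg : Haar_C E S g) : Haar_C E S fun t => f t * g t := by
  have e : (fun t => ((f t * g t : ℝ) : ℂ)) = fun t => (f t : ℂ) * (g t : ℂ) := by
    funext t; push_cast; rfl
  refine ⟨by rw [e]; exact hf.1.mul hg.1, ?_⟩
  rw [e, E.mul _ _ hf.1 hg.1, ← mul_assoc, hf.2, mul_assoc, hg.2, mul_assoc]

theorem Haar_C.smul {E : SpecCalc ℝ H} {S : H →L[ℂ] H} {f : ℝ → ℝ} (hf : Haar_C E S f)
    (c : ℝ) : Haar_C E S fun t => c * f t := by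
  have e : (fun t => ((c * f t : ℝ) : ℂ)) = fun t => (c : ℂ) * (f t : ℂ) := by
    funext t; push_cast; rfl
  refine ⟨by rw [e]; exact (BM.const _).mul hf.1, ?_⟩
  rw [e, E.map_smul _ hf.1, mul_smul_comm, smul_mul_assoc, hf.2]

theorem Haar_trig {E : SpecCalc ℝ H} {S : H →L[ℂ] H} {θ : ℝ → ℝ} (hθ : Measurable θ)
    (h1 : S * E.Φ (fun t => Complex.exp (Complex.I * (1 : ℝ) * θ t)) =
      E.Φ (fun t => Complex.exp (Complex.I * (1 : ℝ) * θ t)) * S)
    (h2 : S * E.Φ (fun t => Complex.exp (Complex.I * (-1 : ℝ) * θ t)) =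
      E.Φ (fun t => Complex.exp (Complex.I * (-1 : ℝ) * θ t)) * S) :
    Haar_C E S (fun t => Real.cos (θ t)) ∧ Haar_C E S (fun t => Real.sin (θ t)) := by
  have b1 := (bm_exp 1).comp hθ
  have b2 := (bm_exp (-1)).comp hθ
  have ec : (fun t => ((Real.cos (θ t) : ℝ) : ℂ)) = fun t =>
      (1 / 2 : ℂ) * (Complex.exp (Complex.I * (1 : ℝ) * θ t) +
        Complex.exp (Complex.I * (-1 : ℝ) * θ t)) := by
    funext t
    rw [Complex.ofReal_cos, Complex.cos]
    have a1 : Complex.I * (1 : ℝ) * θ t = θ t * Complex.I := by push_cast; ring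
    have a2 : Complex.I * (-1 : ℝ) * θ t = -(θ t : ℂ) * Complex.I := by push_cast; ring
    rw [a1, a2]; ring
  have es : (fun t => ((Real.sin (θ t) : ℝ) : ℂ)) = fun t =>
      (Complex.I / 2 : ℂ) * (Complex.exp (Complex.I * (-1 : ℝ) * θ t) -
        Complex.exp (Complex.I * (1 : ℝ) * θ t)) := by
    funext t
    rw [Complex.ofReal_sin, Complex.sin]
    have a1 : Complex.I * (1 : ℝ) * θ t = θ t * Complex.I := by push_cast; ring
    have a2 : Complex.I * (-1 : ℝ) * θ t = -(θ t : ℂ) * Complex.I := by push_cast; ring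
    rw [a1, a2]; ring
  refine ⟨⟨by rw [ec]; exact (BM.const _).mul (b1.add b2), ?_⟩,
    ⟨by rw [es]; exact (BM.const _).mul (b2.sub b1), ?_⟩⟩
  · rw [ec, E.map_smul _ (b1.add b2), E.map_add b1 b2, mul_smul_comm, smul_mul_assoc, mul_add,
      add_mul, h1, h2]
  · rw [es, E.map_smul _ (b2.sub b1), E.map_sub b2 b1, mul_smul_comm, smul_mul_assoc, mul_sub,
      sub_mul, h1, h2]

/-- the calculus of `L x` takes its values in `L (W {x})` -/
theorem Haar_mem (T : TW A H) {x : A} (hx : IsSelfAdjoint x) {E : SpecCalc ℝ H}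
    (hE : IsCalcOf E (T.L x)) {f : ℝ → ℂ} (hf : BM f) : ∃ y ∈ T.W {x}, T.L y = E.Φ f :=
  T.bic fun Y hY => hE.commute (hY x rfl).1 hf

theorem Haar_noatom (T : TW A H) {x : A} (hx : IsSelfAdjoint x) (hn : NoEig x)
    {E : SpecCalc ℝ H} (hE : IsCalcOf E (T.L x)) (t : ℝ) : E.μ T.Ω {t} = 0 := by
  obtain ⟨y, -, hy⟩ := Haar_mem T hx hE (BM.indicator_one (measurableSet_singleton t))
  have h0 := hE.norm_sub_mul_Pr (measurableSet_singleton t) (c := t) le_rfl
    (fun u hu => by rw [mem_singleton_iff.1 hu]; simp)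
  have h1 : (T.L x - (t : ℂ) • (1 : H →L[ℂ] H)) * T.L y = 0 := by
    rw [hy]; exact norm_le_zero_iff.1 h0
  have h2 : x * y = (t : ℂ) • y := by
    apply T.L_inj
    rw [sub_mul, smul_mul_assoc, one_mul, sub_eq_zero] at h1
    rw [map_mul, map_smul, h1]
  have h3 : E.Pr {t} = 0 := by
    have := hn t y h2
    rw [this, map_zero] at hy
    exact hy.symm
  rw [← E.Pr_eq_zero_iff (measurableSet_singleton t), h3]
  rfl

theorem Haar_zpow (T : TW A H) (E : SpecCalc ℝ H) (h : unitary A) (hh : T.L h = E.U 1) (n : ℤ) :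
    T.L ((h ^ n : unitary A) : A) = E.U n := by
  have hi : T.L ((h⁻¹ : unitary A) : A) = E.U (-1) := by
    rw [← E.star_U, ← hh, ← map_star]; rfl
  induction n using Int.induction_on with
  | zero => simp [E.U_zero]
  | succ n ih =>
    rw [zpow_add_one, Submonoid.coe_mul, map_mul, ih, hh, ← E.U_add]; congr 1; push_cast; ring
  | pred n ih =>
    rw [zpow_sub_one, Submonoid.coe_mul, map_mul, ih, hi, ← E.U_add]; congr 1; push_cast; ring

theorem exists_haar (T : TW A H) {x : A} (hx : IsSelfAdjoint x) (hn : NoEig x) :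
    ∃ h : unitary A, Haar T h ∧ T.W {(h : A)} = T.W {x} := by
  have hLx : IsSelfAdjoint (T.L x) := hx.map T.L
  obtain ⟨E, hE⟩ := exists_calc_sa hLx
  haveI := E.fin T.Ω
  haveI : IsProbabilityMeasure (E.μ T.Ω) := by
    refine isProbabilityMeasure_iff_real.2 ?_
    rw [E.mass, T.norm_Ω]; norm_num
  have hμ := Haar_noatom T hx hn hE
  set F : ℝ → ℝ := fun t => cdf (E.μ T.Ω) t with hF
  have hFm : Measurable F := (Haar_cont hμ).measurable
  have hθ : Measurable fun t => 2 * Real.pi * F t := hFm.const_mul _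
  obtain ⟨E', hΦ, hμ'⟩ := E.exists_map hθ
  have hU : ∀ s : ℝ, E'.U s =
      E.Φ fun t => Complex.exp (Complex.I * s * ((2 * Real.pi * F t : ℝ) : ℂ)) := fun s => hΦ _
  obtain ⟨y, hyW, hy⟩ := Haar_mem T hx hE ((bm_exp 1).comp hθ)
  rw [← hU] at hy
  have hys : T.L (star y) = E'.U (-1) := by rw [map_star, hy, E'.star_U]
  have hyu : y ∈ unitary A := by
    constructor
    · apply T.L_inj; rw [map_mul, hys, hy, map_one, E'.U_neg_mul]
    · apply T.L_inj; rw [map_mul, hys, hy, map_one, E'.U_mul_neg]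
  refine ⟨⟨y, hyu⟩, fun n hn0 => ?_, T.W_eq (by rintro _ rfl; exact hyW) ?_⟩
  · rw [T.τ_def, T.v_def, Haar_zpow T E' ⟨y, hyu⟩ hy n]
    have := E'.inner _ (bm_exp (n : ℝ)) T.Ω
    rw [hμ'] at this
    exact this.trans (Haar_int hμ hn0)
  · rw [singleton_subset_iff]
    obtain ⟨P, -, hP1, -, hP2, hP3⟩ := T.exists_projW {y}
    have hyy : y ∈ T.W {y} := T.subset_W _ rfl
    have c1 := (hP2 y hyy).1
    have c2 := (hP2 _ (star_mem hyy)).1
    rw [hy, hU] at c1
    rw [hys, hU] at c2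
    obtain ⟨hc, hs⟩ := Haar_trig hθ c1 c2
    have hp := Real.pi_pos
    have k1 := Haar_push hc (g := Real.arccos) Real.continuous_arccos.measurable Real.pi
      fun u => by rw [abs_of_nonneg (Real.arccos_nonneg u)]; exact Real.arccos_le_pi u
    have k2 := Haar_push hs (g := fun u => if u < 0 then 1 else 0)
      (Measurable.ite measurableSet_Iio measurable_const measurable_const) 1
      fun u => by split_ifs <;> simp
    have k3 := Haar_push hc (g := fun u => 2 * Real.pi - 2 * Real.arccos u)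
      (measurable_const.sub (Real.continuous_arccos.measurable.const_mul _)) (2 * Real.pi)
      fun u => by
        have := Real.arccos_nonneg u
        have := Real.arccos_le_pi u
        rw [abs_le]; constructor <;> linarith
    have hK := norm_nonneg (T.L x)
    have k4 := Haar_push (k1.add (k2.mul k3)) (g := fun u => Haar_G F ‖T.L x‖ (u / (2 * Real.pi)))
      ((Haar_G_mono F hK).measurable.comp (measurable_id.div_const _)) ‖T.L x‖
      fun u => Haar_G_abs F hK _
    have hΩ : P T.Ω = T.Ω := by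
      have := hP1 1 (one_mem _)
      rwa [T.v_one] at this
    have hae : ∀ᵐ t ∂(E.μ T.Ω), ∀ q : ℚ, F t ≠ F q :=
      ae_all_iff.2 fun q => Haar_ae_ne hμ _
    have hv := E.congr_ae k4.1 (CalcSaAux.bm_cl hK) (ξ := T.Ω) (by
      filter_upwards [hae, Haar_ae_ne hμ 1, CalcSaAux.ae_mem hE T.Ω] with t h1 h2 h3
      rw [Haar_angle (u := F t) (cdf_nonneg _ t) (lt_of_le_of_ne (cdf_le_one _ t) h2),
        Haar_G_eq (F := F) (monotone_cdf _) hK h3 h1, CalcSaAux.cl_eq h3])
    rw [CalcSaAux.phi_cl hE] at hv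
    refine hP3 x ?_
    rw [T.v_def, ← hv, ← mul_apply_eq_comp, k4.2, mul_apply_eq_comp, hΩ]

end Pool.Agent.TS
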