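import Pool.Agent.P.MP_e05717_an.Ops
import Pool.Agent.P.MP_e05717_an.Free
import Pool.Agent.P.MP_e05717_an.Diff
import Pool.Agent.P.MP_e05717_an.Haar

/-!
Row TS-Crg (short). Regular generating families from circular families.
-/

open scoped ComplexOrder InnerProductSpace ComplexConjugate ENNReal
open Filter Topology Pool.Agent.P.MP_5d580a_an

set_option linter.unusedSectionVars false
set_option linter.unusedVariables false

noncomputable section

namespace Pool.Agent.TS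

variable {A H : Type} [CStarAlgebra A] [NormedAddCommGroup H] [InnerProductSpace ℂ H]
  [CompleteSpace H]
variable {ι : Type} [Fintype ι] [DecidableEq ι]

variable {T : TW A H} {D : StarSubalgebra ℂ A}

theorem Semi.extend {I : Type} {s : I → A} (h : Semi T D s) {κ : Type} {u : κ → unitary A}
    (hu : Reg T u) (huD : ∀ t, (u t : A) ∈ D) :
    ∃ g : I → unitary A, Reg T (Sum.elim u g) ∧ ∀ i, T.W {(g i : A)} = T.W {s i} := by
  choose g hg hW using fun i => exists_haar T (h.sa i) (h.noEig i)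
  obtain ⟨ℓ, hℓ⟩ := h
  refine ⟨g, CC.free hℓ id (fun _ => rfl) hu huD g fun k => ⟨hg k, ?_⟩, hW⟩
  have h1 : (g k : A) ∈ T.W {s k} := by
    rw [← hW k]; exact T.subset_W _ rfl
  refine T.W_mono ?_ h1
  rintro _ rfl
  exact ⟨k, rfl, rfl⟩

theorem Circ.extend {Λ : Type} {c : Λ → A} (h : Circ T D c) (x : Λ → A)
    (hx : ∀ l, IsSelfAdjoint (x l) ∧ NoEig (x l) ∧ x l ∈ T.W {c l}) :
    ∃ g : Λ → unitary A, Reg T g ∧ ∀ l, T.W {(g l : A)} = T.W {x l} := by
  choose g hg hW using fun l => exists_haar T (hx l).1 (hx l).2.1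
  obtain ⟨ℓ, hℓ⟩ := h
  have hr : Reg T (Sum.elim (fun t : Empty => (t.elim : unitary A)) g) := by
    refine CC.free hℓ Prod.fst (fun _ => rfl) (reg_empty _) (fun t => t.elim) g
      fun k => ⟨hg k, ?_⟩
    have h1 : (g k : A) ∈ T.W {x k} := by
      rw [← hW k]; exact T.subset_W _ rfl
    have h2 : T.W {x k} ≤ T.W {c k} := T.W_le (by rintro _ rfl; exact (hx k).2.2)
    refine T.W_mono ?_ (h2 h1)
    rintro _ rfl
    exact ⟨(k, false), rfl, rfl⟩
  exact ⟨g, hr.comp Sum.inr Sum.inr_injective, hW⟩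

/-- a regular family of the base extended by generators of a circular family -/
theorem Circ.extend_ri {Λ : Type} {c : Λ → A} (h : Circ T D c) {κ : Type} {u : κ → unitary A}
    (hu : Reg T u) (huD : ∀ t, (u t : A) ∈ D) :
    ∃ g : Λ × Bool → unitary A, Reg T (Sum.elim u g) ∧
      ∀ S : Set A, T.W (S ∪ Set.range fun p => (g p : A)) = T.W (S ∪ Set.range c) := by
  obtain ⟨g, hg, hW⟩ := h.semi.extend hu huD
  exact ⟨g, hg, fun S => (T.W_family S hW).trans (W_ri T S c)⟩

theorem Circ.rg {Λ : Type} [Countable Λ] [Infinite Λ] {c : Λ → A} (h : Circ T D c) :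
    RG T (T.W (Set.range c)) := by
  obtain ⟨g, hg, hW⟩ := h.extend_ri (u := fun t : Empty => (t.elim : unitary A)) (reg_empty _)
    (fun t => t.elim)
  have h1 : Reg T g := hg.comp Sum.inr Sum.inr_injective
  have h2 := rg_of_countable h1
  have h3 := hW ∅
  rw [Set.empty_union, Set.empty_union] at h3
  rwa [h3] at h2

theorem range_sum_elim {κ K : Type} (u : κ → unitary A) (g : K → unitary A) :
    (Set.range fun t => ((Sum.elim u g t : unitary A) : A)) =
      (Set.range fun t => (u t : A)) ∪ Set.range fun k => (g k : A) := by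
  ext x
  constructor
  · rintro ⟨t | k, rfl⟩
    · exact Or.inl ⟨t, rfl⟩
    · exact Or.inr ⟨k, rfl⟩
  · rintro (⟨t, rfl⟩ | ⟨k, rfl⟩)
    · exact ⟨Sum.inl t, rfl⟩
    · exact ⟨Sum.inr k, rfl⟩

/-- conjugation by a unitary -/
def Crg_ad {u : A} (hu : u ∈ unitary A) : A →⋆ₐ[ℂ] A where
  toFun x := u * x * star u
  map_one' := by rw [mul_one, (Unitary.mem_iff.1 hu).2]
  map_mul' x y := by
    have h1 := (Unitary.mem_iff.1 hu).1
    calc u * (x * y) * star u = u * x * (star u * u) * y * star u := by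
          rw [h1]; simp only [mul_one, mul_assoc]
      _ = u * x * star u * (u * y * star u) := by simp only [mul_assoc]
  map_zero' := by simp
  map_add' x y := by simp only [mul_add, add_mul]
  commutes' r := by
    rw [← Algebra.commutes r u, mul_assoc, (Unitary.mem_iff.1 hu).2, mul_one]
  map_star' x := by simp only [star_mul, star_star, mul_assoc]

theorem Crg_ad_tp (T : TW A H) {u : A} (hu : u ∈ unitary A) : TP T T (Crg_ad hu) := by
  intro x
  show T.τ (u * x * star u) = T.τ x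
  rw [T.τ_comm, ← mul_assoc, (Unitary.mem_iff.1 hu).1, one_mul]

theorem RG.conj {S : Set A} (h : RG T (T.W S)) {u : A} (hu : u ∈ unitary A) :
    RG T (T.W ((fun x => u * x * star u) '' S)) := by
  obtain ⟨g, hg, hW⟩ := h
  have hφ := Crg_ad_tp T hu
  refine ⟨fun n => ⟨Crg_ad hu (g n), hom_unitary _ (g n).2⟩, hg.map hφ fun _ => rfl, ?_⟩
  refine T.W_eq ?_ ?_
  · rintro _ ⟨n, rfl⟩
    have h1 : (g n : A) ∈ T.W S := by
      rw [← hW]; exact T.subset_W _ ⟨n, rfl⟩
    exact hφ.map_W h1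
  · rintro _ ⟨x, hx, rfl⟩
    have h1 : x ∈ T.W (Set.range fun n => (g n : A)) := by
      rw [hW]; exact T.subset_W _ hx
    refine hφ.map_W_le ?_ h1
    rintro _ ⟨n, rfl⟩
    exact T.subset_W _ ⟨n, rfl⟩

/-- polar parts of the first row of the letter `c 1` -/
structure PolData (T : TW A H) (e : ι → ι → A) (c : ℕ → A) (i₀ : ι) (p u : ι → A) : Prop where
  u₀ : u i₀ = 1
  un : ∀ j, u j ∈ unitary A
  pos : ∀ j, j ≠ i₀ → Pos (p j)
  sq : ∀ j, j ≠ i₀ → p j * p j = ent e i₀ j (c 1) * star (ent e i₀ j (c 1))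
  inj : ∀ j, j ≠ i₀ → Inj (p j)
  eq : ∀ j, j ≠ i₀ → ent e i₀ j (c 1) = p j * u j
  pm : ∀ j, j ≠ i₀ → p j ∈ T.W {ent e i₀ j (c 1)}
  um : ∀ j, j ≠ i₀ → u j ∈ T.W {ent e i₀ j (c 1)}

/-- the generators of the relative commutant in the matrix lemma -/
def Bset (e : ι → ι → A) (c : ℕ → A) (i₀ : ι) (p u : ι → A) : Set A :=
  {x | (∃ j, j ≠ i₀ ∧ x = p j) ∨ (∃ i, x = u i * reP (ent e i i (c 0)) * star (u i)) ∨
    ∃ ν i j, 1 ≤ ν ∧ (ν ≠ 1 ∨ i ≠ i₀ ∨ j = i₀) ∧ x = u i * ent e i j (c ν) * star (u j)}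

end Pool.Agent.TS
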