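import Pool.Agent.P.MP_5d580a_an.CalcSa
import Pool.Agent.P.MP_5d580a_an.Kap

/-!
Definitions for the two trace scaling automorphisms (paper: team store `TS_paper.md`).
Inner products are conjugate linear in the first slot.
-/

open scoped ComplexOrder InnerProductSpace ComplexConjugate

set_option linter.unusedSectionVars false

noncomputable section

namespace Pool.Agent.TS

/-- a tracial von Neumann algebra `A` in standard form on `H`; `R` is the right action -/
structure TW (A H : Type) [CStarAlgebra A] [NormedAddCommGroup H] [InnerProductSpace ℂ H]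
    [CompleteSpace H] where
  L : A →⋆ₐ[ℂ] (H →L[ℂ] H)
  R : A →ₗ[ℂ] (H →L[ℂ] H)
  Ω : H
  norm_Ω : ‖Ω‖ = 1
  R_apply : ∀ x y, R y (L x Ω) = L (x * y) Ω
  trace : ∀ x y, ⟪Ω, L (x * y) Ω⟫_ℂ = ⟪Ω, L (y * x) Ω⟫_ℂ
  cyc : DenseRange fun x => L x Ω
  sep : ∀ x, L x Ω = 0 → x = 0
  full : ∀ S : H →L[ℂ] H, (∀ y, S * R y = R y * S) → ∃ x, L x = S

section Basic

variable {A H : Type} [CStarAlgebra A] [NormedAddCommGroup H] [InnerProductSpace ℂ H]
  [CompleteSpace H]

/-- the vector of an element -/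
def TW.v (T : TW A H) : A →ₗ[ℂ] H where
  toFun x := T.L x T.Ω
  map_add' x y := by simp
  map_smul' c x := by simp

theorem TW.v_def (T : TW A H) (x : A) : T.v x = T.L x T.Ω := rfl

/-- the trace -/
def TW.τ (T : TW A H) : A →ₗ[ℂ] ℂ where
  toFun x := ⟪T.Ω, T.v x⟫_ℂ
  map_add' x y := by simp
  map_smul' c x := by simp

theorem TW.τ_def (T : TW A H) (x : A) : T.τ x = ⟪T.Ω, T.v x⟫_ℂ := rfl

/-- the 2-norm -/
def TW.n2 (T : TW A H) (x : A) : ℝ := ‖T.v x‖

theorem TW.n2_def (T : TW A H) (x : A) : T.n2 x = ‖T.v x‖ := rfl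

theorem TW.defs_inner (T : TW A H) (x y : A) : ⟪T.v x, T.v y⟫_ℂ = T.τ (star x * y) := by
  rw [T.τ_def, T.v_def, T.v_def, T.v_def, map_mul, map_star, mul_apply_eq_comp,
    ContinuousLinearMap.star_eq_adjoint, ContinuousLinearMap.adjoint_inner_right]

theorem TW.defs_star (T : TW A H) (x : A) : ‖T.v (star x)‖ = ‖T.v x‖ := by
  have h : ⟪T.v (star x), T.v (star x)⟫_ℂ = ⟪T.v x, T.v x⟫_ℂ := by
    rw [T.defs_inner, T.defs_inner, star_star]; exact T.trace _ _
  rw [inner_self_eq_norm_sq_to_K, inner_self_eq_norm_sq_to_K] at h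
  have h2 : ‖T.v (star x)‖ ^ 2 = ‖T.v x‖ ^ 2 := by exact_mod_cast h
  exact (pow_left_inj₀ (norm_nonneg _) (norm_nonneg _) two_ne_zero).1 h2

/-- the von Neumann subalgebra generated by `S`, as a closure in the 2-norm -/
def TW.W (T : TW A H) (S : Set A) : StarSubalgebra ℂ A where
  carrier := {x | T.v x ∈ closure (T.v '' (StarAlgebra.adjoin ℂ S : Set A))}
  mul_mem' := by
    intro x y hx hy
    have h1 : ∀ a ∈ StarAlgebra.adjoin ℂ S,
        T.v (a * y) ∈ closure (T.v '' (StarAlgebra.adjoin ℂ S : Set A)) := by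
      intro a ha
      have : T.v (a * y) = T.L a (T.v y) := by simp [T.v_def]
      rw [this]
      refine map_mem_closure (T.L a).continuous hy ?_
      rintro _ ⟨b, hb, rfl⟩
      exact ⟨a * b, mul_mem ha hb, by simp [T.v_def]⟩
    have h2 : T.v (x * y) = T.R y (T.v x) := (T.R_apply x y).symm
    show T.v (x * y) ∈ closure (T.v '' (StarAlgebra.adjoin ℂ S : Set A))
    rw [h2, ← closure_closure]
    refine map_mem_closure (T.R y).continuous hx ?_
    rintro _ ⟨a, ha, rfl⟩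
    have : T.R y (T.v a) = T.v (a * y) := T.R_apply a y
    rw [this]; exact h1 a ha
  add_mem' := by
    intro x y hx hy
    show T.v (x + y) ∈ closure (T.v '' (StarAlgebra.adjoin ℂ S : Set A))
    rw [map_add]
    refine map_mem_closure₂ continuous_add hx hy ?_
    rintro _ ⟨a, ha, rfl⟩ _ ⟨b, hb, rfl⟩
    exact ⟨a + b, add_mem ha hb, map_add _ _ _⟩
  algebraMap_mem' r := subset_closure ⟨_, StarSubalgebra.algebraMap_mem _ r, rfl⟩
  star_mem' := by
    intro x hx
    show T.v (star x) ∈ closure (T.v '' (StarAlgebra.adjoin ℂ S : Set A))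
    rw [Metric.mem_closure_iff]
    intro ε hε
    obtain ⟨_, ⟨a, ha, rfl⟩, h⟩ := Metric.mem_closure_iff.1 hx ε hε
    refine ⟨_, ⟨star a, star_mem ha, rfl⟩, ?_⟩
    rw [dist_eq_norm, ← map_sub] at h ⊢
    rwa [← star_sub, T.defs_star]

theorem TW.mem_W (T : TW A H) {S : Set A} {x : A} :
    x ∈ T.W S ↔ T.v x ∈ closure (T.v '' (StarAlgebra.adjoin ℂ S : Set A)) := Iff.rfl

/-- a family of unitaries that is free and Haar distributed -/
def Reg (T : TW A H) {κ : Type} (u : κ → unitary A) : Prop :=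
  ∀ g : FreeGroup κ, g ≠ 1 → T.τ ((FreeGroup.lift u g : unitary A) : A) = 0

/-- `B` has a regular generating family indexed by `ℕ` -/
def RG (T : TW A H) (B : StarSubalgebra ℂ A) : Prop :=
  ∃ u : ℕ → unitary A, Reg T u ∧ T.W (Set.range fun n => (u n : A)) = B

/-- Haar unitary -/
def Haar (T : TW A H) (h : unitary A) : Prop :=
  ∀ n : ℤ, n ≠ 0 → T.τ ((h ^ n : unitary A) : A) = 0

/-- creation calculus over the base `D` -/
structure CC (T : TW A H) (D : StarSubalgebra ℂ A) {I : Type} (bar : I → I)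
    (ℓ : I → (H →L[ℂ] H)) (c : I → A) : Prop where
  invol : ∀ i, bar (bar i) = i
  split : ∀ i, T.L (c i) = ℓ i + star (ℓ (bar i))
  same : ∀ i, ∀ d ∈ D, star (ℓ i) * T.L d * ℓ i = T.τ d • (1 : H →L[ℂ] H)
  diff : ∀ i j, i ≠ j → ∀ d ∈ D, star (ℓ i) * T.L d * ℓ j = 0
  vac : ∀ i, ∀ d ∈ D, (star (ℓ i)) (T.v d) = 0

/-- vacuum like vector -/
def Vac (T : TW A H) (D : StarSubalgebra ℂ A) {I : Type} (ℓ : I → (H →L[ℂ] H)) (ζ : H) : Prop :=
  ∀ i, ∀ d ∈ D, (star (ℓ i)) (T.L d ζ) = 0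

/-- creation words -/
inductive CW (T : TW A H) (D : StarSubalgebra ℂ A) {I : Type} (ℓ : I → (H →L[ℂ] H)) :
    (H →L[ℂ] H) → Prop
  | base (d : A) : d ∈ D → CW T D ℓ (T.L d)
  | step (d : A) (i : I) (w : H →L[ℂ] H) : d ∈ D → CW T D ℓ w → CW T D ℓ (T.L d * ℓ i * w)

/-- the involution of a circular family -/
def flip {Λ : Type} (p : Λ × Bool) : Λ × Bool := (p.1, !p.2)

/-- a family together with its adjoints -/
def cb {Λ : Type} (c : Λ → A) (p : Λ × Bool) : A := cond p.2 (star (c p.1)) (c p.1)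

/-- free circular family, free from `D` -/
def Circ (T : TW A H) (D : StarSubalgebra ℂ A) {Λ : Type} (c : Λ → A) : Prop :=
  ∃ ℓ, CC T D flip ℓ (cb c)

/-- free semicircular family, free from `D` -/
def Semi (T : TW A H) (D : StarSubalgebra ℂ A) {I : Type} (s : I → A) : Prop :=
  ∃ ℓ, CC T D id ℓ s

end Basic

section Alg

variable {A : Type} [CStarAlgebra A]

/-- no eigenvector in the algebra -/
def NoEig (x : A) : Prop := ∀ (t : ℝ) (y : A), x * y = (t : ℂ) • y → y = 0

/-- injective as a left multiplier -/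
def Inj (x : A) : Prop := ∀ y : A, x * y = 0 → y = 0

/-- positive element -/
def Pos (x : A) : Prop := ∃ y : A, x = star y * y

/-- normalised real part -/
def reP (c : A) : A := (((√2)⁻¹ : ℝ) : ℂ) • (c + star c)

/-- normalised imaginary part -/
def imP (c : A) : A := ((((√2)⁻¹ : ℝ) : ℂ) * (-Complex.I)) • (c - star c)

/-- real and imaginary parts of a family -/
def ri {Λ : Type} (c : Λ → A) (p : Λ × Bool) : A := cond p.2 (imP (c p.1)) (reP (c p.1))

/-- rotation of a doubled family -/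
def rot {Λ : Type} (t : ℝ) (c : Λ × Bool → A) (p : Λ × Bool) : A :=
  cond p.2 (((-Real.sin t : ℝ) : ℂ) • c (p.1, false) + ((Real.cos t : ℝ) : ℂ) • c (p.1, true))
    (((Real.cos t : ℝ) : ℂ) • c (p.1, false) + ((Real.sin t : ℝ) : ℂ) • c (p.1, true))

end Alg

section MUs

/-- unital system of matrix units -/
structure MU {A : Type} [Ring A] [StarRing A] {ι : Type} [Fintype ι] [DecidableEq ι]
    (e : ι → ι → A) : Prop where
  mul : ∀ i j k l, e i j * e k l = if j = k then e i l else 0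
  star : ∀ i j, star (e i j) = e j i
  sum : ∑ i, e i i = 1

variable {A : Type} [CStarAlgebra A] {ι : Type} [Fintype ι] [DecidableEq ι]

/-- the set of the units -/
def mus (e : ι → ι → A) : Set A := {x | ∃ i j, x = e i j}

/-- `x` commutes with the units -/
def Cm (e : ι → ι → A) (x : A) : Prop := ∀ i j, e i j * x = x * e i j

/-- relative commutant of the units inside `D` -/
def rel (e : ι → ι → A) (D : StarSubalgebra ℂ A) : StarSubalgebra ℂ A :=
  D ⊓ StarSubalgebra.centralizer ℂ (mus e)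

/-- normalised matrix entry -/
def ent (e : ι → ι → A) (i j : ι) (x : A) : A :=
  ((√(Fintype.card ι : ℝ) : ℝ) : ℂ) • ∑ r, e r i * x * e j r

/-- trace preserving expectation onto the span of the units, for a trace `τ` -/
def cex (τ : A →ₗ[ℂ] ℂ) (e : ι → ι → A) (y : A) : A :=
  (Fintype.card ι : ℂ) • ∑ b, ∑ c, τ (e b c * y) • e c b

/-- a sequence of commuting systems of matrix units -/
structure Tower (e : ℕ → ι → ι → A) : Prop where
  mu : ∀ k, MU (e k)
  comm : ∀ k l, k ≠ l → ∀ i j, Cm (e k) (e l i j)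

/-- the units of level below `k` -/
def lev (e : ℕ → ι → ι → A) (k : ℕ) : Set A := {x | ∃ l < k, ∃ i j, x = e l i j}

/-- all the units -/
def alle (e : ℕ → ι → ι → A) : Set A := {x | ∃ l i j, x = e l i j}

/-- the algebra generated by all the units -/
def base (e : ℕ → ι → ι → A) : StarSubalgebra ℂ A := StarAlgebra.adjoin ℂ (alle e)

end MUs

section Match

variable {A₁ H₁ A₂ H₂ : Type} [CStarAlgebra A₁] [NormedAddCommGroup H₁] [InnerProductSpace ℂ H₁]
  [CompleteSpace H₁] [CStarAlgebra A₂] [NormedAddCommGroup H₂] [InnerProductSpace ℂ H₂]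
  [CompleteSpace H₂]

/-- the pairs in `S` have the same joint distribution -/
def Match (T₁ : TW A₁ H₁) (T₂ : TW A₂ H₂) (S : Set (A₁ × A₂)) : Prop :=
  ∀ g ∈ StarAlgebra.adjoin ℂ S, T₁.τ g.1 = T₂.τ g.2

/-- trace preserving unital homomorphism -/
def TP (T₁ : TW A₁ H₁) (T₂ : TW A₂ H₂) (φ : A₁ →⋆ₐ[ℂ] A₂) : Prop := ∀ x, T₂.τ (φ x) = T₁.τ x

end Match

section Model

variable {A H : Type} [CStarAlgebra A] [NormedAddCommGroup H] [InnerProductSpace ℂ H]
  [CompleteSpace H] {ι : Type} [Fintype ι] [DecidableEq ι]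

/-- the two sided Fock model: hyperfinite base and free circular letters -/
structure IsModel (T : TW A H) (e : ℕ → ι → ι → A) {Λ : Type} (c : Λ → A)
    (ℓ r : Λ × Bool → (H →L[ℂ] H)) : Prop where
  tower : Tower e
  cc : CC T (base e) flip ℓ (cb c)
  gen : T.W (alle e ∪ Set.range c) = ⊤
  rsplit : ∀ i, T.R (cb c i) = r i + star (r (flip i))
  r_same : ∀ i, star (r i) * r i = 1
  r_diff : ∀ i j, i ≠ j → star (r i) * r j = 0
  lr : ∀ i j, ℓ i * r j = r j * ℓ i
  lR : ∀ i, ∀ d ∈ base e, ℓ i * T.R d = T.R d * ℓ i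
  rl_same : ∀ i ξ, (star (r i)) (ℓ i ξ) = ℓ i ((star (r i)) ξ) + ⟪T.Ω, ξ⟫_ℂ • T.Ω
  rl_diff : ∀ i j, i ≠ j → star (r i) * ℓ j = ℓ j * star (r i)

/-- a family `s j = l j + l j*` with orthogonal isometries `l j` -/
def SF (T : TW A H) (s : Fin 144 → A) : Prop :=
  ∃ l : Fin 144 → (H →L[ℂ] H), (∀ j, T.L (s j) = l j + star (l j)) ∧
    (∀ j, star (l j) * l j = 1) ∧ ∀ i j, i ≠ j → star (l i) * l j = 0

/-- spectral gap of the family `s` modulo the span of `F` -/
def GapIn (T : TW A H) (s : Fin 144 → A) (F : Set A) : Prop :=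
  ∀ y : A, ∃ f ∈ Submodule.span ℂ F,
    25 * T.n2 (y - f) ^ 2 ≤ ∑ j, T.n2 (s j * y - y * s j) ^ 2

end Model

section Words

/-- tags of the letters -/
abbrev Tag : Type := (Fin 144 ⊕ Fin 144 ⊕ Fin 3) × Bool

variable {M : Type} [Monoid M] [Star M] {Δ : Type}

/-- the unsigned letter -/
def let0 (a b : Fin 144 → M) (d : Δ → M) (y : M) (δ : Δ) : Fin 144 ⊕ Fin 144 ⊕ Fin 3 → M
  | Sum.inl j => a j
  | Sum.inr (Sum.inl j) => b j
  | Sum.inr (Sum.inr k) => if k = 0 then 1 else if k = 1 then y else d δ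

/-- the letter of a tag -/
def letter (a b : Fin 144 → M) (d : Δ → M) (y : M) (l : Tag × Δ) : M :=
  cond l.1.2 (star (let0 a b d y l.2 l.1.1)) (let0 a b d y l.2 l.1.1)

/-- the word of a sequence of letters -/
def wd (a b : Fin 144 → M) (d : Δ → M) (y : M) {N : ℕ} (i : Fin N → Tag × Δ) : M :=
  (List.ofFn fun k => letter a b d y (i k)).prod

/-- a family of signs which separates the points of `ι` on average -/
def Code {ι Δ : Type} [Fintype Δ] (sg : ι → Δ → ℝ) : Prop :=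
  (∀ i δ, sg i δ = 1 ∨ sg i δ = -1) ∧
    ∀ i k, i ≠ k → (Fintype.card Δ : ℝ) ≤ ∑ δ, (sg i δ - sg k δ) ^ 2

end Words

end Pool.Agent.TS
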