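import Pool.Agent.P.MP_e05717_an.Lp

/-!
Row TS-FockA. Matrices acting on one coordinate of the index set; the standard form of a matrix algebra
with a basis vector as trace vector.
Hints: `exists_lens`: `Φ M = ∑ y y', M y y' • pe (x ↦ if get x = y' then some (set x y) else none)`,
check everything on basis vectors (`lp_ext_one`). `exists_mats`: `Ωm = m^(-1/2) ∑ i, δ (i, i)`,
`W = 1 - (2 / ‖w‖²) w wᵀ` with the real vector `w = Ωm - δ y₀` (if `w = 0` then `W = 1`), `W * W = 1`,
`star W = W`, `W δ y₀ = Ωm`; `Tm i j = W (E i j ⊗ 1) W`, `Tm' i j = W (1 ⊗ E j i) W`.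
-/

open scoped ComplexOrder InnerProductSpace ComplexConjugate ENNReal
open Filter Topology Pool.Agent.P.MP_5d580a_an

set_option linter.unusedSectionVars false
set_option linter.unusedVariables false

noncomputable section

namespace Pool.Agent.TS


/-- the elementary shift of one coordinate -/
def FockA_f {X Y : Type} [DecidableEq Y] (get : X → Y) (set : X → Y → X) (y y' : Y) :
    X → Option X := fun x => if get x = y' then some (set x y) else none

theorem FockA_inj {X Y : Type} [DecidableEq Y] {get : X → Y} {set : X → Y → X}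
    (h2 : ∀ x, set x (get x) = x) (h3 : ∀ x y y', set (set x y) y' = set x y') (y y' : Y) :
    PInj (FockA_f get set y y') := by
  intro x x' z hx hx'
  unfold FockA_f at hx hx'
  by_cases e : get x = y'
  · by_cases e' : get x' = y'
    · rw [if_pos e] at hx
      rw [if_pos e'] at hx'
      have h : set x y = set x' y := by
        rw [Option.some.inj hx, Option.some.inj hx']
      calc x = set x (get x) := (h2 x).symm
        _ = set (set x y) y' := by rw [h3, e]
        _ = set (set x' y) y' := by rw [h]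
        _ = set x' (get x') := by rw [h3, e']
        _ = x' := h2 x'
    · rw [if_neg e'] at hx'
      exact absurd hx' (by simp)
  · rw [if_neg e] at hx
    exact absurd hx (by simp)

theorem FockA_sg {X Y : Type} [DecidableEq X] [DecidableEq Y] {get : X → Y} {set : X → Y → X}
    (h2 : ∀ x, set x (get x) = x) (h3 : ∀ x y y', set (set x y) y' = set x y') (y y' : Y) (x : X) :
    pe ℂ (FockA_f get set y y') (sg x (1 : ℂ)) =
      if get x = y' then sg (set x y) (1 : ℂ) else 0 := by
  rw [pe_sg (FockA_inj h2 h3 y y')]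
  unfold FockA_f
  split_ifs <;> rfl

theorem FockA_star {X Y : Type} [DecidableEq X] [DecidableEq Y] {get : X → Y} {set : X → Y → X}
    (h1 : ∀ x y, get (set x y) = y)
    (h2 : ∀ x, set x (get x) = x) (h3 : ∀ x y y', set (set x y) y' = set x y') (y y' : Y) :
    star (pe ℂ (FockA_f get set y y')) = pe ℂ (FockA_f get set y' y) := by
  refine lp_ext_one fun z => ?_
  rw [FockA_sg h2 h3]
  by_cases e : get z = y
  · rw [if_pos e]
    refine star_pe_some (FockA_inj h2 h3 y y') ?_ _
    unfold FockA_f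
    rw [if_pos (h1 z y'), h3, ← e, h2]
  · rw [if_neg e]
    refine star_pe_none (FockA_inj h2 h3 y y') (fun x hx => ?_) _
    unfold FockA_f at hx
    by_cases e' : get x = y'
    · rw [if_pos e'] at hx
      exact e (by rw [← Option.some.inj hx, h1])
    · rw [if_neg e'] at hx
      exact absurd hx (by simp)

/-- the operator of a matrix -/
def FockA_F {X Y : Type} [DecidableEq X] [Fintype Y] [DecidableEq Y] (get : X → Y)
    (set : X → Y → X) (M : Matrix Y Y ℂ) : LP X ℂ →L[ℂ] LP X ℂ :=
  ∑ y, ∑ y', M y y' • pe ℂ (FockA_f get set y y')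

theorem FockA_F_sg {X Y : Type} [DecidableEq X] [Fintype Y] [DecidableEq Y] {get : X → Y}
    {set : X → Y → X}
    (h2 : ∀ x, set x (get x) = x) (h3 : ∀ x y y', set (set x y) y' = set x y')
    (M : Matrix Y Y ℂ) (x : X) :
    FockA_F get set M (sg x (1 : ℂ)) = ∑ y, M y (get x) • sg (set x y) (1 : ℂ) := by
  unfold FockA_F
  rw [_root_.sum_apply]
  refine Finset.sum_congr rfl fun y _ => ?_
  rw [_root_.sum_apply, Finset.sum_eq_single (get x)]
  · rw [_root_.smul_apply, FockA_sg h2 h3, if_pos rfl]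
  · intro y' _ hy'
    rw [_root_.smul_apply, FockA_sg h2 h3, if_neg (Ne.symm hy'), smul_zero]
  · intro h
    exact absurd (Finset.mem_univ _) h

theorem exists_lens {X Y : Type} [DecidableEq X] [Fintype Y] [DecidableEq Y] (get : X → Y)
    (set : X → Y → X) (h1 : ∀ x y, get (set x y) = y) (h2 : ∀ x, set x (get x) = x)
    (h3 : ∀ x y y', set (set x y) y' = set x y') :
    ∃ Φ : Matrix Y Y ℂ →⋆ₐ[ℂ] (LP X ℂ →L[ℂ] LP X ℂ),
      ∀ M x, Φ M (sg x 1) = ∑ y, M y (get x) • sg (set x y) (1 : ℂ) := by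
  have hone : FockA_F get set 1 = 1 := by
    refine lp_ext_one fun x => ?_
    rw [FockA_F_sg h2 h3, Finset.sum_eq_single (get x)]
    · rw [Matrix.one_apply_eq, one_smul, h2]; rfl
    · intro y _ hy
      rw [Matrix.one_apply_ne hy, zero_smul]
    · intro h
      exact absurd (Finset.mem_univ _) h
  have hmul : ∀ M N : Matrix Y Y ℂ,
      FockA_F get set (M * N) = FockA_F get set M * FockA_F get set N := by
    intro M N
    refine lp_ext_one fun x => ?_
    rw [mul_apply_eq_comp, FockA_F_sg h2 h3, FockA_F_sg h2 h3, map_sum]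
    simp only [map_smul, FockA_F_sg h2 h3, h1, h3, Matrix.mul_apply, Finset.sum_smul,
      Finset.smul_sum, smul_smul]
    rw [Finset.sum_comm]
    refine Finset.sum_congr rfl fun y _ => Finset.sum_congr rfl fun z _ => ?_
    rw [mul_comm]
  have hadd : ∀ M N : Matrix Y Y ℂ,
      FockA_F get set (M + N) = FockA_F get set M + FockA_F get set N := by
    intro M N
    simp only [FockA_F, Matrix.add_apply, add_smul, Finset.sum_add_distrib]
  have hsmul : ∀ (c : ℂ) (M : Matrix Y Y ℂ),
      FockA_F get set (c • M) = c • FockA_F get set M := by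
    intro c M
    simp only [FockA_F, Matrix.smul_apply, smul_eq_mul, Finset.smul_sum, smul_smul]
  have hstar : ∀ M : Matrix Y Y ℂ, FockA_F get set (star M) = star (FockA_F get set M) := by
    intro M
    simp only [FockA_F, star_sum, star_smul, FockA_star h1 h2 h3, Matrix.star_apply]
    rw [Finset.sum_comm]
  let L : Matrix Y Y ℂ →ₗ[ℂ] (LP X ℂ →L[ℂ] LP X ℂ) :=
    { toFun := FockA_F get set, map_add' := hadd, map_smul' := hsmul }
  let A : Matrix Y Y ℂ →ₐ[ℂ] (LP X ℂ →L[ℂ] LP X ℂ) := AlgHom.ofLinearMap L hone hmul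
  exact ⟨{ A with map_star' := hstar }, fun M x => FockA_F_sg h2 h3 M x⟩

/-- a real reflection with a given unit vector as a given column -/
theorem FockA_house {Y : Type} [Fintype Y] [DecidableEq Y] (u : Y → ℝ) (y₀ : Y)
    (hu : ∑ y, u y * u y = 1) :
    ∃ W : Matrix Y Y ℝ, W * W = 1 ∧ (∀ y z, W y z = W z y) ∧ ∀ y, W y y₀ = u y := by
  obtain ⟨w, hw⟩ : ∃ w : Y → ℝ, ∀ y, w y = u y - if y = y₀ then 1 else 0 := ⟨_, fun _ => rfl⟩
  obtain ⟨N, hN⟩ : ∃ N : ℝ, N = ∑ y, w y * w y := ⟨_, rfl⟩
  have hN' : N = -2 * w y₀ := by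
    have e : ∀ y, w y * w y = u y * u y + if y = y₀ then 1 - 2 * u y₀ else 0 := by
      intro y
      rw [hw]
      by_cases h : y = y₀
      · rw [if_pos h, if_pos h, h]; ring
      · rw [if_neg h, if_neg h]; ring
    rw [hN, Finset.sum_congr rfl fun y _ => e y, Finset.sum_add_distrib, hu, Finset.sum_ite_eq',
      if_pos (Finset.mem_univ _), hw, if_pos rfl]
    ring
  have hc : (2 / N) * (2 / N) * N = 2 * (2 / N) := by
    by_cases h : N = 0
    · simp [h]
    · field_simp
  refine ⟨Matrix.of fun y z => (if y = z then 1 else 0) - 2 / N * (w y * w z), ?_, ?_, ?_⟩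
  · ext y z
    rw [Matrix.mul_apply]
    simp only [Matrix.of_apply]
    have e : ∀ t, ((if y = t then (1 : ℝ) else 0) - 2 / N * (w y * w t)) *
        ((if t = z then (1 : ℝ) else 0) - 2 / N * (w t * w z)) =
        (if y = t then (if t = z then (1 : ℝ) else 0) else 0)
          - (if y = t then 2 / N * (w t * w z) else 0)
          - (if t = z then 2 / N * (w y * w t) else 0)
          + (2 / N) * (2 / N) * (w y * w z) * (w t * w t) := by
      intro t
      split_ifs <;> ring
    rw [Finset.sum_congr rfl fun t _ => e t, Finset.sum_add_distrib, Finset.sum_sub_distrib,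
      Finset.sum_sub_distrib, Finset.sum_ite_eq, Finset.sum_ite_eq, Finset.sum_ite_eq',
      ← Finset.mul_sum, ← hN, Matrix.one_apply]
    simp only [Finset.mem_univ, if_true]
    linear_combination (w y * w z) * hc
  · intro y z
    simp only [Matrix.of_apply, eq_comm, mul_comm]
  · intro y
    simp only [Matrix.of_apply]
    by_cases h : N = 0
    · have h0 : w y * w y = 0 := by
        have := (Finset.sum_eq_zero_iff_of_nonneg
          (fun t (_ : t ∈ Finset.univ) => mul_self_nonneg (w t))).1 (hN ▸ h)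
        exact this y (Finset.mem_univ _)
      have h1 : w y = 0 := mul_self_eq_zero.1 h0
      rw [h1]
      have := hw y
      linarith
    · have h1 : 2 / N * (w y * w y₀) = - w y := by
        have h2 : w y₀ = - N / 2 := by linarith
        rw [h2]
        field_simp
      rw [h1]
      have := hw y
      linarith

theorem FockA_houseC {Y : Type} [Fintype Y] [DecidableEq Y] (u : Y → ℝ) (y₀ : Y)
    (hu : ∑ y, u y * u y = 1) :
    ∃ W : Matrix Y Y ℂ, W * W = 1 ∧ star W = W ∧ ∀ y, W y y₀ = (u y : ℂ) := by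
  obtain ⟨W, h1, h2, h3⟩ := FockA_house u y₀ hu
  refine ⟨W.map Complex.ofRealHom, ?_, ?_, fun y => ?_⟩
  · rw [← Matrix.map_mul, h1, Matrix.map_one _ (map_zero _) (map_one _)]
  · ext y z
    simp [Matrix.star_apply, h2 z y]
  · simp [h3]

theorem exists_mats (ι : Type) [Fintype ι] [DecidableEq ι] [Nonempty ι] :
    ∃ (Tm Tm' : ι → ι → Matrix (ι × ι) (ι × ι) ℂ) (y₀ : ι × ι), MU Tm ∧
      (∀ i j, star (Tm' i j) = Tm' j i) ∧ (∀ i j k l, Tm i j * Tm' k l = Tm' k l * Tm i j) ∧
      (∀ i j y, Tm i j y y₀ = Tm' i j y y₀) ∧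
      ∀ y, (Pi.single y 1 : ι × ι → ℂ) ∈
        Submodule.span ℂ (Set.range fun p : ι × ι => fun y' => Tm p.1 p.2 y' y₀) := by
  classical
  have i₀ : ι := Classical.arbitrary ι
  have hm : (0 : ℝ) < Fintype.card ι := by exact_mod_cast Fintype.card_pos
  obtain ⟨s, hs0, hs⟩ : ∃ s : ℝ, s ≠ 0 ∧ (Fintype.card ι : ℝ) * (s * s) = 1 := by
    refine ⟨Real.sqrt (Fintype.card ι : ℝ)⁻¹, ?_, ?_⟩
    · exact (Real.sqrt_pos.2 (inv_pos.2 hm)).ne'
    · rw [Real.mul_self_sqrt (inv_pos.2 hm).le, mul_inv_cancel₀ hm.ne']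
  have hu : ∑ y : ι × ι, (if y.1 = y.2 then s else 0) * (if y.1 = y.2 then s else 0) = 1 := by
    rw [Fintype.sum_prod_type]
    simp only [mul_ite, ite_mul, mul_zero, zero_mul]
    have : ∀ a : ι, (∑ b : ι, if a = b then (if a = b then s * s else 0) else 0) = s * s := by
      intro a
      rw [Finset.sum_ite_eq]; simp
    simp only [this, Finset.sum_const, Finset.card_univ, nsmul_eq_mul, hs]
  obtain ⟨W, hWW, hWs, hW0⟩ := FockA_houseC (fun y : ι × ι => if y.1 = y.2 then s else 0) (i₀, i₀) hu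
  obtain ⟨A, hA⟩ : ∃ A : ι → ι → Matrix (ι × ι) (ι × ι) ℂ, ∀ i j, A i j =
      Matrix.kroneckerMap (· * ·) (Matrix.single i j (1 : ℂ)) (1 : Matrix ι ι ℂ) :=
    ⟨_, fun _ _ => rfl⟩
  obtain ⟨B, hB⟩ : ∃ B : ι → ι → Matrix (ι × ι) (ι × ι) ℂ, ∀ i j, B i j =
      Matrix.kroneckerMap (· * ·) (1 : Matrix ι ι ℂ) (Matrix.single j i (1 : ℂ)) :=
    ⟨_, fun _ _ => rfl⟩
  have cjm : ∀ P Q : Matrix (ι × ι) (ι × ι) ℂ, (W * P * W) * (W * Q * W) = W * (P * Q) * W := by
    intro P Q
    calc (W * P * W) * (W * Q * W) = W * P * (W * W) * Q * W := by simp only [Matrix.mul_assoc]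
      _ = W * (P * Q) * W := by rw [hWW]; simp only [Matrix.mul_assoc, Matrix.one_mul]
  have sconj : ∀ P : Matrix (ι × ι) (ι × ι) ℂ, star (W * P * W) = W * star P * W := by
    intro P
    rw [star_mul, star_mul, hWs, Matrix.mul_assoc]
  have sA : ∀ i j, star (A i j) = A j i := by
    intro i j
    ext a b
    simp only [hA, Matrix.star_apply, Matrix.kroneckerMap_apply, Matrix.single_apply,
      Matrix.one_apply, star_mul', apply_ite (star : ℂ → ℂ), star_one, star_zero, and_comm, eq_comm]
  have sB : ∀ i j, star (B i j) = B j i := by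
    intro i j
    ext a b
    simp only [hB, Matrix.star_apply, Matrix.kroneckerMap_apply, Matrix.single_apply,
      Matrix.one_apply, star_mul', apply_ite (star : ℂ → ℂ), star_one, star_zero, and_comm, eq_comm]
  have mA : ∀ i j k l, A i j * A k l = if j = k then A i l else 0 := by
    intro i j k l
    rw [hA, hA, ← Matrix.mul_kronecker_mul, Matrix.mul_one]
    by_cases h : j = k
    · rw [if_pos h, hA, h, Matrix.single_mul_single_same, mul_one]
    · rw [if_neg h, Matrix.single_mul_single_of_ne _ _ _ _ h, Matrix.zero_kronecker]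
  have cAB : ∀ i j k l, A i j * B k l = B k l * A i j := by
    intro i j k l
    rw [hA, hB, ← Matrix.mul_kronecker_mul, ← Matrix.mul_kronecker_mul]
    simp only [Matrix.mul_one, Matrix.one_mul]
  have sumA : ∑ i, A i i = 1 := by
    ext a b
    simp only [hA, Matrix.sum_apply, Matrix.kroneckerMap_apply, Matrix.single_apply,
      Matrix.one_apply, ← Finset.sum_mul, Prod.ext_iff]
    by_cases h1 : a.1 = b.1
    · rw [Finset.sum_eq_single a.1]
      · simp [h1]
      · intro c _ hc
        simp [hc]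
      · intro h
        exact absurd (Finset.mem_univ _) h
    · rw [Finset.sum_eq_zero]
      · simp [h1]
      · intro c _
        rw [if_neg]
        rintro ⟨e1, e2⟩
        exact h1 (e1.symm.trans e2)
  have colA : ∀ i j z, (A i j * W) z (i₀, i₀) = if z = (i, j) then (s : ℂ) else 0 := by
    rintro i j ⟨a, b⟩
    rw [Matrix.mul_apply, Finset.sum_eq_single (j, b)]
    · simp only [hA, hW0, Matrix.kroneckerMap_apply, Matrix.single_apply, Matrix.one_apply,
        Prod.ext_iff]
      have e1 : (i = a) = (a = i) := propext eq_comm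
      have e2 : (j = b) = (b = j) := propext eq_comm
      by_cases h1 : a = i <;> by_cases h2 : b = j <;> simp [e1, e2, h1, h2]
    · rintro ⟨c, d⟩ _ hne
      simp only [hA, Matrix.kroneckerMap_apply, Matrix.single_apply, Matrix.one_apply]
      by_cases h1 : j = c
      · have h2 : b ≠ d := fun h => hne (by rw [h1, h])
        simp [h2]
      · simp [h1]
    · intro h
      exact absurd (Finset.mem_univ _) h
  have colB : ∀ i j z, (B i j * W) z (i₀, i₀) = if z = (i, j) then (s : ℂ) else 0 := by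
    rintro i j ⟨a, b⟩
    rw [Matrix.mul_apply, Finset.sum_eq_single (a, i)]
    · simp only [hB, hW0, Matrix.kroneckerMap_apply, Matrix.single_apply, Matrix.one_apply,
        Prod.ext_iff]
      have e1 : (i = a) = (a = i) := propext eq_comm
      have e2 : (j = b) = (b = j) := propext eq_comm
      by_cases h1 : a = i <;> by_cases h2 : b = j <;> simp [e1, e2, h1, h2]
    · rintro ⟨c, d⟩ _ hne
      simp only [hB, Matrix.kroneckerMap_apply, Matrix.single_apply, Matrix.one_apply]
      by_cases h1 : i = d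
      · have h2 : a ≠ c := fun h => hne (by rw [h1, h])
        simp [h2]
      · simp [h1]
    · intro h
      exact absurd (Finset.mem_univ _) h
  have col : ∀ (P : Matrix (ι × ι) (ι × ι) ℂ) (p : ι × ι),
      (∀ z, (P * W) z (i₀, i₀) = if z = p then (s : ℂ) else 0) →
      ∀ y, (W * P * W) y (i₀, i₀) = W y p * s := by
    intro P p h y
    rw [Matrix.mul_assoc, Matrix.mul_apply]
    simp only [h, mul_ite, mul_zero, Finset.sum_ite_eq', Finset.mem_univ, if_true]
  refine ⟨fun i j => W * A i j * W, fun i j => W * B i j * W, (i₀, i₀), ⟨?_, ?_, ?_⟩, ?_, ?_, ?_, ?_⟩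
  · intro i j k l
    rw [cjm, mA]
    split_ifs
    · rfl
    · simp
  · intro i j
    rw [sconj, sA]
  · rw [← Finset.sum_mul, ← Finset.mul_sum, sumA, Matrix.mul_one, hWW]
  · intro i j
    rw [sconj, sB]
  · intro i j k l
    rw [cjm, cjm, cAB]
  · intro i j y
    exact (col _ _ (colA i j) y).trans (col _ _ (colB i j) y).symm
  · intro y
    have hsC : (s : ℂ) ≠ 0 := by exact_mod_cast hs0
    have e : (Pi.single y 1 : ι × ι → ℂ) =
        ∑ p : ι × ι, (W p y / s) • fun y' => (W * A p.1 p.2 * W) y' (i₀, i₀) := by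
      funext y'
      rw [Finset.sum_apply]
      simp only [Pi.smul_apply, smul_eq_mul, col _ _ (colA _ _)]
      have h := congrFun (congrFun hWW y') y
      rw [Matrix.mul_apply, Matrix.one_apply] at h
      rw [Pi.single_apply, ← h]
      refine Finset.sum_congr rfl fun p _ => ?_
      field_simp
    rw [e]
    exact Submodule.sum_mem _ fun p _ => Submodule.smul_mem _ _ (Submodule.subset_span ⟨p, rfl⟩)

/-- the operators of the two sided Fock space -/
structure PreModel {H : Type} [NormedAddCommGroup H] [InnerProductSpace ℂ H] [CompleteSpace H]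
    {ι : Type} [Fintype ι] [DecidableEq ι] (Ω : H) (E E' : ℕ → ι → ι → (H →L[ℂ] H)) {I : Type}
    (ℓ r : I → (H →L[ℂ] H)) : Prop where
  norm : ‖Ω‖ = 1
  tower : Tower E
  starE' : ∀ k i j, star (E' k i j) = E' k j i
  EE' : ∀ k l i j a b, E k i j * E' l a b = E' l a b * E k i j
  EΩ : ∀ k i j, E k i j Ω = E' k i j Ω
  lE' : ∀ p k i j, ℓ p * E' k i j = E' k i j * ℓ p
  rE : ∀ p k i j, r p * E k i j = E k i j * r p
  lr : ∀ p q, ℓ p * r q = r q * ℓ p
  same : ∀ p, ∀ d ∈ base E, star (ℓ p) * d * ℓ p = ⟪Ω, d Ω⟫_ℂ • (1 : H →L[ℂ] H)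
  diff : ∀ p q, p ≠ q → ∀ d ∈ base E, star (ℓ p) * d * ℓ q = 0
  vac : ∀ p, ∀ d ∈ base E, (star (ℓ p)) (d Ω) = 0
  r_same : ∀ p, star (r p) * r p = 1
  r_diff : ∀ p q, p ≠ q → star (r p) * r q = 0
  rΩ : ∀ p, (star (r p)) Ω = 0
  lrΩ : ∀ p, ℓ p Ω = r p Ω
  rl_same : ∀ p ξ, (star (r p)) (ℓ p ξ) = ℓ p ((star (r p)) ξ) + ⟪Ω, ξ⟫_ℂ • Ω
  rl_diff : ∀ p q, p ≠ q → star (r p) * ℓ q = ℓ q * star (r p)
  gen : ∀ V : Submodule ℂ H, IsClosed (V : Set H) → Ω ∈ V →
    (∀ k i j, ∀ ξ ∈ V, E k i j ξ ∈ V) → (∀ p, ∀ ξ ∈ V, ℓ p ξ ∈ V) → V = ⊤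

end Pool.Agent.TS
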