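import Pool.Agent.P.MP_e05717_an.FockA

/-!
Row TS-FockB. The two sided Fock space (paper section 2).
Hints: `Y = ι × ι`, `G = {g : ℕ → Y // {n | g n ≠ y₀}.Finite}` with base point `g₀`,
`X = G × List (I × G)` (classical decidable equality), `H = LP X ℂ`, `Ω = sg (g₀, []) 1`,
`ℓ p = pe ((g, w) ↦ some (g₀, (p, g) :: w))`, `r p = pe ((g, w) ↦ some (g, w ++ [(p, g₀)]))`,
`E k i j = Φ (Tm i j)` for the lens of the coordinate `k` of the first `G` letter, `E' k i j = Φ' (Tm' i j)`
for the lens of the coordinate `k` of the last `G` letter (define get and set of the last letter by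
recursion on the list). Check identities on basis vectors. For `same`, `diff`, `vac`: every `d ∈ base E`
commutes with `t w w' = pe ((g, u) ↦ if u = w' then some (g, w) else none)`, and
`ℓ q (sg (g, w) 1) = t ((q, g) :: w) [] Ω`. For `gen`: induction on the list and on the support of `g`,
with the span property of `exists_mats`; `lp_top`.
-/

open scoped ComplexOrder InnerProductSpace ComplexConjugate ENNReal
open Filter Topology Pool.Agent.P.MP_5d580a_an

set_option linter.unusedSectionVars false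
set_option linter.unusedVariables false

noncomputable section

namespace Pool.Agent.TS


/-! ### Lens operators on basis vectors -/

section Lens

variable {X Y : Type} [DecidableEq X] [Fintype Y]

theorem FockB_comm_at {S T : LP X ℂ →L[ℂ] LP X ℂ} {M N : Matrix Y Y ℂ} {get get' : X → Y}
    {set set' : X → Y → X} (hS : ∀ x, S (sg x 1) = ∑ y, M y (get x) • sg (set x y) (1 : ℂ))
    (hT : ∀ x, T (sg x 1) = ∑ y, N y (get' x) • sg (set' x y) (1 : ℂ)) (x : X)
    (h1 : ∀ y, get (set' x y) = get x) (h2 : ∀ y, get' (set x y) = get' x)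
    (h3 : ∀ y y', set (set' x y') y = set' (set x y) y') : S (T (sg x 1)) = T (S (sg x 1)) := by
  rw [hS, hT, map_sum, map_sum]
  simp only [map_smul, hS, hT, h1, h2, h3, Finset.smul_sum, smul_smul]
  rw [Finset.sum_comm]
  exact Finset.sum_congr rfl fun y _ => Finset.sum_congr rfl fun y' _ => by rw [mul_comm]

theorem FockB_inter {S V : LP X ℂ →L[ℂ] LP X ℂ} {M : Matrix Y Y ℂ} {get : X → Y}
    {set : X → Y → X} (hS : ∀ x, S (sg x 1) = ∑ y, M y (get x) • sg (set x y) (1 : ℂ))
    {f : X → X} (hV : ∀ x, V (sg x 1) = sg (f x) 1) (h1 : ∀ x, get (f x) = get x)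
    (h2 : ∀ x y, set (f x) y = f (set x y)) : V * S = S * V := by
  refine lp_ext_one fun x => ?_
  rw [mul_apply_eq_comp, mul_apply_eq_comp, hV, hS, hS, map_sum]
  simp only [map_smul, hV, h1, h2]

theorem FockB_inner (x y : X) :
    ⟪(sg x 1 : LP X ℂ), sg y 1⟫_ℂ = if x = y then 1 else 0 := by
  rw [inner_sg_sg]
  simp

theorem FockB_pinj {f : X → X} (hf : Function.Injective f) : PInj fun x => some (f x) :=
  fun _ _ _ h h' => hf (Option.some.inj (h.trans h'.symm))

end Lens

theorem FockB_base {A : Type} [CStarAlgebra A] {ι : Type} [Fintype ι] [DecidableEq ι]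
    {e : ℕ → ι → ι → A} (he : ∀ k i j, star (e k i j) = e k j i) {V : A}
    (hV : ∀ k i j, e k i j * V = V * e k i j) : ∀ d ∈ base e, d * V = V * d := by
  intro d hd
  have : d * V = V * d ∧ star d * V = V * star d := by
    induction hd using StarAlgebra.adjoin_induction with
    | mem x hx =>
      obtain ⟨k, i, j, rfl⟩ := hx
      exact ⟨hV k i j, by rw [he]; exact hV k j i⟩
    | algebraMap r =>
      refine ⟨Algebra.commutes r V, ?_⟩
      rw [← algebraMap_star_comm]
      exact Algebra.commutes _ V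
    | add x y _ _ hx hy =>
      exact ⟨by rw [add_mul, mul_add, hx.1, hy.1], by rw [star_add, add_mul, mul_add, hx.2, hy.2]⟩
    | mul x y _ _ hx hy =>
      exact ⟨by rw [mul_assoc, hy.1, ← mul_assoc, hx.1, mul_assoc],
        by rw [star_mul, mul_assoc, hx.2, ← mul_assoc, hy.2, mul_assoc]⟩
    | star x _ hx => exact ⟨hx.2, by rw [star_star]; exact hx.1⟩
  exact this.1

theorem FockB_mu {A B : Type} [Ring A] [StarRing A] [Algebra ℂ A] [Ring B] [StarRing B]
    [Algebra ℂ B] {ι : Type} [Fintype ι] [DecidableEq ι] {e : ι → ι → A} (h : MU e)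
    (Φ : A →⋆ₐ[ℂ] B) : MU fun i j => Φ (e i j) where
  mul i j k l := by
    rw [← map_mul, h.mul]
    split_ifs
    · rfl
    · exact map_zero Φ
  star i j := by rw [← map_star, h.star]
  sum := by rw [← map_sum, h.sum, map_one]

/-! ### The index set -/

/-- finitely supported sequences -/
def FockB_G (Y : Type) (y₀ : Y) : Type := {g : ℕ → Y // {n | g n ≠ y₀}.Finite}

/-- alternating words which start and end with a letter from `G` -/
inductive FockB_W (I G : Type) : Type
  | nil (g : G) : FockB_W I G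
  | cons (g : G) (p : I) (w : FockB_W I G) : FockB_W I G

instance (I G : Type) : DecidableEq (FockB_W I G) := Classical.decEq _

namespace FockB_G

variable {Y : Type} {y₀ : Y}

/-- the base point -/
def zero (y₀ : Y) : FockB_G Y y₀ := ⟨fun _ => y₀, by simp⟩

/-- change one coordinate -/
def upd (g : FockB_G Y y₀) (k : ℕ) (y : Y) : FockB_G Y y₀ :=
  ⟨Function.update g.1 k y, (g.2.insert k).subset fun n hn => by
    by_cases h : n = k
    · exact Or.inl h
    · exact Or.inr (by simpa [Function.update_of_ne h] using hn)⟩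

theorem upd_self (g : FockB_G Y y₀) (k : ℕ) (y : Y) : (g.upd k y).1 k = y :=
  Function.update_self (β := fun _ => Y) k y g.1

theorem upd_ne (g : FockB_G Y y₀) {k l : ℕ} (h : l ≠ k) (y : Y) : (g.upd k y).1 l = g.1 l :=
  Function.update_of_ne (β := fun _ => Y) h y g.1

theorem upd_eq (g : FockB_G Y y₀) (k : ℕ) : g.upd k (g.1 k) = g :=
  Subtype.ext (Function.update_eq_self k g.1)

theorem upd_upd (g : FockB_G Y y₀) (k : ℕ) (y y' : Y) : (g.upd k y).upd k y' = g.upd k y' :=
  Subtype.ext (Function.update_idem (β := fun _ => Y) y y' g.1)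

theorem upd_comm (g : FockB_G Y y₀) {k l : ℕ} (h : k ≠ l) (y y' : Y) :
    (g.upd k y).upd l y' = (g.upd l y').upd k y :=
  Subtype.ext (Function.update_comm (β := fun _ => Y) h y y' g.1)

theorem ind {P : FockB_G Y y₀ → Prop} (h0 : P (zero y₀))
    (hs : ∀ g k y, g.1 k = y₀ → P g → P (g.upd k y)) (g : FockB_G Y y₀) : P g := by
  have h : ∀ S : Set ℕ, S.Finite → ∀ g : FockB_G Y y₀, {n | g.1 n ≠ y₀} ⊆ S → P g := by
    intro S hS
    induction S, hS using Set.Finite.induction_on with
    | empty =>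
      intro g hg
      have : g = zero y₀ := Subtype.ext (funext fun n => by_contra fun hn => hg hn)
      rwa [this]
    | @insert k S _ _ ih =>
      intro g hg
      have h1 := hs (g.upd k y₀) k (g.1 k) (upd_self g k y₀) (ih _ fun n hn => by
        by_cases h : n = k
        · exact absurd (h ▸ upd_self g k y₀) hn
        · exact (hg (by rwa [Set.mem_ofPred_eq, upd_ne g h] at hn)).resolve_left h)
      rwa [upd_upd, upd_eq] at h1
  exact h _ g.2 g subset_rfl

end FockB_G

namespace FockB_W

variable {I G : Type}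

/-- the first letter -/
def hd : FockB_W I G → G
  | nil g => g
  | cons g _ _ => g

/-- change the first letter -/
def setH : FockB_W I G → G → FockB_W I G
  | nil _, g => nil g
  | cons _ p w, g => cons g p w

/-- the last letter -/
def la : FockB_W I G → G
  | nil g => g
  | cons _ _ w => la w

/-- change the last letter -/
def setL : FockB_W I G → G → FockB_W I G
  | nil _, g => nil g
  | cons h p w, g => cons h p (setL w g)

/-- append at the end -/
def snoc (g₀ : G) (p : I) : FockB_W I G → FockB_W I G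
  | nil g => cons g p (nil g₀)
  | cons g q w => cons g q (snoc g₀ p w)

/-- attach a tail to a word of length one -/
def att (φ : G → FockB_W I G) : FockB_W I G → Option (FockB_W I G)
  | nil g => some (φ g)
  | cons _ _ _ => none

theorem hd_setH (x : FockB_W I G) (g : G) : (x.setH g).hd = g := by cases x <;> rfl
theorem setH_hd (x : FockB_W I G) : x.setH x.hd = x := by cases x <;> rfl
theorem setH_setH (x : FockB_W I G) (g g' : G) : (x.setH g).setH g' = x.setH g' := by
  cases x <;> rfl
theorem la_setL (x : FockB_W I G) (g : G) : (x.setL g).la = g := by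
  induction x with
  | nil _ => rfl
  | cons _ _ _ ih => exact ih
theorem setL_la (x : FockB_W I G) : x.setL x.la = x := by
  induction x with
  | nil _ => rfl
  | cons h p w ih => exact congrArg (cons h p) ih
theorem setL_setL (x : FockB_W I G) (g g' : G) : (x.setL g).setL g' = x.setL g' := by
  induction x with
  | nil _ => rfl
  | cons h p w ih => exact congrArg (cons h p) ih
theorem hd_snoc (g₀ : G) (p : I) (x : FockB_W I G) : (snoc g₀ p x).hd = x.hd := by cases x <;> rfl
theorem setH_snoc (g₀ : G) (p : I) (x : FockB_W I G) (g : G) :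
    (snoc g₀ p x).setH g = snoc g₀ p (x.setH g) := by cases x <;> rfl
theorem snoc_ne_nil (g₀ : G) (p : I) (x : FockB_W I G) (g : G) : snoc g₀ p x ≠ nil g := by
  cases x <;> exact fun h => by cases h
theorem snoc_inj (g₀ : G) {p q : I} {x y : FockB_W I G} (h : snoc g₀ p x = snoc g₀ q y) :
    p = q ∧ x = y := by
  induction x generalizing y with
  | nil g =>
    cases y with
    | nil g' =>
      obtain ⟨h1, h2, -⟩ := cons.inj h
      exact ⟨h2, by rw [h1]⟩
    | cons g' q' w => exact absurd (cons.inj h).2.2.symm (snoc_ne_nil _ _ _ _)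
  | cons g p' w ih =>
    cases y with
    | nil g' => exact absurd (cons.inj h).2.2 (snoc_ne_nil _ _ _ _)
    | cons g' q' w' =>
      obtain ⟨h1, h2, h3⟩ := cons.inj h
      obtain ⟨h4, h5⟩ := ih h3
      exact ⟨h4, by rw [h1, h2, h5]⟩
theorem snoc_eq_cons {g₀ : G} {p q : I} {x y : FockB_W I G} (h : snoc g₀ p y = cons g₀ q x) :
    (p = q ∧ x = nil g₀) ∨ ∃ z, snoc g₀ p z = x := by
  cases y with
  | nil g => exact Or.inl ⟨(cons.inj h).2.1, (cons.inj h).2.2.symm⟩
  | cons g q' w => exact Or.inr ⟨w, (cons.inj h).2.2⟩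
theorem pinj_att {φ : G → FockB_W I G} (h : ∀ g, (φ g).hd = g) : PInj (att φ) := by
  intro x x' y h1 h2
  cases x with
  | cons _ _ _ => cases h1
  | nil g =>
    cases x' with
    | cons _ _ _ => cases h2
    | nil g' =>
      have h3 := congrArg hd (Option.some.inj (h1.trans h2.symm))
      rw [h, h] at h3
      rw [h3]

/-- left creation -/
def opL (g₀ : G) (p : I) : LP (FockB_W I G) ℂ →L[ℂ] LP (FockB_W I G) ℂ :=
  pe ℂ fun x => some (cons g₀ p x)

/-- right creation -/
def opR (g₀ : G) (p : I) : LP (FockB_W I G) ℂ →L[ℂ] LP (FockB_W I G) ℂ :=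
  pe ℂ fun x => some (snoc g₀ p x)

theorem pinjL (g₀ : G) (p : I) : PInj fun x : FockB_W I G => some (cons g₀ p x) :=
  FockB_pinj fun _ _ h => (cons.inj h).2.2
theorem pinjR (g₀ : G) (p : I) : PInj fun x : FockB_W I G => some (snoc g₀ p x) :=
  FockB_pinj fun _ _ h => (snoc_inj g₀ h).2

variable (g₀ : G) (p q : I) (x : FockB_W I G)

theorem opL_sg : opL g₀ p (sg x 1) = sg (cons g₀ p x) 1 := pe_sg (pinjL g₀ p) x 1
theorem opR_sg : opR g₀ p (sg x 1) = sg (snoc g₀ p x) 1 := pe_sg (pinjR g₀ p) x 1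
theorem starL_some : (star (opL g₀ p)) (sg (cons g₀ p x) 1) = sg x 1 :=
  star_pe_some (pinjL g₀ p) rfl 1
theorem starL_none (h : ∀ y, cons g₀ p y ≠ x) : (star (opL g₀ p)) (sg x 1) = 0 :=
  star_pe_none (pinjL g₀ p) (fun y hy => h y (Option.some.inj hy)) 1
theorem starR_some : (star (opR g₀ p)) (sg (snoc g₀ p x) 1) = sg x 1 :=
  star_pe_some (pinjR g₀ p) rfl 1
theorem starR_none (h : ∀ y, snoc g₀ p y ≠ x) : (star (opR g₀ p)) (sg x 1) = 0 :=
  star_pe_none (pinjR g₀ p) (fun y hy => h y (Option.some.inj hy)) 1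

theorem att_nil {φ : G → FockB_W I G} (h : ∀ g, (φ g).hd = g) (g : G) :
    pe ℂ (att φ) (sg (nil g) 1) = sg (φ g) 1 := pe_sg (pinj_att h) _ 1
theorem att_cons {φ : G → FockB_W I G} (h : ∀ g, (φ g).hd = g) (g : G) :
    pe ℂ (att φ) (sg (cons g p x) 1) = 0 := pe_sg (pinj_att h) _ 1

theorem starL_att : star (opL g₀ p) * pe ℂ (att fun g => cons g p x) =
    (innerSL ℂ (sg (nil g₀) 1 : LP (FockB_W I G) ℂ)).smulRight (sg x 1) := by
  refine lp_ext_one fun y => ?_
  rw [mul_apply_eq_comp, ContinuousLinearMap.smulRight_apply, innerSL_apply_apply, FockB_inner]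
  cases y with
  | nil g =>
    rw [att_nil fun _ => rfl]
    by_cases h : g₀ = g
    · rw [← h, starL_some, if_pos rfl, one_smul]
    · rw [starL_none _ _ _ fun y hy => h (cons.inj hy).1, if_neg fun hy => h (nil.inj hy),
        zero_smul]
  | cons g q w => rw [att_cons _ _ fun _ => rfl, map_zero, if_neg (fun h => by cases h), zero_smul]

theorem starL_att_ne (h : p ≠ q) : star (opL g₀ p) * pe ℂ (att fun g => cons g q x) = 0 := by
  refine lp_ext_one fun y => ?_
  rw [mul_apply_eq_comp, zero_apply]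
  cases y with
  | nil g => rw [att_nil fun _ => rfl, starL_none _ _ _ fun y hy => h (cons.inj hy).2.1]
  | cons g q w => rw [att_cons _ _ fun _ => rfl, map_zero]

theorem starL_att_nil : star (opL g₀ p) * pe ℂ (att nil) = 0 := by
  refine lp_ext_one fun y => ?_
  rw [mul_apply_eq_comp, zero_apply]
  cases y with
  | nil g => rw [att_nil fun _ => rfl, starL_none _ _ _ fun y hy => by cases hy]
  | cons g q w => rw [att_cons _ _ fun _ => rfl, map_zero]

theorem starR_opL (h : ¬ (p = q ∧ x = nil g₀)) :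
    (star (opR g₀ p)) (opL g₀ q (sg x 1)) = opL g₀ q ((star (opR g₀ p)) (sg x 1)) := by
  rw [opL_sg]
  by_cases h1 : ∃ z, snoc g₀ p z = x
  · obtain ⟨z, rfl⟩ := h1
    rw [starR_some, opL_sg]
    exact starR_some g₀ p (cons g₀ q z)
  · rw [starR_none g₀ p x fun y hy => h1 ⟨y, hy⟩, map_zero]
    exact starR_none _ _ _ fun y hy => (snoc_eq_cons hy).elim h h1

theorem rl_same (ξ : LP (FockB_W I G) ℂ) : (star (opR g₀ p)) (opL g₀ p ξ) =
    opL g₀ p ((star (opR g₀ p)) ξ) + ⟪(sg (nil g₀) 1 : LP (FockB_W I G) ℂ), ξ⟫_ℂ • sg (nil g₀) 1 := by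
  have h : star (opR g₀ p) * opL g₀ p = opL g₀ p * star (opR g₀ p) +
      (innerSL ℂ (sg (nil g₀) 1 : LP (FockB_W I G) ℂ)).smulRight (sg (nil g₀) 1) := by
    refine lp_ext_one fun y => ?_
    rw [add_apply, mul_apply_eq_comp, mul_apply_eq_comp,
      ContinuousLinearMap.smulRight_apply, innerSL_apply_apply, FockB_inner]
    by_cases hy : y = nil g₀
    · rw [hy, starR_none g₀ p (nil g₀) fun z => snoc_ne_nil _ _ _ _, map_zero, zero_add,
        if_pos rfl, one_smul, opL_sg]
      exact starR_some g₀ p (nil g₀)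
    · rw [starR_opL _ _ _ _ fun h => hy h.2, if_neg fun h => hy h.symm, zero_smul, add_zero]
  exact congrArg (fun S : LP (FockB_W I G) ℂ →L[ℂ] LP (FockB_W I G) ℂ => S ξ) h

/-- operators on the first letter commute with the attachment of a tail -/
theorem comm_att {Y : Type} [Fintype Y] {S : LP (FockB_W I G) ℂ →L[ℂ] LP (FockB_W I G) ℂ}
    {M : Matrix Y Y ℂ} {get : G → Y} {set : G → Y → G}
    (hS : ∀ x, S (sg x 1) = ∑ y, M y (get x.hd) • sg (x.setH (set x.hd y)) (1 : ℂ))
    {φ : G → FockB_W I G} (h : ∀ g, (φ g).hd = g) (h' : ∀ g g', (φ g).setH g' = φ g') :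
    S * pe ℂ (att φ) = pe ℂ (att φ) * S := by
  refine lp_ext_one fun x => ?_
  rw [mul_apply_eq_comp, mul_apply_eq_comp, hS, map_sum]
  cases x with
  | nil g =>
    rw [att_nil h, hS, h]
    simp only [h']
    simp only [map_smul, hd, setH, att_nil h]
  | cons g q w =>
    rw [att_cons _ _ h, map_zero]
    simp only [map_smul, hd, setH, att_cons _ _ h, smul_zero, Finset.sum_const_zero]

end FockB_W

open FockB_W FockB_G in
theorem exists_preModel (ι : Type) [Fintype ι] [DecidableEq ι] [Nonempty ι] (I : Type) :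
    ∃ (H : Type) (_ : NormedAddCommGroup H) (_ : InnerProductSpace ℂ H) (_ : CompleteSpace H)
      (Ω : H) (E E' : ℕ → ι → ι → (H →L[ℂ] H)) (ℓ r : I → (H →L[ℂ] H)),
      PreModel Ω E E' ℓ r := by
  obtain ⟨Tm, Tm', y₀, hmu, hst, hcm, hΩ, hsp⟩ := exists_mats ι
  choose Φ hΦ using fun k : ℕ => exists_lens (X := FockB_W I (FockB_G (ι × ι) y₀))
    (fun x => x.hd.1 k) (fun x y => x.setH (x.hd.upd k y))
    (fun x y => by rw [hd_setH, upd_self]) (fun x => by rw [upd_eq, setH_hd])
    (fun x y y' => by rw [hd_setH, upd_upd, setH_setH])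
  choose Ψ hΨ using fun k : ℕ => exists_lens (X := FockB_W I (FockB_G (ι × ι) y₀))
    (fun x => x.la.1 k) (fun x y => x.setL (x.la.upd k y))
    (fun x y => by rw [la_setL, upd_self]) (fun x => by rw [upd_eq, setL_la])
    (fun x y y' => by rw [la_setL, upd_upd, setL_setL])
  have hnil : ∀ k M g, Φ k M (sg (nil g) 1) = Ψ k M (sg (nil g) 1) := fun k M g => by
    rw [hΦ, hΨ]
    rfl
  have hnil2 : ∀ k M N g, Φ k M (Φ k N (sg (nil g) 1)) = Ψ k M (Φ k N (sg (nil g) 1)) :=
    fun k M N g => by
      rw [hΦ, map_sum, map_sum]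
      simp only [map_smul, setH, hnil]
  have hE : ∀ k i j, star (Φ k (Tm i j)) = Φ k (Tm j i) := fun k => (FockB_mu hmu (Φ k)).star
  have hatt : ∀ {φ : FockB_G (ι × ι) y₀ → FockB_W I (FockB_G (ι × ι) y₀)}, (∀ g, (φ g).hd = g) →
      (∀ g g', (φ g).setH g' = φ g') → ∀ d ∈ base fun k i j => Φ k (Tm i j),
        d * pe ℂ (att φ) = pe ℂ (att φ) * d := fun h h' =>
    FockB_base hE fun k i j => comm_att (get := fun g => g.1 k) (set := fun g y => g.upd k y)
      (hΦ k (Tm i j)) h h'
  have hd' : ∀ q x, ∀ d ∈ base fun k i j => Φ k (Tm i j), d (opL (zero y₀) q (sg x 1)) =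
      pe ℂ (att fun g => cons g q x) (d (sg (nil (zero y₀)) 1)) := fun q x d hd => by
    rw [← mul_apply_eq_comp (pe _ _), ← hatt (fun _ => rfl) (fun _ _ => rfl) d hd,
      mul_apply_eq_comp, att_nil fun _ => rfl, opL_sg]
  refine ⟨LP (FockB_W I (FockB_G (ι × ι) y₀)) ℂ, inferInstance, inferInstance, inferInstance,
    sg (nil (zero y₀)) 1, fun k i j => Φ k (Tm i j), fun k i j => Ψ k (Tm' i j), opL (zero y₀),
    opR (zero y₀), ?_, ⟨fun k => FockB_mu hmu (Φ k), fun k l hkl i j a b => ?_⟩,
    fun k i j => ?_, fun k l i j a b => ?_, fun k i j => ?_, fun p k i j => ?_,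
    fun p k i j => ?_, fun p q => ?_, fun p d hd => ?_, fun p q hpq d hd => ?_,
    fun p d hd => ?_, fun p => ?_, fun p q hpq => ?_, fun p => ?_, fun p => ?_,
    fun p ξ => rl_same _ p ξ, fun p q hpq => ?_, fun V hV h0 h1 h2 => ?_⟩
  · rw [norm_sg, norm_one]
  · refine lp_ext_one fun x => FockB_comm_at (hΦ k _) (hΦ l _) x (fun y => ?_) (fun y => ?_)
      fun y y' => ?_
    · rw [hd_setH, upd_ne _ hkl]
    · rw [hd_setH, upd_ne _ hkl.symm]
    · rw [hd_setH, hd_setH, setH_setH, setH_setH, upd_comm _ hkl]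
  · rw [← map_star, hst]
  · refine lp_ext_one fun x => ?_
    rw [mul_apply_eq_comp, mul_apply_eq_comp]
    cases x with
    | cons g p w =>
      exact FockB_comm_at (hΦ k _) (hΨ l _) _ (fun y => rfl) (fun y => rfl) fun y y' => rfl
    | nil g =>
      by_cases hkl : k = l
      · subst hkl
        rw [← hnil, ← hnil2, ← mul_apply_eq_comp, ← mul_apply_eq_comp, ← map_mul, ← map_mul, hcm]
      · exact FockB_comm_at (hΦ k _) (hΨ l _) _ (fun y => upd_ne g hkl y)
          (fun y => upd_ne g (Ne.symm hkl) y)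
          fun y y' => congrArg nil (upd_comm g (Ne.symm hkl) y' y)
  · rw [← hnil, hΦ, hΦ]
    refine Finset.sum_congr rfl fun y _ => ?_
    have : Tm i j y ((nil (I := I) (zero y₀)).hd.1 k) = Tm' i j y ((nil (I := I) (zero y₀)).hd.1 k) :=
      hΩ i j y
    rw [this]
  · exact FockB_inter (hΨ k _) (opL_sg _ p) (fun x => rfl) fun x y => rfl
  · exact FockB_inter (hΦ k _) (opR_sg _ p) (fun x => by rw [hd_snoc])
      fun x y => by rw [hd_snoc, setH_snoc]
  · refine lp_ext_one fun x => ?_
    rw [mul_apply_eq_comp, mul_apply_eq_comp, opR_sg, opL_sg, opL_sg, opR_sg]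
    rfl
  · refine lp_ext_one fun x => ?_
    rw [mul_apply_eq_comp, mul_apply_eq_comp, hd' p x d hd, ← mul_apply_eq_comp, starL_att]
    rfl
  · refine lp_ext_one fun x => ?_
    rw [mul_apply_eq_comp, mul_apply_eq_comp, hd' q x d hd, ← mul_apply_eq_comp,
      starL_att_ne _ _ _ _ hpq]
    rfl
  · rw [← att_nil (φ := nil) (fun _ => rfl) (zero y₀), ← mul_apply_eq_comp d,
      hatt (fun _ => rfl) (fun _ _ => rfl) d hd, mul_apply_eq_comp, ← mul_apply_eq_comp,
      starL_att_nil]
    rfl
  · refine lp_ext_one fun x => ?_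
    rw [mul_apply_eq_comp, opR_sg, starR_some]
    rfl
  · refine lp_ext_one fun x => ?_
    rw [mul_apply_eq_comp, opR_sg, starR_none _ _ _ fun y hy => hpq (snoc_inj _ hy).1]
    rfl
  · exact starR_none _ _ _ fun y => snoc_ne_nil _ _ _ _
  · rw [opL_sg, opR_sg]
    rfl
  · refine lp_ext_one fun x => ?_
    rw [mul_apply_eq_comp, mul_apply_eq_comp]
    exact starR_opL _ _ _ _ fun h => hpq h.1
  · have k1 : ∀ (x : FockB_W I (FockB_G (ι × ι) y₀)) k y, x.hd.1 k = y₀ → sg x 1 ∈ V →
        sg (x.setH (x.hd.upd k y)) 1 ∈ V := by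
      intro x k y hk hx
      have k2 : ∀ v ∈ Submodule.span ℂ
          (Set.range fun p : ι × ι => fun y' => Tm p.1 p.2 y' y₀),
          ∑ y', v y' • sg (x.setH (x.hd.upd k y')) (1 : ℂ) ∈ V := by
        intro v hv
        induction hv using Submodule.span_induction with
        | mem v hv =>
          obtain ⟨p, rfl⟩ := hv
          have := h1 k p.1 p.2 _ hx
          rwa [hΦ, hk] at this
        | zero => simp
        | add u v _ _ hu hv =>
          simp only [Pi.add_apply, add_smul, Finset.sum_add_distrib]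
          exact V.add_mem hu hv
        | smul c v _ hv =>
          simp only [Pi.smul_apply, smul_eq_mul, mul_smul, ← Finset.smul_sum]
          exact V.smul_mem c hv
      have := k2 _ (hsp y)
      rwa [Finset.sum_eq_single y (fun b _ hb => by rw [Pi.single_eq_of_ne hb, zero_smul])
        (fun h => absurd (Finset.mem_univ y) h), Pi.single_eq_same, one_smul] at this
    have k3 : ∀ (x : FockB_W I (FockB_G (ι × ι) y₀)), sg (x.setH (zero y₀)) 1 ∈ V →
        ∀ g, sg (x.setH g) 1 ∈ V := fun x hx g => by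
      refine FockB_G.ind (P := fun g => sg (x.setH g) 1 ∈ V) hx (fun g k y hk hg => ?_) g
      have := k1 (x.setH g) k y (by rwa [hd_setH]) hg
      rwa [hd_setH, setH_setH] at this
    have k4 : ∀ x : FockB_W I (FockB_G (ι × ι) y₀), sg x 1 ∈ V := by
      intro x
      induction x with
      | nil g => exact k3 (nil g) h0 g
      | cons g p w ih =>
        refine k3 (cons g p w) ?_ g
        have := h2 p _ ih
        rwa [opL_sg] at this
    refine lp_top V hV fun x ξ => ?_
    have := V.smul_mem ξ (k4 x)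
    rwa [← sg_smul, smul_eq_mul, mul_one] at this

end Pool.Agent.TS
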