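import Pool.Agent.P.MP_e05717_an.Defs

/-!
Row TS-Lp. Operators on `ℓ²(X; H)`: amplification and injections on subsets of the index set.
Hints: `amp`: `Memℓp` from `‖S (ξ x)‖ ≤ ‖S‖ ‖ξ x‖`, `LinearMap.mkContinuous`; `lp.inner_eq_tsum` or
`lp.hasSum_single` for the star. `exists_pe`: first define the adjoint `η ↦ (x ↦ (f x).elim 0 η)`
(summability along the injective map on the domain of `f`), then take its adjoint.
-/

open scoped ComplexOrder InnerProductSpace ComplexConjugate ENNReal
open Filter Topology Pool.Agent.P.MP_5d580a_an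

set_option linter.unusedSectionVars false
set_option linter.unusedVariables false

noncomputable section

namespace Pool.Agent.TS

variable {X : Type} [DecidableEq X] {H : Type} [NormedAddCommGroup H] [InnerProductSpace ℂ H]
  [CompleteSpace H]

/-- square summable families -/
abbrev LP (X H : Type) [NormedAddCommGroup H] : Type := lp (fun _ : X => H) 2

/-- the family supported at one point -/
def sg (x : X) (ξ : H) : LP X H := lp.single 2 x ξ

theorem sg_apply (x y : X) (ξ : H) : sg x ξ y = if y = x then ξ else 0 := by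
  unfold sg
  rw [lp.single_apply, Pi.single_apply]

theorem sg_add (x : X) (ξ η : H) : sg x (ξ + η) = sg x ξ + sg x η :=
  lp.single_add (E := fun _ : X => H) 2 x ξ η

theorem sg_smul (x : X) (c : ℂ) (ξ : H) : sg x (c • ξ) = c • sg x ξ :=
  lp.single_smul (E := fun _ : X => H) 2 x c ξ

theorem sg_zero (x : X) : sg x (0 : H) = 0 := lp.single_zero 2 x

theorem norm_sg (x : X) (ξ : H) : ‖sg x ξ‖ = ‖ξ‖ :=
  lp.norm_single (E := fun _ : X => H) (p := 2) (by norm_num) x ξ

theorem inner_sg (x : X) (ξ : H) (η : LP X H) : ⟪sg x ξ, η⟫_ℂ = ⟪ξ, η x⟫_ℂ :=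
  lp.inner_single_left x ξ η

theorem inner_sg_sg (x y : X) (ξ η : H) :
    ⟪sg x ξ, sg y η⟫_ℂ = if x = y then ⟪ξ, η⟫_ℂ else 0 := by
  rw [inner_sg, sg_apply]
  split_ifs <;> simp

theorem lp_ext {K : Type} [NormedAddCommGroup K] [NormedSpace ℂ K] {S S' : LP X H →L[ℂ] K}
    (h : ∀ x ξ, S (sg x ξ) = S' (sg x ξ)) : S = S' := by
  ext1 η
  have h1 := lp.hasSum_single (E := fun _ : X => H) (p := 2) (by norm_num) η
  have h2 := h1.mapL S
  have h3 := h1.mapL S'
  have h4 : (fun x => S (lp.single 2 x (η x))) = fun x => S' (lp.single 2 x (η x)) :=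
    funext fun x => h x _
  rw [h4] at h2
  exact h2.unique h3

theorem lp_ext_one {K : Type} [NormedAddCommGroup K] [NormedSpace ℂ K] {S S' : LP X ℂ →L[ℂ] K}
    (h : ∀ x, S (sg x 1) = S' (sg x 1)) : S = S' := by
  refine lp_ext fun x c => ?_
  have e : sg x c = c • sg x (1 : ℂ) := by rw [← sg_smul, smul_eq_mul, mul_one]
  rw [e, map_smul, map_smul, h]

theorem lp_top (V : Submodule ℂ (LP X H)) (hc : IsClosed (V : Set (LP X H)))
    (h : ∀ x ξ, sg x ξ ∈ V) : V = ⊤ := by
  refine eq_top_iff.2 fun η _ => ?_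
  have h1 := lp.hasSum_single (E := fun _ : X => H) (p := 2) (by norm_num) η
  exact hc.mem_of_tendsto h1 (Eventually.of_forall fun s => V.sum_mem fun x _ => h x _)

theorem exists_sgL (x : X) : ∃ I : H →L[ℂ] LP X H, (∀ ξ, I ξ = sg x ξ) ∧
    ∀ η, (ContinuousLinearMap.adjoint I) η = η x := by
  refine ⟨lp.singleContinuousLinearMap ℂ (fun _ : X => H) 2 x, fun _ => rfl, fun η => ?_⟩
  refine ext_inner_left ℂ fun ξ => ?_
  rw [ContinuousLinearMap.adjoint_inner_right]
  exact inner_sg x ξ η

/-- the inclusion at one point -/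
def sgL (x : X) : H →L[ℂ] LP X H := (exists_sgL x).choose

/-- the evaluation at one point -/
def evL (x : X) : LP X H →L[ℂ] H := ContinuousLinearMap.adjoint (sgL x)

theorem sgL_apply (x : X) (ξ : H) : sgL x ξ = sg x ξ := (exists_sgL x).choose_spec.1 ξ
theorem evL_apply (x : X) (η : LP X H) : evL x η = η x := (exists_sgL x).choose_spec.2 η

theorem Lp_ext {S S' : LP X H →L[ℂ] LP X H} (h : ∀ ξ x, S ξ x = S' ξ x) : S = S' :=
  ContinuousLinearMap.ext fun ξ => lp.ext (funext (h ξ))

theorem Lp_sum_le (η : LP X H) (s : Finset X) : ∑ x ∈ s, ‖η x‖ ^ 2 ≤ ‖η‖ ^ 2 := by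
  simpa using lp.sum_rpow_le_norm_rpow (p := 2) (by norm_num) η s

theorem Lp_mk (g : LP X H → X → H) (hadd : ∀ ξ η x, g (ξ + η) x = g ξ x + g η x)
    (hsmul : ∀ (c : ℂ) ξ x, g (c • ξ) x = c • g ξ x) {C : ℝ} (hC : 0 ≤ C)
    (hb : ∀ η (s : Finset X), ∑ x ∈ s, ‖g η x‖ ^ 2 ≤ (C * ‖η‖) ^ 2) :
    ∃ T : LP X H →L[ℂ] LP X H, ∀ η x, T η x = g η x := by
  have hm : ∀ η, Memℓp (g η) 2 := fun η =>
    memℓp_gen' (C := (C * ‖η‖) ^ 2) fun s => by simpa using hb η s
  let L : LP X H →ₗ[ℂ] LP X H :=
    { toFun := fun η => ⟨g η, hm η⟩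
      map_add' := fun ξ η => lp.ext (funext (hadd ξ η))
      map_smul' := fun c ξ => lp.ext (funext (hsmul c ξ)) }
  refine ⟨L.mkContinuous C fun η => ?_, fun _ _ => rfl⟩
  refine lp.norm_le_of_forall_sum_le (p := 2) (by norm_num) (by positivity) fun s => ?_
  have h2 : ∑ x ∈ s, ‖L η x‖ ^ 2 ≤ (C * ‖η‖) ^ 2 := hb η s
  simpa using h2

variable (X H) in
theorem exists_amp : ∃ a : (H →L[ℂ] H) →⋆ₐ[ℂ] (LP X H →L[ℂ] LP X H),
    ∀ S ξ x, a S ξ x = S (ξ x) := by
  have h : ∀ S : H →L[ℂ] H, ∃ T : LP X H →L[ℂ] LP X H, ∀ ξ x, T ξ x = S (ξ x) := fun S =>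
    Lp_mk (fun ξ x => S (ξ x)) (fun ξ η x => by simp) (fun c ξ x => by simp) (norm_nonneg S)
      fun ξ s => by
        rw [mul_pow]
        refine le_trans ?_ (mul_le_mul_of_nonneg_left (Lp_sum_le ξ s) (sq_nonneg _))
        rw [Finset.mul_sum]
        refine Finset.sum_le_sum fun x _ => ?_
        rw [← mul_pow]
        exact pow_le_pow_left₀ (norm_nonneg _) (S.le_opNorm _) 2
  choose T hT using h
  refine ⟨{ toFun := T
            map_one' := Lp_ext fun ξ x => by simp [hT]
            map_mul' := fun S S' => Lp_ext fun ξ x => by simp [hT]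
            map_zero' := Lp_ext fun ξ x => by simp [hT]
            map_add' := fun S S' => Lp_ext fun ξ x => by simp [hT]
            commutes' := fun c => Lp_ext fun ξ x => by simp [hT, Algebra.algebraMap_eq_smul_one]
            map_star' := fun S => ?_ }, hT⟩
  rw [ContinuousLinearMap.star_eq_adjoint (T S), ContinuousLinearMap.eq_adjoint_iff]
  intro ξ η
  rw [lp.inner_eq_tsum, lp.inner_eq_tsum]
  refine tsum_congr fun x => ?_
  rw [hT, hT, ContinuousLinearMap.star_eq_adjoint, ContinuousLinearMap.adjoint_inner_left]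

variable (X H) in
/-- the diagonal action -/
def amp : (H →L[ℂ] H) →⋆ₐ[ℂ] (LP X H →L[ℂ] LP X H) := (exists_amp X H).choose

theorem amp_apply (S : H →L[ℂ] H) (ξ : LP X H) (x : X) : amp X H S ξ x = S (ξ x) :=
  (exists_amp X H).choose_spec S ξ x
theorem amp_sg (S : H →L[ℂ] H) (x : X) (ξ : H) : amp X H S (sg x ξ) = sg x (S ξ) := by
  refine lp.ext (funext fun y => ?_)
  rw [amp_apply, sg_apply, sg_apply]
  split_ifs <;> simp

/-- injective on its domain -/
def PInj (f : X → Option X) : Prop := ∀ x x' y, f x = some y → f x' = some y → x = x'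

theorem exists_pe {f : X → Option X} (hf : PInj f) : ∃ V : LP X H →L[ℂ] LP X H,
    (∀ x ξ, V (sg x ξ) = (f x).elim 0 fun y => sg y ξ) ∧
      ∀ η x, (star V) η x = (f x).elim 0 fun y => η y := by
  obtain ⟨W, hW⟩ := Lp_mk (X := X) (H := H) (fun η x => (f x).elim 0 fun y => η y)
    (fun ξ η x => by cases f x <;> simp) (fun c ξ x => by cases f x <;> simp) zero_le_one
    fun η s => by
      rw [one_mul]
      refine le_trans (le_of_eq ?_) (Lp_sum_le η (s.biUnion fun x => (f x).toFinset))
      rw [Finset.sum_biUnion]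
      · refine Finset.sum_congr rfl fun x _ => ?_
        cases f x <;> simp
      · intro x _ x' _ hne
        refine Finset.disjoint_left.2 fun y hy hy' => hne (hf x x' y ?_ ?_)
        · simpa using hy
        · simpa using hy'
  refine ⟨star W, fun x ξ => ext_inner_right ℂ fun η => ?_, fun η x => by rw [star_star, hW]⟩
  rw [ContinuousLinearMap.star_eq_adjoint, ContinuousLinearMap.adjoint_inner_left, inner_sg, hW]
  cases f x with
  | none => simp
  | some y => exact (inner_sg y ξ η).symm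

open Classical in
variable (H) in
/-- the operator of a map of the index set which is injective on its domain -/
def pe (f : X → Option X) : LP X H →L[ℂ] LP X H :=
  if h : PInj f then (exists_pe h).choose else 0

theorem pe_sg {f : X → Option X} (hf : PInj f) (x : X) (ξ : H) :
    pe H f (sg x ξ) = (f x).elim 0 fun y => sg y ξ := by
  rw [pe, dif_pos hf]
  exact (exists_pe hf).choose_spec.1 x ξ

theorem star_pe_apply {f : X → Option X} (hf : PInj f) (η : LP X H) (x : X) :
    (star (pe H f)) η x = (f x).elim 0 fun y => η y := by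
  rw [pe, dif_pos hf]
  exact (exists_pe hf).choose_spec.2 η x

theorem star_pe_some {f : X → Option X} (hf : PInj f) {x y : X} (h : f x = some y) (ξ : H) :
    (star (pe H f)) (sg y ξ) = sg x ξ := by
  refine lp.ext (funext fun z => ?_)
  rw [star_pe_apply hf, sg_apply]
  split_ifs with hz
  · rw [hz, h]
    simp [sg_apply]
  · cases hfz : f z with
    | none => rfl
    | some y' =>
      have : y' ≠ y := fun e => hz (hf z x y (e ▸ hfz) h)
      simp [sg_apply, this]

theorem star_pe_none {f : X → Option X} (hf : PInj f) {y : X} (h : ∀ x, f x ≠ some y) (ξ : H) :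
    (star (pe H f)) (sg y ξ) = 0 := by
  refine lp.ext (funext fun z => ?_)
  rw [star_pe_apply hf]
  cases hfz : f z with
  | none => rfl
  | some y' =>
    have : y' ≠ y := fun e => h z (e ▸ hfz)
    simp [sg_apply, this]

theorem amp_pe {f : X → Option X} (hf : PInj f) (S : H →L[ℂ] H) :
    amp X H S * pe H f = pe H f * amp X H S := by
  refine lp_ext fun x ξ => ?_
  rw [mul_apply_eq_comp, mul_apply_eq_comp, amp_sg, pe_sg hf, pe_sg hf]
  cases f x with
  | none => simp
  | some y => exact amp_sg S y ξ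

variable (H) in
/-- matrix unit of the index set -/
def eu (i j : X) : LP X H →L[ℂ] LP X H := pe H fun n => if n = j then some i else none

theorem Lp_pinj (i j : X) : PInj fun n => if n = j then some i else none := by
  intro x x' y h h'
  by_cases hx : x = j
  · by_cases hx' : x' = j
    · rw [hx, hx']
    · simp [hx'] at h'
  · simp [hx] at h

theorem eu_sg (i j n : X) (ξ : H) : eu H i j (sg n ξ) = if n = j then sg i ξ else 0 := by
  rw [eu, pe_sg (Lp_pinj i j)]
  split_ifs <;> rfl

theorem eu_apply (i j : X) (η : LP X H) : eu H i j η = sg i (η j) := by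
  have h : eu H i j = (sgL i).comp (evL j) := lp_ext fun n ξ => by
    rw [eu_sg, ContinuousLinearMap.comp_apply, evL_apply, sgL_apply, sg_apply]
    by_cases hn : n = j
    · rw [if_pos hn, if_pos hn.symm]
    · rw [if_neg hn, if_neg (Ne.symm hn), sg_zero]
  rw [h, ContinuousLinearMap.comp_apply, evL_apply, sgL_apply]

theorem star_eu (i j : X) : star (eu H i j) = eu H j i := by
  refine Lp_ext fun η x => ?_
  rw [eu_apply, sg_apply, eu, star_pe_apply (Lp_pinj i j)]
  split_ifs <;> rfl

theorem amp_eu (S : H →L[ℂ] H) (i j : X) : amp X H S * eu H i j = eu H i j * amp X H S :=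
  amp_pe (Lp_pinj i j) S

theorem eq_amp_of_comm (x₀ : X) {S : LP X H →L[ℂ] LP X H}
    (h : ∀ i j, S * eu H i j = eu H i j * S) : ∃ S₀ : H →L[ℂ] H, S = amp X H S₀ := by
  refine ⟨(evL x₀).comp (S.comp (sgL x₀)), lp_ext fun x ξ => ?_⟩
  have h1 : sg x ξ = eu H x x₀ (sg x₀ ξ) := by rw [eu_sg, if_pos rfl]
  rw [amp_sg, ContinuousLinearMap.comp_apply, ContinuousLinearMap.comp_apply, evL_apply, sgL_apply,
    ← eu_apply, h1, ← mul_apply_eq_comp, h, mul_apply_eq_comp]

theorem amp_inj (x₀ : X) {S S' : H →L[ℂ] H} (h : amp X H S = amp X H S') : S = S' := by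
  ext ξ
  have h1 := amp_apply S (sg x₀ ξ) x₀
  rw [h, amp_apply, sg_apply, if_pos rfl] at h1
  exact h1.symm

end Pool.Agent.TS
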