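import Pool.Agent.P.MP_e05717_an.Free
import Pool.Agent.P.MP_e05717_an.Lp

/-!
Row TS-Mk. A tracial algebra from commuting left and right generators; the free group factor.
Hints: `mk_TW`: `A` = the subtype of `StarSubalgebra.centralizer ℂ (range a')` (norm closed, so a
`CStarAlgebra`), `L` = the inclusion. Each `x ∈ adjoin (range a)` has `x Ω = x' Ω` and
`star x Ω = star x' Ω` for some `x'` commuting with `A`, so `Ω` separates `A` and `τ (y x) = τ (x y)` for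
`y ∈ A`; then `‖star y Ω‖ ≤ ‖y Ω‖`, the trace property on `A` by density, `R` by `exists_extend` and
choice. `exists_LF`: `a g = pe (h ↦ g * h)`, `a' g = pe (h ↦ h * g)`, `st g = g⁻¹`.
-/

open scoped ComplexOrder InnerProductSpace ComplexConjugate ENNReal
open Filter Topology Pool.Agent.P.MP_5d580a_an

set_option linter.unusedSectionVars false
set_option linter.unusedVariables false

noncomputable section

namespace Pool.Agent.TS


variable {H : Type} [NormedAddCommGroup H] [InnerProductSpace ℂ H] [CompleteSpace H]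

theorem Mk_star_left (S : H →L[ℂ] H) (ξ η : H) : ⟪(star S) ξ, η⟫_ℂ = ⟪ξ, S η⟫_ℂ := by
  rw [ContinuousLinearMap.star_eq_adjoint, ContinuousLinearMap.adjoint_inner_left]

theorem Mk_star_comm {C : StarSubalgebra ℂ (H →L[ℂ] H)} {z : H →L[ℂ] H}
    (h : ∀ y ∈ C, z * y = y * z) : ∀ y ∈ C, star z * y = y * star z := fun y hy => by
  have h1 := congrArg star (h (star y) (star_mem hy))
  rw [star_mul, star_mul, star_star] at h1
  exact h1.symm

theorem Mk_app {S S' R R' : H →L[ℂ] H} (h : S * R = R' * S') (ξ : H) : S (R ξ) = R' (S' ξ) :=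
  congrArg (fun X : H →L[ℂ] H => X ξ) h

/-- each element generated by the left operators acts on the vector as an operator of the
commutant -/
theorem Mk_prime (Ω : H) (C : StarSubalgebra ℂ (H →L[ℂ] H)) {s : Set (H →L[ℂ] H)}
    (hs : ∀ x ∈ s, x ∈ C ∧ ∃ x' : H →L[ℂ] H, (∀ y ∈ C, x' * y = y * x') ∧ x Ω = x' Ω ∧
      (star x) Ω = (star x') Ω) :
    ∀ x ∈ StarAlgebra.adjoin ℂ s, x ∈ C ∧ ∃ x' : H →L[ℂ] H, (∀ y ∈ C, x' * y = y * x') ∧
      x Ω = x' Ω ∧ (star x) Ω = (star x') Ω := by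
  intro x hx
  induction hx using StarAlgebra.adjoin_induction with
  | mem x h => exact hs x h
  | algebraMap r =>
    exact ⟨algebraMap_mem C r, _, fun y _ => Algebra.commutes r y, rfl, rfl⟩
  | add x y _ _ hx hy =>
    obtain ⟨h1, x', h2, h3, h4⟩ := hx
    obtain ⟨k1, y', k2, k3, k4⟩ := hy
    refine ⟨add_mem h1 k1, x' + y', fun z hz => ?_, ?_, ?_⟩
    · rw [add_mul, mul_add, h2 z hz, k2 z hz]
    · rw [add_apply, add_apply, h3, k3]
    · rw [star_add, star_add, add_apply, add_apply, h4, k4]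
  | mul x y _ _ hx hy =>
    obtain ⟨h1, x', h2, h3, h4⟩ := hx
    obtain ⟨k1, y', k2, k3, k4⟩ := hy
    refine ⟨mul_mem h1 k1, y' * x', fun z hz => ?_, ?_, ?_⟩
    · rw [mul_assoc, h2 z hz, ← mul_assoc, k2 z hz, mul_assoc]
    · rw [mul_apply_eq_comp, mul_apply_eq_comp, k3, ← Mk_app (k2 x h1), h3]
    · rw [star_mul, star_mul, mul_apply_eq_comp, mul_apply_eq_comp, h4,
        ← Mk_app (Mk_star_comm h2 (star y) (star_mem k1)), k4]
  | star x _ hx =>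
    obtain ⟨h1, x', h2, h3, h4⟩ := hx
    refine ⟨star_mem h1, star x', Mk_star_comm h2, h4, ?_⟩
    rw [star_star, star_star, h3]

section Core

variable {Ω : H} {B C : StarSubalgebra ℂ (H →L[ℂ] H)}
  (hp : ∀ x ∈ B, x ∈ C ∧ ∃ x' : H →L[ℂ] H, (∀ y ∈ C, x' * y = y * x') ∧ x Ω = x' Ω ∧
      (star x) Ω = (star x') Ω)
  (hd : Dense {ξ : H | ∃ x ∈ B, ξ = x Ω})

include hd in
theorem Mk_ext {S S' : H →L[ℂ] H} (h : ∀ x ∈ B, S (x Ω) = S' (x Ω)) : S = S' := by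
  refine ContinuousLinearMap.ext fun ξ => ?_
  refine hd.induction (P := fun ξ => S ξ = S' ξ) ?_ (isClosed_eq S.continuous S'.continuous) ξ
  rintro _ ⟨x, hx, rfl⟩
  exact h x hx

include hp hd in
theorem Mk_sep {y : H →L[ℂ] H} (hy : y ∈ C) (h : y Ω = 0) : y = 0 := by
  refine Mk_ext hd fun x hx => ?_
  obtain ⟨-, x', h2, h3, -⟩ := hp x hx
  rw [h3, ← Mk_app (h2 y hy), h, map_zero]
  rfl

include hp in
theorem Mk_tr0 {x y : H →L[ℂ] H} (hx : x ∈ B) (hy : y ∈ C) :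
    ⟪Ω, y (x Ω)⟫_ℂ = ⟪Ω, x (y Ω)⟫_ℂ := by
  obtain ⟨-, x', h2, h3, h4⟩ := hp x hx
  rw [h3, ← Mk_app (h2 y hy), ← Mk_star_left x', ← h4, Mk_star_left]

include hp in
theorem Mk_star0 {x : H →L[ℂ] H} (hx : x ∈ B) : ‖(star x) Ω‖ = ‖x Ω‖ := by
  have h : ⟪(star x) Ω, (star x) Ω⟫_ℂ = ⟪x Ω, x Ω⟫_ℂ := by
    rw [Mk_star_left, ← Mk_tr0 hp hx (hp _ (star_mem hx)).1, ← Mk_star_left, star_star]
  rw [inner_self_eq_norm_sq_to_K, inner_self_eq_norm_sq_to_K] at h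
  have h2 : ‖(star x) Ω‖ ^ 2 = ‖x Ω‖ ^ 2 := by exact_mod_cast h
  exact (pow_left_inj₀ (norm_nonneg _) (norm_nonneg _) two_ne_zero).1 h2

include hp hd in
theorem Mk_star_le {y : H →L[ℂ] H} (hy : y ∈ C) : ‖(star y) Ω‖ ≤ ‖y Ω‖ := by
  have h1 : ∀ ξ, ‖⟪(star y) Ω, ξ⟫_ℂ‖ ≤ ‖y Ω‖ * ‖ξ‖ := fun ξ => by
    refine hd.induction (P := fun ξ => ‖⟪(star y) Ω, ξ⟫_ℂ‖ ≤ ‖y Ω‖ * ‖ξ‖) ?_
      (isClosed_le (by fun_prop) (by fun_prop)) ξ
    rintro _ ⟨x, hx, rfl⟩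
    rw [Mk_star_left, Mk_tr0 hp hx hy, ← Mk_star_left, ← Mk_star0 hp hx, mul_comm]
    exact norm_inner_le_norm _ _
  have h2 := h1 ((star y) Ω)
  rw [inner_self_eq_norm_sq_to_K, norm_pow] at h2
  have h3 : ‖((‖(star y) Ω‖ : ℝ) : ℂ)‖ = ‖(star y) Ω‖ := by simp
  have h4 : ‖(star y) Ω‖ ^ 2 ≤ ‖y Ω‖ * ‖(star y) Ω‖ := by
    rw [← h3]
    refine h2.trans_eq ?_
    rw [h3]
  by_contra hn
  have h5 := not_le.1 hn
  nlinarith [norm_nonneg (y Ω)]

include hp hd in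
theorem Mk_tr {x y : H →L[ℂ] H} (hx : x ∈ C) (hy : y ∈ C) :
    ⟪Ω, y (x Ω)⟫_ℂ = ⟪Ω, x (y Ω)⟫_ℂ := by
  have h1 : ∀ ξ, ‖⟪Ω, y (x Ω)⟫_ℂ - ⟪Ω, x (y Ω)⟫_ℂ‖ ≤ 2 * ‖y Ω‖ * ‖x Ω - ξ‖ := fun ξ => by
    refine hd.induction
      (P := fun ξ => ‖⟪Ω, y (x Ω)⟫_ℂ - ⟪Ω, x (y Ω)⟫_ℂ‖ ≤ 2 * ‖y Ω‖ * ‖x Ω - ξ‖) ?_
      (isClosed_le (by fun_prop) (by fun_prop)) ξ
    rintro _ ⟨z, hz, rfl⟩
    have e : ⟪Ω, y (x Ω)⟫_ℂ - ⟪Ω, x (y Ω)⟫_ℂ =
        ⟪(star y) Ω, x Ω - z Ω⟫_ℂ - ⟪(star (x - z)) Ω, y Ω⟫_ℂ := by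
      rw [Mk_star_left, Mk_star_left, map_sub, inner_sub_right, sub_apply,
        inner_sub_right, Mk_tr0 hp hz hy]
      ring
    have a1 := norm_inner_le_norm (𝕜 := ℂ) ((star y) Ω) (x Ω - z Ω)
    have a2 := norm_inner_le_norm (𝕜 := ℂ) ((star (x - z)) Ω) (y Ω)
    have a3 := Mk_star_le hp hd hy
    have a4 := Mk_star_le hp hd (sub_mem hx (hp z hz).1)
    rw [sub_apply] at a4
    rw [e]
    refine (norm_sub_le _ _).trans ?_
    have a5 := mul_le_mul_of_nonneg_right a3 (norm_nonneg (x Ω - z Ω))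
    have a6 := mul_le_mul_of_nonneg_right a4 (norm_nonneg (y Ω))
    nlinarith
  have h2 := h1 (x Ω)
  rw [sub_self, norm_zero, mul_zero] at h2
  exact sub_eq_zero.1 (norm_le_zero_iff.1 h2)

include hp hd in
theorem Mk_right {y : H →L[ℂ] H} (hy : y ∈ C) :
    ∃ W : H →L[ℂ] H, ∀ x ∈ C, W (x Ω) = x (y Ω) := by
  let ev : H → (C →ₗ[ℂ] H) := fun ξ =>
    { toFun := fun x => (x : H →L[ℂ] H) ξ
      map_add' := fun _ _ => rfl
      map_smul' := fun _ _ => rfl }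
  obtain ⟨W, -, hW, -⟩ := exists_extend (ev Ω) (ev (y Ω)) ‖y‖ (norm_nonneg y) fun x => by
    change ‖(x : H →L[ℂ] H) (y Ω)‖ ≤ ‖y‖ * ‖(x : H →L[ℂ] H) Ω‖
    have h1 := Mk_star_le hp hd (star_mem (mul_mem x.2 hy))
    rw [star_star, star_mul, mul_apply_eq_comp, mul_apply_eq_comp] at h1
    refine h1.trans (((star y).le_opNorm _).trans ?_)
    rw [norm_star]
    exact mul_le_mul_of_nonneg_left (Mk_star_le hp hd x.2) (norm_nonneg _)
  exact ⟨W, fun x hx => hW ⟨x, hx⟩⟩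

end Core

theorem mk_TW (Ω : H) (hΩ : ‖Ω‖ = 1) {κ : Type} (a a' : κ → (H →L[ℂ] H)) (st : κ → κ)
    (hs : ∀ k, star (a k) = a (st k) ∧ star (a' k) = a' (st k))
    (hc : ∀ k l, a k * a' l = a' l * a k) (hv : ∀ k, a k Ω = a' k Ω)
    (hcyc : Dense {ξ : H | ∃ x ∈ StarAlgebra.adjoin ℂ (Set.range a), ξ = x Ω}) :
    ∃ (A : Type) (_ : CStarAlgebra A) (T : TW A H) (g : κ → A), T.Ω = Ω ∧
      (∀ k, T.L (g k) = a k ∧ T.R (g k) = a' k) ∧ T.W (Set.range g) = ⊤ := by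
  set C : StarSubalgebra ℂ (H →L[ℂ] H) := StarSubalgebra.centralizer ℂ (Set.range a') with hC
  have hmem : ∀ z, z ∈ C ↔ ∀ k, a' k * z = z * a' k := fun z => by
    rw [hC, StarSubalgebra.mem_centralizer_iff]
    constructor
    · exact fun h k => (h _ ⟨k, rfl⟩).1
    · rintro h _ ⟨k, rfl⟩
      exact ⟨h k, by rw [(hs k).2]; exact h _⟩
  have hcl : IsClosed (C : Set (H →L[ℂ] H)) := Set.isClosed_centralizer _
  have ha : ∀ k, a k ∈ C := fun k => (hmem _).2 fun l => (hc k l).symm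
  have hp := Mk_prime Ω C (s := Set.range a) (by
    rintro _ ⟨k, rfl⟩
    refine ⟨ha k, a' k, fun y hy => (hmem y).1 hy k, hv k, ?_⟩
    rw [(hs k).1, (hs k).2, hv])
  choose W hW using fun y : C => Mk_right hp hcyc y.2
  have hext : ∀ {S S' : H →L[ℂ] H}, (∀ x ∈ C, S (x Ω) = S' (x Ω)) → S = S' :=
    fun h => Mk_ext hcyc fun x hx => h x (hp x hx).1
  let R : C →ₗ[ℂ] (H →L[ℂ] H) :=
    { toFun := W
      map_add' := fun y z => hext fun x hx => by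
        rw [add_apply, hW _ x hx, hW _ x hx, hW _ x hx, ← map_add]
        rfl
      map_smul' := fun c y => hext fun x hx => by
        rw [smul_apply, hW _ x hx, hW _ x hx, ← map_smul]
        rfl }
  have hR : ∀ k, W ⟨a k, ha k⟩ = a' k := fun k => hext fun x hx => by
    rw [hW _ x hx, Mk_app ((hmem x).1 hx k), ← hv]
  let inst : CStarAlgebra C := StarSubalgebra.cstarAlgebra C (h_closed := hcl)
  let T : TW C H :=
    { L := C.subtype
      R := R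
      Ω := Ω
      norm_Ω := hΩ
      R_apply := fun x y => hW y x x.2
      trace := fun x y => Mk_tr hp hcyc y.2 x.2
      cyc := hcyc.mono (by
        rintro _ ⟨x, hx, rfl⟩
        exact ⟨⟨x, (hp x hx).1⟩, rfl⟩)
      sep := fun x hx => Subtype.ext (Mk_sep hp hcyc x.2 hx)
      full := fun S hS => ⟨⟨S, (hmem S).2 fun k => by
        rw [← hR k]; exact (hS ⟨a k, ha k⟩).symm⟩, rfl⟩ }
  refine ⟨C, inst, T, fun k => ⟨a k, ha k⟩, rfl, fun k => ⟨rfl, hR k⟩, ?_⟩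
  refine eq_top_iff.2 fun x _ => T.mem_W.2 ?_
  refine closure_mono ?_ (hcyc (T.v x))
  rintro _ ⟨z, hz, rfl⟩
  have h1 : StarAlgebra.adjoin ℂ (Set.range a) ≤
      (StarAlgebra.adjoin ℂ (Set.range fun k => (⟨a k, ha k⟩ : C))).map C.subtype := by
    refine StarAlgebra.adjoin_le ?_
    rintro _ ⟨k, rfl⟩
    exact ⟨⟨a k, ha k⟩, StarAlgebra.subset_adjoin ℂ _ ⟨k, rfl⟩, rfl⟩
  obtain ⟨w, hw, rfl⟩ := h1 hz
  exact ⟨w, hw, rfl⟩

theorem Mk_inj {G : Type} {f : G → G} (hf : Function.Injective f) : PInj fun h => some (f h) :=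
  fun _ _ _ h1 h2 => hf (Option.some.inj (h1.trans h2.symm))

theorem Mk_pe {G : Type} [DecidableEq G] {f : G → G} (hf : Function.Injective f) (x : G) :
    pe ℂ (fun h => some (f h)) (sg x 1) = sg (f x) (1 : ℂ) := pe_sg (Mk_inj hf) x 1

theorem exists_LF : ∃ (A : Type) (_ : CStarAlgebra A) (T : TW A (LP (FreeGroup ℕ) ℂ))
    (u : ℕ → unitary A), T.Ω = sg 1 1 ∧ Reg T u ∧ T.W (Set.range fun n => (u n : A)) = ⊤ ∧
      ∀ g h : FreeGroup ℕ,
        T.L ((FreeGroup.lift u g : unitary A) : A) (sg h 1) = sg (g * h) 1 := by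
  let a : FreeGroup ℕ → (LP (FreeGroup ℕ) ℂ →L[ℂ] LP (FreeGroup ℕ) ℂ) :=
    fun g => pe ℂ fun h => some (g * h)
  let a' : FreeGroup ℕ → (LP (FreeGroup ℕ) ℂ →L[ℂ] LP (FreeGroup ℕ) ℂ) :=
    fun g => pe ℂ fun h => some (h * g)
  have ha : ∀ g h, a g (sg h 1) = sg (g * h) 1 := fun g h => Mk_pe (mul_right_injective g) h
  have ha' : ∀ g h, a' g (sg h 1) = sg (h * g) 1 := fun g h => Mk_pe (mul_left_injective g) h
  have hs : ∀ g, star (a g) = a g⁻¹ := fun g => lp_ext_one fun h => by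
    rw [ha]
    exact star_pe_some (Mk_inj (mul_right_injective g)) (by simp) 1
  have hs' : ∀ g, star (a' g) = a' g⁻¹ := fun g => lp_ext_one fun h => by
    rw [ha']
    exact star_pe_some (Mk_inj (mul_left_injective g)) (by simp) 1
  have hm : ∀ g h, a (g * h) = a g * a h := fun g h => lp_ext_one fun k => by
    rw [mul_apply_eq_comp, ha, ha, ha, mul_assoc]
  have h1 : a 1 = 1 := lp_ext_one fun k => by
    rw [ha, one_mul]
    rfl
  obtain ⟨A, inst, T, g, hΩ, hg, hW⟩ := mk_TW (sg 1 1 : LP (FreeGroup ℕ) ℂ)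
    (by rw [norm_sg, norm_one]) a a' (fun g => g⁻¹) (fun g => ⟨hs g, hs' g⟩)
    (fun k l => lp_ext_one fun h => by
      rw [mul_apply_eq_comp, mul_apply_eq_comp, ha, ha', ha', ha, mul_assoc])
    (fun k => by rw [ha, ha', mul_one, one_mul])
    (by
      let V : Submodule ℂ (LP (FreeGroup ℕ) ℂ) :=
        { carrier := {ξ | ∃ x ∈ StarAlgebra.adjoin ℂ (Set.range a), ξ = x (sg 1 1)}
          add_mem' := by
            rintro _ _ ⟨x, hx, rfl⟩ ⟨y, hy, rfl⟩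
            exact ⟨x + y, add_mem hx hy, rfl⟩
          zero_mem' := ⟨0, zero_mem _, rfl⟩
          smul_mem' := by
            rintro c _ ⟨x, hx, rfl⟩
            exact ⟨c • x, SMulMemClass.smul_mem c hx, rfl⟩ }
      have hV := lp_top V.topologicalClosure V.isClosed_topologicalClosure fun x ξ => by
        refine V.le_topologicalClosure ?_
        have e : sg x ξ = ξ • sg x (1 : ℂ) := by rw [← sg_smul, smul_eq_mul, mul_one]
        rw [e]
        exact V.smul_mem ξ ⟨a x, StarAlgebra.subset_adjoin ℂ _ ⟨x, rfl⟩, by rw [ha, mul_one]⟩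
      exact Submodule.dense_iff_topologicalClosure_eq_top.2 hV)
  have g1 : g 1 = 1 := T.L_inj (by rw [(hg 1).1, h1, map_one])
  have gm : ∀ k l, g (k * l) = g k * g l := fun k l =>
    T.L_inj (by rw [map_mul, (hg _).1, (hg _).1, (hg _).1, hm])
  have gs : ∀ k, star (g k) = g k⁻¹ := fun k =>
    T.L_inj (by rw [map_star, (hg _).1, (hg _).1, hs])
  have gu : ∀ k, g k ∈ unitary A := fun k => by
    rw [Unitary.mem_iff, gs, ← gm, ← gm, inv_mul_cancel, mul_inv_cancel, g1]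
    exact ⟨rfl, rfl⟩
  let φ : FreeGroup ℕ →* unitary A :=
    { toFun := fun k => ⟨g k, gu k⟩
      map_one' := Subtype.ext g1
      map_mul' := fun k l => Subtype.ext (gm k l) }
  have hφ : ∀ k, ((FreeGroup.lift (fun n => φ (FreeGroup.of n)) k : unitary A) : A) = g k :=
    fun k => congrArg Subtype.val (DFunLike.congr_fun (FreeGroup.ext_hom
      (FreeGroup.lift fun n => φ (FreeGroup.of n)) φ fun n => FreeGroup.lift_apply_of) k)
  refine ⟨A, inst, T, fun n => φ (FreeGroup.of n), hΩ, fun k hk => ?_, ?_, fun k h => ?_⟩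
  · rw [hφ, T.τ_def, T.v_def, (hg k).1, hΩ, ha, inner_sg_sg, if_neg]
    rw [mul_one]
    exact hk.symm
  · refine eq_top_iff.2 fun x _ => T.mem_W.2 ?_
    have hx : x ∈ T.W (Set.range g) := by rw [hW]; trivial
    refine closure_mono (Set.image_mono ?_) (T.mem_W.1 hx)
    refine SetLike.coe_subset_coe.2 (StarAlgebra.adjoin_le ?_)
    rintro _ ⟨k, rfl⟩
    rw [← hφ]
    exact Free_lift_mem _ _ (fun n => StarAlgebra.subset_adjoin ℂ _ (Set.mem_range_self n)) k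
  · rw [hφ, (hg k).1, ha]

end Pool.Agent.TS
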