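import Pool.Agent.P.MP_e05717_an.FockB
import Pool.Agent.P.MP_e05717_an.Mk

/-!
Row TS-FockC. From the operators of the Fock space to the model.
Hints: `mk_TW` with `κ = (ℕ × ι × ι) ⊕ (Λ × Bool)`, `a (inr p) = ℓ p + star (ℓ (flip p))`,
`a' (inr p) = r p + star (r (flip p))`. Cyclicity: the span `C n` of the words
`d₀ ℓ d₁ ... ℓ dₖ Ω` (`dᵢ ∈ base E`, `k ≤ n`) lies in `adjoin (range a) Ω` by induction on `n`
(`ℓ p = a (inr p) - star (ℓ (flip p))`, the adjoint shortens), the closure of the union is everything by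
`gen`. `L` maps `base e` into `base E`; `R` is an antihomomorphism.
-/

open scoped ComplexOrder InnerProductSpace ComplexConjugate ENNReal
open Filter Topology Pool.Agent.P.MP_5d580a_an

set_option linter.unusedSectionVars false
set_option linter.unusedVariables false

noncomputable section

namespace Pool.Agent.TS


section Aux

variable {H : Type} [NormedAddCommGroup H] [InnerProductSpace ℂ H] [CompleteSpace H]
  {ι : Type} [Fintype ι] [DecidableEq ι] {Λ : Type} {Ω : H} {E E' : ℕ → ι → ι → (H →L[ℂ] H)}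
  {ℓ r : Λ × Bool → (H →L[ℂ] H)}

theorem FockC_flip (p : Λ × Bool) : flip (flip p) = p := by simp [flip]

theorem FockC_star_comm {x y y' : H →L[ℂ] H} (h : x * y = y * x) (hy : star y = y') :
    star x * y' = y' * star x := by
  rw [← hy, ← star_mul, ← star_mul, h]

/-- the generators -/
def FockC_gen (E : ℕ → ι → ι → (H →L[ℂ] H)) (ℓ : Λ × Bool → (H →L[ℂ] H)) :
    (ℕ × ι × ι) ⊕ (Λ × Bool) → (H →L[ℂ] H) :=
  Sum.elim (fun q => E q.1 q.2.1 q.2.2) fun p => ℓ p + star (ℓ (flip p))

/-- the involution of the index set -/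
def FockC_st : (ℕ × ι × ι) ⊕ (Λ × Bool) → (ℕ × ι × ι) ⊕ (Λ × Bool) :=
  Sum.map (fun q => (q.1, q.2.2, q.2.1)) flip

theorem FockC_star (hE : ∀ k i j, star (E k i j) = E k j i) (k : (ℕ × ι × ι) ⊕ (Λ × Bool)) :
    star (FockC_gen E ℓ k) = FockC_gen E ℓ (FockC_st k) := by
  rcases k with q | p
  · exact hE _ _ _
  · show star (ℓ p + star (ℓ (flip p))) = ℓ (flip p) + star (ℓ (flip (flip p)))
    rw [star_add, star_star, FockC_flip, add_comm]

theorem FockC_comm (h : PreModel Ω E E' ℓ r) (k l : (ℕ × ι × ι) ⊕ (Λ × Bool)) :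
    FockC_gen E ℓ k * FockC_gen E' r l = FockC_gen E' r l * FockC_gen E ℓ k := by
  rcases k with q | p <;> rcases l with q' | p'
  · exact h.EE' _ _ _ _ _ _
  · show E _ _ _ * (r p' + star (r (flip p'))) = (r p' + star (r (flip p'))) * E _ _ _
    rw [mul_add, add_mul, h.rE, FockC_star_comm (h.rE _ _ _ _) ((h.tower.mu _).star _ _)]
  · show (ℓ p + star (ℓ (flip p))) * E' _ _ _ = E' _ _ _ * (ℓ p + star (ℓ (flip p)))
    rw [mul_add, add_mul, h.lE', FockC_star_comm (h.lE' _ _ _ _) (h.starE' _ _ _)]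
  · show (ℓ p + star (ℓ (flip p))) * (r p' + star (r (flip p'))) =
      (r p' + star (r (flip p'))) * (ℓ p + star (ℓ (flip p)))
    have h1 := h.lr p p'
    have h2 := FockC_star_comm (h.lr (flip p) (flip p')) rfl
    have h3 : ℓ p * star (r (flip p')) + star (ℓ (flip p)) * r p' =
        star (r (flip p')) * ℓ p + r p' * star (ℓ (flip p)) := by
      by_cases e : flip p' = p
      · subst e
        rw [FockC_flip]
        let P : H →L[ℂ] H := InnerProductSpace.rankOne ℂ Ω Ω
        have hP : star P = P := by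
          simp only [P, ContinuousLinearMap.star_eq_adjoint, InnerProductSpace.adjoint_rankOne]
        have h4 : ∀ q, star (r q) * ℓ q = ℓ q * star (r q) + P := fun q => by
          ext ξ
          simpa [P] using h.rl_same q ξ
        have h5 := congrArg star (h4 p')
        rw [star_add, star_mul, star_mul, star_star, hP] at h5
        rw [h4, h5]
        abel
      · have e' : p' ≠ flip p := fun e' => e (by rw [e', FockC_flip])
        have h5 := congrArg star (h.rl_diff _ _ e')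
        rw [star_mul, star_mul, star_star] at h5
        rw [h.rl_diff _ _ e, h5]
    simp only [mul_add, add_mul]
    rw [h1, h2]
    linear_combination (norm := abel_nf) h3

theorem FockC_vec (h : PreModel Ω E E' ℓ r) (k : (ℕ × ι × ι) ⊕ (Λ × Bool)) :
    FockC_gen E ℓ k Ω = FockC_gen E' r k Ω := by
  rcases k with q | p
  · exact h.EΩ _ _ _
  · show ℓ p Ω + (star (ℓ (flip p))) Ω = r p Ω + (star (r (flip p))) Ω
    have := h.vac (flip p) 1 (one_mem _)
    rw [one_apply_eq_self] at this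
    rw [this, h.rΩ, h.lrΩ]

theorem FockC_cyc (h : PreModel Ω E E' ℓ r) :
    Dense {ξ : H | ∃ x ∈ StarAlgebra.adjoin ℂ (Set.range (FockC_gen E ℓ)), ξ = x Ω} := by
  set B := StarAlgebra.adjoin ℂ (Set.range (FockC_gen E ℓ)) with hB
  let C₀ : Submodule ℂ H :=
    { carrier := {ξ : H | ∃ x ∈ B, ξ = x Ω}
      zero_mem' := ⟨0, zero_mem _, rfl⟩
      add_mem' := by
        rintro _ _ ⟨x, hx, rfl⟩ ⟨y, hy, rfl⟩
        exact ⟨x + y, add_mem hx hy, rfl⟩
      smul_mem' := by
        rintro c _ ⟨x, hx, rfl⟩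
        exact ⟨c • x, B.smul_mem hx c, rfl⟩ }
  let C := C₀.topologicalClosure
  have hC : IsClosed (C : Set H) := C₀.isClosed_topologicalClosure
  have hinv : ∀ x ∈ B, ∀ ξ ∈ C, x ξ ∈ C := by
    intro x hx ξ hξ
    refine map_mem_closure (t := (C₀ : Set H)) x.continuous hξ ?_
    rintro _ ⟨y, hy, rfl⟩
    exact ⟨x * y, mul_mem hx hy, rfl⟩
  have hbase : base E ≤ B := by
    refine StarAlgebra.adjoin_le ?_
    rintro _ ⟨k, i, j, rfl⟩
    exact StarAlgebra.subset_adjoin ℂ _ ⟨Sum.inl (k, i, j), rfl⟩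
  let V : Submodule ℂ H :=
    { carrier := {ξ : H | ξ ∈ C ∧ ∀ d ∈ base E, ∀ q, (star (ℓ q)) (d ξ) ∈ C}
      zero_mem' := ⟨zero_mem _, fun d _ q => by simp⟩
      add_mem' := fun hx hy => ⟨add_mem hx.1 hy.1, fun d hd q => by
        simp only [map_add]
        exact add_mem (hx.2 d hd q) (hy.2 d hd q)⟩
      smul_mem' := fun c x hx => ⟨C.smul_mem c hx.1, fun d hd q => by
        simp only [map_smul]
        exact C.smul_mem c (hx.2 d hd q)⟩ }
  have hV : V = ⊤ := by
    refine h.gen V ?_ ⟨subset_closure ⟨1, one_mem _, rfl⟩, fun d hd q => ?_⟩ ?_ ?_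
    · show IsClosed {ξ : H | ξ ∈ C ∧ ∀ d ∈ base E, ∀ q, (star (ℓ q)) (d ξ) ∈ C}
      simp only [Set.ofPred_and, Set.ofPred_forall]
      exact hC.inter (isClosed_iInter fun d => isClosed_iInter fun _ => isClosed_iInter fun q =>
        hC.preimage ((star (ℓ q)).continuous.comp d.continuous))
    · rw [h.vac q d hd]
      exact zero_mem _
    · intro k i j ξ hξ
      have hE : E k i j ∈ base E := StarAlgebra.subset_adjoin ℂ _ ⟨k, i, j, rfl⟩
      exact ⟨hinv _ (hbase hE) ξ hξ.1, fun d hd q => hξ.2 (d * E k i j) (mul_mem hd hE) q⟩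
    · intro p ξ hξ
      refine ⟨?_, fun d hd q => ?_⟩
      · have h1 := hinv _ (StarAlgebra.subset_adjoin ℂ _ ⟨Sum.inr p, rfl⟩) ξ hξ.1
        have h2 := sub_mem h1 (hξ.2 1 (one_mem _) (flip p))
        have h3 : FockC_gen E ℓ (Sum.inr p) ξ - (star (ℓ (flip p))) ((1 : H →L[ℂ] H) ξ) = ℓ p ξ := by
          show ℓ p ξ + (star (ℓ (flip p))) ξ - (star (ℓ (flip p))) ξ = _
          abel
        rwa [h3] at h2
      · show (star (ℓ q) * d * ℓ p) ξ ∈ C
        by_cases e : q = p
        · subst e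
          rw [h.same q d hd]
          exact C.smul_mem _ hξ.1
        · rw [h.diff q p e d hd]
          exact zero_mem _
  intro ξ
  exact (show ξ ∈ V from hV ▸ Submodule.mem_top).1

end Aux

theorem model_of_pre {H : Type} [NormedAddCommGroup H] [InnerProductSpace ℂ H] [CompleteSpace H]
    {ι : Type} [Fintype ι] [DecidableEq ι] {Λ : Type} {Ω : H} {E E' : ℕ → ι → ι → (H →L[ℂ] H)}
    {ℓ r : Λ × Bool → (H →L[ℂ] H)} (h : PreModel Ω E E' ℓ r) :
    ∃ (A : Type) (_ : CStarAlgebra A) (T : TW A H) (e : ℕ → ι → ι → A) (c : Λ → A),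
      IsModel T e c ℓ r := by
  obtain ⟨A, _, T, g, hΩ, hg, hW⟩ := mk_TW Ω h.norm (FockC_gen E ℓ) (FockC_gen E' r) FockC_st
    (fun k => ⟨FockC_star (fun k => (h.tower.mu k).star) k, FockC_star h.starE' k⟩)
    (FockC_comm h) (FockC_vec h) (FockC_cyc h)
  let e : ℕ → ι → ι → A := fun k i j => g (Sum.inl (k, i, j))
  let c : Λ → A := fun l => g (Sum.inr (l, false))
  have hLe : ∀ k i j, T.L (e k i j) = E k i j := fun k i j => (hg _).1
  have hRe : ∀ k i j, T.R (e k i j) = E' k i j := fun k i j => (hg _).2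
  have hcb : ∀ p, cb c p = g (Sum.inr p) := by
    rintro ⟨l, _ | _⟩
    · rfl
    · apply T.L_inj
      show T.L (star (g (Sum.inr (l, false)))) = _
      rw [map_star, (hg _).1, (hg _).1, FockC_star (fun k => (h.tower.mu k).star)]
      rfl
  have hmu : ∀ k, MU (e k) := fun k =>
    { mul := fun i j a b => T.L_inj (by
        rw [map_mul, hLe, hLe, (h.tower.mu k).mul]
        split_ifs
        · rw [hLe]
        · rw [map_zero])
      star := fun i j => T.L_inj (by rw [map_star, hLe, hLe, (h.tower.mu k).star])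
      sum := T.L_inj (by rw [map_sum, map_one, ← (h.tower.mu k).sum]; simp only [hLe]) }
  have hbase : ∀ d ∈ base e, T.L d ∈ base E := by
    have : base e ≤ (base E).comap T.L := by
      refine StarAlgebra.adjoin_le ?_
      rintro _ ⟨k, i, j, rfl⟩
      show T.L (e k i j) ∈ base E
      rw [hLe]
      exact StarAlgebra.subset_adjoin ℂ _ ⟨k, i, j, rfl⟩
    exact fun d hd => this hd
  refine ⟨A, inferInstance, T, e, c,
    { tower := ⟨hmu, fun k l hkl i j a b => T.L_inj (by
        rw [map_mul, map_mul, hLe, hLe]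
        exact h.tower.comm k l hkl i j a b)⟩
      cc :=
        { invol := FockC_flip
          split := fun p => by rw [hcb, (hg _).1]; rfl
          same := fun p d hd => by rw [h.same p _ (hbase d hd), T.τ_def, T.v_def, hΩ]
          diff := fun p q e d hd => h.diff p q e _ (hbase d hd)
          vac := fun p d hd => by rw [T.v_def, hΩ]; exact h.vac p _ (hbase d hd) }
      gen := ?_
      rsplit := fun p => by rw [hcb, (hg _).2]; rfl
      r_same := h.r_same
      r_diff := h.r_diff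
      lr := h.lr
      lR := fun p d hd => T.comm_R_W (S := alle e) ?_ d (T.adjoin_le_W _ hd)
      rl_same := fun p ξ => by rw [hΩ]; exact h.rl_same p ξ
      rl_diff := h.rl_diff }⟩
  · refine top_le_iff.1 (hW ▸ T.W_le ?_)
    rintro _ ⟨q | p, rfl⟩
    · exact T.subset_W _ (Or.inl ⟨q.1, q.2.1, q.2.2, rfl⟩)
    · rw [← hcb]
      rcases p with ⟨l, _ | _⟩
      · exact T.subset_W _ (Or.inr ⟨l, rfl⟩)
      · exact star_mem (T.subset_W (alle e ∪ Set.range c) (Or.inr ⟨l, rfl⟩))
  · rintro _ ⟨k, i, j, rfl⟩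
    rw [(hmu k).star, hRe, hRe]
    exact ⟨h.lE' _ _ _ _, h.lE' _ _ _ _⟩

theorem exists_model (ι : Type) [Fintype ι] [DecidableEq ι] [Nonempty ι] (Λ : Type) :
    ∃ (A H : Type) (_ : CStarAlgebra A) (_ : NormedAddCommGroup H) (_ : InnerProductSpace ℂ H)
      (_ : CompleteSpace H) (T : TW A H) (e : ℕ → ι → ι → A) (c : Λ → A)
      (ℓ r : Λ × Bool → (H →L[ℂ] H)), IsModel T e c ℓ r := by
  obtain ⟨H, _, _, _, Ω, E, E', ℓ, r, h⟩ := exists_preModel ι (Λ × Bool)
  obtain ⟨A, _, T, e, c, hm⟩ := model_of_pre h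
  exact ⟨A, H, inferInstance, inferInstance, inferInstance, inferInstance, T, e, c, ℓ, r, hm⟩

end Pool.Agent.TS
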