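import Pool.Agent.P.MP_e05717_an.Crg
import Pool.Agent.P.MP_e05717_an.Pol

/-!
Row TS-MatB. Second half of the matrix lemma (paper MAT).
Hints: the entries `C (ν, i, j)` are circular (`Circ.ent`). `Circ.extend` for the subfamily
`j ↦ C (1, i₀, j)`, `j ≠ i₀`, with `x = p j` (`Circ.noEig`, `NoEig.of_sq`). `Circ.enlarge` along the
inclusion of the complement of that subfamily, `Circ.twist` with `u i` and `star (u j)`, `Circ.semi`,
`Semi.sub` to the subtype of the pairs `((0, i, i), false)` and `((ν, i, j), b)` with `1 ≤ ν`,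
`Semi.extend`, `rg_of_countable`, `W_family`, `eq_re_im`, `reP_conj`.
-/

open scoped ComplexOrder InnerProductSpace ComplexConjugate ENNReal
open Filter Topology Pool.Agent.P.MP_5d580a_an

set_option linter.unusedSectionVars false
set_option linter.unusedVariables false

noncomputable section

namespace Pool.Agent.TS

variable {A H : Type} [CStarAlgebra A] [NormedAddCommGroup H] [InnerProductSpace ℂ H]
  [CompleteSpace H]
variable {ι : Type} [Fintype ι] [DecidableEq ι]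

theorem exists_polData {T : TW A H} {e : ι → ι → A} (he : MU e) {c : ℕ → A}
    (hc : Circ T (StarAlgebra.adjoin ℂ (mus e)) c) (i₀ : ι) :
    ∃ p u : ι → A, PolData T e c i₀ p u := by
  have hC := hc.ent he fun i j => StarAlgebra.subset_adjoin ℂ _ (mem_mus i j)
  choose p u h₁ h₂ h₃ h₄ h₅ h₆ h₇ using fun j : ι => T.polar (hC.inj (1, i₀, j))
  refine ⟨p, fun j => if j = i₀ then 1 else u j, if_pos rfl, fun j => ?_, fun j _ => h₁ j,
    fun j _ => h₂ j, fun j _ => h₃ j, fun j hj => ?_, fun j _ => h₆ j, fun j hj => ?_⟩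
  · split_ifs
    · exact one_mem _
    · exact h₄ j
  · rw [if_neg hj]
    exact h₅ j
  · rw [if_neg hj]
    exact h₇ j

theorem MatB_cm {T : TW A H} {e : ι → ι → A} (he : MU e) {i j : ι} {x y : A}
    (hy : y ∈ T.W {ent e i j x}) : Cm e y :=
  Cm.W T he (fun s hs => by rw [Set.mem_singleton_iff.mp hs]; exact ent_cm he i j x) y hy

theorem Bset_cm {T : TW A H} {e : ι → ι → A} (he : MU e) {c : ℕ → A} {i₀ : ι} {p u : ι → A}
    (h : PolData T e c i₀ p u) : ∀ x ∈ Bset e c i₀ p u, Cm e x := by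
  have hu : ∀ j, Cm e (u j) := fun j => by
    by_cases hj : j = i₀
    · rw [hj, h.u₀]
      exact Cm.one
    · exact MatB_cm he (h.um j hj)
  rintro x (⟨j, hj, rfl⟩ | ⟨i, rfl⟩ | ⟨ν, i, j, -, -, rfl⟩)
  · exact MatB_cm he (h.pm j hj)
  · exact ((hu i).mul (((ent_cm he i i _).add ((ent_cm he i i _).star he)).smul _)).mul
      ((hu i).star he)
  · exact ((hu i).mul (ent_cm he i j _)).mul ((hu j).star he)

/-- the entries outside the first row of the letter `c 1` -/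
abbrev MatB_K (i₀ : ι) : Type := {q : ℕ × ι × ι // q.1 ≠ 1 ∨ q.2.1 ≠ i₀ ∨ q.2.2 = i₀}

/-- the real and imaginary parts that are used -/
abbrev MatB_I (i₀ : ι) : Type :=
  {r : MatB_K i₀ × Bool // 1 ≤ r.1.1.1 ∨ (r.1.1.2.1 = r.1.1.2.2 ∧ r.2 = false)}

/-- the twisted entries -/
def MatB_C (e : ι → ι → A) (c : ℕ → A) (i₀ : ι) (u : ι → A) (l : MatB_K i₀) : A :=
  u l.1.2.1 * ent e l.1.2.1 l.1.2.2 (c l.1.1) * star (u l.1.2.2)

theorem MatB_inf (i₀ : ι) : Infinite (MatB_I i₀) :=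
  Infinite.of_injective
    (fun ν : ℕ => (⟨(⟨(ν + 1, i₀, i₀), Or.inr (Or.inr rfl)⟩, false), Or.inr ⟨rfl, rfl⟩⟩ : MatB_I i₀))
    fun ν ν' h => Nat.succ_injective (congrArg (fun r : MatB_I i₀ => r.1.1.1.1) h)

theorem MatB_W (T : TW A H) (e : ι → ι → A) (c : ℕ → A) (i₀ : ι) (p u : ι → A) :
    T.W (Set.range (Sum.elim (fun j : {j // j ≠ i₀} => p j)
      fun r : MatB_I i₀ => ri (MatB_C e c i₀ u) r.1)) = T.W (Bset e c i₀ p u) := by
  refine T.W_eq ?_ ?_
  · rintro _ ⟨j | ⟨⟨⟨⟨ν, i, j⟩, hq⟩, b⟩, hr⟩, rfl⟩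
    · exact T.subset_W _ (Or.inl ⟨j.1, j.2, rfl⟩)
    · rcases Nat.eq_zero_or_pos ν with rfl | hν
      · obtain ⟨rfl, rfl⟩ : i = j ∧ b = false := hr.resolve_left (by simp)
        exact T.subset_W _ (Or.inr (Or.inl ⟨i, reP_conj _ _⟩))
      · have hm : MatB_C e c i₀ u ⟨(ν, i, j), hq⟩ ∈ T.W (Bset e c i₀ p u) :=
          T.subset_W _ (Or.inr (Or.inr ⟨ν, i, j, hν, hq, rfl⟩))
        cases b
        · exact reP_mem _ hm
        · exact imP_mem _ hm
  · rintro x (⟨j, hj, rfl⟩ | ⟨i, rfl⟩ | ⟨ν, i, j, hν, hq, rfl⟩)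
    · exact T.subset_W _ ⟨Sum.inl ⟨j, hj⟩, rfl⟩
    · exact T.subset_W _ ⟨Sum.inr ⟨(⟨(0, i, i), Or.inl zero_ne_one⟩, false), Or.inr ⟨rfl, rfl⟩⟩,
        reP_conj _ _⟩
    · rw [eq_re_im (u i * ent e i j (c ν) * star (u j))]
      exact SMulMemClass.smul_mem _ (add_mem
        (T.subset_W _ ⟨Sum.inr ⟨(⟨(ν, i, j), hq⟩, false), Or.inl hν⟩, rfl⟩)
        (SMulMemClass.smul_mem _
          (T.subset_W _ ⟨Sum.inr ⟨(⟨(ν, i, j), hq⟩, true), Or.inl hν⟩, rfl⟩)))

theorem matB {T : TW A H} {e : ι → ι → A} (he : MU e) {c : ℕ → A}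
    (hc : Circ T (StarAlgebra.adjoin ℂ (mus e)) c) {i₀ : ι} {p u : ι → A}
    (h : PolData T e c i₀ p u) : RG T (T.W (Bset e c i₀ p u)) := by
  have hC := hc.ent he fun i j => StarAlgebra.subset_adjoin ℂ _ (mem_mus i j)
  have h₁ := hC.sub (fun j : {j // j ≠ i₀} => (1, i₀, j.1)) fun j j' hj =>
    Subtype.ext (congrArg (fun q : ℕ × ι × ι => q.2.2) hj)
  obtain ⟨g, hg, hgW⟩ := h₁.extend (fun j => p j) fun j => ⟨(h.pos j j.2).sa,
    NoEig.of_sq (by rw [h.sq j j.2]; exact hC.noEig (1, i₀, j.1)), h.pm j j.2⟩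
  have h₂ := hC.enlarge (Subtype.val : MatB_K i₀ → ℕ × ι × ι) Subtype.val_injective
  generalize hD : T.W _ = D at h₂
  have hle : ∀ j, j ≠ i₀ → T.W {ent e i₀ j (c 1)} ≤ D := fun j hj => by
    rw [← hD]
    refine T.W_mono (Set.singleton_subset_iff.mpr (Or.inr ⟨(1, i₀, j), ?_, rfl⟩))
    rintro ⟨⟨q, hq⟩, rfl⟩
    simp [hj] at hq
  have hu : ∀ j, u j ∈ D := fun j => by
    by_cases hj : j = i₀
    · rw [hj, h.u₀]
      exact one_mem _
    · exact hle j hj (h.um j hj)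
  have h₃ : Circ T D (MatB_C e c i₀ u) :=
    h₂.twist (fun l => u l.1.2.1) (fun l => star (u l.1.2.2)) (fun l => ⟨hu _, h.un _⟩)
      fun l => ⟨star_mem (hu _), Unitary.star_mem (h.un _)⟩
  have h₄ := h₃.semi.sub (Subtype.val : MatB_I i₀ → MatB_K i₀ × Bool) Subtype.val_injective
  obtain ⟨g', hg', hgW'⟩ := h₄.extend hg fun j => by
    have m : (g j : A) ∈ T.W {p j} := hgW j ▸ T.subset_W _ (Set.mem_singleton _)
    exact hle j j.2 (T.W_le (Set.singleton_subset_iff.mpr (h.pm j j.2)) m)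
  have := MatB_inf i₀
  have key := T.W_family ∅ (x := fun t => ((Sum.elim g g' t : unitary A) : A))
    (y := Sum.elim (fun j : {j // j ≠ i₀} => p j) fun r : MatB_I i₀ => ri (MatB_C e c i₀ u) r.1)
    fun t => by
      cases t
      · exact hgW _
      · exact hgW' _
  rw [Set.empty_union, Set.empty_union, MatB_W] at key
  rw [← key]
  exact rg_of_countable hg'

end Pool.Agent.TS
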