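import Pool.Agent.P.MP_e05717_an.MatA
import Pool.Agent.P.MP_e05717_an.MatB
import Pool.Agent.P.MP_e05717_an.MU2

/-!
Row TS-Ind. The matrix lemma, the induction step and the identification of the model (paper section 3).
Hints: `mat`: reindex to `ℕ`; `matB` gives a regular `v''` commuting with `e` (`Cm.W`), `Circ.rg` of the
entries gives `v`; `reg_match`, `match_mu`, `RG.move`, `W_ent`. `ind_step`: `Tower.level`, `Circ.ent`,
`Circ.rg` (gives `v''`), `mat` over `e k` for the `E` entries (gives `v'`), `reg_match`, `match_mu`,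
`Circ.match` with `Circ.enlarge` for the old letters, `exists_graph`, `Graph.diag`, `Circ.extend_ri` for
the new letters over `W (base ∪ old letters)`, `Graph.move`, `Graph.reg`, `Graph.W_top`.
`rg_top`: build `g k : ℕ × Bool → unitary A` by strong recursion (state: a family on `ℕ × (ℕ × Bool)`
good below level `k`), `reg_of_levels`, `rg_of_countable`, `mem_base`.
-/

open scoped ComplexOrder InnerProductSpace ComplexConjugate ENNReal
open Filter Topology Pool.Agent.P.MP_5d580a_an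

set_option linter.unusedSectionVars false
set_option linter.unusedVariables false

noncomputable section

namespace Pool.Agent.TS

variable {A H : Type} [CStarAlgebra A] [NormedAddCommGroup H] [InnerProductSpace ℂ H]
  [CompleteSpace H]
variable {ι : Type} [Fintype ι] [DecidableEq ι]

variable {T : TW A H}

theorem Ind_nonempty (T : TW A H) {e : ι → ι → A} (he : MU e) : Nonempty ι := by
  by_contra h
  rw [not_nonempty_iff] at h
  have h1 := he.sum
  rw [Finset.univ_eq_empty, Finset.sum_empty] at h1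
  have h2 := T.τ_one
  rw [← h1, map_zero] at h2
  exact zero_ne_one h2

theorem Ind_fst {κ : Type} (a b : κ → A) (e : ι → ι → A) :
    Prod.fst '' ((Set.range fun t => (a t, b t)) ∪ {p : A × A | ∃ i j, p = (e i j, e i j)}) =
      mus e ∪ Set.range a := by
  ext x
  constructor
  · rintro ⟨_, (⟨t, rfl⟩ | ⟨i, j, rfl⟩), rfl⟩
    · exact Or.inr ⟨t, rfl⟩
    · exact Or.inl ⟨i, j, rfl⟩
  · rintro (⟨i, j, rfl⟩ | ⟨t, rfl⟩)
    · exact ⟨_, Or.inr ⟨i, j, rfl⟩, rfl⟩
    · exact ⟨_, Or.inl ⟨t, rfl⟩, rfl⟩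

theorem Ind_snd {κ : Type} (a b : κ → A) (e : ι → ι → A) :
    Prod.snd '' ((Set.range fun t => (a t, b t)) ∪ {p : A × A | ∃ i j, p = (e i j, e i j)}) =
      mus e ∪ Set.range b := by
  ext x
  constructor
  · rintro ⟨_, (⟨t, rfl⟩ | ⟨i, j, rfl⟩), rfl⟩
    · exact Or.inr ⟨t, rfl⟩
    · exact Or.inl ⟨i, j, rfl⟩
  · rintro (⟨i, j, rfl⟩ | ⟨t, rfl⟩)
    · exact ⟨_, Or.inr ⟨i, j, rfl⟩, rfl⟩
    · exact ⟨_, Or.inl ⟨t, rfl⟩, rfl⟩

theorem Ind_fst_range {κ : Type} (a b : κ → A) :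
    Prod.fst '' (Set.range fun t => (a t, b t)) = Set.range a := by
  rw [← Set.range_comp]; rfl

theorem Ind_snd_range {κ : Type} (a b : κ → A) :
    Prod.snd '' (Set.range fun t => (a t, b t)) = Set.range b := by
  rw [← Set.range_comp]; rfl

theorem Ind_mem {S : Set A} {κ : Type} {a : κ → A} (h : T.W (Set.range a) = T.W S) (t : κ) :
    a t ∈ T.W S := by
  rw [← h]; exact T.subset_W _ ⟨t, rfl⟩

theorem Ind_W_ent {e : ι → ι → A} (he : MU e) {Λ : Type} (c : Λ → A) :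
    T.W (mus e ∪ Set.range fun p : Λ × ι × ι => ent e p.2.1 p.2.2 (c p.1)) =
      T.W (mus e ∪ Set.range c) := by
  have := Ind_nonempty T he
  have h := W_ent T he ∅ c
  rw [Set.union_empty] at h
  exact h.symm

theorem Ind_congr_left {S S₁ S₂ : Set A} (h : T.W S₁ = T.W S₂) :
    T.W (S₁ ∪ S) = T.W (S₂ ∪ S) := by
  rw [Set.union_comm S₁, Set.union_comm S₂]; exact T.W_union_congr h

theorem Ind_mat {e : ι → ι → A} (he : MU e) {c : ℕ → A}
    (hc : Circ T (StarAlgebra.adjoin ℂ (mus e)) c) : RG T (T.W (mus e ∪ Set.range c)) := by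
  obtain ⟨i₀⟩ := Ind_nonempty T he
  have : Nonempty ι := ⟨i₀⟩
  obtain ⟨p, u, h⟩ := exists_polData he hc i₀
  have hA := matA he hc h
  obtain ⟨v'', hr'', hW''⟩ := matB he hc h
  have hE := hc.ent he fun i j => StarAlgebra.subset_adjoin ℂ _ (mem_mus i j)
  obtain ⟨v, hr, hW⟩ := hE.rg
  have hm := match_mu (reg_match hr'' hr) he he (by
    rintro _ ⟨t, rfl⟩
    refine ⟨Cm.W T he (Bset_cm he h) _ (Ind_mem hW'' t), Cm.W T he ?_ _ (Ind_mem hW t)⟩
    rintro _ ⟨q, rfl⟩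
    exact ent_cm he _ _ _)
  have h1 := RG.move hm (by
    rw [Ind_fst, T.W_union_congr hW'']; exact hA)
  rwa [Ind_snd, T.W_union_congr hW, Ind_W_ent he] at h1

theorem Ind_lev {e : ℕ → ι → ι → A} {k : ℕ} {κ : Type} [Fintype κ] [DecidableEq κ]
    {E : κ → κ → A} (h1 : ∀ a b, E a b ∈ StarAlgebra.adjoin ℂ (lev e k))
    (h2 : ∀ x ∈ StarAlgebra.adjoin ℂ (lev e k), x ∈ Submodule.span ℂ (mus E)) :
    T.W (mus E) = T.W (lev e k) := by
  apply T.W_eq
  · rintro _ ⟨a, b, rfl⟩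
    exact T.adjoin_le_W _ (h1 a b)
  · intro x hx
    have h3 := h2 x (StarAlgebra.subset_adjoin ℂ _ hx)
    have h4 : Submodule.span ℂ (mus E) ≤ (T.W (mus E)).toSubalgebra.toSubmodule :=
      Submodule.span_le.2 (T.subset_W _)
    exact h4 h3

theorem Ind_old (c : ℕ × ℕ → A) (k : ℕ) :
    (Set.range fun l : {p : ℕ × ℕ // p.1 < k} => c l.1) = c '' {p | p.1 < k} := by
  ext x
  constructor
  · rintro ⟨l, rfl⟩
    exact ⟨l.1, l.2, rfl⟩
  · rintro ⟨l, hl, rfl⟩
    exact ⟨⟨l, hl⟩, rfl⟩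

theorem Ind_new (c : ℕ × ℕ → A) (k : ℕ) :
    c '' {p | p.1 < k + 1} = (Set.range fun n : ℕ => c (k, n)) ∪ c '' {p | p.1 < k} := by
  ext x
  constructor
  · rintro ⟨⟨l, n⟩, hl, rfl⟩
    rcases Nat.lt_succ_iff_lt_or_eq.1 hl with h | h
    · exact Or.inr ⟨_, h, rfl⟩
    · have h' : l = k := h
      subst h'
      exact Or.inl ⟨n, rfl⟩
  · rintro (⟨n, rfl⟩ | ⟨l, hl, rfl⟩)
    · exact ⟨(k, n), Nat.lt_succ_self k, rfl⟩
    · exact ⟨l, Nat.lt_succ_of_lt hl, rfl⟩

theorem mat {e : ι → ι → A} (he : MU e) {Λ : Type} [Countable Λ] [Infinite Λ] {c : Λ → A}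
    (hc : Circ T (StarAlgebra.adjoin ℂ (mus e)) c) : RG T (T.W (mus e ∪ Set.range c)) := by
  obtain ⟨φ⟩ : Nonempty (ℕ ≃ Λ) := nonempty_equiv_of_countable
  have h := Ind_mat he (hc.sub φ φ.injective)
  have h2 : (Set.range fun l => c (φ l)) = Set.range c := φ.surjective.range_comp c
  rwa [h2] at h

theorem ind_step {e : ℕ → ι → ι → A} (he : Tower e) {c : ℕ × ℕ → A} (hc : Circ T (base e) c)
    (k : ℕ) {κ : Type} {u : κ → unitary A} (hu : Reg T u)
    (hW : T.W (Set.range fun t => (u t : A)) = T.W (lev e k ∪ c '' {p | p.1 < k})) :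
    ∃ g : ℕ × Bool → unitary A, Reg T (Sum.elim u g) ∧
      T.W ((Set.range fun t => (u t : A)) ∪ Set.range fun p => (g p : A)) =
        T.W (lev e (k + 1) ∪ c '' {p | p.1 < k + 1}) := by
  obtain ⟨E, hE, hE1, hE2, hE3⟩ := he.level k
  have := Ind_nonempty T hE
  have hlev : T.W (mus E) = T.W (lev e k) := Ind_lev hE1 hE2
  have hEb : ∀ a b, E a b ∈ base e := fun a b =>
    StarAlgebra.adjoin_mono (lev_sub e k) (hE1 a b)
  have hinj : Function.Injective fun n : ℕ => ((k, n) : ℕ × ℕ) := fun n m h => (Prod.ext_iff.1 h).2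
  have hC := (hc.sub _ hinj).ent hE hEb
  obtain ⟨v'', hr'', hW''⟩ := hC.rg
  have hle : StarAlgebra.adjoin ℂ (mus (e k)) ≤ rel E (base e) := by
    apply StarAlgebra.adjoin_le
    rintro _ ⟨i, j, rfl⟩
    exact (mem_rel hE).2 ⟨unit_mem_base e k i j, hE3 k le_rfl i j⟩
  obtain ⟨v', hr', hW'⟩ := mat (he.mu k) (hC.mono hle)
  have hm := match_mu (reg_match hr'' hr') hE hE (by
    rintro _ ⟨t, rfl⟩
    refine ⟨Cm.W T hE ?_ _ (Ind_mem hW'' t), Cm.W T hE ?_ _ (Ind_mem hW' t)⟩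
    · rintro _ ⟨q, rfl⟩
      exact ent_cm hE _ _ _
    · rintro _ (⟨i, j, rfl⟩ | ⟨q, rfl⟩)
      · exact hE3 k le_rfl i j
      · exact ent_cm hE _ _ _)
  have hold := hc.enlarge (fun l : {p : ℕ × ℕ // p.1 < k} => l.1) Subtype.val_injective
  set D' := T.W ((base e : Set A) ∪
    {x | ∃ l, l ∉ Set.range (fun l : {p : ℕ × ℕ // p.1 < k} => l.1) ∧ x = c l}) with hD'
  have hbD : ∀ x ∈ base e, x ∈ D' := fun x hx => T.subset_W _ (Or.inl hx)
  have hnD : ∀ n, c (k, n) ∈ D' := fun n => T.subset_W _ (Or.inr ⟨(k, n), by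
    rintro ⟨l, hl⟩
    have h1 := l.2
    have h2 : l.1 = (k, n) := hl
    rw [h2] at h1
    exact lt_irrefl _ h1, rfl⟩)
  have hCD : (Set.range fun p : ℕ × Fin (Fintype.card ι ^ k) × Fin (Fintype.card ι ^ k) =>
      ent E p.2.1 p.2.2 (c (k, p.1))) ⊆ D' := by
    rintro _ ⟨q, rfl⟩
    exact ent_mem D' (fun a b => hbD _ (hEb a b)) (hnD _) _ _
  have hm2 := hold.match hold hm (by
    rintro _ (⟨t, rfl⟩ | ⟨a, b, rfl⟩)
    · refine ⟨T.W_le hCD (Ind_mem hW'' t), T.W_le ?_ (Ind_mem hW' t)⟩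
      rintro x (⟨i, j, rfl⟩ | hx)
      · exact hbD _ (unit_mem_base e k i j)
      · exact hCD hx
    · exact ⟨hbD _ (hEb a b), hbD _ (hEb a b)⟩)
  obtain ⟨G, hG⟩ := exists_graph hm2
  have hu0 : ∀ t, ((u t : A), (u t : A)) ∈ G := by
    intro t
    refine hG.diag (S₀ := mus E ∪ c '' {p | p.1 < k}) ?_ _ ?_
    · rintro _ (⟨a, b, rfl⟩ | ⟨l, hl, rfl⟩)
      · exact hG.sub (Or.inl (Or.inr ⟨a, b, rfl⟩))
      · exact hG.sub (Or.inr ⟨⟨l, hl⟩, rfl⟩)
    · rw [Ind_congr_left hlev]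
      exact Ind_mem hW t
  have hnew := hc.enlarge _ hinj
  obtain ⟨g₀, hg₀, hg₁⟩ := hnew.extend_ri hu (by
    intro t
    refine T.W_mono ?_ (Ind_mem hW t)
    rintro x (hx | ⟨l, hl, rfl⟩)
    · exact Or.inl (StarAlgebra.subset_adjoin ℂ _ (lev_sub e k hx))
    · refine Or.inr ⟨l, ?_, rfl⟩
      rintro ⟨n, hn⟩
      have h2 : (k, n) = l := hn
      rw [← h2] at hl
      exact lt_irrefl k hl)
  have hfst : T.W (Prod.fst '' (((Set.range fun t => ((v'' t : A), (v' t : A))) ∪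
      {p : A × A | ∃ i j, p = (E i j, E i j)}) ∪
      Set.range fun l : {p : ℕ × ℕ // p.1 < k} => (c l.1, c l.1))) =
      T.W ((Set.range fun t => (u t : A)) ∪ Set.range fun n : ℕ => c (k, n)) := by
    rw [Set.image_union, Ind_fst, Ind_fst_range, Ind_old,
      Ind_congr_left ((T.W_union_congr hW'').trans (Ind_W_ent hE fun n => c (k, n))),
      Ind_congr_left hW, Set.union_right_comm, Set.union_assoc, Ind_congr_left hlev,
      ← Set.union_assoc]
  have hsnd : T.W (Prod.snd '' (((Set.range fun t => ((v'' t : A), (v' t : A))) ∪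
      {p : A × A | ∃ i j, p = (E i j, E i j)}) ∪
      Set.range fun l : {p : ℕ × ℕ // p.1 < k} => (c l.1, c l.1))) =
      T.W (lev e (k + 1) ∪ c '' {p | p.1 < k + 1}) := by
    have h1 : T.W (mus E ∪ Set.range fun t => (v' t : A)) =
        T.W (mus (e k) ∪ (mus E ∪ Set.range fun n : ℕ => c (k, n))) := by
      rw [T.W_union_congr hW', Set.union_left_comm]
      exact T.W_union_congr (Ind_W_ent hE fun n => c (k, n))
    rw [Set.image_union, Ind_snd, Ind_snd_range, Ind_old, Ind_congr_left h1, Ind_new, lev_succ,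
      Set.union_left_comm, Set.union_assoc, Ind_congr_left hlev]
    simp only [Set.union_assoc]
  obtain ⟨g, hg⟩ := hG.move g₀ (by
    intro p
    rw [hfst, ← hg₁]
    exact T.subset_W _ (Or.inr ⟨p, rfl⟩))
  have hall : ∀ t, (((Sum.elim u g₀ t : unitary A) : A), ((Sum.elim u g t : unitary A) : A)) ∈ G := by
    rintro (t | p)
    · exact hu0 t
    · exact hg p
  refine ⟨g, hG.reg hall hg₀, ?_⟩
  have h2 := hG.W_top (S' := Set.range fun t =>
      (((Sum.elim u g₀ t : unitary A) : A), ((Sum.elim u g t : unitary A) : A)))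
    (by rintro _ ⟨t, rfl⟩; exact hall t)
    (by rw [Ind_fst_range, range_sum_elim, hg₁, hfst])
  rwa [Ind_snd_range, range_sum_elim, hsnd] at h2

/-- a family which is regular and generating below the level `k` -/
def Ind_Good (T : TW A H) (e : ℕ → ι → ι → A) (c : ℕ × ℕ → A) (k : ℕ)
    (U : ℕ × (ℕ × Bool) → unitary A) : Prop :=
  (Reg T fun p : {p : ℕ × (ℕ × Bool) // p.1 < k} => U p.1) ∧
    T.W (Set.range fun p : {p : ℕ × (ℕ × Bool) // p.1 < k} => (U p.1 : A)) =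
      T.W (lev e k ∪ c '' {p | p.1 < k})

theorem Ind_good_zero (e : ℕ → ι → ι → A) (c : ℕ × ℕ → A) (U : ℕ × (ℕ × Bool) → unitary A) :
    Ind_Good T e c 0 U := by
  have : IsEmpty {p : ℕ × (ℕ × Bool) // p.1 < 0} := ⟨fun p => Nat.not_lt_zero _ p.2⟩
  refine ⟨reg_empty _, ?_⟩
  rw [Set.range_eq_empty, lev_zero]
  simp

theorem Ind_good_congr {e : ℕ → ι → ι → A} {c : ℕ × ℕ → A} {k : ℕ}
    {U U' : ℕ × (ℕ × Bool) → unitary A} (h : Ind_Good T e c k U) (hU : ∀ p, p.1 < k → U' p = U p) :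
    Ind_Good T e c k U' := by
  have h1 : (fun p : {p : ℕ × (ℕ × Bool) // p.1 < k} => U' p.1) = fun p => U p.1 :=
    funext fun p => hU p.1 p.2
  have h2 : (fun p : {p : ℕ × (ℕ × Bool) // p.1 < k} => (U' p.1 : A)) = fun p => (U p.1 : A) :=
    funext fun p => by rw [hU p.1 p.2]
  unfold Ind_Good
  rw [h1, h2]
  exact h

theorem Ind_good_succ {e : ℕ → ι → ι → A} (he : Tower e) {c : ℕ × ℕ → A} (hc : Circ T (base e) c)
    (k : ℕ) (U : ℕ × (ℕ × Bool) → unitary A) (h : Ind_Good T e c k U) :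
    ∃ U', Ind_Good T e c (k + 1) U' ∧ ∀ p, p.1 < k → U' p = U p := by
  obtain ⟨g, hg, hW⟩ := ind_step he hc k h.1 h.2
  refine ⟨fun p => if p.1 < k then U p else g p.2, ⟨?_, ?_⟩, fun p hp => if_pos hp⟩
  · let f : {p : ℕ × (ℕ × Bool) // p.1 < k + 1} → {p : ℕ × (ℕ × Bool) // p.1 < k} ⊕ (ℕ × Bool) :=
      fun p => if h : p.1.1 < k then Sum.inl ⟨p.1, h⟩ else Sum.inr p.1.2
    have hf : Function.Injective f := by
      rintro ⟨p, hp⟩ ⟨q, hq⟩ hpq
      by_cases h1 : p.1 < k <;> by_cases h2 : q.1 < k <;> simp only [f, h1, h2, dif_pos, dif_neg,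
        not_false_eq_true, Sum.inl.injEq, Sum.inr.injEq, Subtype.mk.injEq, reduceCtorEq] at hpq
      · exact Subtype.ext hpq
      · exact Subtype.ext (Prod.ext (by dsimp only; omega) hpq)
    have h3 := hg.comp f hf
    convert h3 using 2 with p
    by_cases h1 : p.1.1 < k <;> simp [f, h1]
  · rw [← hW]
    congr 1
    ext x
    constructor
    · rintro ⟨p, rfl⟩
      by_cases h1 : p.1.1 < k
      · exact Or.inl ⟨⟨p.1, h1⟩, by simp [h1]⟩
      · exact Or.inr ⟨p.1.2, by simp [h1]⟩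
    · rintro (⟨p, rfl⟩ | ⟨q, rfl⟩)
      · exact ⟨⟨p.1, Nat.lt_succ_of_lt p.2⟩, by simp [p.2]⟩
      · exact ⟨⟨(k, q), Nat.lt_succ_self k⟩, by simp⟩

theorem Ind_exists {e : ℕ → ι → ι → A} (he : Tower e) {c : ℕ × ℕ → A} (hc : Circ T (base e) c) :
    ∃ U, ∀ k, Ind_Good T e c k U := by
  choose! F hF using Ind_good_succ he hc
  let V : ℕ → ℕ × (ℕ × Bool) → unitary A := fun k => Nat.rec (fun _ => 1) F k
  have hV : ∀ k, V (k + 1) = F k (V k) := fun k => rfl
  have hgood : ∀ k, Ind_Good T e c k (V k) := by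
    intro k
    induction k with
    | zero => exact Ind_good_zero e c _
    | succ k ih => rw [hV]; exact (hF k _ ih).1
  have hst : ∀ p : ℕ × (ℕ × Bool), ∀ k, p.1 + 1 ≤ k → V (p.1 + 1) p = V k p := by
    intro p k hk
    induction k, hk using Nat.le_induction with
    | base => rfl
    | succ k hk ih => rw [ih, hV k]; exact ((hF k _ (hgood k)).2 p hk).symm
  exact ⟨fun p => V (p.1 + 1) p, fun k => Ind_good_congr (hgood k) fun p hp => hst p k hp⟩

theorem rg_top {e : ℕ → ι → ι → A} (he : Tower e) {Λ : Type} [Countable Λ] [Infinite Λ]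
    {c : Λ → A} (hc : Circ T (base e) c) (hg : T.W (alle e ∪ Set.range c) = ⊤) :
    RG T ⊤ := by
  obtain ⟨φ⟩ : Nonempty (ℕ × ℕ ≃ Λ) := nonempty_equiv_of_countable
  obtain ⟨U, hU⟩ := Ind_exists he (hc.sub φ φ.injective)
  have h1 := rg_of_countable (reg_of_levels U fun k => (hU k).1)
  have h2 : T.W (Set.range fun t => (U t : A)) = ⊤ := by
    rw [eq_top_iff, ← hg]
    have h3 : ∀ k, lev e k ∪ (fun l => c (φ l)) '' {p | p.1 < k} ⊆
        T.W (Set.range fun t => (U t : A)) := by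
      intro k x hx
      have h4 := T.subset_W _ hx
      rw [← (hU k).2] at h4
      refine T.W_mono ?_ h4
      rintro _ ⟨p, rfl⟩
      exact ⟨p.1, rfl⟩
    apply T.W_le
    rintro _ (⟨l, i, j, rfl⟩ | ⟨l, rfl⟩)
    · exact h3 (l + 1) (Or.inl ⟨l, Nat.lt_succ_self l, i, j, rfl⟩)
    · obtain ⟨p, rfl⟩ := φ.surjective l
      exact h3 (p.1 + 1) (Or.inr ⟨p, Nat.lt_succ_self _, rfl⟩)
  rwa [h2] at h1

end Pool.Agent.TS
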