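import Pool.Agent.P.MP_e05717_an.Wsub

/-!
Row TS-MU1. Matrix units, entries, the decomposition `x = ∑ e i j * y i j`.
Hints: `mem_W_of_cm`: the average `E x = m⁻¹ ∑ r s, e r s * x * e s r` is 2-norm continuous, fixes
elements commuting with `e`, and maps `adjoin (mus e ∪ S)` = span of the `e i j * b`,
`b ∈ adjoin S`, into `adjoin S`.
-/

open scoped ComplexOrder InnerProductSpace ComplexConjugate ENNReal
open Filter Topology Pool.Agent.P.MP_5d580a_an

set_option linter.unusedSectionVars false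
set_option linter.unusedVariables false

noncomputable section

namespace Pool.Agent.TS

variable {A H : Type} [CStarAlgebra A] [NormedAddCommGroup H] [InnerProductSpace ℂ H]
  [CompleteSpace H]
variable {A' H' : Type} [CStarAlgebra A'] [NormedAddCommGroup H'] [InnerProductSpace ℂ H']
  [CompleteSpace H']
variable {ι : Type} [Fintype ι] [DecidableEq ι]

section Alg

variable {e : ι → ι → A}

theorem MU.map (he : MU e) (φ : A →⋆ₐ[ℂ] A') : MU fun i j => φ (e i j) :=
  ⟨fun i j k l => by rw [← map_mul, he.mul]; split_ifs <;> simp,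
    fun i j => by rw [← map_star, he.star], by rw [← map_sum, he.sum, map_one]⟩
theorem MU.proj (he : MU e) (i : ι) : IsStarProjection (e i i) :=
  ⟨(he.mul i i i i).trans (if_pos rfl), he.star i i⟩
theorem MU.mul_same (he : MU e) (i j l : ι) : e i j * e j l = e i l :=
  (he.mul i j j l).trans (if_pos rfl)
theorem MU.mul_diff (he : MU e) {j k : ι} (h : j ≠ k) (i l : ι) : e i j * e k l = 0 :=
  (he.mul i j k l).trans (if_neg h)
theorem MU.norm_le (he : MU e) (i j : ι) : ‖e i j‖ ≤ 1 := by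
  have h1 : ‖e i j‖ * ‖e i j‖ ≤ 1 := by
    rw [← CStarRing.norm_star_mul_self, he.star, he.mul_same]
    exact (he.proj j).norm_le
  nlinarith [norm_nonneg (e i j)]
theorem mem_mus (i j : ι) : e i j ∈ mus e := ⟨i, j, rfl⟩
theorem Cm.one : Cm e 1 := fun i j => by rw [mul_one, one_mul]
theorem Cm.zero : Cm e 0 := fun i j => by rw [mul_zero, zero_mul]
theorem Cm.mul {x y : A} (hx : Cm e x) (hy : Cm e y) : Cm e (x * y) := fun i j => by
  rw [← mul_assoc, hx, mul_assoc, hy, mul_assoc]
theorem Cm.add {x y : A} (hx : Cm e x) (hy : Cm e y) : Cm e (x + y) := fun i j => by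
  rw [mul_add, add_mul, hx, hy]
theorem Cm.sub {x y : A} (hx : Cm e x) (hy : Cm e y) : Cm e (x - y) := fun i j => by
  rw [mul_sub, sub_mul, hx, hy]
theorem Cm.smul {x : A} (hx : Cm e x) (c : ℂ) : Cm e (c • x) := fun i j => by
  rw [mul_smul_comm, smul_mul_assoc, hx]
theorem Cm.sum {κ : Type*} (s : Finset κ) {x : κ → A} (h : ∀ i ∈ s, Cm e (x i)) :
    Cm e (∑ i ∈ s, x i) := fun i j => by
  rw [Finset.mul_sum, Finset.sum_mul]
  exact Finset.sum_congr rfl fun k hk => h k hk i j
theorem Cm.star (he : MU e) {x : A} (hx : Cm e x) : Cm e (star x) := fun i j => by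
  rw [← he.star j i, ← star_mul, ← hx, star_mul]
theorem Cm.map (φ : A →⋆ₐ[ℂ] A') {x : A} (hx : Cm e x) : Cm (fun i j => φ (e i j)) (φ x) :=
  fun i j => by rw [← map_mul, hx, map_mul]
theorem Cm.adjoin (he : MU e) {S : Set A} (h : ∀ s ∈ S, Cm e s) :
    ∀ x ∈ StarAlgebra.adjoin ℂ S, Cm e x := by
  intro x hx
  induction hx using StarAlgebra.adjoin_induction with
  | mem x hx => exact h x hx
  | algebraMap r => exact fun i j => (Algebra.commutes r _).symm
  | add x y _ _ h1 h2 => exact h1.add h2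
  | mul x y _ _ h1 h2 => exact h1.mul h2
  | star x _ h1 => exact h1.star he
theorem Cm.W (T : TW A H) (he : MU e) {S : Set A} (h : ∀ s ∈ S, Cm e s) :
    ∀ x ∈ T.W S, Cm e x := fun x hx i j =>
  T.comm_W (fun s hs => ⟨h s hs i j, (h s hs).star he i j⟩) x hx
theorem Cm.comm_adjoin (he : MU e) {x y : A} (hx : Cm e x)
    (hy : y ∈ StarAlgebra.adjoin ℂ (mus e)) : y * x = x * y := by
  induction hy using StarAlgebra.adjoin_induction generalizing x with
  | mem y hy =>
    obtain ⟨i, j, rfl⟩ := hy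
    exact hx i j
  | algebraMap r => exact Algebra.commutes r _
  | add a b _ _ h1 h2 => rw [add_mul, mul_add, h1 hx, h2 hx]
  | mul a b _ _ h1 h2 => rw [mul_assoc, h2 hx, ← mul_assoc, h1 hx, mul_assoc]
  | star a _ h1 =>
    have := congrArg Star.star (h1 (hx.star he))
    rw [star_mul, star_mul, star_star] at this
    exact this.symm
theorem mem_rel (he : MU e) {D : StarSubalgebra ℂ A} {x : A} :
    x ∈ rel e D ↔ x ∈ D ∧ Cm e x := by
  rw [rel, StarSubalgebra.mem_inf, StarSubalgebra.mem_centralizer_iff]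
  refine and_congr_right fun _ => ⟨fun h i j => (h _ (mem_mus i j)).1, ?_⟩
  rintro h _ ⟨i, j, rfl⟩
  rw [he.star]
  exact ⟨h i j, h j i⟩
theorem adjoin_mus (he : MU e) {x : A} (hx : x ∈ StarAlgebra.adjoin ℂ (mus e)) :
    x ∈ Submodule.span ℂ (mus e) := by
  induction hx using StarAlgebra.adjoin_induction with
  | mem x hx => exact Submodule.subset_span hx
  | algebraMap r =>
    rw [Algebra.algebraMap_eq_smul_one, ← he.sum]
    exact Submodule.smul_mem _ _
      (Submodule.sum_mem _ fun i _ => Submodule.subset_span (mem_mus i i))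
  | add x y _ _ h1 h2 => exact add_mem h1 h2
  | mul x y _ _ h1 h2 =>
    have h3 := Submodule.mul_mem_mul h1 h2
    rw [Submodule.span_mul_span] at h3
    refine Submodule.span_le.2 ?_ h3
    rintro _ ⟨_, ⟨i, j, rfl⟩, _, ⟨k, l, rfl⟩, rfl⟩
    beta_reduce
    rw [he.mul]
    split_ifs
    · exact Submodule.subset_span (mem_mus i l)
    · exact zero_mem _
  | star x hx h1 =>
    clear hx
    induction h1 using Submodule.span_induction with
    | mem y hy =>
      obtain ⟨i, j, rfl⟩ := hy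
      rw [he.star]
      exact Submodule.subset_span (mem_mus j i)
    | zero => rw [star_zero]; exact zero_mem _
    | add a b _ _ ha hb => rw [star_add]; exact add_mem ha hb
    | smul s a _ ha => rw [star_smul]; exact Submodule.smul_mem _ _ ha

/-- matrix entry without normalisation -/
def MU1_F (e : ι → ι → A) (i j : ι) (x : A) : A := ∑ r, e r i * x * e j r

theorem MU1_ent (i j : ι) (x : A) :
    ent e i j x = ((√(Fintype.card ι : ℝ) : ℝ) : ℂ) • MU1_F e i j x := rfl

theorem MU1_left (he : MU e) (a b i j : ι) (x : A) :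
    e a b * MU1_F e i j x = e a i * x * e j b := by
  rw [MU1_F, Finset.mul_sum, Finset.sum_eq_single b]
  · rw [← mul_assoc, ← mul_assoc, he.mul_same]
  · intro r _ hr
    rw [← mul_assoc, ← mul_assoc, he.mul_diff hr.symm, zero_mul, zero_mul]
  · exact fun h => absurd (Finset.mem_univ b) h

theorem MU1_right (he : MU e) (a b i j : ι) (x : A) :
    MU1_F e i j x * e a b = e a i * x * e j b := by
  rw [MU1_F, Finset.sum_mul, Finset.sum_eq_single a]
  · rw [mul_assoc _ (e j a), he.mul_same]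
  · intro r _ hr
    rw [mul_assoc _ (e j r), he.mul_diff hr, mul_zero]
  · exact fun h => absurd (Finset.mem_univ a) h

theorem MU1_cm (he : MU e) (i j : ι) (x : A) : Cm e (MU1_F e i j x) := fun a b => by
  rw [MU1_left he, MU1_right he]

theorem MU1_star (he : MU e) (i j : ι) (x : A) :
    star (MU1_F e i j x) = MU1_F e j i (star x) := by
  rw [MU1_F, MU1_F, star_sum]
  refine Finset.sum_congr rfl fun r _ => ?_
  rw [star_mul, star_mul, he.star, he.star, mul_assoc]

theorem MU1_add (i j : ι) (x y : A) : MU1_F e i j (x + y) = MU1_F e i j x + MU1_F e i j y := by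
  simp only [MU1_F, mul_add, add_mul, Finset.sum_add_distrib]

theorem MU1_sub (i j : ι) (x y : A) : MU1_F e i j (x - y) = MU1_F e i j x - MU1_F e i j y := by
  simp only [MU1_F, mul_sub, sub_mul, Finset.sum_sub_distrib]

theorem MU1_sum {κ : Type*} (s : Finset κ) (i j : ι) (x : κ → A) :
    MU1_F e i j (∑ k ∈ s, x k) = ∑ k ∈ s, MU1_F e i j (x k) := by
  simp only [MU1_F, Finset.mul_sum, Finset.sum_mul]
  exact Finset.sum_comm

theorem MU1_mul_right {b : A} (hb : Cm e b) (i j : ι) (x : A) :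
    MU1_F e i j (x * b) = MU1_F e i j x * b := by
  rw [MU1_F, MU1_F, Finset.sum_mul]
  refine Finset.sum_congr rfl fun r _ => ?_
  rw [mul_assoc _ (e j r), hb, ← mul_assoc, ← mul_assoc]

theorem MU1_mul_left {b : A} (hb : Cm e b) (i j : ι) (x : A) :
    MU1_F e i j (b * x) = b * MU1_F e i j x := by
  rw [MU1_F, MU1_F, Finset.mul_sum]
  refine Finset.sum_congr rfl fun r _ => ?_
  rw [← mul_assoc, hb, ← mul_assoc, ← mul_assoc]

theorem MU1_unit (he : MU e) (i j a b : ι) :
    MU1_F e i j (e a b) = if i = a ∧ b = j then 1 else 0 := by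
  rw [MU1_F]
  split_ifs with h
  · obtain ⟨rfl, rfl⟩ := h
    simp only [he.mul_same, he.sum]
  · refine Finset.sum_eq_zero fun r _ => ?_
    by_cases h1 : i = a
    · subst h1
      rw [he.mul_same, he.mul_diff fun h2 => h ⟨rfl, h2⟩]
    · rw [he.mul_diff h1, zero_mul]

theorem MU1_one (he : MU e) (i j : ι) : MU1_F e i j 1 = if i = j then 1 else 0 := by
  rw [MU1_F]
  split_ifs with h
  · subst h
    simp only [mul_one, he.mul_same, he.sum]
  · exact Finset.sum_eq_zero fun r _ => by rw [mul_one, he.mul_diff h]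

theorem MU1_of_cm (he : MU e) {b : A} (hb : Cm e b) (i j : ι) :
    MU1_F e i j b = if i = j then b else 0 := by
  have := MU1_mul_right hb i j 1
  rw [one_mul, MU1_one he] at this
  rw [this, ite_mul, one_mul, zero_mul]

theorem MU1_mul (he : MU e) (i j : ι) (x y : A) :
    MU1_F e i j (x * y) = ∑ k, MU1_F e i k x * MU1_F e k j y := by
  have h1 : ∀ k, MU1_F e i k x * MU1_F e k j y = ∑ r, e r i * x * e k k * y * e j r := by
    intro k
    conv_lhs => rw [MU1_F, Finset.sum_mul]
    refine Finset.sum_congr rfl fun r _ => ?_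
    rw [mul_assoc _ (e k r), MU1_left he]
    simp only [mul_assoc]
  simp only [h1]
  rw [Finset.sum_comm, MU1_F]
  refine Finset.sum_congr rfl fun r _ => ?_
  rw [← Finset.sum_mul, ← Finset.sum_mul, ← Finset.mul_sum, he.sum, mul_one, ← mul_assoc]

theorem MU1_recon (he : MU e) (x : A) : x = ∑ i, ∑ j, e i j * MU1_F e i j x := by
  simp only [MU1_left he]
  simp only [← Finset.mul_sum, ← Finset.sum_mul, he.sum, mul_one, one_mul]

theorem MU1_sqrt [Nonempty ι] :
    (((√(Fintype.card ι : ℝ))⁻¹ : ℝ) : ℂ) * ((√(Fintype.card ι : ℝ) : ℝ) : ℂ) = 1 := by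
  rw [← Complex.ofReal_mul, inv_mul_cancel₀, Complex.ofReal_one]
  exact (Real.sqrt_pos.2 (Nat.cast_pos.2 Fintype.card_pos)).ne'

theorem ent_cm (he : MU e) (i j : ι) (x : A) : Cm e (ent e i j x) :=
  (MU1_cm he i j x).smul _
theorem ent_star (he : MU e) (i j : ι) (x : A) : star (ent e i j x) = ent e j i (star x) := by
  rw [MU1_ent, MU1_ent, star_smul, MU1_star he, Complex.star_def, Complex.conj_ofReal]
theorem ent_add (i j : ι) (x y : A) : ent e i j (x + y) = ent e i j x + ent e i j y := by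
  rw [MU1_ent, MU1_ent, MU1_ent, MU1_add, smul_add]
theorem ent_smul (i j : ι) (c : ℂ) (x : A) : ent e i j (c • x) = c • ent e i j x := by
  rw [ent, ent, smul_comm c]
  simp only [mul_smul_comm, smul_mul_assoc, ← Finset.smul_sum]
theorem ent_mul_right {b : A} (hb : Cm e b) (i j : ι) (x : A) :
    ent e i j (x * b) = ent e i j x * b := by
  rw [MU1_ent, MU1_ent, MU1_mul_right hb, smul_mul_assoc]
theorem ent_mul_left {b : A} (hb : Cm e b) (i j : ι) (x : A) :
    ent e i j (b * x) = b * ent e i j x := by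
  rw [MU1_ent, MU1_ent, MU1_mul_left hb, mul_smul_comm]
theorem ent_map (φ : A →⋆ₐ[ℂ] A') (i j : ι) (x : A) :
    φ (ent e i j x) = ent (fun a b => φ (e a b)) i j (φ x) := by
  simp only [ent, map_smul, map_sum, map_mul]
theorem ent_mem (Q : StarSubalgebra ℂ A) (hQ : ∀ i j, e i j ∈ Q) {x : A} (hx : x ∈ Q) (i j : ι) :
    ent e i j x ∈ Q :=
  Q.smul_mem (sum_mem fun r _ => mul_mem (mul_mem (hQ r i) hx) (hQ j r)) _
theorem ent_recon (he : MU e) [Nonempty ι] (x : A) :
    x = (((√(Fintype.card ι : ℝ))⁻¹ : ℝ) : ℂ) • ∑ i, ∑ j, e i j * ent e i j x := by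
  simp only [MU1_ent, mul_smul_comm, ← Finset.smul_sum]
  rw [← MU1_recon he, smul_smul, MU1_sqrt, one_smul]
theorem ent_corner (he : MU e) [Nonempty ι] (i j : ι) (x : A) :
    e i i * x * e j j = (((√(Fintype.card ι : ℝ))⁻¹ : ℝ) : ℂ) • (e i j * ent e i j x) := by
  rw [MU1_ent, mul_smul_comm, MU1_left he, smul_smul, MU1_sqrt, one_smul]
theorem ent_of_decomp (he : MU e) {y : ι → ι → A} (hy : ∀ i j, Cm e (y i j)) (i j : ι) :
    ent e i j (∑ a, ∑ b, e a b * y a b) = ((√(Fintype.card ι : ℝ) : ℝ) : ℂ) • y i j := by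
  rw [MU1_ent, MU1_sum, Finset.sum_eq_single i, MU1_sum, Finset.sum_eq_single j]
  · rw [MU1_mul_right (hy i j), MU1_unit he, if_pos ⟨rfl, rfl⟩, one_mul]
  · intro b _ hb
    rw [MU1_mul_right (hy i b), MU1_unit he, if_neg fun h => hb h.2, zero_mul]
  · exact fun h => absurd (Finset.mem_univ j) h
  · intro a _ ha
    rw [MU1_sum]
    refine Finset.sum_eq_zero fun b _ => ?_
    rw [MU1_mul_right (hy a b), MU1_unit he, if_neg fun h => ha h.1.symm, zero_mul]
  · exact fun h => absurd (Finset.mem_univ i) h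
theorem decomp (he : MU e) (x : A) :
    ∃ y : ι → ι → A, (∀ i j, Cm e (y i j)) ∧ x = ∑ i, ∑ j, e i j * y i j :=
  ⟨fun i j => MU1_F e i j x, fun i j => MU1_cm he i j x, MU1_recon he x⟩

theorem MU1_diag_mul (he : MU e) {a : ι → A} (ha : ∀ i, Cm e (a i)) (b : ι → A) :
    (∑ i, e i i * a i) * ∑ i, e i i * b i = ∑ i, e i i * (a i * b i) := by
  rw [Finset.sum_mul]
  refine Finset.sum_congr rfl fun i _ => ?_
  rw [Finset.mul_sum, Finset.sum_eq_single i]
  · rw [ha i, mul_assoc, ← mul_assoc (e i i), he.mul_same, ← mul_assoc, ← ha i, mul_assoc]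
  · intro j _ hj
    rw [ha i, mul_assoc, ← mul_assoc (e i i), he.mul_diff hj.symm, zero_mul, mul_zero]
  · exact fun h => absurd (Finset.mem_univ i) h

theorem MU1_diag_star (he : MU e) {a : ι → A} (ha : ∀ i, Cm e (a i)) :
    star (∑ i, e i i * a i) = ∑ i, e i i * star (a i) := by
  rw [star_sum]
  refine Finset.sum_congr rfl fun i _ => ?_
  rw [ha i, star_mul, he.star]

theorem diag_unitary (he : MU e) {g : ι → A} (hg : ∀ i, g i ∈ unitary A ∧ Cm e (g i)) :
    ∑ i, e i i * g i ∈ unitary A := by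
  have h1 : ∀ i, Cm e (g i) := fun i => (hg i).2
  rw [Unitary.mem_iff, MU1_diag_star he h1, MU1_diag_mul he fun i => (h1 i).star he,
    MU1_diag_mul he h1]
  simp only [fun i => (Unitary.mem_iff.1 (hg i).1).1, fun i => (Unitary.mem_iff.1 (hg i).1).2,
    mul_one, he.sum, and_self]
theorem sign_unitary (he : MU e) {s : ι → ℝ} (hs : ∀ i, s i = 1 ∨ s i = -1) :
    ∑ i, (s i : ℂ) • e i i ∈ unitary A := by
  have h := diag_unitary he (g := fun i => (s i : ℂ) • (1 : A)) fun i => ⟨?_, Cm.one.smul _⟩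
  · simpa only [mul_smul_comm, mul_one] using h
  · rcases hs i with h | h <;> rw [h]
    · simp
    · simp [Unitary.mem_iff]

end Alg

variable {T : TW A H} {e : ι → ι → A}

theorem MU.τ_mul (T : TW A H) (he : MU e) {b : A} (hb : Cm e b) (i j : ι) :
    T.τ (e i j * b) = if i = j then T.τ b / (Fintype.card ι : ℂ) else 0 := by
  have h1 : ∀ i j k l, T.τ (e i j * e k l * b) = T.τ (e k l * e i j * b) := fun i j k l => by
    rw [mul_assoc, T.τ_comm, mul_assoc, ← hb i j, ← mul_assoc]
  split_ifs with h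
  · subst h
    have h2 : ∀ k, T.τ (e k k * b) = T.τ (e i i * b) := fun k => by
      rw [← he.mul_same k i k, h1, he.mul_same]
    have h3 : T.τ b = Fintype.card ι * T.τ (e i i * b) := by
      conv_lhs => rw [← one_mul b, ← he.sum, Finset.sum_mul, map_sum]
      simp only [h2, Finset.sum_const, Finset.card_univ, nsmul_eq_mul]
    have h4 : (Fintype.card ι : ℂ) ≠ 0 :=
      Nat.cast_ne_zero.2 (Fintype.card_pos_iff.2 ⟨i⟩).ne'
    rw [h3, mul_div_cancel_left₀ _ h4]
  · rw [← he.mul_same i i j, h1, he.mul_diff (Ne.symm h), zero_mul, map_zero]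

theorem MU1_τ_pair (T : TW A H) (he : MU e) {a b : A} (ha : Cm e a) (hb : Cm e b) (i j k l : ι) :
    T.τ (star (e i j * a) * (e k l * b)) =
      if i = k ∧ j = l then T.τ (star a * b) / (Fintype.card ι : ℂ) else 0 := by
  have h1 : star (e i j * a) * (e k l * b) = e j i * e k l * (star a * b) := by
    rw [star_mul, he.star, ← ha.star he j i, mul_assoc, ← mul_assoc (star a), ← ha.star he k l]
    simp only [mul_assoc]
  rw [h1]
  by_cases h : i = k
  · subst h
    rw [he.mul_same, he.τ_mul T ((ha.star he).mul hb)]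
    simp only [true_and]
  · rw [he.mul_diff h, zero_mul, map_zero, if_neg fun h' => h h'.1]

theorem n2_decomp (T : TW A H) (he : MU e) {y : ι → ι → A} (hy : ∀ i j, Cm e (y i j)) :
    T.n2 (∑ i, ∑ j, e i j * y i j) ^ 2 = (∑ i, ∑ j, T.n2 (y i j) ^ 2) / Fintype.card ι := by
  rw [← Finset.sum_product' (f := fun i j => e i j * y i j),
    ← Finset.sum_product' (f := fun i j => T.n2 (y i j) ^ 2), T.n2_sum_orth, Finset.sum_div]
  · refine Finset.sum_congr rfl fun p _ => ?_
    have h := MU1_τ_pair T he (hy p.1 p.2) (hy p.1 p.2) p.1 p.2 p.1 p.2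
    rw [if_pos ⟨rfl, rfl⟩, T.τ_star_mul_self, T.τ_star_mul_self] at h
    exact_mod_cast h
  · intro p _ q _ hpq
    rw [MU1_τ_pair T he (hy _ _) (hy _ _), if_neg fun h => hpq (Prod.ext h.1 h.2)]
theorem W_ent (T : TW A H) (he : MU e) [Nonempty ι] (S : Set A) {Λ : Type} (c : Λ → A) :
    T.W (mus e ∪ S ∪ Set.range c) =
      T.W (mus e ∪ S ∪ Set.range fun p : Λ × ι × ι => ent e p.2.1 p.2.2 (c p.1)) := by
  refine T.W_eq ?_ ?_
  · rintro x (hx | ⟨l, rfl⟩)
    · exact T.subset_W _ (Or.inl hx)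
    · rw [ent_recon he (c l)]
      refine StarSubalgebra.smul_mem _ (sum_mem fun i _ => sum_mem fun j _ => mul_mem ?_ ?_) _
      · exact T.subset_W _ (Or.inl (Or.inl (mem_mus i j)))
      · exact T.subset_W _ (Or.inr ⟨(l, i, j), rfl⟩)
  · rintro x (hx | ⟨p, rfl⟩)
    · exact T.subset_W _ (Or.inl hx)
    · exact ent_mem _ (fun i j => T.subset_W _ (Or.inl (Or.inl (mem_mus i j))))
        (T.subset_W _ (Or.inr ⟨p.1, rfl⟩)) _ _

theorem MU1_adjoin (he : MU e) {S : Set A} (hS : ∀ s ∈ S, Cm e s) {a : A}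
    (ha : a ∈ StarAlgebra.adjoin ℂ (mus e ∪ S)) :
    ∀ i j, MU1_F e i j a ∈ StarAlgebra.adjoin ℂ S := by
  induction ha using StarAlgebra.adjoin_induction with
  | mem x hx =>
    intro i j
    rcases hx with ⟨k, l, rfl⟩ | hx
    · rw [MU1_unit he]
      split_ifs
      · exact one_mem _
      · exact zero_mem _
    · rw [MU1_of_cm he (hS x hx)]
      split_ifs
      · exact StarAlgebra.subset_adjoin ℂ S hx
      · exact zero_mem _
  | algebraMap r =>
    intro i j
    rw [MU1_of_cm he fun i j => (Algebra.commutes r _).symm]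
    split_ifs
    · exact StarSubalgebra.algebraMap_mem _ r
    · exact zero_mem _
  | add x y _ _ h1 h2 =>
    intro i j
    rw [MU1_add]
    exact add_mem (h1 i j) (h2 i j)
  | mul x y _ _ h1 h2 =>
    intro i j
    rw [MU1_mul he]
    exact sum_mem fun k _ => mul_mem (h1 i k) (h2 k j)
  | star x _ h1 =>
    intro i j
    rw [← MU1_star he]
    exact star_mem (h1 j i)

theorem MU1_n2 (T : TW A H) (he : MU e) (i j : ι) (x : A) :
    T.n2 (MU1_F e i j x) ≤ Fintype.card ι * T.n2 x := by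
  refine (T.n2_sum_le _ _).trans ?_
  refine (Finset.sum_le_card_nsmul _ _ (T.n2 x) fun r _ => ?_).trans
    (by rw [Finset.card_univ, nsmul_eq_mul])
  have h0 := T.n2_nonneg x
  have h1 := T.n2_mul_right (e r i * x) (e j r)
  have h2 := T.n2_mul_left (e r i) x
  have h3 := mul_le_mul_of_nonneg_left (he.norm_le j r) (T.n2_nonneg (e r i * x))
  have h4 := mul_le_mul_of_nonneg_right (he.norm_le r i) h0
  linarith

theorem mem_W_of_cm (T : TW A H) (he : MU e) {S : Set A} (hS : ∀ s ∈ S, Cm e s) {x : A}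
    (hx : x ∈ T.W (mus e ∪ S)) (hc : Cm e x) : x ∈ T.W S := by
  rcases isEmpty_or_nonempty ι with hι | ⟨⟨i⟩⟩
  · have h1 : x = 0 := by rw [MU1_recon he x, Finset.univ_eq_empty, Finset.sum_empty]
    rw [h1]
    exact zero_mem _
  · refine T.mem_W_iff.2 fun ε hε => ?_
    have hm : (0 : ℝ) < Fintype.card ι := Nat.cast_pos.2 (Fintype.card_pos_iff.2 ⟨i⟩)
    obtain ⟨a, ha, h⟩ := T.mem_W_iff.1 hx (ε / Fintype.card ι) (div_pos hε hm)
    refine ⟨_, MU1_adjoin he hS ha i i, ?_⟩
    have h1 : x - MU1_F e i i a = MU1_F e i i (x - a) := by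
      rw [MU1_sub, MU1_of_cm he hc, if_pos rfl]
    rw [h1]
    exact (MU1_n2 T he i i _).trans_lt ((lt_div_iff₀' hm).1 h)

end Pool.Agent.TS
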