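import Pool.Agent.P.MP_e05717_an.MU1

/-!
Row TS-PartD. From an outer conjugacy to a corner isomorphism (paper (D)); pure algebra.
Hints: powers `θ₁ ^ k` in the group of star automorphisms or a recursively defined sequence of
automorphisms. If `hat 1` is subequivalent to `θ₁^k (σ (hat 1))` for all `k`, pull back by
`(θ₁^k ∘ σ)⁻¹`: `f k = σ⁻¹ θ₁^(-k) (hat 1)`, `v k` with `star (v k) * v k = f k`, `hat 1 * v k = v k`,
`δ k = τ (hat⁻¹ (v k * star (v k)))` satisfies `δ (k+1) = m δ k`, `0 < δ 0`, `δ k ≤ 1`. Otherwise take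
`w = star v`, `π x = hat⁻¹ (star w * σ' (hat x) * w)`, `hat b = star w * U' * θ₁ w`.
-/

open scoped ComplexOrder InnerProductSpace ComplexConjugate ENNReal
open Filter Topology Pool.Agent.P.MP_5d580a_an

set_option linter.unusedSectionVars false
set_option linter.unusedVariables false

noncomputable section

namespace Pool.Agent.TS

variable {A H : Type} [CStarAlgebra A] [NormedAddCommGroup H] [InnerProductSpace ℂ H]
  [CompleteSpace H]
variable {ι : Type} [Fintype ι] [DecidableEq ι]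

section Aux

variable {N : Type} [Ring N] [StarRing N] [Algebra ℂ N] [StarModule ℂ N]

theorem PartD_star_one (hat : A →⋆ₙₐ[ℂ] N) : star (hat 1) = hat 1 := by
  rw [← map_star, star_one]

theorem PartD_one_mul (hat : A →⋆ₙₐ[ℂ] N) (x : A) : hat 1 * hat x = hat x := by
  rw [← map_mul, one_mul]

theorem PartD_mul_one (hat : A →⋆ₙₐ[ℂ] N) (x : A) : hat x * hat 1 = hat x := by
  rw [← map_mul, mul_one]

theorem PartD_ne (T : TW A H) {hat : A →⋆ₙₐ[ℂ] N} (hi : Function.Injective hat) : hat 1 ≠ 0 := by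
  intro h
  have h1 : (1 : A) = 0 := hi (h.trans (map_zero hat).symm)
  have h2 := T.τ_one
  rw [h1, map_zero] at h2
  exact zero_ne_one h2

theorem PartD_pull {hat : A →⋆ₙₐ[ℂ] N} (hs : ∀ S : N, ∃ x, hat x = hat 1 * S * hat 1) {v w : N}
    (hv : hat 1 * v = v) (hw : hat 1 * w = w) (S : N) : ∃ x, hat x = v * S * star w := by
  obtain ⟨x, hx⟩ := hs (v * S * star w)
  have h2 : star w * hat 1 = star w := by
    rw [← PartD_star_one hat, ← star_mul, hw]
  refine ⟨x, hx.trans ?_⟩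
  rw [mul_assoc v, ← mul_assoc _ v, hv, mul_assoc, mul_assoc, h2]

theorem PartD_good (T : TW A H) {q : A} (hq : IsStarProjection q) (ρ₁ ρ₂ : A →⋆ₐ[ℂ] A)
    (hat : A →⋆ₙₐ[ℂ] N) (hi : Function.Injective hat)
    (hs : ∀ S : N, ∃ x, hat x = hat 1 * S * hat 1)
    (θ₁ θ₂ σ : N ≃⋆ₐ[ℂ] N) (h₁ : ∀ x, θ₁ (hat x) = hat (ρ₁ x * q))
    (h₂ : ∀ x, θ₂ (hat x) = hat (ρ₂ x * q)) {U : N} (hU : U ∈ unitary N)
    (hσ : ∀ y, σ (θ₂ y) = U * θ₁ (σ y) * star U) {v : N} (hv1 : hat 1 * v = v)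
    (hv2 : v * σ (hat 1) = v) (hv3 : star v * v = σ (hat 1)) :
    ∃ (π : A →⋆ₙₐ[ℂ] A) (b : A), π 1 ≠ 0 ∧ (∀ x, ∃ y, π y = π 1 * x * π 1) ∧
      star b * b = ρ₁ (π 1) * q ∧ ∀ x, b * ρ₁ (π x) * star b = π (ρ₂ x * q) := by
  choose g hg using fun x : A => PartD_pull hs hv1 hv1 (σ (hat x))
  have hUU : star U * U = 1 := Unitary.star_mul_self_of_mem hU
  have hUU' : U * star U = 1 := Unitary.mul_star_self_of_mem hU
  have hv4 : σ (hat 1) * star v = star v := by
    rw [← PartD_star_one hat, map_star, ← star_mul, hv2]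
  have hl : ∀ x, star v * v * σ (hat x) = σ (hat x) := fun x => by
    rw [hv3, ← map_mul, PartD_one_mul]
  have hr : ∀ x, σ (hat x) * (star v * v) = σ (hat x) := fun x => by
    rw [hv3, ← map_mul, PartD_mul_one]
  let π : A →⋆ₙₐ[ℂ] A :=
    { toFun := g
      map_smul' := fun c x => hi (by
        rw [MonoidHom.id_apply, map_smul, hg, hg, map_smul, map_smul, mul_smul_comm, smul_mul_assoc])
      map_zero' := hi (by rw [hg, map_zero, map_zero, mul_zero, zero_mul])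
      map_add' := fun x y => hi (by rw [map_add, hg, hg, hg, map_add, map_add, mul_add, add_mul])
      map_mul' := fun x y => hi (by
        rw [map_mul hat (g x), hg, hg, hg, map_mul, map_mul]
        calc _ = v * (σ (hat x) * (star v * v * σ (hat y))) * star v := by rw [hl]
          _ = _ := by simp only [mul_assoc])
      map_star' := fun x => hi (by
        rw [map_star, hg, hg, star_mul, star_mul, star_star, map_star, map_star, mul_assoc]) }
  have hπ : ∀ x, hat (π x) = v * σ (hat x) * star v := hg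
  have hπ1 : hat (π 1) = v * star v := by rw [hπ, hv2]
  have hθ : θ₁ (hat 1) = hat q := by rw [h₁, map_one, one_mul]
  have hvq : hat q * θ₁ v = θ₁ v := by rw [← hθ, ← map_mul, hv1]
  have hθv : hat 1 * θ₁ v = θ₁ v := by rw [← hvq, ← mul_assoc, PartD_one_mul]
  obtain ⟨b, hb⟩ := PartD_pull hs hv1 hθv U
  have hb' : hat (star b) = θ₁ v * star U * star v := by
    rw [map_star, hb, star_mul, star_mul, star_star, mul_assoc]
  have hc : θ₁ (σ (hat 1)) * star U = star U * σ (hat q) := by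
    have h := hσ (hat 1)
    rw [h₂, map_one, one_mul] at h
    rw [h, ← mul_assoc, ← mul_assoc, hUU, one_mul]
  refine ⟨π, b, fun h0 => ?_, fun x => ?_, hi ?_, fun x => hi ?_⟩
  · rw [h0, map_zero] at hπ1
    have h1 : σ (hat 1) = 0 := by
      rw [← hl 1, ← hv3, mul_assoc, ← mul_assoc v, ← hπ1, zero_mul, mul_zero]
    exact PartD_ne T hi (EquivLike.injective σ (h1.trans (map_zero σ).symm))
  · obtain ⟨y, hy⟩ := hs (σ.symm (star v * hat x * v))
    refine ⟨y, hi ?_⟩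
    rw [hπ, hy, map_mul, map_mul, StarAlgEquiv.apply_symm_apply, map_mul, map_mul, hπ1]
    simp only [← mul_assoc]
    rw [hv2, mul_assoc _ v (σ _), hv2]
  · have h3 : θ₁ v * θ₁ (σ (hat 1)) = θ₁ v := by rw [← map_mul, hv2]
    have h4 : θ₁ v * star U * σ (hat 1) = θ₁ v * star U := by
      rw [← h3, mul_assoc _ _ (star U), hc, mul_assoc, mul_assoc, ← map_mul, PartD_mul_one]
    rw [map_mul, hb', hb, ← h₁, hπ1, map_mul, map_star]
    simp only [← mul_assoc]
    rw [mul_assoc _ (star v) v, hv3, h4, mul_assoc _ (star U), hUU, mul_one]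
  · have h5 : hat (ρ₁ (π x)) * θ₁ v = θ₁ (v * σ (hat x) * star v) * θ₁ v := by
      rw [← hπ, h₁, map_mul, mul_assoc, hvq]
    have h6 : star (θ₁ v) * (θ₁ (v * σ (hat x) * star v) * θ₁ v) = θ₁ (σ (hat x)) := by
      rw [← map_star, ← map_mul, ← map_mul, mul_assoc, mul_assoc, hr, ← mul_assoc, hl]
    rw [map_mul, map_mul, hb', hb, hπ, ← h₂, hσ, ← h6, ← h5]
    simp only [mul_assoc]

theorem PartD_step (T : TW A H) {e : ι → ι → A} (he : MU e) (i₀ : ι) (hat : A →⋆ₙₐ[ℂ] N)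
    (hi : Function.Injective hat) (hs : ∀ S : N, ∃ x, hat x = hat 1 * S * hat 1)
    (ψ : N ≃⋆ₐ[ℂ] N) {v v' : N} (hv : hat 1 * v = v) (hv' : hat 1 * v' = v')
    (h1 : v * ψ (hat 1) = v) (h1' : v' * ψ (hat (e i₀ i₀)) = v')
    (h2 : star v * v = ψ (hat 1)) (h2' : star v' * v' = ψ (hat (e i₀ i₀))) {a a' : A}
    (ha : hat a = v * star v) (ha' : hat a' = v' * star v') :
    T.τ a = (Fintype.card ι : ℂ) * T.τ a' := by
  choose x hx using fun i => PartD_pull hs hv hv' (ψ (hat (e i i₀)))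
  choose y hy using fun i => PartD_pull hs hv' hv (ψ (hat (e i₀ i)))
  have hm : ∀ c d : A, ψ (hat c) * ψ (hat d) = ψ (hat (c * d)) := fun c d => by
    rw [map_mul, map_mul]
  have e0 : v = ∑ i, v * ψ (hat (e i i)) := by
    rw [← Finset.mul_sum, ← map_sum, ← map_sum, he.sum, h1]
  have e1 : a = ∑ i, x i * y i := hi (by
    rw [ha, map_sum, (congrArg (· * star v) e0 :), Finset.sum_mul]
    refine Finset.sum_congr rfl fun i _ => ?_
    rw [map_mul, hx, hy]
    calc _ = v * (ψ (hat (e i i₀)) * (star v' * v') * ψ (hat (e i₀ i))) * star v := by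
          rw [h2', hm, hm, he.mul_same, he.mul_same]
      _ = _ := by simp only [mul_assoc])
  have e2 : ∀ i, y i * x i = a' := fun i => hi (by
    rw [map_mul, hx, hy, ha']
    calc _ = v' * (ψ (hat (e i₀ i)) * (star v * v) * ψ (hat (e i i₀))) * star v' := by
          simp only [mul_assoc]
      _ = _ := by rw [h2, hm, hm, mul_one, he.mul_same, h1'])
  rw [e1, map_sum, Finset.sum_congr rfl fun i _ => (T.τ_comm (x i) (y i)).trans (congrArg _ (e2 i)),
    Finset.sum_const, Finset.card_univ, nsmul_eq_mul]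

end Aux

theorem partD {N : Type} [Ring N] [StarRing N] [Algebra ℂ N] [StarModule ℂ N] (T : TW A H)
    {e : ι → ι → A} (he : MU e) (h2 : 2 ≤ Fintype.card ι) (i₀ : ι) (ρ₁ ρ₂ : A →⋆ₐ[ℂ] A)
    (hat : A →⋆ₙₐ[ℂ] N) (hi : Function.Injective hat)
    (hs : ∀ S : N, ∃ x, hat x = hat 1 * S * hat 1)
    (hc : ∀ f : N, IsStarProjection f →
      ∃ v : N, hat 1 * v = v ∧ v * f = v ∧ (v * star v = hat 1 ∨ star v * v = f))
    (θ₁ θ₂ σ : N ≃⋆ₐ[ℂ] N) (h₁ : ∀ x, θ₁ (hat x) = hat (ρ₁ x * e i₀ i₀))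
    (h₂ : ∀ x, θ₂ (hat x) = hat (ρ₂ x * e i₀ i₀)) {U : N} (hU : U ∈ unitary N)
    (hσ : ∀ x, σ (θ₂ (σ.symm x)) = U * θ₁ x * star U) :
    ∃ (π : A →⋆ₙₐ[ℂ] A) (b : A), π 1 ≠ 0 ∧ (∀ x, ∃ y, π y = π 1 * x * π 1) ∧
      star b * b = ρ₁ (π 1) * e i₀ i₀ ∧
      ∀ x, b * ρ₁ (π x) * star b = π (ρ₂ x * e i₀ i₀) := by
  let s : ℕ → (N ≃⋆ₐ[ℂ] N) := fun k => Nat.rec σ (fun _ t => t.trans θ₁) k
  have hsucc : ∀ k y, s (k + 1) y = θ₁ (s k y) := fun _ _ => rfl
  have hUk : ∀ k, ∃ V ∈ unitary N, ∀ y, s k (θ₂ y) = V * θ₁ (s k y) * star V := by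
    intro k
    induction k with
    | zero =>
      refine ⟨U, hU, fun y => ?_⟩
      have h := hσ (σ y)
      rw [StarAlgEquiv.symm_apply_apply] at h
      exact h
    | succ k ih =>
      obtain ⟨V, hV, h⟩ := ih
      refine ⟨θ₁ V, ?_, fun y => ?_⟩
      · rw [Unitary.mem_iff, ← map_star, ← map_mul, ← map_mul, Unitary.star_mul_self_of_mem hV,
          Unitary.mul_star_self_of_mem hV, map_one]
        exact ⟨rfl, rfl⟩
      · rw [hsucc, hsucc, h, map_mul, map_mul, map_star]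
  have hp : ∀ k, IsStarProjection (s k (hat 1)) := fun k =>
    ⟨by rw [IsIdempotentElem, ← map_mul, PartD_one_mul],
      by rw [IsSelfAdjoint, ← map_star, PartD_star_one]⟩
  choose v hv1 hv2 hv3 using fun k => hc _ (hp k)
  by_cases hA : ∃ k, star (v k) * v k = s k (hat 1)
  · obtain ⟨k, hk⟩ := hA
    obtain ⟨V, hV, h⟩ := hUk k
    exact PartD_good T (he.proj i₀) ρ₁ ρ₂ hat hi hs θ₁ θ₂ (s k) h₁ h₂ hV h (hv1 k) (hv2 k) hk
  exfalso
  have hB : ∀ k, v k * star (v k) = hat 1 := fun k =>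
    (hv3 k).resolve_right fun h => hA ⟨k, h⟩
  let w : ℕ → N := fun k => (s k).symm (star (v k))
  have hw : ∀ k, s k (w k) = star (v k) := fun k => StarAlgEquiv.apply_symm_apply _ _
  have hw1 : ∀ k, hat 1 * w k = w k := fun k => EquivLike.injective (s k) (by
    rw [map_mul, hw, ← (hp k).isSelfAdjoint.star_eq, ← star_mul, hv2])
  have hw2 : ∀ k, w k * (s k).symm (hat 1) = w k := fun k => EquivLike.injective (s k) (by
    rw [map_mul, hw, StarAlgEquiv.apply_symm_apply, ← PartD_star_one hat, ← star_mul, hv1])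
  have hw3 : ∀ k, star (w k) * w k = (s k).symm (hat 1) := fun k => EquivLike.injective (s k) (by
    rw [map_mul, map_star, hw, star_star, StarAlgEquiv.apply_symm_apply, hB])
  have hf : ∀ k, (s k).symm (hat 1) = (s (k + 1)).symm (hat (e i₀ i₀)) := fun k =>
    EquivLike.injective (s (k + 1)) (by
      rw [StarAlgEquiv.apply_symm_apply, hsucc, StarAlgEquiv.apply_symm_apply, h₁, map_one, one_mul])
  choose a ha using fun k => PartD_pull hs (hw1 k) (hw1 k) 1
  simp only [mul_one] at ha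
  have hpa : ∀ k, IsStarProjection (a k) := fun k =>
    ⟨hi (by rw [map_mul, ha, mul_assoc, ← mul_assoc (star (w k)), hw3, ← mul_assoc, hw2]),
      hi (by rw [map_star, ha, star_mul, star_star])⟩
  have hstep : ∀ k, T.n2 (a (k + 1)) ^ 2 = (Fintype.card ι : ℝ) * T.n2 (a k) ^ 2 := fun k => by
    have h := PartD_step T he i₀ hat hi hs (s (k + 1)).symm (hw1 (k + 1)) (hw1 k) (hw2 (k + 1))
      (hf k ▸ hw2 k) (hw3 (k + 1)) (hf k ▸ hw3 k) (ha (k + 1)) (ha k)
    rw [T.τ_proj (hpa _), T.τ_proj (hpa _)] at h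
    exact_mod_cast h
  have hpos : 0 < T.n2 (a 0) ^ 2 := by
    refine pow_pos (lt_of_le_of_ne (T.n2_nonneg _) fun h => ?_) 2
    have h0 := ha 0
    rw [T.n2_eq_zero.1 h.symm, map_zero] at h0
    have h1 : (s 0).symm (hat 1) = 0 := by
      have h3 := hw2 0
      rw [← hw3 0, ← mul_assoc, ← h0, zero_mul] at h3
      rw [← hw3 0, ← h3, mul_zero]
    exact PartD_ne T hi (EquivLike.injective (s 0).symm (h1.trans (map_zero _).symm))
  have hle : ∀ k, T.n2 (a k) ^ 2 ≤ 1 := fun k =>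
    pow_le_one₀ (T.n2_nonneg _) ((T.n2_le_norm _).trans (hpa k).norm_le)
  have hm : (2 : ℝ) ≤ Fintype.card ι := by exact_mod_cast h2
  have hge : ∀ k : ℕ, (k + 1) * T.n2 (a 0) ^ 2 ≤ T.n2 (a k) ^ 2 := by
    intro k
    induction k with
    | zero => simp
    | succ k ih =>
      rw [hstep]
      push_cast
      have hk : (0 : ℝ) ≤ k := Nat.cast_nonneg k
      nlinarith [mul_nonneg hk hpos.le, mul_le_mul_of_nonneg_right hm (sq_nonneg (T.n2 (a k)))]
  obtain ⟨k, hk⟩ := exists_nat_gt (1 / T.n2 (a 0) ^ 2)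
  rw [div_lt_iff₀ hpos] at hk
  nlinarith [hge k, hle k]

end Pool.Agent.TS
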