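import Pool.Agent.P.MP_e05717_an.Gap0

/-!
Row TS-Rho. The shift, the embedding in the double and the rotation (paper section 2).
Hints: `exists_hom` with `match_tower` (or `match_diag`) and `Circ.match`. For `exists_rho` the target
family is `Circ.ent` reindexed by `par` (`Circ.sub`), over `rel (e 0) (base e)` which contains the
`e (k+1) i j`; range: `Cm.W`, `W_ent`, `mem_W_of_cm`. For `exists_double` use `exists_rho` twice (the
parent map of the double keeps the copy index), `Circ.rot`, `IsModel.ext` for all identities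
(`ent_map`, `ent_add`, `ent_smul`, addition formulas); continuity: norm continuous on the adjoin
(induction), then uniform approximation in the 2-norm.
-/

open scoped ComplexOrder InnerProductSpace ComplexConjugate ENNReal
open Filter Topology Pool.Agent.P.MP_5d580a_an

set_option linter.unusedSectionVars false
set_option linter.unusedVariables false

noncomputable section

namespace Pool.Agent.TS

variable {A H : Type} [CStarAlgebra A] [NormedAddCommGroup H] [InnerProductSpace ℂ H]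
  [CompleteSpace H]
variable {A' H' : Type} [CStarAlgebra A'] [NormedAddCommGroup H'] [InnerProductSpace ℂ H']
  [CompleteSpace H']
variable {ι : Type} [Fintype ι] [DecidableEq ι]

variable {T : TW A H} {e : ℕ → ι → ι → A} {Λ : Type} {c : Λ → A} {ℓ r : Λ × Bool → (H →L[ℂ] H)}

theorem IsModel.ext (h : IsModel T e c ℓ r) {T' : TW A' H'} {φ ψ : A →⋆ₐ[ℂ] A'} (hφ : TP T T' φ)
    (hψ : TP T T' ψ) (h1 : ∀ k i j, φ (e k i j) = ψ (e k i j)) (h2 : ∀ l, φ (c l) = ψ (c l))
    (x : A) : φ x = ψ x := by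
  refine hφ.ext_W hψ (S := alle e ∪ Set.range c) ?_ x (by rw [h.gen]; trivial)
  rintro _ (⟨k, i, j, rfl⟩ | ⟨l, rfl⟩)
  · exact h1 k i j
  · exact h2 l

/-- homomorphisms out of a model -/
theorem Rho_hom (h : IsModel T e c ℓ r) {T' : TW A' H'} {f : ℕ → ι → ι → A'} (hf : Tower f)
    {D' : StarSubalgebra ℂ A'} (hD : ∀ k i j, f k i j ∈ D') {d : Λ → A'} (hd : Circ T' D' d) :
    ∃ φ : A →⋆ₐ[ℂ] A', TP T T' φ ∧ (∀ k i j, φ (e k i j) = f k i j) ∧ (∀ l, φ (c l) = d l) ∧
      (∀ x, φ x ∈ T'.W (alle f ∪ Set.range d)) ∧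
      ∀ y ∈ T'.W (alle f ∪ Set.range d), ∃ x, φ x = y := by
  have hm := h.circ.match hd (match_tower (T := T) (T' := T') h.tower hf) (by
    rintro _ ⟨k, i, j, rfl⟩
    exact ⟨unit_mem_base e k i j, hD k i j⟩)
  have e1 : Prod.fst '' ({p : A × A' | ∃ k i j, p = (e k i j, f k i j)} ∪
      Set.range fun l => (c l, d l)) = alle e ∪ Set.range c := by
    ext x
    constructor
    · rintro ⟨_, ⟨k, i, j, rfl⟩ | ⟨l, rfl⟩, rfl⟩
      · exact Or.inl ⟨k, i, j, rfl⟩
      · exact Or.inr ⟨l, rfl⟩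
    · rintro (⟨k, i, j, rfl⟩ | ⟨l, rfl⟩)
      · exact ⟨_, Or.inl ⟨k, i, j, rfl⟩, rfl⟩
      · exact ⟨_, Or.inr ⟨l, rfl⟩, rfl⟩
  have e2 : Prod.snd '' ({p : A × A' | ∃ k i j, p = (e k i j, f k i j)} ∪
      Set.range fun l => (c l, d l)) = alle f ∪ Set.range d := by
    ext x
    constructor
    · rintro ⟨_, ⟨k, i, j, rfl⟩ | ⟨l, rfl⟩, rfl⟩
      · exact Or.inl ⟨k, i, j, rfl⟩
      · exact Or.inr ⟨l, rfl⟩
    · rintro (⟨k, i, j, rfl⟩ | ⟨l, rfl⟩)
      · exact ⟨_, Or.inl ⟨k, i, j, rfl⟩, rfl⟩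
      · exact ⟨_, Or.inr ⟨l, rfl⟩, rfl⟩
  obtain ⟨φ, h1, h2, h3, h4⟩ := exists_hom hm (e1 ▸ h.gen)
  rw [e2] at h3 h4
  exact ⟨φ, h1, fun k i j => h2 _ (Or.inl ⟨k, i, j, rfl⟩), fun l => h2 _ (Or.inr ⟨l, rfl⟩), h3, h4⟩

theorem Rho_nonempty (T : TW A H) {f : ι → ι → A} (hf : MU f) : Nonempty ι := by
  by_contra hι
  rw [not_nonempty_iff] at hι
  have h1 := hf.sum
  rw [Finset.univ_eq_empty, Finset.sum_empty] at h1
  have h2 := T.norm_one
  rw [← h1, norm_zero] at h2
  exact zero_ne_one h2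

theorem exists_rho (h : IsModel T e c ℓ r) (par : Λ ≃ Λ × ι × ι) : ∃ ρ, IsRho T e c par ρ := by
  have he := h.tower.mu 0
  have := Rho_nonempty T he
  have hcm : ∀ k i j, Cm (e 0) (e (k + 1) i j) := fun k =>
    h.tower.comm 0 (k + 1) (Nat.succ_ne_zero k).symm
  obtain ⟨ρ, h1, h2, h3, h4, h5⟩ := Rho_hom h h.tower.shift
    (fun k i j => (mem_rel he).2 ⟨unit_mem_base e (k + 1) i j, hcm k i j⟩)
    ((h.circ.ent he (unit_mem_base e 0)).sub par par.injective)
  have hS : ∀ s ∈ alle (fun k => e (k + 1)) ∪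
      Set.range fun l => ent (e 0) (par l).2.1 (par l).2.2 (c (par l).1), Cm (e 0) s := by
    rintro _ (⟨k, i, j, rfl⟩ | ⟨l, rfl⟩)
    · exact hcm k i j
    · exact ent_cm he _ _ _
  refine ⟨ρ, h1, h2, h3, fun x => ⟨fun hx => h5 x (mem_W_of_cm T he hS ?_ hx), ?_⟩⟩
  · have e1 : alle e = mus (e 0) ∪ alle fun k => e (k + 1) := by
      ext y
      constructor
      · rintro ⟨_ | k, i, j, rfl⟩
        · exact Or.inl ⟨i, j, rfl⟩
        · exact Or.inr ⟨k, i, j, rfl⟩
      · rintro (⟨i, j, rfl⟩ | ⟨k, i, j, rfl⟩)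
        · exact ⟨0, i, j, rfl⟩
        · exact ⟨k + 1, i, j, rfl⟩
    have e2 : (Set.range fun l => ent (e 0) (par l).2.1 (par l).2.2 (c (par l).1)) =
        Set.range fun p : Λ × ι × ι => ent (e 0) p.2.1 p.2.2 (c p.1) :=
      par.surjective.range_comp fun p : Λ × ι × ι => ent (e 0) p.2.1 p.2.2 (c p.1)
    rw [← Set.union_assoc, e2, ← W_ent T he, ← e1, h.gen]
    trivial
  · rintro ⟨y, rfl⟩
    exact Cm.W T he hS _ (h4 y)

/-- the parent map of the double -/
def Rho_par (par : Λ ≃ Λ × ι × ι) : Λ × Bool ≃ (Λ × Bool) × ι × ι where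
  toFun p := (((par p.1).1, p.2), (par p.1).2)
  invFun q := (par.symm (q.1.1, q.2), q.1.2)
  left_inv p := by simp
  right_inv q := by simp

theorem Rho_rot_zero (c : Λ × Bool → A) (p : Λ × Bool) : rot 0 c p = c p := by
  rcases p with ⟨l, _ | _⟩ <;> simp [rot]

theorem Rho_rot_add (φ : A →⋆ₐ[ℂ] A) (c : Λ × Bool → A) (s t : ℝ) (hφ : ∀ p, φ (c p) = rot s c p)
    (p : Λ × Bool) : φ (rot t c p) = rot (s + t) c p := by
  rcases p with ⟨l, _ | _⟩ <;>
    simp only [rot, cond_true, cond_false, map_add, map_smul, hφ, Real.cos_add, Real.sin_add] <;>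
    push_cast <;> module

theorem Rho_rot_cont (c : Λ × Bool → A) (p : Λ × Bool) : Continuous fun t => rot t c p := by
  rcases p with ⟨l, _ | _⟩ <;> simp only [rot, cond_true, cond_false] <;> fun_prop

theorem Rho_cont {S : Set A} (hS : T.W S = ⊤) (α : ℝ → (A →⋆ₐ[ℂ] A)) (hα : ∀ t, TP T T (α t))
    (hc : ∀ s ∈ S, Continuous fun t => α t s) (x : A) : Continuous fun t => T.v (α t x) := by
  have h1 : ∀ a ∈ StarAlgebra.adjoin ℂ S, Continuous fun t => α t a := by
    intro a ha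
    induction ha using StarAlgebra.adjoin_induction with
    | mem x hx => exact hc x hx
    | algebraMap r =>
      simp only [AlgHomClass.commutes]
      exact continuous_const
    | add x y _ _ h1 h2 =>
      simp only [map_add]
      exact h1.add h2
    | mul x y _ _ h1 h2 =>
      simp only [map_mul]
      exact h1.mul h2
    | star x _ h1 =>
      simp only [map_star]
      exact h1.star
  refine continuous_of_uniform_approx_of_continuous fun u hu => ?_
  obtain ⟨ε, hε, hu⟩ := Metric.mem_uniformity_dist.1 hu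
  obtain ⟨a, ha, h2⟩ := T.mem_W_iff.1 (show x ∈ T.W S by rw [hS]; trivial) ε hε
  refine ⟨fun t => T.v (α t a), T.continuous_v.comp (h1 a ha), fun t => hu ?_⟩
  rw [dist_eq_norm, ← map_sub, ← map_sub, ← T.n2_def, (hα t).n2]
  exact h2

theorem exists_double (h : IsModel T e c ℓ r) {T' : TW A' H'} {e' : ℕ → ι → ι → A'}
    {c' : Λ × Bool → A'} {ℓ' r' : (Λ × Bool) × Bool → (H' →L[ℂ] H')}
    (h' : IsModel T' e' c' ℓ' r') {par : Λ ≃ Λ × ι × ι} {ρ₁ : A →⋆ₐ[ℂ] A}
    (hρ : IsRho T e c par ρ₁) : ∃ ρ' ι' α, Dbl T T' e e' c c' ρ₁ ρ' ι' α := by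
  obtain ⟨ρ', hρ'⟩ := exists_rho h' (Rho_par par)
  have hl : ∀ l b, ρ' (c' (l, b)) = ent (e' 0) (par l).2.1 (par l).2.2 (c' ((par l).1, b)) :=
    fun l b => hρ'.letter (l, b)
  obtain ⟨ι', i1, i2, i3, -⟩ := Rho_hom h h'.tower (unit_mem_base e')
    (h'.circ.sub (fun l => (l, false)) fun a b hab => congrArg Prod.fst hab)
  choose α a1 a2 a3 _ using fun t => Rho_hom h' h'.tower (unit_mem_base e') (h'.circ.rot t)
  refine ⟨ρ', ι', α, hρ'.tp, fun x => (hρ'.range _).2 ⟨x, rfl⟩, i1, i2, i3, ?_, a1, a2,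
    fun t => ?_, ?_, fun s t => ?_, ?_, fun l => ?_⟩
  · refine h.ext (hρ'.tp.comp i1) (i1.comp hρ.tp) (fun k i j => ?_) fun l => ?_
    · simp only [StarAlgHom.comp_apply, i2, hρ'.unit, hρ.unit]
    · simp only [StarAlgHom.comp_apply, i2, i3, hl, hρ.letter, ent_map]
  · refine h'.ext ((a1 t).comp hρ'.tp) (hρ'.tp.comp (a1 t)) (fun k i j => ?_) fun p => ?_
    · simp only [StarAlgHom.comp_apply, a2, hρ'.unit]
    · rcases p with ⟨l, _ | _⟩ <;>
        simp only [StarAlgHom.comp_apply, a2, a3, hl, ent_map, rot, cond_true, cond_false,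
          map_add, map_smul, ent_add, ent_smul]
  · exact h'.ext (a1 0) (TP.id T') (a2 0) fun p => (a3 0 p).trans (Rho_rot_zero c' p)
  · refine h'.ext ((a1 s).comp (a1 t)) (a1 (s + t)) (fun k i j => ?_) fun p => ?_
    · simp only [StarAlgHom.comp_apply, a2]
    · rw [StarAlgHom.comp_apply, a3, a3, Rho_rot_add (α s) c' s t (a3 s)]
  · refine Rho_cont h'.gen α a1 ?_
    rintro _ (⟨k, i, j, rfl⟩ | ⟨p, rfl⟩)
    · simp only [a2]
      exact continuous_const
    · simp only [a3]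
      exact Rho_rot_cont c' p
  · rw [a3]
    simp [rot]

end Pool.Agent.TS
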