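import Pool.Agent.P.MP_e05717_an.Cmp
import Pool.Agent.P.MP_e05717_an.Lp

/-!
Row TS-NAlg. The algebra `N = A ⊗ B(ℓ²)` as a commutant, its corner, comparison, and the description as
a double commutant for the free group factor.
Hints: `hat x = amp (L x) * eu 0 0`; the corner of `S` is `evL 0 ∘ S ∘ sgL 0`, it commutes with `R`.
`compare_N`: `vnOf (range fun y => amp (R y))` is a factor by `isFactor_of_center`, `eq_amp_of_comm`,
`T.full`; vector `sg 0 Ω`. `isN_NN`: an element of `Gen` is `amp (L (lift u g)) * eu i j` (two ext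
lemmas); an element of the commutant of `Gen` is `amp S₀` with `S₀` commuting with `L` (`comm_L_W`),
so `S₀ = R y` (`full_R`).
-/

open scoped ComplexOrder InnerProductSpace ComplexConjugate ENNReal
open Filter Topology Pool.Agent.P.MP_5d580a_an

set_option linter.unusedSectionVars false
set_option linter.unusedVariables false

noncomputable section

namespace Pool.Agent.TS

variable {A H : Type} [CStarAlgebra A] [NormedAddCommGroup H] [InnerProductSpace ℂ H]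
  [CompleteSpace H]

/-- `N` is the commutant of the amplified right action -/
def IsN (T : TW A H) (N : StarSubalgebra ℂ (LP ℕ H →L[ℂ] LP ℕ H)) : Prop :=
  ∀ S, S ∈ N ↔ ∀ y, S * amp ℕ H (T.R y) = amp ℕ H (T.R y) * S

/-- the semifinite trace -/
def trN (Ω : H) (S : LP ℕ H →L[ℂ] LP ℕ H) : ℝ≥0∞ :=
  ∑' n : ℕ, ENNReal.ofReal (⟪sg n Ω, S (sg n Ω)⟫_ℂ).re

/-- the corner embedding -/
def IsHat (T : TW A H) {N : StarSubalgebra ℂ (LP ℕ H →L[ℂ] LP ℕ H)} (hat : A →⋆ₙₐ[ℂ] N) : Prop :=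
  ∀ x ξ, (hat x : LP ℕ H →L[ℂ] LP ℕ H) ξ = sg 0 (T.L x (ξ 0))

variable {T : TW A H} {N : StarSubalgebra ℂ (LP ℕ H →L[ℂ] LP ℕ H)}

theorem NAlg_amp (hN : IsN T N) (x : A) : amp ℕ H (T.L x) ∈ N :=
  (hN _).2 fun y => by rw [← map_mul, ← map_mul, T.L_R]
theorem NAlg_eu (hN : IsN T N) (i j : ℕ) : eu H i j ∈ N :=
  (hN _).2 fun y => (amp_eu _ i j).symm
theorem NAlg_eu_mul (i : ℕ) : eu H i i * eu H i i = eu H i i :=
  ContinuousLinearMap.ext fun ξ => by
    rw [mul_apply_eq_comp, eu_apply i i ξ, eu_sg, if_pos rfl]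
theorem NAlg_sg_self {X : Type} [DecidableEq X] (i : X) (ξ : H) : sg i ξ i = ξ := by
  rw [sg_apply, if_pos rfl]

theorem IsN.entry (hN : IsN T N) (S : N) (m n : ℕ) :
    ∃ x, ∀ ξ, (S : LP ℕ H →L[ℂ] LP ℕ H) (sg n ξ) m = T.L x ξ := by
  have e : ∀ ξ, ((evL m).comp ((S : LP ℕ H →L[ℂ] LP ℕ H).comp (sgL n))) ξ =
      (S : LP ℕ H →L[ℂ] LP ℕ H) (sg n ξ) m := fun ξ => by
    rw [ContinuousLinearMap.comp_apply, ContinuousLinearMap.comp_apply, evL_apply, sgL_apply]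
  obtain ⟨x, hx⟩ := T.full ((evL m).comp ((S : LP ℕ H →L[ℂ] LP ℕ H).comp (sgL n))) fun y =>
    ContinuousLinearMap.ext fun ξ => by
      rw [mul_apply_eq_comp, mul_apply_eq_comp, e, e, ← amp_sg, ← mul_apply_eq_comp,
        (hN _).1 S.2 y, mul_apply_eq_comp, amp_apply]
  exact ⟨x, fun ξ => by rw [hx, e]⟩
theorem exists_hat (hN : IsN T N) : ∃ hat : A →⋆ₙₐ[ℂ] N, IsHat T hat := by
  refine ⟨{ toFun := fun x => ⟨amp ℕ H (T.L x) * eu H 0 0, mul_mem (NAlg_amp hN x) (NAlg_eu hN 0 0)⟩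
            map_smul' := fun c x => Subtype.ext ?_
            map_zero' := Subtype.ext ?_
            map_add' := fun x y => Subtype.ext ?_
            map_mul' := fun x y => Subtype.ext ?_
            map_star' := fun x => Subtype.ext ?_ }, fun x ξ => ?_⟩
  · change amp ℕ H (T.L (c • x)) * eu H 0 0 = c • (amp ℕ H (T.L x) * eu H 0 0)
    rw [map_smul, map_smul, smul_mul_assoc]
  · change amp ℕ H (T.L 0) * eu H 0 0 = 0
    rw [map_zero, map_zero, zero_mul]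
  · change amp ℕ H (T.L (x + y)) * eu H 0 0 =
      amp ℕ H (T.L x) * eu H 0 0 + amp ℕ H (T.L y) * eu H 0 0
    rw [map_add, map_add, add_mul]
  · change amp ℕ H (T.L (x * y)) * eu H 0 0 =
      amp ℕ H (T.L x) * eu H 0 0 * (amp ℕ H (T.L y) * eu H 0 0)
    rw [map_mul, map_mul, mul_assoc, mul_assoc, ← mul_assoc (eu H 0 0), ← amp_eu, mul_assoc,
      NAlg_eu_mul]
  · change amp ℕ H (T.L (star x)) * eu H 0 0 = star (amp ℕ H (T.L x) * eu H 0 0)
    rw [star_mul, star_eu, ← map_star, ← map_star, amp_eu]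
  · change amp ℕ H (T.L x) (eu H 0 0 ξ) = _
    rw [eu_apply, amp_sg]
theorem IsHat.inj {hat : A →⋆ₙₐ[ℂ] N} (h : IsHat T hat) : Function.Injective hat := by
  intro x y e
  have h1 := h x (sg 0 T.Ω)
  rw [e, h y, NAlg_sg_self] at h1
  refine T.v_inj ?_
  rw [T.v_def, T.v_def, ← NAlg_sg_self 0 (T.L x T.Ω), ← h1, NAlg_sg_self]
theorem IsHat.sur (hN : IsN T N) {hat : A →⋆ₙₐ[ℂ] N} (h : IsHat T hat) (S : N) :
    ∃ x, hat x = hat 1 * S * hat 1 := by
  obtain ⟨x, hx⟩ := hN.entry S 0 0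
  refine ⟨x, Subtype.ext (ContinuousLinearMap.ext fun ξ => ?_)⟩
  rw [MulMemClass.coe_mul, MulMemClass.coe_mul, mul_apply_eq_comp, mul_apply_eq_comp, h, h, h, hx,
    map_one]
  rfl
theorem NAlg_vn (hN : IsN T N) {S : LP ℕ H →L[ℂ] LP ℕ H} :
    S ∈ vnOf (Set.range fun y => amp ℕ H (T.R y)) ↔ S ∈ N := by
  rw [mem_vnOf, hN]
  constructor
  · exact fun h y => (h _ ⟨y, rfl⟩).1.symm
  · rintro h _ ⟨y, rfl⟩
    exact ⟨(h y).symm, by rw [← map_star, ← T.R_star, h]⟩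
theorem NAlg_factor (hN : IsN T N) (hc : Cen A) :
    IsFactor (vnOf (Set.range fun y => amp ℕ H (T.R y))) := by
  refine isFactor_of_center fun z hz hz' hp => ?_
  rw [VonNeumannAlgebra.mem_commutant_iff] at hz'
  obtain ⟨S, rfl⟩ := eq_amp_of_comm 0 fun i j => (hz' _ ((NAlg_vn hN).2 (NAlg_eu hN i j))).symm
  obtain ⟨x, rfl⟩ := T.full S fun y => amp_inj 0 (by
    rw [map_mul, map_mul]
    exact (hN _).1 ((NAlg_vn hN).1 hz) y)
  obtain ⟨c, rfl⟩ := hc x fun y => T.L_inj (amp_inj 0 (by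
    rw [map_mul, map_mul, map_mul, map_mul]
    exact (hz' _ ((NAlg_vn hN).2 (NAlg_amp hN y))).symm))
  have h1 := hp.isIdempotentElem.eq
  rw [← map_mul, ← map_mul] at h1
  have h2 := congrArg T.τ (T.L_inj (amp_inj 0 h1))
  rw [smul_mul_smul_comm, mul_one, map_smul, map_smul, T.τ_one, smul_eq_mul, smul_eq_mul, mul_one,
    mul_one, mul_left_eq_self₀] at h2
  rcases h2 with rfl | rfl
  · exact Or.inr (by rw [one_smul, map_one, map_one])
  · exact Or.inl (by rw [zero_smul, map_zero, map_zero])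
theorem compare_N (hN : IsN T N) (hc : Cen A) {hat : A →⋆ₙₐ[ℂ] N} (h : IsHat T hat) {f : N}
    (hf : IsStarProjection f) :
    ∃ v : N, hat 1 * v = v ∧ v * f = v ∧ (v * star v = hat 1 ∨ star v * v = f) := by
  have pr : ∀ {g : N}, IsStarProjection g → IsStarProjection (g : LP ℕ H →L[ℂ] LP ℕ H) :=
    fun hg => ⟨congrArg Subtype.val hg.isIdempotentElem.eq,
      congrArg Subtype.val hg.isSelfAdjoint.star_eq⟩
  have h1 : IsStarProjection (hat 1) :=
    ⟨by rw [IsIdempotentElem, ← map_mul, mul_one], by rw [IsSelfAdjoint, ← map_star, star_one]⟩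
  obtain ⟨v, hv, a1, a2, a3⟩ := compare (NAlg_factor hN hc) ((NAlg_vn hN).2 (hat 1).2) (pr h1)
    ((NAlg_vn hN).2 f.2) (pr hf) (sg 0 T.Ω) fun x hx e1 e2 => by
      refine ContinuousLinearMap.ext fun ξ => lp.ext (funext fun m => ?_)
      obtain ⟨a, ha⟩ := hN.entry ⟨x, (NAlg_vn hN).1 hx⟩ m 0
      have ha' : ∀ ξ, x (sg 0 ξ) m = T.L a ξ := ha
      have h0 : a = 0 := T.sep a (by rw [← ha', e2]; rfl)
      rw [← e1, mul_apply_eq_comp, h, ha', h0, map_zero]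
      rfl
  exact ⟨⟨v, (NAlg_vn hN).1 hv⟩, Subtype.ext a1, Subtype.ext a2,
    a3.imp (fun e => Subtype.ext e) fun e => Subtype.ext e⟩

/-- basis vectors of `ℓ²(ℕ; ℓ²(F))` -/
def dl (n : ℕ) (g : FreeGroup ℕ) : LP ℕ (LP (FreeGroup ℕ) ℂ) := sg n (sg g 1)

/-- the operators `λ(g) ⊗ E i j` -/
def Gen : Set (LP ℕ (LP (FreeGroup ℕ) ℂ) →L[ℂ] LP ℕ (LP (FreeGroup ℕ) ℂ)) :=
  {S | ∃ (g : FreeGroup ℕ) (i j : ℕ), ∀ n h, S (dl n h) = if n = j then dl i (g * h) else 0}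

/-- the double commutant of the generators -/
def NN : StarSubalgebra ℂ (LP ℕ (LP (FreeGroup ℕ) ℂ) →L[ℂ] LP ℕ (LP (FreeGroup ℕ) ℂ)) :=
  StarSubalgebra.centralizer ℂ (StarSubalgebra.centralizer ℂ Gen : Set _)

/-- the space of the free group -/
abbrev NAlg_H : Type := LP (FreeGroup ℕ) ℂ

theorem NAlg_ext {S S' : LP ℕ (LP (FreeGroup ℕ) ℂ) →L[ℂ] LP ℕ (LP (FreeGroup ℕ) ℂ)}
    (h : ∀ n g, S (dl n g) = S' (dl n g)) : S = S' :=
  lp_ext fun n ξ => by
    have e : S.comp (sgL n) = S'.comp (sgL n) := lp_ext_one fun g => by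
      rw [ContinuousLinearMap.comp_apply, ContinuousLinearMap.comp_apply, sgL_apply]
      exact h n g
    have := congrArg (fun X : LP (FreeGroup ℕ) ℂ →L[ℂ] LP ℕ (LP (FreeGroup ℕ) ℂ) => X ξ) e
    simpa only [ContinuousLinearMap.comp_apply, sgL_apply] using this

theorem NAlg_gen {T : TW A (LP (FreeGroup ℕ) ℂ)} {u : ℕ → unitary A}
    (hu : ∀ g h : FreeGroup ℕ,
      T.L ((FreeGroup.lift u g : unitary A) : A) (sg h 1) = sg (g * h) 1)
    {S : LP ℕ (LP (FreeGroup ℕ) ℂ) →L[ℂ] LP ℕ (LP (FreeGroup ℕ) ℂ)} :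
    S ∈ Gen ↔ ∃ g i j, S = amp ℕ NAlg_H (T.L ((FreeGroup.lift u g : unitary A) : A)) * eu NAlg_H i j := by
  have e : ∀ g i j n h, (amp ℕ NAlg_H (T.L ((FreeGroup.lift u g : unitary A) : A)) * eu NAlg_H i j) (dl n h) =
      if n = j then dl i (g * h) else 0 := fun g i j n h => by
    rw [mul_apply_eq_comp, dl, eu_sg]
    split_ifs
    · rw [amp_sg, hu, dl]
    · exact map_zero _
  constructor
  · rintro ⟨g, i, j, h⟩
    exact ⟨g, i, j, NAlg_ext fun n k => (h n k).trans (e g i j n k).symm⟩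
  · rintro ⟨g, i, j, rfl⟩
    exact ⟨g, i, j, e g i j⟩

theorem NAlg_cent {T : TW A (LP (FreeGroup ℕ) ℂ)} {u : ℕ → unitary A}
    (hW : T.W (Set.range fun n => (u n : A)) = ⊤)
    (hu : ∀ g h : FreeGroup ℕ,
      T.L ((FreeGroup.lift u g : unitary A) : A) (sg h 1) = sg (g * h) 1)
    {X : LP ℕ (LP (FreeGroup ℕ) ℂ) →L[ℂ] LP ℕ (LP (FreeGroup ℕ) ℂ)} :
    X ∈ StarSubalgebra.centralizer ℂ Gen ↔ ∃ y, amp ℕ NAlg_H (T.R y) = X := by
  rw [StarSubalgebra.mem_centralizer_iff]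
  constructor
  · intro h
    have h1 : ∀ g i j, amp ℕ NAlg_H (T.L ((FreeGroup.lift u g : unitary A) : A)) * eu NAlg_H i j * X =
        X * (amp ℕ NAlg_H (T.L ((FreeGroup.lift u g : unitary A) : A)) * eu NAlg_H i j) :=
      fun g i j => (h _ ((NAlg_gen hu).2 ⟨g, i, j, rfl⟩)).1
    obtain ⟨S, rfl⟩ := eq_amp_of_comm (S := X) 0 fun i j => by
      have := h1 1 i j
      rw [map_one, OneMemClass.coe_one, map_one, map_one, one_mul] at this
      exact this.symm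
    have h2 : ∀ g, S * T.L ((FreeGroup.lift u g : unitary A) : A) =
        T.L ((FreeGroup.lift u g : unitary A) : A) * S := fun g =>
      ContinuousLinearMap.ext fun ξ => by
        have := congrArg (fun Y : LP ℕ (LP (FreeGroup ℕ) ℂ) →L[ℂ] LP ℕ (LP (FreeGroup ℕ) ℂ) =>
          Y (sg 0 ξ) 0) (h1 g 0 0)
        simp only [mul_apply_eq_comp, amp_sg, eu_sg, if_true, NAlg_sg_self] at this
        exact this.symm
    obtain ⟨y, rfl⟩ := T.full_R S fun x => T.comm_L_W (by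
      rintro _ ⟨n, rfl⟩
      have a1 := h2 (FreeGroup.of n)
      have a2 := h2 (FreeGroup.of n)⁻¹
      rw [map_inv] at a2
      rw [FreeGroup.lift_apply_of] at a1 a2
      exact ⟨a1, a2⟩) x (hW ▸ StarSubalgebra.mem_top)
    exact ⟨y, rfl⟩
  · rintro ⟨y, rfl⟩ S hS
    obtain ⟨g, i, j, rfl⟩ := (NAlg_gen hu).1 hS
    have c : ∀ x, Commute (amp ℕ (LP (FreeGroup ℕ) ℂ) (T.L x)) (amp ℕ NAlg_H (T.R y)) := fun x => by
      rw [Commute, SemiconjBy, ← map_mul, ← map_mul, T.L_R]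
    have d : ∀ i j, Commute (eu (LP (FreeGroup ℕ) ℂ) i j) (amp ℕ NAlg_H (T.R y)) :=
      fun i j => (amp_eu _ i j).symm
    refine ⟨(c _).mul_left (d i j), ?_⟩
    rw [star_mul, star_eu, ← map_star, ← map_star]
    exact (d j i).mul_left (c _)

theorem isN_NN {T : TW A (LP (FreeGroup ℕ) ℂ)} {u : ℕ → unitary A}
    (hW : T.W (Set.range fun n => (u n : A)) = ⊤)
    (hu : ∀ g h : FreeGroup ℕ,
      T.L ((FreeGroup.lift u g : unitary A) : A) (sg h 1) = sg (g * h) 1) : IsN T NN := by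
  intro S
  rw [NN, StarSubalgebra.mem_centralizer_iff]
  constructor
  · exact fun h y => (h _ ((NAlg_cent hW hu).2 ⟨y, rfl⟩)).1.symm
  · intro h X hX
    obtain ⟨y, rfl⟩ := (NAlg_cent hW hu).1 hX
    exact ⟨(h y).symm, by rw [← map_star, ← T.R_star, h]⟩

end Pool.Agent.TS
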