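import Pool.Agent.P.MP_e05717_an.ThetaJ
import Pool.Agent.P.MP_e05717_an.NAlg

/-!
Row TS-Theta. The trace scaling automorphism of an endomorphism (paper section 4).
Hints: `Ψ S = star J * S * J` is a star homomorphism `N → N`, its inverse is
`S ↦ ∑ i, amp (R (e i₀ i)) * J * S * star J * amp (R (e i i₀))` (it commutes with `amp (R (ρ y))` and
`amp (R (e a b))`, hence with all `amp (R y)` by `decomp`); `θ = (StarAlgEquiv.ofBijective Ψ _).symm`.
Show `Ψ (hat (ρ x * e i₀ i₀)) = hat x` on the vectors `sg (φ (i, n)) (v y)`. Trace: reindex the sum with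
`φ`, `IsN.entry`, `ENNReal.tsum_prod`, `ENNReal.ofReal_sum_of_nonneg`.
-/

open scoped ComplexOrder InnerProductSpace ComplexConjugate ENNReal
open Filter Topology Pool.Agent.P.MP_5d580a_an

set_option linter.unusedSectionVars false
set_option linter.unusedVariables false

noncomputable section

namespace Pool.Agent.TS

variable {A H : Type} [CStarAlgebra A] [NormedAddCommGroup H] [InnerProductSpace ℂ H]
  [CompleteSpace H]
variable {ι : Type} [Fintype ι] [DecidableEq ι]

theorem Theta_mul (T : TW A H) (x y : A) :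
    amp ℕ H (T.R x) * amp ℕ H (T.R y) = amp ℕ H (T.R (y * x)) := by
  rw [T.R_mul, map_mul]

theorem Theta_ext (T : TW A H) (φ : ι × ℕ ≃ ℕ) {S S' : LP ℕ H →L[ℂ] LP ℕ H}
    (h : ∀ i n y, S (sg (φ (i, n)) (T.v y)) = S' (sg (φ (i, n)) (T.v y))) : S = S' := by
  refine lp_ext fun k ξ => ?_
  obtain ⟨⟨i, n⟩, rfl⟩ := φ.surjective k
  have h1 : S.comp (sgL (φ (i, n))) = S'.comp (sgL (φ (i, n))) := T.ext_v fun y => by
    simp only [ContinuousLinearMap.comp_apply, sgL_apply]
    exact h i n y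
  have h2 := congrArg (fun X : H →L[ℂ] LP ℕ H => X ξ) h1
  simpa only [ContinuousLinearMap.comp_apply, sgL_apply] using h2

/-- compression by an isometry whose range projection commutes with `N` -/
def Theta_psi (N : StarSubalgebra ℂ (LP ℕ H →L[ℂ] LP ℕ H)) (J : LP ℕ H →L[ℂ] LP ℕ H)
    (h1 : star J * J = 1) (h2 : ∀ S ∈ N, S * (J * star J) = J * star J * S)
    (h3 : ∀ S ∈ N, star J * S * J ∈ N) : N →⋆ₐ[ℂ] N where
  toFun S := ⟨star J * S * J, h3 S S.2⟩
  map_one' := Subtype.ext (by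
    change star J * 1 * J = 1
    rw [mul_one, h1])
  map_mul' S S' := Subtype.ext (by
    change star J * (S * S') * J = star J * S * J * (star J * S' * J)
    calc star J * (S * S') * J = star J * J * star J * (S * S') * J := by rw [h1, one_mul]
      _ = star J * (J * star J * S) * S' * J := by simp only [mul_assoc]
      _ = star J * S * J * (star J * S' * J) := by
        rw [← h2 S S.2]
        simp only [mul_assoc])
  map_zero' := Subtype.ext (by
    change star J * 0 * J = 0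
    rw [mul_zero, zero_mul])
  map_add' S S' := Subtype.ext (by
    change star J * (S + S') * J = star J * S * J + star J * S' * J
    rw [mul_add, add_mul])
  commutes' r := Subtype.ext (by
    change star J * algebraMap ℂ _ r * J = algebraMap ℂ _ r
    rw [← Algebra.commutes, mul_assoc, h1, mul_one])
  map_star' S := Subtype.ext (by
    change star J * star S.1 * J = star (star J * S * J)
    rw [star_mul, star_mul, star_star, mul_assoc])

theorem exists_theta {T : TW A H} {N : StarSubalgebra ℂ (LP ℕ H →L[ℂ] LP ℕ H)} (hN : IsN T N)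
    {e : ι → ι → A} (he : MU e) (i₀ : ι) {ρ : A →⋆ₐ[ℂ] A} (hρ : TP T T ρ)
    (hr : ∀ x, Cm e x ↔ ∃ y, ρ y = x) {hat : A →⋆ₙₐ[ℂ] N} (hh : IsHat T hat) :
    ∃ θ : N ≃⋆ₐ[ℂ] N, (∀ x, θ (hat x) = hat (ρ x * e i₀ i₀)) ∧
      ∀ S : N, 0 ≤ (S : LP ℕ H →L[ℂ] LP ℕ H) →
        trN T.Ω (θ S : N) = ENNReal.ofReal (Fintype.card ι : ℝ)⁻¹ * trN T.Ω S := by
  obtain ⟨J, φ, j1, j2, j3, j4, j5⟩ := exists_J T he i₀ hρ hr
  have hc : ∀ y, Cm e (ρ y) := fun y => (hr _).2 ⟨y, rfl⟩
  have j3' : ∀ y, amp ℕ H (T.R y) * star J = star J * amp ℕ H (T.R (ρ y)) := fun y => by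
    have h := congrArg star (j3 (star y))
    rwa [star_mul, star_mul, ← map_star (amp ℕ H), ← map_star (amp ℕ H), ← T.R_star, ← T.R_star,
      star_star, ← map_star ρ, star_star] at h
  have h2 : ∀ S ∈ N, S * (J * star J) = J * star J * S := fun S hS => by
    rw [j2]
    exact (hN S).1 hS _
  have h3 : ∀ S ∈ N, star J * S * J ∈ N := fun S hS => (hN _).2 fun y => by
    rw [mul_assoc, j3, ← mul_assoc, mul_assoc (star J), (hN S).1 hS, ← mul_assoc, ← j3']
    simp only [mul_assoc]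
  let Ψ : N →⋆ₐ[ℂ] N := Theta_psi N J j1 h2 h3
  have hΨ : ∀ S : N, (Ψ S : LP ℕ H →L[ℂ] LP ℕ H) = star J * S * J := fun S => rfl
  let θ₀ : (LP ℕ H →L[ℂ] LP ℕ H) → (LP ℕ H →L[ℂ] LP ℕ H) := fun S =>
    ∑ i, amp ℕ H (T.R (e i₀ i)) * (J * S * star J) * amp ℕ H (T.R (e i i₀))
  have t1 : ∀ S ∈ N, ∀ y, θ₀ S * amp ℕ H (T.R (ρ y)) = amp ℕ H (T.R (ρ y)) * θ₀ S := by
    intro S hS y
    have a1 : J * S * star J * amp ℕ H (T.R (ρ y)) = amp ℕ H (T.R (ρ y)) * (J * S * star J) := by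
      rw [mul_assoc, ← j3', ← mul_assoc, mul_assoc J, (hN S).1 hS, ← mul_assoc, j3]
      simp only [mul_assoc]
    have a2 : ∀ i j, amp ℕ H (T.R (e i j)) * amp ℕ H (T.R (ρ y)) =
        amp ℕ H (T.R (ρ y)) * amp ℕ H (T.R (e i j)) := fun i j => by
      rw [Theta_mul, Theta_mul, hc y i j]
    rw [Finset.sum_mul, Finset.mul_sum]
    refine Finset.sum_congr rfl fun i _ => ?_
    rw [mul_assoc, a2, ← mul_assoc, mul_assoc (amp ℕ H (T.R (e i₀ i))), a1, ← mul_assoc, a2]
    simp only [mul_assoc]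
  have t2 : ∀ S k l, θ₀ S * amp ℕ H (T.R (e k l)) = amp ℕ H (T.R (e k l)) * θ₀ S := by
    intro S k l
    rw [Finset.sum_mul, Finset.mul_sum, Finset.sum_eq_single l, Finset.sum_eq_single k]
    · rw [mul_assoc, Theta_mul, he.mul_same, ← mul_assoc (amp ℕ H (T.R (e k l))),
        ← mul_assoc (amp ℕ H (T.R (e k l))), Theta_mul, he.mul_same]
    · intro i _ hi
      rw [← mul_assoc, ← mul_assoc, Theta_mul, he.mul_diff hi, map_zero, map_zero, zero_mul,
        zero_mul]
    · simp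
    · intro i _ hi
      rw [mul_assoc, Theta_mul, he.mul_diff hi.symm, map_zero, map_zero, mul_zero]
    · simp
  have t3 : ∀ S ∈ N, θ₀ S ∈ N := fun S hS => (hN _).2 fun x => by
    obtain ⟨y, hy, rfl⟩ := decomp he x
    simp only [map_sum, Finset.sum_mul, Finset.mul_sum (a := θ₀ S)]
    refine Finset.sum_congr rfl fun i _ => Finset.sum_congr rfl fun j _ => ?_
    obtain ⟨z, hz⟩ := (hr _).1 (hy i j)
    rw [← hz, ← Theta_mul, ← mul_assoc, t1 S hS, mul_assoc, t2, mul_assoc]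
  have t4 : ∀ S, star J * θ₀ S * J = S := fun S => by
    have a1 : star J * amp ℕ H (T.R (e i₀ i₀)) = star J := by
      rw [← j2, ← mul_assoc, j1, one_mul]
    have a2 : amp ℕ H (T.R (e i₀ i₀)) * J = J := by rw [← j2, mul_assoc, j1, mul_one]
    rw [Finset.mul_sum, Finset.sum_eq_single i₀]
    · calc star J * (amp ℕ H (T.R (e i₀ i₀)) * (J * S * star J) * amp ℕ H (T.R (e i₀ i₀))) * J
          = star J * amp ℕ H (T.R (e i₀ i₀)) * J * S * (star J *
            (amp ℕ H (T.R (e i₀ i₀)) * J)) := by simp only [mul_assoc]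
        _ = S := by rw [a1, a2, j1, one_mul, mul_one]
    · intro i _ hi
      rw [← a1, mul_assoc, ← mul_assoc (amp ℕ H (T.R (e i₀ i₀))),
        ← mul_assoc (amp ℕ H (T.R (e i₀ i₀))), Theta_mul, he.mul_diff hi, map_zero, map_zero,
        zero_mul, zero_mul, mul_zero]
    · simp
  have t5 : ∀ S ∈ N, θ₀ (star J * S * J) = S := fun S hS => by
    have a1 : J * (star J * S * J) * star J =
        amp ℕ H (T.R (e i₀ i₀)) * amp ℕ H (T.R (e i₀ i₀)) * S := by
      rw [mul_assoc (amp ℕ H (T.R (e i₀ i₀))), ← (hN S).1 hS, ← j2]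
      simp only [mul_assoc]
    have a2 : ∀ i, amp ℕ H (T.R (e i₀ i)) * (J * (star J * S * J) * star J) *
        amp ℕ H (T.R (e i i₀)) = amp ℕ H (T.R (e i i)) * S := fun i => by
      rw [a1, Theta_mul, he.mul_same, ← mul_assoc, Theta_mul, he.mul_same, mul_assoc,
        (hN S).1 hS, ← mul_assoc, Theta_mul, he.mul_same]
    simp only [θ₀, a2]
    rw [← Finset.sum_mul, ← map_sum, ← map_sum, he.sum, T.R_one, map_one, one_mul]
  have hb : Function.Bijective Ψ := by
    refine ⟨fun S S' h => Subtype.ext ?_, fun S => ⟨⟨θ₀ S, t3 S S.2⟩, Subtype.ext (t4 S)⟩⟩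
    rw [← t5 S S.2, ← t5 S' S'.2, ← hΨ, ← hΨ, h]
  refine ⟨(StarAlgEquiv.ofBijective Ψ hb).symm, fun x => ?_, fun S hS => ?_⟩
  · rw [StarAlgEquiv.symm_apply_eq]
    refine Subtype.ext ?_
    have a1 : (hat (ρ x * e i₀ i₀) : LP ℕ H →L[ℂ] LP ℕ H) * J = J * hat x := by
      refine Theta_ext T φ fun i n y => ?_
      rw [mul_apply_eq_comp, mul_apply_eq_comp, j5, hh, hh, sg_apply, sg_apply]
      by_cases c : (i, n) = (i₀, 0)
      · obtain ⟨rfl, rfl⟩ := Prod.mk.inj c
        rw [if_pos rfl, if_pos j4.symm, ← T.v_mul]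
        conv_rhs => rw [← j4, j5]
        rw [map_smul, ← T.v_mul, mul_assoc, ← mul_assoc (e i i), he.mul_same, ← mul_assoc,
          ← hc x, map_mul ρ, mul_assoc]
      · have c' : ¬ 0 = φ (i, n) := fun h => c (φ.injective (h.symm.trans j4.symm))
        rw [if_neg c', map_zero, sg_zero, map_zero]
        split_ifs with c2
        · have c3 : i₀ ≠ i := fun h => c (by rw [h, c2])
          rw [map_smul, ← T.v_mul, mul_assoc, ← mul_assoc (e i₀ i₀), he.mul_diff c3, zero_mul,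
            mul_zero, map_zero, smul_zero, sg_zero]
        · rw [map_zero, sg_zero]
    change (hat x : LP ℕ H →L[ℂ] LP ℕ H) = star J * hat (ρ x * e i₀ i₀) * J
    rw [mul_assoc, a1, ← mul_assoc, j1, one_mul]
  · obtain ⟨S', rfl⟩ := EquivLike.surjective (StarAlgEquiv.ofBijective Ψ hb) S
    rw [StarAlgEquiv.symm_apply_apply]
    change trN T.Ω S' = _ * trN T.Ω (star J * S' * J)
    replace hS : 0 ≤ star J * S' * J := hS
    have m0 : (0 : ℝ) < Fintype.card ι := Nat.cast_pos.2 (Fintype.card_pos_iff.2 ⟨i₀⟩)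
    have a1 : ∀ n, ∑ i, (⟪sg (φ (i, n)) T.Ω, (star J * S' * J) (sg (φ (i, n)) T.Ω)⟫_ℂ).re =
        Fintype.card ι * (⟪sg n T.Ω, (S' : LP ℕ H →L[ℂ] LP ℕ H) (sg n T.Ω)⟫_ℂ).re := by
      intro n
      obtain ⟨x, hx⟩ := hN.entry S' n n
      have b1 : ∀ i, ⟪sg (φ (i, n)) T.Ω, (star J * S' * J) (sg (φ (i, n)) T.Ω)⟫_ℂ =
          (Fintype.card ι : ℝ) * T.τ (x * e i i) := fun i => by
        rw [mul_apply_eq_comp, mul_apply_eq_comp, inner_star_right, ← T.v_one, j5, inner_sg, hx,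
          map_one, mul_one, map_smul, inner_smul_left, inner_smul_right, ← T.v_mul, T.inner_v,
          he.star, T.τ_comm, mul_assoc x, he.mul_same, Complex.conj_ofReal, ← mul_assoc,
          ← Complex.ofReal_mul, Real.mul_self_sqrt m0.le]
      rw [← Complex.re_sum, Finset.sum_congr rfl fun i _ => b1 i, ← Finset.mul_sum, ← map_sum,
        ← Finset.mul_sum, he.sum, mul_one, inner_sg, hx, Complex.re_ofReal_mul]
      rfl
    have a2 : trN T.Ω (star J * S' * J) = ENNReal.ofReal (Fintype.card ι) * trN T.Ω S' := by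
      unfold trN
      rw [← φ.tsum_eq, ENNReal.tsum_prod', ENNReal.tsum_comm, ← ENNReal.tsum_mul_left]
      refine tsum_congr fun n => ?_
      rw [tsum_fintype, ← ENNReal.ofReal_sum_of_nonneg fun i _ =>
        (Complex.le_def.1 (nonneg_iff_inner.1 hS _)).1, a1, ENNReal.ofReal_mul m0.le]
    rw [a2, ← mul_assoc, ← ENNReal.ofReal_mul (inv_nonneg.2 m0.le), inv_mul_cancel₀ m0.ne',
      ENNReal.ofReal_one, one_mul]

end Pool.Agent.TS
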