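import Pool.Agent.P.MP_e05717_an.Beta

/-!
Row TS-Zed. The second endomorphism and the unitaries `z K` (paper section 2, end).
Hints: `ρ₂ = β.comp ρ₁`; `ρ₂ = ρ₁` on `W (alle e ∪ c '' La)` which is stable (`iter_a`), so the iterates
agree there; `range_iterate` for `ρ₁` and `ρ₂` gives `z K` with `ρ₂^[2K] (z K) = ρ₁^[2K] h₀`; apply the
injective `ρ₂^[2K+2]` to both sides; a helper: iterates of a star homomorphism are star homomorphisms
(`ρ^[k] = ⇑(ρk)`), `wd_hom`.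
-/

open scoped ComplexOrder InnerProductSpace ComplexConjugate ENNReal
open Filter Topology Pool.Agent.P.MP_5d580a_an

set_option linter.unusedSectionVars false
set_option linter.unusedVariables false

noncomputable section

namespace Pool.Agent.TS

variable {A H : Type} [CStarAlgebra A] [NormedAddCommGroup H] [InnerProductSpace ℂ H]
  [CompleteSpace H]
variable {ι : Type} [Fintype ι] [DecidableEq ι]

variable {T : TW A H} {e : ℕ → ι → ι → A} {Λ : Type} {c : Λ → A} {ℓ r : Λ × Bool → (H →L[ℂ] H)}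
  {par : Λ ≃ Λ × ι × ι} {ρ₁ : A →⋆ₐ[ℂ] A} {La : Set Λ} {fa : Fin 144 → Λ} {zl : ℕ → Λ}
  {a : Fin 144 → A} {Δ : Type} {sgn : ι → Δ → ℝ} {N : ℕ}

/-- iterates of a homomorphism are homomorphisms -/
theorem Zed_it (ρ : A →⋆ₐ[ℂ] A) (k : ℕ) : ∃ φ : A →⋆ₐ[ℂ] A, ∀ x, ρ^[k] x = φ x := by
  induction k with
  | zero => exact ⟨StarAlgHom.id ℂ A, fun _ => rfl⟩
  | succ k ih =>
    obtain ⟨φ, hφ⟩ := ih
    refine ⟨ρ.comp φ, fun x => ?_⟩
    rw [Function.iterate_succ_apply', hφ]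
    rfl

/-- the image of `Phi` by an iterate -/
theorem Zed_phi (ρ : A →⋆ₐ[ℂ] A) (k : ℕ) (e₀ : ι → ι → A) (a : Fin 144 → A) (sgn : ι → Δ → ℝ)
    (wi : ι → Fin N → Tag × Δ) (y : A) :
    ρ^[k] (Phi e₀ ρ a sgn wi y) =
      ∑ i, ρ^[k] (e₀ i i) * wd (fun j => ρ^[k + 1] (a j)) (fun j => ρ^[k + 1] (ρ (a j)))
        (fun δ => ρ^[k + 1] (dgn e₀ sgn δ)) (ρ^[k + 1] y) (wi i) := by
  obtain ⟨φ, hφ⟩ := Zed_it ρ k
  obtain ⟨ψ, hψ⟩ := Zed_it ρ (k + 1)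
  have h1 : ∀ x, φ (ρ x) = ψ x := fun x => by
    rw [← hφ, ← hψ, Function.iterate_succ_apply]
  simp only [hφ, hψ]
  rw [Phi, map_sum]
  refine Finset.sum_congr rfl fun i _ => ?_
  rw [map_mul, h1, wd_hom]

theorem Zed_unitary {φ : A →⋆ₐ[ℂ] A} (hi : Function.Injective φ) {z : A}
    (hz : φ z ∈ unitary A) : z ∈ unitary A := by
  rw [Unitary.mem_iff] at hz ⊢
  constructor
  · apply hi
    rw [map_mul, map_star, map_one, hz.1]
  · apply hi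
    rw [map_mul, map_star, map_one, hz.2]

theorem exists_zed (h : IsModel T e c ℓ r) (hρ : IsRho T e c par ρ₁) (hL : LamD par La fa zl)
    (ha : ∀ j, a j ∈ unitary A ∧ a j ∈ T.W {c (fa j)}) (hs : ∀ i δ, sgn i δ = 1 ∨ sgn i δ = -1)
    (wi : ι → Fin N → Tag × Δ) :
    ∃ (ρ₂ : A →⋆ₐ[ℂ] A) (z : ℕ → A), TP T T ρ₂ ∧ (∀ x, Cm (e 0) x ↔ ∃ y, ρ₂ y = x) ∧
      (∀ K, z K ∈ unitary A) ∧ ∀ K, z K = z (K + 1) * Phi (e 0) ρ₂ a sgn wi (z (K + 1)) := by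
  obtain ⟨β, h₀, hβ, hsurj, hu, hfix, hodd, heven⟩ := exists_beta h hρ hL ha hs wi
  obtain ⟨ρ₂, hρ₂⟩ : ∃ ρ₂ : A →⋆ₐ[ℂ] A, ρ₂ = β.comp ρ₁ := ⟨_, rfl⟩
  have happ : ∀ x, ρ₂ x = β (ρ₁ x) := fun x => by rw [hρ₂]; rfl
  have htp : TP T T ρ₂ := by
    rw [hρ₂]
    exact hβ.comp hρ.tp
  have he : ∀ k i j, e k i j ∈ T.W (alle e ∪ c '' La) := fun k i j =>
    T.subset_W _ (Or.inl ⟨k, i, j, rfl⟩)
  have hunit : ∀ k i j, ρ₂ (e k i j) = e (k + 1) i j := fun k i j => by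
    rw [happ, hρ.unit, hfix _ (he _ _ _)]
  have hcm : ∀ x, Cm (e 0) (β x) ↔ Cm (e 0) x := fun x =>
    forall_congr' fun i => forall_congr' fun j => by
      have h1 : β (e 0 i j * x) = e 0 i j * β x := by rw [map_mul, hfix _ (he _ _ _)]
      have h2 : β (x * e 0 i j) = β x * e 0 i j := by rw [map_mul, hfix _ (he _ _ _)]
      rw [← h1, ← h2]
      exact hβ.inj.eq_iff
  have hrange : ∀ x, Cm (e 0) x ↔ ∃ y, ρ₂ y = x := fun x => by
    constructor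
    · intro hx
      obtain ⟨x', rfl⟩ := hsurj x
      obtain ⟨y, rfl⟩ := (hρ.range x').1 ((hcm x').1 hx)
      exact ⟨y, happ y⟩
    · rintro ⟨y, rfl⟩
      rw [happ, hcm]
      exact (hρ.range _).2 ⟨y, rfl⟩
  have hone : ∀ x ∈ T.W (alle e ∪ c '' La), ρ₂ x = ρ₁ x := fun x hx => by
    rw [happ, hfix _ (iter_a hρ hL hx)]
  have hiter : ∀ k, ∀ x ∈ T.W (alle e ∪ c '' La), ρ₂^[k] x = ρ₁^[k] x := fun k => by
    induction k with
    | zero => exact fun _ _ => rfl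
    | succ k ih =>
      intro x hx
      rw [Function.iterate_succ_apply, Function.iterate_succ_apply, hone x hx]
      exact ih _ (iter_a hρ hL hx)
  have hz : ∀ K, ∃ y, ρ₂^[2 * K] y = ρ₁^[2 * K] h₀ := fun K =>
    (range_iterate htp.inj hunit hrange _ _).1
      ((range_iterate hρ.tp.inj hρ.unit hρ.range _ _).2 ⟨h₀, rfl⟩)
  choose z hz using hz
  have hz1 : ∀ K, ρ₂^[2 * K + 1] (z K) = ρ₁^[2 * K + 1] h₀ := fun K => by
    rw [Function.iterate_succ_apply', hz, happ, ← Function.iterate_succ_apply' ρ₁, hodd]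
  have haD : ∀ j, a j ∈ T.W (alle e ∪ c '' La) := fun j =>
    T.W_mono (by rintro _ rfl; exact Or.inr ⟨_, hL.fa_mem j, rfl⟩) (ha j).2
  have hdD : ∀ δ, dgn (e 0) sgn δ ∈ T.W (alle e ∪ c '' La) := fun δ =>
    sum_mem fun i _ => SMulMemClass.smul_mem _ (he _ _ _)
  refine ⟨ρ₂, z, htp, hrange, fun K => ?_, fun K => ?_⟩
  · obtain ⟨φ, hφ⟩ := Zed_it ρ₂ (2 * K)
    obtain ⟨ψ, hψ⟩ := Zed_it ρ₁ (2 * K)
    have hi : Function.Injective φ := by
      have h1 : (φ : A → A) = ρ₂^[2 * K] := funext fun x => (hφ x).symm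
      rw [h1]
      exact htp.inj.iterate _
    refine Zed_unitary hi ?_
    rw [← hφ, hz, hψ]
    exact hom_unitary ψ hu
  · apply htp.inj.iterate (2 * (K + 1))
    obtain ⟨φ, hφ⟩ := Zed_it ρ₂ (2 * (K + 1))
    have h1 : ρ₂^[2 * (K + 1)] (z K) = β (ρ₁^[2 * (K + 1)] h₀) := by
      have h2 : 2 * (K + 1) = (2 * K + 1).succ := by omega
      rw [h2, Function.iterate_succ_apply', hz1, happ, ← Function.iterate_succ_apply' ρ₁]
    rw [h1, heven, hφ, map_mul, ← hφ, ← hφ, hz, Zed_phi, Zed_phi, hz1]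
    refine congrArg _ (Finset.sum_congr rfl fun i _ => ?_)
    have h3 : (fun j => ρ₂^[2 * (K + 1) + 1] (a j)) = fun j => ρ₁^[2 * (K + 1) + 1] (a j) :=
      funext fun j => hiter _ _ (haD j)
    have h4 : (fun j => ρ₂^[2 * (K + 1) + 1] (ρ₂ (a j))) =
        fun j => ρ₁^[2 * (K + 1) + 1] (ρ₁ (a j)) :=
      funext fun j => by rw [hone _ (haD j), hiter _ _ (iter_a hρ hL (haD j))]
    have h5 : (fun δ => ρ₂^[2 * (K + 1) + 1] (dgn (e 0) sgn δ)) =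
        fun δ => ρ₁^[2 * (K + 1) + 1] (dgn (e 0) sgn δ) :=
      funext fun δ => hiter _ _ (hdD δ)
    rw [h3, h4, h5, hiter _ _ (he _ _ _)]

end Pool.Agent.TS
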