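import Pool.Agent.P.MP_e05717_an.Asm
import Pool.Agent.P.MP_e05717_an.Zed
import Pool.Agent.P.MP_e05717_an.Rho
import Pool.Agent.P.MP_e05717_an.Ind
import Pool.Agent.P.MP_e05717_an.FockC
import Pool.Agent.P.MP_e05717_an.Theta
import Pool.Agent.P.MP_e05717_an.PartD

/-!
Row TS-Main. The theorem.
-/

open scoped ComplexOrder InnerProductSpace ComplexConjugate ENNReal
open Filter Topology Pool.Agent.P.MP_5d580a_an

set_option linter.unusedSectionVars false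
set_option linter.unusedVariables false

noncomputable section

namespace Pool.Agent.TS


section Move

variable {A H A' H' : Type} [CStarAlgebra A] [NormedAddCommGroup H] [InnerProductSpace ℂ H]
  [CompleteSpace H] [CStarAlgebra A'] [NormedAddCommGroup H'] [InnerProductSpace ℂ H']
  [CompleteSpace H'] {ι : Type} [Fintype ι] [DecidableEq ι]

/-- the automorphism of `N` attached to an endomorphism of an isomorphic copy -/
theorem Main_theta {T : TW A H} {T' : TW A' H'} (φ : A ≃⋆ₐ[ℂ] A')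
    (hφ : ∀ x, T'.τ (φ x) = T.τ x) {N : StarSubalgebra ℂ (LP ℕ H' →L[ℂ] LP ℕ H')} (hN : IsN T' N)
    {e : ι → ι → A} (he : MU e) (i₀ : ι) {ρ : A →⋆ₐ[ℂ] A} (hρ : TP T T ρ)
    (hr : ∀ x, Cm e x ↔ ∃ y, ρ y = x) {hat : A' →⋆ₙₐ[ℂ] N} (hh : IsHat T' hat) :
    ∃ θ : N ≃⋆ₐ[ℂ] N, (∀ x, θ (hat (φ x)) = hat (φ (ρ x * e i₀ i₀))) ∧
      ∀ S : N, 0 ≤ (S : LP ℕ H' →L[ℂ] LP ℕ H') →
        trN T'.Ω (θ S : N) = ENNReal.ofReal (Fintype.card ι : ℝ)⁻¹ * trN T'.Ω S := by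
  let f : A →⋆ₐ[ℂ] A' := φ
  let g : A' →⋆ₐ[ℂ] A := φ.symm
  have hf : ∀ x, f x = φ x := fun _ => rfl
  have hg : ∀ x, g x = φ.symm x := fun _ => rfl
  let ρ' : A' →⋆ₐ[ℂ] A' := f.comp (ρ.comp g)
  have hρ' : ∀ x, ρ' x = φ (ρ (φ.symm x)) := fun _ => rfl
  have htp : TP T' T' ρ' := by
    intro x
    rw [hρ', hφ, hρ, ← hφ, StarAlgEquiv.apply_symm_apply]
  have hr' : ∀ x, Cm (fun i j => f (e i j)) x ↔ ∃ y, ρ' y = x := by
    intro x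
    constructor
    · intro hx
      have h1 : Cm e (φ.symm x) := by
        intro i j
        apply EquivLike.injective φ
        have := hx i j
        simpa [map_mul, hf] using this
      obtain ⟨y, hy⟩ := (hr _).1 h1
      exact ⟨φ y, by rw [hρ', StarAlgEquiv.symm_apply_apply, hy, StarAlgEquiv.apply_symm_apply]⟩
    · rintro ⟨y, rfl⟩
      exact Cm.map f ((hr _).2 ⟨_, rfl⟩)
  obtain ⟨θ, h1, h2⟩ := exists_theta hN (he.map f) i₀ htp hr' hh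
  refine ⟨θ, fun x => ?_, h2⟩
  rw [h1, hρ', StarAlgEquiv.symm_apply_apply, map_mul φ, hf]

end Move

section Goal

variable {K : Type} [NormedAddCommGroup K] [InnerProductSpace ℂ K] [CompleteSpace K]

/-- `θ` multiplies the trace by `l` -/
def Scales {N : StarSubalgebra ℂ (LP ℕ K →L[ℂ] LP ℕ K)} (Ω : K) (θ : N ≃⋆ₐ[ℂ] N) (l : ℝ) : Prop :=
  ∀ S : N, 0 ≤ (S : LP ℕ K →L[ℂ] LP ℕ K) → trN Ω (θ S : N) = ENNReal.ofReal l * trN Ω S

/-- outer conjugacy -/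
def OConj {N : StarSubalgebra ℂ (LP ℕ K →L[ℂ] LP ℕ K)} (θ₁ θ₂ : N ≃⋆ₐ[ℂ] N) : Prop :=
  ∃ (σ : N ≃⋆ₐ[ℂ] N) (u : N), u ∈ unitary N ∧ ∀ x, σ (θ₁ (σ.symm x)) = u * θ₂ x * star u

/-- the conclusion for an algebra `N` with the trace given by `Ω` -/
def Concl (N : StarSubalgebra ℂ (LP ℕ K →L[ℂ] LP ℕ K)) (Ω : K) : Prop :=
  ∃ l : ℝ, 0 < l ∧ l < 1 ∧ ∃ θ₁ θ₂ : N ≃⋆ₐ[ℂ] N, Scales Ω θ₁ l ∧ Scales Ω θ₂ l ∧ ¬ OConj θ₁ θ₂

end Goal

theorem Main_gen {B K : Type} [CStarAlgebra B] [NormedAddCommGroup K] [InnerProductSpace ℂ K]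
    [CompleteSpace K] (TB : TW B K) {w : ℕ → unitary B} (hw : Reg TB w)
    (hwW : TB.W (Set.range fun n => (w n : B)) = ⊤)
    {N : StarSubalgebra ℂ (LP ℕ K →L[ℂ] LP ℕ K)} (hN : IsN TB N) :
    Concl N TB.Ω := by
  obtain ⟨n, hn, hn1⟩ : ∃ n : ℕ, (582 * 300000) ^ 2 ≤ n ∧ 1 ≤ n := ⟨_, le_rfl, by norm_num⟩
  obtain ⟨Δ, _, _, _, sgn, hs⟩ := exists_code n hn1
  obtain ⟨ι, _, _, wi, h2⟩ : ∃ (ι : Type) (_ : Fintype ι) (_ : DecidableEq ι)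
      (_ : ι ≃ (Fin (2 * n) → Tag × Δ)), 2 ≤ Fintype.card ι := by
    have : Nonempty (Fin (2 * n)) := ⟨⟨0, by omega⟩⟩
    exact ⟨Fin (2 * n) → Tag × Δ, inferInstance, inferInstance, Equiv.refl _,
      Fintype.one_lt_card⟩
  have hι : Nonempty ι := Fintype.card_pos_iff.1 (by omega)
  obtain ⟨i₀⟩ := hι
  have hι : Nonempty ι := ⟨i₀⟩
  have hs' : Code fun i δ => sgn (wi i) δ :=
    ⟨fun i δ => hs.1 _ _, fun i k h => hs.2 _ _ fun h' => h (wi.injective h')⟩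
  obtain ⟨Λ, _, _, par, La, fa, zl, hL⟩ := exists_lam ι
  obtain ⟨A, H, _, _, _, _, T, e, c, ℓ, r, hP⟩ := exists_model ι Λ
  obtain ⟨A', H', _, _, _, _, T', e', c', ℓ', r', hQ⟩ := exists_model ι (Λ × Bool)
  obtain ⟨ρ₁, hρ₁⟩ := exists_rho hP par
  obtain ⟨ρ', ι', α, hD⟩ := exists_double hP hQ hρ₁
  have hsf := hP.sf fa hL.fa_inj
  have hc : Cen A := (hP.gap fa hL.fa_inj).cen
  choose a ha1 ha2 ha3 using fun j => T.exists_unitary_re (hsf.sa j) (hsf.norm_le j)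
  have ha4 : ∀ j, a j ∈ T.W {c (fa j)} := by
    intro j
    have h1 : c (fa j) ∈ T.W {c (fa j)} := T.subset_W {c (fa j)} (Set.mem_singleton _)
    have h2 : T.W {reP (c (fa j))} ≤ T.W {c (fa j)} :=
      T.W_le (Set.singleton_subset_iff.2 (reP_mem _ h1))
    exact h2 (ha3 j)
  obtain ⟨ρ₂, z, hρ₂, hr₂, hz, hrel⟩ :=
    exists_zed hP hρ₁ hL (fun j => ⟨ha1 j, ha4 j⟩) hs'.1 (fun i => wi i)
  obtain ⟨u, hu, huW⟩ := rg_top hP.tower hP.circ hP.gen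
  obtain ⟨φ, hφ⟩ := exists_equiv (reg_match hu hw)
    (by rw [← Set.range_comp]; exact huW) (by rw [← Set.range_comp]; exact hwW)
  obtain ⟨hat, hh⟩ := exists_hat hN
  obtain ⟨θ₁, h11, h12⟩ := Main_theta φ hφ hN (hP.tower.mu 0) i₀ hρ₁.tp hρ₁.range hh
  obtain ⟨θ₂, h21, h22⟩ := Main_theta φ hφ hN (hP.tower.mu 0) i₀ hρ₂ hr₂ hh
  have hm : (2 : ℝ) ≤ Fintype.card ι := by exact_mod_cast h2
  have hl0 : (0 : ℝ) < (Fintype.card ι : ℝ)⁻¹ := inv_pos.2 (by linarith)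
  have hl1 : (Fintype.card ι : ℝ)⁻¹ < 1 := inv_lt_one_of_one_lt₀ (by linarith)
  refine ⟨(Fintype.card ι : ℝ)⁻¹, hl0, hl1, θ₂, θ₁, h22, h12, ?_⟩
  rintro ⟨σ, U, hU, hσ⟩
  let f : A →⋆ₙₐ[ℂ] B := φ
  have hf : ∀ x, f x = φ x := fun _ => rfl
  let hat' : A →⋆ₙₐ[ℂ] N := hat.comp f
  have hhat : ∀ x, hat' x = hat (φ x) := fun _ => rfl
  have h1 : hat' 1 = hat 1 := by rw [hhat, map_one]
  obtain ⟨π, b, hπ0, hsur, hb, hbb⟩ := partD T (hP.tower.mu 0) h2 i₀ ρ₁ ρ₂ hat'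
    (fun x y h => EquivLike.injective φ (hh.inj h))
    (fun S => by
      obtain ⟨x, hx⟩ := hh.sur hN S
      exact ⟨φ.symm x, by rw [hhat, StarAlgEquiv.apply_symm_apply, h1, hx]⟩)
    (fun g hg => by rw [h1]; exact compare_N hN (hc.of_equiv φ) hh hg)
    θ₁ θ₂ σ h11 h21 hU hσ
  exact no_data hP hQ hD hL.fa_inj (fun j => ⟨ha1 j, ha2 j⟩) hs' hn wi hρ₂ hr₂ hz hrel i₀ π b hπ0
    hsur (trace_scale T hc hP.tower h2 π) hb hbb

theorem main : Concl NN (sg 1 1) := by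
  obtain ⟨B, _, TB, w, hΩ, hw, hwW, hwL⟩ := exists_LF
  have h := Main_gen TB hw hwW (isN_NN hwW hwL)
  rw [hΩ] at h
  exact h

end Pool.Agent.TS
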