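import Pool.Agent.P.MP_e05717_an.Crg
import Pool.Agent.P.MP_e05717_an.Pol

/-!
Row TS-MatA. First half of the matrix lemma (paper MAT).
Hints: `s i = reP (ent e i i (c 0))` is semicircular (`Circ.ent`, `Circ.semi`, `Semi.sub`),
`x = ∑ i, e i i * (s i + 10 idx i)` with `idx = Fintype.equivFin ι` has `NoEig`; `exists_haar`,
`Haar.reg`, `Circ.enlarge` along `ν ↦ ν + 1`, `Circ.extend_ri`, `rg_of_countable` give
`RG (W ({x} ∪ range (c (· + 1))))`; `RG.conj` with `U = ∑ j, e j j * u j` (`diag_unitary`); then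
`W_eq`: `spec_mem` gives `e i i`, `ent_corner`, `exists_sqrt`, `sqrt_unique` give `p j * e i₀ i₀`,
`pm0` with `p j * e i₀ i₀ + (1 - e i₀ i₀)` gives `e i₀ j`; `ent_of_decomp`, `ent_recon`.
-/

open scoped ComplexOrder InnerProductSpace ComplexConjugate ENNReal
open Filter Topology Pool.Agent.P.MP_5d580a_an

set_option linter.unusedSectionVars false
set_option linter.unusedVariables false

noncomputable section

namespace Pool.Agent.TS

variable {A H : Type} [CStarAlgebra A] [NormedAddCommGroup H] [InnerProductSpace ℂ H]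
  [CompleteSpace H]
variable {ι : Type} [Fintype ι] [DecidableEq ι]

section Aux

variable {e : ι → ι → A}

theorem MatA_diag (he : MU e) (y : ι → A) (i : ι) :
    e i i * ∑ k, e k k * y k = e i i * y i := by
  rw [Finset.mul_sum, Finset.sum_eq_single i]
  · rw [← mul_assoc, he.mul_same]
  · intro k _ hk
    rw [← mul_assoc, he.mul_diff (Ne.symm hk), zero_mul]
  · intro h
    exact absurd (Finset.mem_univ i) h

theorem MatA_eU (he : MU e) {u : ι → A} (hu : ∀ i, Cm e (u i)) (i : ι) :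
    e i i * ∑ k, e k k * u k = u i * e i i := by
  rw [MatA_diag he, hu i]

theorem MatA_Ue (he : MU e) {u : ι → A} (hu : ∀ i, Cm e (u i)) (i : ι) :
    (∑ k, e k k * u k) * e i i = e i i * u i := by
  rw [Finset.sum_mul, Finset.sum_eq_single i]
  · rw [mul_assoc, ← hu i, ← mul_assoc, he.mul_same]
  · intro k _ hk
    rw [mul_assoc, ← hu k, ← mul_assoc, he.mul_diff hk, zero_mul]
  · intro h
    exact absurd (Finset.mem_univ i) h

theorem MatA_corner (he : MU e) [Nonempty ι] {u : ι → A} (hu : ∀ i, Cm e (u i)) (i j : ι) (z : A) :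
    e i i * ((∑ k, e k k * u k) * z * star (∑ k, e k k * u k)) * e j j =
      (((√(Fintype.card ι : ℝ))⁻¹ : ℝ) : ℂ) • (e i j * (u i * ent e i j z * star (u j))) := by
  have h1 := congrArg star (MatA_eU he hu j)
  rw [star_mul, star_mul, he.star] at h1
  have h2 : e i i * ((∑ k, e k k * u k) * z * star (∑ k, e k k * u k)) * e j j =
      (e i i * ∑ k, e k k * u k) * z * (star (∑ k, e k k * u k) * e j j) := by
    simp only [mul_assoc]
  have h3 : u i * e i i * z * (e j j * star (u j)) = u i * (e i i * z * e j j) * star (u j) := by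
    simp only [mul_assoc]
  rw [h2, h1, MatA_eU he hu, h3, ent_corner he, mul_smul_comm, smul_mul_assoc, ← mul_assoc (u i),
    ← hu i]
  simp only [mul_assoc]

theorem MatA_conj_diag (he : MU e) {u : ι → A} (hu : ∀ i, Cm e (u i)) {y : ι → A}
    (hy : ∀ i, Cm e (y i)) :
    (∑ k, e k k * u k) * (∑ k, e k k * y k) * star (∑ k, e k k * u k) =
      ∑ k, e k k * (u k * y k * star (u k)) := by
  rw [Finset.mul_sum, Finset.sum_mul]
  refine Finset.sum_congr rfl fun i _ => ?_
  have h1 := congrArg star (MatA_Ue he hu i)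
  rw [star_mul, star_mul, he.star] at h1
  rw [← mul_assoc, MatA_Ue he hu, mul_assoc (e i i), ((hu i).mul (hy i)) i i, mul_assoc _ (e i i),
    h1, ← mul_assoc, ← (((hu i).mul (hy i)).mul ((hu i).star he)) i i]

theorem MatA_split (he : MU e) (z : A) : z = ∑ i, ∑ j, e i i * z * e j j := by
  simp only [← Finset.mul_sum, ← Finset.sum_mul, he.sum, mul_one, one_mul]

theorem MatA_mem (he : MU e) (Q : StarSubalgebra ℂ A) (hQ : ∀ i j, e i j ∈ Q) {y : A}
    (hy : Cm e y) {i j : ι} (h : e i j * y ∈ Q) : y ∈ Q := by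
  have h1 : y = ∑ r, e r i * (e i j * y) * e j r := by
    have h2 : ∀ r, e r i * (e i j * y) * e j r = e r r * y := fun r => by
      rw [← mul_assoc, he.mul_same, mul_assoc, ← hy, ← mul_assoc, he.mul_same]
    simp only [h2, ← Finset.sum_mul, he.sum, one_mul]
  rw [h1]
  exact sum_mem fun r _ => mul_mem (mul_mem (hQ _ _) h) (hQ _ _)

theorem MatA_noEig (he : MU e) {s : ι → A} (hs : ∀ i, Cm e (s i)) (hn : ∀ i, NoEig (s i))
    (t : ι → ℝ) : NoEig (∑ k, e k k * (s k + (t k : ℂ) • (1 : A))) := by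
  intro r y hy
  have h1 : ∀ k, e k k * y = 0 := fun k => by
    refine hn k (r - t k) _ ?_
    have h2 := congrArg (fun z => e k k * z) hy
    beta_reduce at h2
    rw [← mul_assoc, MatA_diag he, mul_add, add_mul, mul_smul_comm, smul_mul_assoc, mul_one,
      mul_smul_comm] at h2
    rw [← mul_assoc, ← hs k, Complex.ofReal_sub, sub_smul, ← h2, add_sub_cancel_right]
  rw [← one_mul y, ← he.sum, Finset.sum_mul]
  exact Finset.sum_eq_zero fun k _ => h1 k

theorem MatA_sa (he : MU e) {s : ι → A} (hs : ∀ i, Cm e (s i)) (hn : ∀ i, IsSelfAdjoint (s i))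
    (t : ι → ℝ) : IsSelfAdjoint (∑ k, e k k * (s k + (t k : ℂ) • (1 : A))) := by
  rw [IsSelfAdjoint, star_sum]
  refine Finset.sum_congr rfl fun k _ => ?_
  rw [star_mul, he.star, star_add, star_smul, star_one, (hn k).star_eq, Complex.star_def,
    Complex.conj_ofReal]
  exact (((hs k).add (Cm.one.smul _)) k k).symm

theorem MatA_unit (T : TW A H) (he : MU e) {S : Set A} {i j : ι} {p : A} (hc : Cm e p)
    (hp : Pos p) (hi : Inj p) (h1 : e i i ∈ T.W S) (h2 : e i j * p ∈ T.W S) : e i j ∈ T.W S := by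
  have hw : Pos (e i j * p * star (e i j * p)) := ⟨star (e i j * p), by rw [star_star]⟩
  obtain ⟨q, hq, hq1, hq2⟩ := T.exists_sqrt hw
  have hp' : Pos (e i i * p) := by
    have h3 := hp.conj (e i i)
    rwa [he.star, mul_assoc, ← hc, ← mul_assoc, he.mul_same] at h3
  have h4 : q = e i i * p := by
    refine T.sqrt_unique hq1 hp' ?_
    rw [hq2, star_mul, he.star, hp.sa.star_eq, ← hc j i, mul_assoc, mul_assoc, ← mul_assoc p,
      ← mul_assoc p, ← hc, ← hc, ← mul_assoc, ← mul_assoc, ← mul_assoc, ← mul_assoc, he.mul_same,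
      he.mul_same]
  have h5 : e i i * p ∈ T.W S := by
    rw [← h4]
    refine T.W_le ?_ hq
    rintro _ rfl
    exact mul_mem h2 (star_mem h2)
  refine T.pm0 (p := e i i * p + (1 - e i i)) (add_mem h5 (sub_mem (one_mem _) h1)) ?_ ?_
  · intro y hy
    have h6 : e i i * y = 0 := by
      apply hi
      have h7 := congrArg (fun z => e i i * z) hy
      simp only [← mul_assoc, mul_add, mul_sub, he.mul_same, mul_one, sub_self, add_zero,
        mul_zero] at h7
      rwa [← mul_assoc, ← hc]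
    rwa [add_mul, hc, mul_assoc, h6, mul_zero, zero_add, sub_mul, h6, one_mul, sub_zero] at hy
  · rwa [add_mul, sub_mul, one_mul, he.mul_same, sub_self, add_zero, mul_assoc, ← hc, ← mul_assoc,
      he.mul_same]

theorem MatA_rg {T : TW A H} {D : StarSubalgebra ℂ A} {c : ℕ → A} (hc : Circ T D c) {x : A}
    (hx : IsSelfAdjoint x) (hn : NoEig x) (hm : x ∈ T.W ((D : Set A) ∪ {c 0})) :
    RG T (T.W ({x} ∪ Set.range fun l => c (l + 1))) := by
  obtain ⟨h, hh, hW⟩ := exists_haar T hx hn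
  have h1 := hc.enlarge (fun l => l + 1) (add_left_injective 1)
  obtain ⟨g, hg, hgW⟩ := h1.extend_ri hh.reg fun _ => by
    have h2 : (h : A) ∈ T.W {x} := hW ▸ T.subset_W _ rfl
    refine T.W_le ?_ h2
    rintro _ rfl
    refine T.W_mono (Set.union_subset_union_right _ ?_) hm
    rintro _ rfl
    exact ⟨0, by simp, rfl⟩
  have h3 := rg_of_countable hg
  rw [range_sum_elim, hgW, Set.range_const, Set.union_comm, T.W_union_congr hW,
    Set.union_comm] at h3
  exact h3

end Aux

theorem matA {T : TW A H} {e : ι → ι → A} (he : MU e) {c : ℕ → A}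
    (hc : Circ T (StarAlgebra.adjoin ℂ (mus e)) c) {i₀ : ι} {p u : ι → A}
    (h : PolData T e c i₀ p u) : RG T (T.W (mus e ∪ Bset e c i₀ p u)) := by
  have : Nonempty ι := ⟨i₀⟩
  have hD : ∀ i j, e i j ∈ StarAlgebra.adjoin ℂ (mus e) := fun i j =>
    StarAlgebra.subset_adjoin ℂ _ (mem_mus i j)
  have hsemi := (hc.ent he hD).semi.sub (fun i : ι => (((0 : ℕ), i, i), false))
    (fun i j hij => congrArg (fun q : (ℕ × ι × ι) × Bool => q.1.2.1) hij)
  set s : ι → A := fun i => reP (ent e i i (c 0)) with hs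
  replace hsemi : Semi T (rel e (StarAlgebra.adjoin ℂ (mus e))) s := hsemi
  have hsc : ∀ i, Cm e (s i) := fun i =>
    ((ent_cm he i i _).add ((ent_cm he i i _).star he)).smul _
  have hW : ∀ j, ∀ y ∈ T.W {ent e i₀ j (c 1)}, Cm e y := fun j =>
    Cm.W T he (by rintro _ rfl; exact ent_cm he _ _ _)
  have hu : ∀ i, Cm e (u i) := fun i => by
    by_cases hi : i = i₀
    · rw [hi, h.u₀]
      exact Cm.one
    · exact hW i _ (h.um i hi)
  let t : ι → ℝ := fun i => 10 * ((Fintype.equivFin ι i : ℕ) : ℝ)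
  have ht : ∀ i j, i ≠ j → 10 ≤ |t i - t j| := fun i j hij => by
    have h1 : ((Fintype.equivFin ι i : ℕ) : ℤ) - ((Fintype.equivFin ι j : ℕ) : ℤ) ≠ 0 := by
      rw [sub_ne_zero, Ne, Nat.cast_inj, Fin.val_inj]
      exact fun h2 => hij ((Fintype.equivFin ι).injective h2)
    have h2 : (1 : ℝ) ≤ |((Fintype.equivFin ι i : ℕ) : ℝ) - ((Fintype.equivFin ι j : ℕ) : ℝ)| := by
      exact_mod_cast Int.one_le_abs h1
    simp only [t]
    rw [← mul_sub, abs_mul, abs_of_pos (by norm_num : (0 : ℝ) < 10)]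
    linarith
  have hrg := MatA_rg hc (MatA_sa he hsc hsemi.sa t) (MatA_noEig he hsc hsemi.noEig t) (by
    have h1 : ∀ i j, e i j ∈ T.W ((StarAlgebra.adjoin ℂ (mus e) : Set A) ∪ {c 0}) := fun i j =>
      T.subset_W _ (Or.inl (hD i j))
    exact sum_mem fun k _ => mul_mem (h1 k k) (add_mem
      (reP_mem _ (ent_mem _ h1 (T.subset_W _ (Or.inr rfl)) k k))
      (SMulMemClass.smul_mem _ (one_mem _))))
  have hU := diag_unitary he (g := u) fun i => ⟨h.un i, hu i⟩
  have hx : (∑ k, e k k * u k) * (∑ k, e k k * (s k + (t k : ℂ) • (1 : A))) *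
      star (∑ k, e k k * u k) = ∑ k, e k k * (u k * s k * star (u k) + (t k : ℂ) • (1 : A)) := by
    rw [MatA_conj_diag he hu fun k => (hsc k).add (Cm.one.smul _)]
    refine Finset.sum_congr rfl fun k _ => ?_
    rw [mul_add (u k), add_mul, mul_smul_comm, smul_mul_assoc, mul_one,
      Unitary.mul_star_self_of_mem (h.un k)]
  have hp : ∀ j, j ≠ i₀ → u i₀ * ent e i₀ j (c 1) * star (u j) = p j := fun j hj => by
    rw [h.u₀, one_mul, h.eq j hj, mul_assoc, Unitary.mul_star_self_of_mem (h.un j), mul_one]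
  have hκ : (((√(Fintype.card ι : ℝ))⁻¹ : ℝ) : ℂ) ≠ 0 := by
    have : (0 : ℝ) < Fintype.card ι := by exact_mod_cast Fintype.card_pos
    exact_mod_cast inv_ne_zero (Real.sqrt_pos.2 this).ne'
  convert hrg.conj hU using 1
  rw [Set.image_union, Set.image_singleton, hx]
  set S := {∑ k, e k k * (u k * s k * star (u k) + (t k : ℂ) • (1 : A))} ∪
    (fun x => (∑ k, e k k * u k) * x * star (∑ k, e k k * u k)) ''
      Set.range fun l => c (l + 1) with hS
  have hs' : ∀ i, Cm e (u i * s i * star (u i)) := fun i =>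
    ((hu i).mul (hsc i)).mul ((hu i).star he)
  apply T.W_eq
  · have h1 : ∀ i, e i i ∈ T.W S := fun i => by
      refine T.W_mono Set.subset_union_left (T.spec_mem (fun k => e k k)
        (fun k => u k * s k * star (u k)) t he.proj he.sum (fun i j hij => he.mul_diff hij i j)
        (fun k => ⟨(hsemi.sa k).conjugate _, ?_⟩) (fun i j => hs' j i i) ht i)
      rw [CStarRing.norm_mul_mem_unitary _ (Unitary.star_mem (h.un k)),
        CStarRing.norm_mem_unitary_mul _ (h.un k)]
      exact hsemi.norm_le k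
    have h2 : ∀ ν i j, e i j * (u i * ent e i j (c (ν + 1)) * star (u j)) ∈ T.W S := fun ν i j => by
      have h3 : e i i * ((∑ k, e k k * u k) * c (ν + 1) * star (∑ k, e k k * u k)) * e j j ∈
          T.W S := mul_mem (mul_mem (h1 i) (T.subset_W _ (Or.inr ⟨_, ⟨ν, rfl⟩, rfl⟩))) (h1 j)
      rw [MatA_corner he hu] at h3
      have h4 := SMulMemClass.smul_mem (((√(Fintype.card ι : ℝ))⁻¹ : ℝ) : ℂ)⁻¹ h3
      rwa [inv_smul_smul₀ hκ] at h4
    have h3 : ∀ j, e i₀ j ∈ T.W S := fun j => by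
      by_cases hj : j = i₀
      · rw [hj]
        exact h1 i₀
      · refine MatA_unit T he (hW j _ (h.pm j hj)) (h.pos j hj) (h.inj j hj) (h1 i₀) ?_
        rw [← hp j hj]
        exact h2 0 i₀ j
    have h4 : ∀ i j, e i j ∈ T.W S := fun i j => by
      rw [← he.mul_same i i₀ j, ← he.star i₀ i]
      exact mul_mem (star_mem (h3 i)) (h3 j)
    have h5 : ∀ ν i j, u i * ent e i j (c (ν + 1)) * star (u j) ∈ T.W S := fun ν i j =>
      MatA_mem he _ h4 (((hu i).mul (ent_cm he _ _ _)).mul ((hu j).star he)) (h2 ν i j)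
    rintro x (⟨i, j, rfl⟩ | ⟨j, hj, rfl⟩ | ⟨i, rfl⟩ | ⟨ν, i, j, hν, -, rfl⟩)
    · exact h4 i j
    · rw [← hp j hj]
      exact h5 0 i₀ j
    · have h6 : e i i * ∑ k, e k k * (u k * s k * star (u k) + (t k : ℂ) • (1 : A)) ∈ T.W S :=
        mul_mem (h1 i) (T.subset_W _ (Or.inl rfl))
      rw [MatA_diag he] at h6
      have h7 := sub_mem (MatA_mem he _ h4 ((hs' i).add (Cm.one.smul _)) h6)
        (SMulMemClass.smul_mem (t i : ℂ) (one_mem (T.W S)))
      rwa [add_sub_cancel_right] at h7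
    · obtain ⟨ν, rfl⟩ := Nat.exists_eq_add_of_le' hν
      exact h5 ν i j
  · have h1 : ∀ i j, e i j ∈ T.W (mus e ∪ Bset e c i₀ p u) := fun i j =>
      T.subset_W _ (Or.inl (mem_mus i j))
    rintro x (rfl | ⟨_, ⟨ν, rfl⟩, rfl⟩)
    · exact sum_mem fun k _ => mul_mem (h1 k k) (add_mem
        (T.subset_W _ (Or.inr (Or.inr (Or.inl ⟨k, rfl⟩)))) (SMulMemClass.smul_mem _ (one_mem _)))
    · beta_reduce
      rw [MatA_split he ((∑ k, e k k * u k) * c (ν + 1) * star (∑ k, e k k * u k))]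
      refine sum_mem fun i _ => sum_mem fun j _ => ?_
      rw [MatA_corner he hu]
      refine SMulMemClass.smul_mem _ (mul_mem (h1 i j) (T.subset_W _ (Or.inr ?_)))
      by_cases h2 : ν + 1 ≠ 1 ∨ i ≠ i₀ ∨ j = i₀
      · exact Or.inr (Or.inr ⟨ν + 1, i, j, Nat.le_add_left 1 ν, h2, rfl⟩)
      · push Not at h2
        rw [h2.1, h2.2.1, hp j h2.2.2]
        exact Or.inl ⟨j, h2.2.2, rfl⟩

end Pool.Agent.TS
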