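import Pool.Agent.P.MP_e05717_an.Main

/-!
Transport of the theorem to an arbitrary Hilbert space with a basis indexed by `F_∞ × ℕ`.
-/

open scoped ComplexOrder InnerProductSpace ComplexConjugate ENNReal

set_option linter.unusedSectionVars false
set_option linter.unusedVariables false

noncomputable section

namespace Pool.Agent.TS

section Alg

variable {A B : Type} [Ring A] [StarRing A] [Algebra ℂ A] [StarModule ℂ A] [Ring B] [StarRing B]
  [Algebra ℂ B] [StarModule ℂ B]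

theorem Move_cent (Φ : A ≃⋆ₐ[ℂ] B) {S : Set A} {S' : Set B} (h : ∀ x, x ∈ S ↔ Φ x ∈ S') (x : A) :
    x ∈ StarSubalgebra.centralizer ℂ S ↔ Φ x ∈ StarSubalgebra.centralizer ℂ S' := by
  rw [StarSubalgebra.mem_centralizer_iff, StarSubalgebra.mem_centralizer_iff]
  constructor
  · intro hx g hg
    obtain ⟨y, rfl⟩ := EquivLike.surjective Φ g
    obtain ⟨h1, h2⟩ := hx y ((h y).2 hg)
    exact ⟨by rw [← map_mul, h1, map_mul], by rw [← map_star, ← map_mul, h2, map_mul]⟩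
  · intro hx g hg
    obtain ⟨h1, h2⟩ := hx _ ((h g).1 hg)
    refine ⟨EquivLike.injective Φ ?_, EquivLike.injective Φ ?_⟩
    · rw [map_mul, map_mul, h1]
    · rw [map_mul, map_mul, map_star, h2]

theorem Move_sub (Φ : A ≃⋆ₐ[ℂ] B) {M : StarSubalgebra ℂ A} {M' : StarSubalgebra ℂ B}
    (h : ∀ x, x ∈ M ↔ Φ x ∈ M') : ∃ Ψ : M ≃⋆ₐ[ℂ] M', ∀ x : M, (Ψ x : B) = Φ x :=
  ⟨{ toFun := fun x => ⟨Φ x, (h _).1 x.2⟩
     invFun := fun y => ⟨Φ.symm y, (h _).2 (by simp)⟩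
     left_inv := fun x => Subtype.ext (by simp)
     right_inv := fun y => Subtype.ext (by simp)
     map_mul' := fun x y => Subtype.ext (by simp)
     map_add' := fun x y => Subtype.ext (by simp)
     map_star' := fun x => Subtype.ext (by simp [map_star])
     map_smul' := fun c x => Subtype.ext (by simp) }, fun _ => rfl⟩

theorem Move_conj (Ψ : A ≃⋆ₐ[ℂ] B) (θ₁ θ₂ : B ≃⋆ₐ[ℂ] B)
    (h : ∃ (σ : A ≃⋆ₐ[ℂ] A) (u : A), u ∈ unitary A ∧ ∀ x,
      σ (((Ψ.trans θ₁).trans Ψ.symm) (σ.symm x)) = u * ((Ψ.trans θ₂).trans Ψ.symm) x * star u) :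
    ∃ (σ : B ≃⋆ₐ[ℂ] B) (u : B), u ∈ unitary B ∧ ∀ x,
      σ (θ₁ (σ.symm x)) = u * θ₂ x * star u := by
  obtain ⟨σ, u, hu, h⟩ := h
  refine ⟨(Ψ.symm.trans σ).trans Ψ, Ψ u, Unitary.map_mem Ψ hu, fun x => ?_⟩
  have h1 := congrArg Ψ (h (Ψ.symm x))
  rw [map_mul, map_mul, map_star] at h1
  simpa using h1

end Alg

section Goal

variable {K K' : Type} [NormedAddCommGroup K] [InnerProductSpace ℂ K] [CompleteSpace K]
  [NormedAddCommGroup K'] [InnerProductSpace ℂ K'] [CompleteSpace K']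

/-- the weight attached to a sequence of vectors -/
def trV (ω : ℕ → K) (x : K →L[ℂ] K) : ℝ≥0∞ := ∑' n, ENNReal.ofReal (⟪ω n, x (ω n)⟫_ℂ).re

/-- the conclusion for an algebra `M` with the trace given by `ω` -/
def ConclV (M : StarSubalgebra ℂ (K →L[ℂ] K)) (ω : ℕ → K) : Prop :=
  ∃ l : ℝ, 0 < l ∧ l < 1 ∧ ∃ θ₁ θ₂ : M ≃⋆ₐ[ℂ] M,
    (∀ x : M, 0 ≤ x.1 → trV ω (θ₁ x).1 = ENNReal.ofReal l * trV ω x.1) ∧
    (∀ x : M, 0 ≤ x.1 → trV ω (θ₂ x).1 = ENNReal.ofReal l * trV ω x.1) ∧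
    ¬ ∃ (σ : M ≃⋆ₐ[ℂ] M) (u : M), u ∈ unitary M ∧ ∀ x, σ (θ₁ (σ.symm x)) = u * θ₂ x * star u

theorem Move_tr (U : K ≃ₗᵢ[ℂ] K') (ω : ℕ → K) (x : K →L[ℂ] K) :
    trV (fun n => U (ω n)) (U.conjStarAlgEquiv x) = trV ω x := by
  simp [trV]

theorem ConclV.move (U : K ≃ₗᵢ[ℂ] K') {M : StarSubalgebra ℂ (K →L[ℂ] K)}
    {M' : StarSubalgebra ℂ (K' →L[ℂ] K')} (hM : ∀ x, x ∈ M ↔ U.conjStarAlgEquiv x ∈ M')
    {ω : ℕ → K} (h : ConclV M' fun n => U (ω n)) : ConclV M ω := by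
  obtain ⟨l, h0, h1, θ₁, θ₂, h2, h3, h4⟩ := h
  obtain ⟨Ψ, hΨ⟩ := Move_sub U.conjStarAlgEquiv hM
  have key : ∀ θ : M' ≃⋆ₐ[ℂ] M', (∀ x : M', 0 ≤ x.1 →
      trV (fun n => U (ω n)) (θ x).1 = ENNReal.ofReal l * trV (fun n => U (ω n)) x.1) →
      ∀ x : M, 0 ≤ x.1 →
        trV ω (((Ψ.trans θ).trans Ψ.symm) x).1 = ENNReal.ofReal l * trV ω x.1 := by
    intro θ hθ x hx
    have h5 : 0 ≤ (Ψ x).1 := by
      rw [hΨ]
      exact map_nonneg U.conjStarAlgEquiv hx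
    have h6 := hθ _ h5
    rw [hΨ, Move_tr] at h6
    rw [← h6, ← Move_tr U, ← hΨ]
    simp
  exact ⟨l, h0, h1, (Ψ.trans θ₁).trans Ψ.symm, (Ψ.trans θ₂).trans Ψ.symm, key θ₁ h2, key θ₂ h3,
    fun h5 => h4 (Move_conj Ψ θ₁ θ₂ h5)⟩

end Goal

theorem Move_basis : ∃ b : HilbertBasis (FreeGroup ℕ × ℕ) ℂ (LP ℕ (LP (FreeGroup ℕ) ℂ)),
    ∀ g n, b (g, n) = dl n g := by
  have ho : Orthonormal ℂ fun p : FreeGroup ℕ × ℕ => dl p.2 p.1 := by
    rw [orthonormal_iff_ite]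
    rintro ⟨g, n⟩ ⟨h, m⟩
    simp only [dl, inner_sg_sg, Prod.mk.injEq]
    by_cases h1 : n = m <;> by_cases h2 : g = h <;> simp [h1, h2]
  have hs : (Submodule.span ℂ (Set.range fun p : FreeGroup ℕ × ℕ => dl p.2 p.1))ᗮ = ⊥ := by
    rw [Submodule.eq_bot_iff]
    intro ξ hξ
    refine lp.ext (funext fun n => lp.ext (funext fun g => ?_))
    have h1 := (Submodule.mem_orthogonal _ _).1 hξ (dl n g)
      (Submodule.subset_span ⟨(g, n), rfl⟩)
    rw [dl, inner_sg, inner_sg] at h1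
    simpa using h1
  exact ⟨HilbertBasis.mkOfOrthogonalEqBot ho hs, fun g n => by
    rw [HilbertBasis.coe_mkOfOrthogonalEqBot]⟩

theorem main_basis {K : Type} [NormedAddCommGroup K] [InnerProductSpace ℂ K] [CompleteSpace K]
    (b : HilbertBasis (FreeGroup ℕ × ℕ) ℂ K) {G : Set (K →L[ℂ] K)}
    (hG : ∀ S, S ∈ G ↔ ∃ (g : FreeGroup ℕ) (i j : ℕ), ∀ h n,
      S (b (h, n)) = if n = j then b (g * h, i) else 0) :
    ConclV (StarSubalgebra.centralizer ℂ (StarSubalgebra.centralizer ℂ G : Set (K →L[ℂ] K)))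
      fun n => b (1, n) := by
  obtain ⟨b₀, hb₀⟩ := Move_basis
  obtain ⟨U, hU⟩ : ∃ U : K ≃ₗᵢ[ℂ] LP ℕ (LP (FreeGroup ℕ) ℂ), ∀ g n, U (b (g, n)) = dl n g :=
    ⟨b.repr.trans b₀.repr.symm, fun g n => by
      rw [LinearIsometryEquiv.trans_apply, b.repr_self, b₀.repr_symm_single, hb₀]⟩
  have hU' : ∀ g n, U.symm (dl n g) = b (g, n) := fun g n => by
    rw [← hU, LinearIsometryEquiv.symm_apply_apply]
  have hgen : ∀ S, S ∈ G ↔ U.conjStarAlgEquiv S ∈ Gen := by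
    intro S
    rw [hG]
    refine exists_congr fun g => exists_congr fun i => exists_congr fun j => ?_
    constructor
    · intro hS n h
      rw [LinearIsometryEquiv.conjStarAlgEquiv_apply_apply, hU', hS]
      split_ifs
      · exact hU _ _
      · exact map_zero U
    · intro hS h n
      apply U.injective
      have h1 := hS n h
      rw [LinearIsometryEquiv.conjStarAlgEquiv_apply_apply, hU'] at h1
      rw [h1]
      split_ifs
      · exact (hU _ _).symm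
      · exact (map_zero U).symm
  have hmain : ConclV NN fun n => dl n 1 := main
  refine ConclV.move U (M' := NN)
    (Move_cent U.conjStarAlgEquiv (Move_cent U.conjStarAlgEquiv hgen)) ?_
  simpa only [hU] using hmain

end Pool.Agent.TS
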