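import Pool.Agent.P.MP_e05717_an.Wick2
import Pool.Agent.P.MP_e05717_an.MU1

/-!
Row TS-Ops. Operations on circular families (paper O1 to O6).
Hints: each operation gives explicit new creation operators. twist: `(l, false) ↦ u ℓ w`,
`(l, true) ↦ star w ℓ star u`. ent: `((l, i, j), false) ↦ √m ∑ r, e r i ℓ(l,false) e j r`,
`((l, i, j), true) ↦ √m ∑ r, e r j ℓ(l,true) e i r`, use `MU.τ_mul`. semi: `(ℓ₀ + ℓ₁)/√2` and
`-I (ℓ₀ - ℓ₁)/√2`.
-/

open scoped ComplexOrder InnerProductSpace ComplexConjugate ENNReal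
open Filter Topology Pool.Agent.P.MP_5d580a_an

set_option linter.unusedSectionVars false
set_option linter.unusedVariables false

noncomputable section

namespace Pool.Agent.TS

variable {A H : Type} [CStarAlgebra A] [NormedAddCommGroup H] [InnerProductSpace ℂ H]
  [CompleteSpace H]
variable {A' H' : Type} [CStarAlgebra A'] [NormedAddCommGroup H'] [InnerProductSpace ℂ H']
  [CompleteSpace H']
variable {ι : Type} [Fintype ι] [DecidableEq ι]

variable {T : TW A H} {T' : TW A' H'} {D : StarSubalgebra ℂ A} {Λ : Type} {c : Λ → A}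

section Aux

variable {I : Type} {bar : I → I} {ℓ : I → (H →L[ℂ] H)} {k : I → A}

theorem Ops_sq : (((√2)⁻¹ : ℝ) : ℂ) * (((√2)⁻¹ : ℝ) : ℂ) = 1 / 2 := by
  rw [← Complex.ofReal_mul, ← mul_inv, Real.mul_self_sqrt zero_le_two]
  norm_num

theorem Ops_sand (T : TW A H) (X Y : H →L[ℂ] H) (a b a' b' d : A) :
    star (T.L a * X * T.L b) * T.L d * (T.L a' * Y * T.L b') =
      T.L (star b) * (star X * T.L (star a * d * a') * Y) * T.L b' := by
  simp only [star_mul, map_mul, map_star, mul_assoc]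

theorem Ops_vac (h : CC T D bar ℓ k) (i : I) {a d : A} (b : A) (ha : a ∈ D) (hd : d ∈ D) :
    (star (T.L a * ℓ i * T.L b)) (T.v d) = 0 := by
  rw [star_mul, star_mul, ← map_star, ← map_star, ContinuousLinearMap.mul_apply,
    ContinuousLinearMap.mul_apply, ← T.v_mul, h.vac i _ (mul_mem (star_mem ha) hd), map_zero]

theorem Ops_twist (h : CC T D bar ℓ k) (a : I → A) (ha : ∀ i, a i ∈ D ∧ a i ∈ unitary A) :
    CC T D bar (fun i => T.L (a i) * ℓ i * T.L (star (a (bar i))))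
      fun i => a i * k i * star (a (bar i)) := by
  refine ⟨h.invol, fun i => ?_, fun i d hd => ?_, fun i j hij d hd => ?_,
    fun i d hd => Ops_vac h i _ (ha i).1 hd⟩
  · simp only [map_mul, h.split, h.invol, star_mul, map_star, star_star, mul_add, add_mul,
      mul_assoc]
  · rw [Ops_sand, h.same i _ (mul_mem (mul_mem (star_mem (ha i).1) hd) (ha i).1), mul_smul_comm,
      smul_mul_assoc, mul_one, ← map_mul, star_star, (ha _).2.2, map_one, T.τ_comm, ← mul_assoc,
      (ha i).2.2, one_mul]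
  · rw [Ops_sand, h.diff i j hij _ (mul_mem (mul_mem (star_mem (ha i).1) hd) (ha j).1), mul_zero,
      zero_mul]

theorem Ops_exp (X Y X' Y' L : H →L[ℂ] H) (a b a' b' : ℂ) :
    star (a • X + b • Y) * L * (a' • X' + b' • Y') =
      (conj a * a') • (star X * L * X') + (conj a * b') • (star X * L * Y') +
        (conj b * a') • (star Y * L * X') + (conj b * b') • (star Y * L * Y') := by
  simp only [star_add, star_smul, add_mul, mul_add, smul_mul_assoc, mul_smul_comm, smul_add,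
    RCLike.star_def]
  module

theorem Ops_mix (h : CC T D bar ℓ k) {J Γ : Type} (g : J → Γ) (F : Γ × Bool → I)
    (hF : Function.Injective F) (α β : J → ℂ)
    (h1 : ∀ j, conj (α j) * α j + conj (β j) * β j = 1)
    (h2 : ∀ i j, i ≠ j → g i = g j → conj (α i) * α j + conj (β i) * β j = 0)
    {bar' : J → J} {k' : J → A} (hi : ∀ j, bar' (bar' j) = j)
    (hs : ∀ j, T.L (k' j) = (α j • ℓ (F (g j, false)) + β j • ℓ (F (g j, true))) +
      star (α (bar' j) • ℓ (F (g (bar' j), false)) + β (bar' j) • ℓ (F (g (bar' j), true)))) :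
    CC T D bar' (fun j => α j • ℓ (F (g j, false)) + β j • ℓ (F (g j, true))) k' := by
  have e1 : ∀ x y, ∀ d ∈ D, star (ℓ (F (x, false))) * T.L d * ℓ (F (y, true)) = 0 :=
    fun x y => h.diff _ _ fun e => by simpa using hF e
  have e2 : ∀ x y, ∀ d ∈ D, star (ℓ (F (x, true))) * T.L d * ℓ (F (y, false)) = 0 :=
    fun x y => h.diff _ _ fun e => by simpa using hF e
  refine ⟨hi, hs, fun i d hd => ?_, fun i j hij d hd => ?_, fun i d hd => ?_⟩
  · rw [Ops_exp, e1 _ _ d hd, e2 _ _ d hd, h.same _ d hd, h.same _ d hd, smul_zero, smul_zero,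
      add_zero, add_zero, ← add_smul, h1, one_smul]
  · rw [Ops_exp, e1 _ _ d hd, e2 _ _ d hd, smul_zero, smul_zero, add_zero, add_zero]
    by_cases e : g i = g j
    · rw [e, h.same _ d hd, h.same _ d hd, ← add_smul, h2 i j hij e, zero_smul]
    · rw [h.diff _ _ (fun e' => e (congrArg Prod.fst (hF e'))) d hd,
        h.diff _ _ (fun e' => e (congrArg Prod.fst (hF e'))) d hd, smul_zero, smul_zero, add_zero]
  · simp only [star_add, star_smul, add_apply, smul_apply,
      h.vac _ d hd, smul_zero, add_zero]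

theorem Ops_ent {e : ι → ι → A} (he : MU e) (hD : ∀ i j, e i j ∈ D) {X Y : H →L[ℂ] H} {z : ℂ}
    (h : ∀ d ∈ D, star X * T.L d * Y = (z * T.τ d) • (1 : H →L[ℂ] H)) {d : A} (hd : d ∈ rel e D)
    (i j i' j' : ι) :
    star (ent (fun a b => T.L (e a b)) i j X) * T.L d * ent (fun a b => T.L (e a b)) i' j' Y =
      (if i = i' ∧ j = j' then z * T.τ d else 0) • (1 : H →L[ℂ] H) := by
  obtain ⟨hd1, hd2⟩ := (mem_rel he).1 hd
  have hm : (Fintype.card ι : ℂ) ≠ 0 := Nat.cast_ne_zero.2 (Fintype.card_pos_iff.2 ⟨i⟩).ne'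
  have e1 : ∀ r s, star (T.L (e r i) * X * T.L (e j r)) * T.L d * (T.L (e s i') * Y * T.L (e j' s))
      = if r = s then (if i = i' ∧ j = j' then z * T.τ d / Fintype.card ι else 0) • T.L (e r r)
        else 0 := by
    intro r s
    rw [Ops_sand, h _ (mul_mem (mul_mem (star_mem (hD _ _)) hd1) (hD _ _)), mul_smul_comm,
      smul_mul_assoc, mul_one, ← map_mul, he.star, he.star, mul_assoc, ← hd2, ← mul_assoc, he.mul,
      he.mul]
    by_cases h1 : r = s
    · subst h1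
      rw [if_pos rfl, if_pos rfl, he.τ_mul T hd2]
      by_cases h2 : i = i' <;> by_cases h3 : j = j' <;> simp [h2, h3, mul_div_assoc]
    · simp [h1]
  have e2 : ((√(Fintype.card ι : ℝ) : ℝ) : ℂ) * ((√(Fintype.card ι : ℝ) : ℝ) : ℂ) =
      Fintype.card ι := by
    rw [← Complex.ofReal_mul, Real.mul_self_sqrt (Nat.cast_nonneg _), Complex.ofReal_natCast]
  rw [ent, ent, star_smul, star_sum, smul_mul_assoc, smul_mul_assoc, mul_smul_comm, smul_smul,
    Finset.sum_mul, Finset.sum_mul_sum]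
  simp only [e1, Finset.sum_ite_eq, Finset.mem_univ, if_true]
  rw [← Finset.smul_sum, ← map_sum, he.sum, map_one, smul_smul, RCLike.star_def,
    Complex.conj_ofReal, e2]
  congr 1
  split_ifs
  · rw [mul_div_cancel₀ _ hm]
  · rw [mul_zero]

end Aux

theorem Ops_adj (S : Set A) (c : Λ → A) :
    StarAlgebra.adjoin ℂ (S ∪ Set.range (cb c)) = StarAlgebra.adjoin ℂ (S ∪ Set.range c) := by
  refine le_antisymm (StarAlgebra.adjoin_le (Set.union_subset
    (Set.subset_union_left.trans (StarAlgebra.subset_adjoin ℂ _)) ?_))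
    (StarAlgebra.adjoin_mono (Set.union_subset_union_right _ ?_))
  · rintro _ ⟨⟨l, _ | _⟩, rfl⟩
    · exact StarAlgebra.subset_adjoin ℂ _ (Or.inr ⟨l, rfl⟩)
    · exact star_mem (StarAlgebra.subset_adjoin ℂ (S ∪ Set.range c) (Or.inr ⟨l, rfl⟩))
  · rintro _ ⟨l, rfl⟩
    exact ⟨(l, false), rfl⟩

theorem flip_flip (p : Λ × Bool) : flip (flip p) = p := by
  simp [flip]

theorem W_cb (T : TW A H) (S : Set A) (c : Λ → A) :
    T.W (S ∪ Set.range (cb c)) = T.W (S ∪ Set.range c) := by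
  have h : StarAlgebra.adjoin ℂ (S ∪ Set.range (cb c)) =
      StarAlgebra.adjoin ℂ (S ∪ Set.range c) := Ops_adj S c
  ext x
  rw [T.mem_W, T.mem_W, h]

theorem adjoin_cb (S : Set A) (c : Λ → A) :
    StarAlgebra.adjoin ℂ (S ∪ Set.range (cb c)) = StarAlgebra.adjoin ℂ (S ∪ Set.range c) :=
  Ops_adj S c

theorem Circ.mono (h : Circ T D c) {D' : StarSubalgebra ℂ A} (hD : D' ≤ D) : Circ T D' c :=
  h.imp fun _ h => h.mono hD

theorem Circ.sub (h : Circ T D c) {Λ' : Type} (f : Λ' → Λ) (hf : Function.Injective f) :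
    Circ T D fun l => c (f l) := by
  obtain ⟨ℓ, h⟩ := h
  exact ⟨_, h.sub (Prod.map f id) (hf.prodMap Function.injective_id) fun _ => rfl⟩

theorem Circ.enlarge (h : Circ T D c) {Λ' : Type} (f : Λ' → Λ) (hf : Function.Injective f) :
    Circ T (T.W ((D : Set A) ∪ {x | ∃ l, l ∉ Set.range f ∧ x = c l})) fun l => c (f l) := by
  obtain ⟨ℓ, h⟩ := h
  refine ⟨_, (h.enlarge (bar' := flip) (Prod.map f id) (hf.prodMap Function.injective_id)
    fun _ => rfl).mono (T.W_mono (Set.union_subset_union_right _ ?_))⟩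
  rintro _ ⟨l, hl, rfl⟩
  exact ⟨(l, false), fun ⟨p, hp⟩ => hl ⟨p.1, congrArg Prod.fst hp⟩, rfl⟩

theorem Circ.twist (h : Circ T D c) (u w : Λ → A) (hu : ∀ l, u l ∈ D ∧ u l ∈ unitary A)
    (hw : ∀ l, w l ∈ D ∧ w l ∈ unitary A) : Circ T D fun l => u l * c l * w l := by
  obtain ⟨ℓ, h⟩ := h
  have h1 := Ops_twist h (fun p => cond p.2 (star (w p.1)) (u p.1)) fun ⟨l, b⟩ => by
    cases b
    · exact hu l
    · exact ⟨star_mem (hw l).1, Unitary.star_mem (hw l).2⟩
  refine ⟨_, cast (congrArg _ (funext fun ⟨l, b⟩ => ?_)) h1⟩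
  cases b <;> simp [cb, flip, mul_assoc]

theorem Circ.ent (h : Circ T D c) {e : ι → ι → A} (he : MU e) (hD : ∀ i j, e i j ∈ D) :
    Circ T (rel e D) fun p : Λ × ι × ι => ent e p.2.1 p.2.2 (c p.1) := by
  obtain ⟨ℓ, h⟩ := h
  have he' := he.map T.L
  have hs : ∀ p, ∀ d ∈ D, star (ℓ p) * T.L d * ℓ p = (1 * T.τ d) • (1 : H →L[ℂ] H) :=
    fun p d hd => by rw [one_mul, h.same p d hd]
  have hn : ∀ p q, p ≠ q → ∀ d ∈ D, star (ℓ p) * T.L d * ℓ q = (0 * T.τ d) • (1 : H →L[ℂ] H) :=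
    fun p q hpq d hd => by rw [zero_mul, zero_smul, h.diff p q hpq d hd]
  refine ⟨fun q => _root_.Pool.Agent.TS.ent (fun a b => T.L (e a b)) (cond q.2 q.1.2.2 q.1.2.1)
    (cond q.2 q.1.2.1 q.1.2.2) (ℓ (q.1.1, q.2)), flip_flip, ?_, fun q d hd => ?_, ?_, ?_⟩
  · rintro ⟨⟨l, i, j⟩, _ | _⟩
    · exact (ent_map T.L i j (c l)).trans <| (congrArg _ (h.split (l, false))).trans <|
        (ent_add _ _ _ _).trans (congrArg _ (ent_star he' _ _ _).symm)
    · exact (congrArg T.L (ent_star he i j (c l))).trans <| (ent_map T.L j i _).trans <|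
        (congrArg _ (h.split (l, true))).trans <|
          (ent_add _ _ _ _).trans (congrArg _ (ent_star he' _ _ _).symm)
  · rw [Ops_ent he hD (hs _) hd, if_pos ⟨rfl, rfl⟩, one_mul]
  · rintro ⟨⟨l, i, j⟩, b⟩ ⟨⟨l', i', j'⟩, b'⟩ hq d hd
    by_cases h1 : (l, b) = (l', b')
    · obtain ⟨rfl, rfl⟩ := Prod.mk.inj h1
      rw [Ops_ent he hD (hs _) hd, if_neg, zero_smul]
      cases b <;> rintro ⟨rfl, rfl⟩ <;> exact hq rfl
    · rw [Ops_ent he hD (hn _ _ h1) hd, zero_mul, ite_self, zero_smul]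
  · intro q d hd
    rw [_root_.Pool.Agent.TS.ent, star_smul, star_sum, smul_apply,
      sum_apply,
      Finset.sum_eq_zero fun r _ => Ops_vac h _ _ (hD _ _) ((mem_rel he).1 hd).1, smul_zero]

theorem Circ.rot {c : Λ × Bool → A} (h : Circ T D c) (t : ℝ) : Circ T D (rot t c) := by
  obtain ⟨ℓ, h⟩ := h
  have h0 := Real.sin_sq_add_cos_sq t
  refine ⟨_, Ops_mix h (fun q : (Λ × Bool) × Bool => (q.1.1, q.2))
    (fun x => ((x.1.1, x.2), x.1.2)) (fun ⟨⟨_, _⟩, _⟩ ⟨⟨_, _⟩, _⟩ e => by simp_all)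
    (fun q => ((cond q.1.2 (-Real.sin t) (Real.cos t) : ℝ) : ℂ))
    (fun q => ((cond q.1.2 (Real.cos t) (Real.sin t) : ℝ) : ℂ)) ?_ ?_ flip_flip ?_⟩
  · rintro ⟨⟨l, b⟩, s⟩
    simp only [Complex.conj_ofReal]
    norm_cast
    cases b <;> simp only [cond_true, cond_false] <;> linarith
  · rintro ⟨⟨l, b⟩, s⟩ ⟨⟨l', b'⟩, s'⟩ h1 h2
    obtain ⟨rfl, rfl⟩ := Prod.mk.inj h2
    simp only [Complex.conj_ofReal]
    norm_cast
    cases b <;> cases b' <;> first | exact absurd rfl h1 | simp only [cond_true, cond_false]; ring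
  · have a1 : ∀ x, T.L (c x) = ℓ (x, false) + star (ℓ (x, true)) := fun x => h.split (x, false)
    have a2 : ∀ x, T.L (star (c x)) = ℓ (x, true) + star (ℓ (x, false)) :=
      fun x => h.split (x, true)
    rintro ⟨⟨l, _ | _⟩, _ | _⟩ <;>
      simp only [cb, _root_.Pool.Agent.TS.rot, flip, cond_true, cond_false, Bool.not_true,
        Bool.not_false, star_add, star_smul, map_add, map_smul, a1, a2, RCLike.star_def,
        Complex.conj_ofReal] <;> module

theorem Circ.semi (h : Circ T D c) : Semi T D (ri c) := by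
  obtain ⟨ℓ, h⟩ := h
  have h0 := Ops_sq
  have h1 := Complex.I_mul_I
  refine ⟨_, Ops_mix h (fun q : Λ × Bool => q.1) id Function.injective_id
    (fun q => (((√2)⁻¹ : ℝ) : ℂ) * cond q.2 (-Complex.I) 1)
    (fun q => (((√2)⁻¹ : ℝ) : ℂ) * cond q.2 Complex.I 1) ?_ ?_ (fun _ => rfl) ?_⟩
  · rintro ⟨l, _ | _⟩ <;>
      simp only [cond_true, cond_false, map_mul, map_neg, map_one, Complex.conj_ofReal,
        Complex.conj_I]
    · linear_combination 2 * h0
    · linear_combination (-2 * Complex.I * Complex.I) * h0 - h1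
  · rintro ⟨l, _ | _⟩ ⟨l', _ | _⟩ h2 rfl <;> first
      | exact absurd rfl h2
      | simp only [cond_true, cond_false, map_mul, map_neg, map_one, Complex.conj_ofReal,
          Complex.conj_I]
        ring
  · have a1 : ∀ x, T.L (c x) = ℓ (x, false) + star (ℓ (x, true)) := fun x => h.split (x, false)
    have a2 : ∀ x, T.L (star (c x)) = ℓ (x, true) + star (ℓ (x, false)) :=
      fun x => h.split (x, true)
    rintro ⟨l, _ | _⟩ <;>
      simp only [ri, reP, imP, id, cond_true, cond_false, star_add, star_smul, map_add, map_sub,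
        map_smul, a1, a2, RCLike.star_def, map_mul, map_neg, map_one, Complex.conj_ofReal,
        Complex.conj_I] <;> module

theorem Circ.match (h : Circ T D c) {D' : StarSubalgebra ℂ A'} {c' : Λ → A'} (h' : Circ T' D' c')
    {S : Set (A × A')} (hS : Match T T' S) (hD : ∀ p ∈ S, p.1 ∈ D ∧ p.2 ∈ D') :
    Match T T' (S ∪ Set.range fun l => (c l, c' l)) := by
  obtain ⟨ℓ, h⟩ := h
  obtain ⟨ℓ', h'⟩ := h'
  refine (h.match h' hS hD).mono (Set.Subset.trans (Set.union_subset_union_right _ ?_)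
    (StarAlgebra.subset_adjoin ℂ _))
  rintro _ ⟨l, rfl⟩
  exact ⟨(l, false), rfl⟩

theorem Circ.norm_le (h : Circ T D c) (l : Λ) : ‖c l‖ ≤ 2 := by
  obtain ⟨ℓ, h⟩ := h
  exact h.norm_c_le (l, false)

theorem Semi.mono {I : Type} {s : I → A} (h : Semi T D s) {D' : StarSubalgebra ℂ A}
    (hD : D' ≤ D) : Semi T D' s :=
  h.imp fun _ h => h.mono hD

theorem Semi.sub {I : Type} {s : I → A} (h : Semi T D s) {I' : Type} (f : I' → I)
    (hf : Function.Injective f) : Semi T D fun i => s (f i) := by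
  obtain ⟨ℓ, h⟩ := h
  exact ⟨_, h.sub f hf fun _ => rfl⟩

theorem Semi.sa {I : Type} {s : I → A} (h : Semi T D s) (i : I) : IsSelfAdjoint (s i) := by
  obtain ⟨ℓ, h⟩ := h
  exact h.star_c i

theorem Semi.norm_le {I : Type} {s : I → A} (h : Semi T D s) (i : I) : ‖s i‖ ≤ 2 := by
  obtain ⟨ℓ, h⟩ := h
  exact h.norm_c_le i

theorem Semi.sf {s : Fin 144 → A} (h : Semi T D s) : SF T s := by
  obtain ⟨ℓ, h⟩ := h
  exact ⟨ℓ, h.split, h.iso, fun _ _ => h.orth⟩

theorem reP_mem (Q : StarSubalgebra ℂ A) {x : A} (hx : x ∈ Q) : reP x ∈ Q :=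
  Q.smul_mem (add_mem hx (star_mem hx)) _

theorem imP_mem (Q : StarSubalgebra ℂ A) {x : A} (hx : x ∈ Q) : imP x ∈ Q :=
  Q.smul_mem (sub_mem hx (star_mem hx)) _

theorem eq_re_im (x : A) : x = (((√2)⁻¹ : ℝ) : ℂ) • (reP x + Complex.I • imP x) := by
  have h0 := Ops_sq
  have h1 := Complex.I_mul_I
  rw [reP, imP]
  generalize star x = y
  generalize (((√2)⁻¹ : ℝ) : ℂ) = a at h0 ⊢
  match_scalars
  · linear_combination (-1 + Complex.I * Complex.I) * h0 + (1 / 2) * h1
  · linear_combination (-1 - Complex.I * Complex.I) * h0 - (1 / 2) * h1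

theorem reP_map (φ : A →⋆ₐ[ℂ] A') (x : A) : φ (reP x) = reP (φ x) := by
  rw [reP, reP, map_smul, map_add, map_star]

theorem reP_conj (u x : A) : reP (u * x * star u) = u * reP x * star u := by
  simp only [reP, star_mul, star_star, mul_smul_comm, smul_mul_assoc, mul_add, add_mul, mul_assoc,
    smul_add]

theorem W_ri (T : TW A H) (S : Set A) (c : Λ → A) :
    T.W (S ∪ Set.range (ri c)) = T.W (S ∪ Set.range c) := by
  refine T.W_eq (Set.union_subset (Set.subset_union_left.trans (T.subset_W _)) ?_)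
    (Set.union_subset (Set.subset_union_left.trans (T.subset_W _)) ?_)
  · rintro _ ⟨⟨l, _ | _⟩, rfl⟩
    · exact reP_mem _ (T.subset_W _ (Or.inr ⟨l, rfl⟩))
    · exact imP_mem _ (T.subset_W _ (Or.inr ⟨l, rfl⟩))
  · rintro _ ⟨l, rfl⟩
    rw [eq_re_im (c l)]
    exact StarSubalgebra.smul_mem _ (add_mem (T.subset_W _ (Or.inr ⟨(l, false), rfl⟩))
      (StarSubalgebra.smul_mem _ (T.subset_W _ (Or.inr ⟨(l, true), rfl⟩)) _)) _

end Pool.Agent.TS
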