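import Pool.Agent.P.MP_e05717_an.St

/-!
Row TS-Rigid. The iteration, the a priori bound and the rigidity theorem (paper section 6, end).
Hints: `exists_inter`: recursively `x r` with `St (x r) r (δ₀ / 2 ^ r)`,
`n2 (x r - x₀) ≤ 1044 δ₀ (1 - 2⁻¹ ^ r)`, `st_step` with `B = 2288 δ₀` (`Del_lip`);
`cauchySeq_of_le_geometric_two`, `exists_lim_cauchy`. `apriori`: `x₀ t = α t q * q`; the maps
`t ↦ Del (α t) g (x₀ t)` are continuous (`α t g * α t q * q = α t (g * q) * q`, `R_v`) and vanish at `0`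
for `g` commuting with `q`; `Th_base`, `dia_one`; induction on `K` with `c6` and
`intermediate_value_Icc`. `rigid`: `t = π / (2 k) ≤ t₀`, `star x * x = γ • q` by `c1` with `η = 0`,
`X 0 = q`, `X (r+1) = α (r t) x * X r`.
-/

open scoped ComplexOrder InnerProductSpace ComplexConjugate ENNReal
open Filter Topology Pool.Agent.P.MP_5d580a_an

set_option linter.unusedSectionVars false
set_option linter.unusedVariables false

noncomputable section

namespace Pool.Agent.TS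

variable {A H : Type} [CStarAlgebra A] [NormedAddCommGroup H] [InnerProductSpace ℂ H]
  [CompleteSpace H]
variable {ι : Type} [Fintype ι] [DecidableEq ι]

variable {T : TW A H} {α ρ : A →⋆ₐ[ℂ] A} {q e₀ : A} {V : ι → A} {a : Fin 144 → A} {Z : ℕ → A}
  {Δ : Type} [Fintype Δ] {sgn : ι → Δ → ℝ} {n : ℕ} {wi : ι ≃ (Fin (2 * n) → Tag × Δ)}

theorem Rigid_n2_pos (h : Rig T ρ q e₀ V a Z sgn wi) : 0 < T.n2 q :=
  lt_of_le_of_ne (T.n2_nonneg q) fun e => h.q_ne (T.n2_eq_zero.1 e.symm)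

/-- one step of the iteration, with the distance to the starting point -/
theorem Rigid_step (h : Rig T ρ q e₀ V a Z sgn wi) (hα : Defo T ρ e₀ α) {x₀ : A} {δ₀ : ℝ}
    (hδ0 : 0 ≤ δ₀) (hδ : 30000 * δ₀ ≤ T.n2 q) (hK : ∀ K, Del T α (Z K) x₀ ≤ 200 * δ₀)
    (hn : 9 / 10 * T.n2 q ≤ T.n2 x₀) (r : ℕ) (x : A)
    (hx : St T α ρ V q a Z x r (δ₀ / 2 ^ r) ∧
      T.n2 (x - x₀) ≤ 1044 * δ₀ - 1044 * (δ₀ / 2 ^ r)) :
    ∃ ξ, (St T α ρ V q a Z ξ (r + 1) (δ₀ / 2 ^ (r + 1)) ∧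
      T.n2 (ξ - x₀) ≤ 1044 * δ₀ - 1044 * (δ₀ / 2 ^ (r + 1))) ∧
      T.n2 (ξ - x) ≤ 522 * (δ₀ / 2 ^ r) := by
  obtain ⟨hs, hd⟩ := hx
  have e : δ₀ / 2 ^ (r + 1) = δ₀ / 2 ^ r / 2 := by rw [pow_succ, div_div]
  rw [e]
  have hD0 : 0 ≤ δ₀ / 2 ^ r := by positivity
  have hD1 : δ₀ / 2 ^ r ≤ δ₀ := div_le_self hδ0 (one_le_pow₀ one_le_two)
  generalize δ₀ / 2 ^ r = D at *
  have hB : Del T α (Z (r + 1)) x ≤ 2288 * δ₀ := by
    have h1 := Del_lip T α (T.norm_unitary (h.hZ (r + 1)).1).le x x₀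
    have h2 := hK (r + 1)
    linarith
  have hx : T.n2 x₀ ≤ T.n2 x + T.n2 (x - x₀) := by
    rw [T.n2_sub_comm]
    exact T.n2_le_add_sub x₀ x
  obtain ⟨ξ, h1, h2⟩ := st_step h hα hs hB (by linarith) (by linarith)
  refine ⟨ξ, ⟨h1, ?_⟩, h2⟩
  have h3 := T.n2_triangle ξ x x₀
  linarith

theorem exists_inter (h : Rig T ρ q e₀ V a Z sgn wi) (hα : Defo T ρ e₀ α) {x₀ : A} {δ₀ : ℝ}
    (hδ : 30000 * δ₀ ≤ T.n2 q) (hs : St T α ρ V q a Z x₀ 0 δ₀)
    (hK : ∀ K, Del T α (Z K) x₀ ≤ 200 * δ₀) (hn : 9 / 10 * T.n2 q ≤ T.n2 x₀) :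
    ∃ x, x ≠ 0 ∧ InX α q x ∧ ∀ j, α (a j) * x = x * a j := by
  have hδ0 : 0 ≤ δ₀ := (Del_nonneg T α _ _).trans hs.2.2.1
  have hq := Rigid_n2_pos h
  have step := Rigid_step h hα hδ0 hδ hK hn
  choose! f hf using step
  let x : ℕ → A := fun r => Nat.rec x₀ (fun r y => f r y) r
  have hP : ∀ r, St T α ρ V q a Z (x r) r (δ₀ / 2 ^ r) ∧
      T.n2 (x r - x₀) ≤ 1044 * δ₀ - 1044 * (δ₀ / 2 ^ r) := by
    intro r
    induction r with
    | zero =>
      have e : x 0 = x₀ := rfl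
      rw [e, pow_zero, div_one, sub_self, sub_self, T.n2_zero]
      exact ⟨hs, le_rfl⟩
    | succ r ih => exact (hf r (x r) ih).1
  have hd : ∀ r, T.n2 (x (r + 1) - x r) ≤ 522 * (δ₀ / 2 ^ r) := fun r => (hf r (x r) (hP r)).2
  have hc : CauchySeq fun r => T.v (x r) := by
    refine cauchySeq_of_le_geometric_two (C := 1044 * δ₀) fun r => ?_
    rw [dist_comm, dist_eq_norm, ← map_sub]
    refine (hd r).trans_eq ?_
    ring
  obtain ⟨y, hy1, hy⟩ := T.exists_lim_cauchy x 1 (fun r => (hP r).1.1.2.2) hc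
  have hn2 : Tendsto (fun r => T.n2 (y - x r)) atTop (𝓝 0) := by
    have h1 := tendsto_iff_norm_sub_tendsto_zero.1 hy
    refine h1.congr fun r => ?_
    rw [T.n2_sub_comm, T.n2_def, map_sub]
  refine ⟨y, ?_, ⟨?_, ?_, hy1⟩, fun j => ?_⟩
  · rintro rfl
    have h1 : Tendsto (fun r => T.n2 (x r)) atTop (𝓝 0) := by
      refine hn2.congr fun r => ?_
      rw [zero_sub, T.n2_neg]
    have h2 : T.n2 q / 2 ≤ 0 := by
      refine ge_of_tendsto' h1 fun r => ?_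
      have h3 : T.n2 x₀ ≤ T.n2 (x r) + T.n2 (x r - x₀) := by
        rw [T.n2_sub_comm]
        exact T.n2_le_add_sub x₀ (x r)
      have h4 := (hP r).2
      have h5 : 0 ≤ δ₀ / 2 ^ r := by positivity
      linarith
    linarith
  · apply T.v_inj
    rw [T.v_mul]
    refine tendsto_nhds_unique (((T.L (α q)).continuous.tendsto _).comp hy) (hy.congr fun r => ?_)
    rw [Function.comp_apply, ← T.v_mul, (hP r).1.1.1]
  · apply T.v_inj
    rw [← T.R_v]
    refine tendsto_nhds_unique (((T.R q).continuous.tendsto _).comp hy) (hy.congr fun r => ?_)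
    rw [Function.comp_apply, T.R_v, (hP r).1.1.2.1]
  · have h1 : Tendsto (fun r : ℕ => δ₀ / 2 ^ r) atTop (𝓝 0) :=
      tendsto_const_nhds.div_atTop (tendsto_pow_atTop_atTop_of_one_lt one_lt_two)
    have h2 : Tendsto (fun r : ℕ => δ₀ / 2 ^ r + 2 * T.n2 (y - x r)) atTop (𝓝 0) := by
      simpa using h1.add (hn2.const_mul 2)
    have h3 : Del T α (a j) y ≤ 0 := by
      refine ge_of_tendsto' h2 fun r => ?_
      have h4 := Del_lip T α (T.norm_unitary (h.ha j).1).le y (x r)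
      have h5 := (hP r).1.2.1 j
      linarith
    exact sub_eq_zero.1 (T.n2_eq_zero.1 (le_antisymm h3 (T.n2_nonneg _)))

theorem Rigid_cont_mul (T : TW A H) (α : ℝ → (A →⋆ₐ[ℂ] A))
    (hc : ∀ x, Continuous fun t => T.v (α t x)) (g y : A) :
    Continuous fun t => T.v (α t g * y) := by
  simp only [← T.R_v]
  exact (T.R y).continuous.comp (hc g)

theorem Rigid_cont_Del (T : TW A H) (α : ℝ → (A →⋆ₐ[ℂ] A))
    (hc : ∀ x, Continuous fun t => T.v (α t x)) (g q : A) :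
    Continuous fun t => Del T (α t) g (α t q * q) := by
  have h := ((Rigid_cont_mul T α hc (g * q) q).sub (Rigid_cont_mul T α hc q (q * g))).norm
  refine h.congr fun t => ?_
  rw [Del, T.n2_def, map_sub, Pi.sub_apply, map_mul (α t), mul_assoc, mul_assoc]

theorem Rigid_Del_zero (T : TW A H) (α : ℝ → (A →⋆ₐ[ℂ] A)) (h0 : ∀ x, α 0 x = x) {g q : A}
    (hg : g * q = q * g) : Del T (α 0) g (α 0 q * q) = 0 := by
  rw [Del, h0, h0, ← mul_assoc, hg, mul_assoc, hg, ← mul_assoc, sub_self, T.n2_zero]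

theorem Rigid_inX (hq : IsStarProjection q) (α : A →⋆ₐ[ℂ] A) : InX α q (α q * q) := by
  refine ⟨?_, ?_, ?_⟩
  · rw [← mul_assoc, ← map_mul, hq.isIdempotentElem.eq]
  · rw [mul_assoc, hq.isIdempotentElem.eq]
  · have h1 : ‖q‖ ≤ 1 := hq.norm_le q
    have h2 : ‖α q‖ ≤ 1 := (hom_norm_le α q).trans h1
    exact (norm_mul_le _ _).trans (mul_le_one₀ h2 (norm_nonneg _) h1)

theorem apriori (h : Rig T ρ q e₀ V a Z sgn wi) (α : ℝ → (A →⋆ₐ[ℂ] A))
    (hα : ∀ t, Defo T ρ e₀ (α t)) (h0 : ∀ x, α 0 x = x)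
    (hc : ∀ x, Continuous fun t => T.v (α t x)) :
    ∃ t₀ : ℝ, 0 < t₀ ∧ ∀ t, 0 ≤ t → t ≤ t₀ →
      St T (α t) ρ V q a Z (α t q * q) 0 (T.n2 q / 30000) ∧
      (∀ K, Del T (α t) (Z K) (α t q * q) ≤ 200 * (T.n2 q / 30000)) ∧
      9 / 10 * T.n2 q ≤ T.n2 (α t q * q) := by
  have hq := Rigid_n2_pos h
  have hp := h.fr.q_proj
  have hδ : 0 < T.n2 q / 30000 := by positivity
  have key : ∀ g, g * q = q * g →
      ∀ᶠ t in 𝓝 (0 : ℝ), Del T (α t) g (α t q * q) ≤ T.n2 q / 30000 := fun g hg =>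
    ((Rigid_cont_Del T α hc g q).continuousAt.eventually_lt continuousAt_const
      (by rw [Rigid_Del_zero T α h0 hg]; exact hδ)).mono fun _ => le_of_lt
  have e1 : ∀ᶠ t in 𝓝 (0 : ℝ), SA T (α t) a (α t q * q) (T.n2 q / 30000) :=
    eventually_all.2 fun j => key _ (h.ha j).2
  have e2 := key _ (h.hZ 0).2
  have e3 : ∀ᶠ t in 𝓝 (0 : ℝ), Vd T (α t) ρ V (α t q * q) (T.n2 q / 30000) := by
    have c1 : Continuous fun t => T.n2 (∑ i, α t (V i) * star (V i) - α t q * q) := by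
      have c2 := ((continuous_finsetSum Finset.univ fun i _ =>
        Rigid_cont_mul T α hc (V i) (star (V i))).sub (Rigid_cont_mul T α hc q q)).norm
      refine c2.congr fun t => ?_
      rw [T.n2_def, map_sub, map_sum, Pi.sub_apply]
    have c3 := c1.continuousAt.eventually_lt (continuousAt_const (y := T.n2 q / 30000) (x := 0))
      (by
        simp only [h0]
        rw [h.fr.sum, hp.isIdempotentElem.eq, sub_self, T.n2_zero]
        exact hδ)
    filter_upwards [c3] with t ht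
    refine ⟨fun _ => 1, fun i => by norm_num, ?_⟩
    rw [h.fr.Th_base (hα t), h.fr.dia_one, mul_assoc, hp.isIdempotentElem.eq]
    exact ht.le
  have e4 : ∀ᶠ t in 𝓝 (0 : ℝ), 9 / 10 * T.n2 q ≤ T.n2 (α t q * q) := by
    have c1 : Continuous fun t => T.n2 (α t q * q) := (Rigid_cont_mul T α hc q q).norm
    refine (continuousAt_const.eventually_lt c1.continuousAt ?_).mono fun _ => le_of_lt
    rw [h0, hp.isIdempotentElem.eq]
    linarith
  obtain ⟨ε, hε, hall⟩ := Metric.eventually_nhds_iff.1 (e1.and (e2.and (e3.and e4)))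
  have hin : ∀ t, 0 ≤ t → t ≤ ε / 2 → dist t 0 < ε := fun t h1 h2 => by
    rw [Real.dist_0_eq_abs, abs_of_nonneg h1]
    linarith
  have hind : ∀ K t, 0 ≤ t → t ≤ ε / 2 →
      Del T (α t) (Z K) (α t q * q) ≤ 200 * (T.n2 q / 30000) := by
    intro K
    induction K with
    | zero =>
      intro t h1 h2
      have := (hall (hin t h1 h2)).2.1
      linarith
    | succ K ih =>
      have small : ∀ t, 0 ≤ t → t ≤ ε / 2 →
          Del T (α t) (Z (K + 1)) (α t q * q) ≤ 400 * (T.n2 q / 30000) →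
          Del T (α t) (Z (K + 1)) (α t q * q) ≤ 200 * (T.n2 q / 30000) := by
        intro t h1 h2 h3
        obtain ⟨a1, -, a3, a4⟩ := hall (hin t h1 h2)
        have h4 := c6 h (hα t) (Rigid_inX hp (α t)) a3 a1 (ih t h1 h2) (by linarith)
        linarith
      intro t h1 h2
      by_contra hn
      push Not at hn
      have hm : min (Del T (α t) (Z (K + 1)) (α t q * q)) (400 * (T.n2 q / 30000)) ∈
          Set.Icc (Del T (α 0) (Z (K + 1)) (α 0 q * q)) (Del T (α t) (Z (K + 1)) (α t q * q)) := by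
        rw [Rigid_Del_zero T α h0 (h.hZ (K + 1)).2]
        exact ⟨le_min (Del_nonneg _ _ _ _) (by positivity), min_le_left _ _⟩
      obtain ⟨s, hs, he⟩ := intermediate_value_Icc h1
        (Rigid_cont_Del T α hc (Z (K + 1)) q).continuousOn hm
      have h3 := small s hs.1 (hs.2.trans h2) (he.trans_le (min_le_right _ _))
      have h4 : 200 * (T.n2 q / 30000) <
          min (Del T (α t) (Z (K + 1)) (α t q * q)) (400 * (T.n2 q / 30000)) :=
        lt_min hn (by linarith)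
      exact absurd (he.symm.trans_le h3) (not_le.2 h4)
  refine ⟨ε / 2, half_pos hε, fun t h1 h2 => ?_⟩
  obtain ⟨a1, a2, a3, a4⟩ := hall (hin t h1 h2)
  exact ⟨⟨Rigid_inX hp (α t), a1, a2, a3⟩, fun K => hind K t h1 h2, a4⟩

/-- products of translates of an intertwiner -/
theorem Rigid_chain (hq : IsStarProjection q) (hq0 : q ≠ 0) (ha : ∀ j, a j * q = q * a j)
    (α : ℝ → (A →⋆ₐ[ℂ] A)) (h0 : ∀ x, α 0 x = x) (hadd : ∀ s t x, α s (α t x) = α (s + t) x)
    {t : ℝ} {x : A} {μ : ℂ} (hμ : μ ≠ 0) (h1 : star x * x = μ • q) (h2 : α t q * x = x)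
    (h3 : ∀ j, α t (a j) * x = x * a j) (r : ℕ) :
    ∃ X, X ≠ 0 ∧ α (r * t) q * X = X ∧ X * q = X ∧ ∀ j, α (r * t) (a j) * X = X * a j := by
  induction r with
  | zero =>
    refine ⟨q, hq0, ?_, hq.isIdempotentElem.eq, fun j => ?_⟩
    · rw [Nat.cast_zero, zero_mul, h0, hq.isIdempotentElem.eq]
    · rw [Nat.cast_zero, zero_mul, h0, ha]
  | succ r ih =>
    obtain ⟨X, x0, x1, x2, x3⟩ := ih
    have e : ((r + 1 : ℕ) : ℝ) * t = r * t + t := by
      push_cast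
      ring
    refine ⟨α (r * t) x * X, fun hz => ?_, ?_, ?_, fun j => ?_⟩
    · have h4 : star (α (r * t) x) * (α (r * t) x * X) = μ • X := by
        rw [← mul_assoc, ← map_star, ← map_mul, h1, map_smul, smul_mul_assoc, x1]
      rw [hz, mul_zero] at h4
      exact smul_ne_zero hμ x0 h4.symm
    · rw [e, ← hadd, ← mul_assoc, ← map_mul, h2]
    · rw [mul_assoc, x2]
    · rw [e, ← hadd, ← mul_assoc, ← map_mul, h3, map_mul, mul_assoc, x3, mul_assoc]

theorem rigid (h : Rig T ρ q e₀ V a Z sgn wi) (α : ℝ → (A →⋆ₐ[ℂ] A))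
    (hα : ∀ t, Defo T ρ e₀ (α t)) (h0 : ∀ x, α 0 x = x)
    (hadd : ∀ s t x, α s (α t x) = α (s + t) x) (hc : ∀ x, Continuous fun t => T.v (α t x)) :
    ∃ X, X ≠ 0 ∧ α (Real.pi / 2) q * X = X ∧ X * q = X ∧
      ∀ j, α (Real.pi / 2) (a j) * X = X * a j := by
  obtain ⟨t₀, ht₀, hall⟩ := apriori h α hα h0 hc
  obtain ⟨k, hk⟩ := exists_nat_gt (Real.pi / 2 / t₀)
  have hk0 : (0 : ℝ) < k := lt_of_le_of_lt (by positivity) hk
  have ht : Real.pi / 2 / k ≤ t₀ := by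
    rw [div_lt_iff₀ ht₀] at hk
    rw [div_le_iff₀ hk0]
    linarith
  obtain ⟨a1, a2, a3⟩ := hall (Real.pi / 2 / k) (by positivity) ht
  obtain ⟨x, x0, x1, x2⟩ := exists_inter h (hα _) (by linarith) a1 a2 a3
  have hs : SA T (α (Real.pi / 2 / k)) a x 0 := fun j => by
    rw [Del, x2, sub_self, T.n2_zero]
  obtain ⟨μ, -, -, hμ⟩ := c1 h x1 x1 hs hs
  have h1 : star x * x = μ • q :=
    sub_eq_zero.1 (T.n2_eq_zero.1 (le_antisymm (by linarith) (T.n2_nonneg _)))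
  have hμ0 : μ ≠ 0 := by
    rintro rfl
    rw [zero_smul] at h1
    exact x0 ((CStarRing.star_mul_self_eq_zero_iff x).1 h1)
  have h2 := Rigid_chain h.fr.q_proj h.q_ne (fun j => (h.ha j).2) α h0 hadd hμ0 h1 x1.1 x2 k
  rwa [mul_div_cancel₀ _ hk0.ne'] at h2

end Pool.Agent.TS
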