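import Pool.Agent.P.MP_e05717_an.Cl
import Pool.Agent.P.MP_e05717_an.Avg
import Pool.Agent.P.MP_e05717_an.Code

/-!
Row TS-St. One step of the iteration: C5, C6 (paper section 6).
Hints: `c5`: letters `g l = letter a (bb ..) (dd ..) (Z (K+1)) l` are `UQ` (`letter_ind`),
`U l = L (α (g l)) * R (star (g l))`, `u ↦ L (α u) * R (star u)` is multiplicative so the product over a
word is `U` of `wd`; `G = Gm ..= star (Z (K+1)) * Z K * q`; `Del G (Th x) ≤ 4 Del G x + 2 ev`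
(`Del_lip`, `Del_mul_right`, `dia_Gm`, `norm_dia`, `norm_Gm`), `Del_Gm`, reindex by `wi`, `avg`;
`ξ = SA^[2n] x` for `SA x = card⁻¹ • ∑ l, α (g l) * x * star (g l)` which preserves `InX`. Keep the terms
`l = ((t, false), δ)`, `l' = ((inr (inr 0), false), δ')`; `card_tag`; `582² / n ≤ 300000⁻²` from `h.big`
(cast to `ℝ`, never evaluate `n`).
-/

open scoped ComplexOrder InnerProductSpace ComplexConjugate ENNReal
open Filter Topology Pool.Agent.P.MP_5d580a_an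

set_option linter.unusedSectionVars false
set_option linter.unusedVariables false

noncomputable section

namespace Pool.Agent.TS

variable {A H : Type} [CStarAlgebra A] [NormedAddCommGroup H] [InnerProductSpace ℂ H]
  [CompleteSpace H]
variable {ι : Type} [Fintype ι] [DecidableEq ι]

variable {T : TW A H} {α ρ : A →⋆ₐ[ℂ] A} {q e₀ : A} {V : ι → A} {a : Fin 144 → A} {Z : ℕ → A}
  {Δ : Type} [Fintype Δ] {sgn : ι → Δ → ℝ} {n : ℕ} {wi : ι ≃ (Fin (2 * n) → Tag × Δ)}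

/-- the two sided action on the Hilbert space -/
def St_U (T : TW A H) (α : A →⋆ₐ[ℂ] A) : A →* (H →L[ℂ] H) where
  toFun u := T.L (α u) * T.R (star u)
  map_one' := by rw [map_one, map_one, star_one, T.R_one, one_mul]
  map_mul' u w := by
    rw [map_mul, map_mul, star_mul, T.R_mul, mul_assoc, mul_assoc, ← mul_assoc (T.L (α w)),
      T.L_R, mul_assoc]

theorem St_U_v (u x : A) : St_U T α u (T.v x) = T.v (α u * x * star u) := by
  show T.L (α u) (T.R (star u) (T.v x)) = _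
  rw [T.R_v, ← T.v_mul, mul_assoc]

theorem St_U_star (u : A) : star (St_U T α u) = St_U T α (star u) := by
  show star (T.L (α u) * T.R (star u)) = T.L (α (star u)) * T.R (star (star u))
  rw [star_mul, ← T.R_star, ← map_star, ← map_star, T.L_R]

theorem St_U_sub {u : A} (hu : u ∈ unitary A) (x : A) :
    ‖St_U T α u (T.v x) - T.v x‖ = Del T α u x := by
  rw [St_U_v, ← map_sub, ← Del_conj T α hu, T.n2_def]

theorem St_sub0 {τ : Type} [Fintype τ] (Φ : τ × Δ → ℝ) (hΦ : ∀ l, 0 ≤ Φ l) (t : τ) :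
    ∑ δ, Φ (t, δ) ≤ ∑ l, Φ l := by
  rw [Fintype.sum_prod_type]
  exact Finset.single_le_sum (f := fun t => ∑ δ, Φ (t, δ))
    (fun _ _ => Finset.sum_nonneg fun _ _ => hΦ _) (Finset.mem_univ t)

theorem St_sub (Φ : Tag × Δ → ℝ) (hΦ : ∀ l, 0 ≤ Φ l) (t : Tag) : ∑ δ, Φ (t, δ) ≤ ∑ l, Φ l := by
  exact St_sub0 Φ hΦ t

theorem St_iter {L : Type} [Fintype L] [Nonempty L] (hq : IsStarProjection q) {g : L → A}
    (hg : ∀ l, UQ q (g l)) {x : A} (hx : InX α q x) (k : ℕ) :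
    ∃ ξ, InX α q ξ ∧ (((Fintype.card L : ℂ)⁻¹ • ∑ l, St_U T α (g l)) ^ k) (T.v x) = T.v ξ := by
  induction k with
  | zero => exact ⟨x, hx, rfl⟩
  | succ k ih =>
    obtain ⟨ξ, hξ, e⟩ := ih
    have hc := fun l => hξ.conj T hq (hg l)
    refine ⟨(Fintype.card L : ℂ)⁻¹ • ∑ l, α (g l) * ξ * star (g l), ⟨?_, ?_, ?_⟩, ?_⟩
    · rw [mul_smul_comm, Finset.mul_sum, Finset.sum_congr rfl fun l _ => (hc l).1]
    · rw [smul_mul_assoc, Finset.sum_mul, Finset.sum_congr rfl fun l _ => (hc l).2.1]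
    · have h0 : (0 : ℝ) < Fintype.card L := by exact_mod_cast Fintype.card_pos
      have h1 : ‖∑ l, α (g l) * ξ * star (g l)‖ ≤ Fintype.card L := by
        refine (norm_sum_le _ _).trans ((Finset.sum_le_sum fun l _ => (hc l).2.2).trans ?_)
        simp
      rw [norm_smul, norm_inv, Complex.norm_natCast]
      exact inv_mul_le_one_of_le₀ h1 h0.le
    · rw [pow_succ', ContinuousLinearMap.mul_apply, e, map_smul, map_sum,
        ContinuousLinearMap.smul_apply, ContinuousLinearMap.sum_apply]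
      simp only [St_U_v]

theorem St_words (h : Rig T ρ q e₀ V a Z sgn wi) (hα : Defo T ρ e₀ α) {x : A} (hx : InX α q x)
    {K : ℕ} {ev d d' : ℝ} (hv : Vd T α ρ V x ev) (h1 : Del T α (Z K) x ≤ d')
    (h2 : Del T α (Z (K + 1)) x ≤ d) : 0 ≤ 4 * (d + d') + 2 * ev ∧
    ∑ i : Fin (2 * n) → Tag × Δ,
      Del T α (wd a (bb ρ V q a) (dd V q sgn) (Z (K + 1)) i) x ^ 2 ≤
        Fintype.card (Fin (2 * n) → Tag × Δ) * (4 * (d + d') + 2 * ev) ^ 2 := by
  have hq := h.fr.q_proj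
  have hw : ∀ i : Fin (2 * n) → Tag × Δ, UQ q (wd a (bb ρ V q a) (dd V q sgn) (Z (K + 1)) i) :=
    wd_ind (UQ q) UQ.one (fun _ _ => UQ.mul) (fun _ hu => hu.star hq) h.ha (h.fr.bb_UQ h.ha)
      (h.fr.dd_UQ h.code.1) (h.hZ _)
  have hrel := h.rel K
  have hG := h.fr.Del_Gm hα (g := fun i => wd a (bb ρ V q a) (dd V q sgn) (Z (K + 1)) (wi i))
    (fun i => (hw _).2) hx
  have hn := h.fr.norm_Gm (g := fun i => wd a (bb ρ V q a) (dd V q sgn) (Z (K + 1)) (wi i))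
    fun i => (T.norm_unitary (hw _).1).le
  obtain ⟨lam, hl, hev⟩ := hv
  have hc := h.fr.dia_Gm lam fun i => wd a (bb ρ V q a) (dd V q sgn) (Z (K + 1)) (wi i)
  rw [wi.sum_comp fun i => Del T α (wd a (bb ρ V q a) (dd V q sgn) (Z (K + 1)) i) x ^ 2,
    Fintype.card_congr wi] at hG
  generalize (Gm ρ V fun i => wd a (bb ρ V q a) (dd V q sgn) (Z (K + 1)) (wi i)) = G
    at hrel hG hn hc
  have hy := (h.hZ (K + 1)).star hq
  have e1 : G = star (Z (K + 1)) * Z K * q := by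
    rw [mul_assoc, hrel, ← mul_assoc, (Unitary.mem_iff.1 (h.hZ (K + 1)).1).1, one_mul]
  have e2 : Del T α G x ≤ d + d' := by
    rw [e1, Del_mul_q T hx (hy.mul (h.hZ K)).2]
    refine (Del_mul_le T α (T.norm_unitary hy.1).le (T.norm_unitary (h.hZ K).1).le x).trans ?_
    rw [Del_star T α (h.hZ _).1]
    exact add_le_add h2 h1
  have e3 : Del T α G (Th α ρ V x) ≤ 4 * (d + d') + 2 * ev := by
    have k1 := Del_lip T α hn (Th α ρ V x) (x * dia V lam)
    have k2 := Del_mul_right T α hc x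
    have k3 := h.fr.norm_dia (by norm_num) hl
    have k4 := mul_le_mul e2 k3 (norm_nonneg _) ((Del_nonneg _ _ _ _).trans e2)
    linarith
  have e0 := Del_nonneg T α G (Th α ρ V x)
  refine ⟨e0.trans e3, ?_⟩
  have := h.ne
  have h0 : (0 : ℝ) < Fintype.card (Fin (2 * n) → Tag × Δ) := by exact_mod_cast Fintype.card_pos
  rw [← div_le_iff₀' h0, ← hG]
  exact pow_le_pow_left₀ e0 e3 2

theorem c5 (h : Rig T ρ q e₀ V a Z sgn wi) (hα : Defo T ρ e₀ α) {x : A} (hx : InX α q x) {K : ℕ}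
    {ev d d' ε : ℝ} (hv : Vd T α ρ V x ev) (h1 : Del T α (Z K) x ≤ d')
    (h2 : Del T α (Z (K + 1)) x ≤ d) (hε : ε = 4 * (d + d') + 2 * ev) :
    ∃ ξ, InX α q ξ ∧ T.n2 (ξ - x) ≤ ε ∧ SA T α a ξ (ε / 300000) ∧
      SA T α (bb ρ V q a) ξ (ε / 300000) ∧
      ∑ δ, Del T α (dd V q sgn δ) ξ ^ 2 ≤ Fintype.card Δ * (ε / 300000) ^ 2 ∧
      Del T α (Z (K + 1)) ξ ≤ ε / 300000 := by
  have hq := h.fr.q_proj
  have := h.ne
  obtain ⟨hε0, hsum⟩ := St_words h hα hx hv h1 h2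
  rw [← hε] at hε0 hsum
  have hg : ∀ l : Tag × Δ, UQ q (letter a (bb ρ V q a) (dd V q sgn) (Z (K + 1)) l) :=
    letter_ind (UQ q) UQ.one (fun _ hu => hu.star hq) h.ha (h.fr.bb_UQ h.ha)
      (h.fr.dd_UQ h.code.1) (h.hZ _)
  have hw : ∀ i : Fin (2 * n) → Tag × Δ, UQ q (wd a (bb ρ V q a) (dd V q sgn) (Z (K + 1)) i) :=
    wd_ind (UQ q) UQ.one (fun _ _ => UQ.mul) (fun _ hu => hu.star hq) h.ha (h.fr.bb_UQ h.ha)
      (h.fr.dd_UQ h.code.1) (h.hZ _)
  have hbig : ((582 : ℝ) * 300000) ^ 2 ≤ n := by exact_mod_cast h.big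
  have hn0 : (0 : ℝ) < n := lt_of_lt_of_le (by norm_num) hbig
  have hn : 1 ≤ n := by exact_mod_cast hn0
  obtain ⟨k1, k2⟩ := avg (L := Tag × Δ) (fun l => ((l.1.1, !l.1.2), l.2))
    (fun l => by simp) (fun l => St_U T α (letter a (bb ρ V q a) (dd V q sgn) (Z (K + 1)) l))
    (fun l => ⟨by rw [St_U_star, letter_flip], by
      rw [St_U_star, ← map_mul, (Unitary.mem_iff.1 (hg l).1).1, map_one]⟩) hn (T.v x) hε0 (by
      refine le_of_eq_of_le (Finset.sum_congr rfl fun i _ => ?_) hsum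
      rw [← St_U_sub (hw i).1, wd, map_list_prod, List.map_ofFn]
      rfl)
  obtain ⟨ξ, hξ, e⟩ := St_iter (T := T) hq hg hx (2 * n)
  rw [e] at k1 k2
  have hΔ : (0 : ℝ) < Fintype.card Δ := by exact_mod_cast Fintype.card_pos
  have key : ∀ t : Tag, ∑ δ, Del T α (letter a (bb ρ V q a) (dd V q sgn) (Z (K + 1)) (t, δ)) ξ ^ 2 ≤
      Fintype.card Δ * (ε / 300000) ^ 2 := by
    intro t
    have e1 := (St_sub _ (fun l => Finset.sum_nonneg fun _ _ => sq_nonneg _) t).trans k2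
    have e2 : ∀ δ, Fintype.card Δ *
        Del T α (letter a (bb ρ V q a) (dd V q sgn) (Z (K + 1)) (t, δ)) ξ ^ 2 ≤
        ∑ l', ‖St_U T α (letter a (bb ρ V q a) (dd V q sgn) (Z (K + 1)) (t, δ)) (T.v ξ) -
          St_U T α (letter a (bb ρ V q a) (dd V q sgn) (Z (K + 1)) l') (T.v ξ)‖ ^ 2 := by
      intro δ
      refine le_of_eq_of_le ?_ (St_sub _ (fun l => sq_nonneg _) (Sum.inr (Sum.inr 0), false))
      have e3 : ∀ δ' : Δ, letter a (bb ρ V q a) (dd V q sgn) (Z (K + 1))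
          ((Sum.inr (Sum.inr 0), false), δ') = 1 := fun _ => rfl
      simp only [e3, map_one, ContinuousLinearMap.one_apply, St_U_sub (hg _).1, Finset.sum_const,
        Finset.card_univ, nsmul_eq_mul]
    have e4 := (Finset.sum_le_sum fun δ _ => e2 δ).trans e1
    rw [← Finset.mul_sum, Fintype.card_prod, card_tag] at e4
    refine le_of_mul_le_mul_left (e4.trans ?_) hΔ
    rw [div_le_iff₀ hn0]
    push_cast
    have e5 := mul_le_mul_of_nonneg_left hbig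
      (mul_nonneg hΔ.le (mul_nonneg hΔ.le (sq_nonneg (ε / 300000))))
    refine le_of_eq_of_le ?_ e5
    ring
  have key2 : ∀ (t : Tag) (u : A),
      (∀ δ, letter a (bb ρ V q a) (dd V q sgn) (Z (K + 1)) (t, δ) = u) →
      Del T α u ξ ≤ ε / 300000 := by
    intro t u hu
    have e1 := key t
    simp only [hu, Finset.sum_const, Finset.card_univ, nsmul_eq_mul] at e1
    exact (pow_le_pow_iff_left₀ (Del_nonneg _ _ _ _) (by positivity) two_ne_zero).1
      (le_of_mul_le_mul_left e1 hΔ)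
  refine ⟨ξ, hξ, by rwa [T.n2_def, map_sub], fun j => key2 (Sum.inl j, false) _ fun _ => rfl,
    fun j => key2 (Sum.inr (Sum.inl j), false) _ fun _ => rfl, key (Sum.inr (Sum.inr 2), false),
    key2 (Sum.inr (Sum.inr 1), false) _ fun _ => rfl⟩

theorem c6 (h : Rig T ρ q e₀ V a Z sgn wi) (hα : Defo T ρ e₀ α) {x : A} (hx : InX α q x) {K : ℕ}
    {ev d' η : ℝ} (hv : Vd T α ρ V x ev) (h0 : SA T α a x η) (h1 : Del T α (Z K) x ≤ d')
    (hb : T.n2 q / 2 + (4 * (Del T α (Z (K + 1)) x + d') + 2 * ev) ≤ T.n2 x) :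
    Del T α (Z (K + 1)) x ≤ 128 * η + d' / 3 + ev / 6 := by
  obtain ⟨ξ, hξ, k1, k2, -, -, k3⟩ := c5 h hα hx hv h1 le_rfl rfl
  have hbig : Big T q ξ := by
    have e1 := T.n2_le_add_sub x ξ
    rw [T.n2_sub_comm] at e1
    unfold Big
    linarith
  obtain ⟨μ, hμ, k4⟩ := c3 h hα hx hξ hbig h0 k2
  have k5 := Del_lip T α (T.norm_unitary (h.hZ (K + 1)).1).le x (μ • ξ)
  rw [Del_smul] at k5
  have k6 := mul_le_mul hμ k3 (Del_nonneg _ _ _ _) (by norm_num)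
  have k7 : 0 ≤ η := (Del_nonneg _ _ _ _).trans (h0 0)
  have k8 : 0 ≤ d' := (Del_nonneg _ _ _ _).trans h1
  obtain ⟨lam, -, hev⟩ := hv
  have k9 : 0 ≤ ev := (T.n2_nonneg _).trans hev
  linarith

theorem st_step (h : Rig T ρ q e₀ V a Z sgn wi) (hα : Defo T ρ e₀ α) {x : A} {K : ℕ} {D B : ℝ}
    (hs : St T α ρ V q a Z x K D) (hB : Del T α (Z (K + 1)) x ≤ B)
    (h1 : T.n2 q / 2 + (4 * (B + D) + 2 * D) ≤ T.n2 x) (h2 : T.n2 q / 2 + 522 * D ≤ T.n2 x) :
    ∃ ξ, St T α ρ V q a Z ξ (K + 1) (D / 2) ∧ T.n2 (ξ - x) ≤ 522 * D := by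
  obtain ⟨hx, h0, hK, hv⟩ := hs
  have hD : 0 ≤ D := (Del_nonneg _ _ _ _).trans hK
  have k0 := c6 h hα hx hv h0 hK (by linarith)
  obtain ⟨ξ, hξ, k1, k2, k3, k4, k5⟩ := c5 (d := 129 * D) (ε := 522 * D) h hα hx hv hK
    (by linarith) (by ring)
  have hbig : Big T q ξ := by
    have e1 := T.n2_le_add_sub x ξ
    rw [T.n2_sub_comm] at e1
    unfold Big
    linarith
  obtain ⟨lam, hl, k6⟩ := c4 h hα hξ hbig k2 k3 k4
  exact ⟨ξ, ⟨hξ, fun j => (k2 j).trans (by linarith), k5.trans (by linarith),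
    lam, hl, k6.trans (by linarith)⟩, k1⟩

end Pool.Agent.TS
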