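import Pool.Agent.P.MP_e05717_an.Pol
import Pool.Agent.P.MP_e05717_an.RDefs

/-!
Row TS-T1. The norm estimate on the coarse part (paper T1).
Hints: `log_convex`: `a n = ‖S^n ζ‖²`, `a (n+1)² ≤ a n * a (n+2)`. Fix `i` and a unitary `u`. For
`η : H'` extend `v x ↦ L' (ι' (π x * u)) (lt i η)` to `B η : H →L H'` (`exists_extend`),
`⟪B η ξ, B η' ξ'⟫ = τ (π 1) * ⟪ξ, ξ'⟫ * ⟪η, η'⟫`, `B` is linear in `η`; lift to `b : H ⊗ H' →ₗ H'`
(`TensorProduct.lift`), `L' (ι' (π s)) (b t) = b (map (L s) id t)`, `R' (ι' w) (b t) = b (map id (R' ..) t)`.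
With the form `⟪b t, b t'⟫` the maps `map f g` and `map (star f) (star g)` are adjoint (induction on
tensors). `‖b (A t)‖² = ∑ ‖R' (w j) (b t)‖² ≤ 576 ‖b t‖²`. Sum the invariant ranges with `log_convex`,
`T.span_unitary`, and `S = S * L' (ι' (π 1))`.
-/

open scoped ComplexOrder InnerProductSpace ComplexConjugate ENNReal
open Filter Topology Pool.Agent.P.MP_5d580a_an

set_option linter.unusedSectionVars false
set_option linter.unusedVariables false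

noncomputable section

namespace Pool.Agent.TS

variable {A H : Type} [CStarAlgebra A] [NormedAddCommGroup H] [InnerProductSpace ℂ H]
  [CompleteSpace H]
variable {A' H' : Type} [CStarAlgebra A'] [NormedAddCommGroup H'] [InnerProductSpace ℂ H']
  [CompleteSpace H']

variable {T : TW A H} {T' : TW A' H'}

theorem log_convex {S : H →L[ℂ] H} (hS : IsSelfAdjoint S) {ζ : H} {c C : ℝ} (hc : 0 ≤ c)
    (h : ∀ n : ℕ, ‖(S ^ n) ζ‖ ≤ C * c ^ n) : ‖S ζ‖ ≤ c * ‖ζ‖ := by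
  have key : ∀ n : ℕ, ‖(S ^ (n + 1)) ζ‖ ^ 2 ≤ ‖(S ^ n) ζ‖ * ‖(S ^ (n + 2)) ζ‖ := fun n => by
    have e1 : (S ^ (n + 1)) ζ = S ((S ^ n) ζ) := by rw [pow_succ', mul_apply_eq_comp]
    have e2 : (S ^ (n + 2)) ζ = S ((S ^ (n + 1)) ζ) := by rw [pow_succ' S (n + 1), mul_apply_eq_comp]
    have e3 : ⟪(S ^ (n + 1)) ζ, (S ^ (n + 1)) ζ⟫_ℂ = ⟪(S ^ n) ζ, (S ^ (n + 2)) ζ⟫_ℂ := by
      rw [e2]
      nth_rewrite 1 [e1]
      exact hS.isSymmetric _ _
    have e4 := norm_inner_le_norm (𝕜 := ℂ) ((S ^ n) ζ) ((S ^ (n + 2)) ζ)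
    rw [← e3, inner_self_eq_norm_sq_to_K] at e4
    simpa using e4
  by_contra hlt
  rw [not_le] at hlt
  have h0 : 0 < ‖ζ‖ := by
    rcases (norm_nonneg ζ).eq_or_lt with h0 | h0
    · rw [norm_eq_zero.1 h0.symm] at hlt
      simp at hlt
    · exact h0
  obtain ⟨ρ, hρ⟩ : ∃ ρ, ρ = ‖S ζ‖ / ‖ζ‖ := ⟨_, rfl⟩
  have hcρ : c < ρ := by rw [hρ, lt_div_iff₀ h0]; exact hlt
  have hρ0 : 0 < ρ := hc.trans_lt hcρ
  have ind : ∀ n : ℕ, ρ ^ n * ‖ζ‖ ≤ ‖(S ^ n) ζ‖ ∧ ρ * ‖(S ^ n) ζ‖ ≤ ‖(S ^ (n + 1)) ζ‖ := by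
    intro n
    induction n with
    | zero =>
      refine ⟨by simp, ?_⟩
      rw [hρ]
      simp [div_mul_cancel₀ _ h0.ne']
    | succ n ih =>
      obtain ⟨i1, i2⟩ := ih
      have p1 : 0 < ‖(S ^ n) ζ‖ := lt_of_lt_of_le (by positivity) i1
      refine ⟨?_, ?_⟩
      · calc ρ ^ (n + 1) * ‖ζ‖ = ρ * (ρ ^ n * ‖ζ‖) := by ring
          _ ≤ ρ * ‖(S ^ n) ζ‖ := mul_le_mul_of_nonneg_left i1 hρ0.le
          _ ≤ _ := i2
      · refine le_of_mul_le_mul_left ?_ p1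
        calc ‖(S ^ n) ζ‖ * (ρ * ‖(S ^ (n + 1)) ζ‖)
            = (ρ * ‖(S ^ n) ζ‖) * ‖(S ^ (n + 1)) ζ‖ := by ring
          _ ≤ ‖(S ^ (n + 1)) ζ‖ * ‖(S ^ (n + 1)) ζ‖ :=
            mul_le_mul_of_nonneg_right i2 (norm_nonneg _)
          _ = ‖(S ^ (n + 1)) ζ‖ ^ 2 := by ring
          _ ≤ _ := key n
  have lim : Tendsto (fun n : ℕ => C * (c / ρ) ^ n) atTop (𝓝 (C * 0)) :=
    (tendsto_pow_atTop_nhds_zero_of_lt_one (div_nonneg hc hρ0.le)
      ((div_lt_one hρ0).2 hcρ)).const_mul C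
  have hle : ‖ζ‖ ≤ C * 0 := ge_of_tendsto' lim fun n => by
    rw [div_pow, ← mul_div_assoc, le_div_iff₀ (pow_pos hρ0 n), mul_comm]
    exact (ind n).1.trans (h n)
  linarith

open TensorProduct in
theorem T1_adj (f : H →L[ℂ] H) (g : H' →L[ℂ] H') (z z' : H ⊗[ℂ] H') :
    ⟪mapL f g z, z'⟫_ℂ = ⟪z, mapL (star f) (star g) z'⟫_ℂ := by
  induction z using TensorProduct.induction_on with
  | zero => simp
  | add a b ha hb => rw [map_add, inner_add_left, inner_add_left, ha, hb]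
  | tmul x y =>
    induction z' using TensorProduct.induction_on with
    | zero => simp
    | add a b ha hb => rw [map_add, inner_add_right, inner_add_right, ha, hb]
    | tmul x' y' =>
      rw [mapL_tmul, mapL_tmul, inner_tmul, inner_tmul, ContinuousLinearMap.star_eq_adjoint,
        ContinuousLinearMap.star_eq_adjoint, ContinuousLinearMap.adjoint_inner_right,
        ContinuousLinearMap.adjoint_inner_right]

open TensorProduct in
theorem T1_creation {l : Fin 144 → (H →L[ℂ] H)} (h1 : ∀ j, star (l j) * l j = 1)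
    (h2 : ∀ i j, i ≠ j → star (l i) * l j = 0) {r : Fin 144 → (H' →L[ℂ] H')}
    (hr : ∀ j, ‖r j‖ ≤ 2) (z : H ⊗[ℂ] H') : ‖∑ j, mapL (l j) (r j) z‖ ≤ 24 * ‖z‖ := by
  have hl : ∀ j, ‖l j‖ ≤ 1 := fun j => by
    have e := CStarRing.norm_star_mul_self (x := l j)
    rw [h1 j] at e
    have e2 : ‖(1 : H →L[ℂ] H)‖ ≤ 1 := ContinuousLinearMap.norm_id_le
    nlinarith [norm_nonneg (l j)]
  have hb : ∀ j, ‖mapL (l j) (r j) z‖ ≤ 2 * ‖z‖ := fun j => by
    refine ((mapL (l j) (r j)).le_opNorm z).trans (mul_le_mul_of_nonneg_right ?_ (norm_nonneg _))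
    refine (norm_mapL_le _ _).trans ?_
    calc ‖l j‖ * ‖r j‖ ≤ 1 * 2 := mul_le_mul (hl j) (hr j) (norm_nonneg _) zero_le_one
      _ = 2 := one_mul _
  have e1 : ⟪∑ j, mapL (l j) (r j) z, ∑ j, mapL (l j) (r j) z⟫_ℂ =
      ∑ j, ⟪mapL (l j) (r j) z, mapL (l j) (r j) z⟫_ℂ := by
    rw [sum_inner]
    refine Finset.sum_congr rfl fun i _ => ?_
    rw [inner_sum, Finset.sum_eq_single i]
    · intro j _ hj
      rw [T1_adj, ← mul_apply_eq_comp, ← mapL_mul, h2 i j (Ne.symm hj)]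
      simp
    · simp
  have e2 : ‖∑ j, mapL (l j) (r j) z‖ ^ 2 = ∑ j, ‖mapL (l j) (r j) z‖ ^ 2 := by
    simp only [inner_self_eq_norm_sq_to_K] at e1
    exact_mod_cast e1
  refine (sq_le_sq₀ (norm_nonneg _) (by positivity)).1 ?_
  rw [e2]
  calc ∑ j, ‖mapL (l j) (r j) z‖ ^ 2 ≤ ∑ _j : Fin 144, (2 * ‖z‖) ^ 2 :=
        Finset.sum_le_sum fun j _ => pow_le_pow_left₀ (norm_nonneg _) (hb j) 2
    _ = (24 * ‖z‖) ^ 2 := by
      rw [Finset.sum_const, Finset.card_univ, Fintype.card_fin, nsmul_eq_mul]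
      push_cast
      ring

open TensorProduct in
theorem T1_tensor {s : Fin 144 → A} (hs : SF T s) {r : Fin 144 → (H' →L[ℂ] H')}
    (hr : ∀ j, ‖r j‖ ≤ 2) (hr' : ∀ j, star (r j) = r j) (z : H ⊗[ℂ] H') :
    ‖∑ j, mapL (T.L (s j)) (r j) z‖ ≤ 48 * ‖z‖ := by
  obtain ⟨l, h0, h1, h2⟩ := hs
  have e1 : ∑ j, mapL (T.L (s j)) (r j) z =
      ∑ j, mapL (l j) (r j) z + ∑ j, mapL (star (l j)) (r j) z := by
    rw [← Finset.sum_add_distrib]
    exact Finset.sum_congr rfl fun j _ => by rw [h0, mapL_add_left]; rfl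
  have e2 : ‖∑ j, mapL (star (l j)) (r j) z‖ ≤ 24 * ‖z‖ := by
    obtain ⟨y, hy⟩ : ∃ y, y = ∑ j, mapL (star (l j)) (r j) z := ⟨_, rfl⟩
    have e3 : ⟪y, y⟫_ℂ = ⟪z, ∑ j, mapL (l j) (r j) y⟫_ℂ := by
      nth_rewrite 1 [hy]
      rw [sum_inner, inner_sum]
      exact Finset.sum_congr rfl fun j _ => by rw [T1_adj, star_star, hr']
    have e4 := norm_inner_le_norm (𝕜 := ℂ) z (∑ j, mapL (l j) (r j) y)
    rw [← e3, inner_self_eq_norm_sq_to_K] at e4
    have e5 : ‖y‖ ^ 2 ≤ ‖z‖ * (24 * ‖y‖) :=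
      le_trans (by simpa using e4)
        (mul_le_mul_of_nonneg_left (T1_creation h1 h2 hr y) (norm_nonneg z))
    rw [← hy]
    rcases (norm_nonneg y).eq_or_lt with h3 | h3
    · rw [← h3]
      positivity
    · refine le_of_mul_le_mul_right ?_ h3
      linarith
  rw [e1]
  refine (norm_add_le _ _).trans ?_
  linarith [T1_creation h1 h2 hr z]

/-- the map `x ⊗ η ↦ π(x) u l η` -/
def T1_b (T' : TW A' H') (ι' : A →⋆ₐ[ℂ] A') (π : A →⋆ₙₐ[ℂ] A) (u : A) (l : H' →L[ℂ] H') :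
    TensorProduct ℂ A H' →ₗ[ℂ] H' :=
  TensorProduct.lift (LinearMap.mk₂ ℂ (fun x η => T'.L (ι' (π x * u)) (l η))
    (fun x y η => by simp [add_mul]) (fun c x η => by simp)
    (fun x η η' => by simp) fun c x η => by simp)

theorem T1_b_tmul (T' : TW A' H') (ι' : A →⋆ₐ[ℂ] A') (π : A →⋆ₙₐ[ℂ] A) (u : A) (l : H' →L[ℂ] H')
    (x : A) (η : H') : T1_b T' ι' π u l (x ⊗ₜ[ℂ] η) = T'.L (ι' (π x * u)) (l η) := rfl

theorem T1_inner {ι' : A →⋆ₐ[ℂ] A'} {l : H' →L[ℂ] H'}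
    (hl : ∀ x, star l * T'.L (ι' x) * l = T.τ x • (1 : H' →L[ℂ] H')) (π : A →⋆ₙₐ[ℂ] A)
    (hπ : ∀ x, T.τ (π x) = T.τ (π 1) * T.τ x) {u : A} (hu : u ∈ unitary A)
    (t t' : TensorProduct ℂ A H') :
    ⟪T1_b T' ι' π u l t, T1_b T' ι' π u l t'⟫_ℂ =
      T.τ (π 1) * ⟪TensorProduct.map T.v LinearMap.id t, TensorProduct.map T.v LinearMap.id t'⟫_ℂ := by
  induction t using TensorProduct.induction_on with
  | zero => simp
  | add a b ha hb => rw [map_add, map_add, inner_add_left, inner_add_left, ha, hb, mul_add]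
  | tmul x η =>
    induction t' using TensorProduct.induction_on with
    | zero => simp
    | add a b ha hb => rw [map_add, map_add, inner_add_right, inner_add_right, ha, hb, mul_add]
    | tmul y η' =>
      have e1 : T.τ (star (π x * u) * (π y * u)) = T.τ (π 1) * T.τ (star x * y) := by
        rw [← hπ, map_mul π, map_star π, star_mul, mul_assoc, T.τ_comm, mul_assoc, mul_assoc,
          (Unitary.mem_iff.1 hu).2, mul_one]
      have e2 := congrArg (fun X : H' →L[ℂ] H' => ⟪η, X η'⟫_ℂ) (hl (star (π x * u) * (π y * u)))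
      rw [T1_b_tmul, T1_b_tmul, TensorProduct.map_tmul, TensorProduct.map_tmul,
        TensorProduct.inner_tmul, T.inner_v, ← mul_assoc, ← e1]
      rw [map_mul ι' (star _), map_mul T'.L (ι' (star _)), map_star ι', map_star T'.L] at e2
      simp only [mul_apply_eq_comp,
        ContinuousLinearMap.star_eq_adjoint, ContinuousLinearMap.adjoint_inner_right,
        smul_apply, one_apply_eq_self, inner_smul_right] at e2
      exact e2

theorem T1_norm {ι' : A →⋆ₐ[ℂ] A'} {l : H' →L[ℂ] H'}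
    (hl : ∀ x, star l * T'.L (ι' x) * l = T.τ x • (1 : H' →L[ℂ] H')) (π : A →⋆ₙₐ[ℂ] A)
    (hπ : ∀ x, T.τ (π x) = T.τ (π 1) * T.τ x) {u : A} (hu : u ∈ unitary A)
    (t : TensorProduct ℂ A H') :
    ‖T1_b T' ι' π u l t‖ = T.n2 (π 1) * ‖TensorProduct.map T.v LinearMap.id t‖ := by
  have e1 := T1_inner hl π hπ hu t t
  have e2 : T.τ (π 1) = ((T.n2 (π 1) ^ 2 : ℝ) : ℂ) := by
    rw [← T.τ_star_mul_self, ← map_star, ← map_mul, star_one, mul_one]
  rw [e2, inner_self_eq_norm_sq_to_K,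
    inner_self_eq_norm_sq_to_K (𝕜 := ℂ) (TensorProduct.map T.v LinearMap.id t)] at e1
  refine (sq_eq_sq₀ (norm_nonneg _) (mul_nonneg (T.n2_nonneg _) (norm_nonneg _))).1 ?_
  rw [mul_pow]
  refine Complex.ofReal_injective ?_
  push_cast at e1 ⊢
  exact e1

/-- the powers grow at most like `48 ^ n` on the range of `T1_b` -/
theorem T1_range {ι' : A →⋆ₐ[ℂ] A'} {l : H' →L[ℂ] H'}
    (hl : ∀ x, star l * T'.L (ι' x) * l = T.τ x • (1 : H' →L[ℂ] H'))
    (hl' : ∀ x, l * T'.R (ι' x) = T'.R (ι' x) * l) (π : A →⋆ₙₐ[ℂ] A)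
    (hπ : ∀ x, T.τ (π x) = T.τ (π 1) * T.τ x) {s : Fin 144 → A} (hs : SF T s) (w : Fin 144 → A)
    (hw : ∀ j, IsSelfAdjoint (w j) ∧ ‖w j‖ ≤ 2) {u : A} (hu : u ∈ unitary A) (n : ℕ)
    (t : TensorProduct ℂ A H') :
    ‖((∑ j, T'.L (ι' (π (s j))) * T'.R (ι' (w j))) ^ n) (T1_b T' ι' π u l t)‖ ≤
      ‖T1_b T' ι' π u l t‖ * 48 ^ n := by
  let M : TensorProduct ℂ A H' →ₗ[ℂ] TensorProduct ℂ A H' :=
    ∑ j, TensorProduct.map (LinearMap.mulLeft ℂ (s j)) (T'.R (ι' (w j))).toLinearMap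
  have h1 : ∀ t, (∑ j, T'.L (ι' (π (s j))) * T'.R (ι' (w j))) (T1_b T' ι' π u l t) =
      T1_b T' ι' π u l (M t) := fun t => by
    induction t using TensorProduct.induction_on with
    | zero => simp
    | add a b ha hb => rw [map_add, map_add, ha, hb, map_add, map_add]
    | tmul x η =>
      simp only [M, LinearMap.sum_apply, sum_apply, map_sum,
        TensorProduct.map_tmul, T1_b_tmul, LinearMap.mulLeft_apply, ContinuousLinearMap.coe_coe]
      refine Finset.sum_congr rfl fun j _ => ?_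
      have e1 : l (T'.R (ι' (w j)) η) = T'.R (ι' (w j)) (l η) :=
        congrArg (fun X : H' →L[ℂ] H' => X η) (hl' (w j))
      rw [e1, mul_apply_eq_comp, ← T'.L_R_apply, map_mul π, mul_assoc, map_mul ι' (π (s j)),
        map_mul T'.L (ι' (π (s j))), mul_apply_eq_comp]
  have h2 : ∀ t, TensorProduct.map T.v LinearMap.id (M t) =
      ∑ j, TensorProduct.mapL (T.L (s j)) (T'.R (ι' (w j)))
        (TensorProduct.map T.v LinearMap.id t) := fun t => by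
    induction t using TensorProduct.induction_on with
    | zero => simp
    | add a b ha hb => simp only [map_add, ha, hb, Finset.sum_add_distrib]
    | tmul x η =>
      simp only [M, LinearMap.sum_apply, map_sum, TensorProduct.map_tmul, TensorProduct.mapL_tmul,
        LinearMap.mulLeft_apply, ContinuousLinearMap.coe_coe, LinearMap.id_apply, T.v_mul]
  have h3 : ∀ t, ‖T1_b T' ι' π u l (M t)‖ ≤ ‖T1_b T' ι' π u l t‖ * 48 := fun t => by
    rw [T1_norm hl π hπ hu, T1_norm hl π hπ hu, h2, mul_assoc, mul_comm _ (48 : ℝ)]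
    refine mul_le_mul_of_nonneg_left (T1_tensor hs (fun j => ?_) (fun j => ?_) _) (T.n2_nonneg _)
    · exact (T'.norm_R_le _).trans ((hom_norm_le ι' _).trans (hw j).2)
    · rw [← T'.R_star, ← map_star, (hw j).1.star_eq]
  induction n generalizing t with
  | zero => simp
  | succ n ih =>
    rw [pow_succ, mul_apply_eq_comp, h1]
    refine (ih (M t)).trans ?_
    rw [pow_succ', ← mul_assoc]
    exact mul_le_mul_of_nonneg_right (h3 t) (by positivity)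

theorem t1 {ι' : A →⋆ₐ[ℂ] A'} {I : Type} {lt : I → (H' →L[ℂ] H')} (hC : Coarse T T' ι' lt)
    (π : A →⋆ₙₐ[ℂ] A) (hπ : ∀ x, T.τ (π x) = T.τ (π 1) * T.τ x) {s : Fin 144 → A} (hs : SF T s)
    (w : Fin 144 → A) (hw : ∀ j, IsSelfAdjoint (w j) ∧ ‖w j‖ ≤ 2) {ζ : H'}
    (hζ : ζ ∈ Kc T' ι' lt) :
    ‖∑ j, T'.L (ι' (π (s j))) (T'.R (ι' (w j)) ζ)‖ ≤ 48 * ‖ζ‖ := by
  obtain ⟨S, hS⟩ : ∃ S, S = ∑ j, T'.L (ι' (π (s j))) * T'.R (ι' (w j)) := ⟨_, rfl⟩
  obtain ⟨Q, hQ⟩ : ∃ Q, Q = T'.L (ι' (π 1)) := ⟨_, rfl⟩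
  have hsa : ∀ j, star (s j) = s j := fun j => by
    obtain ⟨l, h0, -, -⟩ := hs
    refine T.L_inj ?_
    rw [map_star, h0, star_add, star_star, add_comm]
  have hSa : IsSelfAdjoint S := by
    rw [hS, IsSelfAdjoint, star_sum]
    refine Finset.sum_congr rfl fun j _ => ?_
    rw [star_mul, ← T'.R_star, ← map_star, ← map_star, ← map_star, ← map_star, hsa,
      (hw j).1.star_eq, T'.L_R]
  have hSQ : S * Q = S := by
    rw [hS, hQ, Finset.sum_mul]
    refine Finset.sum_congr rfl fun j _ => ?_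
    rw [mul_assoc, ← T'.L_R, ← mul_assoc, ← map_mul, ← map_mul, ← map_mul, mul_one]
  have hQ1 : ‖Q‖ ≤ 1 := by
    rw [hQ, T'.norm_L]
    exact (hom_norm_le ι' _).trans ((nhom_norm_le π _).trans T.norm_one.le)
  let G : Submodule ℂ H' :=
    { carrier := {ξ | ∃ C : ℝ, ∀ n : ℕ, ‖(S ^ n) (Q ξ)‖ ≤ C * 48 ^ n}
      add_mem' := by
        rintro a b ⟨C, hC⟩ ⟨D, hD⟩
        refine ⟨C + D, fun n => ?_⟩
        rw [map_add, map_add, add_mul]
        exact (norm_add_le _ _).trans (add_le_add (hC n) (hD n))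
      zero_mem' := ⟨0, fun n => by simp⟩
      smul_mem' := by
        rintro c a ⟨C, hC⟩
        refine ⟨‖c‖ * C, fun n => ?_⟩
        rw [map_smul, map_smul, norm_smul, mul_assoc]
        exact mul_le_mul_of_nonneg_left (hC n) (norm_nonneg _) }
  have hG : Submodule.span ℂ (Kg T' ι' lt) ≤ G := by
    rw [Submodule.span_le]
    rintro _ ⟨x, i, η, rfl⟩
    have hx := T.span_unitary x
    induction hx using Submodule.span_induction with
    | mem u hu =>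
      refine ⟨‖T1_b T' ι' π u (lt i) (1 ⊗ₜ[ℂ] η)‖, fun n => ?_⟩
      have e1 : Q (T'.L (ι' u) (lt i η)) = T1_b T' ι' π u (lt i) (1 ⊗ₜ[ℂ] η) := by
        rw [T1_b_tmul, hQ, map_mul, map_mul, mul_apply_eq_comp]
      rw [e1, hS]
      exact T1_range (hC.same i) (hC.comm i) π hπ hs w hw hu n _
    | zero => simp
    | add a b _ _ ha hb => simpa using G.add_mem ha hb
    | smul c a _ ha => simpa using G.smul_mem c ha
  have hcl : IsClosed {ξ : H' | ‖S ξ‖ ≤ 48 * ‖ξ‖} := isClosed_le (by fun_prop) (by fun_prop)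
  have key : ‖S ζ‖ ≤ 48 * ‖ζ‖ := by
    refine closure_minimal (fun ξ hξ => ?_) hcl hζ
    obtain ⟨C, hC'⟩ := hG hξ
    have e1 := log_convex hSa (by norm_num) hC'
    rw [← mul_apply_eq_comp, hSQ] at e1
    refine e1.trans (mul_le_mul_of_nonneg_left ((Q.le_opNorm ξ).trans ?_) (by norm_num))
    exact mul_le_of_le_one_left (norm_nonneg _) hQ1
  rw [hS, sum_apply] at key
  exact key

end Pool.Agent.TS
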