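import Pool.Agent.P.MP_e05717_an.Basic
import Pool.Agent.P.MP_e05717_an.RDefs

/-!
Row TS-Th. The algebra of the map `Θ` and of the defects (paper section 6, first lines).
Hints: `V i * (ρ q * e₀) = V i` because `ρ q * e₀` is a projection (C*-identity,
`CStarRing.star_mul_self_eq_zero_iff`). Norm bounds: for the orthogonal family `V i`,
`‖L (∑ V i * y i * star (V i)) ξ‖² = ∑ ‖L (V i * y i) (L (star (V i)) ξ)‖²` and
`∑ ‖L (star (V i)) ξ‖² = ‖L q ξ‖²`; `T.norm_L`.
-/

open scoped ComplexOrder InnerProductSpace ComplexConjugate ENNReal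
open Filter Topology Pool.Agent.P.MP_5d580a_an

set_option linter.unusedSectionVars false
set_option linter.unusedVariables false

noncomputable section

namespace Pool.Agent.TS

variable {A H : Type} [CStarAlgebra A] [NormedAddCommGroup H] [InnerProductSpace ℂ H]
  [CompleteSpace H]
variable {ι : Type} [Fintype ι] [DecidableEq ι]

variable {T : TW A H} {α ρ : A →⋆ₐ[ℂ] A} {q e₀ : A} {V : ι → A}

theorem Del_nonneg (T : TW A H) (α : A →⋆ₐ[ℂ] A) (g x : A) : 0 ≤ Del T α g x :=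
  T.n2_nonneg _

theorem Del_one (T : TW A H) (α : A →⋆ₐ[ℂ] A) (x : A) : Del T α 1 x = 0 := by
  rw [Del, map_one, one_mul, mul_one, sub_self, T.n2_zero]

theorem Del_mul_le (T : TW A H) (α : A →⋆ₐ[ℂ] A) {u w : A} (hu : ‖u‖ ≤ 1) (hw : ‖w‖ ≤ 1) (x : A) :
    Del T α (u * w) x ≤ Del T α u x + Del T α w x := by
  have e : α (u * w) * x - x * (u * w) = (α u * x - x * u) * w + α u * (α w * x - x * w) := by
    rw [map_mul]
    noncomm_ring
  have h1 := T.n2_mul_right (α u * x - x * u) w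
  have h2 := T.n2_mul_left (α u) (α w * x - x * w)
  have h3 := mul_le_of_le_one_right (T.n2_nonneg (α u * x - x * u)) hw
  have h4 := mul_le_of_le_one_left (T.n2_nonneg (α w * x - x * w)) ((hom_norm_le α u).trans hu)
  rw [Del, e]
  exact (T.n2_add_le _ _).trans (add_le_add (h1.trans h3) (h2.trans h4))

theorem Del_star (T : TW A H) (α : A →⋆ₐ[ℂ] A) {u : A} (hu : u ∈ unitary A) (x : A) :
    Del T α (star u) x = Del T α u x := by
  have h1 : α (star u) * α u = 1 := by rw [← map_mul, hu.1, map_one]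
  have e : α (star u) * x - x * star u = -(α (star u) * ((α u * x - x * u) * star u)) := by
    rw [sub_mul, mul_sub, mul_assoc x, hu.2, mul_one, ← mul_assoc, ← mul_assoc, h1, one_mul,
      neg_sub]
  rw [Del, e, T.n2_neg, T.n2_unitary_mul (hom_unitary α (Unitary.star_mem hu)),
    T.n2_mul_unitary (Unitary.star_mem hu), Del]

theorem Del_conj (T : TW A H) (α : A →⋆ₐ[ℂ] A) {u : A} (hu : u ∈ unitary A) (x : A) :
    T.n2 (α u * x * star u - x) = Del T α u x := by
  have e : α u * x * star u - x = (α u * x - x * u) * star u := by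
    rw [sub_mul, mul_assoc x, hu.2, mul_one]
  rw [e, T.n2_mul_unitary (Unitary.star_mem hu), Del]

theorem Del_lip (T : TW A H) (α : A →⋆ₐ[ℂ] A) {g : A} (hg : ‖g‖ ≤ 1) (x x' : A) :
    Del T α g x ≤ Del T α g x' + 2 * T.n2 (x - x') := by
  have e : α g * x - x * g = α g * x' - x' * g + (α g * (x - x') - (x - x') * g) := by
    noncomm_ring
  have h1 := (T.n2_mul_left (α g) (x - x')).trans
    (mul_le_of_le_one_left (T.n2_nonneg _) ((hom_norm_le α g).trans hg))
  have h2 := (T.n2_mul_right (x - x') g).trans (mul_le_of_le_one_right (T.n2_nonneg _) hg)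
  have h3 := T.n2_sub_le (α g * (x - x')) ((x - x') * g)
  have h4 := T.n2_add_le (α g * x' - x' * g) (α g * (x - x') - (x - x') * g)
  rw [Del, Del, e]
  linarith

theorem Del_mul_right (T : TW A H) (α : A →⋆ₐ[ℂ] A) {g y : A} (h : y * g = g * y) (x : A) :
    Del T α g (x * y) ≤ Del T α g x * ‖y‖ := by
  have e : α g * (x * y) - x * y * g = (α g * x - x * g) * y := by
    rw [mul_assoc x, h]
    noncomm_ring
  rw [Del, e]
  exact T.n2_mul_right _ _

theorem Del_smul (T : TW A H) (α : A →⋆ₐ[ℂ] A) (g x : A) (μ : ℂ) :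
    Del T α g (μ • x) = ‖μ‖ * Del T α g x := by
  rw [Del, Del, mul_smul_comm, smul_mul_assoc, ← smul_sub, T.n2_smul]

theorem Del_mul_q (T : TW A H) {u x : A} (hx : InX α q x) (hu : u * q = q * u) :
    Del T α (u * q) x = Del T α u x := by
  rw [Del, Del, map_mul, mul_assoc, hx.1, hu, ← mul_assoc, hx.2.1]

/-- commutator of a product of two almost intertwiners -/
theorem comm_le_Del (T : TW A H) {u x x' : A} (hu : u ∈ unitary A) (hx : ‖x‖ ≤ 1) (hx' : ‖x'‖ ≤ 1) :
    T.n2 (u * (star x' * x) - star x' * x * u) ≤ Del T α u x + Del T α u x' := by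
  have e : u * (star x' * x) - star x' * x * u =
      star x' * (α u * x - x * u) - star (α (star u) * x' - x' * star u) * x := by
    rw [star_sub, star_mul, star_mul, star_star, map_star, star_star]
    noncomm_ring
  have h1 := (T.n2_mul_left (star x') (α u * x - x * u)).trans
    (mul_le_of_le_one_left (T.n2_nonneg _) ((norm_star x').trans_le hx'))
  have h2 := (T.n2_mul_right (star (α (star u) * x' - x' * star u)) x).trans
    (mul_le_of_le_one_right (T.n2_nonneg _) hx)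
  rw [T.n2_star] at h2
  rw [e, ← Del_star T α hu x']
  exact (T.n2_sub_le _ _).trans (add_le_add h1 h2)

theorem UQ.one : UQ q 1 :=
  ⟨one_mem _, by rw [one_mul, mul_one]⟩

theorem UQ.mul {u w : A} (hu : UQ q u) (hw : UQ q w) : UQ q (u * w) :=
  ⟨mul_mem hu.1 hw.1, by rw [mul_assoc, hw.2, ← mul_assoc, hu.2, mul_assoc]⟩

theorem UQ.star (hq : IsStarProjection q) {u : A} (hu : UQ q u) : UQ q (star u) := by
  refine ⟨Unitary.star_mem hu.1, ?_⟩
  have h := congrArg Star.star hu.2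
  rw [star_mul, star_mul, hq.isSelfAdjoint.star_eq] at h
  exact h.symm

theorem InX.conj (T : TW A H) {u x : A} (hx : InX α q x) (hq : IsStarProjection q) (hu : UQ q u) :
    InX α q (α u * x * star u) := by
  refine ⟨?_, ?_, ?_⟩
  · rw [← mul_assoc, ← mul_assoc, ← map_mul, ← hu.2, map_mul, mul_assoc (α u), hx.1]
  · rw [mul_assoc, (hu.star hq).2, ← mul_assoc, mul_assoc (α u), hx.2.1]
  · have h1 := T.norm_unitary (hom_unitary α hu.1)
    have h2 := T.norm_unitary (Unitary.star_mem hu.1)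
    have h3 := norm_mul_le (α u * x) (star u)
    have h4 := norm_mul_le (α u) x
    rw [h2, mul_one] at h3
    rw [h1, one_mul] at h4
    exact h3.trans (h4.trans hx.2.2)


theorem Th_norm_le (T : TW A H) {S : A} {c : ℝ} (hc : 0 ≤ c)
    (h : ∀ z, T.n2 (S * z) ≤ c * T.n2 z) : ‖S‖ ≤ c := by
  rw [← T.norm_L]
  refine ContinuousLinearMap.opNorm_le_bound _ hc fun ξ => ?_
  refine T.dense_v.induction_on ξ (isClosed_le (by fun_prop) (by fun_prop)) fun z => ?_
  rw [← T.v_mul]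
  exact h z

theorem Th_orth {W : ι → A} (ho : ∀ i j, i ≠ j → star (W i) * W j = 0) {i j : ι} (hij : i ≠ j)
    (a b : A) : T.τ (star (W i * a) * (W j * b)) = 0 := by
  rw [star_mul, mul_assoc, ← mul_assoc (star (W i)), ho i j hij, zero_mul, mul_zero, map_zero]

theorem Th_starV {W : ι → A} {p : A} (ho : ∀ i j, i ≠ j → star (W i) * W j = 0)
    (hs : ∀ i, star (W i) * W i = p) (b : ι → A) (i : ι) :
    star (W i) * ∑ j, W j * b j = p * b i := by
  rw [Finset.mul_sum, Finset.sum_eq_single i, ← mul_assoc, hs]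
  · intro j _ hj
    rw [← mul_assoc, ho i j hj.symm, zero_mul]
  · exact fun hi => absurd (Finset.mem_univ i) hi

theorem Th_mul {W : ι → A} {p : A} (ho : ∀ i j, i ≠ j → star (W i) * W j = 0)
    (hs : ∀ i, star (W i) * W i = p) (a b : ι → A) :
    (∑ i, a i * star (W i)) * ∑ j, W j * b j = ∑ i, a i * (p * b i) := by
  rw [Finset.sum_mul]
  exact Finset.sum_congr rfl fun i _ => by rw [mul_assoc, Th_starV ho hs]

theorem Th_dia (ρ : A →⋆ₐ[ℂ] A) (V : ι → A) (lam : ι → ℂ) :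
    dia V lam = Gm ρ V fun i => lam i • (1 : A) := by
  simp [dia, Gm]

theorem Th_Del_add {x : A} (hx : InX α q x) (g : A) : Del T α (g + (1 - q)) x = Del T α g x := by
  rw [Del, Del, map_add, map_sub, map_one, add_mul, sub_mul, one_mul, hx.1, sub_self, add_zero,
    mul_add, mul_sub, mul_one, hx.2.1, sub_self, add_zero]

namespace Frame

theorem Th_pp (h : Frame T ρ q e₀ V) : ρ q * e₀ * (ρ q * e₀) = ρ q * e₀ := by
  rw [mul_assoc, ← mul_assoc e₀, h.e_comm, mul_assoc, h.e_proj.isIdempotentElem.eq, ← mul_assoc,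
    ← map_mul, h.q_proj.isIdempotentElem.eq]

theorem Th_sp (h : Frame T ρ q e₀ V) : star (ρ q * e₀) = ρ q * e₀ := by
  rw [star_mul, ← map_star, h.q_proj.isSelfAdjoint.star_eq, h.e_proj.isSelfAdjoint.star_eq,
    h.e_comm]

theorem Th_Vp (h : Frame T ρ q e₀ V) (i : ι) : V i * (ρ q * e₀) = V i := by
  rw [← sub_eq_zero, ← CStarRing.star_mul_self_eq_zero_iff, star_sub, star_mul, h.Th_sp, sub_mul,
    mul_assoc (ρ q * e₀), mul_sub, ← mul_assoc (star (V i)), h.same, h.Th_pp, sub_self, mul_zero,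
    sub_self]

theorem Th_sumV (h : Frame T ρ q e₀ V) (a : ι → A) (i : ι) :
    (∑ j, a j * star (V j)) * V i = a i * (ρ q * e₀) := by
  rw [Finset.sum_mul, Finset.sum_eq_single i, mul_assoc, h.same]
  · intro j _ hj
    rw [mul_assoc, h.diff j i hj, mul_zero]
  · exact fun hi => absurd (Finset.mem_univ i) hi

theorem V_ρq (h : Frame T ρ q e₀ V) (i : ι) : V i * ρ q = V i := by
  rw [← h.Th_Vp i, mul_assoc, mul_assoc, h.e_comm, ← mul_assoc (ρ q), ← map_mul,
    h.q_proj.isIdempotentElem.eq]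

theorem V_e (h : Frame T ρ q e₀ V) (i : ι) : V i * e₀ = V i := by
  rw [← h.Th_Vp i, mul_assoc, mul_assoc, h.e_proj.isIdempotentElem.eq]

theorem q_V (h : Frame T ρ q e₀ V) (i : ι) : q * V i = V i := by
  rw [← h.sum, h.Th_sumV, h.Th_Vp]

theorem Th_ρqV (h : Frame T ρ q e₀ V) (i : ι) : ρ q * star (V i) = star (V i) := by
  have := congrArg star (h.V_ρq i)
  rwa [star_mul, ← map_star, h.q_proj.isSelfAdjoint.star_eq] at this

theorem Th_eV (h : Frame T ρ q e₀ V) (i : ι) : e₀ * star (V i) = star (V i) := by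
  have := congrArg star (h.V_e i)
  rwa [star_mul, h.e_proj.isSelfAdjoint.star_eq] at this

theorem Th_Vq (h : Frame T ρ q e₀ V) (i : ι) : star (V i) * q = star (V i) := by
  have := congrArg star (h.q_V i)
  rwa [star_mul, h.q_proj.isSelfAdjoint.star_eq] at this

theorem Th_pV (h : Frame T ρ q e₀ V) {g : A} (hg : g * q = q * g) (i : ι) :
    ρ q * e₀ * (ρ g * star (V i)) = ρ g * star (V i) := by
  rw [mul_assoc, ← mul_assoc e₀, h.e_comm, mul_assoc, h.Th_eV, ← mul_assoc, ← map_mul, ← hg,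
    map_mul, mul_assoc, h.Th_ρqV]

theorem Th_Vgp (h : Frame T ρ q e₀ V) {g : A} (hg : g * q = q * g) (i : ι) :
    V i * ρ g * (ρ q * e₀) = V i * ρ g := by
  rw [mul_assoc, ← mul_assoc (ρ g), ← map_mul, hg, map_mul, mul_assoc, ← h.e_comm, ← mul_assoc,
    ← mul_assoc, h.V_ρq, h.V_e]

theorem Th_normV (h : Frame T ρ q e₀ V) (i : ι) : ‖V i‖ ≤ 1 := by
  have hp : IsStarProjection (ρ q * e₀) := ⟨h.Th_pp, h.Th_sp⟩
  have h1 := hp.norm_le
  rw [← h.same i, CStarRing.norm_star_mul_self] at h1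
  nlinarith [norm_nonneg (V i)]

theorem Th_norm (h : Frame T ρ q e₀ V) {W y : ι → A} (ho : ∀ i j, i ≠ j → star (W i) * W j = 0)
    (hW : ∀ i, ‖W i‖ ≤ 1) {c : ℝ} (hc : 0 ≤ c) (hy : ∀ i, ‖y i‖ ≤ c) :
    ‖∑ i, W i * y i * star (V i)‖ ≤ c := by
  refine Th_norm_le T hc fun z => ?_
  refine (pow_le_pow_iff_left₀ (T.n2_nonneg _) (mul_nonneg hc (T.n2_nonneg _)) two_ne_zero).1 ?_
  have h1 : T.n2 (q * z) ^ 2 = ∑ i, T.n2 (V i * (star (V i) * z)) ^ 2 := by
    rw [← h.sum, Finset.sum_mul]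
    simp only [mul_assoc]
    exact T.n2_sum_orth _ _ fun i _ j _ hij => Th_orth h.diff hij _ _
  have h2 : T.n2 (q * z) ≤ T.n2 z :=
    (T.n2_mul_left _ _).trans (mul_le_of_le_one_left (T.n2_nonneg _) h.q_proj.norm_le)
  rw [Finset.sum_mul]
  simp only [mul_assoc]
  rw [T.n2_sum_orth _ _ fun i _ j _ hij => Th_orth ho hij _ _, mul_pow]
  refine le_trans ?_ (mul_le_mul_of_nonneg_left (pow_le_pow_left₀ (T.n2_nonneg _) h2 2)
    (sq_nonneg c))
  rw [h1, Finset.mul_sum]
  refine Finset.sum_le_sum fun i _ => ?_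
  rw [← mul_pow]
  refine pow_le_pow_left₀ (T.n2_nonneg _) ?_ 2
  have h3 : T.n2 (star (V i) * z) ≤ T.n2 (V i * (star (V i) * z)) := by
    have e : star (V i) * z = star (V i) * (V i * (star (V i) * z)) := by
      rw [← mul_assoc, ← mul_assoc, h.same, mul_assoc (ρ q), h.Th_eV, h.Th_ρqV]
    exact (congrArg T.n2 e).trans_le ((T.n2_mul_left _ _).trans
      (mul_le_of_le_one_left (T.n2_nonneg _) ((norm_star _).trans_le (h.Th_normV i))))
  exact ((T.n2_mul_left _ _).trans (mul_le_of_le_one_left (T.n2_nonneg _) (hW i))).trans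
    ((T.n2_mul_left _ _).trans (mul_le_mul (hy i) h3 (T.n2_nonneg _) hc))

theorem Th_Gm_left (h : Frame T ρ q e₀ V) {g : ι → A} (hg : ∀ i, g i * q = q * g i) (g' : ι → A) :
    Gm ρ V g * Gm ρ V g' = Gm ρ V fun i => g i * g' i := by
  have e : Gm ρ V g' = ∑ j, V j * (ρ (g' j) * star (V j)) := by simp only [Gm, mul_assoc]
  rw [e, Gm, Th_mul h.diff h.same]
  refine Finset.sum_congr rfl fun i _ => ?_
  rw [← mul_assoc, h.Th_Vgp (hg i), map_mul, mul_assoc, mul_assoc, mul_assoc]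

theorem Th_Gm_right (h : Frame T ρ q e₀ V) (g : ι → A) {g' : ι → A}
    (hg : ∀ i, g' i * q = q * g' i) : Gm ρ V g * Gm ρ V g' = Gm ρ V fun i => g i * g' i := by
  have e : Gm ρ V g' = ∑ j, V j * (ρ (g' j) * star (V j)) := by simp only [Gm, mul_assoc]
  rw [e, Gm, Th_mul h.diff h.same]
  refine Finset.sum_congr rfl fun i _ => ?_
  rw [h.Th_pV (hg i), map_mul, mul_assoc, mul_assoc, mul_assoc]

theorem Th_Gm_star (g : ι → A) : star (Gm ρ V g) = Gm ρ V fun i => star (g i) := by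
  simp only [Gm, star_sum, star_mul, star_star, map_star, mul_assoc]

theorem Th_Gm_one (h : Frame T ρ q e₀ V) : (Gm ρ V fun _ => 1) = q := by
  simp only [Gm, map_one, mul_one, h.sum]

theorem Th_UQ (h : Frame T ρ q e₀ V) {g : ι → A} (hg : ∀ i, UQ q (g i)) :
    UQ q (Gm ρ V g + (1 - q)) := by
  have hq := h.q_proj.isIdempotentElem.eq
  have h1 : ∀ g : ι → A, q * Gm ρ V g = Gm ρ V g := fun g => by
    simp only [Gm, Finset.mul_sum, ← mul_assoc, h.q_V]
  have h2 : ∀ g : ι → A, Gm ρ V g * q = Gm ρ V g := fun g => by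
    simp only [Gm, Finset.sum_mul, mul_assoc, h.Th_Vq]
  have h3 : ∀ g g' : ι → A, Gm ρ V g * Gm ρ V g' = q →
      (Gm ρ V g + (1 - q)) * (Gm ρ V g' + (1 - q)) = 1 := fun g g' e => by
    simp only [add_mul, mul_add, sub_mul, mul_sub, one_mul, mul_one, h1, h2, hq, e]
    abel
  have h4 : star (Gm ρ V g + (1 - q)) = (Gm ρ V fun i => star (g i)) + (1 - q) := by
    rw [star_add, Th_Gm_star, star_sub, star_one, h.q_proj.isSelfAdjoint.star_eq]
  refine ⟨⟨?_, ?_⟩, ?_⟩
  · rw [h4]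
    refine h3 _ _ ?_
    simp only [h.Th_Gm_right _ fun i => (hg i).2, (hg _).1.1, h.Th_Gm_one]
  · rw [h4]
    refine h3 _ _ ?_
    simp only [h.Th_Gm_left fun i => (hg i).2, (hg _).1.2, h.Th_Gm_one]
  · simp only [add_mul, mul_add, sub_mul, mul_sub, one_mul, mul_one, h1, h2]

theorem Th_dia_V (h : Frame T ρ q e₀ V) (lam : ι → ℂ) (i : ι) : dia V lam * V i = lam i • V i := by
  simp only [dia, ← smul_mul_assoc]
  rw [h.Th_sumV, smul_mul_assoc, h.Th_Vp]

theorem Th_V_dia (h : Frame T ρ q e₀ V) (lam : ι → ℂ) (i : ι) :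
    star (V i) * dia V lam = lam i • star (V i) := by
  simp only [dia, ← mul_smul_comm]
  rw [Th_starV h.diff h.same, mul_smul_comm, mul_assoc, h.Th_eV, h.Th_ρqV]

theorem τ_VV (h : Frame T ρ q e₀ V) (i k j l : ι) :
    T.τ (star (V i * star (V k)) * (V j * star (V l))) =
      if i = j ∧ k = l then T.τ q / (Fintype.card ι : ℂ) else 0 := by
  rw [star_mul, star_star, mul_assoc, ← mul_assoc (star (V i))]
  by_cases hij : i = j
  · subst hij
    rw [h.same, ← mul_assoc, h.Th_Vp, T.τ_comm]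
    by_cases hkl : k = l
    · subst hkl
      rw [h.same, h.e_tr, if_pos ⟨rfl, rfl⟩]
    · rw [h.diff l k (Ne.symm hkl), map_zero, if_neg fun hh => hkl hh.2]
  · rw [h.diff i j hij, zero_mul, mul_zero, map_zero, if_neg fun hh => hij hh.1]

theorem norm_Gm (h : Frame T ρ q e₀ V) {g : ι → A} (hg : ∀ i, ‖g i‖ ≤ 1) : ‖Gm ρ V g‖ ≤ 1 :=
  h.Th_norm h.diff h.Th_normV zero_le_one fun i => (hom_norm_le ρ _).trans (hg i)

theorem norm_dia (h : Frame T ρ q e₀ V) {lam : ι → ℂ} {c : ℝ} (hc : 0 ≤ c)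
    (hl : ∀ i, ‖lam i‖ ≤ c) : ‖dia V lam‖ ≤ c := by
  rw [Th_dia ρ]
  refine h.Th_norm h.diff h.Th_normV hc fun i => (hom_norm_le ρ _).trans ?_
  rw [norm_smul, T.norm_one, mul_one]
  exact hl i

theorem dia_Gm (h : Frame T ρ q e₀ V) (lam : ι → ℂ) (g : ι → A) :
    dia V lam * Gm ρ V g = Gm ρ V g * dia V lam := by
  have hc : ∀ i, lam i • (1 : A) * q = q * lam i • (1 : A) := fun i => by simp
  rw [Th_dia ρ, h.Th_Gm_left hc, h.Th_Gm_right _ hc]
  simp

theorem dia_one (h : Frame T ρ q e₀ V) : dia V (fun _ => 1) = q := by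
  simp only [dia, one_smul, h.sum]

theorem bb_UQ (h : Frame T ρ q e₀ V) {a : Fin 144 → A} (ha : ∀ j, UQ q (a j)) (j : Fin 144) :
    UQ q (bb ρ V q a j) :=
  h.Th_UQ fun _ => ha j

theorem dd_UQ (h : Frame T ρ q e₀ V) {Δ : Type} {sgn : ι → Δ → ℝ}
    (hs : ∀ i δ, sgn i δ = 1 ∨ sgn i δ = -1) (δ : Δ) : UQ q (dd V q sgn δ) := by
  rw [dd, Th_dia ρ]
  refine h.Th_UQ fun i => ⟨?_, by simp⟩
  rcases hs i δ with h1 | h1 <;> simp [h1, Unitary.mem_iff]

theorem dd_VV (h : Frame T ρ q e₀ V) {Δ : Type} (sgn : ι → Δ → ℝ) (δ : Δ) (i k : ι) :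
    dd V q sgn δ * (V i * star (V k)) = (sgn i δ : ℂ) • (V i * star (V k)) ∧
      V i * star (V k) * dd V q sgn δ = (sgn k δ : ℂ) • (V i * star (V k)) := by
  constructor
  · rw [dd, ← mul_assoc, add_mul, sub_mul, one_mul, h.q_V, sub_self, add_zero, h.Th_dia_V,
      smul_mul_assoc]
  · rw [dd, mul_assoc, mul_add, mul_sub, mul_one, h.Th_Vq, sub_self, add_zero, h.Th_V_dia,
      mul_smul_comm]

theorem Th_inX (h : Frame T ρ q e₀ V) (hα : Defo T ρ e₀ α) {x : A} (hx : InX α q x) :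
    InX α q (Th α ρ V x) := by
  refine ⟨?_, ?_, h.Th_norm (fun i j hij => ?_) (fun i => (hom_norm_le α _).trans (h.Th_normV i))
    zero_le_one fun _ => (hom_norm_le ρ _).trans hx.2.2⟩
  · simp only [Th, Finset.mul_sum, ← mul_assoc, ← map_mul, h.q_V]
  · simp only [Th, Finset.sum_mul, mul_assoc, h.Th_Vq]
  · rw [← map_star, ← map_mul, h.diff i j hij, map_zero]

theorem Del_Gm (h : Frame T ρ q e₀ V) (hα : Defo T ρ e₀ α) {g : ι → A}
    (hg : ∀ i, g i * q = q * g i) {x : A} (hx : InX α q x) :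
    Del T α (Gm ρ V g) (Th α ρ V x) ^ 2 = (∑ i, Del T α (g i) x ^ 2) / Fintype.card ι := by
  have ho : ∀ i j, i ≠ j → star (α (V i)) * α (V j) = 0 := fun i j hij => by
    rw [← map_star, ← map_mul, h.diff i j hij, map_zero]
  have hs : ∀ i, star (α (V i)) * α (V i) = ρ (α q) * e₀ := fun i => by
    rw [← map_star, ← map_mul, h.same, map_mul, hα.comm, hα.fix]
  have e1 : α (Gm ρ V g) * Th α ρ V x = ∑ i, α (V i) * ρ (α (g i) * x) * star (V i) := by
    simp only [Gm, Th, map_sum, map_mul, map_star, hα.comm, mul_assoc]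
    simp only [← mul_assoc (α (V _)) (ρ (α (g _)))]
    rw [Th_mul ho hs]
    refine Finset.sum_congr rfl fun i _ => ?_
    rw [mul_assoc, mul_assoc (ρ (α q)), ← mul_assoc e₀, h.e_comm, mul_assoc (ρ x), h.Th_eV,
      ← mul_assoc (ρ (α q)), ← map_mul, hx.1, mul_assoc]
  have e2 : Th α ρ V x * Gm ρ V g = ∑ i, α (V i) * ρ (x * g i) * star (V i) := by
    simp only [Gm, Th, mul_assoc (V _)]
    rw [Th_mul h.diff h.same]
    refine Finset.sum_congr rfl fun i _ => ?_
    rw [h.Th_pV (hg i), map_mul]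
    simp only [mul_assoc]
  have e3 : α (Gm ρ V g) * Th α ρ V x - Th α ρ V x * Gm ρ V g =
      ∑ i, α (V i) * ρ (α (g i) * x - x * g i) * star (V i) := by
    rw [e1, e2, ← Finset.sum_sub_distrib]
    simp only [map_sub, mul_sub, sub_mul]
  rw [Del, e3, T.n2_sum_orth _ _ fun i _ j _ hij => by rw [mul_assoc, mul_assoc, Th_orth ho hij],
    Finset.sum_div]
  refine Finset.sum_congr rfl fun i _ => ?_
  have d1 : α q * (α (g i) * x - x * g i) = α (g i) * x - x * g i := by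
    rw [mul_sub, ← mul_assoc, ← map_mul, ← hg i, map_mul, mul_assoc, hx.1, ← mul_assoc, hx.1]
  have d2 : (α (g i) * x - x * g i) * q = α (g i) * x - x * g i := by
    rw [sub_mul, mul_assoc, hx.2.1, mul_assoc, hg i, ← mul_assoc, hx.2.1]
  rw [Del]
  generalize α (g i) * x - x * g i = d at d1 d2
  have e4 : star (α (V i) * ρ d * star (V i)) * (α (V i) * ρ d * star (V i)) =
      V i * ρ (star d * d) * star (V i) := by
    simp only [star_mul, star_star, mul_assoc]
    rw [← mul_assoc (star (α (V i))), hs, mul_assoc, ← mul_assoc e₀, h.e_comm, mul_assoc,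
      h.Th_eV, ← mul_assoc (ρ (α q)), ← map_mul, d1, map_mul, map_star, mul_assoc]
  have e5 : T.τ (V i * ρ (star d * d) * star (V i)) = T.τ (star d * d) / (Fintype.card ι : ℂ) := by
    rw [mul_assoc, T.τ_comm, mul_assoc, h.same, ← mul_assoc, ← map_mul, mul_assoc, d2, h.e_tr]
  have e6 := T.τ_star_mul_self (α (V i) * ρ d * star (V i))
  rw [e4, e5, T.τ_star_mul_self] at e6
  exact_mod_cast e6.symm

theorem Del_bb (h : Frame T ρ q e₀ V) (hα : Defo T ρ e₀ α) {a : Fin 144 → A}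
    (ha : ∀ j, UQ q (a j)) {x : A} (hx : InX α q x) (j : Fin 144) :
    Del T α (bb ρ V q a j) (Th α ρ V x) ≤ Del T α (a j) x := by
  rw [bb, Th_Del_add (h.Th_inX hα hx)]
  refine (pow_le_pow_iff_left₀ (Del_nonneg _ _ _ _) (Del_nonneg _ _ _ _) two_ne_zero).1 ?_
  rw [h.Del_Gm hα (fun _ => (ha j).2) hx, Finset.sum_const, Finset.card_univ, nsmul_eq_mul]
  exact div_le_of_le_mul₀ (Nat.cast_nonneg _) (sq_nonneg _) (mul_comm _ _).le

theorem Del_dd (h : Frame T ρ q e₀ V) (hα : Defo T ρ e₀ α) {Δ : Type} (sgn : ι → Δ → ℝ) (δ : Δ)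
    {x : A} (hx : InX α q x) : Del T α (dd V q sgn δ) (Th α ρ V x) = 0 := by
  rw [dd, Th_Del_add (h.Th_inX hα hx), Th_dia ρ]
  refine (pow_eq_zero_iff two_ne_zero).1 ?_
  rw [h.Del_Gm hα (fun i => by simp) hx, Finset.sum_eq_zero fun i _ => ?_, zero_div]
  rw [Del, map_smul, map_one, smul_mul_assoc, mul_smul_comm, one_mul, mul_one, sub_self, T.n2_zero,
    zero_pow two_ne_zero]

theorem Th_base (h : Frame T ρ q e₀ V) (hα : Defo T ρ e₀ α) :
    Th α ρ V (α q * q) = ∑ i, α (V i) * star (V i) := by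
  refine Finset.sum_congr rfl fun i _ => ?_
  rw [map_mul, ← hα.comm, ← mul_assoc, ← map_mul, h.V_ρq, mul_assoc, h.Th_ρqV]


end Frame

end Pool.Agent.TS
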