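import Pool.Agent.P.MP_e05717_an.MU1
import Pool.Agent.P.MP_e05717_an.Lp

/-!
Row TS-ThetaJ. The isometry `J` of paper section 4.
Hints: `V` from `TP.exists_iso`; `φ : ι × ℕ ≃ ℕ` with `φ (i₀, 0) = 0` (any equivalence composed with a
swap); `S i = pe (n ↦ some (φ (i, n)))`; `J = ∑ i, amp (√m • L (e i i₀) ∘ V) * star (S i)`. Check on the
vectors `sg n (v x)` (`lp_ext`, `T.ext_v`), `MU.τ_mul`, `decomp`.
-/

open scoped ComplexOrder InnerProductSpace ComplexConjugate ENNReal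
open Filter Topology Pool.Agent.P.MP_5d580a_an

set_option linter.unusedSectionVars false
set_option linter.unusedVariables false

noncomputable section

namespace Pool.Agent.TS

variable {A H : Type} [CStarAlgebra A] [NormedAddCommGroup H] [InnerProductSpace ℂ H]
  [CompleteSpace H]
variable {ι : Type} [Fintype ι] [DecidableEq ι]

theorem ThetaJ_equiv (i₀ : ι) : ∃ φ : ι × ℕ ≃ ℕ, φ (i₀, 0) = 0 := by
  have : Nonempty ι := ⟨i₀⟩
  obtain ⟨φ⟩ : Nonempty (ι × ℕ ≃ ℕ) := nonempty_equiv_of_countable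
  exact ⟨φ.trans (Equiv.swap (φ (i₀, 0)) 0), by simp⟩

theorem ThetaJ_W (T : TW A H) {e : ι → ι → A} (he : MU e) (i₀ : ι) {ρ : A →⋆ₐ[ℂ] A}
    (hρ : TP T T ρ) (hr : ∀ x, Cm e x ↔ ∃ y, ρ y = x) :
    ∃ W : ι → (H →L[ℂ] H),
      (∀ i x, W i (T.v x) = ((√(Fintype.card ι : ℝ) : ℝ) : ℂ) • T.v (e i i₀ * ρ x)) ∧
      (∀ i j, star (W i) * W j = if i = j then 1 else 0) ∧
      ∑ i, W i * star (W i) = T.R (e i₀ i₀) ∧ ∀ i y, W i * T.R y = T.R (ρ y) * W i := by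
  obtain ⟨V, hV, -⟩ := hρ.exists_iso
  have : Nonempty ι := ⟨i₀⟩
  have hm : (Fintype.card ι : ℂ) ≠ 0 := by exact_mod_cast Fintype.card_ne_zero
  have hcc : ((√(Fintype.card ι : ℝ) : ℝ) : ℂ) * ((√(Fintype.card ι : ℝ) : ℝ) : ℂ) =
      (Fintype.card ι : ℂ) := by
    rw [← Complex.ofReal_mul, Real.mul_self_sqrt (Nat.cast_nonneg _), Complex.ofReal_natCast]
  have hcs : conj ((√(Fintype.card ι : ℝ) : ℝ) : ℂ) = ((√(Fintype.card ι : ℝ) : ℝ) : ℂ) :=
    Complex.conj_ofReal _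
  generalize ((√(Fintype.card ι : ℝ) : ℝ) : ℂ) = c at hcc hcs ⊢
  have hcm : ∀ y, Cm e (ρ y) := fun y => (hr _).2 ⟨y, rfl⟩
  obtain ⟨W, hW⟩ : ∃ W : ι → (H →L[ℂ] H), ∀ i x, W i (T.v x) = c • T.v (e i i₀ * ρ x) :=
    ⟨fun i => c • (T.L (e i i₀) * V), fun i x => by simp [hV, T.v_mul]⟩
  have hS : ∀ i a b y, (star (W i)) (T.v (e a b * ρ y)) =
      if i = a ∧ i₀ = b then (c / Fintype.card ι) • T.v y else 0 := by
    intro i a b y
    refine T.eq_of_inner fun x => ?_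
    rw [ContinuousLinearMap.star_eq_adjoint, ContinuousLinearMap.adjoint_inner_right, hW,
      inner_smul_left, hcs, T.inner_v, star_mul, he.star, ← map_star]
    have e1 : ρ (star x) * e i₀ i * (e a b * ρ y) = (e i₀ i * e a b) * ρ (star x * y) := by
      rw [← hcm (star x) i₀ i, map_mul, mul_assoc (e i₀ i), mul_assoc (e i₀ i),
        ← mul_assoc (ρ (star x)), ← hcm (star x) a b, mul_assoc]
    rw [e1, he.mul]
    by_cases h1 : i = a
    · rw [if_pos h1, he.τ_mul T (hcm _), hρ]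
      by_cases h2 : i₀ = b
      · rw [if_pos h2, if_pos ⟨h1, h2⟩, inner_smul_right, T.inner_v]; ring
      · rw [if_neg h2, if_neg fun h => h2 h.2]; simp
    · rw [if_neg h1, if_neg fun h => h1 h.1]; simp
  have hc1 : c * (c / Fintype.card ι) = 1 := by rw [← mul_div_assoc, hcc, div_self hm]
  refine ⟨W, hW, fun i j => T.ext_v fun x => ?_, T.ext_v fun z => ?_,
    fun i y => T.ext_v fun x => ?_⟩
  · rw [mul_apply_eq_comp, hW, map_smul, hS]
    by_cases h : i = j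
    · rw [if_pos ⟨h, rfl⟩, if_pos h, smul_smul, hc1, one_smul, one_apply_eq_self]
    · rw [if_neg fun h' => h h'.1, if_neg h]; simp
  · obtain ⟨y, hy, rfl⟩ := decomp he z
    simp only [map_sum]
    refine Finset.sum_congr rfl fun a _ => Finset.sum_congr rfl fun b _ => ?_
    obtain ⟨w, hw⟩ := (hr _).1 (hy a b)
    rw [← hw, T.R_v, mul_assoc, ← hcm w i₀ i₀, ← mul_assoc, he.mul,
      sum_apply, Finset.sum_eq_single a]
    · rw [mul_apply_eq_comp, hS]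
      by_cases h : i₀ = b
      · rw [if_pos ⟨rfl, h⟩, if_pos h.symm, map_smul, hW, smul_smul, mul_comm _ c, hc1, one_smul]
      · rw [if_neg fun h' => h h'.2, if_neg fun h' => h h'.symm]; simp
    · intro i _ hi
      rw [mul_apply_eq_comp, hS, if_neg fun h' => hi h'.1, map_zero]
    · simp
  · rw [mul_apply_eq_comp, mul_apply_eq_comp, T.R_v, hW, hW, map_smul,
      T.R_v, map_mul ρ, mul_assoc]

theorem exists_J (T : TW A H) {e : ι → ι → A} (he : MU e) (i₀ : ι) {ρ : A →⋆ₐ[ℂ] A}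
    (hρ : TP T T ρ) (hr : ∀ x, Cm e x ↔ ∃ y, ρ y = x) :
    ∃ (J : LP ℕ H →L[ℂ] LP ℕ H) (φ : ι × ℕ ≃ ℕ), star J * J = 1 ∧
      J * star J = amp ℕ H (T.R (e i₀ i₀)) ∧
      (∀ y, J * amp ℕ H (T.R y) = amp ℕ H (T.R (ρ y)) * J) ∧ φ (i₀, 0) = 0 ∧
      ∀ i n x, J (sg (φ (i, n)) (T.v x)) =
        sg n (((√(Fintype.card ι : ℝ) : ℝ) : ℂ) • T.v (e i i₀ * ρ x)) := by
  obtain ⟨φ, hφ⟩ := ThetaJ_equiv i₀
  obtain ⟨W, hW, h1, h2, h3⟩ := ThetaJ_W T he i₀ hρ hr
  have hP : ∀ i : ι, PInj fun n : ℕ => some (φ (i, n)) := by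
    intro i x x' y hx hx'
    have := φ.injective (Option.some.inj (hx.trans hx'.symm))
    exact (Prod.mk.inj this).2
  obtain ⟨J, hJ, hJs⟩ : ∃ J : LP ℕ H →L[ℂ] LP ℕ H,
      (∀ i n ξ, J (sg (φ (i, n)) ξ) = sg n (W i ξ)) ∧
      ∀ n ξ, (star J) (sg n ξ) = ∑ i, sg (φ (i, n)) ((star (W i)) ξ) := by
    refine ⟨∑ i, amp ℕ H (W i) * star (pe H fun n : ℕ => some (φ (i, n))), ?_, ?_⟩
    · intro i n ξ
      rw [sum_apply, Finset.sum_eq_single i]
      · rw [mul_apply_eq_comp, star_pe_some (hP i) rfl, amp_sg]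
      · intro j _ hj
        rw [mul_apply_eq_comp, star_pe_none (hP j), map_zero]
        intro x hx
        exact hj (Prod.mk.inj (φ.injective (Option.some.inj hx))).1
      · simp
    · intro n ξ
      rw [star_sum, sum_apply]
      refine Finset.sum_congr rfl fun i _ => ?_
      rw [star_mul, star_star, ← map_star, mul_apply_eq_comp, amp_sg, pe_sg (hP i)]
      rfl
  refine ⟨J, φ, lp_ext fun x ξ => ?_, lp_ext fun n ξ => ?_, fun y => lp_ext fun x ξ => ?_, hφ,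
    fun i n x => by rw [hJ, hW]⟩
  · obtain ⟨⟨i, n⟩, rfl⟩ := φ.surjective x
    rw [mul_apply_eq_comp, hJ, hJs, Finset.sum_eq_single i]
    · rw [← mul_apply_eq_comp, h1, if_pos rfl]; rfl
    · intro j _ hj
      rw [← mul_apply_eq_comp, h1, if_neg hj]; exact sg_zero _
    · simp
  · rw [mul_apply_eq_comp, hJs, map_sum, amp_sg, ← h2, sum_apply,
      ← sgL_apply, map_sum]
    refine Finset.sum_congr rfl fun i _ => ?_
    rw [hJ, sgL_apply, mul_apply_eq_comp]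
  · obtain ⟨⟨i, n⟩, rfl⟩ := φ.surjective x
    rw [mul_apply_eq_comp, mul_apply_eq_comp, amp_sg, hJ, hJ, amp_sg,
      ← mul_apply_eq_comp, h3, mul_apply_eq_comp]

end Pool.Agent.TS
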