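import Pool.Agent.P.MP_e05717_an.Trans

/-!
Row TS-Wick1. Wick ordering for the creation calculus and uniqueness of the distribution.
Hints: `wick_one`: the set of operators `y` of the algebra generated by `L d`, `ℓ i`, `star (ℓ i)`
need not be introduced; show by `StarAlgebra.adjoin_induction` (or `Algebra.adjoin` of the star closed
set and left multiplication) that for `y` in the adjoin and each creation word `w` there is `w'` in the
span of creation words with `L y (w ζ) = w' ζ` for all vacuum like `ζ`.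
`wick_two`: grade creation words by their length (an auxiliary inductive predicate with the length),
`L d * ℓ i = L (d * c i) - L d * star (ℓ (bar i))`, and `star (ℓ j)` shortens a word.
`CC.match`: the span of pairs of vectors `(w Ω, w' Ω')` of corresponding creation words with
coefficients in `adjoin S` is stable under all generators and `⟪Ω, ·⟫` agrees on it.
-/

open scoped ComplexOrder InnerProductSpace ComplexConjugate ENNReal
open Filter Topology Pool.Agent.P.MP_5d580a_an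

set_option linter.unusedSectionVars false
set_option linter.unusedVariables false

noncomputable section

namespace Pool.Agent.TS

variable {A H : Type} [CStarAlgebra A] [NormedAddCommGroup H] [InnerProductSpace ℂ H]
  [CompleteSpace H]
variable {A' H' : Type} [CStarAlgebra A'] [NormedAddCommGroup H'] [InnerProductSpace ℂ H']
  [CompleteSpace H']

variable {T : TW A H} {T' : TW A' H'} {D : StarSubalgebra ℂ A} {I : Type} {bar : I → I}
  {ℓ : I → (H →L[ℂ] H)} {c : I → A}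

/-- creation words of positive length -/
def CW1 (T : TW A H) (D : StarSubalgebra ℂ A) (ℓ : I → (H →L[ℂ] H)) : Set (H →L[ℂ] H) :=
  {w | ∃ d ∈ D, ∃ i w', CW T D ℓ w' ∧ w = T.L d * ℓ i * w'}

section Abstract

variable {B M : Type} [Ring B] [Algebra ℂ B] [StarRing B] [StarModule ℂ B] [Ring M] [Algebra ℂ M]

/-- abstract creation words -/
inductive Wick1_W (L : B → M) (E : Set B) (l : I → M) : M → Prop
  | base (d : B) : d ∈ E → Wick1_W L E l (L d)
  | step (d : B) (i : I) (w : M) : d ∈ E → Wick1_W L E l w → Wick1_W L E l (L d * l i * w)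

theorem Wick1_stab {s : Set M} {N : Submodule ℂ M} (hN : ∀ x : M, ∀ n ∈ N, x * n ∈ N) {x : M}
    (hx : ∀ w ∈ s, x * w ∈ Submodule.span ℂ s ⊔ N) :
    ∀ w ∈ Submodule.span ℂ s ⊔ N, x * w ∈ Submodule.span ℂ s ⊔ N := by
  have : Submodule.span ℂ s ⊔ N ≤ (Submodule.span ℂ s ⊔ N).comap (LinearMap.mulLeft ℂ x) :=
    sup_le (Submodule.span_le.2 hx) fun n hn => Submodule.mem_sup_right (hN x n hn)
  exact fun w hw => this hw

theorem Wick1_adj (L : B →ₐ[ℂ] M) (V : Submodule ℂ M) {S : Set B} (hS : ∀ y ∈ S, star y ∈ S)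
    (h : ∀ y ∈ S, ∀ w ∈ V, L y * w ∈ V) {y : B} (hy : y ∈ StarAlgebra.adjoin ℂ S) :
    ∀ w ∈ V, L y * w ∈ V := by
  suffices H : (∀ w ∈ V, L y * w ∈ V) ∧ ∀ w ∈ V, L (star y) * w ∈ V from H.1
  induction hy using StarAlgebra.adjoin_induction with
  | mem x hx => exact ⟨h x hx, h _ (hS x hx)⟩
  | algebraMap r =>
    refine ⟨fun w hw => ?_, fun w hw => ?_⟩
    · rw [AlgHom.commutes, ← Algebra.smul_def]
      exact V.smul_mem _ hw
    · rw [← algebraMap_star_comm, AlgHom.commutes, ← Algebra.smul_def]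
      exact V.smul_mem _ hw
  | add x y _ _ h1 h2 =>
    refine ⟨fun w hw => ?_, fun w hw => ?_⟩
    · rw [map_add, add_mul]
      exact add_mem (h1.1 w hw) (h2.1 w hw)
    · rw [star_add, map_add, add_mul]
      exact add_mem (h1.2 w hw) (h2.2 w hw)
  | mul x y _ _ h1 h2 =>
    refine ⟨fun w hw => ?_, fun w hw => ?_⟩
    · rw [map_mul, mul_assoc]
      exact h1.1 _ (h2.1 w hw)
    · rw [star_mul, map_mul, mul_assoc]
      exact h2.2 _ (h1.2 w hw)
  | star x _ h1 => exact ⟨h1.2, by simpa only [star_star] using h1.1⟩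

/-- abstract Wick ordering modulo a left ideal -/
theorem Wick1_core (L : B →ₐ[ℂ] M) (E : StarSubalgebra ℂ B) (l m : I → M) (k : I → B)
    (N : Submodule ℂ M) (hN : ∀ x : M, ∀ n ∈ N, x * n ∈ N)
    (hc : ∀ i, L (k i) = l i + m (bar i)) (hs : ∀ i, star (k i) = k (bar i))
    (hm : ∀ i j, ∀ d ∈ E, ∃ s : ℂ, m i * L d * l j = s • (1 : M))
    (hv : ∀ i, ∀ d ∈ E, m i * L d ∈ N) {y : B}
    (hy : y ∈ StarAlgebra.adjoin ℂ ((E : Set B) ∪ Set.range k)) :
    L y ∈ Submodule.span ℂ {w | Wick1_W L E l w} ⊔ N := by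
  have hin : ∀ w, Wick1_W L E l w → w ∈ Submodule.span ℂ {w | Wick1_W L E l w} ⊔ N :=
    fun w hw => Submodule.mem_sup_left (Submodule.subset_span hw)
  have h := Wick1_adj L (Submodule.span ℂ {w | Wick1_W L E l w} ⊔ N) ?_ ?_ hy (L 1)
    (hin _ (.base 1 (one_mem E)))
  · rwa [map_one, mul_one] at h
  · rintro y (hy | ⟨i, rfl⟩)
    · exact Or.inl (star_mem hy)
    · exact Or.inr ⟨_, (hs i).symm⟩
  · rintro y (hy | ⟨i, rfl⟩)
    · refine Wick1_stab hN fun w hw => hin _ ?_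
      rcases hw with ⟨d, hd⟩ | ⟨d, i, w, hd, hw⟩
      · rw [← map_mul]
        exact .base _ (mul_mem hy hd)
      · rw [← mul_assoc, ← mul_assoc, ← map_mul]
        exact .step _ _ _ (mul_mem hy hd) hw
    · refine Wick1_stab hN fun w hw => ?_
      rw [hc, add_mul]
      refine add_mem (hin _ ?_) ?_
      · have := Wick1_W.step (L := L) 1 i w (one_mem E) hw
        rwa [map_one, one_mul] at this
      · rcases hw with ⟨d, hd⟩ | ⟨d, j, w, hd, hw⟩
        · exact Submodule.mem_sup_right (hv _ d hd)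
        · obtain ⟨s, hs⟩ := hm (bar i) j d hd
          rw [← mul_assoc, ← mul_assoc, hs, smul_mul_assoc, one_mul]
          exact Submodule.smul_mem _ _ (hin _ hw)

end Abstract

/-- operators which kill all vacuum like vectors -/
def Wick1_N (T : TW A H) (D : StarSubalgebra ℂ A) (ℓ : I → (H →L[ℂ] H)) :
    Submodule ℂ (H →L[ℂ] H) where
  carrier := {n | ∀ ζ, Vac T D ℓ ζ → n ζ = 0}
  add_mem' ha hb ζ hζ := by
    rw [add_apply, ha ζ hζ, hb ζ hζ, add_zero]
  zero_mem' _ _ := rfl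
  smul_mem' s n hn ζ hζ := by
    rw [smul_apply, hn ζ hζ, smul_zero]

theorem Wick1_scalar (h : CC T D bar ℓ c) (i j : I) {d : A} (hd : d ∈ D) :
    ∃ s : ℂ, star (ℓ i) * T.L d * ℓ j = s • (1 : H →L[ℂ] H) := by
  by_cases hij : i = j
  · subst hij
    exact ⟨_, h.same i d hd⟩
  · exact ⟨0, by rw [h.diff i j hij d hd, zero_smul]⟩

theorem Wick1_cw {w : H →L[ℂ] H} (hw : Wick1_W T.L.toAlgHom (D : Set A) ℓ w) : CW T D ℓ w := by
  induction hw with
  | base d hd => exact .base d hd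
  | step d i w hd _ ih => exact .step d i w hd ih

theorem Wick1_inner {d : A} (hd : d ∈ D) (i : I) {ζ' : H} (hζ : Vac T D ℓ ζ') (ξ : H) :
    ⟪ζ', T.L d (ℓ i ξ)⟫_ℂ = 0 := by
  have h := hζ i (star d) (star_mem hd)
  rw [map_star, ContinuousLinearMap.star_eq_adjoint, ContinuousLinearMap.star_eq_adjoint] at h
  rw [← ContinuousLinearMap.adjoint_inner_left, ← ContinuousLinearMap.adjoint_inner_left, h,
    inner_zero_left]

theorem CC.star_c (h : CC T D bar ℓ c) (i : I) : star (c i) = c (bar i) := by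
  refine T.L_inj ?_
  rw [map_star, h.split, h.split, h.invol, star_add, star_star, add_comm]
theorem CC.iso (h : CC T D bar ℓ c) (i : I) : star (ℓ i) * ℓ i = 1 := by
  have := h.same i 1 (one_mem D)
  rwa [map_one, mul_one, T.τ_one, one_smul] at this
theorem CC.orth (h : CC T D bar ℓ c) {i j : I} (hij : i ≠ j) : star (ℓ i) * ℓ j = 0 := by
  have := h.diff i j hij 1 (one_mem D)
  rwa [map_one, mul_one] at this
theorem CC.norm_le (h : CC T D bar ℓ c) (i : I) : ‖ℓ i‖ ≤ 1 := by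
  have h1 : ‖ℓ i‖ * ‖ℓ i‖ ≤ 1 := by
    rw [← CStarRing.norm_star_mul_self, h.iso]
    exact ContinuousLinearMap.norm_id_le
  nlinarith [norm_nonneg (ℓ i)]
theorem CC.norm_c_le (h : CC T D bar ℓ c) (i : I) : ‖c i‖ ≤ 2 := by
  rw [← T.norm_L, h.split]
  have h1 := norm_add_le (ℓ i) (star (ℓ (bar i)))
  rw [norm_star] at h1
  linarith [h.norm_le i, h.norm_le (bar i)]
theorem CC.vac_Ω (h : CC T D bar ℓ c) : Vac T D ℓ T.Ω := h.vac
theorem CC.mono (h : CC T D bar ℓ c) {D' : StarSubalgebra ℂ A} (hD : D' ≤ D) :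
    CC T D' bar ℓ c :=
  ⟨h.invol, h.split, fun i d hd => h.same i d (hD hd), fun i j hij d hd => h.diff i j hij d (hD hd),
    fun i d hd => h.vac i d (hD hd)⟩
theorem CC.sub (h : CC T D bar ℓ c) {I' : Type} {bar' : I' → I'} (f : I' → I)
    (hf : Function.Injective f) (hb : ∀ i, f (bar' i) = bar (f i)) :
    CC T D bar' (fun i => ℓ (f i)) (fun i => c (f i)) :=
  ⟨fun i => hf (by rw [hb, hb, h.invol]), fun i => by rw [hb]; exact h.split _,
    fun i => h.same _, fun i j hij => h.diff _ _ (hf.ne hij), fun i => h.vac _⟩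
theorem CC.wick_one (h : CC T D bar ℓ c) {y : A}
    (hy : y ∈ StarAlgebra.adjoin ℂ ((D : Set A) ∪ Set.range c)) :
    ∃ d ∈ D, ∃ w ∈ Submodule.span ℂ (CW1 T D ℓ),
      ∀ ζ, Vac T D ℓ ζ → T.L y ζ = T.L d ζ + w ζ := by
  have h1 := Wick1_core T.L.toAlgHom D ℓ (fun i => star (ℓ i)) c (Wick1_N T D ℓ)
    (fun x n hn ζ hζ => by
      change x (n ζ) = 0
      rw [hn ζ hζ, map_zero])
    h.split h.star_c (fun i j d hd => Wick1_scalar h i j hd) (fun i d hd ζ hζ => hζ i d hd) hy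
  obtain ⟨u, hu, n, hn, e⟩ := Submodule.mem_sup.1 h1
  have h2 : ∃ d ∈ D, ∃ w ∈ Submodule.span ℂ (CW1 T D ℓ), u = T.L d + w := by
    clear e
    induction hu using Submodule.span_induction with
    | mem w hw =>
      rcases Wick1_cw hw with ⟨d, hd⟩ | ⟨d, i, w', hd, hw'⟩
      · exact ⟨d, hd, 0, zero_mem _, (add_zero _).symm⟩
      · exact ⟨0, zero_mem D, _, Submodule.subset_span ⟨d, hd, i, w', hw', rfl⟩,
          by rw [map_zero, zero_add]⟩
    | zero => exact ⟨0, zero_mem D, 0, zero_mem _, by rw [map_zero, zero_add]⟩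
    | add a b _ _ ha hb =>
      obtain ⟨d, hd, w, hw, rfl⟩ := ha
      obtain ⟨d', hd', w', hw', rfl⟩ := hb
      exact ⟨d + d', add_mem hd hd', w + w', add_mem hw hw', by rw [map_add]; abel⟩
    | smul s a _ ha =>
      obtain ⟨d, hd, w, hw, rfl⟩ := ha
      exact ⟨s • d, D.smul_mem hd s, s • w, Submodule.smul_mem _ s hw,
        by rw [map_smul, smul_add]⟩
  obtain ⟨d, hd, w, hw, rfl⟩ := h2
  refine ⟨d, hd, w, hw, fun ζ hζ => ?_⟩
  have e' : T.L y = T.L d + w + n := e.symm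
  rw [e', add_apply, add_apply, hn ζ hζ, add_zero]
theorem CC.wick_two (h : CC T D bar ℓ c) {w : H →L[ℂ] H} (hw : CW T D ℓ w) :
    ∃ y ∈ StarAlgebra.adjoin ℂ ((D : Set A) ∪ Set.range c),
      ∀ ζ, Vac T D ℓ ζ → w ζ = T.L y ζ := by
  have hD : ∀ d ∈ D, d ∈ StarAlgebra.adjoin ℂ ((D : Set A) ∪ Set.range c) :=
    fun d hd => StarAlgebra.subset_adjoin ℂ _ (Or.inl hd)
  have hc : ∀ i, c i ∈ StarAlgebra.adjoin ℂ ((D : Set A) ∪ Set.range c) :=
    fun i => StarAlgebra.subset_adjoin ℂ _ (Or.inr ⟨i, rfl⟩)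
  suffices H : (∃ y ∈ StarAlgebra.adjoin ℂ ((D : Set A) ∪ Set.range c),
      ∀ ζ, Vac T D ℓ ζ → w ζ = T.L y ζ) ∧
      ∀ j, ∃ y ∈ StarAlgebra.adjoin ℂ ((D : Set A) ∪ Set.range c),
        ∀ ζ, Vac T D ℓ ζ → (star (ℓ j)) (w ζ) = T.L y ζ from H.1
  induction hw with
  | base d hd =>
    exact ⟨⟨d, hD d hd, fun _ _ => rfl⟩,
      fun j => ⟨0, zero_mem _, fun ζ hζ => by rw [hζ j d hd, map_zero]; rfl⟩⟩
  | step d i w hd _ ih =>
    obtain ⟨⟨y, hy, e⟩, ih⟩ := ih
    refine ⟨?_, fun j => ?_⟩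
    · obtain ⟨y', hy', e'⟩ := ih (bar i)
      refine ⟨d * (c i * y - y'), mul_mem (hD d hd) (sub_mem (mul_mem (hc i) hy) hy'),
        fun ζ hζ => ?_⟩
      rw [map_mul, map_sub, map_mul, h.split]
      change T.L d (ℓ i (w ζ)) =
        T.L d (ℓ i (T.L y ζ) + (star (ℓ (bar i))) (T.L y ζ) - T.L y' ζ)
      rw [← e ζ hζ, ← e' ζ hζ, add_sub_cancel_right]
    · obtain ⟨s, hs⟩ := Wick1_scalar h j i hd
      refine ⟨s • y, StarSubalgebra.smul_mem _ hy s, fun ζ hζ => ?_⟩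
      change (star (ℓ j) * T.L d * ℓ i) (w ζ) = _
      rw [hs, map_smul, e ζ hζ]
      rfl
theorem inner_cw1 {w : H →L[ℂ] H} (hw : w ∈ Submodule.span ℂ (CW1 T D ℓ)) {ζ' : H}
    (hζ : Vac T D ℓ ζ') (ζ : H) : ⟪ζ', w ζ⟫_ℂ = 0 := by
  induction hw using Submodule.span_induction with
  | mem w hw =>
    obtain ⟨d, hd, i, w, -, rfl⟩ := hw
    exact Wick1_inner hd i hζ (w ζ)
  | zero => exact inner_zero_right _
  | add a b _ _ ha hb =>
    rw [add_apply, inner_add_right, ha, hb, add_zero]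
  | smul s a _ ha => rw [smul_apply, inner_smul_right, ha, mul_zero]
theorem CC.vac_inner (h : CC T D bar ℓ c) {y : A}
    (hy : y ∈ StarAlgebra.adjoin ℂ ((D : Set A) ∪ Set.range c)) :
    ∃ d ∈ D, (∀ d' ∈ D, T.τ (d' * y) = T.τ (d' * d)) ∧
      ∀ ζ ζ', Vac T D ℓ ζ → Vac T D ℓ ζ' → ⟪ζ', T.L y ζ⟫_ℂ = ⟪ζ', T.L d ζ⟫_ℂ := by
  obtain ⟨d, hd, w, hw, e⟩ := h.wick_one hy
  have h2 : ∀ ζ ζ', Vac T D ℓ ζ → Vac T D ℓ ζ' → ⟪ζ', T.L y ζ⟫_ℂ = ⟪ζ', T.L d ζ⟫_ℂ :=
    fun ζ ζ' hζ hζ' => by rw [e ζ hζ, inner_add_right, inner_cw1 hw hζ', add_zero]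
  refine ⟨d, hd, fun d' hd' => ?_, h2⟩
  have h3 := h2 T.Ω (T.v (star d')) h.vac_Ω fun i a ha => by
    rw [← T.v_mul]
    exact h.vac i _ (mul_mem ha (star_mem hd'))
  rwa [← T.v_def, ← T.v_def, T.inner_v, T.inner_v, star_star] at h3
theorem CC.match (h : CC T D bar ℓ c) {D' : StarSubalgebra ℂ A'} {ℓ' : I → (H' →L[ℂ] H')}
    {c' : I → A'} (h' : CC T' D' bar ℓ' c') {S : Set (A × A')} (hS : Match T T' S)
    (hD : ∀ p ∈ S, p.1 ∈ D ∧ p.2 ∈ D') :
    Match T T' (S ∪ Set.range fun i => (c i, c' i)) := by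
  intro g hg
  have hE := adjoin_pair_mem hD
  let N : Submodule ℂ ((H →L[ℂ] H) × (H' →L[ℂ] H')) :=
    (Wick1_N T D ℓ).prod (Wick1_N T' D' ℓ')
  have h1 := Wick1_core (T.L.toAlgHom.prodMap T'.L.toAlgHom) (StarAlgebra.adjoin ℂ S)
    (fun i => (ℓ i, ℓ' i)) (fun i => (star (ℓ i), star (ℓ' i))) (fun i => (c i, c' i)) N
    (fun x n hn => ⟨fun ζ hζ => by
      change x.1 (n.1 ζ) = 0
      rw [hn.1 ζ hζ, map_zero], fun ζ hζ => by
      change x.2 (n.2 ζ) = 0
      rw [hn.2 ζ hζ, map_zero]⟩)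
    (fun i => Prod.ext (h.split i) (h'.split i)) (fun i => Prod.ext (h.star_c i) (h'.star_c i))
    (fun i j d hd => by
      by_cases hij : i = j
      · subst hij
        refine ⟨T.τ d.1, Prod.ext (h.same i _ (hE d hd).1) ?_⟩
        rw [hS d hd]
        exact h'.same i _ (hE d hd).2
      · refine ⟨0, ?_⟩
        rw [zero_smul]
        exact Prod.ext (h.diff i j hij _ (hE d hd).1) (h'.diff i j hij _ (hE d hd).2))
    (fun i d hd => ⟨fun ζ hζ => hζ i _ (hE d hd).1, fun ζ hζ => hζ i _ (hE d hd).2⟩)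
    (StarAlgebra.adjoin_mono
      (Set.union_subset_union_left _ (StarAlgebra.subset_adjoin ℂ S)) hg)
  obtain ⟨u, hu, n, hn, e⟩ := Submodule.mem_sup.1 h1
  have h2 : ⟪T.Ω, u.1 T.Ω⟫_ℂ = ⟪T'.Ω, u.2 T'.Ω⟫_ℂ := by
    clear e
    induction hu using Submodule.span_induction with
    | mem w hw =>
      rcases hw with ⟨d, hd⟩ | ⟨d, i, w, hd, hw⟩
      · exact hS d hd
      · exact (Wick1_inner (hE d hd).1 i h.vac_Ω (w.1 T.Ω)).trans
          (Wick1_inner (hE d hd).2 i h'.vac_Ω (w.2 T'.Ω)).symm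
    | zero => exact (inner_zero_right _).trans (inner_zero_right _).symm
    | add a b _ _ ha hb =>
      rw [Prod.fst_add, Prod.snd_add, add_apply,
        add_apply, inner_add_right, inner_add_right, ha, hb]
    | smul s a _ ha =>
      rw [Prod.smul_fst, Prod.smul_snd, smul_apply,
        smul_apply, inner_smul_right, inner_smul_right, ha]
  have e1 : T.L g.1 = u.1 + n.1 := (congrArg Prod.fst e).symm
  have e2 : T'.L g.2 = u.2 + n.2 := (congrArg Prod.snd e).symm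
  rw [T.τ_def, T'.τ_def, T.v_def, T'.v_def, e1, e2, add_apply,
    add_apply, hn.1 _ h.vac_Ω, hn.2 _ h'.vac_Ω, add_zero, add_zero, h2]

end Pool.Agent.TS
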