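import Pool.Agent.P.MP_e05717_an.Wick1

/-!
Row TS-Wick2. Enlarging the base, the splitting of the Fock space, ping-pong estimates.
Hints: `enlarge`: apply `wick_one` to the subfamily indexed by the complement of the range of `f`
(`CC.sub` with the subtype), the vectors `ℓ (f j) η` and `Ω` are vacuum like for it; pass to `T.W` with
`exists_seq` and `closed_L` (`‖L y (ℓ j η)‖ = n2 y * ‖η‖`). `split_dense`: the span contains `w Ω` for
each creation word `w` (induction; it is stable under `ℓ i`, `i ∈ J`, by `wick_one`, `wick_two` for the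
subfamily `J`; `wick_two` for the whole family shows that `ℓ i (w Ω)` is a vector `v z`), and these span
`v '' adjoin` by `wick_one`. `center_mem`: base `⊥`; `‖L y ζ‖ = n2 y * ‖ζ‖` for vacuum like `ζ`.
-/

open scoped ComplexOrder InnerProductSpace ComplexConjugate ENNReal
open Filter Topology Pool.Agent.P.MP_5d580a_an

set_option linter.unusedSectionVars false
set_option linter.unusedVariables false

noncomputable section

namespace Pool.Agent.TS

variable {A H : Type} [CStarAlgebra A] [NormedAddCommGroup H] [InnerProductSpace ℂ H]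
  [CompleteSpace H]

variable {T : TW A H} {D : StarSubalgebra ℂ A} {I : Type} {bar : I → I}
  {ℓ : I → (H →L[ℂ] H)} {c : I → A}

theorem Wick2_norm {y : A} {ζ η : H}
    (h : ⟪ζ, T.L (star y * y) ζ⟫_ℂ = T.τ (star y * y) * ⟪η, η⟫_ℂ) :
    ‖T.L y ζ‖ = T.n2 y * ‖η‖ := by
  rw [map_mul, map_star, mul_apply_eq_comp, ContinuousLinearMap.star_eq_adjoint,
    ContinuousLinearMap.adjoint_inner_right, T.τ_star_mul_self, inner_self_eq_norm_sq_to_K,
    inner_self_eq_norm_sq_to_K] at h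
  have h2 : ‖T.L y ζ‖ ^ 2 = T.n2 y ^ 2 * ‖η‖ ^ 2 := by
    apply Complex.ofReal_injective
    push_cast at h ⊢
    exact h
  rw [← mul_pow] at h2
  exact (pow_left_inj₀ (norm_nonneg _) (mul_nonneg (T.n2_nonneg y) (norm_nonneg _))
    two_ne_zero).1 h2

/-- convergence in the 2-norm gives convergence on vectors with a trace like state -/
theorem Wick2_lim {B : StarSubalgebra ℂ A} {ζ η : H}
    (h : ∀ y ∈ B, ⟪ζ, T.L y ζ⟫_ℂ = T.τ y * ⟪η, η⟫_ℂ) {a : ℕ → A} (ha : ∀ n, a n ∈ B) {x : A}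
    (hx : Tendsto (fun n => T.v (a n)) atTop (𝓝 (T.v x))) :
    Tendsto (fun n => T.L (a n) ζ) atTop (𝓝 (T.L x ζ)) := by
  have hc : CauchySeq fun n => T.L (a n) ζ := by
    have h1 := hx.cauchySeq
    rw [Metric.cauchySeq_iff] at h1 ⊢
    intro ε hε
    have hη : 0 < ‖η‖ + 1 := by positivity
    obtain ⟨N, hN⟩ := h1 (ε / (‖η‖ + 1)) (by positivity)
    refine ⟨N, fun m hm n hn => ?_⟩
    have h2 := hN m hm n hn
    have hb := sub_mem (ha m) (ha n)
    rw [dist_eq_norm, ← map_sub, ← T.n2_def, lt_div_iff₀ hη] at h2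
    rw [dist_eq_norm, ← sub_apply, ← map_sub, Wick2_norm (h _ (mul_mem (star_mem hb) hb))]
    nlinarith [T.n2_nonneg (a m - a n)]
  obtain ⟨ζ', hζ'⟩ := cauchySeq_tendsto_of_complete hc
  rw [T.closed_L hx hζ']
  exact hζ'

theorem Wick2_τ {a : ℕ → A} {x : A} (hx : Tendsto (fun n => T.v (a n)) atTop (𝓝 (T.v x))) :
    Tendsto (fun n => T.τ (a n)) atTop (𝓝 (T.τ x)) :=
  tendsto_const_nhds.inner hx

/-- the subfamily indexed by a stable set -/
theorem Wick2_sub (h : CC T D bar ℓ c) (J : Set I) (hJ : ∀ i ∈ J, bar i ∈ J) :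
    CC T D (fun i : J => (⟨bar i, hJ i i.2⟩ : J)) (fun i => ℓ i) fun i => c i :=
  h.sub Subtype.val Subtype.val_injective fun _ => rfl

theorem Wick2_range (c : I → A) (J : Set I) : (Set.range fun i : J => c i) = c '' J :=
  (Set.image_eq_range c J).symm

theorem Wick2_vac (h : CC T D bar ℓ c) {J : Set I} {k : I} (hk : k ∉ J) (η : H) :
    Vac T D (fun i : J => ℓ i) (ℓ k η) := by
  intro i d hd
  have := h.diff i k (fun e => hk (e ▸ i.2)) d hd
  exact congrArg (fun S : H →L[ℂ] H => S η) this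

theorem Wick2_kill (h : CC T D bar ℓ c) {J : Set I} {k : I} (hk : k ∉ J) {w : H →L[ℂ] H}
    (hw : w ∈ Submodule.span ℂ (CW1 T D fun i : J => ℓ i)) (ζ : H) :
    (star (ℓ k)) (w ζ) = 0 := by
  induction hw using Submodule.span_induction with
  | mem w hw =>
    obtain ⟨d, hd, i, w, -, rfl⟩ := hw
    have := h.diff k i (fun e => hk (e ▸ i.2)) d hd
    exact congrArg (fun S : H →L[ℂ] H => S (w ζ)) this
  | zero => exact map_zero _
  | add a b _ _ ha hb => rw [add_apply, map_add, ha, hb, add_zero]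
  | smul s a _ ha => rw [smul_apply, map_smul, ha, smul_zero]

/-- the algebraic form of the enlargement -/
theorem Wick2_alg (h : CC T D bar ℓ c) {J : Set I} (hJ : ∀ i ∈ J, bar i ∈ J) {y : A}
    (hy : y ∈ StarAlgebra.adjoin ℂ ((D : Set A) ∪ c '' J)) {k : I} (hk : k ∉ J) :
    (∀ η, (star (ℓ k)) (T.L y (ℓ k η)) = T.τ y • η) ∧
      (∀ l, l ∉ J → k ≠ l → ∀ η, (star (ℓ k)) (T.L y (ℓ l η)) = 0) ∧
      (star (ℓ k)) (T.v y) = 0 := by
  have hK := Wick2_sub h J hJ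
  rw [← Wick2_range] at hy
  obtain ⟨d, hd, w, hw, e⟩ := hK.wick_one hy
  have e1 : T.τ y = T.τ d := by
    rw [T.τ_def, T.τ_def, T.v_def, T.v_def, e _ hK.vac_Ω, inner_add_right,
      inner_cw1 hw hK.vac_Ω, add_zero]
  refine ⟨fun η => ?_, fun l hl hkl η => ?_, ?_⟩
  · rw [e _ (Wick2_vac h hk η), map_add, Wick2_kill h hk hw, add_zero, e1]
    exact congrArg (fun S : H →L[ℂ] H => S η) (h.same k d hd)
  · rw [e _ (Wick2_vac h hl η), map_add, Wick2_kill h hk hw, add_zero]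
    exact congrArg (fun S : H →L[ℂ] H => S η) (h.diff k l hkl d hd)
  · rw [T.v_def, e _ hK.vac_Ω, map_add, Wick2_kill h hk hw, add_zero]
    exact h.vac k d hd

/-- on vacuum like vectors a creation operator acts inside the algebra -/
theorem Wick2_ell (h : CC T D bar ℓ c) (i : I) {y : A}
    (hy : y ∈ StarAlgebra.adjoin ℂ ((D : Set A) ∪ Set.range c)) :
    ∃ y' ∈ StarAlgebra.adjoin ℂ ((D : Set A) ∪ Set.range c),
      ∀ ζ, Vac T D ℓ ζ → ℓ i (T.L y ζ) = T.L y' ζ := by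
  have key : ∀ w, CW T D ℓ w → ∃ y' ∈ StarAlgebra.adjoin ℂ ((D : Set A) ∪ Set.range c),
      ∀ ζ, Vac T D ℓ ζ → ℓ i (w ζ) = T.L y' ζ := by
    intro w hw
    have h1 := CW.step (T := T) 1 i w (one_mem D) hw
    rw [map_one, one_mul] at h1
    exact h.wick_two h1
  obtain ⟨d, hd, w, hw, e⟩ := h.wick_one hy
  obtain ⟨y₁, hy₁, e₁⟩ := key _ (.base d hd)
  have h2 : ∃ y' ∈ StarAlgebra.adjoin ℂ ((D : Set A) ∪ Set.range c),
      ∀ ζ, Vac T D ℓ ζ → ℓ i (w ζ) = T.L y' ζ := by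
    clear e
    induction hw using Submodule.span_induction with
    | mem w hw =>
      obtain ⟨d, hd, j, w, hw, rfl⟩ := hw
      exact key _ (.step d j w hd hw)
    | zero => exact ⟨0, zero_mem _, fun ζ _ => by rw [map_zero, zero_apply, map_zero]⟩
    | add a b _ _ ha hb =>
      obtain ⟨y, hy, e⟩ := ha
      obtain ⟨y', hy', e'⟩ := hb
      exact ⟨y + y', add_mem hy hy', fun ζ hζ => by
        rw [add_apply, map_add, e ζ hζ, e' ζ hζ, map_add, add_apply]⟩
    | smul s a _ ha =>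
      obtain ⟨y, hy, e⟩ := ha
      exact ⟨s • y, StarSubalgebra.smul_mem _ hy s, fun ζ hζ => by
        rw [smul_apply, map_smul, e ζ hζ, map_smul, smul_apply]⟩
  obtain ⟨y₂, hy₂, e₂⟩ := h2
  exact ⟨y₁ + y₂, add_mem hy₁ hy₂, fun ζ hζ => by
    rw [e ζ hζ, map_add, e₁ ζ hζ, e₂ ζ hζ, map_add, add_apply]⟩

theorem Wick2_stab {s : Set H} (X : H →L[ℂ] H) (h : ∀ ξ ∈ s, X ξ ∈ Submodule.span ℂ s) {ξ : H}
    (hξ : ξ ∈ Submodule.span ℂ s) : X ξ ∈ Submodule.span ℂ s := by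
  have : Submodule.span ℂ s ≤ (Submodule.span ℂ s).comap (X : H →ₗ[ℂ] H) :=
    Submodule.span_le.2 h
  exact this hξ

theorem CC.enlarge (h : CC T D bar ℓ c) {I' : Type} {bar' : I' → I'} (f : I' → I)
    (hf : Function.Injective f) (hb : ∀ i, f (bar' i) = bar (f i)) :
    CC T (T.W ((D : Set A) ∪ {x | ∃ i, i ∉ Set.range f ∧ x = c i})) bar' (fun i => ℓ (f i))
      (fun i => c (f i)) := by
  have hJ : ∀ i ∈ (Set.range f)ᶜ, bar i ∈ (Set.range f)ᶜ := by
    rintro i hi ⟨j, hj⟩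
    exact hi ⟨bar' j, by rw [hb, hj, h.invol]⟩
  have eS : {x | ∃ i, i ∉ Set.range f ∧ x = c i} = c '' (Set.range f)ᶜ := by
    ext x
    exact ⟨fun ⟨i, hi, e⟩ => ⟨i, hi, e.symm⟩, fun ⟨i, hi, e⟩ => ⟨i, hi, e.symm⟩⟩
  have hn : ∀ i, f i ∉ (Set.range f)ᶜ := fun i hi => hi ⟨i, rfl⟩
  rw [eS]
  have hlim : ∀ j η {a : ℕ → A} {x : A},
      (∀ n, a n ∈ StarAlgebra.adjoin ℂ ((D : Set A) ∪ c '' (Set.range f)ᶜ)) →
      Tendsto (fun n => T.v (a n)) atTop (𝓝 (T.v x)) → ∀ i,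
      Tendsto (fun n => (star (ℓ (f i))) (T.L (a n) (ℓ (f j) η))) atTop
        (𝓝 ((star (ℓ (f i))) (T.L x (ℓ (f j) η)))) := by
    intro j η a x ha hx i
    refine ((star (ℓ (f i))).continuous.tendsto _).comp (Wick2_lim (η := η) ?_ ha hx)
    intro y hy
    rw [← ContinuousLinearMap.adjoint_inner_right, ← ContinuousLinearMap.star_eq_adjoint,
      (Wick2_alg h hJ hy (hn j)).1, inner_smul_right]
  refine ⟨(h.sub f hf hb).invol, (h.sub f hf hb).split, fun i x hx => ?_, fun i j hij x hx => ?_,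
    fun i x hx => ?_⟩
  · obtain ⟨a, ha, hx'⟩ := T.exists_seq hx
    ext η
    have h1 := hlim i η ha hx' i
    simp only [fun n => (Wick2_alg h hJ (ha n) (hn i)).1 η] at h1
    exact tendsto_nhds_unique h1 ((Wick2_τ hx').smul_const η)
  · obtain ⟨a, ha, hx'⟩ := T.exists_seq hx
    ext η
    have h1 := hlim j η ha hx' i
    simp only [fun n => (Wick2_alg h hJ (ha n) (hn i)).2.1 _ (hn j) (hf.ne hij) η] at h1
    exact tendsto_nhds_unique h1 tendsto_const_nhds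
  · obtain ⟨a, ha, hx'⟩ := T.exists_seq hx
    have h1 : Tendsto (fun n => (star (ℓ (f i))) (T.v (a n))) atTop
        (𝓝 ((star (ℓ (f i))) (T.v x))) := ((star (ℓ (f i))).continuous.tendsto _).comp hx'
    simp only [fun n => (Wick2_alg h hJ (ha n) (hn i)).2.2] at h1
    exact tendsto_nhds_unique h1 tendsto_const_nhds

theorem CC.split_dense (h : CC T D bar ℓ c) (hgen : T.W ((D : Set A) ∪ Set.range c) = ⊤)
    (J : Set I) (hJ : ∀ i, bar i ∈ J ↔ i ∈ J) :
    Dense (Submodule.span ℂ {ξ : H | ∃ y ∈ StarAlgebra.adjoin ℂ ((D : Set A) ∪ c '' J),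
      ξ = T.v y ∨ ∃ i, i ∉ J ∧ ∃ (η : H) (z : A), ℓ i η = T.v z ∧ ξ = T.v (y * z)} : Set H) := by
  set s := {ξ : H | ∃ y ∈ StarAlgebra.adjoin ℂ ((D : Set A) ∪ c '' J),
      ξ = T.v y ∨ ∃ i, i ∉ J ∧ ∃ (η : H) (z : A), ℓ i η = T.v z ∧ ξ = T.v (y * z)} with hs
  have hK := Wick2_sub h J fun i hi => (hJ i).2 hi
  have hD : ∀ d ∈ D, d ∈ StarAlgebra.adjoin ℂ ((D : Set A) ∪ c '' J) :=
    fun d hd => StarAlgebra.subset_adjoin ℂ _ (Or.inl hd)
  have hL : ∀ d ∈ D, ∀ ξ ∈ Submodule.span ℂ s, T.L d ξ ∈ Submodule.span ℂ s := by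
    intro d hd ξ hξ
    refine Wick2_stab _ ?_ hξ
    rintro _ ⟨y, hy, rfl | ⟨i, hi, η, z, e, rfl⟩⟩
    · exact Submodule.subset_span ⟨d * y, mul_mem (hD d hd) hy, Or.inl (T.v_mul d y).symm⟩
    · exact Submodule.subset_span ⟨d * y, mul_mem (hD d hd) hy,
        Or.inr ⟨i, hi, η, z, e, by rw [mul_assoc, T.v_mul d]⟩⟩
  have hl : ∀ i ∈ J, ∀ ξ ∈ Submodule.span ℂ s, ℓ i ξ ∈ Submodule.span ℂ s := by
    intro i hi ξ hξ
    refine Wick2_stab _ ?_ hξ
    rintro _ ⟨y, hy, hξ'⟩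
    rw [← Wick2_range] at hy
    obtain ⟨y', hy', e'⟩ := Wick2_ell hK ⟨i, hi⟩ hy
    rw [Wick2_range] at hy'
    rcases hξ' with rfl | ⟨k, hk, η, z, e, rfl⟩
    · exact Submodule.subset_span ⟨y', hy', Or.inl (e' _ hK.vac_Ω)⟩
    · refine Submodule.subset_span ⟨y', hy', Or.inr ⟨k, hk, η, z, e, ?_⟩⟩
      rw [T.v_mul, T.v_mul, ← e]
      exact e' _ (Wick2_vac h hk η)
  have hw : ∀ w, CW T D ℓ w → w T.Ω ∈ Submodule.span ℂ s := by
    intro w hw
    induction hw with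
    | base d hd => exact Submodule.subset_span ⟨d, hD d hd, Or.inl rfl⟩
    | step d i w hd hw ih =>
      change T.L d (ℓ i (w T.Ω)) ∈ _
      by_cases hi : i ∈ J
      · exact hL d hd _ (hl i hi _ ih)
      · have h1 := CW.step (T := T) 1 i w (one_mem D) hw
        rw [map_one, one_mul] at h1
        obtain ⟨z, -, e⟩ := h.wick_two h1
        have e' : ℓ i (w T.Ω) = T.v z := e _ h.vac_Ω
        exact Submodule.subset_span ⟨d, hD d hd, Or.inr ⟨i, hi, _, z, e', by rw [T.v_mul, e']⟩⟩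
  refine (T.dense_of_W_top hgen).mono ?_
  rintro _ ⟨y, hy, rfl⟩
  obtain ⟨d, hd, w, hw', e⟩ := h.wick_one hy
  rw [T.v_def, e _ h.vac_Ω]
  refine add_mem (hw _ (.base d hd)) ?_
  clear e
  induction hw' using Submodule.span_induction with
  | mem w hw' =>
    obtain ⟨d, hd, j, w, hw', rfl⟩ := hw'
    exact hw _ (.step d j w hd hw')
  | zero => exact zero_mem _
  | add a b _ _ ha hb => exact add_mem ha hb
  | smul t a _ ha => exact Submodule.smul_mem _ t ha

/-- a centred element of the algebra of a block maps vacuum like vectors into the span of the ranges -/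
theorem CC.center_mem (h : CC T D bar ℓ c) (J : Set I) (hJ : ∀ i ∈ J, bar i ∈ J) {x : A}
    (hx : x ∈ T.W (c '' J)) (h0 : T.τ x = 0) {ζ : H} (hζ : ∀ i ∈ J, (star (ℓ i)) ζ = 0) :
    T.L x ζ ∈ closure (Submodule.span ℂ {ξ : H | ∃ i ∈ J, ∃ η, ξ = ℓ i η} : Set H) := by
  have hK := Wick2_sub (h.mono (D' := ⊥) bot_le) J hJ
  have hb : ∀ d ∈ (⊥ : StarSubalgebra ℂ A), ∀ ξ, T.L d ξ = T.τ d • ξ := by
    intro d hd ξ
    obtain ⟨r, rfl⟩ := StarSubalgebra.mem_bot.1 hd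
    rw [Algebra.algebraMap_eq_smul_one, map_smul, map_smul, map_one, T.τ_one, smul_eq_mul, mul_one]
    rfl
  have hv : Vac T ⊥ (fun i : J => ℓ i) ζ := fun i d hd => by
    rw [hb d hd, map_smul, hζ i i.2, smul_zero]
  have key : ∀ y ∈ StarAlgebra.adjoin ℂ (c '' J), ⟪ζ, T.L y ζ⟫_ℂ = T.τ y * ⟪ζ, ζ⟫_ℂ ∧
      T.L y ζ - T.τ y • ζ ∈ Submodule.span ℂ {ξ : H | ∃ i ∈ J, ∃ η, ξ = ℓ i η} := by
    intro y hy
    have hy' : y ∈ StarAlgebra.adjoin ℂ
        (((⊥ : StarSubalgebra ℂ A) : Set A) ∪ Set.range fun i : J => c i) := by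
      rw [Wick2_range]
      exact StarAlgebra.adjoin_mono Set.subset_union_right hy
    obtain ⟨d, hd, w, hw, e⟩ := hK.wick_one hy'
    have e1 : T.τ y = T.τ d := by
      rw [T.τ_def, T.τ_def, T.v_def, T.v_def, e _ hK.vac_Ω, inner_add_right,
        inner_cw1 hw hK.vac_Ω, add_zero]
    rw [e _ hv, inner_add_right, inner_cw1 hw hv, add_zero, hb d hd, inner_smul_right, e1,
      add_sub_cancel_left]
    refine ⟨rfl, ?_⟩
    clear e
    induction hw using Submodule.span_induction with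
    | mem w hw =>
      obtain ⟨d, hd, j, w, -, rfl⟩ := hw
      change T.L d (ℓ j (w ζ)) ∈ _
      rw [hb d hd]
      exact Submodule.smul_mem _ _ (Submodule.subset_span ⟨j, j.2, _, rfl⟩)
    | zero => exact zero_mem _
    | add a b _ _ ha hb => exact add_mem ha hb
    | smul t a _ ha => exact Submodule.smul_mem _ t ha
  obtain ⟨a, ha, hx'⟩ := T.exists_seq hx
  have h1 := (Wick2_lim (fun y hy => (key y hy).1) ha hx').sub ((Wick2_τ hx').smul_const ζ)
  rw [h0, zero_smul, sub_zero] at h1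
  exact mem_closure_of_tendsto h1 (Eventually.of_forall fun n => (key _ (ha n)).2)

end Pool.Agent.TS
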