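import Pool.Agent.P.MP_e05717_an.Basic

/-!
Row TS-Wsub. The subalgebras `T.W S`.
Hints: `exists_projW` from `exists_proj_span`; `comm_L_W`: for `a n → x` in the 2-norm
`X (L (a n) (v z)) = X (R z (v (a n)))` converges, then `closed_L`; `bic`: `X` commutes with all `R y`
so `X = L x`, and with the projection of `exists_projW`, which fixes `Ω`.
-/

open scoped ComplexOrder InnerProductSpace ComplexConjugate ENNReal
open Filter Topology Pool.Agent.P.MP_5d580a_an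

set_option linter.unusedSectionVars false
set_option linter.unusedVariables false

noncomputable section

namespace Pool.Agent.TS

variable {A H : Type} [CStarAlgebra A] [NormedAddCommGroup H] [InnerProductSpace ℂ H]
  [CompleteSpace H]
variable {A' H' : Type} [CStarAlgebra A'] [NormedAddCommGroup H'] [InnerProductSpace ℂ H']
  [CompleteSpace H']

namespace TW

variable (T : TW A H)

theorem subset_W (S : Set A) : S ⊆ T.W S := fun x hx =>
  subset_closure ⟨x, StarAlgebra.subset_adjoin ℂ S hx, rfl⟩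

theorem adjoin_le_W (S : Set A) : StarAlgebra.adjoin ℂ S ≤ T.W S := fun x hx =>
  subset_closure ⟨x, hx, rfl⟩

theorem mem_W_iff {S : Set A} {x : A} :
    x ∈ T.W S ↔ ∀ ε : ℝ, 0 < ε → ∃ a ∈ StarAlgebra.adjoin ℂ S, T.n2 (x - a) < ε := by
  rw [T.mem_W, Metric.mem_closure_iff]
  refine forall₂_congr fun ε _ => ⟨?_, ?_⟩
  · rintro ⟨_, ⟨a, ha, rfl⟩, h⟩
    exact ⟨a, ha, by rwa [dist_eq_norm, ← map_sub] at h⟩
  · rintro ⟨a, ha, h⟩
    exact ⟨_, ⟨a, ha, rfl⟩, by rwa [dist_eq_norm, ← map_sub]⟩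

theorem mem_W_of_approx {S : Set A} {x : A}
    (h : ∀ ε : ℝ, 0 < ε → ∃ a ∈ T.W S, T.n2 (x - a) < ε) : x ∈ T.W S := by
  refine T.mem_W_iff.2 fun ε hε => ?_
  obtain ⟨a, ha, h1⟩ := h _ (half_pos hε)
  obtain ⟨b, hb, h2⟩ := T.mem_W_iff.1 ha _ (half_pos hε)
  exact ⟨b, hb, by linarith [T.n2_triangle x a b]⟩

theorem W_le_of_closed {S : Set A} (Q : StarSubalgebra ℂ A) (hS : S ⊆ Q)
    (hQ : ∀ x, (∀ ε : ℝ, 0 < ε → ∃ a ∈ Q, T.n2 (x - a) < ε) → x ∈ Q) : T.W S ≤ Q := by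
  intro x hx
  refine hQ x fun ε hε => ?_
  obtain ⟨a, ha, h⟩ := T.mem_W_iff.1 hx ε hε
  exact ⟨a, StarAlgebra.adjoin_le hS ha, h⟩

theorem W_le {S S' : Set A} (h : S ⊆ T.W S') : T.W S ≤ T.W S' :=
  T.W_le_of_closed _ h fun _ hx => T.mem_W_of_approx hx

theorem W_mono {S S' : Set A} (h : S ⊆ S') : T.W S ≤ T.W S' :=
  T.W_le (h.trans (T.subset_W S'))

theorem W_W (S : Set A) : T.W (T.W S : Set A) = T.W S :=
  le_antisymm (T.W_le subset_rfl) (T.subset_W _)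

theorem W_eq {S S' : Set A} (h : S ⊆ T.W S') (h' : S' ⊆ T.W S) : T.W S = T.W S' :=
  le_antisymm (T.W_le h) (T.W_le h')

theorem W_union_congr {S S₁ S₂ : Set A} (h : T.W S₁ = T.W S₂) :
    T.W (S ∪ S₁) = T.W (S ∪ S₂) := by
  refine T.W_eq (Set.union_subset (Set.subset_union_left.trans (T.subset_W _)) fun x hx => ?_)
    (Set.union_subset (Set.subset_union_left.trans (T.subset_W _)) fun x hx => ?_)
  · exact T.W_mono Set.subset_union_right (h ▸ T.subset_W S₁ hx)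
  · exact T.W_mono Set.subset_union_right (h.symm ▸ T.subset_W S₂ hx)

theorem W_family {κ : Type} (S : Set A) {x y : κ → A} (h : ∀ i, T.W {x i} = T.W {y i}) :
    T.W (S ∪ Set.range x) = T.W (S ∪ Set.range y) := by
  refine T.W_eq (Set.union_subset (Set.subset_union_left.trans (T.subset_W _)) ?_)
    (Set.union_subset (Set.subset_union_left.trans (T.subset_W _)) ?_)
  · rintro _ ⟨i, rfl⟩
    have h1 : x i ∈ T.W {y i} := h i ▸ T.subset_W _ rfl
    exact T.W_mono (Set.singleton_subset_iff.2 (Or.inr ⟨i, rfl⟩)) h1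
  · rintro _ ⟨i, rfl⟩
    have h1 : y i ∈ T.W {x i} := (h i).symm ▸ T.subset_W _ rfl
    exact T.W_mono (Set.singleton_subset_iff.2 (Or.inr ⟨i, rfl⟩)) h1

theorem isClosed_W (S : Set A) : IsClosed (T.W S : Set A) :=
  isClosed_closure.preimage T.continuous_v

theorem exists_seq {S : Set A} {x : A} (hx : x ∈ T.W S) :
    ∃ a : ℕ → A, (∀ n, a n ∈ StarAlgebra.adjoin ℂ S) ∧
      Tendsto (fun n => T.v (a n)) atTop (𝓝 (T.v x)) := by
  obtain ⟨ξ, h1, h2⟩ := mem_closure_iff_seq_limit.1 (T.mem_W.1 hx)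
  choose a ha hv using h1
  exact ⟨a, ha, h2.congr fun n => (hv n).symm⟩

/-- projection onto the closure of the vectors of a star subalgebra -/
theorem exists_proj (B : StarSubalgebra ℂ A) :
    ∃ E : H →L[ℂ] H, IsStarProjection E ∧ (∀ x ∈ B, E (T.v x) = T.v x) ∧
      (∀ ξ, E ξ ∈ closure (T.v '' (B : Set A))) ∧
      ∀ x ∈ B, E * T.L x = T.L x * E ∧ E * T.R x = T.R x * E := by
  obtain ⟨E, h1, h2, -, h3, -, h4⟩ := exists_proj_span (T.v '' (B : Set A))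
  have h5 : ∀ x ∈ B, E (T.v x) = T.v x := fun x hx => h2 _ ⟨x, hx, rfl⟩
  have h6 : (Submodule.span ℂ (T.v '' (B : Set A)) : Set H) = T.v '' (B : Set A) := by
    have := Submodule.span_eq (B.toSubalgebra.toSubmodule.map T.v)
    exact congrArg (fun V : Submodule ℂ H => (V : Set H)) this
  refine ⟨E, h1, h5, fun ξ => h6 ▸ h3 ξ, fun x hx => ⟨(h4 _ ?_ ?_).symm, (h4 _ ?_ ?_).symm⟩⟩
  · rintro _ ⟨y, hy, rfl⟩
    rw [← T.v_mul, h5 _ (mul_mem hx hy)]
  · rintro _ ⟨y, hy, rfl⟩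
    rw [← map_star, ← T.v_mul, h5 _ (mul_mem (star_mem hx) hy)]
  · rintro _ ⟨y, hy, rfl⟩
    rw [T.R_v, h5 _ (mul_mem hy hx)]
  · rintro _ ⟨y, hy, rfl⟩
    rw [← T.R_star, T.R_v, h5 _ (mul_mem hy (star_mem hx))]

theorem exists_projW (S : Set A) :
    ∃ E : H →L[ℂ] H, IsStarProjection E ∧ (∀ x ∈ T.W S, E (T.v x) = T.v x) ∧
      (∀ ξ, E ξ ∈ closure (T.v '' (StarAlgebra.adjoin ℂ S : Set A))) ∧
      (∀ x ∈ T.W S, E * T.L x = T.L x * E ∧ E * T.R x = T.R x * E) ∧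
      ∀ x, E (T.v x) = T.v x → x ∈ T.W S := by
  obtain ⟨E, h1, h2, h3, h4⟩ := T.exists_proj (T.W S)
  have h5 : ∀ ξ, E ξ ∈ closure (T.v '' (StarAlgebra.adjoin ℂ S : Set A)) := by
    intro ξ
    refine closure_minimal ?_ isClosed_closure (h3 ξ)
    rintro _ ⟨x, hx, rfl⟩
    exact hx
  exact ⟨E, h1, h2, h5, h4, fun x hx => T.mem_W.2 (hx ▸ h5 _)⟩

theorem comm_L_W {S : Set A} {X : H →L[ℂ] H}
    (h : ∀ s ∈ S, X * T.L s = T.L s * X ∧ X * T.L (star s) = T.L (star s) * X) :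
    ∀ x ∈ T.W S, X * T.L x = T.L x * X := by
  have h1 : ∀ a ∈ StarAlgebra.adjoin ℂ S,
      X * T.L a = T.L a * X ∧ X * T.L (star a) = T.L (star a) * X := by
    intro a ha
    induction ha using StarAlgebra.adjoin_induction with
    | mem a ha => exact h a ha
    | algebraMap r =>
      rw [← algebraMap_star_comm, AlgHomClass.commutes, AlgHomClass.commutes]
      exact ⟨(Algebra.commutes _ _).symm, (Algebra.commutes _ _).symm⟩
    | add a b _ _ ha hb =>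
      rw [star_add, map_add, map_add, mul_add, mul_add, add_mul, add_mul, ha.1, ha.2, hb.1, hb.2]
      exact ⟨rfl, rfl⟩
    | mul a b _ _ ha hb =>
      rw [star_mul, map_mul, map_mul]
      exact ⟨Commute.mul_right ha.1 hb.1, Commute.mul_right hb.2 ha.2⟩
    | star a _ ha =>
      rw [star_star]
      exact ha.symm
  intro x hx
  obtain ⟨a, ha, hv⟩ := T.exists_seq hx
  refine T.ext_v fun z => ?_
  have h2 : Tendsto (fun n => X (T.R z (T.v (a n)))) atTop (𝓝 (X (T.R z (T.v x)))) :=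
    ((X.continuous.comp (T.R z).continuous).tendsto _).comp hv
  have h3 : ∀ n, X (T.R z (T.v (a n))) = T.L (a n) (X (T.v z)) := fun n => by
    rw [T.R_v, T.v_mul]
    exact congrArg (fun Y : H →L[ℂ] H => Y (T.v z)) (h1 _ (ha n)).1
  have h4 := T.closed_L hv (h2.congr h3)
  rw [T.R_v, T.v_mul] at h4
  exact h4.symm

theorem comm_R_W {S : Set A} {X : H →L[ℂ] H}
    (h : ∀ s ∈ S, X * T.R s = T.R s * X ∧ X * T.R (star s) = T.R (star s) * X) :
    ∀ x ∈ T.W S, X * T.R x = T.R x * X := by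
  have h1 : ∀ a ∈ StarAlgebra.adjoin ℂ S,
      X * T.R a = T.R a * X ∧ X * T.R (star a) = T.R (star a) * X := by
    intro a ha
    induction ha using StarAlgebra.adjoin_induction with
    | mem a ha => exact h a ha
    | algebraMap r =>
      rw [← algebraMap_star_comm, Algebra.algebraMap_eq_smul_one, Algebra.algebraMap_eq_smul_one,
        map_smul, map_smul, T.R_one]
      simp
    | add a b _ _ ha hb =>
      rw [star_add, map_add, map_add, mul_add, mul_add, add_mul, add_mul, ha.1, ha.2, hb.1, hb.2]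
      exact ⟨rfl, rfl⟩
    | mul a b _ _ ha hb =>
      rw [star_mul, T.R_mul, T.R_mul]
      exact ⟨Commute.mul_right hb.1 ha.1, Commute.mul_right ha.2 hb.2⟩
    | star a _ ha =>
      rw [star_star]
      exact ha.symm
  intro x hx
  obtain ⟨a, ha, hv⟩ := T.exists_seq hx
  refine T.ext_v fun z => ?_
  have h2 : Tendsto (fun n => X (T.L z (T.v (a n)))) atTop (𝓝 (X (T.L z (T.v x)))) :=
    ((X.continuous.comp (T.L z).continuous).tendsto _).comp hv
  have h3 : ∀ n, X (T.L z (T.v (a n))) = T.R (a n) (X (T.v z)) := fun n => by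
    rw [← T.v_mul, ← T.R_v]
    exact congrArg (fun Y : H →L[ℂ] H => Y (T.v z)) (h1 _ (ha n)).1
  have h4 := T.closed_R hv (h2.congr h3)
  rw [← T.v_mul, ← T.R_v] at h4
  exact h4.symm

theorem comm_W {S : Set A} {y : A} (h : ∀ s ∈ S, y * s = s * y ∧ y * star s = star s * y) :
    ∀ x ∈ T.W S, y * x = x * y := by
  intro x hx
  refine T.L_inj ?_
  rw [map_mul, map_mul]
  refine T.comm_L_W (fun s hs => ?_) x hx
  rw [← map_mul, ← map_mul, ← map_mul, ← map_mul, (h s hs).1, (h s hs).2]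
  exact ⟨rfl, rfl⟩

theorem bic {S : Set A} {X : H →L[ℂ] H}
    (h : ∀ Y : H →L[ℂ] H,
      (∀ s ∈ S, Y * T.L s = T.L s * Y ∧ Y * T.L (star s) = T.L (star s) * Y) → Y * X = X * Y) :
    ∃ x ∈ T.W S, T.L x = X := by
  obtain ⟨x, rfl⟩ := T.full X fun y =>
    (h (T.R y) fun s _ => ⟨(T.L_R s y).symm, (T.L_R _ y).symm⟩).symm
  obtain ⟨E, -, h2, -, h3, h4⟩ := T.exists_projW S
  refine ⟨x, h4 x ?_, rfl⟩
  have h5 := h E fun s hs =>
    ⟨(h3 s (T.subset_W S hs)).1, (h3 _ (star_mem (T.subset_W S hs))).1⟩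
  have h6 : E (T.L x (T.v 1)) = T.L x (E (T.v 1)) :=
    congrArg (fun Y : H →L[ℂ] H => Y (T.v 1)) h5
  rwa [h2 1 (one_mem _), ← T.v_mul, mul_one] at h6

theorem dense_of_W_top {S : Set A} (h : T.W S = ⊤) :
    Dense (T.v '' (StarAlgebra.adjoin ℂ S : Set A)) := by
  rw [← dense_closure]
  refine Dense.mono ?_ T.dense_v
  rintro _ ⟨x, rfl⟩
  exact T.mem_W.1 (h ▸ StarSubalgebra.mem_top)


end TW

variable {T : TW A H} {T' : TW A' H'}

theorem TP.map_W {φ : A →⋆ₐ[ℂ] A'} (h : TP T T' φ) {S : Set A} {x : A} (hx : x ∈ T.W S) :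
    φ x ∈ T'.W (φ '' S) := by
  refine T'.mem_W_iff.2 fun ε hε => ?_
  obtain ⟨a, ha, h1⟩ := T.mem_W_iff.1 hx ε hε
  refine ⟨φ a, ?_, by rwa [← map_sub, h.n2]⟩
  rw [← StarAlgHom.map_adjoin]
  exact ⟨a, ha, rfl⟩

theorem TP.map_W_le {φ : A →⋆ₐ[ℂ] A'} (h : TP T T' φ) {S : Set A} {S' : Set A'}
    (hS : ∀ s ∈ S, φ s ∈ T'.W S') {x : A} (hx : x ∈ T.W S) : φ x ∈ T'.W S' :=
  T'.W_le (by rintro _ ⟨s, hs, rfl⟩; exact hS s hs) (h.map_W hx)

theorem TP.ext_W {φ ψ : A →⋆ₐ[ℂ] A'} (hφ : TP T T' φ) (hψ : TP T T' ψ) {S : Set A}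
    (h : ∀ s ∈ S, φ s = ψ s) : ∀ x ∈ T.W S, φ x = ψ x := by
  intro x hx
  have h1 : ∀ a ∈ StarAlgebra.adjoin ℂ S, φ a = ψ a := fun a ha =>
    StarAlgebra.adjoin_le (S := StarAlgHom.equalizer φ ψ) h ha
  rw [← sub_eq_zero, ← T'.n2_eq_zero]
  refine le_antisymm (le_of_forall_pos_le_add fun ε hε => ?_) (T'.n2_nonneg _)
  obtain ⟨a, ha, h2⟩ := T.mem_W_iff.1 hx _ (half_pos hε)
  have h3 := T'.n2_triangle (φ x) (φ a) (ψ x)
  have h4 : T'.n2 (φ x - φ a) = T.n2 (x - a) := by rw [← map_sub, hφ.n2]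
  have h5 : T'.n2 (φ a - ψ x) = T.n2 (x - a) := by
    rw [h1 a ha, ← map_sub, hψ.n2, T.n2_sub_comm]
  linarith


end Pool.Agent.TS
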